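import Pool.Agent.Work.MP_bde882_al_h62.Prog

/-!
Operator tables (generated): `T<degree>_<code>` is the right-normed word with the given code (base 4,
first letter lowest digit).
-/

set_option autoImplicit false

namespace Pool.Agent.Work.MP_bde882_al.Tab

open Pool.Agent.Work.MP_bde882_al.Pg62

noncomputable def c7_9232_0 : List Nat := [(nat_lit 0x18912eb1825e86d94892679d7ab2cc41d11eac44809598b1b4a57051d7b3c5cd956c991b3659b37326aacc258a58051d7498b22e554b0de263654163a6567498a00e28357621a0db4c13548338d5cb0114d2a9a850000000000000000000000000000000000000000000000000000000000000000000011938466492199c02c221ac0000000000000000000000000000000000000000000005a5ad4dccb245a53a2e846600000003a5d60305404c5900a51b391b64ccabcd18156120dec45355b11a139a60c590000000025c95441a15356600000002cb5d850000000010400514b12c54b2ca61ab00b140c823719600340061d90466ca2006c054dd6218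31000000000a3050470db0e742105a1caa3adace14918ab950c54268db6ba3718223424c612e40aca4651e535333a1b88dd55b6534e28c12234400160d49e7a29b2d841b62dc2d44dc634d81cd2cdbd6e91098b86d93103311468db29a32360114a95826a03b8935976459d7a305492ea10398b3474071b50ba52d20d9379625c58a00aa25602ca246a20892d224c23080c11ad9c489b1410a755164224cd4164120f650b2c316e14eb720e4d9aa656b0a4681c10890c48031d340cf602c3563b644555642200176eb05c4b26265c805014b7609b68b81c551565ab340075c458b9bb52521001b6dcf58a622e9a4154b9b2696214748812638e04a04244a929406b24053622eba20f0830b8016416b5ac5ac4500c508c0000c5b660636188d6c45160212a8a84314c6ec48d4e0a50c55aa5b98188ceda350d670e38e96ac60dac50ca9bce3d7474e4c11a8085b82b5bc4b283aa0170675d0c2f4aadd606e303127156986dd6ccda02c8861a45934419a6d54110026acb2eaa820c92e0db6c4e38694584ed1dc7570b2cc4a61932e152028ed469b6701a5a756cf678161cca32608669400ad309c890e8bac569c250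4b783a5c1953069b08326ed4ec0744e2db62c6656c9424e04e6514b63b176482cae0d6e3248611a1b56da90c092c01436e955d8835eda9ab3c237a6ce0042a5848d20db68bb675a89d373ac810bcb074272e0726a94a56e1a183115520440000e38466c5015a5e160d445600ecc507920702d602034e908d13a154849162e9a2a966d6908210188421d09a24d0dc3936a84b099280900d3b586c528ccd55d0cd89c16d31642a9aa44806c0d9af59529641908f641676c00326a2a062cc4d01c733921a69c34ba07859800864c498329622ad4bd342d3d4cb9555c8638468d18930815508aa958c1825478c3815682360432f321eb40c0844d812a1c405a5550258e09e79eca00a8602722a1c885d7249ed04d0b581d4b01c11b6c844c47314dba84e42459b4385d91b554e3b0cd6aa75b9b792788da60e36a2663676c20d96d14cf34a90c8020a54821471a6cb6ab9a52245639312894596e7638d907365a6ed691194c25af10f121e5292731760a66620856036a546338dba378000000000e10c0eb6a81b0014400000000000002da45b12400290cb8dc9021a9c62956894a8c3481400144854f081d1540624931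1d46992d125a99c366c02a3945161993a90a8429e75684b6e47b00ac006701b096820586a80f123401c3a931c66cb9132874486da13b0430ccc8c5ba2a35cb662983b669cbac69140aae88c1d92c1165045499bd20ba211472029d0cb4243718cb6da40654b486c2a7b4674b296e425bab68ce7b3ae21aa46d3942ec01281dce0ac2859773af3d2406cb4ccc90e5d60272ceb19b81ac94532299a88024aea64292837087225a76115a2aa26ad447759890b042baa6a8dc483295758085716586ddb14c16af37806c462cd890f578bd4dd186450c13b5c81d1cad31485209814b4cee000005800c6c42800296e10554142bd4861b8540467aa9496d901e6ee6eb0b67b26a6669a16b4cb8c4e40e6a40b092a4a688764952dd15e66560e493cc9b05442168db40316c064b0982b51a58f4c7684b01bb7511a664013a59c2a1032aa0f442a0dd25bc0b44c5935500f0c085422da81a570cd958d690d209b0a84862c0800000000000600000001bccba40168000000002080036b86da0018009203a824b0106393600005a8055e2b3625)]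
noncomputable def c7_9232_1 : List Nat := [(nat_lit 0x581bc8e7500ad00001b58e100c920ab0092006009b61aec00082000000000b4006b2f36000000060000000000002328640a8da093049d3916f0d526226ca150230cc055359624d511683aa572a168ca60ed67178aa4144a2dea24329d8658d3734254d6021a9d088c628f2365a6a8e2328c9c395789b2884cb6e58c4a91654a6416b748368c64db6eb50860140611165a49c670ce4cadd4035b1b52439a1d234ca6a43043a574111ec752ce136af4c911a09103434ec7310b5d890c505873537339dcc13b4a1c0d819bcee43452d6d8659d50225d51b082752ae8aba10c813a5d5c172a4aa8a74195a64ac60d48b2205aaec8002a968ad144b2623783af2)]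
noncomputable def T7_9232 : Op := Op.mk (nat_lit 211)
 (Tr.nd (nat_lit 66) (nat_lit 17) (nat_lit 10) (nat_lit 2273) c7_9232_0
 (Tr.nd (nat_lit 30) (nat_lit 2) (nat_lit 3) (nat_lit 1131) c7_9232_0
 (Tr.nd (nat_lit 17) (nat_lit 2) (nat_lit 31) (nat_lit 903) c7_9232_0
 (Tr.nd (nat_lit 9) (nat_lit 1) (nat_lit 154) (nat_lit 460) c7_9232_0
 (Tr.nd (nat_lit 7) (nat_lit 1) (nat_lit 61) (nat_lit 123) c7_9232_0
 (Tr.nd (nat_lit 1) (nat_lit 1) (nat_lit 100) (nat_lit 23) c7_9232_0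
 (Tr.nd (nat_lit 0) (nat_lit 1) (nat_lit 23) (nat_lit 0) c7_9232_0
 Tr.lf Tr.lf) Tr.lf) (Tr.nd (nat_lit 8) (nat_lit 1) (nat_lit 276) (nat_lit 184) c7_9232_0
 Tr.lf Tr.lf)) (Tr.nd (nat_lit 15) (nat_lit 1) (nat_lit 100) (nat_lit 677) c7_9232_0
 (Tr.nd (nat_lit 10) (nat_lit 1) (nat_lit 63) (nat_lit 614) c7_9232_0
 Tr.lf Tr.lf) (Tr.nd (nat_lit 16) (nat_lit 2) (nat_lit 63) (nat_lit 777) c7_9232_0
 Tr.lf Tr.lf))) (Tr.nd (nat_lit 23) (nat_lit 2) (nat_lit 17) (nat_lit 1016) c7_9232_0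
 (Tr.nd (nat_lit 19) (nat_lit 2) (nat_lit 3) (nat_lit 987) c7_9232_0
 (Tr.nd (nat_lit 18) (nat_lit 2) (nat_lit 11) (nat_lit 965) c7_9232_0
 Tr.lf Tr.lf) (Tr.nd (nat_lit 22) (nat_lit 1) (nat_lit 23) (nat_lit 993) c7_9232_0
 Tr.lf Tr.lf)) (Tr.nd (nat_lit 25) (nat_lit 6) (nat_lit 5) (nat_lit 1094) c7_9232_0
 (Tr.nd (nat_lit 24) (nat_lit 4) (nat_lit 11) (nat_lit 1050) c7_9232_0
 Tr.lf Tr.lf) (Tr.nd (nat_lit 26) (nat_lit 7) (nat_lit 1) (nat_lit 1124) c7_9232_0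
 Tr.lf Tr.lf)))) (Tr.nd (nat_lit 57) (nat_lit 3) (nat_lit 61) (nat_lit 1477) c7_9232_0
 (Tr.nd (nat_lit 50) (nat_lit 1) (nat_lit 116) (nat_lit 1202) c7_9232_0
 (Tr.nd (nat_lit 32) (nat_lit 11) (nat_lit 1) (nat_lit 1167) c7_9232_0
 (Tr.nd (nat_lit 31) (nat_lit 6) (nat_lit 5) (nat_lit 1137) c7_9232_0
 Tr.lf Tr.lf) (Tr.nd (nat_lit 49) (nat_lit 1) (nat_lit 24) (nat_lit 1178) c7_9232_0
 Tr.lf Tr.lf)) (Tr.nd (nat_lit 52) (nat_lit 1) (nat_lit 23) (nat_lit 1379) c7_9232_0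
 (Tr.nd (nat_lit 51) (nat_lit 1) (nat_lit 61) (nat_lit 1318) c7_9232_0
 Tr.lf Tr.lf) (Tr.nd (nat_lit 56) (nat_lit 1) (nat_lit 75) (nat_lit 1402) c7_9232_0
 Tr.lf Tr.lf))) (Tr.nd (nat_lit 61) (nat_lit 4) (nat_lit 1) (nat_lit 1960) c7_9232_0
 (Tr.nd (nat_lit 59) (nat_lit 5) (nat_lit 17) (nat_lit 1845) c7_9232_0
 (Tr.nd (nat_lit 58) (nat_lit 5) (nat_lit 37) (nat_lit 1660) c7_9232_0
 Tr.lf Tr.lf) (Tr.nd (nat_lit 60) (nat_lit 5) (nat_lit 6) (nat_lit 1930) c7_9232_0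
 Tr.lf Tr.lf)) (Tr.nd (nat_lit 64) (nat_lit 5) (nat_lit 23) (nat_lit 1988) c7_9232_0
 (Tr.nd (nat_lit 63) (nat_lit 1) (nat_lit 24) (nat_lit 1964) c7_9232_0
 Tr.lf Tr.lf) (Tr.nd (nat_lit 65) (nat_lit 10) (nat_lit 17) (nat_lit 2103) c7_9232_0
 Tr.lf Tr.lf))))) (Tr.nd (nat_lit 105) (nat_lit 1) (nat_lit 7) (nat_lit 3399) c7_9232_0
 (Tr.nd (nat_lit 75) (nat_lit 75) (nat_lit 1) (nat_lit 3069) c7_9232_0
 (Tr.nd (nat_lit 71) (nat_lit 5) (nat_lit 6) (nat_lit 2586) c7_9232_0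
 (Tr.nd (nat_lit 68) (nat_lit 24) (nat_lit 1) (nat_lit 2558) c7_9232_0
 (Tr.nd (nat_lit 67) (nat_lit 23) (nat_lit 5) (nat_lit 2443) c7_9232_0
 Tr.lf Tr.lf) (Tr.nd (nat_lit 70) (nat_lit 1) (nat_lit 4) (nat_lit 2582) c7_9232_0
 Tr.lf Tr.lf)) (Tr.nd (nat_lit 73) (nat_lit 37) (nat_lit 5) (nat_lit 2701) c7_9232_0
 (Tr.nd (nat_lit 72) (nat_lit 17) (nat_lit 5) (nat_lit 2616) c7_9232_0
 Tr.lf Tr.lf) (Tr.nd (nat_lit 74) (nat_lit 61) (nat_lit 3) (nat_lit 2886) c7_9232_0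
 Tr.lf Tr.lf))) (Tr.nd (nat_lit 82) (nat_lit 24) (nat_lit 1) (nat_lit 3344) c7_9232_0
 (Tr.nd (nat_lit 80) (nat_lit 61) (nat_lit 1) (nat_lit 3167) c7_9232_0
 (Tr.nd (nat_lit 79) (nat_lit 23) (nat_lit 1) (nat_lit 3144) c7_9232_0
 Tr.lf Tr.lf) (Tr.nd (nat_lit 81) (nat_lit 116) (nat_lit 1) (nat_lit 3228) c7_9232_0
 Tr.lf Tr.lf)) (Tr.nd (nat_lit 100) (nat_lit 2) (nat_lit 7) (nat_lit 3379) c7_9232_0
 (Tr.nd (nat_lit 99) (nat_lit 1) (nat_lit 11) (nat_lit 3368) c7_9232_0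
 Tr.lf Tr.lf) (Tr.nd (nat_lit 101) (nat_lit 2) (nat_lit 3) (nat_lit 3393) c7_9232_0
 Tr.lf Tr.lf)))) (Tr.nd (nat_lit 115) (nat_lit 63) (nat_lit 2) (nat_lit 3809) c7_9232_0
 (Tr.nd (nat_lit 109) (nat_lit 23) (nat_lit 1) (nat_lit 3540) c7_9232_0
 (Tr.nd (nat_lit 107) (nat_lit 10) (nat_lit 7) (nat_lit 3436) c7_9232_0
 (Tr.nd (nat_lit 106) (nat_lit 5) (nat_lit 6) (nat_lit 3406) c7_9232_0
 Tr.lf Tr.lf) (Tr.nd (nat_lit 108) (nat_lit 17) (nat_lit 2) (nat_lit 3506) c7_9232_0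
 Tr.lf Tr.lf)) (Tr.nd (nat_lit 113) (nat_lit 10) (nat_lit 3) (nat_lit 3569) c7_9232_0
 (Tr.nd (nat_lit 112) (nat_lit 2) (nat_lit 3) (nat_lit 3563) c7_9232_0
 Tr.lf Tr.lf) (Tr.nd (nat_lit 114) (nat_lit 30) (nat_lit 7) (nat_lit 3599) c7_9232_0
 Tr.lf Tr.lf))) (Tr.nd (nat_lit 123) (nat_lit 276) (nat_lit 1) (nat_lit 217) c7_9232_1
 (Tr.nd (nat_lit 121) (nat_lit 63) (nat_lit 1) (nat_lit 0) c7_9232_1
 (Tr.nd (nat_lit 116) (nat_lit 100) (nat_lit 1) (nat_lit 3935) c7_9232_0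
 Tr.lf Tr.lf) (Tr.nd (nat_lit 122) (nat_lit 154) (nat_lit 1) (nat_lit 63) c7_9232_1
 Tr.lf Tr.lf)) (Tr.nd (nat_lit 130) (nat_lit 100) (nat_lit 1) (nat_lit 554) c7_9232_1
 (Tr.nd (nat_lit 124) (nat_lit 61) (nat_lit 1) (nat_lit 493) c7_9232_1
 Tr.lf Tr.lf) (Tr.nd (nat_lit 131) (nat_lit 23) (nat_lit 1) (nat_lit 654) c7_9232_1
 Tr.lf Tr.lf))))))

noncomputable def c7_8464_0 : List Nat := [(nat_lit 0xcb68e490b0401366bbac5153b48e064b4dd08d200a1a6596891a006c441508baa808c5576db8a97606577182056d11c12a29c49d555a8b8265130e1a185158f4246a168f36dc800d33053104b044e65b04264c349800000000000000000000000000000000000000000000000000000000000000000019ab9078c1154ccb737801100000000000000000000000000000000000000000000015a0c4b0a85654b4c9356e200000002b2812dbb6ceb9181094e3d342edb9c0b634c78e0134918a9534480968d7058000000045a161071b0408b00000000caa684d00000003618eb75c9e699158ae9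8caa2511168ad764044b00a100e2f431402479c014008286cc800000026cd0e018573004a735313709a4372b931016e926d7924cc6022115856a2ace2952b3c1441bd826b1cd66946a2641348ca4b4d541328d4eb9c141d82745a11894b08c30b9c8f179a89c15470540a181d09c2bb1cc45649c53300d49d6499e0a621ca28504759351934071b3270d659d5072bcc1081b0eacd474062324c40c2229c59255e683b826a490237072c02455a46b010094aac375d042a0b76a814725b67a690a0dbb009416e00a5ccab0aa8d04888ab66674285604710468604242c51ae52654c336179142125a2ee623748b003b6b6e1039ae0898dd866d0bd2622a82845a6c33b28e355e480a60d6ca5e76222d3930080db158050d11db519142b668969cd1d618cc51689589e644cd4020c1c00003138a805aedc30245214d05555cd93acae9818cd42a9318cb3b097068860263422490e386d8c252d1a8c19359162c1101d19497582604eb8666e050029a29ab36929a662876516e8e46dd74bb26269231d922f364d74b301c44395c452aa05430cb59d09a6b8b5784b9e1257853310f44da502bb18a3a0e8068342d00b3072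2455aebac349c53b49cc4b4db20cdeade031ccc898651ce5ac58d3d70801d71dab50bb326de144ba3c0c4ca8f2161461716d0c6524c13b102046459b12122d86d92434c2b664d835071a0600cc85c2685231075b84076d0d0c90a6eae928908674e19c901948740d8101578310d765c4b7aaaa89a200000dc72a018f522838522c4c69530d2159256d459906035994c8d1dd20184ac04e230b2a6214b46c0cc5ca5ad621ab460333061d442e03435544dcad802c24d6e8da03232751184e5743d1596591a595468299480c4424622218e74529b44a62284ea0e4ee369b46066b11d1b2e9c117445828dcaa0a9c6218cca306a52c0db0371490d6b25658d4408c204066c2c632ec9a1a3c9916b75d95c534d4ca2681090134c5a2ac55640313a65224953930e15a2390925c82c0842048b45b04d40cba665cb92536666b20dac2f23b0d6c9535a2a23513cce723d4618196250a168ad0d88a23d71b85848aa9b64581a482d44eeb0ed0a3085708d36c93000db65e2c42310dbca3ac65556c12eb26ac112290688e12b288da8c37160c99d7000000017b0441022023ce40228000000000000012342216b0112cb6b91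b504c335e35c2d88124cd980004b2d0dda66d4cc49c04231c91a62cb216c0aa090863472c6a8c05b6869d908f5b599a6718109404ae31a64ecb46ba8130b9b5644edb04598382d8a2284d6d714a24290cad634c200a71a9b211a42da284a05968248ebb8408da293b4a92c9bae60105a68ccb1451b45b32801c0eb4e68366640f590db6ba8e04457506220a9481302532cb4c5001a50ada64b11c9b1aa297574b680825092c5365d5804ee314aaada986d203388705a8e4b6b09075471bb140e12a5304a04d5d68712850209c76c5637671446e91c30e5366f4bae983c006ecb9c48525e343c685291a1cc08446886421acd4a0dd22571c2f5000000000040000000000000000000c00180033459805180000008036c1a2281640a38334734a0105144b2051c4c0000000c00000030028000000030002001d9a140d228e0cd6cd5806145b28d028e260000000e008c334b359816209940618054674912850a24a04000eb56370bb2b49c3146606a85ca1421e66b41e11d80000800000000025816a800a862c0180006201242074a2a4842e800e006a1dc4321020009a60000219014c26b7ac)]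
noncomputable def c7_8464_1 : List Nat := [(nat_lit 0x4b9ba4c34058200001a68000840b07562e006200acc092a2cc4204900e0001800ce0a8022b40648000000000200025706613a5e60c42c662a46851c3136ada8d4e56e200041ca23944db35e54b8f6dad819d18a538dda4035bab412550b8b656c80c502248b6a348819db02654b4701af08a634b4ca8469810b269d19a386076503943a8b62150562aa46ce3920c68305aa636105a0de3186c368c0963538eec9d54cb6a1ae20ba3000648e375ccc71d80d6c2374b8205829c0600f1981b10a7314e64d0947acad80331a6baccded1630c726a5451ed4e476c71208462518b754d0890d12b06211da9c55c4132ec962ad11838b00da61bb2aac50ead0195)]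
noncomputable def T7_8464 : Op := Op.mk (nat_lit 211)
 (Tr.nd (nat_lit 66) (nat_lit 17) (nat_lit 10) (nat_lit 2273) c7_8464_0
 (Tr.nd (nat_lit 30) (nat_lit 2) (nat_lit 3) (nat_lit 1131) c7_8464_0
 (Tr.nd (nat_lit 17) (nat_lit 2) (nat_lit 31) (nat_lit 903) c7_8464_0
 (Tr.nd (nat_lit 9) (nat_lit 1) (nat_lit 154) (nat_lit 460) c7_8464_0
 (Tr.nd (nat_lit 7) (nat_lit 1) (nat_lit 61) (nat_lit 123) c7_8464_0
 (Tr.nd (nat_lit 1) (nat_lit 1) (nat_lit 100) (nat_lit 23) c7_8464_0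
 (Tr.nd (nat_lit 0) (nat_lit 1) (nat_lit 23) (nat_lit 0) c7_8464_0
 Tr.lf Tr.lf) Tr.lf) (Tr.nd (nat_lit 8) (nat_lit 1) (nat_lit 276) (nat_lit 184) c7_8464_0
 Tr.lf Tr.lf)) (Tr.nd (nat_lit 15) (nat_lit 1) (nat_lit 100) (nat_lit 677) c7_8464_0
 (Tr.nd (nat_lit 10) (nat_lit 1) (nat_lit 63) (nat_lit 614) c7_8464_0
 Tr.lf Tr.lf) (Tr.nd (nat_lit 16) (nat_lit 2) (nat_lit 63) (nat_lit 777) c7_8464_0
 Tr.lf Tr.lf))) (Tr.nd (nat_lit 23) (nat_lit 2) (nat_lit 17) (nat_lit 1016) c7_8464_0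
 (Tr.nd (nat_lit 19) (nat_lit 2) (nat_lit 3) (nat_lit 987) c7_8464_0
 (Tr.nd (nat_lit 18) (nat_lit 2) (nat_lit 11) (nat_lit 965) c7_8464_0
 Tr.lf Tr.lf) (Tr.nd (nat_lit 22) (nat_lit 1) (nat_lit 23) (nat_lit 993) c7_8464_0
 Tr.lf Tr.lf)) (Tr.nd (nat_lit 25) (nat_lit 6) (nat_lit 5) (nat_lit 1094) c7_8464_0
 (Tr.nd (nat_lit 24) (nat_lit 4) (nat_lit 11) (nat_lit 1050) c7_8464_0
 Tr.lf Tr.lf) (Tr.nd (nat_lit 26) (nat_lit 7) (nat_lit 1) (nat_lit 1124) c7_8464_0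
 Tr.lf Tr.lf)))) (Tr.nd (nat_lit 57) (nat_lit 3) (nat_lit 61) (nat_lit 1477) c7_8464_0
 (Tr.nd (nat_lit 50) (nat_lit 1) (nat_lit 116) (nat_lit 1202) c7_8464_0
 (Tr.nd (nat_lit 32) (nat_lit 11) (nat_lit 1) (nat_lit 1167) c7_8464_0
 (Tr.nd (nat_lit 31) (nat_lit 6) (nat_lit 5) (nat_lit 1137) c7_8464_0
 Tr.lf Tr.lf) (Tr.nd (nat_lit 49) (nat_lit 1) (nat_lit 24) (nat_lit 1178) c7_8464_0
 Tr.lf Tr.lf)) (Tr.nd (nat_lit 52) (nat_lit 1) (nat_lit 23) (nat_lit 1379) c7_8464_0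
 (Tr.nd (nat_lit 51) (nat_lit 1) (nat_lit 61) (nat_lit 1318) c7_8464_0
 Tr.lf Tr.lf) (Tr.nd (nat_lit 56) (nat_lit 1) (nat_lit 75) (nat_lit 1402) c7_8464_0
 Tr.lf Tr.lf))) (Tr.nd (nat_lit 61) (nat_lit 4) (nat_lit 1) (nat_lit 1960) c7_8464_0
 (Tr.nd (nat_lit 59) (nat_lit 5) (nat_lit 17) (nat_lit 1845) c7_8464_0
 (Tr.nd (nat_lit 58) (nat_lit 5) (nat_lit 37) (nat_lit 1660) c7_8464_0
 Tr.lf Tr.lf) (Tr.nd (nat_lit 60) (nat_lit 5) (nat_lit 6) (nat_lit 1930) c7_8464_0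
 Tr.lf Tr.lf)) (Tr.nd (nat_lit 64) (nat_lit 5) (nat_lit 23) (nat_lit 1988) c7_8464_0
 (Tr.nd (nat_lit 63) (nat_lit 1) (nat_lit 24) (nat_lit 1964) c7_8464_0
 Tr.lf Tr.lf) (Tr.nd (nat_lit 65) (nat_lit 10) (nat_lit 17) (nat_lit 2103) c7_8464_0
 Tr.lf Tr.lf))))) (Tr.nd (nat_lit 105) (nat_lit 1) (nat_lit 7) (nat_lit 3399) c7_8464_0
 (Tr.nd (nat_lit 75) (nat_lit 75) (nat_lit 1) (nat_lit 3069) c7_8464_0
 (Tr.nd (nat_lit 71) (nat_lit 5) (nat_lit 6) (nat_lit 2586) c7_8464_0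
 (Tr.nd (nat_lit 68) (nat_lit 24) (nat_lit 1) (nat_lit 2558) c7_8464_0
 (Tr.nd (nat_lit 67) (nat_lit 23) (nat_lit 5) (nat_lit 2443) c7_8464_0
 Tr.lf Tr.lf) (Tr.nd (nat_lit 70) (nat_lit 1) (nat_lit 4) (nat_lit 2582) c7_8464_0
 Tr.lf Tr.lf)) (Tr.nd (nat_lit 73) (nat_lit 37) (nat_lit 5) (nat_lit 2701) c7_8464_0
 (Tr.nd (nat_lit 72) (nat_lit 17) (nat_lit 5) (nat_lit 2616) c7_8464_0
 Tr.lf Tr.lf) (Tr.nd (nat_lit 74) (nat_lit 61) (nat_lit 3) (nat_lit 2886) c7_8464_0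
 Tr.lf Tr.lf))) (Tr.nd (nat_lit 82) (nat_lit 24) (nat_lit 1) (nat_lit 3344) c7_8464_0
 (Tr.nd (nat_lit 80) (nat_lit 61) (nat_lit 1) (nat_lit 3167) c7_8464_0
 (Tr.nd (nat_lit 79) (nat_lit 23) (nat_lit 1) (nat_lit 3144) c7_8464_0
 Tr.lf Tr.lf) (Tr.nd (nat_lit 81) (nat_lit 116) (nat_lit 1) (nat_lit 3228) c7_8464_0
 Tr.lf Tr.lf)) (Tr.nd (nat_lit 100) (nat_lit 2) (nat_lit 7) (nat_lit 3379) c7_8464_0
 (Tr.nd (nat_lit 99) (nat_lit 1) (nat_lit 11) (nat_lit 3368) c7_8464_0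
 Tr.lf Tr.lf) (Tr.nd (nat_lit 101) (nat_lit 2) (nat_lit 3) (nat_lit 3393) c7_8464_0
 Tr.lf Tr.lf)))) (Tr.nd (nat_lit 115) (nat_lit 63) (nat_lit 2) (nat_lit 3809) c7_8464_0
 (Tr.nd (nat_lit 109) (nat_lit 23) (nat_lit 1) (nat_lit 3540) c7_8464_0
 (Tr.nd (nat_lit 107) (nat_lit 10) (nat_lit 7) (nat_lit 3436) c7_8464_0
 (Tr.nd (nat_lit 106) (nat_lit 5) (nat_lit 6) (nat_lit 3406) c7_8464_0
 Tr.lf Tr.lf) (Tr.nd (nat_lit 108) (nat_lit 17) (nat_lit 2) (nat_lit 3506) c7_8464_0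
 Tr.lf Tr.lf)) (Tr.nd (nat_lit 113) (nat_lit 10) (nat_lit 3) (nat_lit 3569) c7_8464_0
 (Tr.nd (nat_lit 112) (nat_lit 2) (nat_lit 3) (nat_lit 3563) c7_8464_0
 Tr.lf Tr.lf) (Tr.nd (nat_lit 114) (nat_lit 30) (nat_lit 7) (nat_lit 3599) c7_8464_0
 Tr.lf Tr.lf))) (Tr.nd (nat_lit 123) (nat_lit 276) (nat_lit 1) (nat_lit 217) c7_8464_1
 (Tr.nd (nat_lit 121) (nat_lit 63) (nat_lit 1) (nat_lit 0) c7_8464_1
 (Tr.nd (nat_lit 116) (nat_lit 100) (nat_lit 1) (nat_lit 3935) c7_8464_0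
 Tr.lf Tr.lf) (Tr.nd (nat_lit 122) (nat_lit 154) (nat_lit 1) (nat_lit 63) c7_8464_1
 Tr.lf Tr.lf)) (Tr.nd (nat_lit 130) (nat_lit 100) (nat_lit 1) (nat_lit 554) c7_8464_1
 (Tr.nd (nat_lit 124) (nat_lit 61) (nat_lit 1) (nat_lit 493) c7_8464_1
 Tr.lf Tr.lf) (Tr.nd (nat_lit 131) (nat_lit 23) (nat_lit 1) (nat_lit 654) c7_8464_1
 Tr.lf Tr.lf))))))

noncomputable def c7_8272_0 : List Nat := [(nat_lit 0x19c126ae969010a00aca02c872586e0cd5b6b802496512a5660aa8369c99ac37080ea58e852d1b8cab15564d4306d0062e9469069292a02d7586526e81bc90d61d6681566b94a970069c680a9a45781a4d9b6a4a4c800000000000000000000000000000000000000000000000000000000000000000009a0480b68ae30c43067081000000000000000000000000000000000000000000000257515d85d45d0ea37259b6000000014a96d94099b658015127441368aa11a038359900480a049d22e12d783903b80000000d00a54c0291d8a8000000032a4d4620000000024f165838344201404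88502359048ae6222062e80026f025b98a41882a80d0004c8270000000d984da611841da0a6bb8b05446e91949c09194a1459114ccb359ad2c14240db888b9b11978c16692e75d84892c60d505ca496832ed2b8e182202c0a4699905a0476aa09b2da9aab1c31789aa4b99793193a89524cf42456962ca853920a1b22d2f02dd470698b5471271145a05284c2e8471c1e729782722cebb4365086bc63573a2e8743932650242738d044cd2395c08e6427344c914e3897610839b430b26ab24b02888b6992249398d61838adacb70528c09083c3055c2152f628238a6067203a949b720719d21312c1e5907a562479eadd214311a9ed13ac2a034319653b18f6b2b728b5c8d072a0b200cc450e475c02bdad70d549c0a8194236edd6d2aa57394a60149d79d8d404020410b44c8b1000098c9e096245ab2b954d5a9e76d462cdc468c26194b68c02a8414ed45253b23949846851b448029ab05db5986566549921e5321540b28d80daa4d632af294434d59a8a452111cd32daa4cd26346976ec8a443a3496d868128d0b9913608747468a62a344c46688d355af064554ccf2795acb1b5201b72adb6f1b0e5a2d1e26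8b1c76e98e26ab53d5c59c9242ac31209259d8a3c1ed6a3aab9586168934ed8426cd63a4cc153364602edb34b136590400d219e35d2594c085eb0d5ae8b3ca98e18424723a870b0981550c28cd85ba62c297123260159a901d6ac10d8743a0a83b72404d6db75611a518e5c341852a37942adaf356a00009eb9e290075c82495ac1c0c2d951bd4820c71569d212af525992502ea309635513ad0504a8b90ad48d9662ae4af2b8238bb85ccdaaada32808f4a1ed058a08f60c0cd4a66ba574310ad146f004416399d80b5ad8cc0de2c88311930124f2a368d929cc5d783268aa20984842a1b910999182b081db8492088c6d606680625a222b110b681a7a5c6249b8a96eb8b205c52b6492148e328a841a4b55225b97308b46c96c463475164d4e709b7183438bcf526b326c026a41351694db629840b2a689711925c32d6b65cd46a65c51976909cce18e55356d949155ae016890b4e442501410c71d9b5845b245a88a90e593601dbac2dd2d0d951ae75cb096e896582e49ed03adb4718ddb453aa2eb45105e2ddb29916ca398555dd658c0000006241680029115103091c000000000000068d82da200199a540f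504448156340e8048062818400226a540202d25252c799d461913216316e2730a60c84b4280262902eb8460528545368298814a20639e25021279ca50018c50a1472e2ae2a8a6aa9271e4f62a905d51e81903345a0753ac26da1301554834e3487b406c35baa4b2e91669e8da86e3a5871d85a512a806946834216b045c26551b4889e48cc7255806361d2d636915510bb1128b249035db2a58d4cb2305911644046009335dd208f2031c0610d0cb2066b58f6b8e40cd23c31515228aa58f056a38ac292633093b5a4668c4452ea074010c736f178e96e6516c4ce2c15d9d81432a870754728b54ae8001d99b2cd22d60a2e7149b2591158cd4000000000000000000040000000000000140033419a05180180018036c1a4281240a38334334a0105144b2051c4c0000000000000028000028000030006003d9a1403224e0cd2cd18041451283028e260000003601e0334b349016209162118830675012050a44a006d440cc42dad8861010604593d6a0d1d993428ec6a3200000000d86d850080d962db320400000024004830186136811700360326193012884c2a08800000568a5d932124)]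
noncomputable def c7_8272_1 : List Nat := [(nat_lit 0x4902d25668b5000002022a0d028910961ac06c00d4109b418603090012000000042d2da196c02051b61b000000000b89cae21497b14c2b735940184018606eda142c41760023b0a4484b0264dc56e82b96c65bb2c60312e2d0171883d8d351582af5da24ad401218d9b7348ce5aed66b5e30172dba540ba94a60220d03d01b5e188830d535713b1cc1a9e8e2183cf1d504e86f1934636cc92d55b3d8622899e585c91d03a9e90d8058e9485c944f0741592da451ea28972934b297b1000aec568b1c558c62b0c4257b54328f40d945eb66399cdbc70404c42acd05429e06dd8930b849a3238ab50ce58a8a0d511c339342163aece5c9e00b2c5306031c02)]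
noncomputable def T7_8272 : Op := Op.mk (nat_lit 211)
 (Tr.nd (nat_lit 66) (nat_lit 17) (nat_lit 10) (nat_lit 2273) c7_8272_0
 (Tr.nd (nat_lit 30) (nat_lit 2) (nat_lit 3) (nat_lit 1131) c7_8272_0
 (Tr.nd (nat_lit 17) (nat_lit 2) (nat_lit 31) (nat_lit 903) c7_8272_0
 (Tr.nd (nat_lit 9) (nat_lit 1) (nat_lit 154) (nat_lit 460) c7_8272_0
 (Tr.nd (nat_lit 7) (nat_lit 1) (nat_lit 61) (nat_lit 123) c7_8272_0
 (Tr.nd (nat_lit 1) (nat_lit 1) (nat_lit 100) (nat_lit 23) c7_8272_0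
 (Tr.nd (nat_lit 0) (nat_lit 1) (nat_lit 23) (nat_lit 0) c7_8272_0
 Tr.lf Tr.lf) Tr.lf) (Tr.nd (nat_lit 8) (nat_lit 1) (nat_lit 276) (nat_lit 184) c7_8272_0
 Tr.lf Tr.lf)) (Tr.nd (nat_lit 15) (nat_lit 1) (nat_lit 100) (nat_lit 677) c7_8272_0
 (Tr.nd (nat_lit 10) (nat_lit 1) (nat_lit 63) (nat_lit 614) c7_8272_0
 Tr.lf Tr.lf) (Tr.nd (nat_lit 16) (nat_lit 2) (nat_lit 63) (nat_lit 777) c7_8272_0
 Tr.lf Tr.lf))) (Tr.nd (nat_lit 23) (nat_lit 2) (nat_lit 17) (nat_lit 1016) c7_8272_0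
 (Tr.nd (nat_lit 19) (nat_lit 2) (nat_lit 3) (nat_lit 987) c7_8272_0
 (Tr.nd (nat_lit 18) (nat_lit 2) (nat_lit 11) (nat_lit 965) c7_8272_0
 Tr.lf Tr.lf) (Tr.nd (nat_lit 22) (nat_lit 1) (nat_lit 23) (nat_lit 993) c7_8272_0
 Tr.lf Tr.lf)) (Tr.nd (nat_lit 25) (nat_lit 6) (nat_lit 5) (nat_lit 1094) c7_8272_0
 (Tr.nd (nat_lit 24) (nat_lit 4) (nat_lit 11) (nat_lit 1050) c7_8272_0
 Tr.lf Tr.lf) (Tr.nd (nat_lit 26) (nat_lit 7) (nat_lit 1) (nat_lit 1124) c7_8272_0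
 Tr.lf Tr.lf)))) (Tr.nd (nat_lit 57) (nat_lit 3) (nat_lit 61) (nat_lit 1477) c7_8272_0
 (Tr.nd (nat_lit 50) (nat_lit 1) (nat_lit 116) (nat_lit 1202) c7_8272_0
 (Tr.nd (nat_lit 32) (nat_lit 11) (nat_lit 1) (nat_lit 1167) c7_8272_0
 (Tr.nd (nat_lit 31) (nat_lit 6) (nat_lit 5) (nat_lit 1137) c7_8272_0
 Tr.lf Tr.lf) (Tr.nd (nat_lit 49) (nat_lit 1) (nat_lit 24) (nat_lit 1178) c7_8272_0
 Tr.lf Tr.lf)) (Tr.nd (nat_lit 52) (nat_lit 1) (nat_lit 23) (nat_lit 1379) c7_8272_0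
 (Tr.nd (nat_lit 51) (nat_lit 1) (nat_lit 61) (nat_lit 1318) c7_8272_0
 Tr.lf Tr.lf) (Tr.nd (nat_lit 56) (nat_lit 1) (nat_lit 75) (nat_lit 1402) c7_8272_0
 Tr.lf Tr.lf))) (Tr.nd (nat_lit 61) (nat_lit 4) (nat_lit 1) (nat_lit 1960) c7_8272_0
 (Tr.nd (nat_lit 59) (nat_lit 5) (nat_lit 17) (nat_lit 1845) c7_8272_0
 (Tr.nd (nat_lit 58) (nat_lit 5) (nat_lit 37) (nat_lit 1660) c7_8272_0
 Tr.lf Tr.lf) (Tr.nd (nat_lit 60) (nat_lit 5) (nat_lit 6) (nat_lit 1930) c7_8272_0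
 Tr.lf Tr.lf)) (Tr.nd (nat_lit 64) (nat_lit 5) (nat_lit 23) (nat_lit 1988) c7_8272_0
 (Tr.nd (nat_lit 63) (nat_lit 1) (nat_lit 24) (nat_lit 1964) c7_8272_0
 Tr.lf Tr.lf) (Tr.nd (nat_lit 65) (nat_lit 10) (nat_lit 17) (nat_lit 2103) c7_8272_0
 Tr.lf Tr.lf))))) (Tr.nd (nat_lit 105) (nat_lit 1) (nat_lit 7) (nat_lit 3399) c7_8272_0
 (Tr.nd (nat_lit 75) (nat_lit 75) (nat_lit 1) (nat_lit 3069) c7_8272_0
 (Tr.nd (nat_lit 71) (nat_lit 5) (nat_lit 6) (nat_lit 2586) c7_8272_0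
 (Tr.nd (nat_lit 68) (nat_lit 24) (nat_lit 1) (nat_lit 2558) c7_8272_0
 (Tr.nd (nat_lit 67) (nat_lit 23) (nat_lit 5) (nat_lit 2443) c7_8272_0
 Tr.lf Tr.lf) (Tr.nd (nat_lit 70) (nat_lit 1) (nat_lit 4) (nat_lit 2582) c7_8272_0
 Tr.lf Tr.lf)) (Tr.nd (nat_lit 73) (nat_lit 37) (nat_lit 5) (nat_lit 2701) c7_8272_0
 (Tr.nd (nat_lit 72) (nat_lit 17) (nat_lit 5) (nat_lit 2616) c7_8272_0
 Tr.lf Tr.lf) (Tr.nd (nat_lit 74) (nat_lit 61) (nat_lit 3) (nat_lit 2886) c7_8272_0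
 Tr.lf Tr.lf))) (Tr.nd (nat_lit 82) (nat_lit 24) (nat_lit 1) (nat_lit 3344) c7_8272_0
 (Tr.nd (nat_lit 80) (nat_lit 61) (nat_lit 1) (nat_lit 3167) c7_8272_0
 (Tr.nd (nat_lit 79) (nat_lit 23) (nat_lit 1) (nat_lit 3144) c7_8272_0
 Tr.lf Tr.lf) (Tr.nd (nat_lit 81) (nat_lit 116) (nat_lit 1) (nat_lit 3228) c7_8272_0
 Tr.lf Tr.lf)) (Tr.nd (nat_lit 100) (nat_lit 2) (nat_lit 7) (nat_lit 3379) c7_8272_0
 (Tr.nd (nat_lit 99) (nat_lit 1) (nat_lit 11) (nat_lit 3368) c7_8272_0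
 Tr.lf Tr.lf) (Tr.nd (nat_lit 101) (nat_lit 2) (nat_lit 3) (nat_lit 3393) c7_8272_0
 Tr.lf Tr.lf)))) (Tr.nd (nat_lit 115) (nat_lit 63) (nat_lit 2) (nat_lit 3809) c7_8272_0
 (Tr.nd (nat_lit 109) (nat_lit 23) (nat_lit 1) (nat_lit 3540) c7_8272_0
 (Tr.nd (nat_lit 107) (nat_lit 10) (nat_lit 7) (nat_lit 3436) c7_8272_0
 (Tr.nd (nat_lit 106) (nat_lit 5) (nat_lit 6) (nat_lit 3406) c7_8272_0
 Tr.lf Tr.lf) (Tr.nd (nat_lit 108) (nat_lit 17) (nat_lit 2) (nat_lit 3506) c7_8272_0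
 Tr.lf Tr.lf)) (Tr.nd (nat_lit 113) (nat_lit 10) (nat_lit 3) (nat_lit 3569) c7_8272_0
 (Tr.nd (nat_lit 112) (nat_lit 2) (nat_lit 3) (nat_lit 3563) c7_8272_0
 Tr.lf Tr.lf) (Tr.nd (nat_lit 114) (nat_lit 30) (nat_lit 7) (nat_lit 3599) c7_8272_0
 Tr.lf Tr.lf))) (Tr.nd (nat_lit 123) (nat_lit 276) (nat_lit 1) (nat_lit 217) c7_8272_1
 (Tr.nd (nat_lit 121) (nat_lit 63) (nat_lit 1) (nat_lit 0) c7_8272_1
 (Tr.nd (nat_lit 116) (nat_lit 100) (nat_lit 1) (nat_lit 3935) c7_8272_0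
 Tr.lf Tr.lf) (Tr.nd (nat_lit 122) (nat_lit 154) (nat_lit 1) (nat_lit 63) c7_8272_1
 Tr.lf Tr.lf)) (Tr.nd (nat_lit 130) (nat_lit 100) (nat_lit 1) (nat_lit 554) c7_8272_1
 (Tr.nd (nat_lit 124) (nat_lit 61) (nat_lit 1) (nat_lit 493) c7_8272_1
 Tr.lf Tr.lf) (Tr.nd (nat_lit 131) (nat_lit 23) (nat_lit 1) (nat_lit 654) c7_8272_1
 Tr.lf Tr.lf))))))

noncomputable def c7_9220_0 : List Nat := [(nat_lit 0x4419c30948d81ad30442d83091493134d15a5c16eb08d51180a0c8ee80d97320044dd134eb19d01a36260ed8609c6f2a36596923809a962da673111452181a7245a363a85c12ad079d42b2c6b86b407641aea75b58000000000000000000000000000000000000000000000000000000000000000000061c1a8ec8984a10459690d8000000000000000000000000000000000000000000006305973b0b05cb0d90136e6000000058a2a866182a2260098ce44f481210e199c0409c28aa2ad7548e0eb0eb7568800000004cd12d584ae66dd00000002484a62300000002eb0109dd166e95aa856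4222ae58ac0d168a04b90034521a0189a21ac2472c84234e00500000000547086464eb668a300e94e43059a94c35980287290e48111d219a5c8cb93470ed598982d99b20d6201836229486ca8b506e952a843a3028aba0753790941233a3194e675bb62c0b925638d93653a52165838902caa650494208f05a81714ac9238ca31b42b08d68a30d64460834070240138931570c74679b9a139d2b4541ad273256aba383136222c22b2e2743a83b73ab3ae81169769a0d5e52d916c7171136cb1e28c9420db6ab75c8529482c61152914548c0adb2b284242e0deb34cb3542ccb07460092d485a6109c64d0101046361854e2cb5936af4a6b696491da2ca3c955201040ea32913108ac800a69a946a4ce0dc6c631a9a095eac0472700af290a5a20d30e32539ad9a2c541a665a4c8000133bad2e92ea76119356dd64a890445400b378e4425982d4181620413219914cc32a373422a6698da5800533b2d106ecdae6400eac5e21b0e2906364b5e2646700f2c72d120220529248e015b48a5a1c9daa0af461428b076836743d744f26ee8d1c751348488e5821b538dd65ca42a514400e1aa072502940035d32dcacd20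6c112c01c1b1091c2cb21519acd9029285a94c475814ad19924c10316795a924eb65311a4f1ca6423d6c98d24875191e042855832706b588f0311781d25d6ac13476d80500ba26c8ab09957582c81926006c18721213984ac671b2351980d1b48cb6ca64a0dd4d8da49232b1cde400aa0209564bad0001297b53532e3ae95aa1587126305996366a234cd54a8320acd111e1588a2592ba4c583034f485b6dc936b60b86581562ca0cd2935903c50593312122711cd0b913ad173165951a8881900400a4accd33203060a24950b65b319980a45d8516eb005914b3671b0f0082242652bb51a122365ecdc7584e0a5186d04dcd02520eca91aa48f29098aca9b6a97621a309c6dcb0c309d56d23128758c6236a55c1adb517b06edc6bd256a9281306224171d46433b99c152c479074594cccd662b5b7a464eb8d2a10c902070631ec03102983b9ca92d40676d6e2f1b0e15e048b02cdaac4d5144615831588d6c2b455b048d0699ab6e5c0bda1a1d4f286a38b7145aa303900025b6b2234da48452846dd89cc008931b69d06279ed61a86c40000028031a503258e4193053400000000000004886b0c008135545a29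c920d19b63054aa48c771d8001b16ca6bbb2324cdc6a1004a98559952dae75d659cd09556a80aa10a8062f0c6048499a918083c01c92410b191298e00f1b4d8698a029c8daa2987362d30080ca9b10db339842d538d95831363540d019972cf30956a6435d310d2b95028d554561b4758356b8e8e38155b0af261d083d4a66225919875a6a6a4a0017aca44d5c8450302ae065d688cdaa69a069229063640a1a64c4a522618f080cbb218462463665079dd68993ac560a3518644614eda33583299006b5549ac9a8d44a1c2222358c4e3122a054951128eb41ba7551e75ac5ab8d114a6d0db80b3b54a42a6763ab66747a9c69c5a55c192699000001a0098dd88006b0c1013363935a566b5995ad172609ac332b90832519a963d288cb51c4a109e44dcb2c068f6c6bd76a4884e9b0135ae580ada8954d1aaf3b42c3470b64bdb237115a17374d0da448b558d11954c896957155595120050b49ecd188b2b3788200030000006b814cb100568bb536a46c6c3560c642f6401000000000000c00000036ba62c002600000000215da36b86d9001b01b6006040e0b0560a600015a80480395792)]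
noncomputable def c7_9220_1 : List Nat := [(nat_lit 0x259d5880900ad40001a21d1288c401801b6036005b61aec2d7420000000068000ce9aec00000030000000000001016ccc8709530dca52b4dda8b501032d11ae000000c000094a5cf6221d3321ca442ae56c78a91004281269c60243582c18eb2015ac6c25b10660dc1404438859041864866e12b62b46e0c0094456b1e963ca9ca439e16a4f240d8ea95a786234815a8350192c359d4b8a02e22dc5b15596e4cea911504ac6609b5548b8d828969a584752671a71b9cc5ecab95e88c895d8b2236c5a6c5053aa67275e715c6b613ae250549502a9038d439380a8318944e26b269556e00168b193c2dad185486154a21d0eb5a0b7579845ec1c81c182dac)]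
noncomputable def T7_9220 : Op := Op.mk (nat_lit 211)
 (Tr.nd (nat_lit 66) (nat_lit 17) (nat_lit 10) (nat_lit 2273) c7_9220_0
 (Tr.nd (nat_lit 30) (nat_lit 2) (nat_lit 3) (nat_lit 1131) c7_9220_0
 (Tr.nd (nat_lit 17) (nat_lit 2) (nat_lit 31) (nat_lit 903) c7_9220_0
 (Tr.nd (nat_lit 9) (nat_lit 1) (nat_lit 154) (nat_lit 460) c7_9220_0
 (Tr.nd (nat_lit 7) (nat_lit 1) (nat_lit 61) (nat_lit 123) c7_9220_0
 (Tr.nd (nat_lit 1) (nat_lit 1) (nat_lit 100) (nat_lit 23) c7_9220_0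
 (Tr.nd (nat_lit 0) (nat_lit 1) (nat_lit 23) (nat_lit 0) c7_9220_0
 Tr.lf Tr.lf) Tr.lf) (Tr.nd (nat_lit 8) (nat_lit 1) (nat_lit 276) (nat_lit 184) c7_9220_0
 Tr.lf Tr.lf)) (Tr.nd (nat_lit 15) (nat_lit 1) (nat_lit 100) (nat_lit 677) c7_9220_0
 (Tr.nd (nat_lit 10) (nat_lit 1) (nat_lit 63) (nat_lit 614) c7_9220_0
 Tr.lf Tr.lf) (Tr.nd (nat_lit 16) (nat_lit 2) (nat_lit 63) (nat_lit 777) c7_9220_0
 Tr.lf Tr.lf))) (Tr.nd (nat_lit 23) (nat_lit 2) (nat_lit 17) (nat_lit 1016) c7_9220_0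
 (Tr.nd (nat_lit 19) (nat_lit 2) (nat_lit 3) (nat_lit 987) c7_9220_0
 (Tr.nd (nat_lit 18) (nat_lit 2) (nat_lit 11) (nat_lit 965) c7_9220_0
 Tr.lf Tr.lf) (Tr.nd (nat_lit 22) (nat_lit 1) (nat_lit 23) (nat_lit 993) c7_9220_0
 Tr.lf Tr.lf)) (Tr.nd (nat_lit 25) (nat_lit 6) (nat_lit 5) (nat_lit 1094) c7_9220_0
 (Tr.nd (nat_lit 24) (nat_lit 4) (nat_lit 11) (nat_lit 1050) c7_9220_0
 Tr.lf Tr.lf) (Tr.nd (nat_lit 26) (nat_lit 7) (nat_lit 1) (nat_lit 1124) c7_9220_0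
 Tr.lf Tr.lf)))) (Tr.nd (nat_lit 57) (nat_lit 3) (nat_lit 61) (nat_lit 1477) c7_9220_0
 (Tr.nd (nat_lit 50) (nat_lit 1) (nat_lit 116) (nat_lit 1202) c7_9220_0
 (Tr.nd (nat_lit 32) (nat_lit 11) (nat_lit 1) (nat_lit 1167) c7_9220_0
 (Tr.nd (nat_lit 31) (nat_lit 6) (nat_lit 5) (nat_lit 1137) c7_9220_0
 Tr.lf Tr.lf) (Tr.nd (nat_lit 49) (nat_lit 1) (nat_lit 24) (nat_lit 1178) c7_9220_0
 Tr.lf Tr.lf)) (Tr.nd (nat_lit 52) (nat_lit 1) (nat_lit 23) (nat_lit 1379) c7_9220_0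
 (Tr.nd (nat_lit 51) (nat_lit 1) (nat_lit 61) (nat_lit 1318) c7_9220_0
 Tr.lf Tr.lf) (Tr.nd (nat_lit 56) (nat_lit 1) (nat_lit 75) (nat_lit 1402) c7_9220_0
 Tr.lf Tr.lf))) (Tr.nd (nat_lit 61) (nat_lit 4) (nat_lit 1) (nat_lit 1960) c7_9220_0
 (Tr.nd (nat_lit 59) (nat_lit 5) (nat_lit 17) (nat_lit 1845) c7_9220_0
 (Tr.nd (nat_lit 58) (nat_lit 5) (nat_lit 37) (nat_lit 1660) c7_9220_0
 Tr.lf Tr.lf) (Tr.nd (nat_lit 60) (nat_lit 5) (nat_lit 6) (nat_lit 1930) c7_9220_0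
 Tr.lf Tr.lf)) (Tr.nd (nat_lit 64) (nat_lit 5) (nat_lit 23) (nat_lit 1988) c7_9220_0
 (Tr.nd (nat_lit 63) (nat_lit 1) (nat_lit 24) (nat_lit 1964) c7_9220_0
 Tr.lf Tr.lf) (Tr.nd (nat_lit 65) (nat_lit 10) (nat_lit 17) (nat_lit 2103) c7_9220_0
 Tr.lf Tr.lf))))) (Tr.nd (nat_lit 105) (nat_lit 1) (nat_lit 7) (nat_lit 3399) c7_9220_0
 (Tr.nd (nat_lit 75) (nat_lit 75) (nat_lit 1) (nat_lit 3069) c7_9220_0
 (Tr.nd (nat_lit 71) (nat_lit 5) (nat_lit 6) (nat_lit 2586) c7_9220_0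
 (Tr.nd (nat_lit 68) (nat_lit 24) (nat_lit 1) (nat_lit 2558) c7_9220_0
 (Tr.nd (nat_lit 67) (nat_lit 23) (nat_lit 5) (nat_lit 2443) c7_9220_0
 Tr.lf Tr.lf) (Tr.nd (nat_lit 70) (nat_lit 1) (nat_lit 4) (nat_lit 2582) c7_9220_0
 Tr.lf Tr.lf)) (Tr.nd (nat_lit 73) (nat_lit 37) (nat_lit 5) (nat_lit 2701) c7_9220_0
 (Tr.nd (nat_lit 72) (nat_lit 17) (nat_lit 5) (nat_lit 2616) c7_9220_0
 Tr.lf Tr.lf) (Tr.nd (nat_lit 74) (nat_lit 61) (nat_lit 3) (nat_lit 2886) c7_9220_0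
 Tr.lf Tr.lf))) (Tr.nd (nat_lit 82) (nat_lit 24) (nat_lit 1) (nat_lit 3344) c7_9220_0
 (Tr.nd (nat_lit 80) (nat_lit 61) (nat_lit 1) (nat_lit 3167) c7_9220_0
 (Tr.nd (nat_lit 79) (nat_lit 23) (nat_lit 1) (nat_lit 3144) c7_9220_0
 Tr.lf Tr.lf) (Tr.nd (nat_lit 81) (nat_lit 116) (nat_lit 1) (nat_lit 3228) c7_9220_0
 Tr.lf Tr.lf)) (Tr.nd (nat_lit 100) (nat_lit 2) (nat_lit 7) (nat_lit 3379) c7_9220_0
 (Tr.nd (nat_lit 99) (nat_lit 1) (nat_lit 11) (nat_lit 3368) c7_9220_0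
 Tr.lf Tr.lf) (Tr.nd (nat_lit 101) (nat_lit 2) (nat_lit 3) (nat_lit 3393) c7_9220_0
 Tr.lf Tr.lf)))) (Tr.nd (nat_lit 115) (nat_lit 63) (nat_lit 2) (nat_lit 3809) c7_9220_0
 (Tr.nd (nat_lit 109) (nat_lit 23) (nat_lit 1) (nat_lit 3540) c7_9220_0
 (Tr.nd (nat_lit 107) (nat_lit 10) (nat_lit 7) (nat_lit 3436) c7_9220_0
 (Tr.nd (nat_lit 106) (nat_lit 5) (nat_lit 6) (nat_lit 3406) c7_9220_0
 Tr.lf Tr.lf) (Tr.nd (nat_lit 108) (nat_lit 17) (nat_lit 2) (nat_lit 3506) c7_9220_0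
 Tr.lf Tr.lf)) (Tr.nd (nat_lit 113) (nat_lit 10) (nat_lit 3) (nat_lit 3569) c7_9220_0
 (Tr.nd (nat_lit 112) (nat_lit 2) (nat_lit 3) (nat_lit 3563) c7_9220_0
 Tr.lf Tr.lf) (Tr.nd (nat_lit 114) (nat_lit 30) (nat_lit 7) (nat_lit 3599) c7_9220_0
 Tr.lf Tr.lf))) (Tr.nd (nat_lit 123) (nat_lit 276) (nat_lit 1) (nat_lit 217) c7_9220_1
 (Tr.nd (nat_lit 121) (nat_lit 63) (nat_lit 1) (nat_lit 0) c7_9220_1
 (Tr.nd (nat_lit 116) (nat_lit 100) (nat_lit 1) (nat_lit 3935) c7_9220_0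
 Tr.lf Tr.lf) (Tr.nd (nat_lit 122) (nat_lit 154) (nat_lit 1) (nat_lit 63) c7_9220_1
 Tr.lf Tr.lf)) (Tr.nd (nat_lit 130) (nat_lit 100) (nat_lit 1) (nat_lit 554) c7_9220_1
 (Tr.nd (nat_lit 124) (nat_lit 61) (nat_lit 1) (nat_lit 493) c7_9220_1
 Tr.lf Tr.lf) (Tr.nd (nat_lit 131) (nat_lit 23) (nat_lit 1) (nat_lit 654) c7_9220_1
 Tr.lf Tr.lf))))))

noncomputable def c7_8452_0 : List Nat := [(nat_lit 0x133da339a7569b264d4e009d035c244ad119ac6519b76a5b9508e572158d601a36004051b838052986039322db1ada5639446a016bb042504ec090a3c96a6d742b96c5157695ed6ada891254928e69d1ac31c25bc2800000000000000000000000000000000000000000000000000000000000000000019a2496407017351667b2c280000000000000000000000000000000000000000000039866ec2200e28a249ea4dc000000062926f5db6c4a34806e39a403973b0e91420a199db52198556b30e0231128a40000000006b318a47189a900000002ac0ccae0000000022194280b61a937272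a59e56c503cdb2aec047701606024ad96198a736a592060c40911aec00336c4ca9620d8c12484d96156a594c69e0cb9a46c54327b4b3516ca4654514db66346d9dd6eb7544cb169b03147ad985acc5636cd8a405961bd324d55732d0a680419258f006915d385105143b21482584ad2a9621408ecf454dba3c50d32653a606610f1ae28e184208ea30353374468ad0002a6a2030ecb1ab5ab23284d0cb53490cd6069883ce595420966da2cc58a6252d5258037a00ceb23d56d0820536109614a222a91b0ca31a45ce86992294c331a88150152919c730b4a04db4d35d0544dda116811b3955730ca80594d0069363c598e220570ccda8c0d8c252b9a370a4082c36e654ab52d8ccc91519d3580892064a9d3559b6d6983db276001b1939b22544152aeb2a2a026b0a3818c850d30001117924f36ab48899e45e4ae27080d97486c1657761a8aa4a62673c46834985b863a8431a4e440105908b82ce42d1ae091450d09b5a47a35a299b2f6a2dab304c686d06ae589919a2f212ad83a09a5545b6c3b0376120a02539eccdad804217431a86118a2f44f5243c6cca8341c1371cc82523805a402e89658ebd2dcd476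2a2e7014a9b0e3320aa73087690bcdb000389c7399c94bae9501c1605b52e6c336b50439baad664b542de32d6621a316d80a0ab3463596a06306446246815701b0516adddac5754e2021c43411989b028088b6366176533924c332de62ec4b06582dcce9542850d0720d05aeca25326b291062754b300011359269948e6e85b38431590966054c3a50a161a91320902d2c629b20da26b96372b4888e1db65b39712c6345d0048c48a77308c79986ca03004ccda63b16321a43cabb69692d23280b6b20c20b7a5b5298132816325bc8cb1a4c0286ac027046d7060cd7895700d14cd054acbaa372084d953952355668ad214a06a1814b5bb29815424e018d8ad81226972ca2b24e2441600e8071d438ce4033aa126a0a7a592d0d6900540351528b197648896ad19ad28649ce149ca661557a49646b57a5133bab249395d62b01a2580dd052eb068828c6ba0d20672c90820534265eaaa69699b0cb2245296dcaa1768d2dce284e98b162a32371a6944144da8922c30a95d64602802b01968d5b101674ba18ab1d6d704b8484eb4420dae5d801b5c0a42063004b3768d1d0ca000000000000008ec42855012bdb545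bb7260c7362f57aa542d9280002659e20e08432242db1976503206018b0a42c119e6d0b690703660764418a4c657ac6024f0075205a99596c71c5e58802a3b6555511700061672d9dd8eadc4268e00e02e96439764d94c91702eb041c72094366d762ecd9a69689d00356d013c6410cd8d0a64b1b52128592356b6e15927698275d244635288800d85203a72323b1c0ac6cddad2e2c1d2e0b52906b80ad011aa4b5b4cab4f17367a524012e1306b0043c546d3c24888b6b975d416dac2e28da945ab7214ab62c8e5b6a0b1a0175282a201d5aa06a0520543611859a34a2cb5013b66c0a24992d19ca01a125c3b3223d72d08ca824145d89d944000000000000040000000000000000c00000c33459805180000008006c1a0281a40a3833433460145174b6051c4c000000000600000002e00000003000000119a340b228e0cd1cd5606145b28d426e9600030008001c334b34501220a142e18838678112850a24a008046ba65681b16c61a8056d1860012e42da06336852c000010000000010581aca01090500030005c0000004281e002010011001c2ca81258d86c5144a230d10410430406)]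
noncomputable def c7_8452_1 : List Nat := [(nat_lit 0x6010c10410530c0a2514761b06490aca31001400402006622040000035000c0011048102cb80641000000001000032466d0e02da16b00018736440b860d9d80b569ae04020447350880d2133081713054ec25c0f080c49da15841749b72204401bb5c2399d8ca62805840c5436a208ba308dec924ae0c594d6aaa9b6164806db51362b31209a916aa50d140ace14151767b044aad9c1adb36311b34a567684c63364e6152acb5c2c66a206c9141656a5651048ab0332d7380bd8c6499808b17325a48280ded891132ca34a790706c1500d02e02a77100aa22559029c82b6d8e4a1ba9191bb944ad28ea326d9175d63b682a48334dc473040c98d06b0004d)]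
noncomputable def T7_8452 : Op := Op.mk (nat_lit 211)
 (Tr.nd (nat_lit 66) (nat_lit 17) (nat_lit 10) (nat_lit 2273) c7_8452_0
 (Tr.nd (nat_lit 30) (nat_lit 2) (nat_lit 3) (nat_lit 1131) c7_8452_0
 (Tr.nd (nat_lit 17) (nat_lit 2) (nat_lit 31) (nat_lit 903) c7_8452_0
 (Tr.nd (nat_lit 9) (nat_lit 1) (nat_lit 154) (nat_lit 460) c7_8452_0
 (Tr.nd (nat_lit 7) (nat_lit 1) (nat_lit 61) (nat_lit 123) c7_8452_0
 (Tr.nd (nat_lit 1) (nat_lit 1) (nat_lit 100) (nat_lit 23) c7_8452_0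
 (Tr.nd (nat_lit 0) (nat_lit 1) (nat_lit 23) (nat_lit 0) c7_8452_0
 Tr.lf Tr.lf) Tr.lf) (Tr.nd (nat_lit 8) (nat_lit 1) (nat_lit 276) (nat_lit 184) c7_8452_0
 Tr.lf Tr.lf)) (Tr.nd (nat_lit 15) (nat_lit 1) (nat_lit 100) (nat_lit 677) c7_8452_0
 (Tr.nd (nat_lit 10) (nat_lit 1) (nat_lit 63) (nat_lit 614) c7_8452_0
 Tr.lf Tr.lf) (Tr.nd (nat_lit 16) (nat_lit 2) (nat_lit 63) (nat_lit 777) c7_8452_0
 Tr.lf Tr.lf))) (Tr.nd (nat_lit 23) (nat_lit 2) (nat_lit 17) (nat_lit 1016) c7_8452_0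
 (Tr.nd (nat_lit 19) (nat_lit 2) (nat_lit 3) (nat_lit 987) c7_8452_0
 (Tr.nd (nat_lit 18) (nat_lit 2) (nat_lit 11) (nat_lit 965) c7_8452_0
 Tr.lf Tr.lf) (Tr.nd (nat_lit 22) (nat_lit 1) (nat_lit 23) (nat_lit 993) c7_8452_0
 Tr.lf Tr.lf)) (Tr.nd (nat_lit 25) (nat_lit 6) (nat_lit 5) (nat_lit 1094) c7_8452_0
 (Tr.nd (nat_lit 24) (nat_lit 4) (nat_lit 11) (nat_lit 1050) c7_8452_0
 Tr.lf Tr.lf) (Tr.nd (nat_lit 26) (nat_lit 7) (nat_lit 1) (nat_lit 1124) c7_8452_0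
 Tr.lf Tr.lf)))) (Tr.nd (nat_lit 57) (nat_lit 3) (nat_lit 61) (nat_lit 1477) c7_8452_0
 (Tr.nd (nat_lit 50) (nat_lit 1) (nat_lit 116) (nat_lit 1202) c7_8452_0
 (Tr.nd (nat_lit 32) (nat_lit 11) (nat_lit 1) (nat_lit 1167) c7_8452_0
 (Tr.nd (nat_lit 31) (nat_lit 6) (nat_lit 5) (nat_lit 1137) c7_8452_0
 Tr.lf Tr.lf) (Tr.nd (nat_lit 49) (nat_lit 1) (nat_lit 24) (nat_lit 1178) c7_8452_0
 Tr.lf Tr.lf)) (Tr.nd (nat_lit 52) (nat_lit 1) (nat_lit 23) (nat_lit 1379) c7_8452_0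
 (Tr.nd (nat_lit 51) (nat_lit 1) (nat_lit 61) (nat_lit 1318) c7_8452_0
 Tr.lf Tr.lf) (Tr.nd (nat_lit 56) (nat_lit 1) (nat_lit 75) (nat_lit 1402) c7_8452_0
 Tr.lf Tr.lf))) (Tr.nd (nat_lit 61) (nat_lit 4) (nat_lit 1) (nat_lit 1960) c7_8452_0
 (Tr.nd (nat_lit 59) (nat_lit 5) (nat_lit 17) (nat_lit 1845) c7_8452_0
 (Tr.nd (nat_lit 58) (nat_lit 5) (nat_lit 37) (nat_lit 1660) c7_8452_0
 Tr.lf Tr.lf) (Tr.nd (nat_lit 60) (nat_lit 5) (nat_lit 6) (nat_lit 1930) c7_8452_0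
 Tr.lf Tr.lf)) (Tr.nd (nat_lit 64) (nat_lit 5) (nat_lit 23) (nat_lit 1988) c7_8452_0
 (Tr.nd (nat_lit 63) (nat_lit 1) (nat_lit 24) (nat_lit 1964) c7_8452_0
 Tr.lf Tr.lf) (Tr.nd (nat_lit 65) (nat_lit 10) (nat_lit 17) (nat_lit 2103) c7_8452_0
 Tr.lf Tr.lf))))) (Tr.nd (nat_lit 105) (nat_lit 1) (nat_lit 7) (nat_lit 3399) c7_8452_0
 (Tr.nd (nat_lit 75) (nat_lit 75) (nat_lit 1) (nat_lit 3069) c7_8452_0
 (Tr.nd (nat_lit 71) (nat_lit 5) (nat_lit 6) (nat_lit 2586) c7_8452_0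
 (Tr.nd (nat_lit 68) (nat_lit 24) (nat_lit 1) (nat_lit 2558) c7_8452_0
 (Tr.nd (nat_lit 67) (nat_lit 23) (nat_lit 5) (nat_lit 2443) c7_8452_0
 Tr.lf Tr.lf) (Tr.nd (nat_lit 70) (nat_lit 1) (nat_lit 4) (nat_lit 2582) c7_8452_0
 Tr.lf Tr.lf)) (Tr.nd (nat_lit 73) (nat_lit 37) (nat_lit 5) (nat_lit 2701) c7_8452_0
 (Tr.nd (nat_lit 72) (nat_lit 17) (nat_lit 5) (nat_lit 2616) c7_8452_0
 Tr.lf Tr.lf) (Tr.nd (nat_lit 74) (nat_lit 61) (nat_lit 3) (nat_lit 2886) c7_8452_0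
 Tr.lf Tr.lf))) (Tr.nd (nat_lit 82) (nat_lit 24) (nat_lit 1) (nat_lit 3344) c7_8452_0
 (Tr.nd (nat_lit 80) (nat_lit 61) (nat_lit 1) (nat_lit 3167) c7_8452_0
 (Tr.nd (nat_lit 79) (nat_lit 23) (nat_lit 1) (nat_lit 3144) c7_8452_0
 Tr.lf Tr.lf) (Tr.nd (nat_lit 81) (nat_lit 116) (nat_lit 1) (nat_lit 3228) c7_8452_0
 Tr.lf Tr.lf)) (Tr.nd (nat_lit 100) (nat_lit 2) (nat_lit 7) (nat_lit 3379) c7_8452_0
 (Tr.nd (nat_lit 99) (nat_lit 1) (nat_lit 11) (nat_lit 3368) c7_8452_0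
 Tr.lf Tr.lf) (Tr.nd (nat_lit 101) (nat_lit 2) (nat_lit 3) (nat_lit 3393) c7_8452_0
 Tr.lf Tr.lf)))) (Tr.nd (nat_lit 115) (nat_lit 63) (nat_lit 2) (nat_lit 3809) c7_8452_0
 (Tr.nd (nat_lit 109) (nat_lit 23) (nat_lit 1) (nat_lit 3540) c7_8452_0
 (Tr.nd (nat_lit 107) (nat_lit 10) (nat_lit 7) (nat_lit 3436) c7_8452_0
 (Tr.nd (nat_lit 106) (nat_lit 5) (nat_lit 6) (nat_lit 3406) c7_8452_0
 Tr.lf Tr.lf) (Tr.nd (nat_lit 108) (nat_lit 17) (nat_lit 2) (nat_lit 3506) c7_8452_0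
 Tr.lf Tr.lf)) (Tr.nd (nat_lit 113) (nat_lit 10) (nat_lit 3) (nat_lit 3569) c7_8452_0
 (Tr.nd (nat_lit 112) (nat_lit 2) (nat_lit 3) (nat_lit 3563) c7_8452_0
 Tr.lf Tr.lf) (Tr.nd (nat_lit 114) (nat_lit 30) (nat_lit 7) (nat_lit 3599) c7_8452_0
 Tr.lf Tr.lf))) (Tr.nd (nat_lit 123) (nat_lit 276) (nat_lit 1) (nat_lit 217) c7_8452_1
 (Tr.nd (nat_lit 121) (nat_lit 63) (nat_lit 1) (nat_lit 0) c7_8452_1
 (Tr.nd (nat_lit 116) (nat_lit 100) (nat_lit 1) (nat_lit 3935) c7_8452_0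
 Tr.lf Tr.lf) (Tr.nd (nat_lit 122) (nat_lit 154) (nat_lit 1) (nat_lit 63) c7_8452_1
 Tr.lf Tr.lf)) (Tr.nd (nat_lit 130) (nat_lit 100) (nat_lit 1) (nat_lit 554) c7_8452_1
 (Tr.nd (nat_lit 124) (nat_lit 61) (nat_lit 1) (nat_lit 493) c7_8452_1
 Tr.lf Tr.lf) (Tr.nd (nat_lit 131) (nat_lit 23) (nat_lit 1) (nat_lit 654) c7_8452_1
 Tr.lf Tr.lf))))))

noncomputable def c7_8260_0 : List Nat := [(nat_lit 0xb60309291026a550050e2852b5c8d74eaaa91890a99e12aa8125c06d895b12a23cf159ab7336e87060911967002a5404e53481a9a49b767aa4737094ea76929d70082a65083524d99d22ca0d394508151571b6ea180000000000000000000000000000000000000000000000000000000000000000000a66e194e446336ad4396488000000000000000000000000000000000000000000004ba01362201028f24ea30e80000000396aa1c804020a10161b6bc846e950aba811846542d8006a86f4c748a6a19500000000321b1a16cc4d6930000000101abc70000000026129a34c6d0a9d86cc4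88c170614b4e011401b80105d709a25ac64899b0c175b628089c4820096c7956a2cccac24d8a0043489da706c25496cd49285e32489a929a3139a55b976a854336a31836f1256c36b2c6d8b934c2c2e8d06d4acb22d89495490dc14880b1bae005591ea802b495e729202b237933a48713a9a52808a21093b414de6126ecb6b4dd1267822de6e192a6f4890aee8e5363a8007159b101b44b8030ea2db551a5c6598356aa34b60b228340d3a95ced3985a0c6eaa505acaa793a518949b64261b231499649a92c3729113a59822a27b5433610aec0f02cdcee865102742b338a85a09010a14d9c1b4b454e70c476552125263aa19488a377125b78161e39dae100622d728b120368ca27006284907371d24d296a9b0c5b8b795d49c28d6a4f2cab4e486a2d9bb3af5a3539594186a0000522862ed9a1b1b326b0aa92696821345408b1a3562f6a9b78b126cae411c6d05c466754b441030495298eca2501e60906ada56962667109b2c5a66410619d99117466851acf4b462cc863c5d7b478a36a8d8cd4d6c581cad2302b5b6a06e408d30c3057349cc587366de298b192dd20e3015732de6e16218cba33b8bcb405a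0db0c16e9db5964ae390a64d33070150ab98146a699b5ad83b463629855141e986b8176a654d306f3469791c8946265dcf661b7713065b68c57b5288b202deb2468ac35321a0940c07562a724d1d62a3b041182672368b4cecdb146d4591138dc6b4269754b0a33519386a539410a8a4c1324d2551000045b1692239e2e3aa931ad9e17258936b8ecaebaddda96a96d555539114468ed926c802464d5a626db6dc41a45686d4a81bc8e9034d911ed09220106b8d60c8d54f256a04599981c928a1308bdb0076b19161a854892f230bc517357525639266593022628e2c028f30452d0116bac9b6c63d2858a422c66d04974b24572b584ee593d2a76b35290810c6ee523701c068909ad421aeb5a4a5a9058aea0c06a17556aa3569a5884057a999c54a0b451eb4832bd59023652141ac6bb02f0340ae3d0c39266361ea0a736283776ce4af1b33b2644057392a20475b9405221a9922b2252d0597626c273519069ad436e5948002cc3b1128820602e000c402016e3044a234605404c00d004c703128b4b0f401811864876a05bc602e0c400413894050dbac861bd012e5c000000000000065a0955d0007508a031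c23a3322d39696e95142018001eaf011896b320d16c0db6a85108e863343c1494a91a41aa20970d710e017546235b81676814ca008005286a5728a200b69946d67168461718c6ca188a26a5768400a13340e4ad574d99a290c72a8924dd41aec641b9408334c80b0c1373a2e549771568734b8da2c00d3a544542807261810d6b19697ad4f239e7054a5a94b488c9215560cf44640e4555c6ba56b91a11c62022b13420364180d913b5ca9d814a527520d7a418ecd398a6e504e2e1c0415a11936941b555a4e343a26442499b0a4eb8344e080376c14e1b3010ab63884308d0543a137a321c8637595752ab81a3410cc69e31d28ba99c5a15b000000000000000000000040000000000180c33419a05180180008016c1a2281a409b8334735a0105144b6051c4c000000000000000002803600003000600119a340d226e0cd2cd5205145b30c028e16000300060090334b34981220a142618834678812050a44a0011b405403331e05d02ea141892f0c6622aae8254814400000000200006c0806a21e373600000005006c0503220a286aa8008000c2c586d001032c6b86c72090288299c94)]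
noncomputable def c7_8260_1 : List Nat := [(nat_lit 0x44b1688288482c761ae0cb100136194a30000200aae08a20ac0503600500000001bd4e60aa40236000008000000014424448aeaa0e870cc938442ea0564670bc04444d81006c8214569e90b5506cd836bb658496d8cc4cd06600bcc968604d40473404a0c4d2ca84db365559da4bce0b92c200ec39d0336de4b1442a06b06401654b96d8c92e06d6a36a40e564d00ed4092828a1a25a1d31ab444001b25908dad268c65990ec3193536c4ec8637426716ab28d70e69c2c114a623a8dd5175b86460b99b42b1504e0c1038eca8403d86344b5b0208d4c23ad232969205682b14e26d553611b497027440318ce2458da3a34f638499d20dc4d8911b1ab5d89)]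
noncomputable def T7_8260 : Op := Op.mk (nat_lit 211)
 (Tr.nd (nat_lit 66) (nat_lit 17) (nat_lit 10) (nat_lit 2273) c7_8260_0
 (Tr.nd (nat_lit 30) (nat_lit 2) (nat_lit 3) (nat_lit 1131) c7_8260_0
 (Tr.nd (nat_lit 17) (nat_lit 2) (nat_lit 31) (nat_lit 903) c7_8260_0
 (Tr.nd (nat_lit 9) (nat_lit 1) (nat_lit 154) (nat_lit 460) c7_8260_0
 (Tr.nd (nat_lit 7) (nat_lit 1) (nat_lit 61) (nat_lit 123) c7_8260_0
 (Tr.nd (nat_lit 1) (nat_lit 1) (nat_lit 100) (nat_lit 23) c7_8260_0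
 (Tr.nd (nat_lit 0) (nat_lit 1) (nat_lit 23) (nat_lit 0) c7_8260_0
 Tr.lf Tr.lf) Tr.lf) (Tr.nd (nat_lit 8) (nat_lit 1) (nat_lit 276) (nat_lit 184) c7_8260_0
 Tr.lf Tr.lf)) (Tr.nd (nat_lit 15) (nat_lit 1) (nat_lit 100) (nat_lit 677) c7_8260_0
 (Tr.nd (nat_lit 10) (nat_lit 1) (nat_lit 63) (nat_lit 614) c7_8260_0
 Tr.lf Tr.lf) (Tr.nd (nat_lit 16) (nat_lit 2) (nat_lit 63) (nat_lit 777) c7_8260_0
 Tr.lf Tr.lf))) (Tr.nd (nat_lit 23) (nat_lit 2) (nat_lit 17) (nat_lit 1016) c7_8260_0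
 (Tr.nd (nat_lit 19) (nat_lit 2) (nat_lit 3) (nat_lit 987) c7_8260_0
 (Tr.nd (nat_lit 18) (nat_lit 2) (nat_lit 11) (nat_lit 965) c7_8260_0
 Tr.lf Tr.lf) (Tr.nd (nat_lit 22) (nat_lit 1) (nat_lit 23) (nat_lit 993) c7_8260_0
 Tr.lf Tr.lf)) (Tr.nd (nat_lit 25) (nat_lit 6) (nat_lit 5) (nat_lit 1094) c7_8260_0
 (Tr.nd (nat_lit 24) (nat_lit 4) (nat_lit 11) (nat_lit 1050) c7_8260_0
 Tr.lf Tr.lf) (Tr.nd (nat_lit 26) (nat_lit 7) (nat_lit 1) (nat_lit 1124) c7_8260_0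
 Tr.lf Tr.lf)))) (Tr.nd (nat_lit 57) (nat_lit 3) (nat_lit 61) (nat_lit 1477) c7_8260_0
 (Tr.nd (nat_lit 50) (nat_lit 1) (nat_lit 116) (nat_lit 1202) c7_8260_0
 (Tr.nd (nat_lit 32) (nat_lit 11) (nat_lit 1) (nat_lit 1167) c7_8260_0
 (Tr.nd (nat_lit 31) (nat_lit 6) (nat_lit 5) (nat_lit 1137) c7_8260_0
 Tr.lf Tr.lf) (Tr.nd (nat_lit 49) (nat_lit 1) (nat_lit 24) (nat_lit 1178) c7_8260_0
 Tr.lf Tr.lf)) (Tr.nd (nat_lit 52) (nat_lit 1) (nat_lit 23) (nat_lit 1379) c7_8260_0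
 (Tr.nd (nat_lit 51) (nat_lit 1) (nat_lit 61) (nat_lit 1318) c7_8260_0
 Tr.lf Tr.lf) (Tr.nd (nat_lit 56) (nat_lit 1) (nat_lit 75) (nat_lit 1402) c7_8260_0
 Tr.lf Tr.lf))) (Tr.nd (nat_lit 61) (nat_lit 4) (nat_lit 1) (nat_lit 1960) c7_8260_0
 (Tr.nd (nat_lit 59) (nat_lit 5) (nat_lit 17) (nat_lit 1845) c7_8260_0
 (Tr.nd (nat_lit 58) (nat_lit 5) (nat_lit 37) (nat_lit 1660) c7_8260_0
 Tr.lf Tr.lf) (Tr.nd (nat_lit 60) (nat_lit 5) (nat_lit 6) (nat_lit 1930) c7_8260_0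
 Tr.lf Tr.lf)) (Tr.nd (nat_lit 64) (nat_lit 5) (nat_lit 23) (nat_lit 1988) c7_8260_0
 (Tr.nd (nat_lit 63) (nat_lit 1) (nat_lit 24) (nat_lit 1964) c7_8260_0
 Tr.lf Tr.lf) (Tr.nd (nat_lit 65) (nat_lit 10) (nat_lit 17) (nat_lit 2103) c7_8260_0
 Tr.lf Tr.lf))))) (Tr.nd (nat_lit 105) (nat_lit 1) (nat_lit 7) (nat_lit 3399) c7_8260_0
 (Tr.nd (nat_lit 75) (nat_lit 75) (nat_lit 1) (nat_lit 3069) c7_8260_0
 (Tr.nd (nat_lit 71) (nat_lit 5) (nat_lit 6) (nat_lit 2586) c7_8260_0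
 (Tr.nd (nat_lit 68) (nat_lit 24) (nat_lit 1) (nat_lit 2558) c7_8260_0
 (Tr.nd (nat_lit 67) (nat_lit 23) (nat_lit 5) (nat_lit 2443) c7_8260_0
 Tr.lf Tr.lf) (Tr.nd (nat_lit 70) (nat_lit 1) (nat_lit 4) (nat_lit 2582) c7_8260_0
 Tr.lf Tr.lf)) (Tr.nd (nat_lit 73) (nat_lit 37) (nat_lit 5) (nat_lit 2701) c7_8260_0
 (Tr.nd (nat_lit 72) (nat_lit 17) (nat_lit 5) (nat_lit 2616) c7_8260_0
 Tr.lf Tr.lf) (Tr.nd (nat_lit 74) (nat_lit 61) (nat_lit 3) (nat_lit 2886) c7_8260_0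
 Tr.lf Tr.lf))) (Tr.nd (nat_lit 82) (nat_lit 24) (nat_lit 1) (nat_lit 3344) c7_8260_0
 (Tr.nd (nat_lit 80) (nat_lit 61) (nat_lit 1) (nat_lit 3167) c7_8260_0
 (Tr.nd (nat_lit 79) (nat_lit 23) (nat_lit 1) (nat_lit 3144) c7_8260_0
 Tr.lf Tr.lf) (Tr.nd (nat_lit 81) (nat_lit 116) (nat_lit 1) (nat_lit 3228) c7_8260_0
 Tr.lf Tr.lf)) (Tr.nd (nat_lit 100) (nat_lit 2) (nat_lit 7) (nat_lit 3379) c7_8260_0
 (Tr.nd (nat_lit 99) (nat_lit 1) (nat_lit 11) (nat_lit 3368) c7_8260_0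
 Tr.lf Tr.lf) (Tr.nd (nat_lit 101) (nat_lit 2) (nat_lit 3) (nat_lit 3393) c7_8260_0
 Tr.lf Tr.lf)))) (Tr.nd (nat_lit 115) (nat_lit 63) (nat_lit 2) (nat_lit 3809) c7_8260_0
 (Tr.nd (nat_lit 109) (nat_lit 23) (nat_lit 1) (nat_lit 3540) c7_8260_0
 (Tr.nd (nat_lit 107) (nat_lit 10) (nat_lit 7) (nat_lit 3436) c7_8260_0
 (Tr.nd (nat_lit 106) (nat_lit 5) (nat_lit 6) (nat_lit 3406) c7_8260_0
 Tr.lf Tr.lf) (Tr.nd (nat_lit 108) (nat_lit 17) (nat_lit 2) (nat_lit 3506) c7_8260_0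
 Tr.lf Tr.lf)) (Tr.nd (nat_lit 113) (nat_lit 10) (nat_lit 3) (nat_lit 3569) c7_8260_0
 (Tr.nd (nat_lit 112) (nat_lit 2) (nat_lit 3) (nat_lit 3563) c7_8260_0
 Tr.lf Tr.lf) (Tr.nd (nat_lit 114) (nat_lit 30) (nat_lit 7) (nat_lit 3599) c7_8260_0
 Tr.lf Tr.lf))) (Tr.nd (nat_lit 123) (nat_lit 276) (nat_lit 1) (nat_lit 217) c7_8260_1
 (Tr.nd (nat_lit 121) (nat_lit 63) (nat_lit 1) (nat_lit 0) c7_8260_1
 (Tr.nd (nat_lit 116) (nat_lit 100) (nat_lit 1) (nat_lit 3935) c7_8260_0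
 Tr.lf Tr.lf) (Tr.nd (nat_lit 122) (nat_lit 154) (nat_lit 1) (nat_lit 63) c7_8260_1
 Tr.lf Tr.lf)) (Tr.nd (nat_lit 130) (nat_lit 100) (nat_lit 1) (nat_lit 554) c7_8260_1
 (Tr.nd (nat_lit 124) (nat_lit 61) (nat_lit 1) (nat_lit 493) c7_8260_1
 Tr.lf Tr.lf) (Tr.nd (nat_lit 131) (nat_lit 23) (nat_lit 1) (nat_lit 654) c7_8260_1
 Tr.lf Tr.lf))))))

noncomputable def c7_8212_0 : List Nat := [(nat_lit 0xe574665b4c6123440b2280d0c8290d9c81ec3190da264b41030563b331d624a104e85b003103044d0a6a51c5ad0655b7247ad64578019b49594432256a6cb29965cb330c928d96b3606961a40f5a6dcc9a4617489000000000000000000000000000000000000000000000000000000000000000000012e0c6c726f20733761052e0000000000000000000000000000000000000000000005c337a92514a10965a15ac800000005612a14d6b44c08005cc407747106f3926920855141b4e40011d38281c109c00000000daa645484b5b27600000000bda6a5b000000028b4470dd61cec5b6702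11b5462e615c27480218816388b0e439b90e6312622e065c020611000248451725a558f66a32605898ec5242c17718a228a9556e13868d334acb40e6214618b48931345785cd5200aa51580355a3a990835a982e5a961da9e4b2503ce6a308f62cd07240803144b25eda0c501ab65940d92e1056b3b336013b20019a2c2d7ac370cde1742e834c48cce1b2bc49aeea9a093235015643a51b4211350304b6833a52935004d6c0c58b94d09e94cad14b36464d18f132ab59652ba50a86ab5a050baf385dd9c84c6d1a35cb5451d04481a802406365243824ac4c05543835b209e0c12b5871913704c196018d8284016875321506aa9a88a6bce5c708764ab5108cc9326282db1010e8c8da2222d22822a14a03580469d0a4d02a92c0a2ccab0a9997679ca0ba5e26b344031c5e41c000106725b8bd922ecc24c8bb6c346585836a34b4b6d24a54a0732cca0f468a084b6ec5b724371c73b6d8f5c467807b2ab235004431ea0a38d2918547a1384564a7136308cc128ac2f6ce1ab2a612d68e045862bd84b1649082556da9515c230ba129245605b8a925296201e48da8e32d6a526a7aacc57422592ecb8942d8c1503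d1d62a56ea9aa99c9b6505abc9650c95030296dd0d38d0d982614530251159ac55b4a25b632b2930ececa85492a4ab0d9160a192118b03406945d20a64654238dcec99433654d491c958f37b339e641b523908802c942a9304d1d34d03236b2c95534a2687191858c24ac6d9b66176128cb0a65b59000123205ce6bac794d0acacd6568e825a4ac5a5a238a22eb1a2011410a00de0b576e80aad82111b461c0d2a58a328abcd01840d82d581b2a442cb1490ad13858d6866cd424e5a88d3629a14606a20c193346895b0a98db260101902ca85b844029516d0904a3703880f640668044bd1609a226b0ad5badb16e91cc194f548c9928eca65489b1d6a111b0516ed2664c53482946b6aed06ba497b208b2c050dc9b45588e80cb906426b254509807269531d663989218028d3225ea9c108da028d85a674c9d76dc6c962768c5856abb4a1911928e0010962296767061747988964b356b0cdcb510dc9840b55ccae003a2c540c4576ac9b375bb06db34816dc8554a322ca62982e1a834306309b5b9ecc26ee80075e16d213da581175558000a0c40232c465424e0f191bc000000000000013240a37580b0326263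c19b947818e0d2e16579278000d62eb73a9e8631b329c0c1b8996ea80222845430aa4c0819d845359124d2479b0a39ab008063c029014c5a3046a5580e5d0ed7344a4ca24ecde12c8684264560264d63a8635c94b90825a6e55dd80d282abd2195ca7185038d2f34e92430ac5662418d545d0c47866a876375d481cdbd14a6108b4f03801b215a085903ae17b1c88620992d05a64386cc48f6091058a4452500a720c1a6cbc2bb1c98452198538edae425772bb5c33daa35e62439932637108d05b9331b58dd801875da55037918a2019a2da71a528c684a710cf134e30294205cada660699bb48c46d8b59d7241cd1e71599dc19aa0c122ab000000000000000000000000200000000000a33599005d8018003002ec1a4281240a38334b34e0105144ba051c4c0000000000000000000020c0003000600639a3401222e8cd2cd2a041451288c28e06000300360164334b34a01220a142418838679612050a44a000229b89b5936289a00402928141d3660c141d366ca8a00000000001000a00181a08359b400000000041800156013411580000186003413683425b3c351007981a0731733)]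
noncomputable def c7_8212_1 : List Nat := [(nat_lit 0x3d19d18980798105c33d92148b4914801860000074114901d400184000000000169748229180028001000000000028ab694d6110c694d611089a040026a29497693a9a080051ac76115c44572281a872b03ba8148095c0ed42c652728d346eb2699375c4c626a83028a0dc10852998dbac210682551548c8c2aa091b12462a438d3482d021a3a04ad08b0994cb4b45d2e8220e111655e2e2108665aae42c342d58b430f1a297609537aac75c9ba8a4308a96357a551e734612d717686dc0e4da969885a6ec64216210e349cf051a2660e2469c6da296028a159b1159b5c610256e5d83d23645281d4e90978c81e74abb3c35daad5d816bb638d1a19141a4)]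
noncomputable def T7_8212 : Op := Op.mk (nat_lit 211)
 (Tr.nd (nat_lit 66) (nat_lit 17) (nat_lit 10) (nat_lit 2273) c7_8212_0
 (Tr.nd (nat_lit 30) (nat_lit 2) (nat_lit 3) (nat_lit 1131) c7_8212_0
 (Tr.nd (nat_lit 17) (nat_lit 2) (nat_lit 31) (nat_lit 903) c7_8212_0
 (Tr.nd (nat_lit 9) (nat_lit 1) (nat_lit 154) (nat_lit 460) c7_8212_0
 (Tr.nd (nat_lit 7) (nat_lit 1) (nat_lit 61) (nat_lit 123) c7_8212_0
 (Tr.nd (nat_lit 1) (nat_lit 1) (nat_lit 100) (nat_lit 23) c7_8212_0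
 (Tr.nd (nat_lit 0) (nat_lit 1) (nat_lit 23) (nat_lit 0) c7_8212_0
 Tr.lf Tr.lf) Tr.lf) (Tr.nd (nat_lit 8) (nat_lit 1) (nat_lit 276) (nat_lit 184) c7_8212_0
 Tr.lf Tr.lf)) (Tr.nd (nat_lit 15) (nat_lit 1) (nat_lit 100) (nat_lit 677) c7_8212_0
 (Tr.nd (nat_lit 10) (nat_lit 1) (nat_lit 63) (nat_lit 614) c7_8212_0
 Tr.lf Tr.lf) (Tr.nd (nat_lit 16) (nat_lit 2) (nat_lit 63) (nat_lit 777) c7_8212_0
 Tr.lf Tr.lf))) (Tr.nd (nat_lit 23) (nat_lit 2) (nat_lit 17) (nat_lit 1016) c7_8212_0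
 (Tr.nd (nat_lit 19) (nat_lit 2) (nat_lit 3) (nat_lit 987) c7_8212_0
 (Tr.nd (nat_lit 18) (nat_lit 2) (nat_lit 11) (nat_lit 965) c7_8212_0
 Tr.lf Tr.lf) (Tr.nd (nat_lit 22) (nat_lit 1) (nat_lit 23) (nat_lit 993) c7_8212_0
 Tr.lf Tr.lf)) (Tr.nd (nat_lit 25) (nat_lit 6) (nat_lit 5) (nat_lit 1094) c7_8212_0
 (Tr.nd (nat_lit 24) (nat_lit 4) (nat_lit 11) (nat_lit 1050) c7_8212_0
 Tr.lf Tr.lf) (Tr.nd (nat_lit 26) (nat_lit 7) (nat_lit 1) (nat_lit 1124) c7_8212_0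
 Tr.lf Tr.lf)))) (Tr.nd (nat_lit 57) (nat_lit 3) (nat_lit 61) (nat_lit 1477) c7_8212_0
 (Tr.nd (nat_lit 50) (nat_lit 1) (nat_lit 116) (nat_lit 1202) c7_8212_0
 (Tr.nd (nat_lit 32) (nat_lit 11) (nat_lit 1) (nat_lit 1167) c7_8212_0
 (Tr.nd (nat_lit 31) (nat_lit 6) (nat_lit 5) (nat_lit 1137) c7_8212_0
 Tr.lf Tr.lf) (Tr.nd (nat_lit 49) (nat_lit 1) (nat_lit 24) (nat_lit 1178) c7_8212_0
 Tr.lf Tr.lf)) (Tr.nd (nat_lit 52) (nat_lit 1) (nat_lit 23) (nat_lit 1379) c7_8212_0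
 (Tr.nd (nat_lit 51) (nat_lit 1) (nat_lit 61) (nat_lit 1318) c7_8212_0
 Tr.lf Tr.lf) (Tr.nd (nat_lit 56) (nat_lit 1) (nat_lit 75) (nat_lit 1402) c7_8212_0
 Tr.lf Tr.lf))) (Tr.nd (nat_lit 61) (nat_lit 4) (nat_lit 1) (nat_lit 1960) c7_8212_0
 (Tr.nd (nat_lit 59) (nat_lit 5) (nat_lit 17) (nat_lit 1845) c7_8212_0
 (Tr.nd (nat_lit 58) (nat_lit 5) (nat_lit 37) (nat_lit 1660) c7_8212_0
 Tr.lf Tr.lf) (Tr.nd (nat_lit 60) (nat_lit 5) (nat_lit 6) (nat_lit 1930) c7_8212_0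
 Tr.lf Tr.lf)) (Tr.nd (nat_lit 64) (nat_lit 5) (nat_lit 23) (nat_lit 1988) c7_8212_0
 (Tr.nd (nat_lit 63) (nat_lit 1) (nat_lit 24) (nat_lit 1964) c7_8212_0
 Tr.lf Tr.lf) (Tr.nd (nat_lit 65) (nat_lit 10) (nat_lit 17) (nat_lit 2103) c7_8212_0
 Tr.lf Tr.lf))))) (Tr.nd (nat_lit 105) (nat_lit 1) (nat_lit 7) (nat_lit 3399) c7_8212_0
 (Tr.nd (nat_lit 75) (nat_lit 75) (nat_lit 1) (nat_lit 3069) c7_8212_0
 (Tr.nd (nat_lit 71) (nat_lit 5) (nat_lit 6) (nat_lit 2586) c7_8212_0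
 (Tr.nd (nat_lit 68) (nat_lit 24) (nat_lit 1) (nat_lit 2558) c7_8212_0
 (Tr.nd (nat_lit 67) (nat_lit 23) (nat_lit 5) (nat_lit 2443) c7_8212_0
 Tr.lf Tr.lf) (Tr.nd (nat_lit 70) (nat_lit 1) (nat_lit 4) (nat_lit 2582) c7_8212_0
 Tr.lf Tr.lf)) (Tr.nd (nat_lit 73) (nat_lit 37) (nat_lit 5) (nat_lit 2701) c7_8212_0
 (Tr.nd (nat_lit 72) (nat_lit 17) (nat_lit 5) (nat_lit 2616) c7_8212_0
 Tr.lf Tr.lf) (Tr.nd (nat_lit 74) (nat_lit 61) (nat_lit 3) (nat_lit 2886) c7_8212_0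
 Tr.lf Tr.lf))) (Tr.nd (nat_lit 82) (nat_lit 24) (nat_lit 1) (nat_lit 3344) c7_8212_0
 (Tr.nd (nat_lit 80) (nat_lit 61) (nat_lit 1) (nat_lit 3167) c7_8212_0
 (Tr.nd (nat_lit 79) (nat_lit 23) (nat_lit 1) (nat_lit 3144) c7_8212_0
 Tr.lf Tr.lf) (Tr.nd (nat_lit 81) (nat_lit 116) (nat_lit 1) (nat_lit 3228) c7_8212_0
 Tr.lf Tr.lf)) (Tr.nd (nat_lit 100) (nat_lit 2) (nat_lit 7) (nat_lit 3379) c7_8212_0
 (Tr.nd (nat_lit 99) (nat_lit 1) (nat_lit 11) (nat_lit 3368) c7_8212_0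
 Tr.lf Tr.lf) (Tr.nd (nat_lit 101) (nat_lit 2) (nat_lit 3) (nat_lit 3393) c7_8212_0
 Tr.lf Tr.lf)))) (Tr.nd (nat_lit 115) (nat_lit 63) (nat_lit 2) (nat_lit 3809) c7_8212_0
 (Tr.nd (nat_lit 109) (nat_lit 23) (nat_lit 1) (nat_lit 3540) c7_8212_0
 (Tr.nd (nat_lit 107) (nat_lit 10) (nat_lit 7) (nat_lit 3436) c7_8212_0
 (Tr.nd (nat_lit 106) (nat_lit 5) (nat_lit 6) (nat_lit 3406) c7_8212_0
 Tr.lf Tr.lf) (Tr.nd (nat_lit 108) (nat_lit 17) (nat_lit 2) (nat_lit 3506) c7_8212_0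
 Tr.lf Tr.lf)) (Tr.nd (nat_lit 113) (nat_lit 10) (nat_lit 3) (nat_lit 3569) c7_8212_0
 (Tr.nd (nat_lit 112) (nat_lit 2) (nat_lit 3) (nat_lit 3563) c7_8212_0
 Tr.lf Tr.lf) (Tr.nd (nat_lit 114) (nat_lit 30) (nat_lit 7) (nat_lit 3599) c7_8212_0
 Tr.lf Tr.lf))) (Tr.nd (nat_lit 123) (nat_lit 276) (nat_lit 1) (nat_lit 217) c7_8212_1
 (Tr.nd (nat_lit 121) (nat_lit 63) (nat_lit 1) (nat_lit 0) c7_8212_1
 (Tr.nd (nat_lit 116) (nat_lit 100) (nat_lit 1) (nat_lit 3935) c7_8212_0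
 Tr.lf Tr.lf) (Tr.nd (nat_lit 122) (nat_lit 154) (nat_lit 1) (nat_lit 63) c7_8212_1
 Tr.lf Tr.lf)) (Tr.nd (nat_lit 130) (nat_lit 100) (nat_lit 1) (nat_lit 554) c7_8212_1
 (Tr.nd (nat_lit 124) (nat_lit 61) (nat_lit 1) (nat_lit 493) c7_8212_1
 Tr.lf Tr.lf) (Tr.nd (nat_lit 131) (nat_lit 23) (nat_lit 1) (nat_lit 654) c7_8212_1
 Tr.lf Tr.lf))))))

noncomputable def c7_9217_0 : List Nat := [(nat_lit 0x184ad3b2a9a8ac602081e615034ba1b5949e7962045048e3c6a6340554f6a88c5c5817028e5982a030dd19065e02684d58b20989154ad100d0cf5032b03add4a670c1656e51a980dad494ca5da2a69099691ac426700000000000000000000000000000000000000000000000000000000000000000000a8d85b82aa9228708d1a8600000000000000000000000000000000000000000000003a41355568ce6b511656a4000000018f1adbc64aee61019109c071da00f4a9c7142694933849aad94409aadcd9d00000000c4859652628e22000000002e8d024200000001d3586c5108330c5139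3a6dab1c063623b2001510058ad4d43d5a42311376ba2188000200000005834615ab403b6b3678d4036520e5d1aca360d66c92d3b20936aba6ca5c0f64f2190c998c18f469496350a801a6d3180f440a41e8a5a237916de431dad24032d51a20c82888a6a111a852b1595e673d3307514588b01db442846a44b132a2334c904880c58354ba51b0e810d945a4b74308c2b0255366049018994325b2cde2050d26b120e9568f44c822c12a233224a89d5283090992a9438652eb00a823989d45c26333a9e8c87546cbd51a93c29c5dc7335124e19c1ae07362c534cc43358e5d8527622036968d2d6414b068c61517134a6585c2a2e0ce9908a001548e16ceb9b8e20cc65b649c9c6c0b4b66e9886c89624e1a25826334d26849919d027754decc516c69941849ba0aa2d31c8ad0d8000040b8b2b191969888b773d258b0694a5b9516ca00d81e41441a9490d0d965a9b2848e814d318c61836ab05647319d6c92362a06c643371d445d6b243dae475c98af269101188a8ee050188a03a701322752292304302b38f2306c05c6e6e9994c2db26850d7142209c98d719c1cdab119a5ec82d4c92c2e3b10c431abc2219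ec262c9568960591a2029b533c3182bc243b63a149a253c64d986cd78098e16d01265e2702c0084a1060a91585682db9a98634303565ab2c0f458e184a2e2e250e792c48403d6b0f211cc109b540d46ddae7088b06595a568a383d70c2a311601c1355dd8b6f650d6a1c030116cab1b3624c652c99e00004968388831ba987b1968c76a54b2262c9008e391976281913228630a88d0ec753c2219dadd0e116dcd625eda5c99228c8c74684429c19274e05e57366884360c24d4e3b5d2abb0c8308ccc05ab2d4a6ce7146e30911ab39e5742e40e991e3b0202a1d616263359ce0a34183d4931ab110a20cb74b11e056028009121121b59c4a2c071093299bd9ad712a692b10e915a30b908ca5468cc8b34253092ee19c4aa054811983d6692965e7a4d84942bb44a8d452ce942ae486d20d29b291b2c8024628ee752742113a14772aca68d10a61231380c4d15051210538ad84026dd8e0b36cacdc16c5330910a660386d34813432a4cb0655b0c8939e86a49b3b3a7363604b1967ae8a3a549497a315e0f13849142e6bae41d48c8d173030000001000050c15dada81c093a00000000000002d43cd8a60062416c5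42aea76a4804ec71a8489d00000968c242b301b6a6008a6a5781793a2635ca11282971c9ed2eaca4518a38d59981363888d018a00079b3192b376dd20052b309284316b2bad9a0c8452b5910f564d9505701a539b8160ec684683955acd44c09dc6c370133300c6b71a0d5c42a72136d90092c0d45494c2cd4099a50dd75411e085ac4b1c4232328ce055d9aa8898354e71c822801cb3cd22ed335980a83cc4100c1d17456569d8323880a82856ac32844480a04596b9330a9149c0d85a04960d71935c2016b065b61100a0ee59008179a8a02b236e760a54b0daeb405753c1a25484116d82a25354cc2aac609d6c61abaf0950223d820700010000000000000300000000301b00002000403ae9724033400c0030035a3421808911622e9ae9480430c9788971600000000000400000006006c000280050053748c024c380ba4ba40010c3050204383a0002802b02c82e92e90804c10a608150335c33060853655000000000003cc45210009187612e48251248c800a325400000c00180d8014003001acda700002000c00d84103623300670005023624803d104c487040001c8c074aac44c4)]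
noncomputable def c7_9217_1 : List Nat := [(nat_lit 0x40d40ea3580e4600010c640d053302481b805000c5810b81b1041b003000200011a6f2600c001401b018003000001590a2002e49058248c99587200019140f300000000000120c48d9246ee9aa586486aa3b455a3db2194d4e7a854b01db5908c17302655624578072852da4b0d1b727337218a124c24da6015c6dc36083512a89c2db329315292c30c6009dcc28dbb05909d00af264071545c4684a966e041a31da586b61805215c705884359000c421b3808560cebb860dd6860eaa3435344aa25b4106444a63355d013aed32c46895eb4ac888a2799080596ac220141b658c9900c74971d219242665231341a83d23b65042224050b0ca9d088a8038a)]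
noncomputable def T7_9217 : Op := Op.mk (nat_lit 211)
 (Tr.nd (nat_lit 66) (nat_lit 17) (nat_lit 10) (nat_lit 2273) c7_9217_0
 (Tr.nd (nat_lit 30) (nat_lit 2) (nat_lit 3) (nat_lit 1131) c7_9217_0
 (Tr.nd (nat_lit 17) (nat_lit 2) (nat_lit 31) (nat_lit 903) c7_9217_0
 (Tr.nd (nat_lit 9) (nat_lit 1) (nat_lit 154) (nat_lit 460) c7_9217_0
 (Tr.nd (nat_lit 7) (nat_lit 1) (nat_lit 61) (nat_lit 123) c7_9217_0
 (Tr.nd (nat_lit 1) (nat_lit 1) (nat_lit 100) (nat_lit 23) c7_9217_0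
 (Tr.nd (nat_lit 0) (nat_lit 1) (nat_lit 23) (nat_lit 0) c7_9217_0
 Tr.lf Tr.lf) Tr.lf) (Tr.nd (nat_lit 8) (nat_lit 1) (nat_lit 276) (nat_lit 184) c7_9217_0
 Tr.lf Tr.lf)) (Tr.nd (nat_lit 15) (nat_lit 1) (nat_lit 100) (nat_lit 677) c7_9217_0
 (Tr.nd (nat_lit 10) (nat_lit 1) (nat_lit 63) (nat_lit 614) c7_9217_0
 Tr.lf Tr.lf) (Tr.nd (nat_lit 16) (nat_lit 2) (nat_lit 63) (nat_lit 777) c7_9217_0
 Tr.lf Tr.lf))) (Tr.nd (nat_lit 23) (nat_lit 2) (nat_lit 17) (nat_lit 1016) c7_9217_0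
 (Tr.nd (nat_lit 19) (nat_lit 2) (nat_lit 3) (nat_lit 987) c7_9217_0
 (Tr.nd (nat_lit 18) (nat_lit 2) (nat_lit 11) (nat_lit 965) c7_9217_0
 Tr.lf Tr.lf) (Tr.nd (nat_lit 22) (nat_lit 1) (nat_lit 23) (nat_lit 993) c7_9217_0
 Tr.lf Tr.lf)) (Tr.nd (nat_lit 25) (nat_lit 6) (nat_lit 5) (nat_lit 1094) c7_9217_0
 (Tr.nd (nat_lit 24) (nat_lit 4) (nat_lit 11) (nat_lit 1050) c7_9217_0
 Tr.lf Tr.lf) (Tr.nd (nat_lit 26) (nat_lit 7) (nat_lit 1) (nat_lit 1124) c7_9217_0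
 Tr.lf Tr.lf)))) (Tr.nd (nat_lit 57) (nat_lit 3) (nat_lit 61) (nat_lit 1477) c7_9217_0
 (Tr.nd (nat_lit 50) (nat_lit 1) (nat_lit 116) (nat_lit 1202) c7_9217_0
 (Tr.nd (nat_lit 32) (nat_lit 11) (nat_lit 1) (nat_lit 1167) c7_9217_0
 (Tr.nd (nat_lit 31) (nat_lit 6) (nat_lit 5) (nat_lit 1137) c7_9217_0
 Tr.lf Tr.lf) (Tr.nd (nat_lit 49) (nat_lit 1) (nat_lit 24) (nat_lit 1178) c7_9217_0
 Tr.lf Tr.lf)) (Tr.nd (nat_lit 52) (nat_lit 1) (nat_lit 23) (nat_lit 1379) c7_9217_0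
 (Tr.nd (nat_lit 51) (nat_lit 1) (nat_lit 61) (nat_lit 1318) c7_9217_0
 Tr.lf Tr.lf) (Tr.nd (nat_lit 56) (nat_lit 1) (nat_lit 75) (nat_lit 1402) c7_9217_0
 Tr.lf Tr.lf))) (Tr.nd (nat_lit 61) (nat_lit 4) (nat_lit 1) (nat_lit 1960) c7_9217_0
 (Tr.nd (nat_lit 59) (nat_lit 5) (nat_lit 17) (nat_lit 1845) c7_9217_0
 (Tr.nd (nat_lit 58) (nat_lit 5) (nat_lit 37) (nat_lit 1660) c7_9217_0
 Tr.lf Tr.lf) (Tr.nd (nat_lit 60) (nat_lit 5) (nat_lit 6) (nat_lit 1930) c7_9217_0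
 Tr.lf Tr.lf)) (Tr.nd (nat_lit 64) (nat_lit 5) (nat_lit 23) (nat_lit 1988) c7_9217_0
 (Tr.nd (nat_lit 63) (nat_lit 1) (nat_lit 24) (nat_lit 1964) c7_9217_0
 Tr.lf Tr.lf) (Tr.nd (nat_lit 65) (nat_lit 10) (nat_lit 17) (nat_lit 2103) c7_9217_0
 Tr.lf Tr.lf))))) (Tr.nd (nat_lit 105) (nat_lit 1) (nat_lit 7) (nat_lit 3399) c7_9217_0
 (Tr.nd (nat_lit 75) (nat_lit 75) (nat_lit 1) (nat_lit 3069) c7_9217_0
 (Tr.nd (nat_lit 71) (nat_lit 5) (nat_lit 6) (nat_lit 2586) c7_9217_0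
 (Tr.nd (nat_lit 68) (nat_lit 24) (nat_lit 1) (nat_lit 2558) c7_9217_0
 (Tr.nd (nat_lit 67) (nat_lit 23) (nat_lit 5) (nat_lit 2443) c7_9217_0
 Tr.lf Tr.lf) (Tr.nd (nat_lit 70) (nat_lit 1) (nat_lit 4) (nat_lit 2582) c7_9217_0
 Tr.lf Tr.lf)) (Tr.nd (nat_lit 73) (nat_lit 37) (nat_lit 5) (nat_lit 2701) c7_9217_0
 (Tr.nd (nat_lit 72) (nat_lit 17) (nat_lit 5) (nat_lit 2616) c7_9217_0
 Tr.lf Tr.lf) (Tr.nd (nat_lit 74) (nat_lit 61) (nat_lit 3) (nat_lit 2886) c7_9217_0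
 Tr.lf Tr.lf))) (Tr.nd (nat_lit 82) (nat_lit 24) (nat_lit 1) (nat_lit 3344) c7_9217_0
 (Tr.nd (nat_lit 80) (nat_lit 61) (nat_lit 1) (nat_lit 3167) c7_9217_0
 (Tr.nd (nat_lit 79) (nat_lit 23) (nat_lit 1) (nat_lit 3144) c7_9217_0
 Tr.lf Tr.lf) (Tr.nd (nat_lit 81) (nat_lit 116) (nat_lit 1) (nat_lit 3228) c7_9217_0
 Tr.lf Tr.lf)) (Tr.nd (nat_lit 100) (nat_lit 2) (nat_lit 7) (nat_lit 3379) c7_9217_0
 (Tr.nd (nat_lit 99) (nat_lit 1) (nat_lit 11) (nat_lit 3368) c7_9217_0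
 Tr.lf Tr.lf) (Tr.nd (nat_lit 101) (nat_lit 2) (nat_lit 3) (nat_lit 3393) c7_9217_0
 Tr.lf Tr.lf)))) (Tr.nd (nat_lit 115) (nat_lit 63) (nat_lit 2) (nat_lit 3809) c7_9217_0
 (Tr.nd (nat_lit 109) (nat_lit 23) (nat_lit 1) (nat_lit 3540) c7_9217_0
 (Tr.nd (nat_lit 107) (nat_lit 10) (nat_lit 7) (nat_lit 3436) c7_9217_0
 (Tr.nd (nat_lit 106) (nat_lit 5) (nat_lit 6) (nat_lit 3406) c7_9217_0
 Tr.lf Tr.lf) (Tr.nd (nat_lit 108) (nat_lit 17) (nat_lit 2) (nat_lit 3506) c7_9217_0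
 Tr.lf Tr.lf)) (Tr.nd (nat_lit 113) (nat_lit 10) (nat_lit 3) (nat_lit 3569) c7_9217_0
 (Tr.nd (nat_lit 112) (nat_lit 2) (nat_lit 3) (nat_lit 3563) c7_9217_0
 Tr.lf Tr.lf) (Tr.nd (nat_lit 114) (nat_lit 30) (nat_lit 7) (nat_lit 3599) c7_9217_0
 Tr.lf Tr.lf))) (Tr.nd (nat_lit 123) (nat_lit 276) (nat_lit 1) (nat_lit 217) c7_9217_1
 (Tr.nd (nat_lit 121) (nat_lit 63) (nat_lit 1) (nat_lit 0) c7_9217_1
 (Tr.nd (nat_lit 116) (nat_lit 100) (nat_lit 1) (nat_lit 3935) c7_9217_0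
 Tr.lf Tr.lf) (Tr.nd (nat_lit 122) (nat_lit 154) (nat_lit 1) (nat_lit 63) c7_9217_1
 Tr.lf Tr.lf)) (Tr.nd (nat_lit 130) (nat_lit 100) (nat_lit 1) (nat_lit 554) c7_9217_1
 (Tr.nd (nat_lit 124) (nat_lit 61) (nat_lit 1) (nat_lit 493) c7_9217_1
 Tr.lf Tr.lf) (Tr.nd (nat_lit 131) (nat_lit 23) (nat_lit 1) (nat_lit 654) c7_9217_1
 Tr.lf Tr.lf))))))

noncomputable def c7_8449_0 : List Nat := [(nat_lit 0xc08c91292836e634956b899342a2825ad5d38030d28b2238702912f5c09bac886ae9722a66c63c955597b2894ca3ceb74c7247ae5a258848e78e954294122b22c6804b28e38d992d1ada580d1b091c6e2c060a38400000000000000000000000000000000000000000000000000000000000000000000d005c3547140eebb6b8539800000000000000000000000000000000000000000000058077678860c8ed9a22c500000000301e75d7662653a812b6ed0e68d186424bab5a22722c8d2f01236351a849d28000000066b71a32e2a4a610000000300a27b300000000e8504b4c02b01b95651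192741d44ccd3a9205870110080c2db5c8b4b2b31978cb0029c06c900528766d750e24425b3cf1c242714ae9a2d459b3af6794af42556482c64649a170e164465533384a80528948cc931536b72b41952660b20092b14a481a2258e58814aa6d023680d92cccd62d4226ed70ca24934adcd6c9c62dbb4a6e4ab6b18d9b2159813002b2062540f0b1db9632e7b169c8b3b336e9665241cec4402350d608e66d48b521819c2a231341761d568a6986d35021d72a885166f2aca45b14e795a0e98914acb5cb595a48d2f040d86e28e6494ccc12a2248ec1831a33202c0021638ccd5d3635ae2ed622d727446460c6a166a9d019140db34c44cb5330c7a0c04318116ce3aa6d4dcc3010d866e668dd58c32cac49aa29a5e472c4ecb385e826a7152d59a333443854c3159a0c0b9d4f4000146d1c2ce9625a5052c6e286c194dcd2555b112a0cb360b1076694d89af31b36a55502c3604629b59546959db50086959152688b255d16b535964c196acab540e6426c4b6eda86c62242984de35687384338e2f35344ebd65b9b312455a9a2e8ba3a20c74286885760d4cc8aa8a2e672612c480da86215ad8c6b4e91bb5910a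6d8c55d1114cb9462c275a8bd950dca4e36d975570c46418d24752a70531834c6a3aa4452ea6003a32cc11b09c2e230dcd6ae67004f66e6a5b16d5b45208f31623509a0ae64e949ab68c0e28a370135b83acd77688dd545908601414ee550c638c3cc46d5c836cc94ddae15281baac9a368b1b047500015e444996362ce5d0a07498a78bcf24d15aa5291848f4cb314e31405e26b12e4a846ecc8af61a96825947a32a149d1588630a956a52c71e284a9e7289b1600ad5a0ed15b5b00da057621b441386314ec210cba509b170e6f019cc5845984a589ba4436196215132c216308ee0738997a905633550e45220dcd9b6e4d3b8b0d495a6aa341772a35815174db587697135e129d8c21b791ad6caeb16c84cc93900e2a1ec14a6b31c381684d5038cc61473ae3050489498963ce500ed00436a640ed9152c216150e3b66c5ba9803309a32454ba1792d804dc02d351a01cb1c94148491a1d9000590f488b09d8dda6a84978ab099300c06a20f5c9882918e5b2cd94d1b4daae893cf5cce6d81358186466236f140d96acb26914b4768880925223440961ccb85d966523a00000000000000a2aca810014cc4dc69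c967694722f080514088bb8002b4c894b922130c66c644ee2ce4922d0b91076b0372521b56a0b46a0b9564990c29cd18b5811d606b69d857597197001ad796dae6e4104d74a40cc304036696d80a6ca673602424520a36d334c4d90c74d268e6a9c659461450d4eb2d51825329680a6cc5085a542d7a270a7adda6c9387065a512d26d0d52335dc14975246b9929118c701651a61031aee4c91454292d476a269d1b61136025c01974e3b20760a540b93338cc53cb266a6ec604d8462522e0f517051c29d7860d1c8c52a34385d7161102b18f0a5a85bc28769753c35c197217645aeb9b41ac8b5a002a95dac4136995866c264d02cac09026000000000000008000000000000000c000001b3459805180000010030c1ac280240a38335b35a0005164a284dd2c0000000000c0000000400000003000600659a5409228e0cd2cd22041451289028e2600030032032c334b34881220a142018838663112850a24a00004eb0695d331032000b4ed2a61184c16ca03c72d0380000020000000121812802922910000600080000514982a406950003029a2a8814209047481b278d24088171131e)]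
noncomputable def c7_8449_1 : List Nat := [(nat_lit 0x67095190a004d39ad8035c1208110a2a29a03000566012a21345000020006000101a09a00b00609000000008000023132c7302cb4426141ab36368002c01d0d76612e2400046b07694f4cf1c8b0ec156981d5a29998251b7414913a18917ac79ebb0063d033a9062171099558b720cd2248988dd612b5e7635724634063ab2f1a08d9a01474005ea06cc8c8931378431eb642d3816334d5923435589bd31b63b2041c42c98c643b75adacf3d868012322c84d68368655a6d040ed762a009932b26137aeb94959919635c33559b58a33662668ce1c8850651d66314ab142b14c619d68c710d45cc6a0d81c1b401cadaa5acb347438bd23215886c42d8e359)]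
noncomputable def T7_8449 : Op := Op.mk (nat_lit 211)
 (Tr.nd (nat_lit 66) (nat_lit 17) (nat_lit 10) (nat_lit 2273) c7_8449_0
 (Tr.nd (nat_lit 30) (nat_lit 2) (nat_lit 3) (nat_lit 1131) c7_8449_0
 (Tr.nd (nat_lit 17) (nat_lit 2) (nat_lit 31) (nat_lit 903) c7_8449_0
 (Tr.nd (nat_lit 9) (nat_lit 1) (nat_lit 154) (nat_lit 460) c7_8449_0
 (Tr.nd (nat_lit 7) (nat_lit 1) (nat_lit 61) (nat_lit 123) c7_8449_0
 (Tr.nd (nat_lit 1) (nat_lit 1) (nat_lit 100) (nat_lit 23) c7_8449_0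
 (Tr.nd (nat_lit 0) (nat_lit 1) (nat_lit 23) (nat_lit 0) c7_8449_0
 Tr.lf Tr.lf) Tr.lf) (Tr.nd (nat_lit 8) (nat_lit 1) (nat_lit 276) (nat_lit 184) c7_8449_0
 Tr.lf Tr.lf)) (Tr.nd (nat_lit 15) (nat_lit 1) (nat_lit 100) (nat_lit 677) c7_8449_0
 (Tr.nd (nat_lit 10) (nat_lit 1) (nat_lit 63) (nat_lit 614) c7_8449_0
 Tr.lf Tr.lf) (Tr.nd (nat_lit 16) (nat_lit 2) (nat_lit 63) (nat_lit 777) c7_8449_0
 Tr.lf Tr.lf))) (Tr.nd (nat_lit 23) (nat_lit 2) (nat_lit 17) (nat_lit 1016) c7_8449_0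
 (Tr.nd (nat_lit 19) (nat_lit 2) (nat_lit 3) (nat_lit 987) c7_8449_0
 (Tr.nd (nat_lit 18) (nat_lit 2) (nat_lit 11) (nat_lit 965) c7_8449_0
 Tr.lf Tr.lf) (Tr.nd (nat_lit 22) (nat_lit 1) (nat_lit 23) (nat_lit 993) c7_8449_0
 Tr.lf Tr.lf)) (Tr.nd (nat_lit 25) (nat_lit 6) (nat_lit 5) (nat_lit 1094) c7_8449_0
 (Tr.nd (nat_lit 24) (nat_lit 4) (nat_lit 11) (nat_lit 1050) c7_8449_0
 Tr.lf Tr.lf) (Tr.nd (nat_lit 26) (nat_lit 7) (nat_lit 1) (nat_lit 1124) c7_8449_0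
 Tr.lf Tr.lf)))) (Tr.nd (nat_lit 57) (nat_lit 3) (nat_lit 61) (nat_lit 1477) c7_8449_0
 (Tr.nd (nat_lit 50) (nat_lit 1) (nat_lit 116) (nat_lit 1202) c7_8449_0
 (Tr.nd (nat_lit 32) (nat_lit 11) (nat_lit 1) (nat_lit 1167) c7_8449_0
 (Tr.nd (nat_lit 31) (nat_lit 6) (nat_lit 5) (nat_lit 1137) c7_8449_0
 Tr.lf Tr.lf) (Tr.nd (nat_lit 49) (nat_lit 1) (nat_lit 24) (nat_lit 1178) c7_8449_0
 Tr.lf Tr.lf)) (Tr.nd (nat_lit 52) (nat_lit 1) (nat_lit 23) (nat_lit 1379) c7_8449_0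
 (Tr.nd (nat_lit 51) (nat_lit 1) (nat_lit 61) (nat_lit 1318) c7_8449_0
 Tr.lf Tr.lf) (Tr.nd (nat_lit 56) (nat_lit 1) (nat_lit 75) (nat_lit 1402) c7_8449_0
 Tr.lf Tr.lf))) (Tr.nd (nat_lit 61) (nat_lit 4) (nat_lit 1) (nat_lit 1960) c7_8449_0
 (Tr.nd (nat_lit 59) (nat_lit 5) (nat_lit 17) (nat_lit 1845) c7_8449_0
 (Tr.nd (nat_lit 58) (nat_lit 5) (nat_lit 37) (nat_lit 1660) c7_8449_0
 Tr.lf Tr.lf) (Tr.nd (nat_lit 60) (nat_lit 5) (nat_lit 6) (nat_lit 1930) c7_8449_0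
 Tr.lf Tr.lf)) (Tr.nd (nat_lit 64) (nat_lit 5) (nat_lit 23) (nat_lit 1988) c7_8449_0
 (Tr.nd (nat_lit 63) (nat_lit 1) (nat_lit 24) (nat_lit 1964) c7_8449_0
 Tr.lf Tr.lf) (Tr.nd (nat_lit 65) (nat_lit 10) (nat_lit 17) (nat_lit 2103) c7_8449_0
 Tr.lf Tr.lf))))) (Tr.nd (nat_lit 105) (nat_lit 1) (nat_lit 7) (nat_lit 3399) c7_8449_0
 (Tr.nd (nat_lit 75) (nat_lit 75) (nat_lit 1) (nat_lit 3069) c7_8449_0
 (Tr.nd (nat_lit 71) (nat_lit 5) (nat_lit 6) (nat_lit 2586) c7_8449_0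
 (Tr.nd (nat_lit 68) (nat_lit 24) (nat_lit 1) (nat_lit 2558) c7_8449_0
 (Tr.nd (nat_lit 67) (nat_lit 23) (nat_lit 5) (nat_lit 2443) c7_8449_0
 Tr.lf Tr.lf) (Tr.nd (nat_lit 70) (nat_lit 1) (nat_lit 4) (nat_lit 2582) c7_8449_0
 Tr.lf Tr.lf)) (Tr.nd (nat_lit 73) (nat_lit 37) (nat_lit 5) (nat_lit 2701) c7_8449_0
 (Tr.nd (nat_lit 72) (nat_lit 17) (nat_lit 5) (nat_lit 2616) c7_8449_0
 Tr.lf Tr.lf) (Tr.nd (nat_lit 74) (nat_lit 61) (nat_lit 3) (nat_lit 2886) c7_8449_0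
 Tr.lf Tr.lf))) (Tr.nd (nat_lit 82) (nat_lit 24) (nat_lit 1) (nat_lit 3344) c7_8449_0
 (Tr.nd (nat_lit 80) (nat_lit 61) (nat_lit 1) (nat_lit 3167) c7_8449_0
 (Tr.nd (nat_lit 79) (nat_lit 23) (nat_lit 1) (nat_lit 3144) c7_8449_0
 Tr.lf Tr.lf) (Tr.nd (nat_lit 81) (nat_lit 116) (nat_lit 1) (nat_lit 3228) c7_8449_0
 Tr.lf Tr.lf)) (Tr.nd (nat_lit 100) (nat_lit 2) (nat_lit 7) (nat_lit 3379) c7_8449_0
 (Tr.nd (nat_lit 99) (nat_lit 1) (nat_lit 11) (nat_lit 3368) c7_8449_0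
 Tr.lf Tr.lf) (Tr.nd (nat_lit 101) (nat_lit 2) (nat_lit 3) (nat_lit 3393) c7_8449_0
 Tr.lf Tr.lf)))) (Tr.nd (nat_lit 115) (nat_lit 63) (nat_lit 2) (nat_lit 3809) c7_8449_0
 (Tr.nd (nat_lit 109) (nat_lit 23) (nat_lit 1) (nat_lit 3540) c7_8449_0
 (Tr.nd (nat_lit 107) (nat_lit 10) (nat_lit 7) (nat_lit 3436) c7_8449_0
 (Tr.nd (nat_lit 106) (nat_lit 5) (nat_lit 6) (nat_lit 3406) c7_8449_0
 Tr.lf Tr.lf) (Tr.nd (nat_lit 108) (nat_lit 17) (nat_lit 2) (nat_lit 3506) c7_8449_0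
 Tr.lf Tr.lf)) (Tr.nd (nat_lit 113) (nat_lit 10) (nat_lit 3) (nat_lit 3569) c7_8449_0
 (Tr.nd (nat_lit 112) (nat_lit 2) (nat_lit 3) (nat_lit 3563) c7_8449_0
 Tr.lf Tr.lf) (Tr.nd (nat_lit 114) (nat_lit 30) (nat_lit 7) (nat_lit 3599) c7_8449_0
 Tr.lf Tr.lf))) (Tr.nd (nat_lit 123) (nat_lit 276) (nat_lit 1) (nat_lit 217) c7_8449_1
 (Tr.nd (nat_lit 121) (nat_lit 63) (nat_lit 1) (nat_lit 0) c7_8449_1
 (Tr.nd (nat_lit 116) (nat_lit 100) (nat_lit 1) (nat_lit 3935) c7_8449_0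
 Tr.lf Tr.lf) (Tr.nd (nat_lit 122) (nat_lit 154) (nat_lit 1) (nat_lit 63) c7_8449_1
 Tr.lf Tr.lf)) (Tr.nd (nat_lit 130) (nat_lit 100) (nat_lit 1) (nat_lit 554) c7_8449_1
 (Tr.nd (nat_lit 124) (nat_lit 61) (nat_lit 1) (nat_lit 493) c7_8449_1
 Tr.lf Tr.lf) (Tr.nd (nat_lit 131) (nat_lit 23) (nat_lit 1) (nat_lit 654) c7_8449_1
 Tr.lf Tr.lf))))))

noncomputable def c7_8257_0 : List Nat := [(nat_lit 0xec0716754f56a519b06c1b018833022584211d72669d035b010726b0a5385aaadb917616d4c90b23874ceca9cd65ac522b9943b05654884214d449512b949810cb318ccc3c482e82a4caa4b171ad9b5422537800900000000000000000000000000000000000000000000000000000000000000000000091b0d902189195a2a62318000000000000000000000000000000000000000000002c2822836832a5655b109e00000000058e120671a102a8005845443ad006346a3859628d1a2b19948402cbb4c9e2c00000005934918d0a72da80000000094e825900000001126ac067732dacd5d59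10b04c09b62dce0800d3008810204345c32cce2664704048930328d6b12a89523140490c82c1ad533cdb8e9cca1a8883d1c68090477696c55c6546e085d9157997adba3473943b20d3482a98894364b35ccca551bb108eda831edaaa26912b8c88c9b03b4508daa605292601631a90bb2a0e95e846a954241b5c52c1dce3ae2812d288180ad99898c553656ca106852214accd34d218c512d952cb95bae758ab298c202cf0319b0c7004e56959b219e6e58b58c63186ce236d23b0b8c47758498dc84a79a0614e30908036007767312f04768dc2a0424d1e11294c88890054b291a89100065a6590bd31726d2dd110ad613543a305a15ae82b213a8ca63456b640ae6ab7744e478c05bac441316e72aad2a5e09e7ad513b5a6862cc6623316826c86b4cb18f13357828b50948d400002ec1a8b22c845c24c2966416ca8f321cc32da592048a32388e021adb9880f1d6d60e9b1d7250e5215a0208988312b6474a25c7b470c3a0776190c9cb1b71591551446666ed906e966dc6acc5969a467a1b65014cab129c4e415c90881623b58d21c1c628c06463563baaa69855599ae1c93c06c1d10488a76c459806a20186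a28a0acc3b8cb62888a29b73d299143a3d75d020edc2184002349e5a82725442de859820a594009105558f060bad89aed916694961553162abdaa2ab1447ac99451e78c0c93b19432a545e9003748f68968a42cd660caa520b91d6399c8da0a910d2203a07b520d19c79192cd961a305e7116c82f200001a46a24e8dcc8c23029c3b349b49665e0c4444b7262aad68ca70c925759ca3d8e694d5c4c158534a592a2ca0a4aa92448380674ab1c0ccc00610009749a638cc92e956153a1d1454998c9d8818b32174b386624a9a2616aba2b524a769b5490823884c94b266d6d81792ce3905b8052468b612d01464b012d682390598c1b1252763b35d2d5439166417b24252d53353598c82c30b442329078e6edd80b5b33158bacbad921c86d42278d521db3dab063034a9021e60959044d0dd219919c51d21a253922e85b350ca6d591322945095d818a6c46d21521d52934155db3845db140ed4aa917a3a592d8b01d1512698100188a3a0d49230035000c400404da2ed4305a1d402c011805b40eb10c0e086a11b51b6883506d8b0123cddb858469012208e42d47a5863200000000000000401118290026d047ad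6d807531b5a179d05d6884c0031caa281cd04813ab135a914b104b2dacd097588491425ecf0a6b085a3154a70809d60aa08028802020c7115988539013244ada9b10800b8018101305c1744a352b26a3ae229c9882b4a160a0c64ebb82d66d1916966ea264607a629c8444a819345256358a5214b22948a82c0a63cdcbabcb0821b5689b32b2b5b554cc68d193588225b80ad3d23ae040cb011a10701b09486f0b13b9ab8b38895bad9adbb33b8407325bb510262aabb4c5ec0d14908d898d88b22cf64081024a0101c8e51cab1058d8838949a418c2a8e3356b19221908624b6b3a8264ab1cd04e424c4c2459adc45cd944533a5269b52d6a0000000000000000000000080000000001801b3419a05180180008009c1a02806409383347355014516cdb051c2c000000000000000000500500003000600639a5409228e0cd2cd20041451289828e26000300300330334b34981220a142618834660012050a44a00018402c02a49d419000b740286c422216aaee610462c000000000400061880052144c5780000000a00a051462291048b000102ac2c586d00ac20b5842375a4009d214c09)]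
noncomputable def c7_8257_1 : List Nat := [(nat_lit 0x123440d68006dd4a065c820e8136194a32a01000ca4101a0e14502802800000019d0d440d00038600004000000003285041eaeab4280c0d8a04d68001615692a04a04180004b48048bb0750c4658e39ad4358b4f2d3544949cb25a0d403a5b3594c24dc3755310c13a593272061129015e36964930378c149031d600a198c196d6b029176a5b418764c622834a9832d00a985a4aaa96d2692ab52dc55584120d92d60690adc924b45d46559b6ab72569a4d98b4545b46546e96520d424c8d04f1cac848b8bb6c81832180972e54b8e2a306126913883b0641cac7162b1100892100216cf29283b06a5281345236674daaa8e80156b64bc441abd2b6e96eb)]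
noncomputable def T7_8257 : Op := Op.mk (nat_lit 211)
 (Tr.nd (nat_lit 66) (nat_lit 17) (nat_lit 10) (nat_lit 2273) c7_8257_0
 (Tr.nd (nat_lit 30) (nat_lit 2) (nat_lit 3) (nat_lit 1131) c7_8257_0
 (Tr.nd (nat_lit 17) (nat_lit 2) (nat_lit 31) (nat_lit 903) c7_8257_0
 (Tr.nd (nat_lit 9) (nat_lit 1) (nat_lit 154) (nat_lit 460) c7_8257_0
 (Tr.nd (nat_lit 7) (nat_lit 1) (nat_lit 61) (nat_lit 123) c7_8257_0
 (Tr.nd (nat_lit 1) (nat_lit 1) (nat_lit 100) (nat_lit 23) c7_8257_0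
 (Tr.nd (nat_lit 0) (nat_lit 1) (nat_lit 23) (nat_lit 0) c7_8257_0
 Tr.lf Tr.lf) Tr.lf) (Tr.nd (nat_lit 8) (nat_lit 1) (nat_lit 276) (nat_lit 184) c7_8257_0
 Tr.lf Tr.lf)) (Tr.nd (nat_lit 15) (nat_lit 1) (nat_lit 100) (nat_lit 677) c7_8257_0
 (Tr.nd (nat_lit 10) (nat_lit 1) (nat_lit 63) (nat_lit 614) c7_8257_0
 Tr.lf Tr.lf) (Tr.nd (nat_lit 16) (nat_lit 2) (nat_lit 63) (nat_lit 777) c7_8257_0
 Tr.lf Tr.lf))) (Tr.nd (nat_lit 23) (nat_lit 2) (nat_lit 17) (nat_lit 1016) c7_8257_0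
 (Tr.nd (nat_lit 19) (nat_lit 2) (nat_lit 3) (nat_lit 987) c7_8257_0
 (Tr.nd (nat_lit 18) (nat_lit 2) (nat_lit 11) (nat_lit 965) c7_8257_0
 Tr.lf Tr.lf) (Tr.nd (nat_lit 22) (nat_lit 1) (nat_lit 23) (nat_lit 993) c7_8257_0
 Tr.lf Tr.lf)) (Tr.nd (nat_lit 25) (nat_lit 6) (nat_lit 5) (nat_lit 1094) c7_8257_0
 (Tr.nd (nat_lit 24) (nat_lit 4) (nat_lit 11) (nat_lit 1050) c7_8257_0
 Tr.lf Tr.lf) (Tr.nd (nat_lit 26) (nat_lit 7) (nat_lit 1) (nat_lit 1124) c7_8257_0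
 Tr.lf Tr.lf)))) (Tr.nd (nat_lit 57) (nat_lit 3) (nat_lit 61) (nat_lit 1477) c7_8257_0
 (Tr.nd (nat_lit 50) (nat_lit 1) (nat_lit 116) (nat_lit 1202) c7_8257_0
 (Tr.nd (nat_lit 32) (nat_lit 11) (nat_lit 1) (nat_lit 1167) c7_8257_0
 (Tr.nd (nat_lit 31) (nat_lit 6) (nat_lit 5) (nat_lit 1137) c7_8257_0
 Tr.lf Tr.lf) (Tr.nd (nat_lit 49) (nat_lit 1) (nat_lit 24) (nat_lit 1178) c7_8257_0
 Tr.lf Tr.lf)) (Tr.nd (nat_lit 52) (nat_lit 1) (nat_lit 23) (nat_lit 1379) c7_8257_0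
 (Tr.nd (nat_lit 51) (nat_lit 1) (nat_lit 61) (nat_lit 1318) c7_8257_0
 Tr.lf Tr.lf) (Tr.nd (nat_lit 56) (nat_lit 1) (nat_lit 75) (nat_lit 1402) c7_8257_0
 Tr.lf Tr.lf))) (Tr.nd (nat_lit 61) (nat_lit 4) (nat_lit 1) (nat_lit 1960) c7_8257_0
 (Tr.nd (nat_lit 59) (nat_lit 5) (nat_lit 17) (nat_lit 1845) c7_8257_0
 (Tr.nd (nat_lit 58) (nat_lit 5) (nat_lit 37) (nat_lit 1660) c7_8257_0
 Tr.lf Tr.lf) (Tr.nd (nat_lit 60) (nat_lit 5) (nat_lit 6) (nat_lit 1930) c7_8257_0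
 Tr.lf Tr.lf)) (Tr.nd (nat_lit 64) (nat_lit 5) (nat_lit 23) (nat_lit 1988) c7_8257_0
 (Tr.nd (nat_lit 63) (nat_lit 1) (nat_lit 24) (nat_lit 1964) c7_8257_0
 Tr.lf Tr.lf) (Tr.nd (nat_lit 65) (nat_lit 10) (nat_lit 17) (nat_lit 2103) c7_8257_0
 Tr.lf Tr.lf))))) (Tr.nd (nat_lit 105) (nat_lit 1) (nat_lit 7) (nat_lit 3399) c7_8257_0
 (Tr.nd (nat_lit 75) (nat_lit 75) (nat_lit 1) (nat_lit 3069) c7_8257_0
 (Tr.nd (nat_lit 71) (nat_lit 5) (nat_lit 6) (nat_lit 2586) c7_8257_0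
 (Tr.nd (nat_lit 68) (nat_lit 24) (nat_lit 1) (nat_lit 2558) c7_8257_0
 (Tr.nd (nat_lit 67) (nat_lit 23) (nat_lit 5) (nat_lit 2443) c7_8257_0
 Tr.lf Tr.lf) (Tr.nd (nat_lit 70) (nat_lit 1) (nat_lit 4) (nat_lit 2582) c7_8257_0
 Tr.lf Tr.lf)) (Tr.nd (nat_lit 73) (nat_lit 37) (nat_lit 5) (nat_lit 2701) c7_8257_0
 (Tr.nd (nat_lit 72) (nat_lit 17) (nat_lit 5) (nat_lit 2616) c7_8257_0
 Tr.lf Tr.lf) (Tr.nd (nat_lit 74) (nat_lit 61) (nat_lit 3) (nat_lit 2886) c7_8257_0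
 Tr.lf Tr.lf))) (Tr.nd (nat_lit 82) (nat_lit 24) (nat_lit 1) (nat_lit 3344) c7_8257_0
 (Tr.nd (nat_lit 80) (nat_lit 61) (nat_lit 1) (nat_lit 3167) c7_8257_0
 (Tr.nd (nat_lit 79) (nat_lit 23) (nat_lit 1) (nat_lit 3144) c7_8257_0
 Tr.lf Tr.lf) (Tr.nd (nat_lit 81) (nat_lit 116) (nat_lit 1) (nat_lit 3228) c7_8257_0
 Tr.lf Tr.lf)) (Tr.nd (nat_lit 100) (nat_lit 2) (nat_lit 7) (nat_lit 3379) c7_8257_0
 (Tr.nd (nat_lit 99) (nat_lit 1) (nat_lit 11) (nat_lit 3368) c7_8257_0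
 Tr.lf Tr.lf) (Tr.nd (nat_lit 101) (nat_lit 2) (nat_lit 3) (nat_lit 3393) c7_8257_0
 Tr.lf Tr.lf)))) (Tr.nd (nat_lit 115) (nat_lit 63) (nat_lit 2) (nat_lit 3809) c7_8257_0
 (Tr.nd (nat_lit 109) (nat_lit 23) (nat_lit 1) (nat_lit 3540) c7_8257_0
 (Tr.nd (nat_lit 107) (nat_lit 10) (nat_lit 7) (nat_lit 3436) c7_8257_0
 (Tr.nd (nat_lit 106) (nat_lit 5) (nat_lit 6) (nat_lit 3406) c7_8257_0
 Tr.lf Tr.lf) (Tr.nd (nat_lit 108) (nat_lit 17) (nat_lit 2) (nat_lit 3506) c7_8257_0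
 Tr.lf Tr.lf)) (Tr.nd (nat_lit 113) (nat_lit 10) (nat_lit 3) (nat_lit 3569) c7_8257_0
 (Tr.nd (nat_lit 112) (nat_lit 2) (nat_lit 3) (nat_lit 3563) c7_8257_0
 Tr.lf Tr.lf) (Tr.nd (nat_lit 114) (nat_lit 30) (nat_lit 7) (nat_lit 3599) c7_8257_0
 Tr.lf Tr.lf))) (Tr.nd (nat_lit 123) (nat_lit 276) (nat_lit 1) (nat_lit 217) c7_8257_1
 (Tr.nd (nat_lit 121) (nat_lit 63) (nat_lit 1) (nat_lit 0) c7_8257_1
 (Tr.nd (nat_lit 116) (nat_lit 100) (nat_lit 1) (nat_lit 3935) c7_8257_0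
 Tr.lf Tr.lf) (Tr.nd (nat_lit 122) (nat_lit 154) (nat_lit 1) (nat_lit 63) c7_8257_1
 Tr.lf Tr.lf)) (Tr.nd (nat_lit 130) (nat_lit 100) (nat_lit 1) (nat_lit 554) c7_8257_1
 (Tr.nd (nat_lit 124) (nat_lit 61) (nat_lit 1) (nat_lit 493) c7_8257_1
 Tr.lf Tr.lf) (Tr.nd (nat_lit 131) (nat_lit 23) (nat_lit 1) (nat_lit 654) c7_8257_1
 Tr.lf Tr.lf))))))

noncomputable def c7_8209_0 : List Nat := [(nat_lit 0x142105b5d40ec8c2c5983a626dd64429096db5c818ca5cdc922b2b863193d85c6306c58c2414e2763b361b11894cccddca9c330b490308ec0031658c10d219c555b51b1521331d837964b58f26c06208ebc5c9542e800000000000000000000000000000000000000000000000000000000000000000008ea9ac6eba52d80260b28d000000000000000000000000000000000000000000000398b2d33a0b34665b92d72200000002a6945b44a67305005bae0d70543013c9906ccb48db86c634c45649a566b000000000049baab40290583100000000689970200000001b70cd95333dacd6d91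1b20c8390a4ad851c04a68033680d591801a92c8051d153006650e691da8e15b60a35ccf3a26922a2638a446ad8232d16b330c00ea88009a3a245673444b4a0d8cda47292a885eb2cb8e94a619d9abb1a24050b66949783a0b9b3b21a104a89661a805bc06c286740c15403a58d158a712993b99da3b291a44d00096a4162d4c301a55203d536432150c20015abab52c9ae6972cb5ccd702ae98762ed969aa9754259c2c4dadabc5aa8e96c20b0d61b601564ea69d28d36a1334a3a2169a9a98b88c806869875583acac02b75260ab4b3648c49c65538c66847441e95925358a69891136cc9509944b4962d0da81134c0360515382a2b02a21e661209676d1c4c2a40124d72905b42cea913383b8ca1202bac8a4ea0042ace6c14b2a710a5c06a8ee42039bc5988b4acd64a46a8800019a098ba841c2a9a86b2a6b4bb3003116adc7560da0de55505556a1402cd6f170cac57966465690e463230c6a6420c1d2c651343232daa88cec1415939e250d2b4e3d6807360339961dcf00102d488b80b2e008386cd619a4d002db892d6a3a431626b4e1b09872615d29975b4b21bc4eac141a2c250d0d405d40560250b4c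2c8902e0db45315ba112e6cce310cd15aa0a4160103223811214c1095ab196da8147b30cca450dc362b93958ba92048f46191a5665b9c64c24145a21954b8b5ab684ac936ca0c4a2ca294867a5906076783a9cc6040cba269b65d00059baad459d1622aacea2929182d643632ae377281801ed664d5000198298482a2e199aacb18a70189169150d6d06999b74050c46199ac008ed87662c5aa4104942eb7645123191962a22b25310467582c155269565d4816192953aa528520d4d206ab03338999833b4651c194105848483138dabb14e9716c219ad54dd2d85b9a0a811538a554c5680306f012e7302281a5536d7334d616c9909b1608ed44d36a25b456a42ade2e4ca22a26eb3758eab8900ad40a310632f5bb03b52a4641a6e66c5163714d196e288c9e2a576bd681a01a374605b0f17b36ec50e61d422835570a546e604e9ac545bb56662c51b019b205c34b0548214c95ed19158cc9b34b4222414ed53d8b0d1b31d4034880dd8a04688e191da495895259b7b064304ad0596660403192d6c1c007246339144f66a356a10ac958eb93462c2c086a98a20164dc00c000000000000000dec8ba0010db8a32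da845b48d39205ada8cd4e840023d646caa298966b0483340684ce28c6193d4c2ccb8e130711acb7029482d668062a1ae11805ba016c9289490793a680d2a96c282e5986c5a69ec9a336c14a23674b653933499698a4cf694413341b9a459a08b42e7a170ad88db289ead16cc14c4532c0c080c28f50b6dabd99d095091b51b5a6162220987294870ea366b070c7655248deb160c48edb6c09180badb50d634a19856c42aeda204294c5570d2a76d21dd20c8b4e5c7587169bcda4f2a59341b08074370b4171644a33429a50102db29434b412de5724664e2b234a4c2d5185a1812d45a35c8ec65c8b61000c12c2b2ab3ca6961150af1794749000000000000000000000000040000000000db3599005d80180030013c1a22802408ba334b35a8105144b4851c2c0000000000000000000004c0003000600619a5409228e0cd2cd22041451288028e16000300360324334b34a01220a142418838660e12050a44a000031ae974c3624de0000096010b68410010b6841d30c00000000000200d800e5621355b00000000000980009a04341960000003600341368d0136aa0b7488c0558a9ea9d)]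
noncomputable def c7_8209_1 : List Nat := [(nat_lit 0x56ae6a87500e035b22ab49130b4914801b00000096114c0292001a000000000012d54981d8c01b0008000000000030d31066c81001066c810192000066d294c359ae9c00001ad00e080a99451ab6b270c855b1c5d6e83b392197440060d471c26140b9ab24c8899e0b672e1064a5a1b864631c68cf054804d0dbd5a12d1a45704a4a1c84118603381224b69301ca659134a23ab0cea2455b7b56f3aa540c4d8d28bb3ac38996e9b10a264cb6f135c599ce85419668b3caac8cb0420041b2b58762b5c2d172421990715a3489392a8d6852d566c916cc11b2da0111268cd0a256519168d4cc4032914966acd26f3699c65c758d32b093560db5ab30d550d1)]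
noncomputable def T7_8209 : Op := Op.mk (nat_lit 211)
 (Tr.nd (nat_lit 66) (nat_lit 17) (nat_lit 10) (nat_lit 2273) c7_8209_0
 (Tr.nd (nat_lit 30) (nat_lit 2) (nat_lit 3) (nat_lit 1131) c7_8209_0
 (Tr.nd (nat_lit 17) (nat_lit 2) (nat_lit 31) (nat_lit 903) c7_8209_0
 (Tr.nd (nat_lit 9) (nat_lit 1) (nat_lit 154) (nat_lit 460) c7_8209_0
 (Tr.nd (nat_lit 7) (nat_lit 1) (nat_lit 61) (nat_lit 123) c7_8209_0
 (Tr.nd (nat_lit 1) (nat_lit 1) (nat_lit 100) (nat_lit 23) c7_8209_0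
 (Tr.nd (nat_lit 0) (nat_lit 1) (nat_lit 23) (nat_lit 0) c7_8209_0
 Tr.lf Tr.lf) Tr.lf) (Tr.nd (nat_lit 8) (nat_lit 1) (nat_lit 276) (nat_lit 184) c7_8209_0
 Tr.lf Tr.lf)) (Tr.nd (nat_lit 15) (nat_lit 1) (nat_lit 100) (nat_lit 677) c7_8209_0
 (Tr.nd (nat_lit 10) (nat_lit 1) (nat_lit 63) (nat_lit 614) c7_8209_0
 Tr.lf Tr.lf) (Tr.nd (nat_lit 16) (nat_lit 2) (nat_lit 63) (nat_lit 777) c7_8209_0
 Tr.lf Tr.lf))) (Tr.nd (nat_lit 23) (nat_lit 2) (nat_lit 17) (nat_lit 1016) c7_8209_0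
 (Tr.nd (nat_lit 19) (nat_lit 2) (nat_lit 3) (nat_lit 987) c7_8209_0
 (Tr.nd (nat_lit 18) (nat_lit 2) (nat_lit 11) (nat_lit 965) c7_8209_0
 Tr.lf Tr.lf) (Tr.nd (nat_lit 22) (nat_lit 1) (nat_lit 23) (nat_lit 993) c7_8209_0
 Tr.lf Tr.lf)) (Tr.nd (nat_lit 25) (nat_lit 6) (nat_lit 5) (nat_lit 1094) c7_8209_0
 (Tr.nd (nat_lit 24) (nat_lit 4) (nat_lit 11) (nat_lit 1050) c7_8209_0
 Tr.lf Tr.lf) (Tr.nd (nat_lit 26) (nat_lit 7) (nat_lit 1) (nat_lit 1124) c7_8209_0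
 Tr.lf Tr.lf)))) (Tr.nd (nat_lit 57) (nat_lit 3) (nat_lit 61) (nat_lit 1477) c7_8209_0
 (Tr.nd (nat_lit 50) (nat_lit 1) (nat_lit 116) (nat_lit 1202) c7_8209_0
 (Tr.nd (nat_lit 32) (nat_lit 11) (nat_lit 1) (nat_lit 1167) c7_8209_0
 (Tr.nd (nat_lit 31) (nat_lit 6) (nat_lit 5) (nat_lit 1137) c7_8209_0
 Tr.lf Tr.lf) (Tr.nd (nat_lit 49) (nat_lit 1) (nat_lit 24) (nat_lit 1178) c7_8209_0
 Tr.lf Tr.lf)) (Tr.nd (nat_lit 52) (nat_lit 1) (nat_lit 23) (nat_lit 1379) c7_8209_0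
 (Tr.nd (nat_lit 51) (nat_lit 1) (nat_lit 61) (nat_lit 1318) c7_8209_0
 Tr.lf Tr.lf) (Tr.nd (nat_lit 56) (nat_lit 1) (nat_lit 75) (nat_lit 1402) c7_8209_0
 Tr.lf Tr.lf))) (Tr.nd (nat_lit 61) (nat_lit 4) (nat_lit 1) (nat_lit 1960) c7_8209_0
 (Tr.nd (nat_lit 59) (nat_lit 5) (nat_lit 17) (nat_lit 1845) c7_8209_0
 (Tr.nd (nat_lit 58) (nat_lit 5) (nat_lit 37) (nat_lit 1660) c7_8209_0
 Tr.lf Tr.lf) (Tr.nd (nat_lit 60) (nat_lit 5) (nat_lit 6) (nat_lit 1930) c7_8209_0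
 Tr.lf Tr.lf)) (Tr.nd (nat_lit 64) (nat_lit 5) (nat_lit 23) (nat_lit 1988) c7_8209_0
 (Tr.nd (nat_lit 63) (nat_lit 1) (nat_lit 24) (nat_lit 1964) c7_8209_0
 Tr.lf Tr.lf) (Tr.nd (nat_lit 65) (nat_lit 10) (nat_lit 17) (nat_lit 2103) c7_8209_0
 Tr.lf Tr.lf))))) (Tr.nd (nat_lit 105) (nat_lit 1) (nat_lit 7) (nat_lit 3399) c7_8209_0
 (Tr.nd (nat_lit 75) (nat_lit 75) (nat_lit 1) (nat_lit 3069) c7_8209_0
 (Tr.nd (nat_lit 71) (nat_lit 5) (nat_lit 6) (nat_lit 2586) c7_8209_0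
 (Tr.nd (nat_lit 68) (nat_lit 24) (nat_lit 1) (nat_lit 2558) c7_8209_0
 (Tr.nd (nat_lit 67) (nat_lit 23) (nat_lit 5) (nat_lit 2443) c7_8209_0
 Tr.lf Tr.lf) (Tr.nd (nat_lit 70) (nat_lit 1) (nat_lit 4) (nat_lit 2582) c7_8209_0
 Tr.lf Tr.lf)) (Tr.nd (nat_lit 73) (nat_lit 37) (nat_lit 5) (nat_lit 2701) c7_8209_0
 (Tr.nd (nat_lit 72) (nat_lit 17) (nat_lit 5) (nat_lit 2616) c7_8209_0
 Tr.lf Tr.lf) (Tr.nd (nat_lit 74) (nat_lit 61) (nat_lit 3) (nat_lit 2886) c7_8209_0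
 Tr.lf Tr.lf))) (Tr.nd (nat_lit 82) (nat_lit 24) (nat_lit 1) (nat_lit 3344) c7_8209_0
 (Tr.nd (nat_lit 80) (nat_lit 61) (nat_lit 1) (nat_lit 3167) c7_8209_0
 (Tr.nd (nat_lit 79) (nat_lit 23) (nat_lit 1) (nat_lit 3144) c7_8209_0
 Tr.lf Tr.lf) (Tr.nd (nat_lit 81) (nat_lit 116) (nat_lit 1) (nat_lit 3228) c7_8209_0
 Tr.lf Tr.lf)) (Tr.nd (nat_lit 100) (nat_lit 2) (nat_lit 7) (nat_lit 3379) c7_8209_0
 (Tr.nd (nat_lit 99) (nat_lit 1) (nat_lit 11) (nat_lit 3368) c7_8209_0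
 Tr.lf Tr.lf) (Tr.nd (nat_lit 101) (nat_lit 2) (nat_lit 3) (nat_lit 3393) c7_8209_0
 Tr.lf Tr.lf)))) (Tr.nd (nat_lit 115) (nat_lit 63) (nat_lit 2) (nat_lit 3809) c7_8209_0
 (Tr.nd (nat_lit 109) (nat_lit 23) (nat_lit 1) (nat_lit 3540) c7_8209_0
 (Tr.nd (nat_lit 107) (nat_lit 10) (nat_lit 7) (nat_lit 3436) c7_8209_0
 (Tr.nd (nat_lit 106) (nat_lit 5) (nat_lit 6) (nat_lit 3406) c7_8209_0
 Tr.lf Tr.lf) (Tr.nd (nat_lit 108) (nat_lit 17) (nat_lit 2) (nat_lit 3506) c7_8209_0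
 Tr.lf Tr.lf)) (Tr.nd (nat_lit 113) (nat_lit 10) (nat_lit 3) (nat_lit 3569) c7_8209_0
 (Tr.nd (nat_lit 112) (nat_lit 2) (nat_lit 3) (nat_lit 3563) c7_8209_0
 Tr.lf Tr.lf) (Tr.nd (nat_lit 114) (nat_lit 30) (nat_lit 7) (nat_lit 3599) c7_8209_0
 Tr.lf Tr.lf))) (Tr.nd (nat_lit 123) (nat_lit 276) (nat_lit 1) (nat_lit 217) c7_8209_1
 (Tr.nd (nat_lit 121) (nat_lit 63) (nat_lit 1) (nat_lit 0) c7_8209_1
 (Tr.nd (nat_lit 116) (nat_lit 100) (nat_lit 1) (nat_lit 3935) c7_8209_0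
 Tr.lf Tr.lf) (Tr.nd (nat_lit 122) (nat_lit 154) (nat_lit 1) (nat_lit 63) c7_8209_1
 Tr.lf Tr.lf)) (Tr.nd (nat_lit 130) (nat_lit 100) (nat_lit 1) (nat_lit 554) c7_8209_1
 (Tr.nd (nat_lit 124) (nat_lit 61) (nat_lit 1) (nat_lit 493) c7_8209_1
 Tr.lf Tr.lf) (Tr.nd (nat_lit 131) (nat_lit 23) (nat_lit 1) (nat_lit 654) c7_8209_1
 Tr.lf Tr.lf))))))

noncomputable def c7_8197_0 : List Nat := [(nat_lit 0x12035da3098e89042264060eb8655d111682b86d084687725842a11b114b91b2ec582cb3b94af2199d042d9858485d046ac3b52208252ec6514418324904152aa99586c30b329048953344151d1002e84015ed90c6000000000000000000000000000000000000000000000000000000000000000000014b6c38d4d1ca5d2b20f3cb0000000000000000000000000000000000000000000000a4895e1305aaa52c566d200000000602c30016e3b16901836d56ac96c5894f313414aa66a18d0cc12adb836c8c84000000004059899b2866de00000001062a15900000002044537507120c7135b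09aaa6065412939360250806405511305ba5906c4f39468e0d8b9b4076d064dd5a88135a03448a1c842239b62294d331060336b79bc315592458e605e9a06108ad35da657034502f675eb16a00d44b8d989823c415b3c4ab8446d98912b25e2d26e2ab091a042c188527041942a452622cb8e72d2738308d508ca41ca819105c86666995a6ab82d146aeb76611015184b1514a3cb0196589290d2c8f30cc903adc3a9369d4d5b16f28328e9a1d20e163531aa58114de4ab704dad988aa81a16ea881d1aa5304b19b09c36166a6813952b69aed10994a060e90619b1014cb178cc3459e4eec156800a538367126940165cc2420b31dceda94a6cab472a053ad34952eea507a048b59db2cc6574466b5711019322244d59b57aeb1a3198cdd4e02c18ec9e5ae41badd470d8974c821000001b96884414aa3318c658656e960d79a231c2699c2d266ec46a9670bab66551a8843d632c6104565270a2991584a789dacae60e80938c802aa8340ad2b6667697609804dd40bd1c40d57006b6f0725a733a1b74b60c400b5ac300428a672822074b2b0043b395e759d0eda3866130d0178d26364b46336650c70c27415135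91662dd1a2761b06c24272784674718498220119319768214858850c71da80ce075a5d2352110e2725b9136e3b585696550431c7633a86b071e61bb8c363b310f3344736268a153b005b90dd0a616d92a9221a6d3010d3034b11c18b16c520075b1bc2444d8deb6d671352d3418e053ce90cd6ec32c000014b06499820a93d842712e0386bb28d3cac8cd2e99aac22735aa1db09516256b1b812b581d05ed188c9b9095dc3058d7b330abb5429ac50608947214617b250e01108bb5d361a8379c135c5959a5747ab5833960f0cd1384b7485eb4c28033145b31b74d482b253b5410850953a6456399c43127300d51470c60636ad85a25ae557380911d513d034414127b1ca3a11d41291345b3190baee154a038d8372069675aa501e5934b377406c2b1c336da61ca9cb9006825a5264020951a2a6bcb0916436d45b55d08b1d769d63d72ad03031902139065546d267325d809d2d2a0d5139ec8839c109d29d60b80172973ac00457a960cb4d202002000405080c26b9a4341a8440c00180146c2e700d14010c35cf54d0d220a5918091136226d19d84730b1e6a520b35b20000000000000201405c8680a22dac4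d99385ea018b498b8510852000182cb431bb2b9805bd0509a81da1020e856cc571d44090cc30999a959a079a27296c953a98198602066985c83189b400936f2295254d048f3ac3346196616c53b6b5b21188c9b064960c820c3606ae080029ca446096944134c6a4949c926505b6940456628321964373368641d0351c85d382c9d0358b57964329596e46683b03118325ab14a066c354132a0aeac35c4300b502094c74185ae912062e864b8156594141bc82d510a319a83142804165d64b45b29802dc2c14b2dd356aa190dc73360d038c693047387138b4e5a0254e0c14b490936354876400eba55b134a0ce18ec3630bc53402184898930000000000000000000000000008000000000173559605780180030030c1a4281240a36334b34b010514492851b080000000000000000000000600030006006d9a5409228d8cd2cd28041451209028da400030036036a334b34a01220a12241881b6615120509409000004a2416880926c000024b4404826c00404826c06360000000000004017000cc029a5d000000000000c0004c009849b0000000c009849b00c49b5c01018000000000000)]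
noncomputable def c7_8197_1 : List Nat := [(nat_lit 0x601035da40c0da41a0030000000da41a00340000c00000000001359a2034200d4004000000000001b844a48244004a4824416c800004a49220b4482c00000039549254380ecf344d041b5996684c54badcba3c347612700534aa88176d2ac004a6cdac0da068ccacc92949a37835508d171aa23ca10c479130144e5a874a89cc957528e5929b7139ab25642c34a9c1a8536c99cd8d26db6833acc60595c5a30ab08c330b14450d206a418201347330ec363862c2349d959ae204958353949324c910c635202d8d3389c63c50d260e313094bc753218ae54d6cb344a35a0068b65325d659040a11c227838815720b36111659511ac866a18)]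
noncomputable def T7_8197 : Op := Op.mk (nat_lit 211)
 (Tr.nd (nat_lit 66) (nat_lit 17) (nat_lit 10) (nat_lit 2273) c7_8197_0
 (Tr.nd (nat_lit 30) (nat_lit 2) (nat_lit 3) (nat_lit 1131) c7_8197_0
 (Tr.nd (nat_lit 17) (nat_lit 2) (nat_lit 31) (nat_lit 903) c7_8197_0
 (Tr.nd (nat_lit 9) (nat_lit 1) (nat_lit 154) (nat_lit 460) c7_8197_0
 (Tr.nd (nat_lit 7) (nat_lit 1) (nat_lit 61) (nat_lit 123) c7_8197_0
 (Tr.nd (nat_lit 1) (nat_lit 1) (nat_lit 100) (nat_lit 23) c7_8197_0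
 (Tr.nd (nat_lit 0) (nat_lit 1) (nat_lit 23) (nat_lit 0) c7_8197_0
 Tr.lf Tr.lf) Tr.lf) (Tr.nd (nat_lit 8) (nat_lit 1) (nat_lit 276) (nat_lit 184) c7_8197_0
 Tr.lf Tr.lf)) (Tr.nd (nat_lit 15) (nat_lit 1) (nat_lit 100) (nat_lit 677) c7_8197_0
 (Tr.nd (nat_lit 10) (nat_lit 1) (nat_lit 63) (nat_lit 614) c7_8197_0
 Tr.lf Tr.lf) (Tr.nd (nat_lit 16) (nat_lit 2) (nat_lit 63) (nat_lit 777) c7_8197_0
 Tr.lf Tr.lf))) (Tr.nd (nat_lit 23) (nat_lit 2) (nat_lit 17) (nat_lit 1016) c7_8197_0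
 (Tr.nd (nat_lit 19) (nat_lit 2) (nat_lit 3) (nat_lit 987) c7_8197_0
 (Tr.nd (nat_lit 18) (nat_lit 2) (nat_lit 11) (nat_lit 965) c7_8197_0
 Tr.lf Tr.lf) (Tr.nd (nat_lit 22) (nat_lit 1) (nat_lit 23) (nat_lit 993) c7_8197_0
 Tr.lf Tr.lf)) (Tr.nd (nat_lit 25) (nat_lit 6) (nat_lit 5) (nat_lit 1094) c7_8197_0
 (Tr.nd (nat_lit 24) (nat_lit 4) (nat_lit 11) (nat_lit 1050) c7_8197_0
 Tr.lf Tr.lf) (Tr.nd (nat_lit 26) (nat_lit 7) (nat_lit 1) (nat_lit 1124) c7_8197_0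
 Tr.lf Tr.lf)))) (Tr.nd (nat_lit 57) (nat_lit 3) (nat_lit 61) (nat_lit 1477) c7_8197_0
 (Tr.nd (nat_lit 50) (nat_lit 1) (nat_lit 116) (nat_lit 1202) c7_8197_0
 (Tr.nd (nat_lit 32) (nat_lit 11) (nat_lit 1) (nat_lit 1167) c7_8197_0
 (Tr.nd (nat_lit 31) (nat_lit 6) (nat_lit 5) (nat_lit 1137) c7_8197_0
 Tr.lf Tr.lf) (Tr.nd (nat_lit 49) (nat_lit 1) (nat_lit 24) (nat_lit 1178) c7_8197_0
 Tr.lf Tr.lf)) (Tr.nd (nat_lit 52) (nat_lit 1) (nat_lit 23) (nat_lit 1379) c7_8197_0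
 (Tr.nd (nat_lit 51) (nat_lit 1) (nat_lit 61) (nat_lit 1318) c7_8197_0
 Tr.lf Tr.lf) (Tr.nd (nat_lit 56) (nat_lit 1) (nat_lit 75) (nat_lit 1402) c7_8197_0
 Tr.lf Tr.lf))) (Tr.nd (nat_lit 61) (nat_lit 4) (nat_lit 1) (nat_lit 1960) c7_8197_0
 (Tr.nd (nat_lit 59) (nat_lit 5) (nat_lit 17) (nat_lit 1845) c7_8197_0
 (Tr.nd (nat_lit 58) (nat_lit 5) (nat_lit 37) (nat_lit 1660) c7_8197_0
 Tr.lf Tr.lf) (Tr.nd (nat_lit 60) (nat_lit 5) (nat_lit 6) (nat_lit 1930) c7_8197_0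
 Tr.lf Tr.lf)) (Tr.nd (nat_lit 64) (nat_lit 5) (nat_lit 23) (nat_lit 1988) c7_8197_0
 (Tr.nd (nat_lit 63) (nat_lit 1) (nat_lit 24) (nat_lit 1964) c7_8197_0
 Tr.lf Tr.lf) (Tr.nd (nat_lit 65) (nat_lit 10) (nat_lit 17) (nat_lit 2103) c7_8197_0
 Tr.lf Tr.lf))))) (Tr.nd (nat_lit 105) (nat_lit 1) (nat_lit 7) (nat_lit 3399) c7_8197_0
 (Tr.nd (nat_lit 75) (nat_lit 75) (nat_lit 1) (nat_lit 3069) c7_8197_0
 (Tr.nd (nat_lit 71) (nat_lit 5) (nat_lit 6) (nat_lit 2586) c7_8197_0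
 (Tr.nd (nat_lit 68) (nat_lit 24) (nat_lit 1) (nat_lit 2558) c7_8197_0
 (Tr.nd (nat_lit 67) (nat_lit 23) (nat_lit 5) (nat_lit 2443) c7_8197_0
 Tr.lf Tr.lf) (Tr.nd (nat_lit 70) (nat_lit 1) (nat_lit 4) (nat_lit 2582) c7_8197_0
 Tr.lf Tr.lf)) (Tr.nd (nat_lit 73) (nat_lit 37) (nat_lit 5) (nat_lit 2701) c7_8197_0
 (Tr.nd (nat_lit 72) (nat_lit 17) (nat_lit 5) (nat_lit 2616) c7_8197_0
 Tr.lf Tr.lf) (Tr.nd (nat_lit 74) (nat_lit 61) (nat_lit 3) (nat_lit 2886) c7_8197_0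
 Tr.lf Tr.lf))) (Tr.nd (nat_lit 82) (nat_lit 24) (nat_lit 1) (nat_lit 3344) c7_8197_0
 (Tr.nd (nat_lit 80) (nat_lit 61) (nat_lit 1) (nat_lit 3167) c7_8197_0
 (Tr.nd (nat_lit 79) (nat_lit 23) (nat_lit 1) (nat_lit 3144) c7_8197_0
 Tr.lf Tr.lf) (Tr.nd (nat_lit 81) (nat_lit 116) (nat_lit 1) (nat_lit 3228) c7_8197_0
 Tr.lf Tr.lf)) (Tr.nd (nat_lit 100) (nat_lit 2) (nat_lit 7) (nat_lit 3379) c7_8197_0
 (Tr.nd (nat_lit 99) (nat_lit 1) (nat_lit 11) (nat_lit 3368) c7_8197_0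
 Tr.lf Tr.lf) (Tr.nd (nat_lit 101) (nat_lit 2) (nat_lit 3) (nat_lit 3393) c7_8197_0
 Tr.lf Tr.lf)))) (Tr.nd (nat_lit 115) (nat_lit 63) (nat_lit 2) (nat_lit 3809) c7_8197_0
 (Tr.nd (nat_lit 109) (nat_lit 23) (nat_lit 1) (nat_lit 3540) c7_8197_0
 (Tr.nd (nat_lit 107) (nat_lit 10) (nat_lit 7) (nat_lit 3436) c7_8197_0
 (Tr.nd (nat_lit 106) (nat_lit 5) (nat_lit 6) (nat_lit 3406) c7_8197_0
 Tr.lf Tr.lf) (Tr.nd (nat_lit 108) (nat_lit 17) (nat_lit 2) (nat_lit 3506) c7_8197_0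
 Tr.lf Tr.lf)) (Tr.nd (nat_lit 113) (nat_lit 10) (nat_lit 3) (nat_lit 3569) c7_8197_0
 (Tr.nd (nat_lit 112) (nat_lit 2) (nat_lit 3) (nat_lit 3563) c7_8197_0
 Tr.lf Tr.lf) (Tr.nd (nat_lit 114) (nat_lit 30) (nat_lit 7) (nat_lit 3599) c7_8197_0
 Tr.lf Tr.lf))) (Tr.nd (nat_lit 123) (nat_lit 276) (nat_lit 1) (nat_lit 217) c7_8197_1
 (Tr.nd (nat_lit 121) (nat_lit 63) (nat_lit 1) (nat_lit 0) c7_8197_1
 (Tr.nd (nat_lit 116) (nat_lit 100) (nat_lit 1) (nat_lit 3935) c7_8197_0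
 Tr.lf Tr.lf) (Tr.nd (nat_lit 122) (nat_lit 154) (nat_lit 1) (nat_lit 63) c7_8197_1
 Tr.lf Tr.lf)) (Tr.nd (nat_lit 130) (nat_lit 100) (nat_lit 1) (nat_lit 554) c7_8197_1
 (Tr.nd (nat_lit 124) (nat_lit 61) (nat_lit 1) (nat_lit 493) c7_8197_1
 Tr.lf Tr.lf) (Tr.nd (nat_lit 131) (nat_lit 23) (nat_lit 1) (nat_lit 654) c7_8197_1
 Tr.lf Tr.lf))))))

noncomputable def c7_4416_0 : List Nat := [(nat_lit 0x2b00056016b02e0001b203200198000012010000c1006c00000898de4ca2f516635b1015128ac190926773b71649d5bd9e732894125da5799502855b6e6192ce1036ed8dc066a64d80c522c6ae9aa5d43d4513389970ac28398acd9511318b3b631268b16d98835b22eeadc1b39053413a68d600aab38e159122b61b995220b74332ca889b5a006b09a9360d4375b8864638a2ceaa0550ba131994e10b03042103358a8deb4911ea5584242b6080000000a38e48230c15166a8725614600c0c022096b404408c1c588753b2c000052482d158ba0dd66ba0798cd994311aaec9a290b665a6e75d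800d5569e4e4219cacd457b5b644a4915164a71a405b14008f3656b41a246e56b0249715acbd02931c9514c44038000000000000000001cc660b13a1c850f1cea4a3a204212c147104c35419985bd637800c00000000000000000294b28d8584c8640e7b05a307360d82819db81d08b0418819cc653b0d110ebaa39a39a6ba9aa449c8c1af0c61af6301c0d7a196484655b26ecb5213460660a81309a5a8ae59566e84264e6c0000000ac2b214c01942b1a4676c759acdcf00000000303086a938e28128b68aaa076b051451ac64c988e000128943d69ce504329a305206d53ce2c417513587568eac343b22a32d164599d363399499364db4a41702849560271b50c4530bd74729d98602083c284f6c64613682d0c574b70ad53342657962a3073000ad4d1d30ed8c0e0561c34806bb00090134ec8c82282aba700ce0212ca8869145197b0a5e3b03a3ce644000ca599899a442665daa3249193b1b90522dc8b79c0023b200d38d928aa491292dbb3a2e9562c191acd000000000000000002d01050001009000018b005005000000c01d812400065b1b8c0000000000000180498c6400015585880c440e28c441da061216db4e28a08218cdab0712d5b00322a665256c340ae011c19533c4c0684108ec38d24c059d6ea6263691341d204c9b505596866b4406ad1b0dd04ac8c71e551032734c48a6891ec23775656c9850b6ce53481cb5e50e80ab29743c451918cb51e828b98bac54d770652380000000003030180000010006006000006006030000000000000180940000400940968000018015035a002916b37094000006c0821000804800000d08016016c0003501da04a8001d)]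
noncomputable def T7_4416 : Op := Op.mk (nat_lit 217)
 (Tr.nd (nat_lit 63) (nat_lit 1) (nat_lit 2) (nat_lit 1098) c7_4416_0
 (Tr.nd (nat_lit 24) (nat_lit 4) (nat_lit 3) (nat_lit 502) c7_4416_0
 (Tr.nd (nat_lit 16) (nat_lit 2) (nat_lit 23) (nat_lit 381) c7_4416_0
 (Tr.nd (nat_lit 8) (nat_lit 1) (nat_lit 116) (nat_lit 78) c7_4416_0
 (Tr.nd (nat_lit 1) (nat_lit 1) (nat_lit 61) (nat_lit 6) c7_4416_0
 (Tr.nd (nat_lit 0) (nat_lit 1) (nat_lit 6) (nat_lit 0) c7_4416_0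
 Tr.lf Tr.lf) (Tr.nd (nat_lit 7) (nat_lit 1) (nat_lit 11) (nat_lit 67) c7_4416_0
 Tr.lf Tr.lf)) (Tr.nd (nat_lit 10) (nat_lit 1) (nat_lit 63) (nat_lit 294) c7_4416_0
 (Tr.nd (nat_lit 9) (nat_lit 1) (nat_lit 100) (nat_lit 194) c7_4416_0
 Tr.lf Tr.lf) (Tr.nd (nat_lit 15) (nat_lit 1) (nat_lit 24) (nat_lit 357) c7_4416_0
 Tr.lf Tr.lf))) (Tr.nd (nat_lit 20) (nat_lit 1) (nat_lit 1) (nat_lit 493) c7_4416_0
 (Tr.nd (nat_lit 18) (nat_lit 2) (nat_lit 11) (nat_lit 461) c7_4416_0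
 (Tr.nd (nat_lit 17) (nat_lit 2) (nat_lit 17) (nat_lit 427) c7_4416_0
 Tr.lf Tr.lf) (Tr.nd (nat_lit 19) (nat_lit 2) (nat_lit 5) (nat_lit 483) c7_4416_0
 Tr.lf Tr.lf)) (Tr.nd (nat_lit 23) (nat_lit 2) (nat_lit 3) (nat_lit 496) c7_4416_0
 (Tr.nd (nat_lit 22) (nat_lit 1) (nat_lit 2) (nat_lit 494) c7_4416_0
 Tr.lf Tr.lf) Tr.lf))) (Tr.nd (nat_lit 56) (nat_lit 1) (nat_lit 15) (nat_lit 731) c7_4416_0
 (Tr.nd (nat_lit 50) (nat_lit 1) (nat_lit 75) (nat_lit 558) c7_4416_0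
 (Tr.nd (nat_lit 26) (nat_lit 7) (nat_lit 1) (nat_lit 544) c7_4416_0
 (Tr.nd (nat_lit 25) (nat_lit 6) (nat_lit 5) (nat_lit 514) c7_4416_0
 Tr.lf Tr.lf) (Tr.nd (nat_lit 49) (nat_lit 1) (nat_lit 7) (nat_lit 551) c7_4416_0
 Tr.lf Tr.lf)) (Tr.nd (nat_lit 52) (nat_lit 1) (nat_lit 37) (nat_lit 694) c7_4416_0
 (Tr.nd (nat_lit 51) (nat_lit 1) (nat_lit 61) (nat_lit 633) c7_4416_0
 Tr.lf Tr.lf) Tr.lf)) (Tr.nd (nat_lit 60) (nat_lit 5) (nat_lit 11) (nat_lit 1021) c7_4416_0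
 (Tr.nd (nat_lit 58) (nat_lit 5) (nat_lit 23) (nat_lit 821) c7_4416_0
 (Tr.nd (nat_lit 57) (nat_lit 3) (nat_lit 25) (nat_lit 746) c7_4416_0
 Tr.lf Tr.lf) (Tr.nd (nat_lit 59) (nat_lit 5) (nat_lit 17) (nat_lit 936) c7_4416_0
 Tr.lf Tr.lf)) (Tr.nd (nat_lit 62) (nat_lit 2) (nat_lit 1) (nat_lit 1096) c7_4416_0
 (Tr.nd (nat_lit 61) (nat_lit 4) (nat_lit 5) (nat_lit 1076) c7_4416_0
 Tr.lf Tr.lf) Tr.lf)))) (Tr.nd (nat_lit 102) (nat_lit 2) (nat_lit 3) (nat_lit 1736) c7_4416_0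
 (Tr.nd (nat_lit 73) (nat_lit 37) (nat_lit 1) (nat_lit 1525) c7_4416_0
 (Tr.nd (nat_lit 67) (nat_lit 23) (nat_lit 5) (nat_lit 1275) c7_4416_0
 (Tr.nd (nat_lit 65) (nat_lit 10) (nat_lit 7) (nat_lit 1120) c7_4416_0
 (Tr.nd (nat_lit 64) (nat_lit 5) (nat_lit 4) (nat_lit 1100) c7_4416_0
 Tr.lf Tr.lf) (Tr.nd (nat_lit 66) (nat_lit 17) (nat_lit 5) (nat_lit 1190) c7_4416_0
 Tr.lf Tr.lf)) (Tr.nd (nat_lit 69) (nat_lit 15) (nat_lit 1) (nat_lit 1510) c7_4416_0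
 (Tr.nd (nat_lit 68) (nat_lit 24) (nat_lit 5) (nat_lit 1390) c7_4416_0
 Tr.lf Tr.lf) Tr.lf)) (Tr.nd (nat_lit 99) (nat_lit 1) (nat_lit 7) (nat_lit 1705) c7_4416_0
 (Tr.nd (nat_lit 75) (nat_lit 75) (nat_lit 1) (nat_lit 1623) c7_4416_0
 (Tr.nd (nat_lit 74) (nat_lit 61) (nat_lit 1) (nat_lit 1562) c7_4416_0
 Tr.lf Tr.lf) (Tr.nd (nat_lit 76) (nat_lit 7) (nat_lit 1) (nat_lit 1698) c7_4416_0
 Tr.lf Tr.lf)) (Tr.nd (nat_lit 101) (nat_lit 2) (nat_lit 5) (nat_lit 1726) c7_4416_0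
 (Tr.nd (nat_lit 100) (nat_lit 2) (nat_lit 7) (nat_lit 1712) c7_4416_0
 Tr.lf Tr.lf) Tr.lf))) (Tr.nd (nat_lit 110) (nat_lit 24) (nat_lit 1) (nat_lit 1865) c7_4416_0
 (Tr.nd (nat_lit 107) (nat_lit 10) (nat_lit 3) (nat_lit 1755) c7_4416_0
 (Tr.nd (nat_lit 105) (nat_lit 1) (nat_lit 1) (nat_lit 1744) c7_4416_0
 (Tr.nd (nat_lit 103) (nat_lit 2) (nat_lit 1) (nat_lit 1742) c7_4416_0
 Tr.lf Tr.lf) (Tr.nd (nat_lit 106) (nat_lit 5) (nat_lit 2) (nat_lit 1745) c7_4416_0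
 Tr.lf Tr.lf)) (Tr.nd (nat_lit 109) (nat_lit 23) (nat_lit 2) (nat_lit 1819) c7_4416_0
 (Tr.nd (nat_lit 108) (nat_lit 17) (nat_lit 2) (nat_lit 1785) c7_4416_0
 Tr.lf Tr.lf) Tr.lf)) (Tr.nd (nat_lit 118) (nat_lit 11) (nat_lit 1) (nat_lit 2168) c7_4416_0
 (Tr.nd (nat_lit 116) (nat_lit 100) (nat_lit 1) (nat_lit 1952) c7_4416_0
 (Tr.nd (nat_lit 115) (nat_lit 63) (nat_lit 1) (nat_lit 1889) c7_4416_0
 Tr.lf Tr.lf) (Tr.nd (nat_lit 117) (nat_lit 116) (nat_lit 1) (nat_lit 2052) c7_4416_0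
 Tr.lf Tr.lf)) (Tr.nd (nat_lit 125) (nat_lit 6) (nat_lit 1) (nat_lit 2240) c7_4416_0
 (Tr.nd (nat_lit 124) (nat_lit 61) (nat_lit 1) (nat_lit 2179) c7_4416_0
 Tr.lf Tr.lf) Tr.lf)))))

noncomputable def c7_4368_0 : List Nat := [(nat_lit 0xe0c03400820130000040010009800001b11880281004400001369ab89c3423860d998837354d79c895204d6a662240a55a626c84291733a3c4e8b2c4b334d51c9b544873d0d42a55244ad94392a50620a6cc8200a6300cd79282a653b8ed86c964633a68d644d35380d95b34aaf0918959aeb695cf1b8ca55a96aad995934c9a6004527a34eda8c21539339d87511187461960d25d19ab2097637238e1908a861191481ab1912a94034c21e370000000190763101204d89b486ce4c8800655022752c40375c85a8c2a9b8e410012aaa931b80610cdba592d5ba95752da4d2235906aec4aa74239d07455ea943ad8f65b0d36a6cbb651eae1285ce891328315e00b540473ae378325424628e19bcdc630bb47a9d0000000000000000002078b24555a963cb008a1a1a5627674314b82e7150f3462032d497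8000000000000000002ac492ab53216b0ce88c329796536703276d95c049a300e904c8d4ac3b17011830a9333c09305ab1d24082d4ec054ed5729b67b26b0318525d09a8834889c6419b1aa9d6c1731912b1a030000000006e3a9cab3365ab0212d1182076ba480000000119a2a982213ab4f36931804da0997b10e8cdc09100015a5344cdb5a60b08a84b9162ecb7340042597410636148bd76c4c02e0b564639892526da9616e7407a928a8d8c9aa8e0a9da09b18048ccc36722532c48c439acd62348356d53000c42384b48a4e4b39250939890517952a3db10d5ce4388003386b43d2e668da43446ad832c9144b310590d896d462921666b0c44a21221b62de6f0c51c0988963371d78a02a640ce86116a415ea1131dce2db594dda61b2d9cb71895ce80001024221980000100206c008086800011c004a06840004401081580082c75351000000000000014aadc7520002949e88068d101681ade20199ca01d411a065684b85106090d14662c7605624e5532a09a4624690c22a60678e29d79dc2282e32bc5ac6a06156d69ccd22800d35a692ad2d57256a361d4e7aa4dd74bb03906751a5bb2911aa692b2734c5c2b25b0db1d5a2d5112ce96060d10105a53440c2352c62d912800000000040281800000300030060000050060300000000000001808c00000002c08d800002000203040066351dd36800000280805001c0ec00000d0000802000001a010400a40631)]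
noncomputable def T7_4368 : Op := Op.mk (nat_lit 217)
 (Tr.nd (nat_lit 63) (nat_lit 1) (nat_lit 2) (nat_lit 1098) c7_4368_0
 (Tr.nd (nat_lit 24) (nat_lit 4) (nat_lit 3) (nat_lit 502) c7_4368_0
 (Tr.nd (nat_lit 16) (nat_lit 2) (nat_lit 23) (nat_lit 381) c7_4368_0
 (Tr.nd (nat_lit 8) (nat_lit 1) (nat_lit 116) (nat_lit 78) c7_4368_0
 (Tr.nd (nat_lit 1) (nat_lit 1) (nat_lit 61) (nat_lit 6) c7_4368_0
 (Tr.nd (nat_lit 0) (nat_lit 1) (nat_lit 6) (nat_lit 0) c7_4368_0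
 Tr.lf Tr.lf) (Tr.nd (nat_lit 7) (nat_lit 1) (nat_lit 11) (nat_lit 67) c7_4368_0
 Tr.lf Tr.lf)) (Tr.nd (nat_lit 10) (nat_lit 1) (nat_lit 63) (nat_lit 294) c7_4368_0
 (Tr.nd (nat_lit 9) (nat_lit 1) (nat_lit 100) (nat_lit 194) c7_4368_0
 Tr.lf Tr.lf) (Tr.nd (nat_lit 15) (nat_lit 1) (nat_lit 24) (nat_lit 357) c7_4368_0
 Tr.lf Tr.lf))) (Tr.nd (nat_lit 20) (nat_lit 1) (nat_lit 1) (nat_lit 493) c7_4368_0
 (Tr.nd (nat_lit 18) (nat_lit 2) (nat_lit 11) (nat_lit 461) c7_4368_0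
 (Tr.nd (nat_lit 17) (nat_lit 2) (nat_lit 17) (nat_lit 427) c7_4368_0
 Tr.lf Tr.lf) (Tr.nd (nat_lit 19) (nat_lit 2) (nat_lit 5) (nat_lit 483) c7_4368_0
 Tr.lf Tr.lf)) (Tr.nd (nat_lit 23) (nat_lit 2) (nat_lit 3) (nat_lit 496) c7_4368_0
 (Tr.nd (nat_lit 22) (nat_lit 1) (nat_lit 2) (nat_lit 494) c7_4368_0
 Tr.lf Tr.lf) Tr.lf))) (Tr.nd (nat_lit 56) (nat_lit 1) (nat_lit 15) (nat_lit 731) c7_4368_0
 (Tr.nd (nat_lit 50) (nat_lit 1) (nat_lit 75) (nat_lit 558) c7_4368_0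
 (Tr.nd (nat_lit 26) (nat_lit 7) (nat_lit 1) (nat_lit 544) c7_4368_0
 (Tr.nd (nat_lit 25) (nat_lit 6) (nat_lit 5) (nat_lit 514) c7_4368_0
 Tr.lf Tr.lf) (Tr.nd (nat_lit 49) (nat_lit 1) (nat_lit 7) (nat_lit 551) c7_4368_0
 Tr.lf Tr.lf)) (Tr.nd (nat_lit 52) (nat_lit 1) (nat_lit 37) (nat_lit 694) c7_4368_0
 (Tr.nd (nat_lit 51) (nat_lit 1) (nat_lit 61) (nat_lit 633) c7_4368_0
 Tr.lf Tr.lf) Tr.lf)) (Tr.nd (nat_lit 60) (nat_lit 5) (nat_lit 11) (nat_lit 1021) c7_4368_0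
 (Tr.nd (nat_lit 58) (nat_lit 5) (nat_lit 23) (nat_lit 821) c7_4368_0
 (Tr.nd (nat_lit 57) (nat_lit 3) (nat_lit 25) (nat_lit 746) c7_4368_0
 Tr.lf Tr.lf) (Tr.nd (nat_lit 59) (nat_lit 5) (nat_lit 17) (nat_lit 936) c7_4368_0
 Tr.lf Tr.lf)) (Tr.nd (nat_lit 62) (nat_lit 2) (nat_lit 1) (nat_lit 1096) c7_4368_0
 (Tr.nd (nat_lit 61) (nat_lit 4) (nat_lit 5) (nat_lit 1076) c7_4368_0
 Tr.lf Tr.lf) Tr.lf)))) (Tr.nd (nat_lit 102) (nat_lit 2) (nat_lit 3) (nat_lit 1736) c7_4368_0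
 (Tr.nd (nat_lit 73) (nat_lit 37) (nat_lit 1) (nat_lit 1525) c7_4368_0
 (Tr.nd (nat_lit 67) (nat_lit 23) (nat_lit 5) (nat_lit 1275) c7_4368_0
 (Tr.nd (nat_lit 65) (nat_lit 10) (nat_lit 7) (nat_lit 1120) c7_4368_0
 (Tr.nd (nat_lit 64) (nat_lit 5) (nat_lit 4) (nat_lit 1100) c7_4368_0
 Tr.lf Tr.lf) (Tr.nd (nat_lit 66) (nat_lit 17) (nat_lit 5) (nat_lit 1190) c7_4368_0
 Tr.lf Tr.lf)) (Tr.nd (nat_lit 69) (nat_lit 15) (nat_lit 1) (nat_lit 1510) c7_4368_0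
 (Tr.nd (nat_lit 68) (nat_lit 24) (nat_lit 5) (nat_lit 1390) c7_4368_0
 Tr.lf Tr.lf) Tr.lf)) (Tr.nd (nat_lit 99) (nat_lit 1) (nat_lit 7) (nat_lit 1705) c7_4368_0
 (Tr.nd (nat_lit 75) (nat_lit 75) (nat_lit 1) (nat_lit 1623) c7_4368_0
 (Tr.nd (nat_lit 74) (nat_lit 61) (nat_lit 1) (nat_lit 1562) c7_4368_0
 Tr.lf Tr.lf) (Tr.nd (nat_lit 76) (nat_lit 7) (nat_lit 1) (nat_lit 1698) c7_4368_0
 Tr.lf Tr.lf)) (Tr.nd (nat_lit 101) (nat_lit 2) (nat_lit 5) (nat_lit 1726) c7_4368_0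
 (Tr.nd (nat_lit 100) (nat_lit 2) (nat_lit 7) (nat_lit 1712) c7_4368_0
 Tr.lf Tr.lf) Tr.lf))) (Tr.nd (nat_lit 110) (nat_lit 24) (nat_lit 1) (nat_lit 1865) c7_4368_0
 (Tr.nd (nat_lit 107) (nat_lit 10) (nat_lit 3) (nat_lit 1755) c7_4368_0
 (Tr.nd (nat_lit 105) (nat_lit 1) (nat_lit 1) (nat_lit 1744) c7_4368_0
 (Tr.nd (nat_lit 103) (nat_lit 2) (nat_lit 1) (nat_lit 1742) c7_4368_0
 Tr.lf Tr.lf) (Tr.nd (nat_lit 106) (nat_lit 5) (nat_lit 2) (nat_lit 1745) c7_4368_0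
 Tr.lf Tr.lf)) (Tr.nd (nat_lit 109) (nat_lit 23) (nat_lit 2) (nat_lit 1819) c7_4368_0
 (Tr.nd (nat_lit 108) (nat_lit 17) (nat_lit 2) (nat_lit 1785) c7_4368_0
 Tr.lf Tr.lf) Tr.lf)) (Tr.nd (nat_lit 118) (nat_lit 11) (nat_lit 1) (nat_lit 2168) c7_4368_0
 (Tr.nd (nat_lit 116) (nat_lit 100) (nat_lit 1) (nat_lit 1952) c7_4368_0
 (Tr.nd (nat_lit 115) (nat_lit 63) (nat_lit 1) (nat_lit 1889) c7_4368_0
 Tr.lf Tr.lf) (Tr.nd (nat_lit 117) (nat_lit 116) (nat_lit 1) (nat_lit 2052) c7_4368_0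
 Tr.lf Tr.lf)) (Tr.nd (nat_lit 125) (nat_lit 6) (nat_lit 1) (nat_lit 2240) c7_4368_0
 (Tr.nd (nat_lit 124) (nat_lit 61) (nat_lit 1) (nat_lit 2179) c7_4368_0
 Tr.lf Tr.lf) Tr.lf)))))

noncomputable def c7_4356_0 : List Nat := [(nat_lit 0x1438c1281520210000f00150004c00001b21b003314028000018498ea1d86b3b00622c8689cc094079a810c03c18a05b41a046920ab5a0140ce9404c63113d6c694322a55540a699ac97535b458d0972374895cc6c8c194abb4a21ad2a906a549cd2496eb00b0456c55c725320d9352a2b1acc28a8b469d696b660699837a9c920c165e4a232574a955c4cba1a1d6c8872168468daeceecdc345a5da836691066066f37aa77079e6980c8ad61b00000000c842b72c723d3459e99481614051b02d3ad540d76c113b6686c15396600b5c940d5085cc55c546d636e8e1cea89315049376402b34a880109432ab29942729a53482854622eec5ed0804d52b744c8b618203862d0d665d1254129442dd604ea0565b1d400000000000000000090a924011e68b6762f5c46aeb5014063169acda1c72713193341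d0000000000000000001a6a0241001012da572171e96b64380968a64bb1d39c96413484255511c9b2a4129e54c78aca5672691544046cd8128b29748659d9ca40404550290c1b936c1a3b43aec21c01da8662862100000000980311ce3681da60c34e0985d6e88d00000000b0c616a1a9830d1ece42b48949248c03b6585cf10000768e030681475e79521e0043745587aa78505683570ea86c100048050598b15b005856834e701c591a27a0a5bd128749a8ccba80649891d038a9a597909045066d80d40a16d15b50a996109e691869082ccc1366548537662dc12dc6c3600362c943308346e471d4cc652162c2659a21b1e99079b42482e388da50d3b603ad92eb4289122a4a6b0ba6650c6010c365682b762a48066cced5950aa11069b345898b4595580024858b2665000002e923440843c0000484800d603824121d1a066303cb1a86c13000000000000006da9db1c80035b4ab404e3a32d32c2460491b1046ae7ac4cec02b51c1b6f319ecd8ad8c9e0d8c1dcf014b16844b1b4a71af2b51b45d216eb14cd613aab11aec8544b32c861258dcd8d0d234b724eb4e651146174e45589ad8486c8e3aa5aa0940975b249a34ac4c255274c166d51b087253a3b01adc8c998329ba6eb000000000040301400000280030010000050040000000000000000c04c000040000050800000801101e40022b171d20c00000440a1e006c16c0000068002a00660000c012a05821c62)]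
noncomputable def T7_4356 : Op := Op.mk (nat_lit 217)
 (Tr.nd (nat_lit 63) (nat_lit 1) (nat_lit 2) (nat_lit 1098) c7_4356_0
 (Tr.nd (nat_lit 24) (nat_lit 4) (nat_lit 3) (nat_lit 502) c7_4356_0
 (Tr.nd (nat_lit 16) (nat_lit 2) (nat_lit 23) (nat_lit 381) c7_4356_0
 (Tr.nd (nat_lit 8) (nat_lit 1) (nat_lit 116) (nat_lit 78) c7_4356_0
 (Tr.nd (nat_lit 1) (nat_lit 1) (nat_lit 61) (nat_lit 6) c7_4356_0
 (Tr.nd (nat_lit 0) (nat_lit 1) (nat_lit 6) (nat_lit 0) c7_4356_0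
 Tr.lf Tr.lf) (Tr.nd (nat_lit 7) (nat_lit 1) (nat_lit 11) (nat_lit 67) c7_4356_0
 Tr.lf Tr.lf)) (Tr.nd (nat_lit 10) (nat_lit 1) (nat_lit 63) (nat_lit 294) c7_4356_0
 (Tr.nd (nat_lit 9) (nat_lit 1) (nat_lit 100) (nat_lit 194) c7_4356_0
 Tr.lf Tr.lf) (Tr.nd (nat_lit 15) (nat_lit 1) (nat_lit 24) (nat_lit 357) c7_4356_0
 Tr.lf Tr.lf))) (Tr.nd (nat_lit 20) (nat_lit 1) (nat_lit 1) (nat_lit 493) c7_4356_0
 (Tr.nd (nat_lit 18) (nat_lit 2) (nat_lit 11) (nat_lit 461) c7_4356_0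
 (Tr.nd (nat_lit 17) (nat_lit 2) (nat_lit 17) (nat_lit 427) c7_4356_0
 Tr.lf Tr.lf) (Tr.nd (nat_lit 19) (nat_lit 2) (nat_lit 5) (nat_lit 483) c7_4356_0
 Tr.lf Tr.lf)) (Tr.nd (nat_lit 23) (nat_lit 2) (nat_lit 3) (nat_lit 496) c7_4356_0
 (Tr.nd (nat_lit 22) (nat_lit 1) (nat_lit 2) (nat_lit 494) c7_4356_0
 Tr.lf Tr.lf) Tr.lf))) (Tr.nd (nat_lit 56) (nat_lit 1) (nat_lit 15) (nat_lit 731) c7_4356_0
 (Tr.nd (nat_lit 50) (nat_lit 1) (nat_lit 75) (nat_lit 558) c7_4356_0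
 (Tr.nd (nat_lit 26) (nat_lit 7) (nat_lit 1) (nat_lit 544) c7_4356_0
 (Tr.nd (nat_lit 25) (nat_lit 6) (nat_lit 5) (nat_lit 514) c7_4356_0
 Tr.lf Tr.lf) (Tr.nd (nat_lit 49) (nat_lit 1) (nat_lit 7) (nat_lit 551) c7_4356_0
 Tr.lf Tr.lf)) (Tr.nd (nat_lit 52) (nat_lit 1) (nat_lit 37) (nat_lit 694) c7_4356_0
 (Tr.nd (nat_lit 51) (nat_lit 1) (nat_lit 61) (nat_lit 633) c7_4356_0
 Tr.lf Tr.lf) Tr.lf)) (Tr.nd (nat_lit 60) (nat_lit 5) (nat_lit 11) (nat_lit 1021) c7_4356_0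
 (Tr.nd (nat_lit 58) (nat_lit 5) (nat_lit 23) (nat_lit 821) c7_4356_0
 (Tr.nd (nat_lit 57) (nat_lit 3) (nat_lit 25) (nat_lit 746) c7_4356_0
 Tr.lf Tr.lf) (Tr.nd (nat_lit 59) (nat_lit 5) (nat_lit 17) (nat_lit 936) c7_4356_0
 Tr.lf Tr.lf)) (Tr.nd (nat_lit 62) (nat_lit 2) (nat_lit 1) (nat_lit 1096) c7_4356_0
 (Tr.nd (nat_lit 61) (nat_lit 4) (nat_lit 5) (nat_lit 1076) c7_4356_0
 Tr.lf Tr.lf) Tr.lf)))) (Tr.nd (nat_lit 102) (nat_lit 2) (nat_lit 3) (nat_lit 1736) c7_4356_0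
 (Tr.nd (nat_lit 73) (nat_lit 37) (nat_lit 1) (nat_lit 1525) c7_4356_0
 (Tr.nd (nat_lit 67) (nat_lit 23) (nat_lit 5) (nat_lit 1275) c7_4356_0
 (Tr.nd (nat_lit 65) (nat_lit 10) (nat_lit 7) (nat_lit 1120) c7_4356_0
 (Tr.nd (nat_lit 64) (nat_lit 5) (nat_lit 4) (nat_lit 1100) c7_4356_0
 Tr.lf Tr.lf) (Tr.nd (nat_lit 66) (nat_lit 17) (nat_lit 5) (nat_lit 1190) c7_4356_0
 Tr.lf Tr.lf)) (Tr.nd (nat_lit 69) (nat_lit 15) (nat_lit 1) (nat_lit 1510) c7_4356_0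
 (Tr.nd (nat_lit 68) (nat_lit 24) (nat_lit 5) (nat_lit 1390) c7_4356_0
 Tr.lf Tr.lf) Tr.lf)) (Tr.nd (nat_lit 99) (nat_lit 1) (nat_lit 7) (nat_lit 1705) c7_4356_0
 (Tr.nd (nat_lit 75) (nat_lit 75) (nat_lit 1) (nat_lit 1623) c7_4356_0
 (Tr.nd (nat_lit 74) (nat_lit 61) (nat_lit 1) (nat_lit 1562) c7_4356_0
 Tr.lf Tr.lf) (Tr.nd (nat_lit 76) (nat_lit 7) (nat_lit 1) (nat_lit 1698) c7_4356_0
 Tr.lf Tr.lf)) (Tr.nd (nat_lit 101) (nat_lit 2) (nat_lit 5) (nat_lit 1726) c7_4356_0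
 (Tr.nd (nat_lit 100) (nat_lit 2) (nat_lit 7) (nat_lit 1712) c7_4356_0
 Tr.lf Tr.lf) Tr.lf))) (Tr.nd (nat_lit 110) (nat_lit 24) (nat_lit 1) (nat_lit 1865) c7_4356_0
 (Tr.nd (nat_lit 107) (nat_lit 10) (nat_lit 3) (nat_lit 1755) c7_4356_0
 (Tr.nd (nat_lit 105) (nat_lit 1) (nat_lit 1) (nat_lit 1744) c7_4356_0
 (Tr.nd (nat_lit 103) (nat_lit 2) (nat_lit 1) (nat_lit 1742) c7_4356_0
 Tr.lf Tr.lf) (Tr.nd (nat_lit 106) (nat_lit 5) (nat_lit 2) (nat_lit 1745) c7_4356_0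
 Tr.lf Tr.lf)) (Tr.nd (nat_lit 109) (nat_lit 23) (nat_lit 2) (nat_lit 1819) c7_4356_0
 (Tr.nd (nat_lit 108) (nat_lit 17) (nat_lit 2) (nat_lit 1785) c7_4356_0
 Tr.lf Tr.lf) Tr.lf)) (Tr.nd (nat_lit 118) (nat_lit 11) (nat_lit 1) (nat_lit 2168) c7_4356_0
 (Tr.nd (nat_lit 116) (nat_lit 100) (nat_lit 1) (nat_lit 1952) c7_4356_0
 (Tr.nd (nat_lit 115) (nat_lit 63) (nat_lit 1) (nat_lit 1889) c7_4356_0
 Tr.lf Tr.lf) (Tr.nd (nat_lit 117) (nat_lit 116) (nat_lit 1) (nat_lit 2052) c7_4356_0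
 Tr.lf Tr.lf)) (Tr.nd (nat_lit 125) (nat_lit 6) (nat_lit 1) (nat_lit 2240) c7_4356_0
 (Tr.nd (nat_lit 124) (nat_lit 61) (nat_lit 1) (nat_lit 2179) c7_4356_0
 Tr.lf Tr.lf) Tr.lf)))))

noncomputable def c7_4353_0 : List Nat := [(nat_lit 0x2ebac1201a80300001b000000100000014a18801a040480000134d2e1b6a61164b0b532523451009783c018b46d5711c59066a09512830a496a403202158acc3743b4015cdb552dc2caf509161d8368a4394595190708af532cc40972914d1380e5b20b24ab84dac159c61418b59079981dd12c164f355a1430328359a5a5b9ac544931b06173db361926ca8ece902188620966d686d542314623ab30b4536190f6302aacd31283c6a294da9b9800000006d50e05020b068c4986bc4390012a0006b6480cd294384c0128982dc70381a2f34d1ca41abb0b75034074079cc706ddae462b9426add85bab40804257366dd228b290a896a140032640b56e1a23970cdc38ba2e4e820b86cb991a8386aab8cd49d366ac0000000000000000024288003c05702773899b614198f3693524d9d9a278b0cd08d620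7800000000000000000138e5c025500b220b68ba5db084e6a0e404149086b006c043066bcf5072b29818b76463b8c081db5cf073589c9162262d2a240b626898a0c6a0b05a7b1ade203ad23a57512d224083426368000000005a1180f30b0c5ad7088db0866868c0000000288e490107629eb4ea6bc698dc369650d99376a6e0000048b1a36719601a541438f320545a0a1735826408c752415aa81d8aa42904a71b66e92603359c2892db8510808d849e1a33ac32574808bcd6ab06e998665d6141820e2ad40ae78c9585051ae2d0a58196ab0a681b175e5001b01498a922001c0d3890c596135746e676008d774006324356da44eb603619051b1b48331acd1555c311702f594c64115ad456718de1ac70531bb90909600885c94464594526b4b7aa4080400180c221e1400000320106800d02d80000490024004800002008c04638d90d448000000000000002c45b854c0001219a18016291838d26320027382839500946b54d9a24559b0789db4aaa04bc038eac91a4d244c962484f10dcade28906400d7b156524b0ded9ea3094e920aa5d1b36cd2e116018a13a9e6b21929ab10bcc2c99c220e3c8876931d496416cb111a9a2916b003a586e7418c2c2aca2c6453612b0ca42e74000000000403018000002000500660000600020b0000000000000001000000000c0090000000002001400036c359a6800000480213001c11a00000008000006c00006005c04825d75)]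
noncomputable def T7_4353 : Op := Op.mk (nat_lit 217)
 (Tr.nd (nat_lit 63) (nat_lit 1) (nat_lit 2) (nat_lit 1098) c7_4353_0
 (Tr.nd (nat_lit 24) (nat_lit 4) (nat_lit 3) (nat_lit 502) c7_4353_0
 (Tr.nd (nat_lit 16) (nat_lit 2) (nat_lit 23) (nat_lit 381) c7_4353_0
 (Tr.nd (nat_lit 8) (nat_lit 1) (nat_lit 116) (nat_lit 78) c7_4353_0
 (Tr.nd (nat_lit 1) (nat_lit 1) (nat_lit 61) (nat_lit 6) c7_4353_0
 (Tr.nd (nat_lit 0) (nat_lit 1) (nat_lit 6) (nat_lit 0) c7_4353_0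
 Tr.lf Tr.lf) (Tr.nd (nat_lit 7) (nat_lit 1) (nat_lit 11) (nat_lit 67) c7_4353_0
 Tr.lf Tr.lf)) (Tr.nd (nat_lit 10) (nat_lit 1) (nat_lit 63) (nat_lit 294) c7_4353_0
 (Tr.nd (nat_lit 9) (nat_lit 1) (nat_lit 100) (nat_lit 194) c7_4353_0
 Tr.lf Tr.lf) (Tr.nd (nat_lit 15) (nat_lit 1) (nat_lit 24) (nat_lit 357) c7_4353_0
 Tr.lf Tr.lf))) (Tr.nd (nat_lit 20) (nat_lit 1) (nat_lit 1) (nat_lit 493) c7_4353_0
 (Tr.nd (nat_lit 18) (nat_lit 2) (nat_lit 11) (nat_lit 461) c7_4353_0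
 (Tr.nd (nat_lit 17) (nat_lit 2) (nat_lit 17) (nat_lit 427) c7_4353_0
 Tr.lf Tr.lf) (Tr.nd (nat_lit 19) (nat_lit 2) (nat_lit 5) (nat_lit 483) c7_4353_0
 Tr.lf Tr.lf)) (Tr.nd (nat_lit 23) (nat_lit 2) (nat_lit 3) (nat_lit 496) c7_4353_0
 (Tr.nd (nat_lit 22) (nat_lit 1) (nat_lit 2) (nat_lit 494) c7_4353_0
 Tr.lf Tr.lf) Tr.lf))) (Tr.nd (nat_lit 56) (nat_lit 1) (nat_lit 15) (nat_lit 731) c7_4353_0
 (Tr.nd (nat_lit 50) (nat_lit 1) (nat_lit 75) (nat_lit 558) c7_4353_0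
 (Tr.nd (nat_lit 26) (nat_lit 7) (nat_lit 1) (nat_lit 544) c7_4353_0
 (Tr.nd (nat_lit 25) (nat_lit 6) (nat_lit 5) (nat_lit 514) c7_4353_0
 Tr.lf Tr.lf) (Tr.nd (nat_lit 49) (nat_lit 1) (nat_lit 7) (nat_lit 551) c7_4353_0
 Tr.lf Tr.lf)) (Tr.nd (nat_lit 52) (nat_lit 1) (nat_lit 37) (nat_lit 694) c7_4353_0
 (Tr.nd (nat_lit 51) (nat_lit 1) (nat_lit 61) (nat_lit 633) c7_4353_0
 Tr.lf Tr.lf) Tr.lf)) (Tr.nd (nat_lit 60) (nat_lit 5) (nat_lit 11) (nat_lit 1021) c7_4353_0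
 (Tr.nd (nat_lit 58) (nat_lit 5) (nat_lit 23) (nat_lit 821) c7_4353_0
 (Tr.nd (nat_lit 57) (nat_lit 3) (nat_lit 25) (nat_lit 746) c7_4353_0
 Tr.lf Tr.lf) (Tr.nd (nat_lit 59) (nat_lit 5) (nat_lit 17) (nat_lit 936) c7_4353_0
 Tr.lf Tr.lf)) (Tr.nd (nat_lit 62) (nat_lit 2) (nat_lit 1) (nat_lit 1096) c7_4353_0
 (Tr.nd (nat_lit 61) (nat_lit 4) (nat_lit 5) (nat_lit 1076) c7_4353_0
 Tr.lf Tr.lf) Tr.lf)))) (Tr.nd (nat_lit 102) (nat_lit 2) (nat_lit 3) (nat_lit 1736) c7_4353_0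
 (Tr.nd (nat_lit 73) (nat_lit 37) (nat_lit 1) (nat_lit 1525) c7_4353_0
 (Tr.nd (nat_lit 67) (nat_lit 23) (nat_lit 5) (nat_lit 1275) c7_4353_0
 (Tr.nd (nat_lit 65) (nat_lit 10) (nat_lit 7) (nat_lit 1120) c7_4353_0
 (Tr.nd (nat_lit 64) (nat_lit 5) (nat_lit 4) (nat_lit 1100) c7_4353_0
 Tr.lf Tr.lf) (Tr.nd (nat_lit 66) (nat_lit 17) (nat_lit 5) (nat_lit 1190) c7_4353_0
 Tr.lf Tr.lf)) (Tr.nd (nat_lit 69) (nat_lit 15) (nat_lit 1) (nat_lit 1510) c7_4353_0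
 (Tr.nd (nat_lit 68) (nat_lit 24) (nat_lit 5) (nat_lit 1390) c7_4353_0
 Tr.lf Tr.lf) Tr.lf)) (Tr.nd (nat_lit 99) (nat_lit 1) (nat_lit 7) (nat_lit 1705) c7_4353_0
 (Tr.nd (nat_lit 75) (nat_lit 75) (nat_lit 1) (nat_lit 1623) c7_4353_0
 (Tr.nd (nat_lit 74) (nat_lit 61) (nat_lit 1) (nat_lit 1562) c7_4353_0
 Tr.lf Tr.lf) (Tr.nd (nat_lit 76) (nat_lit 7) (nat_lit 1) (nat_lit 1698) c7_4353_0
 Tr.lf Tr.lf)) (Tr.nd (nat_lit 101) (nat_lit 2) (nat_lit 5) (nat_lit 1726) c7_4353_0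
 (Tr.nd (nat_lit 100) (nat_lit 2) (nat_lit 7) (nat_lit 1712) c7_4353_0
 Tr.lf Tr.lf) Tr.lf))) (Tr.nd (nat_lit 110) (nat_lit 24) (nat_lit 1) (nat_lit 1865) c7_4353_0
 (Tr.nd (nat_lit 107) (nat_lit 10) (nat_lit 3) (nat_lit 1755) c7_4353_0
 (Tr.nd (nat_lit 105) (nat_lit 1) (nat_lit 1) (nat_lit 1744) c7_4353_0
 (Tr.nd (nat_lit 103) (nat_lit 2) (nat_lit 1) (nat_lit 1742) c7_4353_0
 Tr.lf Tr.lf) (Tr.nd (nat_lit 106) (nat_lit 5) (nat_lit 2) (nat_lit 1745) c7_4353_0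
 Tr.lf Tr.lf)) (Tr.nd (nat_lit 109) (nat_lit 23) (nat_lit 2) (nat_lit 1819) c7_4353_0
 (Tr.nd (nat_lit 108) (nat_lit 17) (nat_lit 2) (nat_lit 1785) c7_4353_0
 Tr.lf Tr.lf) Tr.lf)) (Tr.nd (nat_lit 118) (nat_lit 11) (nat_lit 1) (nat_lit 2168) c7_4353_0
 (Tr.nd (nat_lit 116) (nat_lit 100) (nat_lit 1) (nat_lit 1952) c7_4353_0
 (Tr.nd (nat_lit 115) (nat_lit 63) (nat_lit 1) (nat_lit 1889) c7_4353_0
 Tr.lf Tr.lf) (Tr.nd (nat_lit 117) (nat_lit 116) (nat_lit 1) (nat_lit 2052) c7_4353_0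
 Tr.lf Tr.lf)) (Tr.nd (nat_lit 125) (nat_lit 6) (nat_lit 1) (nat_lit 2240) c7_4353_0
 (Tr.nd (nat_lit 124) (nat_lit 61) (nat_lit 1) (nat_lit 2179) c7_4353_0
 Tr.lf Tr.lf) Tr.lf)))))

noncomputable def c7_4113_0 : List Nat := [(nat_lit 0x33cf6ca00480280000e80100060000001191a002110038000016594e3ae62e246131c31b84c89da1405d96c2b453351d056982430a3700c70d8000ca1908a28d6030e44adcab05c5020895564db3300698e6912c8d74c86e2ca835a89d208e82538e6a48465183202d2ec0d2c816924d1b0aae482600a890dc529789029361db541d4d2ad31549aa4b1cab4504de3206b61096f302678150c68c726321c22c6b7a5966d9e6048a2ab3429a16d90000000021ce39814c4136d0ea958eda8072d01579d88025d5339945a5cb48cd259655709d4061d46c7628a1b1e4452f4a30cd17a37826e5264788c1096cc948b580e58c83510eaf18c62db60236cb8a90d12aac50556686c1799093b8616589186a8b1261796c8000000000000000000ec98298b6875660000029222ec917a120b58d61e7731ae62e471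8c0000000000000000015d02311371688155a498834520419a281970dd358898c06065599a331c4b438a275749d522c2b5289e8ccc74c55476462588a6658138acab053922584b31d904042a60681809596ee49a800000000b6ed0e4aa0ea6d5489113b3576c9b200000002896178d4924030d9c4e11016805acc204299a4420000a192eb538ca5454f6cc394ac5576e35552d9811460b650a1401b568c4c12a11b4416c668f04f1c6220c7a222a916a952b3b11a73a660215334ecc71d4148c41254921444968a801099844525b1b96acd9c29b19c6132e8f5c6069245a5800032cab8554664b4810428015283ae08569e14660ec736eacee0b62e609654c66254c294b28c356902f321b14ba88a1d560a644759694036d9c1c39dc60b84872c44b94896968025a50d5d440000008b520c0b6ab60005a1e01b6032ad16ab5186e189a5c996b32000000000000024b8b49c380032b5c4c076556d5328ed206d1c6c9186820ca25a2175cb6b6cda60196338a28e53b4d8465c2e1cd10d1098844d9c302d1c87368229d58e495d22a1a7526ab0aed8ca4d009ccd8a36095400d04b5546c2924da016691b5990058c2c28137471a24570498956e111675321ae959293470d20685b6b2a89400000000003010100000028002006c000060034060000000000000000c0000000180080000000002005a003b5c71b2ca00000c4080c004c0b8000000300020056000050012045b679e)]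
noncomputable def T7_4113 : Op := Op.mk (nat_lit 217)
 (Tr.nd (nat_lit 63) (nat_lit 1) (nat_lit 2) (nat_lit 1098) c7_4113_0
 (Tr.nd (nat_lit 24) (nat_lit 4) (nat_lit 3) (nat_lit 502) c7_4113_0
 (Tr.nd (nat_lit 16) (nat_lit 2) (nat_lit 23) (nat_lit 381) c7_4113_0
 (Tr.nd (nat_lit 8) (nat_lit 1) (nat_lit 116) (nat_lit 78) c7_4113_0
 (Tr.nd (nat_lit 1) (nat_lit 1) (nat_lit 61) (nat_lit 6) c7_4113_0
 (Tr.nd (nat_lit 0) (nat_lit 1) (nat_lit 6) (nat_lit 0) c7_4113_0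
 Tr.lf Tr.lf) (Tr.nd (nat_lit 7) (nat_lit 1) (nat_lit 11) (nat_lit 67) c7_4113_0
 Tr.lf Tr.lf)) (Tr.nd (nat_lit 10) (nat_lit 1) (nat_lit 63) (nat_lit 294) c7_4113_0
 (Tr.nd (nat_lit 9) (nat_lit 1) (nat_lit 100) (nat_lit 194) c7_4113_0
 Tr.lf Tr.lf) (Tr.nd (nat_lit 15) (nat_lit 1) (nat_lit 24) (nat_lit 357) c7_4113_0
 Tr.lf Tr.lf))) (Tr.nd (nat_lit 20) (nat_lit 1) (nat_lit 1) (nat_lit 493) c7_4113_0
 (Tr.nd (nat_lit 18) (nat_lit 2) (nat_lit 11) (nat_lit 461) c7_4113_0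
 (Tr.nd (nat_lit 17) (nat_lit 2) (nat_lit 17) (nat_lit 427) c7_4113_0
 Tr.lf Tr.lf) (Tr.nd (nat_lit 19) (nat_lit 2) (nat_lit 5) (nat_lit 483) c7_4113_0
 Tr.lf Tr.lf)) (Tr.nd (nat_lit 23) (nat_lit 2) (nat_lit 3) (nat_lit 496) c7_4113_0
 (Tr.nd (nat_lit 22) (nat_lit 1) (nat_lit 2) (nat_lit 494) c7_4113_0
 Tr.lf Tr.lf) Tr.lf))) (Tr.nd (nat_lit 56) (nat_lit 1) (nat_lit 15) (nat_lit 731) c7_4113_0
 (Tr.nd (nat_lit 50) (nat_lit 1) (nat_lit 75) (nat_lit 558) c7_4113_0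
 (Tr.nd (nat_lit 26) (nat_lit 7) (nat_lit 1) (nat_lit 544) c7_4113_0
 (Tr.nd (nat_lit 25) (nat_lit 6) (nat_lit 5) (nat_lit 514) c7_4113_0
 Tr.lf Tr.lf) (Tr.nd (nat_lit 49) (nat_lit 1) (nat_lit 7) (nat_lit 551) c7_4113_0
 Tr.lf Tr.lf)) (Tr.nd (nat_lit 52) (nat_lit 1) (nat_lit 37) (nat_lit 694) c7_4113_0
 (Tr.nd (nat_lit 51) (nat_lit 1) (nat_lit 61) (nat_lit 633) c7_4113_0
 Tr.lf Tr.lf) Tr.lf)) (Tr.nd (nat_lit 60) (nat_lit 5) (nat_lit 11) (nat_lit 1021) c7_4113_0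
 (Tr.nd (nat_lit 58) (nat_lit 5) (nat_lit 23) (nat_lit 821) c7_4113_0
 (Tr.nd (nat_lit 57) (nat_lit 3) (nat_lit 25) (nat_lit 746) c7_4113_0
 Tr.lf Tr.lf) (Tr.nd (nat_lit 59) (nat_lit 5) (nat_lit 17) (nat_lit 936) c7_4113_0
 Tr.lf Tr.lf)) (Tr.nd (nat_lit 62) (nat_lit 2) (nat_lit 1) (nat_lit 1096) c7_4113_0
 (Tr.nd (nat_lit 61) (nat_lit 4) (nat_lit 5) (nat_lit 1076) c7_4113_0
 Tr.lf Tr.lf) Tr.lf)))) (Tr.nd (nat_lit 102) (nat_lit 2) (nat_lit 3) (nat_lit 1736) c7_4113_0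
 (Tr.nd (nat_lit 73) (nat_lit 37) (nat_lit 1) (nat_lit 1525) c7_4113_0
 (Tr.nd (nat_lit 67) (nat_lit 23) (nat_lit 5) (nat_lit 1275) c7_4113_0
 (Tr.nd (nat_lit 65) (nat_lit 10) (nat_lit 7) (nat_lit 1120) c7_4113_0
 (Tr.nd (nat_lit 64) (nat_lit 5) (nat_lit 4) (nat_lit 1100) c7_4113_0
 Tr.lf Tr.lf) (Tr.nd (nat_lit 66) (nat_lit 17) (nat_lit 5) (nat_lit 1190) c7_4113_0
 Tr.lf Tr.lf)) (Tr.nd (nat_lit 69) (nat_lit 15) (nat_lit 1) (nat_lit 1510) c7_4113_0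
 (Tr.nd (nat_lit 68) (nat_lit 24) (nat_lit 5) (nat_lit 1390) c7_4113_0
 Tr.lf Tr.lf) Tr.lf)) (Tr.nd (nat_lit 99) (nat_lit 1) (nat_lit 7) (nat_lit 1705) c7_4113_0
 (Tr.nd (nat_lit 75) (nat_lit 75) (nat_lit 1) (nat_lit 1623) c7_4113_0
 (Tr.nd (nat_lit 74) (nat_lit 61) (nat_lit 1) (nat_lit 1562) c7_4113_0
 Tr.lf Tr.lf) (Tr.nd (nat_lit 76) (nat_lit 7) (nat_lit 1) (nat_lit 1698) c7_4113_0
 Tr.lf Tr.lf)) (Tr.nd (nat_lit 101) (nat_lit 2) (nat_lit 5) (nat_lit 1726) c7_4113_0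
 (Tr.nd (nat_lit 100) (nat_lit 2) (nat_lit 7) (nat_lit 1712) c7_4113_0
 Tr.lf Tr.lf) Tr.lf))) (Tr.nd (nat_lit 110) (nat_lit 24) (nat_lit 1) (nat_lit 1865) c7_4113_0
 (Tr.nd (nat_lit 107) (nat_lit 10) (nat_lit 3) (nat_lit 1755) c7_4113_0
 (Tr.nd (nat_lit 105) (nat_lit 1) (nat_lit 1) (nat_lit 1744) c7_4113_0
 (Tr.nd (nat_lit 103) (nat_lit 2) (nat_lit 1) (nat_lit 1742) c7_4113_0
 Tr.lf Tr.lf) (Tr.nd (nat_lit 106) (nat_lit 5) (nat_lit 2) (nat_lit 1745) c7_4113_0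
 Tr.lf Tr.lf)) (Tr.nd (nat_lit 109) (nat_lit 23) (nat_lit 2) (nat_lit 1819) c7_4113_0
 (Tr.nd (nat_lit 108) (nat_lit 17) (nat_lit 2) (nat_lit 1785) c7_4113_0
 Tr.lf Tr.lf) Tr.lf)) (Tr.nd (nat_lit 118) (nat_lit 11) (nat_lit 1) (nat_lit 2168) c7_4113_0
 (Tr.nd (nat_lit 116) (nat_lit 100) (nat_lit 1) (nat_lit 1952) c7_4113_0
 (Tr.nd (nat_lit 115) (nat_lit 63) (nat_lit 1) (nat_lit 1889) c7_4113_0
 Tr.lf Tr.lf) (Tr.nd (nat_lit 117) (nat_lit 116) (nat_lit 1) (nat_lit 2052) c7_4113_0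
 Tr.lf Tr.lf)) (Tr.nd (nat_lit 125) (nat_lit 6) (nat_lit 1) (nat_lit 2240) c7_4113_0
 (Tr.nd (nat_lit 124) (nat_lit 61) (nat_lit 1) (nat_lit 2179) c7_4113_0
 Tr.lf Tr.lf) Tr.lf)))))

noncomputable def c7_8704_0 : List Nat := [(nat_lit 0xc694090194032006480210400a896203178c268302dabc19ac35b0ac982c4abaee44ea295443151726535332b24035ad06e2842746edc4935ca71b6c70db4e419c9d2533716dd06231d6096036d25a1503b4a51434a6c5659114a50349c4cd5cae5a2068204d464a9d2ca7ae30b1808a6a0a73690d41da6342e412d64b30c2a5b28e928000000048411098166194d449c96d8151340168db4daa239509d6851623a458ec468d558201300581809695502c121212a2a04078686bd9e4304b348d060929b16083ad0ab1532356d05a720694522506ea00c8a0602ba830c29135c5665aa420da2c2ad8364db04a20c6c4a0b9a40e8e1d73459ad590aa48413105b1d8ee26e109295a988cbc1365908a04cb014654d274470bae1508adb3a9689ad62c2c6da6396d38d8e924eb5b989811d48b726025917a268b2d0625c35a28a8021523369b64001205d3836b4ae009060800b15a03000830004b0016022c024234e)]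
noncomputable def T7_8704 : Op := Op.mk (nat_lit 247)
 (Tr.nd (nat_lit 49) (nat_lit 1) (nat_lit 1) (nat_lit 466) c7_8704_0
 (Tr.nd (nat_lit 24) (nat_lit 4) (nat_lit 5) (nat_lit 324) c7_8704_0
 (Tr.nd (nat_lit 10) (nat_lit 1) (nat_lit 4) (nat_lit 132) c7_8704_0
 (Tr.nd (nat_lit 7) (nat_lit 1) (nat_lit 24) (nat_lit 9) c7_8704_0
 (Tr.nd (nat_lit 1) (nat_lit 1) (nat_lit 7) (nat_lit 2) c7_8704_0
 (Tr.nd (nat_lit 0) (nat_lit 1) (nat_lit 2) (nat_lit 0) c7_8704_0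
 Tr.lf Tr.lf) Tr.lf) (Tr.nd (nat_lit 9) (nat_lit 1) (nat_lit 24) (nat_lit 108) c7_8704_0
 (Tr.nd (nat_lit 8) (nat_lit 1) (nat_lit 75) (nat_lit 33) c7_8704_0
 Tr.lf Tr.lf) Tr.lf)) (Tr.nd (nat_lit 17) (nat_lit 2) (nat_lit 5) (nat_lit 243) c7_8704_0
 (Tr.nd (nat_lit 16) (nat_lit 2) (nat_lit 23) (nat_lit 197) c7_8704_0
 (Tr.nd (nat_lit 15) (nat_lit 1) (nat_lit 61) (nat_lit 136) c7_8704_0
 Tr.lf Tr.lf) Tr.lf) (Tr.nd (nat_lit 23) (nat_lit 2) (nat_lit 17) (nat_lit 290) c7_8704_0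
 (Tr.nd (nat_lit 22) (nat_lit 1) (nat_lit 37) (nat_lit 253) c7_8704_0
 Tr.lf Tr.lf) Tr.lf))) (Tr.nd (nat_lit 38) (nat_lit 7) (nat_lit 3) (nat_lit 423) c7_8704_0
 (Tr.nd (nat_lit 31) (nat_lit 6) (nat_lit 5) (nat_lit 372) c7_8704_0
 (Tr.nd (nat_lit 30) (nat_lit 2) (nat_lit 11) (nat_lit 350) c7_8704_0
 (Tr.nd (nat_lit 25) (nat_lit 6) (nat_lit 1) (nat_lit 344) c7_8704_0
 Tr.lf Tr.lf) Tr.lf) (Tr.nd (nat_lit 37) (nat_lit 2) (nat_lit 5) (nat_lit 413) c7_8704_0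
 (Tr.nd (nat_lit 32) (nat_lit 11) (nat_lit 1) (nat_lit 402) c7_8704_0
 Tr.lf Tr.lf) Tr.lf)) (Tr.nd (nat_lit 45) (nat_lit 5) (nat_lit 1) (nat_lit 460) c7_8704_0
 (Tr.nd (nat_lit 44) (nat_lit 1) (nat_lit 1) (nat_lit 459) c7_8704_0
 (Tr.nd (nat_lit 39) (nat_lit 15) (nat_lit 1) (nat_lit 444) c7_8704_0
 Tr.lf Tr.lf) Tr.lf) (Tr.nd (nat_lit 46) (nat_lit 1) (nat_lit 1) (nat_lit 465) c7_8704_0
 Tr.lf Tr.lf)))) (Tr.nd (nat_lit 72) (nat_lit 17) (nat_lit 2) (nat_lit 616) c7_8704_0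
 (Tr.nd (nat_lit 63) (nat_lit 1) (nat_lit 11) (nat_lit 519) c7_8704_0
 (Tr.nd (nat_lit 56) (nat_lit 1) (nat_lit 15) (nat_lit 473) c7_8704_0
 (Tr.nd (nat_lit 51) (nat_lit 1) (nat_lit 1) (nat_lit 472) c7_8704_0
 (Tr.nd (nat_lit 50) (nat_lit 1) (nat_lit 5) (nat_lit 467) c7_8704_0
 Tr.lf Tr.lf) Tr.lf) (Tr.nd (nat_lit 58) (nat_lit 5) (nat_lit 2) (nat_lit 509) c7_8704_0
 (Tr.nd (nat_lit 57) (nat_lit 3) (nat_lit 7) (nat_lit 488) c7_8704_0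
 Tr.lf Tr.lf) Tr.lf)) (Tr.nd (nat_lit 70) (nat_lit 1) (nat_lit 6) (nat_lit 590) c7_8704_0
 (Tr.nd (nat_lit 65) (nat_lit 10) (nat_lit 3) (nat_lit 560) c7_8704_0
 (Tr.nd (nat_lit 64) (nat_lit 5) (nat_lit 6) (nat_lit 530) c7_8704_0
 Tr.lf Tr.lf) Tr.lf) (Tr.nd (nat_lit 71) (nat_lit 5) (nat_lit 4) (nat_lit 596) c7_8704_0
 Tr.lf Tr.lf))) (Tr.nd (nat_lit 86) (nat_lit 24) (nat_lit 1) (nat_lit 808) c7_8704_0
 (Tr.nd (nat_lit 79) (nat_lit 23) (nat_lit 2) (nat_lit 697) c7_8704_0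
 (Tr.nd (nat_lit 78) (nat_lit 5) (nat_lit 2) (nat_lit 687) c7_8704_0
 (Tr.nd (nat_lit 73) (nat_lit 37) (nat_lit 1) (nat_lit 650) c7_8704_0
 Tr.lf Tr.lf) Tr.lf) (Tr.nd (nat_lit 85) (nat_lit 4) (nat_lit 1) (nat_lit 804) c7_8704_0
 (Tr.nd (nat_lit 80) (nat_lit 61) (nat_lit 1) (nat_lit 743) c7_8704_0
 Tr.lf Tr.lf) Tr.lf)) (Tr.nd (nat_lit 94) (nat_lit 7) (nat_lit 1) (nat_lit 931) c7_8704_0
 (Tr.nd (nat_lit 88) (nat_lit 24) (nat_lit 1) (nat_lit 907) c7_8704_0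
 (Tr.nd (nat_lit 87) (nat_lit 75) (nat_lit 1) (nat_lit 832) c7_8704_0
 Tr.lf Tr.lf) Tr.lf) (Tr.nd (nat_lit 95) (nat_lit 2) (nat_lit 1) (nat_lit 938) c7_8704_0
 Tr.lf Tr.lf)))))

noncomputable def c7_8224_0 : List Nat := [(nat_lit 0x5330acd142cd95219203150246566b74ecc15325b50a06018952da87268d2608a618222159e6da1406430b654117052d8a0149a244ad223c9c0b56594a36531b230112b52e240071115a8929956b6c254a0c365bb4434c8349ad3283884d8656066c7434e610a280a422eb0098ea759ada0c95b340143d588803a2d5e8ee49598a2996c0000000ba6163b1bb566ee919a46102d2ad80884a08ca98552eb5837a2a5626a4364e372c8d97110f1288aed75940354ea616098ca320d0a90e6d3843755cb5731682759a8c365155104c76c030b230850402d710b1dd1bd6e79b2d149eb6999ecb42a20d406d76c1ad645918d461413b4025d41910145083c6998ed08c8b0f200b359754b94659a0d4cb50518c40476c55b24daa0388009d627602215b068b7122cbb908d6701b52905268114b621a822ad9060bd2091a28a410540c02c0a96298002d19ac4394b1281689b000c8a5a324223804b04aca598a69507a2)]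
noncomputable def T7_8224 : Op := Op.mk (nat_lit 247)
 (Tr.nd (nat_lit 49) (nat_lit 1) (nat_lit 1) (nat_lit 466) c7_8224_0
 (Tr.nd (nat_lit 24) (nat_lit 4) (nat_lit 5) (nat_lit 324) c7_8224_0
 (Tr.nd (nat_lit 10) (nat_lit 1) (nat_lit 4) (nat_lit 132) c7_8224_0
 (Tr.nd (nat_lit 7) (nat_lit 1) (nat_lit 24) (nat_lit 9) c7_8224_0
 (Tr.nd (nat_lit 1) (nat_lit 1) (nat_lit 7) (nat_lit 2) c7_8224_0
 (Tr.nd (nat_lit 0) (nat_lit 1) (nat_lit 2) (nat_lit 0) c7_8224_0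
 Tr.lf Tr.lf) Tr.lf) (Tr.nd (nat_lit 9) (nat_lit 1) (nat_lit 24) (nat_lit 108) c7_8224_0
 (Tr.nd (nat_lit 8) (nat_lit 1) (nat_lit 75) (nat_lit 33) c7_8224_0
 Tr.lf Tr.lf) Tr.lf)) (Tr.nd (nat_lit 17) (nat_lit 2) (nat_lit 5) (nat_lit 243) c7_8224_0
 (Tr.nd (nat_lit 16) (nat_lit 2) (nat_lit 23) (nat_lit 197) c7_8224_0
 (Tr.nd (nat_lit 15) (nat_lit 1) (nat_lit 61) (nat_lit 136) c7_8224_0
 Tr.lf Tr.lf) Tr.lf) (Tr.nd (nat_lit 23) (nat_lit 2) (nat_lit 17) (nat_lit 290) c7_8224_0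
 (Tr.nd (nat_lit 22) (nat_lit 1) (nat_lit 37) (nat_lit 253) c7_8224_0
 Tr.lf Tr.lf) Tr.lf))) (Tr.nd (nat_lit 38) (nat_lit 7) (nat_lit 3) (nat_lit 423) c7_8224_0
 (Tr.nd (nat_lit 31) (nat_lit 6) (nat_lit 5) (nat_lit 372) c7_8224_0
 (Tr.nd (nat_lit 30) (nat_lit 2) (nat_lit 11) (nat_lit 350) c7_8224_0
 (Tr.nd (nat_lit 25) (nat_lit 6) (nat_lit 1) (nat_lit 344) c7_8224_0
 Tr.lf Tr.lf) Tr.lf) (Tr.nd (nat_lit 37) (nat_lit 2) (nat_lit 5) (nat_lit 413) c7_8224_0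
 (Tr.nd (nat_lit 32) (nat_lit 11) (nat_lit 1) (nat_lit 402) c7_8224_0
 Tr.lf Tr.lf) Tr.lf)) (Tr.nd (nat_lit 45) (nat_lit 5) (nat_lit 1) (nat_lit 460) c7_8224_0
 (Tr.nd (nat_lit 44) (nat_lit 1) (nat_lit 1) (nat_lit 459) c7_8224_0
 (Tr.nd (nat_lit 39) (nat_lit 15) (nat_lit 1) (nat_lit 444) c7_8224_0
 Tr.lf Tr.lf) Tr.lf) (Tr.nd (nat_lit 46) (nat_lit 1) (nat_lit 1) (nat_lit 465) c7_8224_0
 Tr.lf Tr.lf)))) (Tr.nd (nat_lit 72) (nat_lit 17) (nat_lit 2) (nat_lit 616) c7_8224_0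
 (Tr.nd (nat_lit 63) (nat_lit 1) (nat_lit 11) (nat_lit 519) c7_8224_0
 (Tr.nd (nat_lit 56) (nat_lit 1) (nat_lit 15) (nat_lit 473) c7_8224_0
 (Tr.nd (nat_lit 51) (nat_lit 1) (nat_lit 1) (nat_lit 472) c7_8224_0
 (Tr.nd (nat_lit 50) (nat_lit 1) (nat_lit 5) (nat_lit 467) c7_8224_0
 Tr.lf Tr.lf) Tr.lf) (Tr.nd (nat_lit 58) (nat_lit 5) (nat_lit 2) (nat_lit 509) c7_8224_0
 (Tr.nd (nat_lit 57) (nat_lit 3) (nat_lit 7) (nat_lit 488) c7_8224_0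
 Tr.lf Tr.lf) Tr.lf)) (Tr.nd (nat_lit 70) (nat_lit 1) (nat_lit 6) (nat_lit 590) c7_8224_0
 (Tr.nd (nat_lit 65) (nat_lit 10) (nat_lit 3) (nat_lit 560) c7_8224_0
 (Tr.nd (nat_lit 64) (nat_lit 5) (nat_lit 6) (nat_lit 530) c7_8224_0
 Tr.lf Tr.lf) Tr.lf) (Tr.nd (nat_lit 71) (nat_lit 5) (nat_lit 4) (nat_lit 596) c7_8224_0
 Tr.lf Tr.lf))) (Tr.nd (nat_lit 86) (nat_lit 24) (nat_lit 1) (nat_lit 808) c7_8224_0
 (Tr.nd (nat_lit 79) (nat_lit 23) (nat_lit 2) (nat_lit 697) c7_8224_0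
 (Tr.nd (nat_lit 78) (nat_lit 5) (nat_lit 2) (nat_lit 687) c7_8224_0
 (Tr.nd (nat_lit 73) (nat_lit 37) (nat_lit 1) (nat_lit 650) c7_8224_0
 Tr.lf Tr.lf) Tr.lf) (Tr.nd (nat_lit 85) (nat_lit 4) (nat_lit 1) (nat_lit 804) c7_8224_0
 (Tr.nd (nat_lit 80) (nat_lit 61) (nat_lit 1) (nat_lit 743) c7_8224_0
 Tr.lf Tr.lf) Tr.lf)) (Tr.nd (nat_lit 94) (nat_lit 7) (nat_lit 1) (nat_lit 931) c7_8224_0
 (Tr.nd (nat_lit 88) (nat_lit 24) (nat_lit 1) (nat_lit 907) c7_8224_0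
 (Tr.nd (nat_lit 87) (nat_lit 75) (nat_lit 1) (nat_lit 832) c7_8224_0
 Tr.lf Tr.lf) Tr.lf) (Tr.nd (nat_lit 95) (nat_lit 2) (nat_lit 1) (nat_lit 938) c7_8224_0
 Tr.lf Tr.lf)))))

noncomputable def c7_8194_0 : List Nat := [(nat_lit 0x46ca696a95633898810332412a6393baa1b006919c2a4c2394b5b18502724a4964ab2c23d6e85b04d4eab2010ab9ccc9421d20b9db49b8c4d5425180b08186ac0a26c621022620f2d6965b269ae3798ca5433619a702e4d815a2c6075e523dae46db32321b829935b47296d1398d5ea50218cb60b2ba0b4c0514c684e84345c12e1438c00000008560854ec76222d0630ac2c03652c6db429ab923718d8a40b6eb6656a59c8806f0559a8e744991421b802dc191322ba4da20648ca0ab6d20b0b66d2d14db850dc3a949cc70344ae1794a0e650b9002a2206acac54ae85c628ccc80a0cb8b0a6638e8e90b54d6cd2008a21bb503129b3639b26b44353215a5b4ad76d2a0dc71e12a406d1978d2db2725a1d9c6e0a6921b36e59850942050ed0501dc30065030b02a9a87526daf512630225e8f546012555a580c8ba6b61870042b42dd35c80024093542d29590120cd001e4f4c2120978021427172a35334d94a)]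
noncomputable def T7_8194 : Op := Op.mk (nat_lit 247)
 (Tr.nd (nat_lit 49) (nat_lit 1) (nat_lit 1) (nat_lit 466) c7_8194_0
 (Tr.nd (nat_lit 24) (nat_lit 4) (nat_lit 5) (nat_lit 324) c7_8194_0
 (Tr.nd (nat_lit 10) (nat_lit 1) (nat_lit 4) (nat_lit 132) c7_8194_0
 (Tr.nd (nat_lit 7) (nat_lit 1) (nat_lit 24) (nat_lit 9) c7_8194_0
 (Tr.nd (nat_lit 1) (nat_lit 1) (nat_lit 7) (nat_lit 2) c7_8194_0
 (Tr.nd (nat_lit 0) (nat_lit 1) (nat_lit 2) (nat_lit 0) c7_8194_0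
 Tr.lf Tr.lf) Tr.lf) (Tr.nd (nat_lit 9) (nat_lit 1) (nat_lit 24) (nat_lit 108) c7_8194_0
 (Tr.nd (nat_lit 8) (nat_lit 1) (nat_lit 75) (nat_lit 33) c7_8194_0
 Tr.lf Tr.lf) Tr.lf)) (Tr.nd (nat_lit 17) (nat_lit 2) (nat_lit 5) (nat_lit 243) c7_8194_0
 (Tr.nd (nat_lit 16) (nat_lit 2) (nat_lit 23) (nat_lit 197) c7_8194_0
 (Tr.nd (nat_lit 15) (nat_lit 1) (nat_lit 61) (nat_lit 136) c7_8194_0
 Tr.lf Tr.lf) Tr.lf) (Tr.nd (nat_lit 23) (nat_lit 2) (nat_lit 17) (nat_lit 290) c7_8194_0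
 (Tr.nd (nat_lit 22) (nat_lit 1) (nat_lit 37) (nat_lit 253) c7_8194_0
 Tr.lf Tr.lf) Tr.lf))) (Tr.nd (nat_lit 38) (nat_lit 7) (nat_lit 3) (nat_lit 423) c7_8194_0
 (Tr.nd (nat_lit 31) (nat_lit 6) (nat_lit 5) (nat_lit 372) c7_8194_0
 (Tr.nd (nat_lit 30) (nat_lit 2) (nat_lit 11) (nat_lit 350) c7_8194_0
 (Tr.nd (nat_lit 25) (nat_lit 6) (nat_lit 1) (nat_lit 344) c7_8194_0
 Tr.lf Tr.lf) Tr.lf) (Tr.nd (nat_lit 37) (nat_lit 2) (nat_lit 5) (nat_lit 413) c7_8194_0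
 (Tr.nd (nat_lit 32) (nat_lit 11) (nat_lit 1) (nat_lit 402) c7_8194_0
 Tr.lf Tr.lf) Tr.lf)) (Tr.nd (nat_lit 45) (nat_lit 5) (nat_lit 1) (nat_lit 460) c7_8194_0
 (Tr.nd (nat_lit 44) (nat_lit 1) (nat_lit 1) (nat_lit 459) c7_8194_0
 (Tr.nd (nat_lit 39) (nat_lit 15) (nat_lit 1) (nat_lit 444) c7_8194_0
 Tr.lf Tr.lf) Tr.lf) (Tr.nd (nat_lit 46) (nat_lit 1) (nat_lit 1) (nat_lit 465) c7_8194_0
 Tr.lf Tr.lf)))) (Tr.nd (nat_lit 72) (nat_lit 17) (nat_lit 2) (nat_lit 616) c7_8194_0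
 (Tr.nd (nat_lit 63) (nat_lit 1) (nat_lit 11) (nat_lit 519) c7_8194_0
 (Tr.nd (nat_lit 56) (nat_lit 1) (nat_lit 15) (nat_lit 473) c7_8194_0
 (Tr.nd (nat_lit 51) (nat_lit 1) (nat_lit 1) (nat_lit 472) c7_8194_0
 (Tr.nd (nat_lit 50) (nat_lit 1) (nat_lit 5) (nat_lit 467) c7_8194_0
 Tr.lf Tr.lf) Tr.lf) (Tr.nd (nat_lit 58) (nat_lit 5) (nat_lit 2) (nat_lit 509) c7_8194_0
 (Tr.nd (nat_lit 57) (nat_lit 3) (nat_lit 7) (nat_lit 488) c7_8194_0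
 Tr.lf Tr.lf) Tr.lf)) (Tr.nd (nat_lit 70) (nat_lit 1) (nat_lit 6) (nat_lit 590) c7_8194_0
 (Tr.nd (nat_lit 65) (nat_lit 10) (nat_lit 3) (nat_lit 560) c7_8194_0
 (Tr.nd (nat_lit 64) (nat_lit 5) (nat_lit 6) (nat_lit 530) c7_8194_0
 Tr.lf Tr.lf) Tr.lf) (Tr.nd (nat_lit 71) (nat_lit 5) (nat_lit 4) (nat_lit 596) c7_8194_0
 Tr.lf Tr.lf))) (Tr.nd (nat_lit 86) (nat_lit 24) (nat_lit 1) (nat_lit 808) c7_8194_0
 (Tr.nd (nat_lit 79) (nat_lit 23) (nat_lit 2) (nat_lit 697) c7_8194_0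
 (Tr.nd (nat_lit 78) (nat_lit 5) (nat_lit 2) (nat_lit 687) c7_8194_0
 (Tr.nd (nat_lit 73) (nat_lit 37) (nat_lit 1) (nat_lit 650) c7_8194_0
 Tr.lf Tr.lf) Tr.lf) (Tr.nd (nat_lit 85) (nat_lit 4) (nat_lit 1) (nat_lit 804) c7_8194_0
 (Tr.nd (nat_lit 80) (nat_lit 61) (nat_lit 1) (nat_lit 743) c7_8194_0
 Tr.lf Tr.lf) Tr.lf)) (Tr.nd (nat_lit 94) (nat_lit 7) (nat_lit 1) (nat_lit 931) c7_8194_0
 (Tr.nd (nat_lit 88) (nat_lit 24) (nat_lit 1) (nat_lit 907) c7_8194_0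
 (Tr.nd (nat_lit 87) (nat_lit 75) (nat_lit 1) (nat_lit 832) c7_8194_0
 Tr.lf Tr.lf) Tr.lf) (Tr.nd (nat_lit 95) (nat_lit 2) (nat_lit 1) (nat_lit 938) c7_8194_0
 Tr.lf Tr.lf)))))

noncomputable def c7_9216_0 : List Nat := [(nat_lit 0xa00531d76000000000000076235c00000000000b558c409b893c9b6ca2d89a838d60a474791bae648968a504946154650db79dcd510856b68c2a83844b59261b34eb08a4ea01dcd30de4b20f054903634369918a3956b66f0043046c8dc5db14c46424344b56906255ca986ec3036d45599d8018a2524a6aa44822c9b012b9075b421d122e57b4254942b2e41c000655cc411600b25918a72d39321c993c6d28881dc495ac50936980e0c683408d78e7882e51b108a8284c0000000761499714d43259000000014d240ea00000000c98c1603a3b613a19b29199563862c946198a494a93db41b39a973554b2b24a84d886422d085195a2a81670a74000000622ab5a28c6c000000428920016e21ec0e9096e1453a228890715a0828054d45aac6204d574cc507214a3770d8a576b4ac3669a552c9430c289d8974e78b322d21946b14c400080f690a11c8a495d8c42922cba6cc59043453270b9c42e98e172120c18c4436926297224ead4a4822e4b42c9681d638ce1182ce1540262836280f254561448198b5098a3d61418710b9409dd21906b6baa2514204af4a8ab69186d4c356a89c24cad829902c0e8a5acea56c0860819bd93ab14702d3629d8026a198592cd869eac055a45075a7b0000000000000000000030006036005000c00180186001000c00d80020006000c30002006c03000c33c021a1000000000006b81d88000000000000dae3a2005)]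
noncomputable def T7_9216 : Op := Op.mk (nat_lit 253)
 (Tr.nd (nat_lit 49) (nat_lit 1) (nat_lit 2) (nat_lit 685) c7_9216_0
 (Tr.nd (nat_lit 23) (nat_lit 2) (nat_lit 17) (nat_lit 456) c7_9216_0
 (Tr.nd (nat_lit 15) (nat_lit 1) (nat_lit 61) (nat_lit 252) c7_9216_0
 (Tr.nd (nat_lit 8) (nat_lit 1) (nat_lit 116) (nat_lit 52) c7_9216_0
 (Tr.nd (nat_lit 1) (nat_lit 1) (nat_lit 24) (nat_lit 4) c7_9216_0
 (Tr.nd (nat_lit 0) (nat_lit 1) (nat_lit 4) (nat_lit 0) c7_9216_0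
 Tr.lf Tr.lf) (Tr.nd (nat_lit 7) (nat_lit 1) (nat_lit 24) (nat_lit 28) c7_9216_0
 Tr.lf Tr.lf)) (Tr.nd (nat_lit 10) (nat_lit 1) (nat_lit 23) (nat_lit 229) c7_9216_0
 (Tr.nd (nat_lit 9) (nat_lit 1) (nat_lit 61) (nat_lit 168) c7_9216_0
 Tr.lf Tr.lf) Tr.lf)) (Tr.nd (nat_lit 18) (nat_lit 2) (nat_lit 5) (nat_lit 421) c7_9216_0
 (Tr.nd (nat_lit 17) (nat_lit 2) (nat_lit 17) (nat_lit 387) c7_9216_0
 (Tr.nd (nat_lit 16) (nat_lit 2) (nat_lit 37) (nat_lit 313) c7_9216_0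
 Tr.lf Tr.lf) Tr.lf) (Tr.nd (nat_lit 22) (nat_lit 1) (nat_lit 23) (nat_lit 433) c7_9216_0
 (Tr.nd (nat_lit 19) (nat_lit 2) (nat_lit 1) (nat_lit 431) c7_9216_0
 Tr.lf Tr.lf) Tr.lf))) (Tr.nd (nat_lit 32) (nat_lit 11) (nat_lit 3) (nat_lit 611) c7_9216_0
 (Tr.nd (nat_lit 26) (nat_lit 7) (nat_lit 1) (nat_lit 564) c7_9216_0
 (Tr.nd (nat_lit 25) (nat_lit 6) (nat_lit 5) (nat_lit 534) c7_9216_0
 (Tr.nd (nat_lit 24) (nat_lit 4) (nat_lit 11) (nat_lit 490) c7_9216_0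
 Tr.lf Tr.lf) Tr.lf) (Tr.nd (nat_lit 31) (nat_lit 6) (nat_lit 5) (nat_lit 581) c7_9216_0
 (Tr.nd (nat_lit 30) (nat_lit 2) (nat_lit 5) (nat_lit 571) c7_9216_0
 Tr.lf Tr.lf) Tr.lf)) (Tr.nd (nat_lit 38) (nat_lit 7) (nat_lit 1) (nat_lit 661) c7_9216_0
 (Tr.nd (nat_lit 37) (nat_lit 2) (nat_lit 1) (nat_lit 659) c7_9216_0
 (Tr.nd (nat_lit 33) (nat_lit 15) (nat_lit 1) (nat_lit 644) c7_9216_0
 Tr.lf Tr.lf) Tr.lf) (Tr.nd (nat_lit 40) (nat_lit 2) (nat_lit 1) (nat_lit 683) c7_9216_0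
 (Tr.nd (nat_lit 39) (nat_lit 15) (nat_lit 1) (nat_lit 668) c7_9216_0
 Tr.lf Tr.lf) Tr.lf)))) (Tr.nd (nat_lit 67) (nat_lit 23) (nat_lit 1) (nat_lit 940) c7_9216_0
 (Tr.nd (nat_lit 58) (nat_lit 5) (nat_lit 6) (nat_lit 759) c7_9216_0
 (Tr.nd (nat_lit 52) (nat_lit 1) (nat_lit 2) (nat_lit 709) c7_9216_0
 (Tr.nd (nat_lit 51) (nat_lit 1) (nat_lit 7) (nat_lit 702) c7_9216_0
 (Tr.nd (nat_lit 50) (nat_lit 1) (nat_lit 15) (nat_lit 687) c7_9216_0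
 Tr.lf Tr.lf) Tr.lf) (Tr.nd (nat_lit 57) (nat_lit 3) (nat_lit 11) (nat_lit 726) c7_9216_0
 (Tr.nd (nat_lit 56) (nat_lit 1) (nat_lit 15) (nat_lit 711) c7_9216_0
 Tr.lf Tr.lf) Tr.lf)) (Tr.nd (nat_lit 64) (nat_lit 5) (nat_lit 6) (nat_lit 806) c7_9216_0
 (Tr.nd (nat_lit 63) (nat_lit 1) (nat_lit 7) (nat_lit 799) c7_9216_0
 (Tr.nd (nat_lit 59) (nat_lit 5) (nat_lit 2) (nat_lit 789) c7_9216_0
 Tr.lf Tr.lf) Tr.lf) (Tr.nd (nat_lit 66) (nat_lit 17) (nat_lit 2) (nat_lit 906) c7_9216_0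
 (Tr.nd (nat_lit 65) (nat_lit 10) (nat_lit 7) (nat_lit 836) c7_9216_0
 Tr.lf Tr.lf) Tr.lf))) (Tr.nd (nat_lit 79) (nat_lit 23) (nat_lit 1) (nat_lit 1144) c7_9216_0
 (Tr.nd (nat_lit 72) (nat_lit 17) (nat_lit 2) (nat_lit 975) c7_9216_0
 (Tr.nd (nat_lit 71) (nat_lit 5) (nat_lit 2) (nat_lit 965) c7_9216_0
 (Tr.nd (nat_lit 70) (nat_lit 1) (nat_lit 2) (nat_lit 963) c7_9216_0
 Tr.lf Tr.lf) Tr.lf) (Tr.nd (nat_lit 74) (nat_lit 61) (nat_lit 1) (nat_lit 1083) c7_9216_0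
 (Tr.nd (nat_lit 73) (nat_lit 37) (nat_lit 2) (nat_lit 1009) c7_9216_0
 Tr.lf Tr.lf) Tr.lf)) (Tr.nd (nat_lit 82) (nat_lit 24) (nat_lit 1) (nat_lit 1344) c7_9216_0
 (Tr.nd (nat_lit 81) (nat_lit 116) (nat_lit 1) (nat_lit 1228) c7_9216_0
 (Tr.nd (nat_lit 80) (nat_lit 61) (nat_lit 1) (nat_lit 1167) c7_9216_0
 Tr.lf Tr.lf) Tr.lf) (Tr.nd (nat_lit 89) (nat_lit 4) (nat_lit 1) (nat_lit 1392) c7_9216_0
 (Tr.nd (nat_lit 88) (nat_lit 24) (nat_lit 1) (nat_lit 1368) c7_9216_0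
 Tr.lf Tr.lf) Tr.lf)))))

noncomputable def c7_8448_0 : List Nat := [(nat_lit 0x1a4a6b1a004120492400064b51e16400a8248006b265dd2dc246c432e1543922a9b302e4c850f4608ba0150984b30502690c980120a46e0058b8098645a9902d6acc7a661e99d34d32b012293b2d9545966e4614942a25b04465cec9adb6280b5098559128930dc39162336c92575dcf0d04189211b8871216109a7543912f3c6464107530e7433190718e089944ed2091eaa6ce6731890a8b310a6e9322b4b5c735b2e119caca213825a014689aaab8c38205401a056880000000071314443389391d0000000306f456c00000002e4c6958b704b32c12e01907ae1960a9ceb0719a659341b6f351e75d7ae2440acc61ba8a622a0cb0aee1553923000e8234b10835ac4d4000374c4d422416275e3ad01cba076e09db6951b56d0632b5a0d8803ad47236e5948ad99b7847b334374a4e3c1ac8c3a6c1d78d70048b580675db1195403d400228234ac01cd58d1d696036ae5b136c402c1750ec0008eb4e20825a51324313059562e0d65bab8d4b31194365c99c55c949b1624ce2acc30e84a6dc3349a84d122b4611b40047a1c7221325165c0e519474d28127082619eaebb249697032b18d86944a4a8c26264452db7495eb0a825b0542c88391bcb28acb65691480761a69af4cc3d3385dc990009217a529d0703590a225350806ba02cc54c4d590b66d228d7b62914d9432a33c120d18cb0a87824419b4004904440928ce264b00092480120813074d930)]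
noncomputable def T7_8448 : Op := Op.mk (nat_lit 253)
 (Tr.nd (nat_lit 49) (nat_lit 1) (nat_lit 2) (nat_lit 685) c7_8448_0
 (Tr.nd (nat_lit 23) (nat_lit 2) (nat_lit 17) (nat_lit 456) c7_8448_0
 (Tr.nd (nat_lit 15) (nat_lit 1) (nat_lit 61) (nat_lit 252) c7_8448_0
 (Tr.nd (nat_lit 8) (nat_lit 1) (nat_lit 116) (nat_lit 52) c7_8448_0
 (Tr.nd (nat_lit 1) (nat_lit 1) (nat_lit 24) (nat_lit 4) c7_8448_0
 (Tr.nd (nat_lit 0) (nat_lit 1) (nat_lit 4) (nat_lit 0) c7_8448_0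
 Tr.lf Tr.lf) (Tr.nd (nat_lit 7) (nat_lit 1) (nat_lit 24) (nat_lit 28) c7_8448_0
 Tr.lf Tr.lf)) (Tr.nd (nat_lit 10) (nat_lit 1) (nat_lit 23) (nat_lit 229) c7_8448_0
 (Tr.nd (nat_lit 9) (nat_lit 1) (nat_lit 61) (nat_lit 168) c7_8448_0
 Tr.lf Tr.lf) Tr.lf)) (Tr.nd (nat_lit 18) (nat_lit 2) (nat_lit 5) (nat_lit 421) c7_8448_0
 (Tr.nd (nat_lit 17) (nat_lit 2) (nat_lit 17) (nat_lit 387) c7_8448_0
 (Tr.nd (nat_lit 16) (nat_lit 2) (nat_lit 37) (nat_lit 313) c7_8448_0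
 Tr.lf Tr.lf) Tr.lf) (Tr.nd (nat_lit 22) (nat_lit 1) (nat_lit 23) (nat_lit 433) c7_8448_0
 (Tr.nd (nat_lit 19) (nat_lit 2) (nat_lit 1) (nat_lit 431) c7_8448_0
 Tr.lf Tr.lf) Tr.lf))) (Tr.nd (nat_lit 32) (nat_lit 11) (nat_lit 3) (nat_lit 611) c7_8448_0
 (Tr.nd (nat_lit 26) (nat_lit 7) (nat_lit 1) (nat_lit 564) c7_8448_0
 (Tr.nd (nat_lit 25) (nat_lit 6) (nat_lit 5) (nat_lit 534) c7_8448_0
 (Tr.nd (nat_lit 24) (nat_lit 4) (nat_lit 11) (nat_lit 490) c7_8448_0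
 Tr.lf Tr.lf) Tr.lf) (Tr.nd (nat_lit 31) (nat_lit 6) (nat_lit 5) (nat_lit 581) c7_8448_0
 (Tr.nd (nat_lit 30) (nat_lit 2) (nat_lit 5) (nat_lit 571) c7_8448_0
 Tr.lf Tr.lf) Tr.lf)) (Tr.nd (nat_lit 38) (nat_lit 7) (nat_lit 1) (nat_lit 661) c7_8448_0
 (Tr.nd (nat_lit 37) (nat_lit 2) (nat_lit 1) (nat_lit 659) c7_8448_0
 (Tr.nd (nat_lit 33) (nat_lit 15) (nat_lit 1) (nat_lit 644) c7_8448_0
 Tr.lf Tr.lf) Tr.lf) (Tr.nd (nat_lit 40) (nat_lit 2) (nat_lit 1) (nat_lit 683) c7_8448_0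
 (Tr.nd (nat_lit 39) (nat_lit 15) (nat_lit 1) (nat_lit 668) c7_8448_0
 Tr.lf Tr.lf) Tr.lf)))) (Tr.nd (nat_lit 67) (nat_lit 23) (nat_lit 1) (nat_lit 940) c7_8448_0
 (Tr.nd (nat_lit 58) (nat_lit 5) (nat_lit 6) (nat_lit 759) c7_8448_0
 (Tr.nd (nat_lit 52) (nat_lit 1) (nat_lit 2) (nat_lit 709) c7_8448_0
 (Tr.nd (nat_lit 51) (nat_lit 1) (nat_lit 7) (nat_lit 702) c7_8448_0
 (Tr.nd (nat_lit 50) (nat_lit 1) (nat_lit 15) (nat_lit 687) c7_8448_0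
 Tr.lf Tr.lf) Tr.lf) (Tr.nd (nat_lit 57) (nat_lit 3) (nat_lit 11) (nat_lit 726) c7_8448_0
 (Tr.nd (nat_lit 56) (nat_lit 1) (nat_lit 15) (nat_lit 711) c7_8448_0
 Tr.lf Tr.lf) Tr.lf)) (Tr.nd (nat_lit 64) (nat_lit 5) (nat_lit 6) (nat_lit 806) c7_8448_0
 (Tr.nd (nat_lit 63) (nat_lit 1) (nat_lit 7) (nat_lit 799) c7_8448_0
 (Tr.nd (nat_lit 59) (nat_lit 5) (nat_lit 2) (nat_lit 789) c7_8448_0
 Tr.lf Tr.lf) Tr.lf) (Tr.nd (nat_lit 66) (nat_lit 17) (nat_lit 2) (nat_lit 906) c7_8448_0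
 (Tr.nd (nat_lit 65) (nat_lit 10) (nat_lit 7) (nat_lit 836) c7_8448_0
 Tr.lf Tr.lf) Tr.lf))) (Tr.nd (nat_lit 79) (nat_lit 23) (nat_lit 1) (nat_lit 1144) c7_8448_0
 (Tr.nd (nat_lit 72) (nat_lit 17) (nat_lit 2) (nat_lit 975) c7_8448_0
 (Tr.nd (nat_lit 71) (nat_lit 5) (nat_lit 2) (nat_lit 965) c7_8448_0
 (Tr.nd (nat_lit 70) (nat_lit 1) (nat_lit 2) (nat_lit 963) c7_8448_0
 Tr.lf Tr.lf) Tr.lf) (Tr.nd (nat_lit 74) (nat_lit 61) (nat_lit 1) (nat_lit 1083) c7_8448_0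
 (Tr.nd (nat_lit 73) (nat_lit 37) (nat_lit 2) (nat_lit 1009) c7_8448_0
 Tr.lf Tr.lf) Tr.lf)) (Tr.nd (nat_lit 82) (nat_lit 24) (nat_lit 1) (nat_lit 1344) c7_8448_0
 (Tr.nd (nat_lit 81) (nat_lit 116) (nat_lit 1) (nat_lit 1228) c7_8448_0
 (Tr.nd (nat_lit 80) (nat_lit 61) (nat_lit 1) (nat_lit 1167) c7_8448_0
 Tr.lf Tr.lf) Tr.lf) (Tr.nd (nat_lit 89) (nat_lit 4) (nat_lit 1) (nat_lit 1392) c7_8448_0
 (Tr.nd (nat_lit 88) (nat_lit 24) (nat_lit 1) (nat_lit 1368) c7_8448_0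
 Tr.lf Tr.lf) Tr.lf)))))

noncomputable def c7_8256_0 : List Nat := [(nat_lit 0xb81a85a2e0328012d60f6c4b5144d8c0e78817406408cc8c0944f314e20da419b406635db9014a8e9a44b8b040c453446562191668609547360db8f65a9a8410bc2c2693a6c54c1838c211526906d3209ed356db301a045ad35088aaf01634e64e3a11a4ccd68daa1041022388e760d5999a308c439184754c2053d088516cdab515d8ae28e11c90851c5290dd35e05ccf202a74a5a25632ecd68a72d9584270d05dc14d21544883c63a1baf3d410d152134394e45eb294c00000006dd04c0aeb8188c00000000074ed2800000000ecec598ceda35045c118f5830b80a9e85388064b8e30c18104f132a245c0db91d996b5ba8a5bc692918aa62d28067660545c829669505b5191986211b9095152a369288d2cd1b5121c8a740952d6e4cab4d79a3882682ab6a0b88249089098cb611db5c3014db11a3332ad540c2db9e17580300cd8002646bce008e870ccd601a282d4d35759322c88c2e7ad46ca5b44d8c36c570e61482a326886ae04497446ae5b556e5415664a140d72b196ae8ad1ad834a0e264c4d8a491639191b5b4b65490cc141045b259c60e0614f42ee12bc547010820854dcc9e84d28571ad1a72819d4540a9b728052216dbba6cd05a6c24d222818710c688ed313499466600009217a529d0716014628e4db6441ca48e572148692e398a93471799d2ac849348e642405a55b6e2c9e9089a8073c460da8a264ed98c99204580d45a15235)]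
noncomputable def T7_8256 : Op := Op.mk (nat_lit 253)
 (Tr.nd (nat_lit 49) (nat_lit 1) (nat_lit 2) (nat_lit 685) c7_8256_0
 (Tr.nd (nat_lit 23) (nat_lit 2) (nat_lit 17) (nat_lit 456) c7_8256_0
 (Tr.nd (nat_lit 15) (nat_lit 1) (nat_lit 61) (nat_lit 252) c7_8256_0
 (Tr.nd (nat_lit 8) (nat_lit 1) (nat_lit 116) (nat_lit 52) c7_8256_0
 (Tr.nd (nat_lit 1) (nat_lit 1) (nat_lit 24) (nat_lit 4) c7_8256_0
 (Tr.nd (nat_lit 0) (nat_lit 1) (nat_lit 4) (nat_lit 0) c7_8256_0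
 Tr.lf Tr.lf) (Tr.nd (nat_lit 7) (nat_lit 1) (nat_lit 24) (nat_lit 28) c7_8256_0
 Tr.lf Tr.lf)) (Tr.nd (nat_lit 10) (nat_lit 1) (nat_lit 23) (nat_lit 229) c7_8256_0
 (Tr.nd (nat_lit 9) (nat_lit 1) (nat_lit 61) (nat_lit 168) c7_8256_0
 Tr.lf Tr.lf) Tr.lf)) (Tr.nd (nat_lit 18) (nat_lit 2) (nat_lit 5) (nat_lit 421) c7_8256_0
 (Tr.nd (nat_lit 17) (nat_lit 2) (nat_lit 17) (nat_lit 387) c7_8256_0
 (Tr.nd (nat_lit 16) (nat_lit 2) (nat_lit 37) (nat_lit 313) c7_8256_0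
 Tr.lf Tr.lf) Tr.lf) (Tr.nd (nat_lit 22) (nat_lit 1) (nat_lit 23) (nat_lit 433) c7_8256_0
 (Tr.nd (nat_lit 19) (nat_lit 2) (nat_lit 1) (nat_lit 431) c7_8256_0
 Tr.lf Tr.lf) Tr.lf))) (Tr.nd (nat_lit 32) (nat_lit 11) (nat_lit 3) (nat_lit 611) c7_8256_0
 (Tr.nd (nat_lit 26) (nat_lit 7) (nat_lit 1) (nat_lit 564) c7_8256_0
 (Tr.nd (nat_lit 25) (nat_lit 6) (nat_lit 5) (nat_lit 534) c7_8256_0
 (Tr.nd (nat_lit 24) (nat_lit 4) (nat_lit 11) (nat_lit 490) c7_8256_0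
 Tr.lf Tr.lf) Tr.lf) (Tr.nd (nat_lit 31) (nat_lit 6) (nat_lit 5) (nat_lit 581) c7_8256_0
 (Tr.nd (nat_lit 30) (nat_lit 2) (nat_lit 5) (nat_lit 571) c7_8256_0
 Tr.lf Tr.lf) Tr.lf)) (Tr.nd (nat_lit 38) (nat_lit 7) (nat_lit 1) (nat_lit 661) c7_8256_0
 (Tr.nd (nat_lit 37) (nat_lit 2) (nat_lit 1) (nat_lit 659) c7_8256_0
 (Tr.nd (nat_lit 33) (nat_lit 15) (nat_lit 1) (nat_lit 644) c7_8256_0
 Tr.lf Tr.lf) Tr.lf) (Tr.nd (nat_lit 40) (nat_lit 2) (nat_lit 1) (nat_lit 683) c7_8256_0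
 (Tr.nd (nat_lit 39) (nat_lit 15) (nat_lit 1) (nat_lit 668) c7_8256_0
 Tr.lf Tr.lf) Tr.lf)))) (Tr.nd (nat_lit 67) (nat_lit 23) (nat_lit 1) (nat_lit 940) c7_8256_0
 (Tr.nd (nat_lit 58) (nat_lit 5) (nat_lit 6) (nat_lit 759) c7_8256_0
 (Tr.nd (nat_lit 52) (nat_lit 1) (nat_lit 2) (nat_lit 709) c7_8256_0
 (Tr.nd (nat_lit 51) (nat_lit 1) (nat_lit 7) (nat_lit 702) c7_8256_0
 (Tr.nd (nat_lit 50) (nat_lit 1) (nat_lit 15) (nat_lit 687) c7_8256_0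
 Tr.lf Tr.lf) Tr.lf) (Tr.nd (nat_lit 57) (nat_lit 3) (nat_lit 11) (nat_lit 726) c7_8256_0
 (Tr.nd (nat_lit 56) (nat_lit 1) (nat_lit 15) (nat_lit 711) c7_8256_0
 Tr.lf Tr.lf) Tr.lf)) (Tr.nd (nat_lit 64) (nat_lit 5) (nat_lit 6) (nat_lit 806) c7_8256_0
 (Tr.nd (nat_lit 63) (nat_lit 1) (nat_lit 7) (nat_lit 799) c7_8256_0
 (Tr.nd (nat_lit 59) (nat_lit 5) (nat_lit 2) (nat_lit 789) c7_8256_0
 Tr.lf Tr.lf) Tr.lf) (Tr.nd (nat_lit 66) (nat_lit 17) (nat_lit 2) (nat_lit 906) c7_8256_0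
 (Tr.nd (nat_lit 65) (nat_lit 10) (nat_lit 7) (nat_lit 836) c7_8256_0
 Tr.lf Tr.lf) Tr.lf))) (Tr.nd (nat_lit 79) (nat_lit 23) (nat_lit 1) (nat_lit 1144) c7_8256_0
 (Tr.nd (nat_lit 72) (nat_lit 17) (nat_lit 2) (nat_lit 975) c7_8256_0
 (Tr.nd (nat_lit 71) (nat_lit 5) (nat_lit 2) (nat_lit 965) c7_8256_0
 (Tr.nd (nat_lit 70) (nat_lit 1) (nat_lit 2) (nat_lit 963) c7_8256_0
 Tr.lf Tr.lf) Tr.lf) (Tr.nd (nat_lit 74) (nat_lit 61) (nat_lit 1) (nat_lit 1083) c7_8256_0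
 (Tr.nd (nat_lit 73) (nat_lit 37) (nat_lit 2) (nat_lit 1009) c7_8256_0
 Tr.lf Tr.lf) Tr.lf)) (Tr.nd (nat_lit 82) (nat_lit 24) (nat_lit 1) (nat_lit 1344) c7_8256_0
 (Tr.nd (nat_lit 81) (nat_lit 116) (nat_lit 1) (nat_lit 1228) c7_8256_0
 (Tr.nd (nat_lit 80) (nat_lit 61) (nat_lit 1) (nat_lit 1167) c7_8256_0
 Tr.lf Tr.lf) Tr.lf) (Tr.nd (nat_lit 89) (nat_lit 4) (nat_lit 1) (nat_lit 1392) c7_8256_0
 (Tr.nd (nat_lit 88) (nat_lit 24) (nat_lit 1) (nat_lit 1368) c7_8256_0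
 Tr.lf Tr.lf) Tr.lf)))))

noncomputable def c7_8208_0 : List Nat := [(nat_lit 0x2992e6d5609d60522c1016a4ad97336b2cc875a92eba06a296596899085c693175332a29acd53488dab2305d29ab38513218312a27a4d5a8f598c59688ea7436d18c1b078878db23c23085af069634256c84469ba1109b45aaeda93cad0f314c0e8c66814906c592630e93122a122596e3b6234ad410d940291716318aec30597471436275272a9658cad1c8324dc213040d5b2b12d64d08361994061083243721903526abc58993d24134c103150f3553001a19926748b40000000455ca3303ac3ccd0000000364e6ca200000000d8a5c42b16aebc63b104c255d6a48d98c0bab361a20b00744654b996b2d226d177221086910180dd09d6e75a71d6a6a60c9dd4ad88919d1ed2d6a4592d80b29ba68c5901d91a45aad35986cc242cac51aa870d9497a5028cf64c4aa10238a5473acb4c4b5cc09b4070b29377416675b8ab564702540036d2a8aa51ea9ea4c04498629a2db5680aada0281286acd6e395ca009a09266b40ce7534a90a89a62a1058c1a2d07ac014590276398c288a18eaba48de064d243530abb212d073388032ca9b35569428588889d981db1d6cb013114a13587092cec24884d0e158868798b56695b5d4ca6d02856d380c96a429c9319da10706725a730731b0870b69000b2266cdb2c266a5b034c9d2ab518a82c441b15665d755ce63b0b65233908980383586adcab552491b4ab4eb05e5937a32dd913220941a03ad0caed192d1)]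
noncomputable def T7_8208 : Op := Op.mk (nat_lit 253)
 (Tr.nd (nat_lit 49) (nat_lit 1) (nat_lit 2) (nat_lit 685) c7_8208_0
 (Tr.nd (nat_lit 23) (nat_lit 2) (nat_lit 17) (nat_lit 456) c7_8208_0
 (Tr.nd (nat_lit 15) (nat_lit 1) (nat_lit 61) (nat_lit 252) c7_8208_0
 (Tr.nd (nat_lit 8) (nat_lit 1) (nat_lit 116) (nat_lit 52) c7_8208_0
 (Tr.nd (nat_lit 1) (nat_lit 1) (nat_lit 24) (nat_lit 4) c7_8208_0
 (Tr.nd (nat_lit 0) (nat_lit 1) (nat_lit 4) (nat_lit 0) c7_8208_0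
 Tr.lf Tr.lf) (Tr.nd (nat_lit 7) (nat_lit 1) (nat_lit 24) (nat_lit 28) c7_8208_0
 Tr.lf Tr.lf)) (Tr.nd (nat_lit 10) (nat_lit 1) (nat_lit 23) (nat_lit 229) c7_8208_0
 (Tr.nd (nat_lit 9) (nat_lit 1) (nat_lit 61) (nat_lit 168) c7_8208_0
 Tr.lf Tr.lf) Tr.lf)) (Tr.nd (nat_lit 18) (nat_lit 2) (nat_lit 5) (nat_lit 421) c7_8208_0
 (Tr.nd (nat_lit 17) (nat_lit 2) (nat_lit 17) (nat_lit 387) c7_8208_0
 (Tr.nd (nat_lit 16) (nat_lit 2) (nat_lit 37) (nat_lit 313) c7_8208_0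
 Tr.lf Tr.lf) Tr.lf) (Tr.nd (nat_lit 22) (nat_lit 1) (nat_lit 23) (nat_lit 433) c7_8208_0
 (Tr.nd (nat_lit 19) (nat_lit 2) (nat_lit 1) (nat_lit 431) c7_8208_0
 Tr.lf Tr.lf) Tr.lf))) (Tr.nd (nat_lit 32) (nat_lit 11) (nat_lit 3) (nat_lit 611) c7_8208_0
 (Tr.nd (nat_lit 26) (nat_lit 7) (nat_lit 1) (nat_lit 564) c7_8208_0
 (Tr.nd (nat_lit 25) (nat_lit 6) (nat_lit 5) (nat_lit 534) c7_8208_0
 (Tr.nd (nat_lit 24) (nat_lit 4) (nat_lit 11) (nat_lit 490) c7_8208_0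
 Tr.lf Tr.lf) Tr.lf) (Tr.nd (nat_lit 31) (nat_lit 6) (nat_lit 5) (nat_lit 581) c7_8208_0
 (Tr.nd (nat_lit 30) (nat_lit 2) (nat_lit 5) (nat_lit 571) c7_8208_0
 Tr.lf Tr.lf) Tr.lf)) (Tr.nd (nat_lit 38) (nat_lit 7) (nat_lit 1) (nat_lit 661) c7_8208_0
 (Tr.nd (nat_lit 37) (nat_lit 2) (nat_lit 1) (nat_lit 659) c7_8208_0
 (Tr.nd (nat_lit 33) (nat_lit 15) (nat_lit 1) (nat_lit 644) c7_8208_0
 Tr.lf Tr.lf) Tr.lf) (Tr.nd (nat_lit 40) (nat_lit 2) (nat_lit 1) (nat_lit 683) c7_8208_0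
 (Tr.nd (nat_lit 39) (nat_lit 15) (nat_lit 1) (nat_lit 668) c7_8208_0
 Tr.lf Tr.lf) Tr.lf)))) (Tr.nd (nat_lit 67) (nat_lit 23) (nat_lit 1) (nat_lit 940) c7_8208_0
 (Tr.nd (nat_lit 58) (nat_lit 5) (nat_lit 6) (nat_lit 759) c7_8208_0
 (Tr.nd (nat_lit 52) (nat_lit 1) (nat_lit 2) (nat_lit 709) c7_8208_0
 (Tr.nd (nat_lit 51) (nat_lit 1) (nat_lit 7) (nat_lit 702) c7_8208_0
 (Tr.nd (nat_lit 50) (nat_lit 1) (nat_lit 15) (nat_lit 687) c7_8208_0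
 Tr.lf Tr.lf) Tr.lf) (Tr.nd (nat_lit 57) (nat_lit 3) (nat_lit 11) (nat_lit 726) c7_8208_0
 (Tr.nd (nat_lit 56) (nat_lit 1) (nat_lit 15) (nat_lit 711) c7_8208_0
 Tr.lf Tr.lf) Tr.lf)) (Tr.nd (nat_lit 64) (nat_lit 5) (nat_lit 6) (nat_lit 806) c7_8208_0
 (Tr.nd (nat_lit 63) (nat_lit 1) (nat_lit 7) (nat_lit 799) c7_8208_0
 (Tr.nd (nat_lit 59) (nat_lit 5) (nat_lit 2) (nat_lit 789) c7_8208_0
 Tr.lf Tr.lf) Tr.lf) (Tr.nd (nat_lit 66) (nat_lit 17) (nat_lit 2) (nat_lit 906) c7_8208_0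
 (Tr.nd (nat_lit 65) (nat_lit 10) (nat_lit 7) (nat_lit 836) c7_8208_0
 Tr.lf Tr.lf) Tr.lf))) (Tr.nd (nat_lit 79) (nat_lit 23) (nat_lit 1) (nat_lit 1144) c7_8208_0
 (Tr.nd (nat_lit 72) (nat_lit 17) (nat_lit 2) (nat_lit 975) c7_8208_0
 (Tr.nd (nat_lit 71) (nat_lit 5) (nat_lit 2) (nat_lit 965) c7_8208_0
 (Tr.nd (nat_lit 70) (nat_lit 1) (nat_lit 2) (nat_lit 963) c7_8208_0
 Tr.lf Tr.lf) Tr.lf) (Tr.nd (nat_lit 74) (nat_lit 61) (nat_lit 1) (nat_lit 1083) c7_8208_0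
 (Tr.nd (nat_lit 73) (nat_lit 37) (nat_lit 2) (nat_lit 1009) c7_8208_0
 Tr.lf Tr.lf) Tr.lf)) (Tr.nd (nat_lit 82) (nat_lit 24) (nat_lit 1) (nat_lit 1344) c7_8208_0
 (Tr.nd (nat_lit 81) (nat_lit 116) (nat_lit 1) (nat_lit 1228) c7_8208_0
 (Tr.nd (nat_lit 80) (nat_lit 61) (nat_lit 1) (nat_lit 1167) c7_8208_0
 Tr.lf Tr.lf) Tr.lf) (Tr.nd (nat_lit 89) (nat_lit 4) (nat_lit 1) (nat_lit 1392) c7_8208_0
 (Tr.nd (nat_lit 88) (nat_lit 24) (nat_lit 1) (nat_lit 1368) c7_8208_0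
 Tr.lf Tr.lf) Tr.lf)))))

noncomputable def c7_8196_0 : List Nat := [(nat_lit 0x740b8dd0b1a4c06198108883a446a8934b030e1b12a45848c94122d744d6cd0dab79842ad8d9617aa3945b01144dccca895ab1ccb599d85c85d6972ad71ae18d5531335d25b452131708d4ce012942934996568aa5b61e40998ed0018019ca5c990bac5109a3c1d6266499162e24f4baa88428c1aa89dd69a547004f0aa4cb24cb26556d11966c08382375882e4818032b14ab56dd30945930d0225068696c68c320ce888311c83341bc0000e30531934e165b28570cc3d80000000a0283022890e630000000021648a61000000026cd1d32285800665acaa1c2d171950a80835a516359450b246a30a86f5269a5115d48144456bb1c23404516ccf320168939b65d9986b3cea593c046e4718a48229ac84c3d2b281352a016f3098358aee121151b64c558856d62040e951b28c809555b4b852b5664111126391b655142205ada11184001dda3c01430201c34c4952c9418216b06590e9021a68d85c7456cba00066c27848e061415e11186c72ca2b0a1a2e794382831cac42c5a9a0c61a5548d311c02094b2e8b524e024a5b0c25af04c2711a6cd5c57085181457599a519ca424bd03ac67340a29750b48cd8f0030026c74242cc36cd453b2c26934236011e89c1a8681a2db26ba13a2a9c0003b22e893678800000000001e00388bc501448f50020004003902d8206cc3d5845b45e0060440c861ead53186259a415380d6140600f0c06930666a7502b)]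
noncomputable def T7_8196 : Op := Op.mk (nat_lit 253)
 (Tr.nd (nat_lit 49) (nat_lit 1) (nat_lit 2) (nat_lit 685) c7_8196_0
 (Tr.nd (nat_lit 23) (nat_lit 2) (nat_lit 17) (nat_lit 456) c7_8196_0
 (Tr.nd (nat_lit 15) (nat_lit 1) (nat_lit 61) (nat_lit 252) c7_8196_0
 (Tr.nd (nat_lit 8) (nat_lit 1) (nat_lit 116) (nat_lit 52) c7_8196_0
 (Tr.nd (nat_lit 1) (nat_lit 1) (nat_lit 24) (nat_lit 4) c7_8196_0
 (Tr.nd (nat_lit 0) (nat_lit 1) (nat_lit 4) (nat_lit 0) c7_8196_0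
 Tr.lf Tr.lf) (Tr.nd (nat_lit 7) (nat_lit 1) (nat_lit 24) (nat_lit 28) c7_8196_0
 Tr.lf Tr.lf)) (Tr.nd (nat_lit 10) (nat_lit 1) (nat_lit 23) (nat_lit 229) c7_8196_0
 (Tr.nd (nat_lit 9) (nat_lit 1) (nat_lit 61) (nat_lit 168) c7_8196_0
 Tr.lf Tr.lf) Tr.lf)) (Tr.nd (nat_lit 18) (nat_lit 2) (nat_lit 5) (nat_lit 421) c7_8196_0
 (Tr.nd (nat_lit 17) (nat_lit 2) (nat_lit 17) (nat_lit 387) c7_8196_0
 (Tr.nd (nat_lit 16) (nat_lit 2) (nat_lit 37) (nat_lit 313) c7_8196_0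
 Tr.lf Tr.lf) Tr.lf) (Tr.nd (nat_lit 22) (nat_lit 1) (nat_lit 23) (nat_lit 433) c7_8196_0
 (Tr.nd (nat_lit 19) (nat_lit 2) (nat_lit 1) (nat_lit 431) c7_8196_0
 Tr.lf Tr.lf) Tr.lf))) (Tr.nd (nat_lit 32) (nat_lit 11) (nat_lit 3) (nat_lit 611) c7_8196_0
 (Tr.nd (nat_lit 26) (nat_lit 7) (nat_lit 1) (nat_lit 564) c7_8196_0
 (Tr.nd (nat_lit 25) (nat_lit 6) (nat_lit 5) (nat_lit 534) c7_8196_0
 (Tr.nd (nat_lit 24) (nat_lit 4) (nat_lit 11) (nat_lit 490) c7_8196_0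
 Tr.lf Tr.lf) Tr.lf) (Tr.nd (nat_lit 31) (nat_lit 6) (nat_lit 5) (nat_lit 581) c7_8196_0
 (Tr.nd (nat_lit 30) (nat_lit 2) (nat_lit 5) (nat_lit 571) c7_8196_0
 Tr.lf Tr.lf) Tr.lf)) (Tr.nd (nat_lit 38) (nat_lit 7) (nat_lit 1) (nat_lit 661) c7_8196_0
 (Tr.nd (nat_lit 37) (nat_lit 2) (nat_lit 1) (nat_lit 659) c7_8196_0
 (Tr.nd (nat_lit 33) (nat_lit 15) (nat_lit 1) (nat_lit 644) c7_8196_0
 Tr.lf Tr.lf) Tr.lf) (Tr.nd (nat_lit 40) (nat_lit 2) (nat_lit 1) (nat_lit 683) c7_8196_0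
 (Tr.nd (nat_lit 39) (nat_lit 15) (nat_lit 1) (nat_lit 668) c7_8196_0
 Tr.lf Tr.lf) Tr.lf)))) (Tr.nd (nat_lit 67) (nat_lit 23) (nat_lit 1) (nat_lit 940) c7_8196_0
 (Tr.nd (nat_lit 58) (nat_lit 5) (nat_lit 6) (nat_lit 759) c7_8196_0
 (Tr.nd (nat_lit 52) (nat_lit 1) (nat_lit 2) (nat_lit 709) c7_8196_0
 (Tr.nd (nat_lit 51) (nat_lit 1) (nat_lit 7) (nat_lit 702) c7_8196_0
 (Tr.nd (nat_lit 50) (nat_lit 1) (nat_lit 15) (nat_lit 687) c7_8196_0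
 Tr.lf Tr.lf) Tr.lf) (Tr.nd (nat_lit 57) (nat_lit 3) (nat_lit 11) (nat_lit 726) c7_8196_0
 (Tr.nd (nat_lit 56) (nat_lit 1) (nat_lit 15) (nat_lit 711) c7_8196_0
 Tr.lf Tr.lf) Tr.lf)) (Tr.nd (nat_lit 64) (nat_lit 5) (nat_lit 6) (nat_lit 806) c7_8196_0
 (Tr.nd (nat_lit 63) (nat_lit 1) (nat_lit 7) (nat_lit 799) c7_8196_0
 (Tr.nd (nat_lit 59) (nat_lit 5) (nat_lit 2) (nat_lit 789) c7_8196_0
 Tr.lf Tr.lf) Tr.lf) (Tr.nd (nat_lit 66) (nat_lit 17) (nat_lit 2) (nat_lit 906) c7_8196_0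
 (Tr.nd (nat_lit 65) (nat_lit 10) (nat_lit 7) (nat_lit 836) c7_8196_0
 Tr.lf Tr.lf) Tr.lf))) (Tr.nd (nat_lit 79) (nat_lit 23) (nat_lit 1) (nat_lit 1144) c7_8196_0
 (Tr.nd (nat_lit 72) (nat_lit 17) (nat_lit 2) (nat_lit 975) c7_8196_0
 (Tr.nd (nat_lit 71) (nat_lit 5) (nat_lit 2) (nat_lit 965) c7_8196_0
 (Tr.nd (nat_lit 70) (nat_lit 1) (nat_lit 2) (nat_lit 963) c7_8196_0
 Tr.lf Tr.lf) Tr.lf) (Tr.nd (nat_lit 74) (nat_lit 61) (nat_lit 1) (nat_lit 1083) c7_8196_0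
 (Tr.nd (nat_lit 73) (nat_lit 37) (nat_lit 2) (nat_lit 1009) c7_8196_0
 Tr.lf Tr.lf) Tr.lf)) (Tr.nd (nat_lit 82) (nat_lit 24) (nat_lit 1) (nat_lit 1344) c7_8196_0
 (Tr.nd (nat_lit 81) (nat_lit 116) (nat_lit 1) (nat_lit 1228) c7_8196_0
 (Tr.nd (nat_lit 80) (nat_lit 61) (nat_lit 1) (nat_lit 1167) c7_8196_0
 Tr.lf Tr.lf) Tr.lf) (Tr.nd (nat_lit 89) (nat_lit 4) (nat_lit 1) (nat_lit 1392) c7_8196_0
 (Tr.nd (nat_lit 88) (nat_lit 24) (nat_lit 1) (nat_lit 1368) c7_8196_0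
 Tr.lf Tr.lf) Tr.lf)))))

noncomputable def c7_8193_0 : List Nat := [(nat_lit 0x81769a5814a0052400c0a12c810182406480489528734c02c1d1a173c9a4d94eb58c76d74d77488e26439e529124c0068e50624baad100aa9b860ccb46b6e22ed5d4b0ca26ec490cd50101b508a2163593a2460b42aec0325520b60a664ca58114da1a00a642d3786061618ad08f2a405100aca8ac5035c2b28d96f0cb2af634aacd3312d945496104224b08b0c405e8712515a42c442c86b0d112b99da4a2d6d9e871ce2b516634d3249db250bae0571250a76cd832b500000000a5d50211d86570600000001b9695ad000000011d1162b662102696172d4209b52c40b3900764c9974c1ecd814e431518da8c28855ce4952c1206675004486e0ee07151dc68cde4e56ed8a2c9cb9e04930da03010a826ec6b36cbce408e04a19db648aa5b48310420e12c24031305286f2d43270dae1a6731351c02c5959201d0d242b906ca98908c001a624cf572932b245a2549b56608d9617a211dc4a18e46d21bcf4a9624969a70b2ad51e38ccde48e38d8c49588b034c36e4c42634d13a4ad8428c5845101831c4928e9189389b0b2f2af1cb165d93125b2564559500a200d59c09d0c3308c3369990d0053368a00cd84bd10d904aa58095d42d10a5312e9c81450bb0080a9e09295b516192aeed410000d995841bba0000000000001001465b080c241c0010002002c896880374578032d32dc0310217302bc1904804b0090c0216485018009a004680cd36b210)]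
noncomputable def T7_8193 : Op := Op.mk (nat_lit 253)
 (Tr.nd (nat_lit 49) (nat_lit 1) (nat_lit 2) (nat_lit 685) c7_8193_0
 (Tr.nd (nat_lit 23) (nat_lit 2) (nat_lit 17) (nat_lit 456) c7_8193_0
 (Tr.nd (nat_lit 15) (nat_lit 1) (nat_lit 61) (nat_lit 252) c7_8193_0
 (Tr.nd (nat_lit 8) (nat_lit 1) (nat_lit 116) (nat_lit 52) c7_8193_0
 (Tr.nd (nat_lit 1) (nat_lit 1) (nat_lit 24) (nat_lit 4) c7_8193_0
 (Tr.nd (nat_lit 0) (nat_lit 1) (nat_lit 4) (nat_lit 0) c7_8193_0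
 Tr.lf Tr.lf) (Tr.nd (nat_lit 7) (nat_lit 1) (nat_lit 24) (nat_lit 28) c7_8193_0
 Tr.lf Tr.lf)) (Tr.nd (nat_lit 10) (nat_lit 1) (nat_lit 23) (nat_lit 229) c7_8193_0
 (Tr.nd (nat_lit 9) (nat_lit 1) (nat_lit 61) (nat_lit 168) c7_8193_0
 Tr.lf Tr.lf) Tr.lf)) (Tr.nd (nat_lit 18) (nat_lit 2) (nat_lit 5) (nat_lit 421) c7_8193_0
 (Tr.nd (nat_lit 17) (nat_lit 2) (nat_lit 17) (nat_lit 387) c7_8193_0
 (Tr.nd (nat_lit 16) (nat_lit 2) (nat_lit 37) (nat_lit 313) c7_8193_0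
 Tr.lf Tr.lf) Tr.lf) (Tr.nd (nat_lit 22) (nat_lit 1) (nat_lit 23) (nat_lit 433) c7_8193_0
 (Tr.nd (nat_lit 19) (nat_lit 2) (nat_lit 1) (nat_lit 431) c7_8193_0
 Tr.lf Tr.lf) Tr.lf))) (Tr.nd (nat_lit 32) (nat_lit 11) (nat_lit 3) (nat_lit 611) c7_8193_0
 (Tr.nd (nat_lit 26) (nat_lit 7) (nat_lit 1) (nat_lit 564) c7_8193_0
 (Tr.nd (nat_lit 25) (nat_lit 6) (nat_lit 5) (nat_lit 534) c7_8193_0
 (Tr.nd (nat_lit 24) (nat_lit 4) (nat_lit 11) (nat_lit 490) c7_8193_0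
 Tr.lf Tr.lf) Tr.lf) (Tr.nd (nat_lit 31) (nat_lit 6) (nat_lit 5) (nat_lit 581) c7_8193_0
 (Tr.nd (nat_lit 30) (nat_lit 2) (nat_lit 5) (nat_lit 571) c7_8193_0
 Tr.lf Tr.lf) Tr.lf)) (Tr.nd (nat_lit 38) (nat_lit 7) (nat_lit 1) (nat_lit 661) c7_8193_0
 (Tr.nd (nat_lit 37) (nat_lit 2) (nat_lit 1) (nat_lit 659) c7_8193_0
 (Tr.nd (nat_lit 33) (nat_lit 15) (nat_lit 1) (nat_lit 644) c7_8193_0
 Tr.lf Tr.lf) Tr.lf) (Tr.nd (nat_lit 40) (nat_lit 2) (nat_lit 1) (nat_lit 683) c7_8193_0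
 (Tr.nd (nat_lit 39) (nat_lit 15) (nat_lit 1) (nat_lit 668) c7_8193_0
 Tr.lf Tr.lf) Tr.lf)))) (Tr.nd (nat_lit 67) (nat_lit 23) (nat_lit 1) (nat_lit 940) c7_8193_0
 (Tr.nd (nat_lit 58) (nat_lit 5) (nat_lit 6) (nat_lit 759) c7_8193_0
 (Tr.nd (nat_lit 52) (nat_lit 1) (nat_lit 2) (nat_lit 709) c7_8193_0
 (Tr.nd (nat_lit 51) (nat_lit 1) (nat_lit 7) (nat_lit 702) c7_8193_0
 (Tr.nd (nat_lit 50) (nat_lit 1) (nat_lit 15) (nat_lit 687) c7_8193_0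
 Tr.lf Tr.lf) Tr.lf) (Tr.nd (nat_lit 57) (nat_lit 3) (nat_lit 11) (nat_lit 726) c7_8193_0
 (Tr.nd (nat_lit 56) (nat_lit 1) (nat_lit 15) (nat_lit 711) c7_8193_0
 Tr.lf Tr.lf) Tr.lf)) (Tr.nd (nat_lit 64) (nat_lit 5) (nat_lit 6) (nat_lit 806) c7_8193_0
 (Tr.nd (nat_lit 63) (nat_lit 1) (nat_lit 7) (nat_lit 799) c7_8193_0
 (Tr.nd (nat_lit 59) (nat_lit 5) (nat_lit 2) (nat_lit 789) c7_8193_0
 Tr.lf Tr.lf) Tr.lf) (Tr.nd (nat_lit 66) (nat_lit 17) (nat_lit 2) (nat_lit 906) c7_8193_0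
 (Tr.nd (nat_lit 65) (nat_lit 10) (nat_lit 7) (nat_lit 836) c7_8193_0
 Tr.lf Tr.lf) Tr.lf))) (Tr.nd (nat_lit 79) (nat_lit 23) (nat_lit 1) (nat_lit 1144) c7_8193_0
 (Tr.nd (nat_lit 72) (nat_lit 17) (nat_lit 2) (nat_lit 975) c7_8193_0
 (Tr.nd (nat_lit 71) (nat_lit 5) (nat_lit 2) (nat_lit 965) c7_8193_0
 (Tr.nd (nat_lit 70) (nat_lit 1) (nat_lit 2) (nat_lit 963) c7_8193_0
 Tr.lf Tr.lf) Tr.lf) (Tr.nd (nat_lit 74) (nat_lit 61) (nat_lit 1) (nat_lit 1083) c7_8193_0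
 (Tr.nd (nat_lit 73) (nat_lit 37) (nat_lit 2) (nat_lit 1009) c7_8193_0
 Tr.lf Tr.lf) Tr.lf)) (Tr.nd (nat_lit 82) (nat_lit 24) (nat_lit 1) (nat_lit 1344) c7_8193_0
 (Tr.nd (nat_lit 81) (nat_lit 116) (nat_lit 1) (nat_lit 1228) c7_8193_0
 (Tr.nd (nat_lit 80) (nat_lit 61) (nat_lit 1) (nat_lit 1167) c7_8193_0
 Tr.lf Tr.lf) Tr.lf) (Tr.nd (nat_lit 89) (nat_lit 4) (nat_lit 1) (nat_lit 1392) c7_8193_0
 (Tr.nd (nat_lit 88) (nat_lit 24) (nat_lit 1) (nat_lit 1368) c7_8193_0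
 Tr.lf Tr.lf) Tr.lf)))))

noncomputable def c7_4352_0 : List Nat := [(nat_lit 0xc4ca110024000490000294090658e042a2916f14516a5174b8100a2d2828395ad43abd4a905d1374d2e4a59b9a8f08a16452f3a0cb2d069375526129c5e86a76e7a5b9955565b3044ec5881a80d9b304eab818982de4cc96d263468a6c79178d5696cb5200b675b6cc45e1a5084a038ec0db32a7400000004808500e555471d55004ac894986752a83805b2a1280a01b229741bb227639d2d25a98c9a80b98c8c6892d502c19acc1b5526bb80005120783324056522c1c2b5749aad21e4f60b30ad2536823746313b1c6ed5374b509391a117414b05b0883143211b490326d225048ac0d018694422ae0868aad4207188da64372a35e1a99036eacd516569c26db3165ed018112d9b5531acd90d423555a1a52d817007295a8216cbaaa2f5b33d6b54ccce360d22ba9348b65845799a0b31419c4f52cd9190006e40ded2b0000032d88480e29940006c56062c076361b91c6ab10024234000024800240028584e)]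
noncomputable def T7_4352 : Op := Op.mk (nat_lit 259)
 (Tr.nd (nat_lit 49) (nat_lit 1) (nat_lit 1) (nat_lit 466) c7_4352_0
 (Tr.nd (nat_lit 20) (nat_lit 1) (nat_lit 1) (nat_lit 342) c7_4352_0
 (Tr.nd (nat_lit 10) (nat_lit 1) (nat_lit 37) (nat_lit 169) c7_4352_0
 (Tr.nd (nat_lit 7) (nat_lit 1) (nat_lit 7) (nat_lit 26) c7_4352_0
 (Tr.nd (nat_lit 1) (nat_lit 1) (nat_lit 24) (nat_lit 2) c7_4352_0
 (Tr.nd (nat_lit 0) (nat_lit 1) (nat_lit 2) (nat_lit 0) c7_4352_0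
 Tr.lf Tr.lf) Tr.lf) (Tr.nd (nat_lit 9) (nat_lit 1) (nat_lit 61) (nat_lit 108) c7_4352_0
 (Tr.nd (nat_lit 8) (nat_lit 1) (nat_lit 75) (nat_lit 33) c7_4352_0
 Tr.lf Tr.lf) Tr.lf)) (Tr.nd (nat_lit 17) (nat_lit 2) (nat_lit 17) (nat_lit 276) c7_4352_0
 (Tr.nd (nat_lit 16) (nat_lit 2) (nat_lit 23) (nat_lit 230) c7_4352_0
 (Tr.nd (nat_lit 15) (nat_lit 1) (nat_lit 24) (nat_lit 206) c7_4352_0
 Tr.lf Tr.lf) Tr.lf) (Tr.nd (nat_lit 19) (nat_lit 2) (nat_lit 5) (nat_lit 332) c7_4352_0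
 (Tr.nd (nat_lit 18) (nat_lit 2) (nat_lit 11) (nat_lit 310) c7_4352_0
 Tr.lf Tr.lf) Tr.lf))) (Tr.nd (nat_lit 27) (nat_lit 5) (nat_lit 1) (nat_lit 428) c7_4352_0
 (Tr.nd (nat_lit 24) (nat_lit 4) (nat_lit 5) (nat_lit 357) c7_4352_0
 (Tr.nd (nat_lit 23) (nat_lit 2) (nat_lit 5) (nat_lit 347) c7_4352_0
 (Tr.nd (nat_lit 22) (nat_lit 1) (nat_lit 4) (nat_lit 343) c7_4352_0
 Tr.lf Tr.lf) Tr.lf) (Tr.nd (nat_lit 26) (nat_lit 7) (nat_lit 3) (nat_lit 407) c7_4352_0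
 (Tr.nd (nat_lit 25) (nat_lit 6) (nat_lit 5) (nat_lit 377) c7_4352_0
 Tr.lf Tr.lf) Tr.lf)) (Tr.nd (nat_lit 33) (nat_lit 15) (nat_lit 1) (nat_lit 450) c7_4352_0
 (Tr.nd (nat_lit 32) (nat_lit 11) (nat_lit 1) (nat_lit 439) c7_4352_0
 (Tr.nd (nat_lit 31) (nat_lit 6) (nat_lit 1) (nat_lit 433) c7_4352_0
 Tr.lf Tr.lf) Tr.lf) (Tr.nd (nat_lit 34) (nat_lit 1) (nat_lit 1) (nat_lit 465) c7_4352_0
 Tr.lf Tr.lf)))) (Tr.nd (nat_lit 64) (nat_lit 5) (nat_lit 2) (nat_lit 590) c7_4352_0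
 (Tr.nd (nat_lit 58) (nat_lit 5) (nat_lit 6) (nat_lit 525) c7_4352_0
 (Tr.nd (nat_lit 52) (nat_lit 1) (nat_lit 6) (nat_lit 493) c7_4352_0
 (Tr.nd (nat_lit 51) (nat_lit 1) (nat_lit 11) (nat_lit 482) c7_4352_0
 (Tr.nd (nat_lit 50) (nat_lit 1) (nat_lit 15) (nat_lit 467) c7_4352_0
 Tr.lf Tr.lf) Tr.lf) (Tr.nd (nat_lit 57) (nat_lit 3) (nat_lit 7) (nat_lit 504) c7_4352_0
 (Tr.nd (nat_lit 56) (nat_lit 1) (nat_lit 5) (nat_lit 499) c7_4352_0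
 Tr.lf Tr.lf) Tr.lf)) (Tr.nd (nat_lit 61) (nat_lit 4) (nat_lit 1) (nat_lit 585) c7_4352_0
 (Tr.nd (nat_lit 60) (nat_lit 5) (nat_lit 2) (nat_lit 575) c7_4352_0
 (Tr.nd (nat_lit 59) (nat_lit 5) (nat_lit 4) (nat_lit 555) c7_4352_0
 Tr.lf Tr.lf) Tr.lf) (Tr.nd (nat_lit 63) (nat_lit 1) (nat_lit 1) (nat_lit 589) c7_4352_0
 Tr.lf Tr.lf))) (Tr.nd (nat_lit 74) (nat_lit 61) (nat_lit 1) (nat_lit 771) c7_4352_0
 (Tr.nd (nat_lit 67) (nat_lit 23) (nat_lit 2) (nat_lit 664) c7_4352_0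
 (Tr.nd (nat_lit 66) (nat_lit 17) (nat_lit 2) (nat_lit 630) c7_4352_0
 (Tr.nd (nat_lit 65) (nat_lit 10) (nat_lit 3) (nat_lit 600) c7_4352_0
 Tr.lf Tr.lf) Tr.lf) (Tr.nd (nat_lit 73) (nat_lit 37) (nat_lit 1) (nat_lit 734) c7_4352_0
 (Tr.nd (nat_lit 68) (nat_lit 24) (nat_lit 1) (nat_lit 710) c7_4352_0
 Tr.lf Tr.lf) Tr.lf)) (Tr.nd (nat_lit 82) (nat_lit 24) (nat_lit 1) (nat_lit 914) c7_4352_0
 (Tr.nd (nat_lit 76) (nat_lit 7) (nat_lit 1) (nat_lit 907) c7_4352_0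
 (Tr.nd (nat_lit 75) (nat_lit 75) (nat_lit 1) (nat_lit 832) c7_4352_0
 Tr.lf Tr.lf) Tr.lf) (Tr.nd (nat_lit 83) (nat_lit 2) (nat_lit 1) (nat_lit 938) c7_4352_0
 Tr.lf Tr.lf)))))

noncomputable def c7_4112_0 : List Nat := [(nat_lit 0x5216120008000d2003a330acc59b9aaca22bb2825e02b085ac6d492166a1099806c32c662d20cd2b36b4412aaa76d068381241184a5901444e813c43c9154c64448020c435acc214a41a016318598c18ecb65406636219b0a85e914b638003080e0a5156b4c30cd18e921b450b4306199d198e9b80000000d5eaf40ae3a396cccc131888770246b1bb6eaa093198c2ea81265841c534374d12632b2c6ab65ace8bada0875953499d856cf569d56d4559126051896029ab313b9ec8caf49a18b2583b53a5bac81758e6148d1c6a65505524e198499132b82dd3232dccd0c43ab0502669330289a52ee8ac6f6d71398225334c60b2a95dc5c186a5871c76a30b1191632000d5b145a9884241d83c02b2d95c21c2cc38320520d88185db8284101280b86a29660e684c4a8802cd830209231148b6b55548299300091b0e1ad6000004d2078811b65b000902601cc082c8246a383406e950785600498004000483322)]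
noncomputable def T7_4112 : Op := Op.mk (nat_lit 259)
 (Tr.nd (nat_lit 49) (nat_lit 1) (nat_lit 1) (nat_lit 466) c7_4112_0
 (Tr.nd (nat_lit 20) (nat_lit 1) (nat_lit 1) (nat_lit 342) c7_4112_0
 (Tr.nd (nat_lit 10) (nat_lit 1) (nat_lit 37) (nat_lit 169) c7_4112_0
 (Tr.nd (nat_lit 7) (nat_lit 1) (nat_lit 7) (nat_lit 26) c7_4112_0
 (Tr.nd (nat_lit 1) (nat_lit 1) (nat_lit 24) (nat_lit 2) c7_4112_0
 (Tr.nd (nat_lit 0) (nat_lit 1) (nat_lit 2) (nat_lit 0) c7_4112_0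
 Tr.lf Tr.lf) Tr.lf) (Tr.nd (nat_lit 9) (nat_lit 1) (nat_lit 61) (nat_lit 108) c7_4112_0
 (Tr.nd (nat_lit 8) (nat_lit 1) (nat_lit 75) (nat_lit 33) c7_4112_0
 Tr.lf Tr.lf) Tr.lf)) (Tr.nd (nat_lit 17) (nat_lit 2) (nat_lit 17) (nat_lit 276) c7_4112_0
 (Tr.nd (nat_lit 16) (nat_lit 2) (nat_lit 23) (nat_lit 230) c7_4112_0
 (Tr.nd (nat_lit 15) (nat_lit 1) (nat_lit 24) (nat_lit 206) c7_4112_0
 Tr.lf Tr.lf) Tr.lf) (Tr.nd (nat_lit 19) (nat_lit 2) (nat_lit 5) (nat_lit 332) c7_4112_0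
 (Tr.nd (nat_lit 18) (nat_lit 2) (nat_lit 11) (nat_lit 310) c7_4112_0
 Tr.lf Tr.lf) Tr.lf))) (Tr.nd (nat_lit 27) (nat_lit 5) (nat_lit 1) (nat_lit 428) c7_4112_0
 (Tr.nd (nat_lit 24) (nat_lit 4) (nat_lit 5) (nat_lit 357) c7_4112_0
 (Tr.nd (nat_lit 23) (nat_lit 2) (nat_lit 5) (nat_lit 347) c7_4112_0
 (Tr.nd (nat_lit 22) (nat_lit 1) (nat_lit 4) (nat_lit 343) c7_4112_0
 Tr.lf Tr.lf) Tr.lf) (Tr.nd (nat_lit 26) (nat_lit 7) (nat_lit 3) (nat_lit 407) c7_4112_0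
 (Tr.nd (nat_lit 25) (nat_lit 6) (nat_lit 5) (nat_lit 377) c7_4112_0
 Tr.lf Tr.lf) Tr.lf)) (Tr.nd (nat_lit 33) (nat_lit 15) (nat_lit 1) (nat_lit 450) c7_4112_0
 (Tr.nd (nat_lit 32) (nat_lit 11) (nat_lit 1) (nat_lit 439) c7_4112_0
 (Tr.nd (nat_lit 31) (nat_lit 6) (nat_lit 1) (nat_lit 433) c7_4112_0
 Tr.lf Tr.lf) Tr.lf) (Tr.nd (nat_lit 34) (nat_lit 1) (nat_lit 1) (nat_lit 465) c7_4112_0
 Tr.lf Tr.lf)))) (Tr.nd (nat_lit 64) (nat_lit 5) (nat_lit 2) (nat_lit 590) c7_4112_0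
 (Tr.nd (nat_lit 58) (nat_lit 5) (nat_lit 6) (nat_lit 525) c7_4112_0
 (Tr.nd (nat_lit 52) (nat_lit 1) (nat_lit 6) (nat_lit 493) c7_4112_0
 (Tr.nd (nat_lit 51) (nat_lit 1) (nat_lit 11) (nat_lit 482) c7_4112_0
 (Tr.nd (nat_lit 50) (nat_lit 1) (nat_lit 15) (nat_lit 467) c7_4112_0
 Tr.lf Tr.lf) Tr.lf) (Tr.nd (nat_lit 57) (nat_lit 3) (nat_lit 7) (nat_lit 504) c7_4112_0
 (Tr.nd (nat_lit 56) (nat_lit 1) (nat_lit 5) (nat_lit 499) c7_4112_0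
 Tr.lf Tr.lf) Tr.lf)) (Tr.nd (nat_lit 61) (nat_lit 4) (nat_lit 1) (nat_lit 585) c7_4112_0
 (Tr.nd (nat_lit 60) (nat_lit 5) (nat_lit 2) (nat_lit 575) c7_4112_0
 (Tr.nd (nat_lit 59) (nat_lit 5) (nat_lit 4) (nat_lit 555) c7_4112_0
 Tr.lf Tr.lf) Tr.lf) (Tr.nd (nat_lit 63) (nat_lit 1) (nat_lit 1) (nat_lit 589) c7_4112_0
 Tr.lf Tr.lf))) (Tr.nd (nat_lit 74) (nat_lit 61) (nat_lit 1) (nat_lit 771) c7_4112_0
 (Tr.nd (nat_lit 67) (nat_lit 23) (nat_lit 2) (nat_lit 664) c7_4112_0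
 (Tr.nd (nat_lit 66) (nat_lit 17) (nat_lit 2) (nat_lit 630) c7_4112_0
 (Tr.nd (nat_lit 65) (nat_lit 10) (nat_lit 3) (nat_lit 600) c7_4112_0
 Tr.lf Tr.lf) Tr.lf) (Tr.nd (nat_lit 73) (nat_lit 37) (nat_lit 1) (nat_lit 734) c7_4112_0
 (Tr.nd (nat_lit 68) (nat_lit 24) (nat_lit 1) (nat_lit 710) c7_4112_0
 Tr.lf Tr.lf) Tr.lf)) (Tr.nd (nat_lit 82) (nat_lit 24) (nat_lit 1) (nat_lit 914) c7_4112_0
 (Tr.nd (nat_lit 76) (nat_lit 7) (nat_lit 1) (nat_lit 907) c7_4112_0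
 (Tr.nd (nat_lit 75) (nat_lit 75) (nat_lit 1) (nat_lit 832) c7_4112_0
 Tr.lf Tr.lf) Tr.lf) (Tr.nd (nat_lit 83) (nat_lit 2) (nat_lit 1) (nat_lit 938) c7_4112_0
 Tr.lf Tr.lf)))))

noncomputable def c7_4097_0 : List Nat := [(nat_lit 0x448030005000100005c2ca696ce4099767647864da9500ca38279a731264c9e92e46d98904b2532d09757a829e2c66962866494f52061991ad0e661482d970593a9ac49c8970e6cd850874a6c45384c0882159639045205332c805a361c6e2daa26641c952ce80b81e075c1919dc8060079124a74000000032b50a155541c9c21205279e7002cda05a3389d88aad895d2185ae6700636045b66685a91b51518eb66db12b802c062d9b552b0ae3b1226ccd8da0956de6d9610762bb4b4301d5a5250b726aba2b9a539a37191e4c8c86030743d410544c5b7371d6a5a1d148223cf0489690018c4255195232bb2e4c82f61800d474e250741780645d9ca53209c4649c3a124d4b101b8ec62282472ca8105084c68a94d98c08ca5bc6325624e4d56b21acb44883d18b702f0c01b9a24bc11c93c19cd1173bac000d890b50580000065b029818b359000d83405480c96c36331d6e03334d946a00020000a0018004a)]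
noncomputable def T7_4097 : Op := Op.mk (nat_lit 259)
 (Tr.nd (nat_lit 49) (nat_lit 1) (nat_lit 1) (nat_lit 466) c7_4097_0
 (Tr.nd (nat_lit 20) (nat_lit 1) (nat_lit 1) (nat_lit 342) c7_4097_0
 (Tr.nd (nat_lit 10) (nat_lit 1) (nat_lit 37) (nat_lit 169) c7_4097_0
 (Tr.nd (nat_lit 7) (nat_lit 1) (nat_lit 7) (nat_lit 26) c7_4097_0
 (Tr.nd (nat_lit 1) (nat_lit 1) (nat_lit 24) (nat_lit 2) c7_4097_0
 (Tr.nd (nat_lit 0) (nat_lit 1) (nat_lit 2) (nat_lit 0) c7_4097_0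
 Tr.lf Tr.lf) Tr.lf) (Tr.nd (nat_lit 9) (nat_lit 1) (nat_lit 61) (nat_lit 108) c7_4097_0
 (Tr.nd (nat_lit 8) (nat_lit 1) (nat_lit 75) (nat_lit 33) c7_4097_0
 Tr.lf Tr.lf) Tr.lf)) (Tr.nd (nat_lit 17) (nat_lit 2) (nat_lit 17) (nat_lit 276) c7_4097_0
 (Tr.nd (nat_lit 16) (nat_lit 2) (nat_lit 23) (nat_lit 230) c7_4097_0
 (Tr.nd (nat_lit 15) (nat_lit 1) (nat_lit 24) (nat_lit 206) c7_4097_0
 Tr.lf Tr.lf) Tr.lf) (Tr.nd (nat_lit 19) (nat_lit 2) (nat_lit 5) (nat_lit 332) c7_4097_0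
 (Tr.nd (nat_lit 18) (nat_lit 2) (nat_lit 11) (nat_lit 310) c7_4097_0
 Tr.lf Tr.lf) Tr.lf))) (Tr.nd (nat_lit 27) (nat_lit 5) (nat_lit 1) (nat_lit 428) c7_4097_0
 (Tr.nd (nat_lit 24) (nat_lit 4) (nat_lit 5) (nat_lit 357) c7_4097_0
 (Tr.nd (nat_lit 23) (nat_lit 2) (nat_lit 5) (nat_lit 347) c7_4097_0
 (Tr.nd (nat_lit 22) (nat_lit 1) (nat_lit 4) (nat_lit 343) c7_4097_0
 Tr.lf Tr.lf) Tr.lf) (Tr.nd (nat_lit 26) (nat_lit 7) (nat_lit 3) (nat_lit 407) c7_4097_0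
 (Tr.nd (nat_lit 25) (nat_lit 6) (nat_lit 5) (nat_lit 377) c7_4097_0
 Tr.lf Tr.lf) Tr.lf)) (Tr.nd (nat_lit 33) (nat_lit 15) (nat_lit 1) (nat_lit 450) c7_4097_0
 (Tr.nd (nat_lit 32) (nat_lit 11) (nat_lit 1) (nat_lit 439) c7_4097_0
 (Tr.nd (nat_lit 31) (nat_lit 6) (nat_lit 1) (nat_lit 433) c7_4097_0
 Tr.lf Tr.lf) Tr.lf) (Tr.nd (nat_lit 34) (nat_lit 1) (nat_lit 1) (nat_lit 465) c7_4097_0
 Tr.lf Tr.lf)))) (Tr.nd (nat_lit 64) (nat_lit 5) (nat_lit 2) (nat_lit 590) c7_4097_0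
 (Tr.nd (nat_lit 58) (nat_lit 5) (nat_lit 6) (nat_lit 525) c7_4097_0
 (Tr.nd (nat_lit 52) (nat_lit 1) (nat_lit 6) (nat_lit 493) c7_4097_0
 (Tr.nd (nat_lit 51) (nat_lit 1) (nat_lit 11) (nat_lit 482) c7_4097_0
 (Tr.nd (nat_lit 50) (nat_lit 1) (nat_lit 15) (nat_lit 467) c7_4097_0
 Tr.lf Tr.lf) Tr.lf) (Tr.nd (nat_lit 57) (nat_lit 3) (nat_lit 7) (nat_lit 504) c7_4097_0
 (Tr.nd (nat_lit 56) (nat_lit 1) (nat_lit 5) (nat_lit 499) c7_4097_0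
 Tr.lf Tr.lf) Tr.lf)) (Tr.nd (nat_lit 61) (nat_lit 4) (nat_lit 1) (nat_lit 585) c7_4097_0
 (Tr.nd (nat_lit 60) (nat_lit 5) (nat_lit 2) (nat_lit 575) c7_4097_0
 (Tr.nd (nat_lit 59) (nat_lit 5) (nat_lit 4) (nat_lit 555) c7_4097_0
 Tr.lf Tr.lf) Tr.lf) (Tr.nd (nat_lit 63) (nat_lit 1) (nat_lit 1) (nat_lit 589) c7_4097_0
 Tr.lf Tr.lf))) (Tr.nd (nat_lit 74) (nat_lit 61) (nat_lit 1) (nat_lit 771) c7_4097_0
 (Tr.nd (nat_lit 67) (nat_lit 23) (nat_lit 2) (nat_lit 664) c7_4097_0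
 (Tr.nd (nat_lit 66) (nat_lit 17) (nat_lit 2) (nat_lit 630) c7_4097_0
 (Tr.nd (nat_lit 65) (nat_lit 10) (nat_lit 3) (nat_lit 600) c7_4097_0
 Tr.lf Tr.lf) Tr.lf) (Tr.nd (nat_lit 73) (nat_lit 37) (nat_lit 1) (nat_lit 734) c7_4097_0
 (Tr.nd (nat_lit 68) (nat_lit 24) (nat_lit 1) (nat_lit 710) c7_4097_0
 Tr.lf Tr.lf) Tr.lf)) (Tr.nd (nat_lit 82) (nat_lit 24) (nat_lit 1) (nat_lit 914) c7_4097_0
 (Tr.nd (nat_lit 76) (nat_lit 7) (nat_lit 1) (nat_lit 907) c7_4097_0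
 (Tr.nd (nat_lit 75) (nat_lit 75) (nat_lit 1) (nat_lit 832) c7_4097_0
 Tr.lf Tr.lf) Tr.lf) (Tr.nd (nat_lit 83) (nat_lit 2) (nat_lit 1) (nat_lit 938) c7_4097_0
 Tr.lf Tr.lf)))))

noncomputable def c7_8192_0 : List Nat := [(nat_lit 0)]
noncomputable def T7_8192 : Op := Op.mk (nat_lit 295)
 (Tr.nd (nat_lit 24) (nat_lit 4) (nat_lit 3) (nat_lit 74) c7_8192_0
 (Tr.nd (nat_lit 15) (nat_lit 1) (nat_lit 11) (nat_lit 27) c7_8192_0
 (Tr.nd (nat_lit 8) (nat_lit 1) (nat_lit 15) (nat_lit 3) c7_8192_0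
 (Tr.nd (nat_lit 7) (nat_lit 1) (nat_lit 2) (nat_lit 1) c7_8192_0
 (Tr.nd (nat_lit 1) (nat_lit 1) (nat_lit 1) (nat_lit 0) c7_8192_0
 Tr.lf Tr.lf) Tr.lf) (Tr.nd (nat_lit 10) (nat_lit 1) (nat_lit 2) (nat_lit 25) c7_8192_0
 (Tr.nd (nat_lit 9) (nat_lit 1) (nat_lit 7) (nat_lit 18) c7_8192_0
 Tr.lf Tr.lf) Tr.lf)) (Tr.nd (nat_lit 22) (nat_lit 1) (nat_lit 6) (nat_lit 58) c7_8192_0
 (Tr.nd (nat_lit 17) (nat_lit 2) (nat_lit 3) (nat_lit 52) c7_8192_0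
 (Tr.nd (nat_lit 16) (nat_lit 2) (nat_lit 7) (nat_lit 38) c7_8192_0
 Tr.lf Tr.lf) Tr.lf) (Tr.nd (nat_lit 23) (nat_lit 2) (nat_lit 5) (nat_lit 64) c7_8192_0
 Tr.lf Tr.lf))) (Tr.nd (nat_lit 37) (nat_lit 2) (nat_lit 1) (nat_lit 139) c7_8192_0
 (Tr.nd (nat_lit 31) (nat_lit 6) (nat_lit 5) (nat_lit 98) c7_8192_0
 (Tr.nd (nat_lit 30) (nat_lit 2) (nat_lit 3) (nat_lit 92) c7_8192_0
 (Tr.nd (nat_lit 25) (nat_lit 6) (nat_lit 1) (nat_lit 86) c7_8192_0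
 Tr.lf Tr.lf) Tr.lf) (Tr.nd (nat_lit 32) (nat_lit 11) (nat_lit 1) (nat_lit 128) c7_8192_0
 Tr.lf Tr.lf)) (Tr.nd (nat_lit 40) (nat_lit 2) (nat_lit 1) (nat_lit 163) c7_8192_0
 (Tr.nd (nat_lit 39) (nat_lit 15) (nat_lit 1) (nat_lit 148) c7_8192_0
 (Tr.nd (nat_lit 38) (nat_lit 7) (nat_lit 1) (nat_lit 141) c7_8192_0
 Tr.lf Tr.lf) Tr.lf) (Tr.nd (nat_lit 46) (nat_lit 1) (nat_lit 1) (nat_lit 165) c7_8192_0
 Tr.lf Tr.lf))))

noncomputable def c7_4096_0 : List Nat := [(nat_lit 0)]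
noncomputable def T7_4096 : Op := Op.mk (nat_lit 301)
 (Tr.nd (nat_lit 22) (nat_lit 1) (nat_lit 2) (nat_lit 74) c7_4096_0
 (Tr.nd (nat_lit 15) (nat_lit 1) (nat_lit 7) (nat_lit 35) c7_4096_0
 (Tr.nd (nat_lit 8) (nat_lit 1) (nat_lit 15) (nat_lit 3) c7_4096_0
 (Tr.nd (nat_lit 7) (nat_lit 1) (nat_lit 1) (nat_lit 2) c7_4096_0
 (Tr.nd (nat_lit 1) (nat_lit 1) (nat_lit 2) (nat_lit 0) c7_4096_0
 Tr.lf Tr.lf) Tr.lf) (Tr.nd (nat_lit 10) (nat_lit 1) (nat_lit 6) (nat_lit 29) c7_4096_0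
 (Tr.nd (nat_lit 9) (nat_lit 1) (nat_lit 11) (nat_lit 18) c7_4096_0
 Tr.lf Tr.lf) Tr.lf)) (Tr.nd (nat_lit 18) (nat_lit 2) (nat_lit 3) (nat_lit 66) c7_4096_0
 (Tr.nd (nat_lit 17) (nat_lit 2) (nat_lit 5) (nat_lit 56) c7_4096_0
 (Tr.nd (nat_lit 16) (nat_lit 2) (nat_lit 7) (nat_lit 42) c7_4096_0
 Tr.lf Tr.lf) Tr.lf) (Tr.nd (nat_lit 19) (nat_lit 2) (nat_lit 1) (nat_lit 72) c7_4096_0
 Tr.lf Tr.lf))) (Tr.nd (nat_lit 31) (nat_lit 6) (nat_lit 1) (nat_lit 131) c7_4096_0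
 (Tr.nd (nat_lit 25) (nat_lit 6) (nat_lit 5) (nat_lit 94) c7_4096_0
 (Tr.nd (nat_lit 24) (nat_lit 4) (nat_lit 3) (nat_lit 82) c7_4096_0
 (Tr.nd (nat_lit 23) (nat_lit 2) (nat_lit 3) (nat_lit 76) c7_4096_0
 Tr.lf Tr.lf) Tr.lf) (Tr.nd (nat_lit 26) (nat_lit 7) (nat_lit 1) (nat_lit 124) c7_4096_0
 Tr.lf Tr.lf)) (Tr.nd (nat_lit 34) (nat_lit 1) (nat_lit 1) (nat_lit 163) c7_4096_0
 (Tr.nd (nat_lit 33) (nat_lit 15) (nat_lit 1) (nat_lit 148) c7_4096_0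
 (Tr.nd (nat_lit 32) (nat_lit 11) (nat_lit 1) (nat_lit 137) c7_4096_0
 Tr.lf Tr.lf) Tr.lf) (Tr.nd (nat_lit 40) (nat_lit 2) (nat_lit 1) (nat_lit 164) c7_4096_0
 Tr.lf Tr.lf))))

noncomputable def c7_6826_0 : List Nat := [(nat_lit 0)]
noncomputable def T7_6826 : Op := Op.mk (nat_lit 13)
 (Tr.nd (nat_lit 168) (nat_lit 4) (nat_lit 3) (nat_lit 74) c7_6826_0
 (Tr.nd (nat_lit 105) (nat_lit 1) (nat_lit 11) (nat_lit 27) c7_6826_0
 (Tr.nd (nat_lit 56) (nat_lit 1) (nat_lit 15) (nat_lit 3) c7_6826_0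
 (Tr.nd (nat_lit 49) (nat_lit 1) (nat_lit 2) (nat_lit 1) c7_6826_0
 (Tr.nd (nat_lit 7) (nat_lit 1) (nat_lit 1) (nat_lit 0) c7_6826_0
 Tr.lf Tr.lf) Tr.lf) (Tr.nd (nat_lit 70) (nat_lit 1) (nat_lit 2) (nat_lit 25) c7_6826_0
 (Tr.nd (nat_lit 63) (nat_lit 1) (nat_lit 7) (nat_lit 18) c7_6826_0
 Tr.lf Tr.lf) Tr.lf)) (Tr.nd (nat_lit 154) (nat_lit 1) (nat_lit 6) (nat_lit 58) c7_6826_0
 (Tr.nd (nat_lit 119) (nat_lit 2) (nat_lit 3) (nat_lit 52) c7_6826_0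
 (Tr.nd (nat_lit 112) (nat_lit 2) (nat_lit 7) (nat_lit 38) c7_6826_0
 Tr.lf Tr.lf) Tr.lf) (Tr.nd (nat_lit 161) (nat_lit 2) (nat_lit 5) (nat_lit 64) c7_6826_0
 Tr.lf Tr.lf))) (Tr.nd (nat_lit 259) (nat_lit 2) (nat_lit 1) (nat_lit 139) c7_6826_0
 (Tr.nd (nat_lit 217) (nat_lit 6) (nat_lit 5) (nat_lit 98) c7_6826_0
 (Tr.nd (nat_lit 210) (nat_lit 2) (nat_lit 3) (nat_lit 92) c7_6826_0
 (Tr.nd (nat_lit 175) (nat_lit 6) (nat_lit 1) (nat_lit 86) c7_6826_0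
 Tr.lf Tr.lf) Tr.lf) (Tr.nd (nat_lit 224) (nat_lit 11) (nat_lit 1) (nat_lit 128) c7_6826_0
 Tr.lf Tr.lf)) (Tr.nd (nat_lit 280) (nat_lit 2) (nat_lit 1) (nat_lit 163) c7_6826_0
 (Tr.nd (nat_lit 273) (nat_lit 15) (nat_lit 1) (nat_lit 148) c7_6826_0
 (Tr.nd (nat_lit 266) (nat_lit 7) (nat_lit 1) (nat_lit 141) c7_6826_0
 Tr.lf Tr.lf) Tr.lf) (Tr.nd (nat_lit 322) (nat_lit 1) (nat_lit 1) (nat_lit 165) c7_6826_0
 Tr.lf Tr.lf))))

end Pool.Agent.Work.MP_bde882_al.Tab
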