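import Pool.Agent.Work.MP_bde882_al_h62.Prog

/-!
Operator tables (generated): `T<degree>_<code>` is the right-normed word with the given code (base 4,
first letter lowest digit).
-/

set_option autoImplicit false

namespace Pool.Agent.Work.MP_bde882_al.Tab

open Pool.Agent.Work.MP_bde882_al.Pg62

noncomputable def c7_9898_0 : List Nat := [(nat_lit 0)]
noncomputable def T7_9898 : Op := Op.mk (nat_lit 13)
 (Tr.nd (nat_lit 168) (nat_lit 4) (nat_lit 3) (nat_lit 74) c7_9898_0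
 (Tr.nd (nat_lit 105) (nat_lit 1) (nat_lit 11) (nat_lit 27) c7_9898_0
 (Tr.nd (nat_lit 56) (nat_lit 1) (nat_lit 15) (nat_lit 3) c7_9898_0
 (Tr.nd (nat_lit 49) (nat_lit 1) (nat_lit 2) (nat_lit 1) c7_9898_0
 (Tr.nd (nat_lit 7) (nat_lit 1) (nat_lit 1) (nat_lit 0) c7_9898_0
 Tr.lf Tr.lf) Tr.lf) (Tr.nd (nat_lit 70) (nat_lit 1) (nat_lit 2) (nat_lit 25) c7_9898_0
 (Tr.nd (nat_lit 63) (nat_lit 1) (nat_lit 7) (nat_lit 18) c7_9898_0
 Tr.lf Tr.lf) Tr.lf)) (Tr.nd (nat_lit 154) (nat_lit 1) (nat_lit 6) (nat_lit 58) c7_9898_0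
 (Tr.nd (nat_lit 119) (nat_lit 2) (nat_lit 3) (nat_lit 52) c7_9898_0
 (Tr.nd (nat_lit 112) (nat_lit 2) (nat_lit 7) (nat_lit 38) c7_9898_0
 Tr.lf Tr.lf) Tr.lf) (Tr.nd (nat_lit 161) (nat_lit 2) (nat_lit 5) (nat_lit 64) c7_9898_0
 Tr.lf Tr.lf))) (Tr.nd (nat_lit 259) (nat_lit 2) (nat_lit 1) (nat_lit 139) c7_9898_0
 (Tr.nd (nat_lit 217) (nat_lit 6) (nat_lit 5) (nat_lit 98) c7_9898_0
 (Tr.nd (nat_lit 210) (nat_lit 2) (nat_lit 3) (nat_lit 92) c7_9898_0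
 (Tr.nd (nat_lit 175) (nat_lit 6) (nat_lit 1) (nat_lit 86) c7_9898_0
 Tr.lf Tr.lf) Tr.lf) (Tr.nd (nat_lit 224) (nat_lit 11) (nat_lit 1) (nat_lit 128) c7_9898_0
 Tr.lf Tr.lf)) (Tr.nd (nat_lit 280) (nat_lit 2) (nat_lit 1) (nat_lit 163) c7_9898_0
 (Tr.nd (nat_lit 273) (nat_lit 15) (nat_lit 1) (nat_lit 148) c7_9898_0
 (Tr.nd (nat_lit 266) (nat_lit 7) (nat_lit 1) (nat_lit 141) c7_9898_0
 Tr.lf Tr.lf) Tr.lf) (Tr.nd (nat_lit 322) (nat_lit 1) (nat_lit 1) (nat_lit 165) c7_9898_0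
 Tr.lf Tr.lf))))

noncomputable def c7_9897_0 : List Nat := [(nat_lit 0xbb2200020c89b160ec2f1a2060e971915d26d1032691cc1d1236b613102e886cb10256d6a9a065a75a8aa01d0418559d3884993194156da4144f3cab59b89c195aead2e085a1874370ea52745a002a168674085c0895081b2312bb414536bc6846254234398e086331a2570bca58e60ccda5a66cd8d0398ac5a9acd3550c00055ca45c9aa330966b48de6e3145dab382673bb292c39cd5cdac28d134cb2a66748cccc5284606a3841603414aa58820003155022c0ae30e4a95812a15849a1391ae6af0a519768ee8f19645b578b431776a2871b8d4db3600000006405cea7517054108427b636cce667462cd1dd24ba2c4a1a391e0214e9a206365a12559aa50a14e769a289b54a15b00622508cc02bc13311005a2b48dc6362b0c0b46d6255dab08d46f275679a8a94938506d808b2b69a5c6066232aa53c2b65365e9124e2d88596b1809275212c9a983316c55e0d1a0d3acc43105399958ca52507800015b5)]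
noncomputable def T7_9897 : Op := Op.mk (nat_lit 19)
 (Tr.nd (nat_lit 162) (nat_lit 17) (nat_lit 2) (nat_lit 474) c7_9897_0
 (Tr.nd (nat_lit 70) (nat_lit 1) (nat_lit 4) (nat_lit 185) c7_9897_0
 (Tr.nd (nat_lit 49) (nat_lit 1) (nat_lit 24) (nat_lit 16) c7_9897_0
 (Tr.nd (nat_lit 7) (nat_lit 1) (nat_lit 7) (nat_lit 3) c7_9897_0
 (Tr.nd (nat_lit 1) (nat_lit 1) (nat_lit 1) (nat_lit 2) c7_9897_0
 (Tr.nd (nat_lit 0) (nat_lit 1) (nat_lit 2) (nat_lit 0) c7_9897_0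
 Tr.lf Tr.lf) Tr.lf) (Tr.nd (nat_lit 15) (nat_lit 1) (nat_lit 1) (nat_lit 15) c7_9897_0
 (Tr.nd (nat_lit 8) (nat_lit 1) (nat_lit 5) (nat_lit 10) c7_9897_0
 Tr.lf Tr.lf) Tr.lf)) (Tr.nd (nat_lit 57) (nat_lit 3) (nat_lit 7) (nat_lit 130) c7_9897_0
 (Tr.nd (nat_lit 56) (nat_lit 1) (nat_lit 75) (nat_lit 55) c7_9897_0
 (Tr.nd (nat_lit 50) (nat_lit 1) (nat_lit 15) (nat_lit 40) c7_9897_0
 Tr.lf Tr.lf) Tr.lf) (Tr.nd (nat_lit 64) (nat_lit 5) (nat_lit 2) (nat_lit 175) c7_9897_0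
 (Tr.nd (nat_lit 63) (nat_lit 1) (nat_lit 24) (nat_lit 151) c7_9897_0
 Tr.lf Tr.lf) Tr.lf))) (Tr.nd (nat_lit 119) (nat_lit 2) (nat_lit 5) (nat_lit 367) c7_9897_0
 (Tr.nd (nat_lit 106) (nat_lit 5) (nat_lit 6) (nat_lit 261) c7_9897_0
 (Tr.nd (nat_lit 105) (nat_lit 1) (nat_lit 61) (nat_lit 200) c7_9897_0
 (Tr.nd (nat_lit 99) (nat_lit 1) (nat_lit 11) (nat_lit 189) c7_9897_0
 Tr.lf Tr.lf) Tr.lf) (Tr.nd (nat_lit 113) (nat_lit 10) (nat_lit 3) (nat_lit 337) c7_9897_0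
 (Tr.nd (nat_lit 112) (nat_lit 2) (nat_lit 23) (nat_lit 291) c7_9897_0
 Tr.lf Tr.lf) Tr.lf)) (Tr.nd (nat_lit 155) (nat_lit 5) (nat_lit 4) (nat_lit 420) c7_9897_0
 (Tr.nd (nat_lit 154) (nat_lit 1) (nat_lit 37) (nat_lit 383) c7_9897_0
 (Tr.nd (nat_lit 148) (nat_lit 1) (nat_lit 6) (nat_lit 377) c7_9897_0
 Tr.lf Tr.lf) Tr.lf) (Tr.nd (nat_lit 161) (nat_lit 2) (nat_lit 17) (nat_lit 440) c7_9897_0
 Tr.lf Tr.lf)))) (Tr.nd (nat_lit 259) (nat_lit 2) (nat_lit 5) (nat_lit 755) c7_9897_0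
 (Tr.nd (nat_lit 211) (nat_lit 23) (nat_lit 2) (nat_lit 603) c7_9897_0
 (Tr.nd (nat_lit 175) (nat_lit 6) (nat_lit 1) (nat_lit 565) c7_9897_0
 (Tr.nd (nat_lit 169) (nat_lit 37) (nat_lit 1) (nat_lit 528) c7_9897_0
 (Tr.nd (nat_lit 168) (nat_lit 4) (nat_lit 5) (nat_lit 508) c7_9897_0
 Tr.lf Tr.lf) Tr.lf) (Tr.nd (nat_lit 210) (nat_lit 2) (nat_lit 11) (nat_lit 581) c7_9897_0
 (Tr.nd (nat_lit 204) (nat_lit 5) (nat_lit 2) (nat_lit 571) c7_9897_0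
 Tr.lf Tr.lf) Tr.lf)) (Tr.nd (nat_lit 224) (nat_lit 11) (nat_lit 1) (nat_lit 740) c7_9897_0
 (Tr.nd (nat_lit 218) (nat_lit 61) (nat_lit 1) (nat_lit 679) c7_9897_0
 (Tr.nd (nat_lit 217) (nat_lit 6) (nat_lit 5) (nat_lit 649) c7_9897_0
 Tr.lf Tr.lf) Tr.lf) (Tr.nd (nat_lit 253) (nat_lit 4) (nat_lit 1) (nat_lit 751) c7_9897_0
 Tr.lf Tr.lf))) (Tr.nd (nat_lit 308) (nat_lit 1) (nat_lit 1) (nat_lit 924) c7_9897_0
 (Tr.nd (nat_lit 267) (nat_lit 75) (nat_lit 1) (nat_lit 810) c7_9897_0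
 (Tr.nd (nat_lit 266) (nat_lit 7) (nat_lit 3) (nat_lit 789) c7_9897_0
 (Tr.nd (nat_lit 260) (nat_lit 24) (nat_lit 1) (nat_lit 765) c7_9897_0
 Tr.lf Tr.lf) Tr.lf) (Tr.nd (nat_lit 274) (nat_lit 24) (nat_lit 1) (nat_lit 900) c7_9897_0
 (Tr.nd (nat_lit 273) (nat_lit 15) (nat_lit 1) (nat_lit 885) c7_9897_0
 Tr.lf Tr.lf) Tr.lf)) (Tr.nd (nat_lit 322) (nat_lit 1) (nat_lit 1) (nat_lit 937) c7_9897_0
 (Tr.nd (nat_lit 316) (nat_lit 7) (nat_lit 1) (nat_lit 930) c7_9897_0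
 (Tr.nd (nat_lit 315) (nat_lit 5) (nat_lit 1) (nat_lit 925) c7_9897_0
 Tr.lf Tr.lf) Tr.lf) (Tr.nd (nat_lit 323) (nat_lit 2) (nat_lit 1) (nat_lit 938) c7_9897_0
 Tr.lf Tr.lf)))))

noncomputable def c7_9894_0 : List Nat := [(nat_lit 0x4b56750eb61d02d54094d704570a4a4c6c950ad0e1d2b01a4f3c182d8cd9094b9951a84669b0da1610647734c49b154894e344d96b8bb2578193668109a498694963802173d4dc488aa606d1584d7581a055340431c44ec94331b8e0ec244164a6bc0654a3aa8a4b8181839dca9301cc36d1371ae67b044aca58710eca5b406210cb2275260136236cd05292682f5799a76a4b71645096638c7b52aa23371a2b15966f354271640eb61942a084c909525a08342a3ab18858ca858e368e59e544591651bb3871d2c08aca364dd8d2f3b99149362c86c33200000001d86889ca2008b8acf5748b8c71e64a98b664af1255682c40348871483908a26d9da90cae74d928809958c753a1896c4a8e18026aa1300eba4caa6c0355404ea68c344c572c8930d24d0213da421eb6dc5e116c64c706e5465c85cb4a9cb89744b5cc9312eda35b58480742a22b28814ea8806e11b086644d1aa823a6c02ab40b41518b8bb92)]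
noncomputable def T7_9894 : Op := Op.mk (nat_lit 19)
 (Tr.nd (nat_lit 162) (nat_lit 17) (nat_lit 2) (nat_lit 474) c7_9894_0
 (Tr.nd (nat_lit 70) (nat_lit 1) (nat_lit 4) (nat_lit 185) c7_9894_0
 (Tr.nd (nat_lit 49) (nat_lit 1) (nat_lit 24) (nat_lit 16) c7_9894_0
 (Tr.nd (nat_lit 7) (nat_lit 1) (nat_lit 7) (nat_lit 3) c7_9894_0
 (Tr.nd (nat_lit 1) (nat_lit 1) (nat_lit 1) (nat_lit 2) c7_9894_0
 (Tr.nd (nat_lit 0) (nat_lit 1) (nat_lit 2) (nat_lit 0) c7_9894_0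
 Tr.lf Tr.lf) Tr.lf) (Tr.nd (nat_lit 15) (nat_lit 1) (nat_lit 1) (nat_lit 15) c7_9894_0
 (Tr.nd (nat_lit 8) (nat_lit 1) (nat_lit 5) (nat_lit 10) c7_9894_0
 Tr.lf Tr.lf) Tr.lf)) (Tr.nd (nat_lit 57) (nat_lit 3) (nat_lit 7) (nat_lit 130) c7_9894_0
 (Tr.nd (nat_lit 56) (nat_lit 1) (nat_lit 75) (nat_lit 55) c7_9894_0
 (Tr.nd (nat_lit 50) (nat_lit 1) (nat_lit 15) (nat_lit 40) c7_9894_0
 Tr.lf Tr.lf) Tr.lf) (Tr.nd (nat_lit 64) (nat_lit 5) (nat_lit 2) (nat_lit 175) c7_9894_0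
 (Tr.nd (nat_lit 63) (nat_lit 1) (nat_lit 24) (nat_lit 151) c7_9894_0
 Tr.lf Tr.lf) Tr.lf))) (Tr.nd (nat_lit 119) (nat_lit 2) (nat_lit 5) (nat_lit 367) c7_9894_0
 (Tr.nd (nat_lit 106) (nat_lit 5) (nat_lit 6) (nat_lit 261) c7_9894_0
 (Tr.nd (nat_lit 105) (nat_lit 1) (nat_lit 61) (nat_lit 200) c7_9894_0
 (Tr.nd (nat_lit 99) (nat_lit 1) (nat_lit 11) (nat_lit 189) c7_9894_0
 Tr.lf Tr.lf) Tr.lf) (Tr.nd (nat_lit 113) (nat_lit 10) (nat_lit 3) (nat_lit 337) c7_9894_0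
 (Tr.nd (nat_lit 112) (nat_lit 2) (nat_lit 23) (nat_lit 291) c7_9894_0
 Tr.lf Tr.lf) Tr.lf)) (Tr.nd (nat_lit 155) (nat_lit 5) (nat_lit 4) (nat_lit 420) c7_9894_0
 (Tr.nd (nat_lit 154) (nat_lit 1) (nat_lit 37) (nat_lit 383) c7_9894_0
 (Tr.nd (nat_lit 148) (nat_lit 1) (nat_lit 6) (nat_lit 377) c7_9894_0
 Tr.lf Tr.lf) Tr.lf) (Tr.nd (nat_lit 161) (nat_lit 2) (nat_lit 17) (nat_lit 440) c7_9894_0
 Tr.lf Tr.lf)))) (Tr.nd (nat_lit 259) (nat_lit 2) (nat_lit 5) (nat_lit 755) c7_9894_0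
 (Tr.nd (nat_lit 211) (nat_lit 23) (nat_lit 2) (nat_lit 603) c7_9894_0
 (Tr.nd (nat_lit 175) (nat_lit 6) (nat_lit 1) (nat_lit 565) c7_9894_0
 (Tr.nd (nat_lit 169) (nat_lit 37) (nat_lit 1) (nat_lit 528) c7_9894_0
 (Tr.nd (nat_lit 168) (nat_lit 4) (nat_lit 5) (nat_lit 508) c7_9894_0
 Tr.lf Tr.lf) Tr.lf) (Tr.nd (nat_lit 210) (nat_lit 2) (nat_lit 11) (nat_lit 581) c7_9894_0
 (Tr.nd (nat_lit 204) (nat_lit 5) (nat_lit 2) (nat_lit 571) c7_9894_0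
 Tr.lf Tr.lf) Tr.lf)) (Tr.nd (nat_lit 224) (nat_lit 11) (nat_lit 1) (nat_lit 740) c7_9894_0
 (Tr.nd (nat_lit 218) (nat_lit 61) (nat_lit 1) (nat_lit 679) c7_9894_0
 (Tr.nd (nat_lit 217) (nat_lit 6) (nat_lit 5) (nat_lit 649) c7_9894_0
 Tr.lf Tr.lf) Tr.lf) (Tr.nd (nat_lit 253) (nat_lit 4) (nat_lit 1) (nat_lit 751) c7_9894_0
 Tr.lf Tr.lf))) (Tr.nd (nat_lit 308) (nat_lit 1) (nat_lit 1) (nat_lit 924) c7_9894_0
 (Tr.nd (nat_lit 267) (nat_lit 75) (nat_lit 1) (nat_lit 810) c7_9894_0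
 (Tr.nd (nat_lit 266) (nat_lit 7) (nat_lit 3) (nat_lit 789) c7_9894_0
 (Tr.nd (nat_lit 260) (nat_lit 24) (nat_lit 1) (nat_lit 765) c7_9894_0
 Tr.lf Tr.lf) Tr.lf) (Tr.nd (nat_lit 274) (nat_lit 24) (nat_lit 1) (nat_lit 900) c7_9894_0
 (Tr.nd (nat_lit 273) (nat_lit 15) (nat_lit 1) (nat_lit 885) c7_9894_0
 Tr.lf Tr.lf) Tr.lf)) (Tr.nd (nat_lit 322) (nat_lit 1) (nat_lit 1) (nat_lit 937) c7_9894_0
 (Tr.nd (nat_lit 316) (nat_lit 7) (nat_lit 1) (nat_lit 930) c7_9894_0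
 (Tr.nd (nat_lit 315) (nat_lit 5) (nat_lit 1) (nat_lit 925) c7_9894_0
 Tr.lf Tr.lf) Tr.lf) (Tr.nd (nat_lit 323) (nat_lit 2) (nat_lit 1) (nat_lit 938) c7_9894_0
 Tr.lf Tr.lf)))))

noncomputable def c7_9882_0 : List Nat := [(nat_lit 0xa82ce109aa75c94db25b535584b6b330b04c651906c34605d3046b72c88e431968d656482031a5d4ad16266500a2210e5048aa3a1521cda70dcc2a312842024849a32b20a164949d66a30d5308d9ca4b6b8323287b214489602c03604c0b376541bb8561ca2aa29b988263b601aad6824b4a57681cba53800da19d724574c049a26e5d124cd1a8246c238d968ed5ec14c021b382e7a221ec10d48661c432a234b49ebab3424ad6de2034034511439b16eb34a6017459831524854c669e22170aa8e25306e086cc1533d447b0406886ceec532dcd0e0c0200000006b03314573a9e526da2133ad0ae0031714b5c93558aae0995acbaf0136968c08a25ac6c856c2b2b790848d80940c948285b316158476d9162dc1a2a6154bad22487a145273481240181138541ea49496c1cae49133039404014d225e0db91114bd41c432dd01202c94812e3706590b02a4b7265e0ac8d379364caa9bb25b6896b4b85031e415)]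
noncomputable def T7_9882 : Op := Op.mk (nat_lit 19)
 (Tr.nd (nat_lit 162) (nat_lit 17) (nat_lit 2) (nat_lit 474) c7_9882_0
 (Tr.nd (nat_lit 70) (nat_lit 1) (nat_lit 4) (nat_lit 185) c7_9882_0
 (Tr.nd (nat_lit 49) (nat_lit 1) (nat_lit 24) (nat_lit 16) c7_9882_0
 (Tr.nd (nat_lit 7) (nat_lit 1) (nat_lit 7) (nat_lit 3) c7_9882_0
 (Tr.nd (nat_lit 1) (nat_lit 1) (nat_lit 1) (nat_lit 2) c7_9882_0
 (Tr.nd (nat_lit 0) (nat_lit 1) (nat_lit 2) (nat_lit 0) c7_9882_0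
 Tr.lf Tr.lf) Tr.lf) (Tr.nd (nat_lit 15) (nat_lit 1) (nat_lit 1) (nat_lit 15) c7_9882_0
 (Tr.nd (nat_lit 8) (nat_lit 1) (nat_lit 5) (nat_lit 10) c7_9882_0
 Tr.lf Tr.lf) Tr.lf)) (Tr.nd (nat_lit 57) (nat_lit 3) (nat_lit 7) (nat_lit 130) c7_9882_0
 (Tr.nd (nat_lit 56) (nat_lit 1) (nat_lit 75) (nat_lit 55) c7_9882_0
 (Tr.nd (nat_lit 50) (nat_lit 1) (nat_lit 15) (nat_lit 40) c7_9882_0
 Tr.lf Tr.lf) Tr.lf) (Tr.nd (nat_lit 64) (nat_lit 5) (nat_lit 2) (nat_lit 175) c7_9882_0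
 (Tr.nd (nat_lit 63) (nat_lit 1) (nat_lit 24) (nat_lit 151) c7_9882_0
 Tr.lf Tr.lf) Tr.lf))) (Tr.nd (nat_lit 119) (nat_lit 2) (nat_lit 5) (nat_lit 367) c7_9882_0
 (Tr.nd (nat_lit 106) (nat_lit 5) (nat_lit 6) (nat_lit 261) c7_9882_0
 (Tr.nd (nat_lit 105) (nat_lit 1) (nat_lit 61) (nat_lit 200) c7_9882_0
 (Tr.nd (nat_lit 99) (nat_lit 1) (nat_lit 11) (nat_lit 189) c7_9882_0
 Tr.lf Tr.lf) Tr.lf) (Tr.nd (nat_lit 113) (nat_lit 10) (nat_lit 3) (nat_lit 337) c7_9882_0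
 (Tr.nd (nat_lit 112) (nat_lit 2) (nat_lit 23) (nat_lit 291) c7_9882_0
 Tr.lf Tr.lf) Tr.lf)) (Tr.nd (nat_lit 155) (nat_lit 5) (nat_lit 4) (nat_lit 420) c7_9882_0
 (Tr.nd (nat_lit 154) (nat_lit 1) (nat_lit 37) (nat_lit 383) c7_9882_0
 (Tr.nd (nat_lit 148) (nat_lit 1) (nat_lit 6) (nat_lit 377) c7_9882_0
 Tr.lf Tr.lf) Tr.lf) (Tr.nd (nat_lit 161) (nat_lit 2) (nat_lit 17) (nat_lit 440) c7_9882_0
 Tr.lf Tr.lf)))) (Tr.nd (nat_lit 259) (nat_lit 2) (nat_lit 5) (nat_lit 755) c7_9882_0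
 (Tr.nd (nat_lit 211) (nat_lit 23) (nat_lit 2) (nat_lit 603) c7_9882_0
 (Tr.nd (nat_lit 175) (nat_lit 6) (nat_lit 1) (nat_lit 565) c7_9882_0
 (Tr.nd (nat_lit 169) (nat_lit 37) (nat_lit 1) (nat_lit 528) c7_9882_0
 (Tr.nd (nat_lit 168) (nat_lit 4) (nat_lit 5) (nat_lit 508) c7_9882_0
 Tr.lf Tr.lf) Tr.lf) (Tr.nd (nat_lit 210) (nat_lit 2) (nat_lit 11) (nat_lit 581) c7_9882_0
 (Tr.nd (nat_lit 204) (nat_lit 5) (nat_lit 2) (nat_lit 571) c7_9882_0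
 Tr.lf Tr.lf) Tr.lf)) (Tr.nd (nat_lit 224) (nat_lit 11) (nat_lit 1) (nat_lit 740) c7_9882_0
 (Tr.nd (nat_lit 218) (nat_lit 61) (nat_lit 1) (nat_lit 679) c7_9882_0
 (Tr.nd (nat_lit 217) (nat_lit 6) (nat_lit 5) (nat_lit 649) c7_9882_0
 Tr.lf Tr.lf) Tr.lf) (Tr.nd (nat_lit 253) (nat_lit 4) (nat_lit 1) (nat_lit 751) c7_9882_0
 Tr.lf Tr.lf))) (Tr.nd (nat_lit 308) (nat_lit 1) (nat_lit 1) (nat_lit 924) c7_9882_0
 (Tr.nd (nat_lit 267) (nat_lit 75) (nat_lit 1) (nat_lit 810) c7_9882_0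
 (Tr.nd (nat_lit 266) (nat_lit 7) (nat_lit 3) (nat_lit 789) c7_9882_0
 (Tr.nd (nat_lit 260) (nat_lit 24) (nat_lit 1) (nat_lit 765) c7_9882_0
 Tr.lf Tr.lf) Tr.lf) (Tr.nd (nat_lit 274) (nat_lit 24) (nat_lit 1) (nat_lit 900) c7_9882_0
 (Tr.nd (nat_lit 273) (nat_lit 15) (nat_lit 1) (nat_lit 885) c7_9882_0
 Tr.lf Tr.lf) Tr.lf)) (Tr.nd (nat_lit 322) (nat_lit 1) (nat_lit 1) (nat_lit 937) c7_9882_0
 (Tr.nd (nat_lit 316) (nat_lit 7) (nat_lit 1) (nat_lit 930) c7_9882_0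
 (Tr.nd (nat_lit 315) (nat_lit 5) (nat_lit 1) (nat_lit 925) c7_9882_0
 Tr.lf Tr.lf) Tr.lf) (Tr.nd (nat_lit 323) (nat_lit 2) (nat_lit 1) (nat_lit 938) c7_9882_0
 Tr.lf Tr.lf)))))

noncomputable def c7_9893_0 : List Nat := [(nat_lit 0x10001b44206000000149b3bb419cc266596996e9ac96eb6850224cb4c92d9683a1a01ad5b35c4b27a9a9524811d58878602e982186d556e67b268c1b234d48e583d16ba25a4260b24b8047691b09c95b3626d1b408cdcf24b344059a8e8ba5cb0b02725b581ab112ae6b8d61e30db8ece00000000000000000055667950ee18ca03925826a1552028cd80d18b856e372c94e8f343000000000000000000619e87431ea417a605417079272b404cdaad20a47838d40db65c0b46a511e10987647431399e2032a254879500000000000000a2dc52b0ec2e122dd9a776140b70b034b17041589251a4a9eb0c4218d521dc247b475daa62119b25a8ce315b2d971018c171a76d72cc2b1511d29406a20a51885451b87390090ca1d8ab10c421ba4a8624a702424202801d116d8a0278434a16e38eaf58918dd9a2401adb0a0c02a00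012868352d8b40bd5889d0e80e079274534039602dd9282575091b611224295b364c28c800076b80d4b301d93504da412156cc6eaa1e68e011cdb893503714534b95c6dc21a6144d266a53a95cc544465416514e39b0b64994999851b620581978b4e5ca00e82c51a6c45d824550341b48810c278546e79dcc8754812001799465b597b2b713a848a27634bb99b806a4d0110eb2234ebaa1728a28d889a51b78a0314f31556e16ea04836922e92b01e4a802b06c65c41ada5a919012836e40abb04480bae000000016ad168502e0b30151754d82422b0740000000adad0c86b0729437ae1958a571408459d649150c690000000184f01633a22004c43a86a4b0c4724e6b44526a24c116e681b304953112223098d954a12e045d2245499896487556851a11616f0b92da140e8ad75cd9c83560d4e181432e6ac985920744119c93128d68146d5a7b5a098cca0074a2e371559835288b00e7a350cc56c6130670589cc8465b6c44e31b50d44a30d4a1b51a598d4444699906e72178698e004c86649c204f0720b44800d260639129b552c798774cad96d6eba3639ed216d925164ba185654aad722ea45239274da00ada8ecaa2dae9b389b42c218983b4898db5a98b333c5cc94d4bc887a8d1809bb24468410ab57b1434b854622a52038a26e879c0d32a3a5bb930131584cb6496996940284dd6c974d6cb4cb2f406dc318915650000000c40a6c00008)]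
noncomputable def T7_9893 : Op := Op.mk (nat_lit 25)
 (Tr.nd (nat_lit 161) (nat_lit 2) (nat_lit 17) (nat_lit 1103) c7_9893_0
 (Tr.nd (nat_lit 70) (nat_lit 1) (nat_lit 2) (nat_lit 430) c7_9893_0
 (Tr.nd (nat_lit 50) (nat_lit 1) (nat_lit 75) (nat_lit 103) c7_9893_0
 (Tr.nd (nat_lit 8) (nat_lit 1) (nat_lit 15) (nat_lit 24) c7_9893_0
 (Tr.nd (nat_lit 1) (nat_lit 1) (nat_lit 7) (nat_lit 6) c7_9893_0
 (Tr.nd (nat_lit 0) (nat_lit 1) (nat_lit 6) (nat_lit 0) c7_9893_0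
 Tr.lf Tr.lf) (Tr.nd (nat_lit 7) (nat_lit 1) (nat_lit 11) (nat_lit 13) c7_9893_0
 Tr.lf Tr.lf)) (Tr.nd (nat_lit 15) (nat_lit 1) (nat_lit 2) (nat_lit 40) c7_9893_0
 (Tr.nd (nat_lit 9) (nat_lit 1) (nat_lit 1) (nat_lit 39) c7_9893_0
 Tr.lf Tr.lf) (Tr.nd (nat_lit 49) (nat_lit 1) (nat_lit 61) (nat_lit 42) c7_9893_0
 Tr.lf Tr.lf))) (Tr.nd (nat_lit 58) (nat_lit 5) (nat_lit 2) (nat_lit 376) c7_9893_0
 (Tr.nd (nat_lit 56) (nat_lit 1) (nat_lit 116) (nat_lit 185) c7_9893_0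
 (Tr.nd (nat_lit 51) (nat_lit 1) (nat_lit 7) (nat_lit 178) c7_9893_0
 Tr.lf Tr.lf) (Tr.nd (nat_lit 57) (nat_lit 3) (nat_lit 25) (nat_lit 301) c7_9893_0
 Tr.lf Tr.lf)) (Tr.nd (nat_lit 64) (nat_lit 5) (nat_lit 4) (nat_lit 410) c7_9893_0
 (Tr.nd (nat_lit 63) (nat_lit 1) (nat_lit 24) (nat_lit 386) c7_9893_0
 Tr.lf Tr.lf) Tr.lf))) (Tr.nd (nat_lit 113) (nat_lit 10) (nat_lit 7) (nat_lit 798) c7_9893_0
 (Tr.nd (nat_lit 106) (nat_lit 5) (nat_lit 23) (nat_lit 607) c7_9893_0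
 (Tr.nd (nat_lit 100) (nat_lit 2) (nat_lit 7) (nat_lit 493) c7_9893_0
 (Tr.nd (nat_lit 99) (nat_lit 1) (nat_lit 61) (nat_lit 432) c7_9893_0
 Tr.lf Tr.lf) (Tr.nd (nat_lit 105) (nat_lit 1) (nat_lit 100) (nat_lit 507) c7_9893_0
 Tr.lf Tr.lf)) (Tr.nd (nat_lit 112) (nat_lit 2) (nat_lit 23) (nat_lit 752) c7_9893_0
 (Tr.nd (nat_lit 107) (nat_lit 10) (nat_lit 3) (nat_lit 722) c7_9893_0
 Tr.lf Tr.lf) Tr.lf)) (Tr.nd (nat_lit 154) (nat_lit 1) (nat_lit 63) (nat_lit 921) c7_9893_0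
 (Tr.nd (nat_lit 148) (nat_lit 1) (nat_lit 37) (nat_lit 874) c7_9893_0
 (Tr.nd (nat_lit 119) (nat_lit 2) (nat_lit 3) (nat_lit 868) c7_9893_0
 Tr.lf Tr.lf) (Tr.nd (nat_lit 149) (nat_lit 2) (nat_lit 5) (nat_lit 911) c7_9893_0
 Tr.lf Tr.lf)) (Tr.nd (nat_lit 156) (nat_lit 17) (nat_lit 2) (nat_lit 1069) c7_9893_0
 (Tr.nd (nat_lit 155) (nat_lit 5) (nat_lit 17) (nat_lit 984) c7_9893_0
 Tr.lf Tr.lf) Tr.lf)))) (Tr.nd (nat_lit 253) (nat_lit 4) (nat_lit 5) (nat_lit 1771) c7_9893_0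
 (Tr.nd (nat_lit 205) (nat_lit 23) (nat_lit 2) (nat_lit 1395) c7_9893_0
 (Tr.nd (nat_lit 169) (nat_lit 37) (nat_lit 1) (nat_lit 1297) c7_9893_0
 (Tr.nd (nat_lit 163) (nat_lit 63) (nat_lit 1) (nat_lit 1222) c7_9893_0
 (Tr.nd (nat_lit 162) (nat_lit 17) (nat_lit 5) (nat_lit 1137) c7_9893_0
 Tr.lf Tr.lf) (Tr.nd (nat_lit 168) (nat_lit 4) (nat_lit 3) (nat_lit 1285) c7_9893_0
 Tr.lf Tr.lf)) (Tr.nd (nat_lit 204) (nat_lit 5) (nat_lit 11) (nat_lit 1340) c7_9893_0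
 (Tr.nd (nat_lit 198) (nat_lit 2) (nat_lit 3) (nat_lit 1334) c7_9893_0
 Tr.lf Tr.lf) Tr.lf)) (Tr.nd (nat_lit 217) (nat_lit 6) (nat_lit 5) (nat_lit 1678) c7_9893_0
 (Tr.nd (nat_lit 211) (nat_lit 23) (nat_lit 5) (nat_lit 1463) c7_9893_0
 (Tr.nd (nat_lit 210) (nat_lit 2) (nat_lit 11) (nat_lit 1441) c7_9893_0
 Tr.lf Tr.lf) (Tr.nd (nat_lit 212) (nat_lit 100) (nat_lit 1) (nat_lit 1578) c7_9893_0
 Tr.lf Tr.lf)) (Tr.nd (nat_lit 247) (nat_lit 2) (nat_lit 1) (nat_lit 1769) c7_9893_0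
 (Tr.nd (nat_lit 218) (nat_lit 61) (nat_lit 1) (nat_lit 1708) c7_9893_0
 Tr.lf Tr.lf) Tr.lf))) (Tr.nd (nat_lit 268) (nat_lit 61) (nat_lit 1) (nat_lit 2143) c7_9893_0
 (Tr.nd (nat_lit 261) (nat_lit 116) (nat_lit 1) (nat_lit 1945) c7_9893_0
 (Tr.nd (nat_lit 259) (nat_lit 2) (nat_lit 5) (nat_lit 1815) c7_9893_0
 (Tr.nd (nat_lit 254) (nat_lit 24) (nat_lit 1) (nat_lit 1791) c7_9893_0
 Tr.lf Tr.lf) (Tr.nd (nat_lit 260) (nat_lit 24) (nat_lit 5) (nat_lit 1825) c7_9893_0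
 Tr.lf Tr.lf)) (Tr.nd (nat_lit 267) (nat_lit 75) (nat_lit 1) (nat_lit 2068) c7_9893_0
 (Tr.nd (nat_lit 266) (nat_lit 7) (nat_lit 1) (nat_lit 2061) c7_9893_0
 Tr.lf Tr.lf) Tr.lf)) (Tr.nd (nat_lit 310) (nat_lit 11) (nat_lit 1) (nat_lit 2222) c7_9893_0
 (Tr.nd (nat_lit 308) (nat_lit 1) (nat_lit 1) (nat_lit 2206) c7_9893_0
 (Tr.nd (nat_lit 302) (nat_lit 2) (nat_lit 1) (nat_lit 2204) c7_9893_0
 Tr.lf Tr.lf) (Tr.nd (nat_lit 309) (nat_lit 15) (nat_lit 1) (nat_lit 2207) c7_9893_0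
 Tr.lf Tr.lf)) (Tr.nd (nat_lit 317) (nat_lit 6) (nat_lit 1) (nat_lit 2240) c7_9893_0
 (Tr.nd (nat_lit 316) (nat_lit 7) (nat_lit 1) (nat_lit 2233) c7_9893_0
 Tr.lf Tr.lf) Tr.lf)))))

noncomputable def c7_9881_0 : List Nat := [(nat_lit 0x830cd9395eb9e60003011032171631534d2cd40d16a15c396acb66976bba241c61422864c2b5cb11a523511ba5469e00d7716b24c4a0c6ccd745b106877399c75a902099889d5a74069e614b6535579bdad46369ecc0765c22a91cd9242d7522e881a0b0090243843ab30b8ac734a58c80000000000000000001d9c09e03529e20ac73c1a5ac146d08a48542586ac06842cc49d4000000000000000000066c8bb141dc216f422d3133a454501d88d0b59a50288ac08d5735b33994d2a06931106b9c39a21b78365cacb0000000000000010e59212f352d38e8500f698084a640a60213d7658b8e9d8281a3b4532174c4b4742a56766f2020d0c4a48a23aea732199a56d38a910191e4c9643d6681d2ed183c58ab2a12a86a062b51a80a985e8e5aad4c556ac0631b782b308253846e458d770af1114b166ee061620324799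a00036ba041205bc23aae05b5255b2792b98a827090226aa39dbab4d1055b28d0e0e8411d5000346e3b0aad12caacaa0a88cdad90d11993ae2d45424345a6a10858254dc7072964226d7a9d22b8189c4ceb316b43010b0373805a4d8292908e93ab513b9c28372ed9e64c8e60db38d6c086335a6b38de4e4c5e999a482e484e195212341a8dd0516614e91b65eb0a81d42e54970958eae0d82b51c81815368a640a8b9475ad0a982d9378154456556582d54018e7a94ae282158c66165a8829a775af15408d200000001594e65201e5854d2b8ccd851278ec000000000e2958d6c71c84b81d946b1b50dca098518b27273300000002805c70e5b5620d13d98349d28c03b8392036cc9b00db6dc12774c5385dcf486a872012b58cc454a319a8d95d19640d15e49c894330802cdec5d88cc53274d42d14d8a6221b1ae3396d7340886805a2601a6cc046638db13c019040e970b2ec65b19b60a78c7ae101d2602a4d178bd93d55284aa0a20805b6d674012d5498b50da0ccd983562a3982f60064814c9ba00d66d82d1a09784388a9d116d96010a6a51e034015c34b128eb091cead58415a50a9920adab64d64eb2c2012938a49824582b55913092cec6416a764290d2156968950b423bb42cb572ad3d56662c183a59b6c743aace979bca0836d706ea22c3ae4612c50620e3094d5dacd2d9772c63a15a290a9669a6a829b2c793d520000f3d73b1ada1841)]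
noncomputable def T7_9881 : Op := Op.mk (nat_lit 25)
 (Tr.nd (nat_lit 161) (nat_lit 2) (nat_lit 17) (nat_lit 1103) c7_9881_0
 (Tr.nd (nat_lit 70) (nat_lit 1) (nat_lit 2) (nat_lit 430) c7_9881_0
 (Tr.nd (nat_lit 50) (nat_lit 1) (nat_lit 75) (nat_lit 103) c7_9881_0
 (Tr.nd (nat_lit 8) (nat_lit 1) (nat_lit 15) (nat_lit 24) c7_9881_0
 (Tr.nd (nat_lit 1) (nat_lit 1) (nat_lit 7) (nat_lit 6) c7_9881_0
 (Tr.nd (nat_lit 0) (nat_lit 1) (nat_lit 6) (nat_lit 0) c7_9881_0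
 Tr.lf Tr.lf) (Tr.nd (nat_lit 7) (nat_lit 1) (nat_lit 11) (nat_lit 13) c7_9881_0
 Tr.lf Tr.lf)) (Tr.nd (nat_lit 15) (nat_lit 1) (nat_lit 2) (nat_lit 40) c7_9881_0
 (Tr.nd (nat_lit 9) (nat_lit 1) (nat_lit 1) (nat_lit 39) c7_9881_0
 Tr.lf Tr.lf) (Tr.nd (nat_lit 49) (nat_lit 1) (nat_lit 61) (nat_lit 42) c7_9881_0
 Tr.lf Tr.lf))) (Tr.nd (nat_lit 58) (nat_lit 5) (nat_lit 2) (nat_lit 376) c7_9881_0
 (Tr.nd (nat_lit 56) (nat_lit 1) (nat_lit 116) (nat_lit 185) c7_9881_0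
 (Tr.nd (nat_lit 51) (nat_lit 1) (nat_lit 7) (nat_lit 178) c7_9881_0
 Tr.lf Tr.lf) (Tr.nd (nat_lit 57) (nat_lit 3) (nat_lit 25) (nat_lit 301) c7_9881_0
 Tr.lf Tr.lf)) (Tr.nd (nat_lit 64) (nat_lit 5) (nat_lit 4) (nat_lit 410) c7_9881_0
 (Tr.nd (nat_lit 63) (nat_lit 1) (nat_lit 24) (nat_lit 386) c7_9881_0
 Tr.lf Tr.lf) Tr.lf))) (Tr.nd (nat_lit 113) (nat_lit 10) (nat_lit 7) (nat_lit 798) c7_9881_0
 (Tr.nd (nat_lit 106) (nat_lit 5) (nat_lit 23) (nat_lit 607) c7_9881_0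
 (Tr.nd (nat_lit 100) (nat_lit 2) (nat_lit 7) (nat_lit 493) c7_9881_0
 (Tr.nd (nat_lit 99) (nat_lit 1) (nat_lit 61) (nat_lit 432) c7_9881_0
 Tr.lf Tr.lf) (Tr.nd (nat_lit 105) (nat_lit 1) (nat_lit 100) (nat_lit 507) c7_9881_0
 Tr.lf Tr.lf)) (Tr.nd (nat_lit 112) (nat_lit 2) (nat_lit 23) (nat_lit 752) c7_9881_0
 (Tr.nd (nat_lit 107) (nat_lit 10) (nat_lit 3) (nat_lit 722) c7_9881_0
 Tr.lf Tr.lf) Tr.lf)) (Tr.nd (nat_lit 154) (nat_lit 1) (nat_lit 63) (nat_lit 921) c7_9881_0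
 (Tr.nd (nat_lit 148) (nat_lit 1) (nat_lit 37) (nat_lit 874) c7_9881_0
 (Tr.nd (nat_lit 119) (nat_lit 2) (nat_lit 3) (nat_lit 868) c7_9881_0
 Tr.lf Tr.lf) (Tr.nd (nat_lit 149) (nat_lit 2) (nat_lit 5) (nat_lit 911) c7_9881_0
 Tr.lf Tr.lf)) (Tr.nd (nat_lit 156) (nat_lit 17) (nat_lit 2) (nat_lit 1069) c7_9881_0
 (Tr.nd (nat_lit 155) (nat_lit 5) (nat_lit 17) (nat_lit 984) c7_9881_0
 Tr.lf Tr.lf) Tr.lf)))) (Tr.nd (nat_lit 253) (nat_lit 4) (nat_lit 5) (nat_lit 1771) c7_9881_0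
 (Tr.nd (nat_lit 205) (nat_lit 23) (nat_lit 2) (nat_lit 1395) c7_9881_0
 (Tr.nd (nat_lit 169) (nat_lit 37) (nat_lit 1) (nat_lit 1297) c7_9881_0
 (Tr.nd (nat_lit 163) (nat_lit 63) (nat_lit 1) (nat_lit 1222) c7_9881_0
 (Tr.nd (nat_lit 162) (nat_lit 17) (nat_lit 5) (nat_lit 1137) c7_9881_0
 Tr.lf Tr.lf) (Tr.nd (nat_lit 168) (nat_lit 4) (nat_lit 3) (nat_lit 1285) c7_9881_0
 Tr.lf Tr.lf)) (Tr.nd (nat_lit 204) (nat_lit 5) (nat_lit 11) (nat_lit 1340) c7_9881_0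
 (Tr.nd (nat_lit 198) (nat_lit 2) (nat_lit 3) (nat_lit 1334) c7_9881_0
 Tr.lf Tr.lf) Tr.lf)) (Tr.nd (nat_lit 217) (nat_lit 6) (nat_lit 5) (nat_lit 1678) c7_9881_0
 (Tr.nd (nat_lit 211) (nat_lit 23) (nat_lit 5) (nat_lit 1463) c7_9881_0
 (Tr.nd (nat_lit 210) (nat_lit 2) (nat_lit 11) (nat_lit 1441) c7_9881_0
 Tr.lf Tr.lf) (Tr.nd (nat_lit 212) (nat_lit 100) (nat_lit 1) (nat_lit 1578) c7_9881_0
 Tr.lf Tr.lf)) (Tr.nd (nat_lit 247) (nat_lit 2) (nat_lit 1) (nat_lit 1769) c7_9881_0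
 (Tr.nd (nat_lit 218) (nat_lit 61) (nat_lit 1) (nat_lit 1708) c7_9881_0
 Tr.lf Tr.lf) Tr.lf))) (Tr.nd (nat_lit 268) (nat_lit 61) (nat_lit 1) (nat_lit 2143) c7_9881_0
 (Tr.nd (nat_lit 261) (nat_lit 116) (nat_lit 1) (nat_lit 1945) c7_9881_0
 (Tr.nd (nat_lit 259) (nat_lit 2) (nat_lit 5) (nat_lit 1815) c7_9881_0
 (Tr.nd (nat_lit 254) (nat_lit 24) (nat_lit 1) (nat_lit 1791) c7_9881_0
 Tr.lf Tr.lf) (Tr.nd (nat_lit 260) (nat_lit 24) (nat_lit 5) (nat_lit 1825) c7_9881_0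
 Tr.lf Tr.lf)) (Tr.nd (nat_lit 267) (nat_lit 75) (nat_lit 1) (nat_lit 2068) c7_9881_0
 (Tr.nd (nat_lit 266) (nat_lit 7) (nat_lit 1) (nat_lit 2061) c7_9881_0
 Tr.lf Tr.lf) Tr.lf)) (Tr.nd (nat_lit 310) (nat_lit 11) (nat_lit 1) (nat_lit 2222) c7_9881_0
 (Tr.nd (nat_lit 308) (nat_lit 1) (nat_lit 1) (nat_lit 2206) c7_9881_0
 (Tr.nd (nat_lit 302) (nat_lit 2) (nat_lit 1) (nat_lit 2204) c7_9881_0
 Tr.lf Tr.lf) (Tr.nd (nat_lit 309) (nat_lit 15) (nat_lit 1) (nat_lit 2207) c7_9881_0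
 Tr.lf Tr.lf)) (Tr.nd (nat_lit 317) (nat_lit 6) (nat_lit 1) (nat_lit 2240) c7_9881_0
 (Tr.nd (nat_lit 316) (nat_lit 7) (nat_lit 1) (nat_lit 2233) c7_9881_0
 Tr.lf Tr.lf) Tr.lf)))))

noncomputable def c7_9878_0 : List Nat := [(nat_lit 0x229b33638518b52e4d6d40396919095e4d3593b46558d4805007129ad5b8589733855aa2b43510a090daeda9548b92580aa94490a2d5860b2c6d7b0d63a0e15db762094766642a68dc24d65209269e24ab752d5429c55b1961671451b71e932c250846a66d0893534af38dd6c529369d0700000000000000000022763a804d341820a732a360485295caa1ade00392a44249195540800000000000000000559c2dc38b90853309ab7257049241c4593632449b072ec9e1ae8167919ad1605b25a18361365ad3a6665aee00000000000001138b911670b53d40b48775830163771d4365b26942b2064036ea0a8a318710936d9d9e390a103b3d6311634345b749ae5524d29c83173c10d20b0a588b4ea1b6895823b154494ad1699548e1885494f38843680d5a06c82395b20a99188ac285cdb085614a674932d0c85a25608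8c000207ab9502ac40521642094a9758244ea88a78b0004ad7193026e3a4bd252f3b964e6758005c65b5cd7022348da892e25b146350bb1dce8772481810d63659090534d1a4cea1b8854f00daca636d8c01ac6a92cc773845799c6248c2c610a51e6230ee2f552234ac0ea4e969c74aa626d2342d196e67661a17178b91b60b7aa84259e00175070c9850ea7168636995887a4a9455237601436e40b2dcb82108496ac57ab95989c28ec9464956949c046ba014dae5cebd1acb5799b2664d71b4212e3b4008200000001128e82a60050a9404dd521824616a80000000b6ccead31285589626331ca3c034702943a68d482500000002940b174bb1490d32bb2835c03243c6944e88c5a971c6e0359852400514455d58d4506e9655164ed68a546c6b53026ecc388d103973d8842858e7b16db481c61c28a82adb01600ba11a4b65b171d5b940c25d58368173568c0328c459d0eaed85e98db96d06c21992d90945ba159e426b866b6b18d913142e26e040d290d52d6a683d103233896d499d005a82a1aa908b09a04f1624461311268b9b246641b2cb5140445c28070b10354c424968d53665d7246e998c51c21d96528152085536acb2044111a25264d26824a442346e2c66742f629e44464d0e14817828681a82f25aec8c85920ed687659452c8122ce580aa66455ca8c5eb0331bb9344e202201b83ab0b5ac9a6b3b6c04969d050ba466e50a31ca5ed14)]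
noncomputable def T7_9878 : Op := Op.mk (nat_lit 25)
 (Tr.nd (nat_lit 161) (nat_lit 2) (nat_lit 17) (nat_lit 1103) c7_9878_0
 (Tr.nd (nat_lit 70) (nat_lit 1) (nat_lit 2) (nat_lit 430) c7_9878_0
 (Tr.nd (nat_lit 50) (nat_lit 1) (nat_lit 75) (nat_lit 103) c7_9878_0
 (Tr.nd (nat_lit 8) (nat_lit 1) (nat_lit 15) (nat_lit 24) c7_9878_0
 (Tr.nd (nat_lit 1) (nat_lit 1) (nat_lit 7) (nat_lit 6) c7_9878_0
 (Tr.nd (nat_lit 0) (nat_lit 1) (nat_lit 6) (nat_lit 0) c7_9878_0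
 Tr.lf Tr.lf) (Tr.nd (nat_lit 7) (nat_lit 1) (nat_lit 11) (nat_lit 13) c7_9878_0
 Tr.lf Tr.lf)) (Tr.nd (nat_lit 15) (nat_lit 1) (nat_lit 2) (nat_lit 40) c7_9878_0
 (Tr.nd (nat_lit 9) (nat_lit 1) (nat_lit 1) (nat_lit 39) c7_9878_0
 Tr.lf Tr.lf) (Tr.nd (nat_lit 49) (nat_lit 1) (nat_lit 61) (nat_lit 42) c7_9878_0
 Tr.lf Tr.lf))) (Tr.nd (nat_lit 58) (nat_lit 5) (nat_lit 2) (nat_lit 376) c7_9878_0
 (Tr.nd (nat_lit 56) (nat_lit 1) (nat_lit 116) (nat_lit 185) c7_9878_0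
 (Tr.nd (nat_lit 51) (nat_lit 1) (nat_lit 7) (nat_lit 178) c7_9878_0
 Tr.lf Tr.lf) (Tr.nd (nat_lit 57) (nat_lit 3) (nat_lit 25) (nat_lit 301) c7_9878_0
 Tr.lf Tr.lf)) (Tr.nd (nat_lit 64) (nat_lit 5) (nat_lit 4) (nat_lit 410) c7_9878_0
 (Tr.nd (nat_lit 63) (nat_lit 1) (nat_lit 24) (nat_lit 386) c7_9878_0
 Tr.lf Tr.lf) Tr.lf))) (Tr.nd (nat_lit 113) (nat_lit 10) (nat_lit 7) (nat_lit 798) c7_9878_0
 (Tr.nd (nat_lit 106) (nat_lit 5) (nat_lit 23) (nat_lit 607) c7_9878_0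
 (Tr.nd (nat_lit 100) (nat_lit 2) (nat_lit 7) (nat_lit 493) c7_9878_0
 (Tr.nd (nat_lit 99) (nat_lit 1) (nat_lit 61) (nat_lit 432) c7_9878_0
 Tr.lf Tr.lf) (Tr.nd (nat_lit 105) (nat_lit 1) (nat_lit 100) (nat_lit 507) c7_9878_0
 Tr.lf Tr.lf)) (Tr.nd (nat_lit 112) (nat_lit 2) (nat_lit 23) (nat_lit 752) c7_9878_0
 (Tr.nd (nat_lit 107) (nat_lit 10) (nat_lit 3) (nat_lit 722) c7_9878_0
 Tr.lf Tr.lf) Tr.lf)) (Tr.nd (nat_lit 154) (nat_lit 1) (nat_lit 63) (nat_lit 921) c7_9878_0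
 (Tr.nd (nat_lit 148) (nat_lit 1) (nat_lit 37) (nat_lit 874) c7_9878_0
 (Tr.nd (nat_lit 119) (nat_lit 2) (nat_lit 3) (nat_lit 868) c7_9878_0
 Tr.lf Tr.lf) (Tr.nd (nat_lit 149) (nat_lit 2) (nat_lit 5) (nat_lit 911) c7_9878_0
 Tr.lf Tr.lf)) (Tr.nd (nat_lit 156) (nat_lit 17) (nat_lit 2) (nat_lit 1069) c7_9878_0
 (Tr.nd (nat_lit 155) (nat_lit 5) (nat_lit 17) (nat_lit 984) c7_9878_0
 Tr.lf Tr.lf) Tr.lf)))) (Tr.nd (nat_lit 253) (nat_lit 4) (nat_lit 5) (nat_lit 1771) c7_9878_0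
 (Tr.nd (nat_lit 205) (nat_lit 23) (nat_lit 2) (nat_lit 1395) c7_9878_0
 (Tr.nd (nat_lit 169) (nat_lit 37) (nat_lit 1) (nat_lit 1297) c7_9878_0
 (Tr.nd (nat_lit 163) (nat_lit 63) (nat_lit 1) (nat_lit 1222) c7_9878_0
 (Tr.nd (nat_lit 162) (nat_lit 17) (nat_lit 5) (nat_lit 1137) c7_9878_0
 Tr.lf Tr.lf) (Tr.nd (nat_lit 168) (nat_lit 4) (nat_lit 3) (nat_lit 1285) c7_9878_0
 Tr.lf Tr.lf)) (Tr.nd (nat_lit 204) (nat_lit 5) (nat_lit 11) (nat_lit 1340) c7_9878_0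
 (Tr.nd (nat_lit 198) (nat_lit 2) (nat_lit 3) (nat_lit 1334) c7_9878_0
 Tr.lf Tr.lf) Tr.lf)) (Tr.nd (nat_lit 217) (nat_lit 6) (nat_lit 5) (nat_lit 1678) c7_9878_0
 (Tr.nd (nat_lit 211) (nat_lit 23) (nat_lit 5) (nat_lit 1463) c7_9878_0
 (Tr.nd (nat_lit 210) (nat_lit 2) (nat_lit 11) (nat_lit 1441) c7_9878_0
 Tr.lf Tr.lf) (Tr.nd (nat_lit 212) (nat_lit 100) (nat_lit 1) (nat_lit 1578) c7_9878_0
 Tr.lf Tr.lf)) (Tr.nd (nat_lit 247) (nat_lit 2) (nat_lit 1) (nat_lit 1769) c7_9878_0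
 (Tr.nd (nat_lit 218) (nat_lit 61) (nat_lit 1) (nat_lit 1708) c7_9878_0
 Tr.lf Tr.lf) Tr.lf))) (Tr.nd (nat_lit 268) (nat_lit 61) (nat_lit 1) (nat_lit 2143) c7_9878_0
 (Tr.nd (nat_lit 261) (nat_lit 116) (nat_lit 1) (nat_lit 1945) c7_9878_0
 (Tr.nd (nat_lit 259) (nat_lit 2) (nat_lit 5) (nat_lit 1815) c7_9878_0
 (Tr.nd (nat_lit 254) (nat_lit 24) (nat_lit 1) (nat_lit 1791) c7_9878_0
 Tr.lf Tr.lf) (Tr.nd (nat_lit 260) (nat_lit 24) (nat_lit 5) (nat_lit 1825) c7_9878_0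
 Tr.lf Tr.lf)) (Tr.nd (nat_lit 267) (nat_lit 75) (nat_lit 1) (nat_lit 2068) c7_9878_0
 (Tr.nd (nat_lit 266) (nat_lit 7) (nat_lit 1) (nat_lit 2061) c7_9878_0
 Tr.lf Tr.lf) Tr.lf)) (Tr.nd (nat_lit 310) (nat_lit 11) (nat_lit 1) (nat_lit 2222) c7_9878_0
 (Tr.nd (nat_lit 308) (nat_lit 1) (nat_lit 1) (nat_lit 2206) c7_9878_0
 (Tr.nd (nat_lit 302) (nat_lit 2) (nat_lit 1) (nat_lit 2204) c7_9878_0
 Tr.lf Tr.lf) (Tr.nd (nat_lit 309) (nat_lit 15) (nat_lit 1) (nat_lit 2207) c7_9878_0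
 Tr.lf Tr.lf)) (Tr.nd (nat_lit 317) (nat_lit 6) (nat_lit 1) (nat_lit 2240) c7_9878_0
 (Tr.nd (nat_lit 316) (nat_lit 7) (nat_lit 1) (nat_lit 2233) c7_9878_0
 Tr.lf Tr.lf) Tr.lf)))))

noncomputable def c7_9830_0 : List Nat := [(nat_lit 0x33d6ac8614cab3aedcc0b1bc034cd88b9a6966043534d26c21d56734b33cd470a583ca57084f38743237b66c870dca8cc28c3b916e86d4ad516a6086db33019a8e83830d5a565b2021c98552959419ae89aa0614d224a210c804ac4f33ab48c6216532a05000ec2451830e8918884c5063000000000000000000055978e0d68db706d96c6395991e2c074ca60d40cf12f48a06161900000000000000000012c92247444a8d1c013add2b2d6800b7763020d1356b8810ccb5634ab3ab61b1321935cae428d764c8d9921600000000000000d1a9da9c524dad8424909878351c55285868069245b763b53a2a76dc010c956ba83154449d2399022e4822a9970c95218414b6a19b21e29bdaa6a64cdd660f51a24dc65d8e264d156008cc3b6ba1856dce9d9c975606b12813d030216015a10c64e655269e599709509c565ad53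1c0002274204a9a3209969b85c4a8800732ae863032010d0348e58576e128a194f2c1d6e10c00035116066c4d5d3ae98416cc91903c8605a46959d8e3975ce24aece802819c40e8464664d27609080e5145c00c89b4dcc127484ec084f6162782c123a4b50a10148366ae55a52a345180a95296c843a85185ae6d554001a400321844250ed1175cc08388762b9000eb7004da8e88d074d027a0d9d7b54947aeb1c72bc8d29323059890a5a5a20d35c6bba06f002161341831bac659a2c5160d6ba32c5260058400000000c2757814297259554902040760b158000000024b0e5136d92a955b339325e64a8ebcb230a80890a0000000304e4428601423d2e6eeb18ca844dd5aa4b59a3b2176d9b14db506a3419d68a3402ab298334d17516a495b41d803d0875859ea96a085a39312545430abb512c1035b5aa2b56b95b65249809866255471319868124c1b26d2406b46249dae4097b02d6d70a16ab5d21909d86cabcacc1dcb43003ae559043c88382a2c772c8d6eb404730a9414b3098c1006a250c4da08756e01863814c08638cbc585b28b4cdb6d27b12e6a6ad2815dc446310430800f60ac7367b16c1450631b1374175b4b26b6432c85812ba5d5c4a216e4e02d90642da36a630a74a2315d8f18f23ad4d274e496c5b8e510b764c4169a1ab2dcb8d11e6818ec598c918e279e9668f2b8c1b49a6898234b34d194480694313617ad75e561a30595b9e)]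
noncomputable def T7_9830 : Op := Op.mk (nat_lit 25)
 (Tr.nd (nat_lit 161) (nat_lit 2) (nat_lit 17) (nat_lit 1103) c7_9830_0
 (Tr.nd (nat_lit 70) (nat_lit 1) (nat_lit 2) (nat_lit 430) c7_9830_0
 (Tr.nd (nat_lit 50) (nat_lit 1) (nat_lit 75) (nat_lit 103) c7_9830_0
 (Tr.nd (nat_lit 8) (nat_lit 1) (nat_lit 15) (nat_lit 24) c7_9830_0
 (Tr.nd (nat_lit 1) (nat_lit 1) (nat_lit 7) (nat_lit 6) c7_9830_0
 (Tr.nd (nat_lit 0) (nat_lit 1) (nat_lit 6) (nat_lit 0) c7_9830_0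
 Tr.lf Tr.lf) (Tr.nd (nat_lit 7) (nat_lit 1) (nat_lit 11) (nat_lit 13) c7_9830_0
 Tr.lf Tr.lf)) (Tr.nd (nat_lit 15) (nat_lit 1) (nat_lit 2) (nat_lit 40) c7_9830_0
 (Tr.nd (nat_lit 9) (nat_lit 1) (nat_lit 1) (nat_lit 39) c7_9830_0
 Tr.lf Tr.lf) (Tr.nd (nat_lit 49) (nat_lit 1) (nat_lit 61) (nat_lit 42) c7_9830_0
 Tr.lf Tr.lf))) (Tr.nd (nat_lit 58) (nat_lit 5) (nat_lit 2) (nat_lit 376) c7_9830_0
 (Tr.nd (nat_lit 56) (nat_lit 1) (nat_lit 116) (nat_lit 185) c7_9830_0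
 (Tr.nd (nat_lit 51) (nat_lit 1) (nat_lit 7) (nat_lit 178) c7_9830_0
 Tr.lf Tr.lf) (Tr.nd (nat_lit 57) (nat_lit 3) (nat_lit 25) (nat_lit 301) c7_9830_0
 Tr.lf Tr.lf)) (Tr.nd (nat_lit 64) (nat_lit 5) (nat_lit 4) (nat_lit 410) c7_9830_0
 (Tr.nd (nat_lit 63) (nat_lit 1) (nat_lit 24) (nat_lit 386) c7_9830_0
 Tr.lf Tr.lf) Tr.lf))) (Tr.nd (nat_lit 113) (nat_lit 10) (nat_lit 7) (nat_lit 798) c7_9830_0
 (Tr.nd (nat_lit 106) (nat_lit 5) (nat_lit 23) (nat_lit 607) c7_9830_0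
 (Tr.nd (nat_lit 100) (nat_lit 2) (nat_lit 7) (nat_lit 493) c7_9830_0
 (Tr.nd (nat_lit 99) (nat_lit 1) (nat_lit 61) (nat_lit 432) c7_9830_0
 Tr.lf Tr.lf) (Tr.nd (nat_lit 105) (nat_lit 1) (nat_lit 100) (nat_lit 507) c7_9830_0
 Tr.lf Tr.lf)) (Tr.nd (nat_lit 112) (nat_lit 2) (nat_lit 23) (nat_lit 752) c7_9830_0
 (Tr.nd (nat_lit 107) (nat_lit 10) (nat_lit 3) (nat_lit 722) c7_9830_0
 Tr.lf Tr.lf) Tr.lf)) (Tr.nd (nat_lit 154) (nat_lit 1) (nat_lit 63) (nat_lit 921) c7_9830_0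
 (Tr.nd (nat_lit 148) (nat_lit 1) (nat_lit 37) (nat_lit 874) c7_9830_0
 (Tr.nd (nat_lit 119) (nat_lit 2) (nat_lit 3) (nat_lit 868) c7_9830_0
 Tr.lf Tr.lf) (Tr.nd (nat_lit 149) (nat_lit 2) (nat_lit 5) (nat_lit 911) c7_9830_0
 Tr.lf Tr.lf)) (Tr.nd (nat_lit 156) (nat_lit 17) (nat_lit 2) (nat_lit 1069) c7_9830_0
 (Tr.nd (nat_lit 155) (nat_lit 5) (nat_lit 17) (nat_lit 984) c7_9830_0
 Tr.lf Tr.lf) Tr.lf)))) (Tr.nd (nat_lit 253) (nat_lit 4) (nat_lit 5) (nat_lit 1771) c7_9830_0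
 (Tr.nd (nat_lit 205) (nat_lit 23) (nat_lit 2) (nat_lit 1395) c7_9830_0
 (Tr.nd (nat_lit 169) (nat_lit 37) (nat_lit 1) (nat_lit 1297) c7_9830_0
 (Tr.nd (nat_lit 163) (nat_lit 63) (nat_lit 1) (nat_lit 1222) c7_9830_0
 (Tr.nd (nat_lit 162) (nat_lit 17) (nat_lit 5) (nat_lit 1137) c7_9830_0
 Tr.lf Tr.lf) (Tr.nd (nat_lit 168) (nat_lit 4) (nat_lit 3) (nat_lit 1285) c7_9830_0
 Tr.lf Tr.lf)) (Tr.nd (nat_lit 204) (nat_lit 5) (nat_lit 11) (nat_lit 1340) c7_9830_0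
 (Tr.nd (nat_lit 198) (nat_lit 2) (nat_lit 3) (nat_lit 1334) c7_9830_0
 Tr.lf Tr.lf) Tr.lf)) (Tr.nd (nat_lit 217) (nat_lit 6) (nat_lit 5) (nat_lit 1678) c7_9830_0
 (Tr.nd (nat_lit 211) (nat_lit 23) (nat_lit 5) (nat_lit 1463) c7_9830_0
 (Tr.nd (nat_lit 210) (nat_lit 2) (nat_lit 11) (nat_lit 1441) c7_9830_0
 Tr.lf Tr.lf) (Tr.nd (nat_lit 212) (nat_lit 100) (nat_lit 1) (nat_lit 1578) c7_9830_0
 Tr.lf Tr.lf)) (Tr.nd (nat_lit 247) (nat_lit 2) (nat_lit 1) (nat_lit 1769) c7_9830_0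
 (Tr.nd (nat_lit 218) (nat_lit 61) (nat_lit 1) (nat_lit 1708) c7_9830_0
 Tr.lf Tr.lf) Tr.lf))) (Tr.nd (nat_lit 268) (nat_lit 61) (nat_lit 1) (nat_lit 2143) c7_9830_0
 (Tr.nd (nat_lit 261) (nat_lit 116) (nat_lit 1) (nat_lit 1945) c7_9830_0
 (Tr.nd (nat_lit 259) (nat_lit 2) (nat_lit 5) (nat_lit 1815) c7_9830_0
 (Tr.nd (nat_lit 254) (nat_lit 24) (nat_lit 1) (nat_lit 1791) c7_9830_0
 Tr.lf Tr.lf) (Tr.nd (nat_lit 260) (nat_lit 24) (nat_lit 5) (nat_lit 1825) c7_9830_0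
 Tr.lf Tr.lf)) (Tr.nd (nat_lit 267) (nat_lit 75) (nat_lit 1) (nat_lit 2068) c7_9830_0
 (Tr.nd (nat_lit 266) (nat_lit 7) (nat_lit 1) (nat_lit 2061) c7_9830_0
 Tr.lf Tr.lf) Tr.lf)) (Tr.nd (nat_lit 310) (nat_lit 11) (nat_lit 1) (nat_lit 2222) c7_9830_0
 (Tr.nd (nat_lit 308) (nat_lit 1) (nat_lit 1) (nat_lit 2206) c7_9830_0
 (Tr.nd (nat_lit 302) (nat_lit 2) (nat_lit 1) (nat_lit 2204) c7_9830_0
 Tr.lf Tr.lf) (Tr.nd (nat_lit 309) (nat_lit 15) (nat_lit 1) (nat_lit 2207) c7_9830_0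
 Tr.lf Tr.lf)) (Tr.nd (nat_lit 317) (nat_lit 6) (nat_lit 1) (nat_lit 2240) c7_9830_0
 (Tr.nd (nat_lit 316) (nat_lit 7) (nat_lit 1) (nat_lit 2233) c7_9830_0
 Tr.lf Tr.lf) Tr.lf)))))

noncomputable def c7_9818_0 : List Nat := [(nat_lit 0xf5cb2d00481d6d62b360368668a1034d2cdac642ea22a6dd91c6962dd86cb0ac2b4281a593ab341d1956ead2196e7801a2a50af56a10d3466bb42ec2544acda6945745d8591b4f5686b59ad22ea949105211c492cd4521567092336aea8b98ac747b469e8469a8af6973db5cb565204800000000000000000211ab66151a92d5c2a596009c3908aadb639c785b409a9991556d20000000000000000006484836940baaac1d5cb18ca9ce621e88eae38c0506a50c018ea826b4b614420cd1ce9d596b123106a774b11000000000000008886685cc1b60ac0322ab35b26d60eab96d4d8c18a3cada48274128b7316988094c180a2148382a56b2db0f6560846032998b49d4b0cdc042f60695893b47262ea34a6f2159d0255d2c2cf6154068a1bd71b065b28038d9141c024a570c960558a09c751854ca2d5842d81c23051c0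0016b12a9369da10a0329ed8b02b66b51813279d01e0b4d098c83a9171a3680c65c200520004bb498252ab19a8ea0096368b6ab44546d4ad701599cad9228532c32e88c15a534921d2aa8da036203330369801241691d5464b988441182359775d18433a1acdb29995895294665b1a35666a379e7521581418a9db135bd8230021820d2150cb6cdd2d2e284a049223460d7308121866a88915565a31492d58bc888ed4ad2a829d4d94dcb0017154b9558901b4834b220018cb844d853a837105c26698063200000001529ca9c4314980d872aadeab5793000000000433d59a3354697107002540d30a21818ec552ea7140000000310c46a032d29a6299aedaaa3100096904639b06216e9311b2a937918417936e3c4b15309839eb8c77206678659cb422e0369ccbb52a230918281843600a1b43d68b04c4826dab38a10e53765aaac64dad93caa9080e89690060232f548152cd5aa41c09c99771af14f081441b36e822ae103046e12588ecc66608136f1ab072c7710eaba8164194c860013aeaaa20832aae0562d1e491b25da308511c726db24b2574145976a9501424c2111acb158e306d02879e945b89ae66a15916f1aca55c89059369db59a0571e8a52528f35a5110da8af550dab451042364061ec46712cd07084593663ab9830cc92241bc8cd5ac93110b507465b0dad0cd38adad3541750b0769669a42124c0b8a175a0edb884809965ae600)]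
noncomputable def T7_9818 : Op := Op.mk (nat_lit 25)
 (Tr.nd (nat_lit 161) (nat_lit 2) (nat_lit 17) (nat_lit 1103) c7_9818_0
 (Tr.nd (nat_lit 70) (nat_lit 1) (nat_lit 2) (nat_lit 430) c7_9818_0
 (Tr.nd (nat_lit 50) (nat_lit 1) (nat_lit 75) (nat_lit 103) c7_9818_0
 (Tr.nd (nat_lit 8) (nat_lit 1) (nat_lit 15) (nat_lit 24) c7_9818_0
 (Tr.nd (nat_lit 1) (nat_lit 1) (nat_lit 7) (nat_lit 6) c7_9818_0
 (Tr.nd (nat_lit 0) (nat_lit 1) (nat_lit 6) (nat_lit 0) c7_9818_0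
 Tr.lf Tr.lf) (Tr.nd (nat_lit 7) (nat_lit 1) (nat_lit 11) (nat_lit 13) c7_9818_0
 Tr.lf Tr.lf)) (Tr.nd (nat_lit 15) (nat_lit 1) (nat_lit 2) (nat_lit 40) c7_9818_0
 (Tr.nd (nat_lit 9) (nat_lit 1) (nat_lit 1) (nat_lit 39) c7_9818_0
 Tr.lf Tr.lf) (Tr.nd (nat_lit 49) (nat_lit 1) (nat_lit 61) (nat_lit 42) c7_9818_0
 Tr.lf Tr.lf))) (Tr.nd (nat_lit 58) (nat_lit 5) (nat_lit 2) (nat_lit 376) c7_9818_0
 (Tr.nd (nat_lit 56) (nat_lit 1) (nat_lit 116) (nat_lit 185) c7_9818_0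
 (Tr.nd (nat_lit 51) (nat_lit 1) (nat_lit 7) (nat_lit 178) c7_9818_0
 Tr.lf Tr.lf) (Tr.nd (nat_lit 57) (nat_lit 3) (nat_lit 25) (nat_lit 301) c7_9818_0
 Tr.lf Tr.lf)) (Tr.nd (nat_lit 64) (nat_lit 5) (nat_lit 4) (nat_lit 410) c7_9818_0
 (Tr.nd (nat_lit 63) (nat_lit 1) (nat_lit 24) (nat_lit 386) c7_9818_0
 Tr.lf Tr.lf) Tr.lf))) (Tr.nd (nat_lit 113) (nat_lit 10) (nat_lit 7) (nat_lit 798) c7_9818_0
 (Tr.nd (nat_lit 106) (nat_lit 5) (nat_lit 23) (nat_lit 607) c7_9818_0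
 (Tr.nd (nat_lit 100) (nat_lit 2) (nat_lit 7) (nat_lit 493) c7_9818_0
 (Tr.nd (nat_lit 99) (nat_lit 1) (nat_lit 61) (nat_lit 432) c7_9818_0
 Tr.lf Tr.lf) (Tr.nd (nat_lit 105) (nat_lit 1) (nat_lit 100) (nat_lit 507) c7_9818_0
 Tr.lf Tr.lf)) (Tr.nd (nat_lit 112) (nat_lit 2) (nat_lit 23) (nat_lit 752) c7_9818_0
 (Tr.nd (nat_lit 107) (nat_lit 10) (nat_lit 3) (nat_lit 722) c7_9818_0
 Tr.lf Tr.lf) Tr.lf)) (Tr.nd (nat_lit 154) (nat_lit 1) (nat_lit 63) (nat_lit 921) c7_9818_0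
 (Tr.nd (nat_lit 148) (nat_lit 1) (nat_lit 37) (nat_lit 874) c7_9818_0
 (Tr.nd (nat_lit 119) (nat_lit 2) (nat_lit 3) (nat_lit 868) c7_9818_0
 Tr.lf Tr.lf) (Tr.nd (nat_lit 149) (nat_lit 2) (nat_lit 5) (nat_lit 911) c7_9818_0
 Tr.lf Tr.lf)) (Tr.nd (nat_lit 156) (nat_lit 17) (nat_lit 2) (nat_lit 1069) c7_9818_0
 (Tr.nd (nat_lit 155) (nat_lit 5) (nat_lit 17) (nat_lit 984) c7_9818_0
 Tr.lf Tr.lf) Tr.lf)))) (Tr.nd (nat_lit 253) (nat_lit 4) (nat_lit 5) (nat_lit 1771) c7_9818_0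
 (Tr.nd (nat_lit 205) (nat_lit 23) (nat_lit 2) (nat_lit 1395) c7_9818_0
 (Tr.nd (nat_lit 169) (nat_lit 37) (nat_lit 1) (nat_lit 1297) c7_9818_0
 (Tr.nd (nat_lit 163) (nat_lit 63) (nat_lit 1) (nat_lit 1222) c7_9818_0
 (Tr.nd (nat_lit 162) (nat_lit 17) (nat_lit 5) (nat_lit 1137) c7_9818_0
 Tr.lf Tr.lf) (Tr.nd (nat_lit 168) (nat_lit 4) (nat_lit 3) (nat_lit 1285) c7_9818_0
 Tr.lf Tr.lf)) (Tr.nd (nat_lit 204) (nat_lit 5) (nat_lit 11) (nat_lit 1340) c7_9818_0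
 (Tr.nd (nat_lit 198) (nat_lit 2) (nat_lit 3) (nat_lit 1334) c7_9818_0
 Tr.lf Tr.lf) Tr.lf)) (Tr.nd (nat_lit 217) (nat_lit 6) (nat_lit 5) (nat_lit 1678) c7_9818_0
 (Tr.nd (nat_lit 211) (nat_lit 23) (nat_lit 5) (nat_lit 1463) c7_9818_0
 (Tr.nd (nat_lit 210) (nat_lit 2) (nat_lit 11) (nat_lit 1441) c7_9818_0
 Tr.lf Tr.lf) (Tr.nd (nat_lit 212) (nat_lit 100) (nat_lit 1) (nat_lit 1578) c7_9818_0
 Tr.lf Tr.lf)) (Tr.nd (nat_lit 247) (nat_lit 2) (nat_lit 1) (nat_lit 1769) c7_9818_0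
 (Tr.nd (nat_lit 218) (nat_lit 61) (nat_lit 1) (nat_lit 1708) c7_9818_0
 Tr.lf Tr.lf) Tr.lf))) (Tr.nd (nat_lit 268) (nat_lit 61) (nat_lit 1) (nat_lit 2143) c7_9818_0
 (Tr.nd (nat_lit 261) (nat_lit 116) (nat_lit 1) (nat_lit 1945) c7_9818_0
 (Tr.nd (nat_lit 259) (nat_lit 2) (nat_lit 5) (nat_lit 1815) c7_9818_0
 (Tr.nd (nat_lit 254) (nat_lit 24) (nat_lit 1) (nat_lit 1791) c7_9818_0
 Tr.lf Tr.lf) (Tr.nd (nat_lit 260) (nat_lit 24) (nat_lit 5) (nat_lit 1825) c7_9818_0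
 Tr.lf Tr.lf)) (Tr.nd (nat_lit 267) (nat_lit 75) (nat_lit 1) (nat_lit 2068) c7_9818_0
 (Tr.nd (nat_lit 266) (nat_lit 7) (nat_lit 1) (nat_lit 2061) c7_9818_0
 Tr.lf Tr.lf) Tr.lf)) (Tr.nd (nat_lit 310) (nat_lit 11) (nat_lit 1) (nat_lit 2222) c7_9818_0
 (Tr.nd (nat_lit 308) (nat_lit 1) (nat_lit 1) (nat_lit 2206) c7_9818_0
 (Tr.nd (nat_lit 302) (nat_lit 2) (nat_lit 1) (nat_lit 2204) c7_9818_0
 Tr.lf Tr.lf) (Tr.nd (nat_lit 309) (nat_lit 15) (nat_lit 1) (nat_lit 2207) c7_9818_0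
 Tr.lf Tr.lf)) (Tr.nd (nat_lit 317) (nat_lit 6) (nat_lit 1) (nat_lit 2240) c7_9818_0
 (Tr.nd (nat_lit 316) (nat_lit 7) (nat_lit 1) (nat_lit 2233) c7_9818_0
 Tr.lf Tr.lf) Tr.lf)))))

noncomputable def c7_9877_0 : List Nat := [(nat_lit 0x2b00044c6f2652c00009944166d9e1b6cb4d32d32b0c471a85d16882ac6172d269a57656043b660a4816b5ac2282d95da458564364c8d4368ac1b851a8b3676494c9104b38f0909795b6a8934a56026a64093a83b1b618a3d145a99055337a58c20aeaf22d2c25bab0d050b94131196285469e156b1e9326c0000000000000000033b80ac220898b8f5365a0e930d1c1538707064ce295288484880700000000000000000012242b9844cc4919804d51959cac40c0b856f4b3245d6e003456bab48b1a4245440c6cc3a429d82c21ba55a202c8ac83402e670a043b809a5c1bccc505b820a08716e8c40c046a02cb89e8c009dd3468ed88205b641324e24b676595aa914cdd2903184b0b57a60f670d6649939b5a64594534865b59320c4b9293468dd236acd8444097151840f03a0000c5070d75d5ae8914ac613d0b4687a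ab588cb580000000000000a0e0e9c6001c2db335d1c9080de96884ac042de5655a6d2e852930c0d511c437b23ae6e2259153ccdd1a8a56255a3bb6948140d2ec9185b184aa4665db1c5c616c5392db8d3540a90646a5359cb1981626018d0b30264a28195a2a09152cc3b05260f3c647314cd24566cd21d8d59c393109490108ad434c2a8ce5852a06020ce035191a3b20e338edac2e4560c1b30a4001b0a358545a5b1a72b30d99ecced5015951bd715b360e2a2a461a448cd66d32b2acd980644c16ccc0000000ae071c93025c2de020c6d0ce2000000006b543422601e68da62cebb0c4c9a9d00000002a79a553a669a329c1212616c22e98ca95e2a6ac48748b6c739a9b5e134d4dc3061892926154831dc25b8521c8264b14aa76595ec928d2d0496d0083b629cd356800e66a32c8022734133ad8d668060e90822466ce304415c2831e8c81482e82c882d46b60ca2568c98c2dc214452069ca4cabb54c008dd652d2ccdd1a80c4615799915240789c6ac0a10a0c9400a0493545942d8707a02db28a02038b8812eeb26c1b902110c86d6a000000002923a0234a36585042a2a58443284abae8d068acb2200016890dca299c50cb4ec45d6a97399535515d9ac83414c08c40e08bb48b0582c8a9334a5686604a05eba2c811947701349214a8a93c186f6c600ecaecd34996a307505329a854e2a19569969a65b6c000652ccc4c0001922d66e128001d)]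
noncomputable def T7_9877 : Op := Op.mk (nat_lit 31)
 (Tr.nd (nat_lit 156) (nat_lit 17) (nat_lit 5) (nat_lit 1105) c7_9877_0
 (Tr.nd (nat_lit 64) (nat_lit 5) (nat_lit 2) (nat_lit 422) c7_9877_0
 (Tr.nd (nat_lit 50) (nat_lit 1) (nat_lit 116) (nat_lit 103) c7_9877_0
 (Tr.nd (nat_lit 8) (nat_lit 1) (nat_lit 15) (nat_lit 24) c7_9877_0
 (Tr.nd (nat_lit 1) (nat_lit 1) (nat_lit 11) (nat_lit 6) c7_9877_0
 (Tr.nd (nat_lit 0) (nat_lit 1) (nat_lit 6) (nat_lit 0) c7_9877_0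
 Tr.lf Tr.lf) (Tr.nd (nat_lit 7) (nat_lit 1) (nat_lit 7) (nat_lit 17) c7_9877_0
 Tr.lf Tr.lf)) (Tr.nd (nat_lit 15) (nat_lit 1) (nat_lit 1) (nat_lit 41) c7_9877_0
 (Tr.nd (nat_lit 9) (nat_lit 1) (nat_lit 2) (nat_lit 39) c7_9877_0
 Tr.lf Tr.lf) (Tr.nd (nat_lit 49) (nat_lit 1) (nat_lit 61) (nat_lit 42) c7_9877_0
 Tr.lf Tr.lf))) (Tr.nd (nat_lit 57) (nat_lit 3) (nat_lit 25) (nat_lit 320) c7_9877_0
 (Tr.nd (nat_lit 52) (nat_lit 1) (nat_lit 2) (nat_lit 243) c7_9877_0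
 (Tr.nd (nat_lit 51) (nat_lit 1) (nat_lit 24) (nat_lit 219) c7_9877_0
 Tr.lf Tr.lf) (Tr.nd (nat_lit 56) (nat_lit 1) (nat_lit 75) (nat_lit 245) c7_9877_0
 Tr.lf Tr.lf)) (Tr.nd (nat_lit 63) (nat_lit 1) (nat_lit 7) (nat_lit 415) c7_9877_0
 (Tr.nd (nat_lit 58) (nat_lit 5) (nat_lit 4) (nat_lit 395) c7_9877_0
 Tr.lf Tr.lf) Tr.lf))) (Tr.nd (nat_lit 112) (nat_lit 2) (nat_lit 7) (nat_lit 830) c7_9877_0
 (Tr.nd (nat_lit 105) (nat_lit 1) (nat_lit 61) (nat_lit 584) c7_9877_0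
 (Tr.nd (nat_lit 100) (nat_lit 2) (nat_lit 23) (nat_lit 532) c7_9877_0
 (Tr.nd (nat_lit 99) (nat_lit 1) (nat_lit 100) (nat_lit 432) c7_9877_0
 Tr.lf Tr.lf) (Tr.nd (nat_lit 101) (nat_lit 2) (nat_lit 3) (nat_lit 578) c7_9877_0
 Tr.lf Tr.lf)) (Tr.nd (nat_lit 107) (nat_lit 10) (nat_lit 7) (nat_lit 760) c7_9877_0
 (Tr.nd (nat_lit 106) (nat_lit 5) (nat_lit 23) (nat_lit 645) c7_9877_0
 Tr.lf Tr.lf) Tr.lf)) (Tr.nd (nat_lit 150) (nat_lit 4) (nat_lit 3) (nat_lit 971) c7_9877_0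
 (Tr.nd (nat_lit 148) (nat_lit 1) (nat_lit 63) (nat_lit 874) c7_9877_0
 (Tr.nd (nat_lit 113) (nat_lit 10) (nat_lit 3) (nat_lit 844) c7_9877_0
 Tr.lf Tr.lf) (Tr.nd (nat_lit 149) (nat_lit 2) (nat_lit 17) (nat_lit 937) c7_9877_0
 Tr.lf Tr.lf)) (Tr.nd (nat_lit 155) (nat_lit 5) (nat_lit 17) (nat_lit 1020) c7_9877_0
 (Tr.nd (nat_lit 154) (nat_lit 1) (nat_lit 37) (nat_lit 983) c7_9877_0
 Tr.lf Tr.lf) Tr.lf)))) (Tr.nd (nat_lit 248) (nat_lit 7) (nat_lit 1) (nat_lit 1779) c7_9877_0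
 (Tr.nd (nat_lit 204) (nat_lit 5) (nat_lit 11) (nat_lit 1386) c7_9877_0
 (Tr.nd (nat_lit 163) (nat_lit 63) (nat_lit 1) (nat_lit 1271) c7_9877_0
 (Tr.nd (nat_lit 161) (nat_lit 2) (nat_lit 5) (nat_lit 1227) c7_9877_0
 (Tr.nd (nat_lit 157) (nat_lit 37) (nat_lit 1) (nat_lit 1190) c7_9877_0
 Tr.lf Tr.lf) (Tr.nd (nat_lit 162) (nat_lit 17) (nat_lit 2) (nat_lit 1237) c7_9877_0
 Tr.lf Tr.lf)) (Tr.nd (nat_lit 199) (nat_lit 6) (nat_lit 5) (nat_lit 1356) c7_9877_0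
 (Tr.nd (nat_lit 198) (nat_lit 2) (nat_lit 11) (nat_lit 1334) c7_9877_0
 Tr.lf Tr.lf) Tr.lf)) (Tr.nd (nat_lit 211) (nat_lit 23) (nat_lit 2) (nat_lit 1623) c7_9877_0
 (Tr.nd (nat_lit 206) (nat_lit 61) (nat_lit 1) (nat_lit 1556) c7_9877_0
 (Tr.nd (nat_lit 205) (nat_lit 23) (nat_lit 5) (nat_lit 1441) c7_9877_0
 Tr.lf Tr.lf) (Tr.nd (nat_lit 210) (nat_lit 2) (nat_lit 3) (nat_lit 1617) c7_9877_0
 Tr.lf Tr.lf)) (Tr.nd (nat_lit 247) (nat_lit 2) (nat_lit 5) (nat_lit 1769) c7_9877_0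
 (Tr.nd (nat_lit 212) (nat_lit 100) (nat_lit 1) (nat_lit 1669) c7_9877_0
 Tr.lf Tr.lf) Tr.lf))) (Tr.nd (nat_lit 262) (nat_lit 61) (nat_lit 1) (nat_lit 2143) c7_9877_0
 (Tr.nd (nat_lit 259) (nat_lit 2) (nat_lit 1) (nat_lit 2001) c7_9877_0
 (Tr.nd (nat_lit 254) (nat_lit 24) (nat_lit 5) (nat_lit 1806) c7_9877_0
 (Tr.nd (nat_lit 253) (nat_lit 4) (nat_lit 5) (nat_lit 1786) c7_9877_0
 Tr.lf Tr.lf) (Tr.nd (nat_lit 255) (nat_lit 75) (nat_lit 1) (nat_lit 1926) c7_9877_0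
 Tr.lf Tr.lf)) (Tr.nd (nat_lit 261) (nat_lit 116) (nat_lit 1) (nat_lit 2027) c7_9877_0
 (Tr.nd (nat_lit 260) (nat_lit 24) (nat_lit 1) (nat_lit 2003) c7_9877_0
 Tr.lf Tr.lf) Tr.lf)) (Tr.nd (nat_lit 304) (nat_lit 7) (nat_lit 1) (nat_lit 2222) c7_9877_0
 (Tr.nd (nat_lit 302) (nat_lit 2) (nat_lit 1) (nat_lit 2205) c7_9877_0
 (Tr.nd (nat_lit 296) (nat_lit 1) (nat_lit 1) (nat_lit 2204) c7_9877_0
 Tr.lf Tr.lf) (Tr.nd (nat_lit 303) (nat_lit 15) (nat_lit 1) (nat_lit 2207) c7_9877_0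
 Tr.lf Tr.lf)) (Tr.nd (nat_lit 311) (nat_lit 6) (nat_lit 1) (nat_lit 2240) c7_9877_0
 (Tr.nd (nat_lit 310) (nat_lit 11) (nat_lit 1) (nat_lit 2229) c7_9877_0
 Tr.lf Tr.lf) Tr.lf)))))

noncomputable def c7_9829_0 : List Nat := [(nat_lit 0xe0c09b4d5c4e64100322323b5a11c884d659359b465302611283060746c16992cc3c8d205aa112e9448d2536493611a6288a42e2a12ccc2019338c072d3386ecd380a2e52d64a6c49c5e262152073d8eac95454a20744e87a94d24c279520b095516a1451e16c35065e89da9a11bad396969041e35385d2c00000000000000000290f6b6a0152e5774d61606a91911d4a6ab06b8d914566904dc4c90000000000000000001a70399ac6cb9ea22089059b202810f012c1aa929d018ab66bab548e3805284ea24d8f28cc18194250234db2adab80d654cc0484a1b686a714461a5049b29a1a07304987400422e9416731804ea316b2cc1076e86169dcf5bb466ac3109d5b6cf666e98a90d32a5309804c6296af1259700d95060c084b43487502204ab6453b6a89d89134a0b0b61800006017556a9a9a314b7280214692989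d72a589980000000000000c1d06508c02201ec0eae3494a1268a71271eb6b5560b469068d34d6f48f4a6ea12a54c6a85911341a8cc31ba8d1350f2a1004b60b59cd912268094456c9a4473000dccd13528e666931035a090898a6c431531895080139b211ac99c8a30345525d80019624e29044a0acb1e08c2e69009a1293aeeb890532a32420430623350f01767a90068e03496e828913404ada3c000d12d90a59985806652c828b95c5520dc54e88d485d4d99c99ba69a53093990caa76dce34a3453480000000c04c834cdc9a1250080e6855a000000006838528aa073b4352dcdca9110837400000002c488ba5c41a2a116b2107610bd88c5a6107855307556abc8d2060026f19b1d21c0c421c31d8a471d9568e314a68c35681c32a5cdadcf5699866b58434b2e50aad0183c59166020341d66381c417aaae832030821a39500b8cd0900f445d223bb2b2d34a1121611842e2ce524aad0b1018e295caba5baa1131b22b84b00cc182971104128298e126b5b5320eb6008e379d29546da18765c2546134911d57064ba66a6aa7010d43621ca80c951a07616b510b4e6b51768a8b59c713c6b4548b691b5669b6c4069268dcc56a62144a8b84956315994b0365a6266f205d0c044ac2084348c50c2140420298e28d22ecc0eca06a931e9a44cb688c60c0c568069598792d321b0ac421844a0d086c29bc9acb2681422510910db10020b46a3ba6d00631)]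
noncomputable def T7_9829 : Op := Op.mk (nat_lit 31)
 (Tr.nd (nat_lit 156) (nat_lit 17) (nat_lit 5) (nat_lit 1105) c7_9829_0
 (Tr.nd (nat_lit 64) (nat_lit 5) (nat_lit 2) (nat_lit 422) c7_9829_0
 (Tr.nd (nat_lit 50) (nat_lit 1) (nat_lit 116) (nat_lit 103) c7_9829_0
 (Tr.nd (nat_lit 8) (nat_lit 1) (nat_lit 15) (nat_lit 24) c7_9829_0
 (Tr.nd (nat_lit 1) (nat_lit 1) (nat_lit 11) (nat_lit 6) c7_9829_0
 (Tr.nd (nat_lit 0) (nat_lit 1) (nat_lit 6) (nat_lit 0) c7_9829_0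
 Tr.lf Tr.lf) (Tr.nd (nat_lit 7) (nat_lit 1) (nat_lit 7) (nat_lit 17) c7_9829_0
 Tr.lf Tr.lf)) (Tr.nd (nat_lit 15) (nat_lit 1) (nat_lit 1) (nat_lit 41) c7_9829_0
 (Tr.nd (nat_lit 9) (nat_lit 1) (nat_lit 2) (nat_lit 39) c7_9829_0
 Tr.lf Tr.lf) (Tr.nd (nat_lit 49) (nat_lit 1) (nat_lit 61) (nat_lit 42) c7_9829_0
 Tr.lf Tr.lf))) (Tr.nd (nat_lit 57) (nat_lit 3) (nat_lit 25) (nat_lit 320) c7_9829_0
 (Tr.nd (nat_lit 52) (nat_lit 1) (nat_lit 2) (nat_lit 243) c7_9829_0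
 (Tr.nd (nat_lit 51) (nat_lit 1) (nat_lit 24) (nat_lit 219) c7_9829_0
 Tr.lf Tr.lf) (Tr.nd (nat_lit 56) (nat_lit 1) (nat_lit 75) (nat_lit 245) c7_9829_0
 Tr.lf Tr.lf)) (Tr.nd (nat_lit 63) (nat_lit 1) (nat_lit 7) (nat_lit 415) c7_9829_0
 (Tr.nd (nat_lit 58) (nat_lit 5) (nat_lit 4) (nat_lit 395) c7_9829_0
 Tr.lf Tr.lf) Tr.lf))) (Tr.nd (nat_lit 112) (nat_lit 2) (nat_lit 7) (nat_lit 830) c7_9829_0
 (Tr.nd (nat_lit 105) (nat_lit 1) (nat_lit 61) (nat_lit 584) c7_9829_0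
 (Tr.nd (nat_lit 100) (nat_lit 2) (nat_lit 23) (nat_lit 532) c7_9829_0
 (Tr.nd (nat_lit 99) (nat_lit 1) (nat_lit 100) (nat_lit 432) c7_9829_0
 Tr.lf Tr.lf) (Tr.nd (nat_lit 101) (nat_lit 2) (nat_lit 3) (nat_lit 578) c7_9829_0
 Tr.lf Tr.lf)) (Tr.nd (nat_lit 107) (nat_lit 10) (nat_lit 7) (nat_lit 760) c7_9829_0
 (Tr.nd (nat_lit 106) (nat_lit 5) (nat_lit 23) (nat_lit 645) c7_9829_0
 Tr.lf Tr.lf) Tr.lf)) (Tr.nd (nat_lit 150) (nat_lit 4) (nat_lit 3) (nat_lit 971) c7_9829_0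
 (Tr.nd (nat_lit 148) (nat_lit 1) (nat_lit 63) (nat_lit 874) c7_9829_0
 (Tr.nd (nat_lit 113) (nat_lit 10) (nat_lit 3) (nat_lit 844) c7_9829_0
 Tr.lf Tr.lf) (Tr.nd (nat_lit 149) (nat_lit 2) (nat_lit 17) (nat_lit 937) c7_9829_0
 Tr.lf Tr.lf)) (Tr.nd (nat_lit 155) (nat_lit 5) (nat_lit 17) (nat_lit 1020) c7_9829_0
 (Tr.nd (nat_lit 154) (nat_lit 1) (nat_lit 37) (nat_lit 983) c7_9829_0
 Tr.lf Tr.lf) Tr.lf)))) (Tr.nd (nat_lit 248) (nat_lit 7) (nat_lit 1) (nat_lit 1779) c7_9829_0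
 (Tr.nd (nat_lit 204) (nat_lit 5) (nat_lit 11) (nat_lit 1386) c7_9829_0
 (Tr.nd (nat_lit 163) (nat_lit 63) (nat_lit 1) (nat_lit 1271) c7_9829_0
 (Tr.nd (nat_lit 161) (nat_lit 2) (nat_lit 5) (nat_lit 1227) c7_9829_0
 (Tr.nd (nat_lit 157) (nat_lit 37) (nat_lit 1) (nat_lit 1190) c7_9829_0
 Tr.lf Tr.lf) (Tr.nd (nat_lit 162) (nat_lit 17) (nat_lit 2) (nat_lit 1237) c7_9829_0
 Tr.lf Tr.lf)) (Tr.nd (nat_lit 199) (nat_lit 6) (nat_lit 5) (nat_lit 1356) c7_9829_0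
 (Tr.nd (nat_lit 198) (nat_lit 2) (nat_lit 11) (nat_lit 1334) c7_9829_0
 Tr.lf Tr.lf) Tr.lf)) (Tr.nd (nat_lit 211) (nat_lit 23) (nat_lit 2) (nat_lit 1623) c7_9829_0
 (Tr.nd (nat_lit 206) (nat_lit 61) (nat_lit 1) (nat_lit 1556) c7_9829_0
 (Tr.nd (nat_lit 205) (nat_lit 23) (nat_lit 5) (nat_lit 1441) c7_9829_0
 Tr.lf Tr.lf) (Tr.nd (nat_lit 210) (nat_lit 2) (nat_lit 3) (nat_lit 1617) c7_9829_0
 Tr.lf Tr.lf)) (Tr.nd (nat_lit 247) (nat_lit 2) (nat_lit 5) (nat_lit 1769) c7_9829_0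
 (Tr.nd (nat_lit 212) (nat_lit 100) (nat_lit 1) (nat_lit 1669) c7_9829_0
 Tr.lf Tr.lf) Tr.lf))) (Tr.nd (nat_lit 262) (nat_lit 61) (nat_lit 1) (nat_lit 2143) c7_9829_0
 (Tr.nd (nat_lit 259) (nat_lit 2) (nat_lit 1) (nat_lit 2001) c7_9829_0
 (Tr.nd (nat_lit 254) (nat_lit 24) (nat_lit 5) (nat_lit 1806) c7_9829_0
 (Tr.nd (nat_lit 253) (nat_lit 4) (nat_lit 5) (nat_lit 1786) c7_9829_0
 Tr.lf Tr.lf) (Tr.nd (nat_lit 255) (nat_lit 75) (nat_lit 1) (nat_lit 1926) c7_9829_0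
 Tr.lf Tr.lf)) (Tr.nd (nat_lit 261) (nat_lit 116) (nat_lit 1) (nat_lit 2027) c7_9829_0
 (Tr.nd (nat_lit 260) (nat_lit 24) (nat_lit 1) (nat_lit 2003) c7_9829_0
 Tr.lf Tr.lf) Tr.lf)) (Tr.nd (nat_lit 304) (nat_lit 7) (nat_lit 1) (nat_lit 2222) c7_9829_0
 (Tr.nd (nat_lit 302) (nat_lit 2) (nat_lit 1) (nat_lit 2205) c7_9829_0
 (Tr.nd (nat_lit 296) (nat_lit 1) (nat_lit 1) (nat_lit 2204) c7_9829_0
 Tr.lf Tr.lf) (Tr.nd (nat_lit 303) (nat_lit 15) (nat_lit 1) (nat_lit 2207) c7_9829_0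
 Tr.lf Tr.lf)) (Tr.nd (nat_lit 311) (nat_lit 6) (nat_lit 1) (nat_lit 2240) c7_9829_0
 (Tr.nd (nat_lit 310) (nat_lit 11) (nat_lit 1) (nat_lit 2229) c7_9829_0
 Tr.lf Tr.lf) Tr.lf)))))

noncomputable def c7_9817_0 : List Nat := [(nat_lit 0x1438cc24c750ed396618a237880c904a9a59669465605a4b510b0272adba13af4a0b32c042d656b446ec9c228c62ce8a93685442228325b14a2932cc75a2a0e88032b08850f349e524c617428f2661048790764a1974510c66e5152a998090c932d09b9ca4a02911230492561849d89b54048890425302b740000000000000000001af0d9b013c34b1a8c5c3610d64c74c625d73cf269c5233980a3c000000000000000000211416ed01339cd84a96ae6c486ca590793a2376a8a9236065b545124a22ac4a3830b35524b4d24991a4a0d63341a0aa6511a941d9d149195b6360d95bcf4dae54a274472a0505eb462c18f0a916caa9426225ed9ed853b244d486549a4c45ad1d2edc133a3d1d8c24c2a6650e526282570253135b934250938c08490b202d398a68b23d09d748cd760000acbd48450a630296d0a09b2ac098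6e8ce971b80000000000000c8158958e019600ade0ca63409e6ee4e19b5a6c0f62d049085a74d84c5a94b6012ca651ea487655b56b3ac516640284d4a001e82ca2bc9ac9022b4b0806b0188c8c68ac251836226671225bb202b04d025832a0d18155001e0460b06714f40acc286da74ea28186d012a6036b51d5c04b2c9c3112b231b456a25808802190c4034d4253072150897010649d04259359d00012bba011a654a32b2800ab716b05a574dce2d16480d9237284ca6b4cc092099d9894dbb431ad5bcc0000000c9c0022d8b8365800a40edb128000000056dac81ab06d4ec266da53083330d3000000000249ab10a0753796db40cd6ea7b39819992450a08ad0ac2a65682b2300a99b60d1110ca1c2d428994353546c6dabb4269356095252d8d1b67b664a84c4aa2d94a8ce10ce16e0290edd50ccd356a75d76654263315ab0c606de16270586a22914b97089272124d36c915d28c23894a8a89251456d846c09aa2b5b82b59859227385e0ee4ac0c6d58381ae115380055d605c8c7660d86069b40b16e30d68b6c6b7439241990632c6576c814c604ad535ab408b2c89299a048a62b22256cee31e009a2230415546a8b52e1828acb164b2281d20049b62570101d71171126811cd9539b86821aab0b9295d8b56b35867147a9066894971b0d4a81598ecb9022585916675a15b75624640ab64c84ab0b34b2cd1132869db01d6c0f2c6d62e3a41a1c62)]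
noncomputable def T7_9817 : Op := Op.mk (nat_lit 31)
 (Tr.nd (nat_lit 156) (nat_lit 17) (nat_lit 5) (nat_lit 1105) c7_9817_0
 (Tr.nd (nat_lit 64) (nat_lit 5) (nat_lit 2) (nat_lit 422) c7_9817_0
 (Tr.nd (nat_lit 50) (nat_lit 1) (nat_lit 116) (nat_lit 103) c7_9817_0
 (Tr.nd (nat_lit 8) (nat_lit 1) (nat_lit 15) (nat_lit 24) c7_9817_0
 (Tr.nd (nat_lit 1) (nat_lit 1) (nat_lit 11) (nat_lit 6) c7_9817_0
 (Tr.nd (nat_lit 0) (nat_lit 1) (nat_lit 6) (nat_lit 0) c7_9817_0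
 Tr.lf Tr.lf) (Tr.nd (nat_lit 7) (nat_lit 1) (nat_lit 7) (nat_lit 17) c7_9817_0
 Tr.lf Tr.lf)) (Tr.nd (nat_lit 15) (nat_lit 1) (nat_lit 1) (nat_lit 41) c7_9817_0
 (Tr.nd (nat_lit 9) (nat_lit 1) (nat_lit 2) (nat_lit 39) c7_9817_0
 Tr.lf Tr.lf) (Tr.nd (nat_lit 49) (nat_lit 1) (nat_lit 61) (nat_lit 42) c7_9817_0
 Tr.lf Tr.lf))) (Tr.nd (nat_lit 57) (nat_lit 3) (nat_lit 25) (nat_lit 320) c7_9817_0
 (Tr.nd (nat_lit 52) (nat_lit 1) (nat_lit 2) (nat_lit 243) c7_9817_0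
 (Tr.nd (nat_lit 51) (nat_lit 1) (nat_lit 24) (nat_lit 219) c7_9817_0
 Tr.lf Tr.lf) (Tr.nd (nat_lit 56) (nat_lit 1) (nat_lit 75) (nat_lit 245) c7_9817_0
 Tr.lf Tr.lf)) (Tr.nd (nat_lit 63) (nat_lit 1) (nat_lit 7) (nat_lit 415) c7_9817_0
 (Tr.nd (nat_lit 58) (nat_lit 5) (nat_lit 4) (nat_lit 395) c7_9817_0
 Tr.lf Tr.lf) Tr.lf))) (Tr.nd (nat_lit 112) (nat_lit 2) (nat_lit 7) (nat_lit 830) c7_9817_0
 (Tr.nd (nat_lit 105) (nat_lit 1) (nat_lit 61) (nat_lit 584) c7_9817_0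
 (Tr.nd (nat_lit 100) (nat_lit 2) (nat_lit 23) (nat_lit 532) c7_9817_0
 (Tr.nd (nat_lit 99) (nat_lit 1) (nat_lit 100) (nat_lit 432) c7_9817_0
 Tr.lf Tr.lf) (Tr.nd (nat_lit 101) (nat_lit 2) (nat_lit 3) (nat_lit 578) c7_9817_0
 Tr.lf Tr.lf)) (Tr.nd (nat_lit 107) (nat_lit 10) (nat_lit 7) (nat_lit 760) c7_9817_0
 (Tr.nd (nat_lit 106) (nat_lit 5) (nat_lit 23) (nat_lit 645) c7_9817_0
 Tr.lf Tr.lf) Tr.lf)) (Tr.nd (nat_lit 150) (nat_lit 4) (nat_lit 3) (nat_lit 971) c7_9817_0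
 (Tr.nd (nat_lit 148) (nat_lit 1) (nat_lit 63) (nat_lit 874) c7_9817_0
 (Tr.nd (nat_lit 113) (nat_lit 10) (nat_lit 3) (nat_lit 844) c7_9817_0
 Tr.lf Tr.lf) (Tr.nd (nat_lit 149) (nat_lit 2) (nat_lit 17) (nat_lit 937) c7_9817_0
 Tr.lf Tr.lf)) (Tr.nd (nat_lit 155) (nat_lit 5) (nat_lit 17) (nat_lit 1020) c7_9817_0
 (Tr.nd (nat_lit 154) (nat_lit 1) (nat_lit 37) (nat_lit 983) c7_9817_0
 Tr.lf Tr.lf) Tr.lf)))) (Tr.nd (nat_lit 248) (nat_lit 7) (nat_lit 1) (nat_lit 1779) c7_9817_0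
 (Tr.nd (nat_lit 204) (nat_lit 5) (nat_lit 11) (nat_lit 1386) c7_9817_0
 (Tr.nd (nat_lit 163) (nat_lit 63) (nat_lit 1) (nat_lit 1271) c7_9817_0
 (Tr.nd (nat_lit 161) (nat_lit 2) (nat_lit 5) (nat_lit 1227) c7_9817_0
 (Tr.nd (nat_lit 157) (nat_lit 37) (nat_lit 1) (nat_lit 1190) c7_9817_0
 Tr.lf Tr.lf) (Tr.nd (nat_lit 162) (nat_lit 17) (nat_lit 2) (nat_lit 1237) c7_9817_0
 Tr.lf Tr.lf)) (Tr.nd (nat_lit 199) (nat_lit 6) (nat_lit 5) (nat_lit 1356) c7_9817_0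
 (Tr.nd (nat_lit 198) (nat_lit 2) (nat_lit 11) (nat_lit 1334) c7_9817_0
 Tr.lf Tr.lf) Tr.lf)) (Tr.nd (nat_lit 211) (nat_lit 23) (nat_lit 2) (nat_lit 1623) c7_9817_0
 (Tr.nd (nat_lit 206) (nat_lit 61) (nat_lit 1) (nat_lit 1556) c7_9817_0
 (Tr.nd (nat_lit 205) (nat_lit 23) (nat_lit 5) (nat_lit 1441) c7_9817_0
 Tr.lf Tr.lf) (Tr.nd (nat_lit 210) (nat_lit 2) (nat_lit 3) (nat_lit 1617) c7_9817_0
 Tr.lf Tr.lf)) (Tr.nd (nat_lit 247) (nat_lit 2) (nat_lit 5) (nat_lit 1769) c7_9817_0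
 (Tr.nd (nat_lit 212) (nat_lit 100) (nat_lit 1) (nat_lit 1669) c7_9817_0
 Tr.lf Tr.lf) Tr.lf))) (Tr.nd (nat_lit 262) (nat_lit 61) (nat_lit 1) (nat_lit 2143) c7_9817_0
 (Tr.nd (nat_lit 259) (nat_lit 2) (nat_lit 1) (nat_lit 2001) c7_9817_0
 (Tr.nd (nat_lit 254) (nat_lit 24) (nat_lit 5) (nat_lit 1806) c7_9817_0
 (Tr.nd (nat_lit 253) (nat_lit 4) (nat_lit 5) (nat_lit 1786) c7_9817_0
 Tr.lf Tr.lf) (Tr.nd (nat_lit 255) (nat_lit 75) (nat_lit 1) (nat_lit 1926) c7_9817_0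
 Tr.lf Tr.lf)) (Tr.nd (nat_lit 261) (nat_lit 116) (nat_lit 1) (nat_lit 2027) c7_9817_0
 (Tr.nd (nat_lit 260) (nat_lit 24) (nat_lit 1) (nat_lit 2003) c7_9817_0
 Tr.lf Tr.lf) Tr.lf)) (Tr.nd (nat_lit 304) (nat_lit 7) (nat_lit 1) (nat_lit 2222) c7_9817_0
 (Tr.nd (nat_lit 302) (nat_lit 2) (nat_lit 1) (nat_lit 2205) c7_9817_0
 (Tr.nd (nat_lit 296) (nat_lit 1) (nat_lit 1) (nat_lit 2204) c7_9817_0
 Tr.lf Tr.lf) (Tr.nd (nat_lit 303) (nat_lit 15) (nat_lit 1) (nat_lit 2207) c7_9817_0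
 Tr.lf Tr.lf)) (Tr.nd (nat_lit 311) (nat_lit 6) (nat_lit 1) (nat_lit 2240) c7_9817_0
 (Tr.nd (nat_lit 310) (nat_lit 11) (nat_lit 1) (nat_lit 2229) c7_9817_0
 Tr.lf Tr.lf) Tr.lf)))))

noncomputable def c7_9814_0 : List Nat := [(nat_lit 0x2ebac9a6970db02dc71c6e551a572c19000000000915a4e098ca80902d80e9c90005ad967560c52bacb52e1ac98539a489242533ab68d0804db0a7124d24a292c1d532020233b162e40244052509abd344738e5044056276a49b363a29b199375165255545cb6b52c9108d09058e0a43aac31a4e3ad539d74000000000000000001a883b6500488ac212e1c1e1066e8601186a48364a89761541d1b90000000000000000000ed865b343445a66aa0a4a127323215419ea2071d8b22d4c34c26094910020c8a2424940b6a862b6d236829b20aec5d3a12e2b8c24289966265b51184a202d84b5b39dc8600421471934620c0ad436cdbb0a58cc43c00c542b2b0ca214cba14970cac12270da5ea6478b942b360c8322a7306ec8454dd4d1a18e838000456c05aa6d004c1d0e06ae010000d682134a6744aa099b818d04506b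402a485390000000000000020c44b86c00d5484181a20f134a199a80c6337294391db30aae5a85ae8dc142840773ad252920d8b1871aad21db18742b6009d2d2c72b6da460f0d461144757016d2b9ac614abc0235e8b3ce2a80853ab3c1229a9a9c40669b8e80ed9a17034b4c63164f34c408b292816d0a256aee64c5ab4b603535e2e0002b2ac10d49c53a5ecccd526c88ee2a2830b8663036db5620007355271520b2d5ac1365ab583494836a49d7ab00c4288dcd72172d551a5ae462c5a970e0152f04400000001410eab9958850802a84984c60000000053082b90418e901420844115755da200000001a15d6d4510742b0200130826d440356150af5ac3bb5963b88ae4cf5d2531914dccb02a8301a52803ad922820c9c1a32d182c32ac8c47003307439232b6f6c15a8420e14971c0202810746c96a90720893344aacdbb23cd40113aa8c998d676a82da209b936c8e0aec8449204a2b0800524486834c344caca571882e784542d8984169222ab813924f67161b320039e190a2cb8d150ae1360d081010dd8838886640d131a0ec05e931bb2b08d92c1a2c5b8c6d99964a106900e02ca197205350b30da82e4ccc7694937627222022c6d22691a8a9b7b37a6941caad18519610a2b575c92ccd8153314504147a56140d601c6166f41105add920de8a10ee2cb76800258d60364240558343136a90000000000b0da4198d668a8e3646d86b34d25d75)]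
noncomputable def T7_9814 : Op := Op.mk (nat_lit 31)
 (Tr.nd (nat_lit 156) (nat_lit 17) (nat_lit 5) (nat_lit 1105) c7_9814_0
 (Tr.nd (nat_lit 64) (nat_lit 5) (nat_lit 2) (nat_lit 422) c7_9814_0
 (Tr.nd (nat_lit 50) (nat_lit 1) (nat_lit 116) (nat_lit 103) c7_9814_0
 (Tr.nd (nat_lit 8) (nat_lit 1) (nat_lit 15) (nat_lit 24) c7_9814_0
 (Tr.nd (nat_lit 1) (nat_lit 1) (nat_lit 11) (nat_lit 6) c7_9814_0
 (Tr.nd (nat_lit 0) (nat_lit 1) (nat_lit 6) (nat_lit 0) c7_9814_0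
 Tr.lf Tr.lf) (Tr.nd (nat_lit 7) (nat_lit 1) (nat_lit 7) (nat_lit 17) c7_9814_0
 Tr.lf Tr.lf)) (Tr.nd (nat_lit 15) (nat_lit 1) (nat_lit 1) (nat_lit 41) c7_9814_0
 (Tr.nd (nat_lit 9) (nat_lit 1) (nat_lit 2) (nat_lit 39) c7_9814_0
 Tr.lf Tr.lf) (Tr.nd (nat_lit 49) (nat_lit 1) (nat_lit 61) (nat_lit 42) c7_9814_0
 Tr.lf Tr.lf))) (Tr.nd (nat_lit 57) (nat_lit 3) (nat_lit 25) (nat_lit 320) c7_9814_0
 (Tr.nd (nat_lit 52) (nat_lit 1) (nat_lit 2) (nat_lit 243) c7_9814_0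
 (Tr.nd (nat_lit 51) (nat_lit 1) (nat_lit 24) (nat_lit 219) c7_9814_0
 Tr.lf Tr.lf) (Tr.nd (nat_lit 56) (nat_lit 1) (nat_lit 75) (nat_lit 245) c7_9814_0
 Tr.lf Tr.lf)) (Tr.nd (nat_lit 63) (nat_lit 1) (nat_lit 7) (nat_lit 415) c7_9814_0
 (Tr.nd (nat_lit 58) (nat_lit 5) (nat_lit 4) (nat_lit 395) c7_9814_0
 Tr.lf Tr.lf) Tr.lf))) (Tr.nd (nat_lit 112) (nat_lit 2) (nat_lit 7) (nat_lit 830) c7_9814_0
 (Tr.nd (nat_lit 105) (nat_lit 1) (nat_lit 61) (nat_lit 584) c7_9814_0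
 (Tr.nd (nat_lit 100) (nat_lit 2) (nat_lit 23) (nat_lit 532) c7_9814_0
 (Tr.nd (nat_lit 99) (nat_lit 1) (nat_lit 100) (nat_lit 432) c7_9814_0
 Tr.lf Tr.lf) (Tr.nd (nat_lit 101) (nat_lit 2) (nat_lit 3) (nat_lit 578) c7_9814_0
 Tr.lf Tr.lf)) (Tr.nd (nat_lit 107) (nat_lit 10) (nat_lit 7) (nat_lit 760) c7_9814_0
 (Tr.nd (nat_lit 106) (nat_lit 5) (nat_lit 23) (nat_lit 645) c7_9814_0
 Tr.lf Tr.lf) Tr.lf)) (Tr.nd (nat_lit 150) (nat_lit 4) (nat_lit 3) (nat_lit 971) c7_9814_0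
 (Tr.nd (nat_lit 148) (nat_lit 1) (nat_lit 63) (nat_lit 874) c7_9814_0
 (Tr.nd (nat_lit 113) (nat_lit 10) (nat_lit 3) (nat_lit 844) c7_9814_0
 Tr.lf Tr.lf) (Tr.nd (nat_lit 149) (nat_lit 2) (nat_lit 17) (nat_lit 937) c7_9814_0
 Tr.lf Tr.lf)) (Tr.nd (nat_lit 155) (nat_lit 5) (nat_lit 17) (nat_lit 1020) c7_9814_0
 (Tr.nd (nat_lit 154) (nat_lit 1) (nat_lit 37) (nat_lit 983) c7_9814_0
 Tr.lf Tr.lf) Tr.lf)))) (Tr.nd (nat_lit 248) (nat_lit 7) (nat_lit 1) (nat_lit 1779) c7_9814_0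
 (Tr.nd (nat_lit 204) (nat_lit 5) (nat_lit 11) (nat_lit 1386) c7_9814_0
 (Tr.nd (nat_lit 163) (nat_lit 63) (nat_lit 1) (nat_lit 1271) c7_9814_0
 (Tr.nd (nat_lit 161) (nat_lit 2) (nat_lit 5) (nat_lit 1227) c7_9814_0
 (Tr.nd (nat_lit 157) (nat_lit 37) (nat_lit 1) (nat_lit 1190) c7_9814_0
 Tr.lf Tr.lf) (Tr.nd (nat_lit 162) (nat_lit 17) (nat_lit 2) (nat_lit 1237) c7_9814_0
 Tr.lf Tr.lf)) (Tr.nd (nat_lit 199) (nat_lit 6) (nat_lit 5) (nat_lit 1356) c7_9814_0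
 (Tr.nd (nat_lit 198) (nat_lit 2) (nat_lit 11) (nat_lit 1334) c7_9814_0
 Tr.lf Tr.lf) Tr.lf)) (Tr.nd (nat_lit 211) (nat_lit 23) (nat_lit 2) (nat_lit 1623) c7_9814_0
 (Tr.nd (nat_lit 206) (nat_lit 61) (nat_lit 1) (nat_lit 1556) c7_9814_0
 (Tr.nd (nat_lit 205) (nat_lit 23) (nat_lit 5) (nat_lit 1441) c7_9814_0
 Tr.lf Tr.lf) (Tr.nd (nat_lit 210) (nat_lit 2) (nat_lit 3) (nat_lit 1617) c7_9814_0
 Tr.lf Tr.lf)) (Tr.nd (nat_lit 247) (nat_lit 2) (nat_lit 5) (nat_lit 1769) c7_9814_0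
 (Tr.nd (nat_lit 212) (nat_lit 100) (nat_lit 1) (nat_lit 1669) c7_9814_0
 Tr.lf Tr.lf) Tr.lf))) (Tr.nd (nat_lit 262) (nat_lit 61) (nat_lit 1) (nat_lit 2143) c7_9814_0
 (Tr.nd (nat_lit 259) (nat_lit 2) (nat_lit 1) (nat_lit 2001) c7_9814_0
 (Tr.nd (nat_lit 254) (nat_lit 24) (nat_lit 5) (nat_lit 1806) c7_9814_0
 (Tr.nd (nat_lit 253) (nat_lit 4) (nat_lit 5) (nat_lit 1786) c7_9814_0
 Tr.lf Tr.lf) (Tr.nd (nat_lit 255) (nat_lit 75) (nat_lit 1) (nat_lit 1926) c7_9814_0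
 Tr.lf Tr.lf)) (Tr.nd (nat_lit 261) (nat_lit 116) (nat_lit 1) (nat_lit 2027) c7_9814_0
 (Tr.nd (nat_lit 260) (nat_lit 24) (nat_lit 1) (nat_lit 2003) c7_9814_0
 Tr.lf Tr.lf) Tr.lf)) (Tr.nd (nat_lit 304) (nat_lit 7) (nat_lit 1) (nat_lit 2222) c7_9814_0
 (Tr.nd (nat_lit 302) (nat_lit 2) (nat_lit 1) (nat_lit 2205) c7_9814_0
 (Tr.nd (nat_lit 296) (nat_lit 1) (nat_lit 1) (nat_lit 2204) c7_9814_0
 Tr.lf Tr.lf) (Tr.nd (nat_lit 303) (nat_lit 15) (nat_lit 1) (nat_lit 2207) c7_9814_0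
 Tr.lf Tr.lf)) (Tr.nd (nat_lit 311) (nat_lit 6) (nat_lit 1) (nat_lit 2240) c7_9814_0
 (Tr.nd (nat_lit 310) (nat_lit 11) (nat_lit 1) (nat_lit 2229) c7_9814_0
 Tr.lf Tr.lf) Tr.lf)))))

noncomputable def c7_9574_0 : List Nat := [(nat_lit 0x33cf6b2ca71d748cd24114b9b485109c9a59669664aa29b388c4cb806c87482f4b2dd8356981398841eaa5ab4b4c6e1b128288555158ca326b51765d808c8ce103128885b44b15136ba30c032b139ca0e83162d26420a08148ecf66123a4584ca6c15369aa3c183a5ab0c834db9ae043789118ada6627638c00000000000000000332f1682830a5440ed10400d146c5711b68aded1946b60238159048000000000000000001568396b0ac17108599dda98292cbda9315430cc15a4406c5d8cd3a40ebab626cc3344059c24bd0674e5203525628263522ee5346dc310a22c5145a0d3509ce1983706cb3803b2871a3054b19610c1376803b4e0db6a696dcf0308c24985ce9708521a1034968587353470556aa694a3959c8e129da286335242c416a304421857538051ac2d9821da0000680a02492b6a736374c1c568336b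4a1318dd4c000000000000018469b7b400c6489150ce116c28aa2aa817484ea54a95d73822d45ca9198d0976b8ed42d3ac9a3d85b2c9b49236d96cc270071856b4a875b2a232b31568a987b315ba250319b059868154308dc545366ac714c612ce432546b8e0d39922b14d11a56525b0390c92d125aba90caed10431d140728402d110c8dc66ea6a05c6c9c43cee15ba1ecc3545a8e95605596e311a0012e4713b1863af37349b192ba43ce4929b42b5c76b2660f0356a2e5047aea9588dc4c9a8155515140000000a2610e8d68886480336188b478000000059142c84219b4685aa76ed0375a544000000014968b8eaa102854536ad50454b8e8d5386944a8196b99190e4c81014b3a42cd1521a24320c54ad8a4915e49ed038dd1a4830308cf5b6689b6c636b026d490c1961c9510a71801cb63cb10590a08343135184f289ed0d6898dbd16aca54e82295254891635e13324c790053c34a4ecabac498d2e56760149910f0c15509bb3a61a193b57a51554a001b70d16e400c02a8cd8051bc98993d50b9202a8da8706c68d1aa13590c05482568289a9af4a3239bcc3109b429722b2c8dd9948dba351530d76e62dd020f67b148841106426d14b363603b2eac890e8e028d15a36550e2e8a052d5d8d84442882a3260b445d14a8c6b5058bd9655d862b69d1a10da98dad966641ac16c0d61381c5b4554b4b34b2cd235304b2a63312269726b8e36597679e)]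
noncomputable def T7_9574 : Op := Op.mk (nat_lit 31)
 (Tr.nd (nat_lit 156) (nat_lit 17) (nat_lit 5) (nat_lit 1105) c7_9574_0
 (Tr.nd (nat_lit 64) (nat_lit 5) (nat_lit 2) (nat_lit 422) c7_9574_0
 (Tr.nd (nat_lit 50) (nat_lit 1) (nat_lit 116) (nat_lit 103) c7_9574_0
 (Tr.nd (nat_lit 8) (nat_lit 1) (nat_lit 15) (nat_lit 24) c7_9574_0
 (Tr.nd (nat_lit 1) (nat_lit 1) (nat_lit 11) (nat_lit 6) c7_9574_0
 (Tr.nd (nat_lit 0) (nat_lit 1) (nat_lit 6) (nat_lit 0) c7_9574_0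
 Tr.lf Tr.lf) (Tr.nd (nat_lit 7) (nat_lit 1) (nat_lit 7) (nat_lit 17) c7_9574_0
 Tr.lf Tr.lf)) (Tr.nd (nat_lit 15) (nat_lit 1) (nat_lit 1) (nat_lit 41) c7_9574_0
 (Tr.nd (nat_lit 9) (nat_lit 1) (nat_lit 2) (nat_lit 39) c7_9574_0
 Tr.lf Tr.lf) (Tr.nd (nat_lit 49) (nat_lit 1) (nat_lit 61) (nat_lit 42) c7_9574_0
 Tr.lf Tr.lf))) (Tr.nd (nat_lit 57) (nat_lit 3) (nat_lit 25) (nat_lit 320) c7_9574_0
 (Tr.nd (nat_lit 52) (nat_lit 1) (nat_lit 2) (nat_lit 243) c7_9574_0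
 (Tr.nd (nat_lit 51) (nat_lit 1) (nat_lit 24) (nat_lit 219) c7_9574_0
 Tr.lf Tr.lf) (Tr.nd (nat_lit 56) (nat_lit 1) (nat_lit 75) (nat_lit 245) c7_9574_0
 Tr.lf Tr.lf)) (Tr.nd (nat_lit 63) (nat_lit 1) (nat_lit 7) (nat_lit 415) c7_9574_0
 (Tr.nd (nat_lit 58) (nat_lit 5) (nat_lit 4) (nat_lit 395) c7_9574_0
 Tr.lf Tr.lf) Tr.lf))) (Tr.nd (nat_lit 112) (nat_lit 2) (nat_lit 7) (nat_lit 830) c7_9574_0
 (Tr.nd (nat_lit 105) (nat_lit 1) (nat_lit 61) (nat_lit 584) c7_9574_0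
 (Tr.nd (nat_lit 100) (nat_lit 2) (nat_lit 23) (nat_lit 532) c7_9574_0
 (Tr.nd (nat_lit 99) (nat_lit 1) (nat_lit 100) (nat_lit 432) c7_9574_0
 Tr.lf Tr.lf) (Tr.nd (nat_lit 101) (nat_lit 2) (nat_lit 3) (nat_lit 578) c7_9574_0
 Tr.lf Tr.lf)) (Tr.nd (nat_lit 107) (nat_lit 10) (nat_lit 7) (nat_lit 760) c7_9574_0
 (Tr.nd (nat_lit 106) (nat_lit 5) (nat_lit 23) (nat_lit 645) c7_9574_0
 Tr.lf Tr.lf) Tr.lf)) (Tr.nd (nat_lit 150) (nat_lit 4) (nat_lit 3) (nat_lit 971) c7_9574_0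
 (Tr.nd (nat_lit 148) (nat_lit 1) (nat_lit 63) (nat_lit 874) c7_9574_0
 (Tr.nd (nat_lit 113) (nat_lit 10) (nat_lit 3) (nat_lit 844) c7_9574_0
 Tr.lf Tr.lf) (Tr.nd (nat_lit 149) (nat_lit 2) (nat_lit 17) (nat_lit 937) c7_9574_0
 Tr.lf Tr.lf)) (Tr.nd (nat_lit 155) (nat_lit 5) (nat_lit 17) (nat_lit 1020) c7_9574_0
 (Tr.nd (nat_lit 154) (nat_lit 1) (nat_lit 37) (nat_lit 983) c7_9574_0
 Tr.lf Tr.lf) Tr.lf)))) (Tr.nd (nat_lit 248) (nat_lit 7) (nat_lit 1) (nat_lit 1779) c7_9574_0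
 (Tr.nd (nat_lit 204) (nat_lit 5) (nat_lit 11) (nat_lit 1386) c7_9574_0
 (Tr.nd (nat_lit 163) (nat_lit 63) (nat_lit 1) (nat_lit 1271) c7_9574_0
 (Tr.nd (nat_lit 161) (nat_lit 2) (nat_lit 5) (nat_lit 1227) c7_9574_0
 (Tr.nd (nat_lit 157) (nat_lit 37) (nat_lit 1) (nat_lit 1190) c7_9574_0
 Tr.lf Tr.lf) (Tr.nd (nat_lit 162) (nat_lit 17) (nat_lit 2) (nat_lit 1237) c7_9574_0
 Tr.lf Tr.lf)) (Tr.nd (nat_lit 199) (nat_lit 6) (nat_lit 5) (nat_lit 1356) c7_9574_0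
 (Tr.nd (nat_lit 198) (nat_lit 2) (nat_lit 11) (nat_lit 1334) c7_9574_0
 Tr.lf Tr.lf) Tr.lf)) (Tr.nd (nat_lit 211) (nat_lit 23) (nat_lit 2) (nat_lit 1623) c7_9574_0
 (Tr.nd (nat_lit 206) (nat_lit 61) (nat_lit 1) (nat_lit 1556) c7_9574_0
 (Tr.nd (nat_lit 205) (nat_lit 23) (nat_lit 5) (nat_lit 1441) c7_9574_0
 Tr.lf Tr.lf) (Tr.nd (nat_lit 210) (nat_lit 2) (nat_lit 3) (nat_lit 1617) c7_9574_0
 Tr.lf Tr.lf)) (Tr.nd (nat_lit 247) (nat_lit 2) (nat_lit 5) (nat_lit 1769) c7_9574_0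
 (Tr.nd (nat_lit 212) (nat_lit 100) (nat_lit 1) (nat_lit 1669) c7_9574_0
 Tr.lf Tr.lf) Tr.lf))) (Tr.nd (nat_lit 262) (nat_lit 61) (nat_lit 1) (nat_lit 2143) c7_9574_0
 (Tr.nd (nat_lit 259) (nat_lit 2) (nat_lit 1) (nat_lit 2001) c7_9574_0
 (Tr.nd (nat_lit 254) (nat_lit 24) (nat_lit 5) (nat_lit 1806) c7_9574_0
 (Tr.nd (nat_lit 253) (nat_lit 4) (nat_lit 5) (nat_lit 1786) c7_9574_0
 Tr.lf Tr.lf) (Tr.nd (nat_lit 255) (nat_lit 75) (nat_lit 1) (nat_lit 1926) c7_9574_0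
 Tr.lf Tr.lf)) (Tr.nd (nat_lit 261) (nat_lit 116) (nat_lit 1) (nat_lit 2027) c7_9574_0
 (Tr.nd (nat_lit 260) (nat_lit 24) (nat_lit 1) (nat_lit 2003) c7_9574_0
 Tr.lf Tr.lf) Tr.lf)) (Tr.nd (nat_lit 304) (nat_lit 7) (nat_lit 1) (nat_lit 2222) c7_9574_0
 (Tr.nd (nat_lit 302) (nat_lit 2) (nat_lit 1) (nat_lit 2205) c7_9574_0
 (Tr.nd (nat_lit 296) (nat_lit 1) (nat_lit 1) (nat_lit 2204) c7_9574_0
 Tr.lf Tr.lf) (Tr.nd (nat_lit 303) (nat_lit 15) (nat_lit 1) (nat_lit 2207) c7_9574_0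
 Tr.lf Tr.lf)) (Tr.nd (nat_lit 311) (nat_lit 6) (nat_lit 1) (nat_lit 2240) c7_9574_0
 (Tr.nd (nat_lit 310) (nat_lit 11) (nat_lit 1) (nat_lit 2229) c7_9574_0
 Tr.lf Tr.lf) Tr.lf)))))

noncomputable def c7_9813_0 : List Nat := [(nat_lit 0xc6940910909569ad430e0a25c1b980870a2ecc2cca309da84d2398a1018bd59cea39574291212acad162d72276750513a5382e6f409854602105e50986826830409669358206c54c6c9a6d6759adc566352d4b41349d1b6e52c97742e38db4e80b32c40a02cda8b60daf28c335486d371d8b262942a7566e54a0dd4584b22913903480614e986236850316c01c408cd65ab96b675519911cc0518d682cb68aac28417a20916a82628d6014c55716d6eca3a9988bda221542025347134e4da4120e3605804a1e2a42e2b8b76c772c9e0428c0968000000104152b0966306944e47228a2c5083c526a956bb8d42c50e7b124db4986c61845ea05693b6340a123cea21b2dc7199ab259b1b6e626922d899b83c8eb74b8bb4d25b86842a5316a1c4825caa940212c6c46ed2496d099bd4468d6a20abd894a52f60f608416a788a89246341355618c46ae8a1428a3b474e94b2ee0346c6b0511862e4d3a0582024234e)]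
noncomputable def T7_9813 : Op := Op.mk (nat_lit 37)
 (Tr.nd (nat_lit 154) (nat_lit 1) (nat_lit 6) (nat_lit 474) c7_9813_0
 (Tr.nd (nat_lit 58) (nat_lit 5) (nat_lit 2) (nat_lit 179) c7_9813_0
 (Tr.nd (nat_lit 49) (nat_lit 1) (nat_lit 24) (nat_lit 16) c7_9813_0
 (Tr.nd (nat_lit 7) (nat_lit 1) (nat_lit 1) (nat_lit 9) c7_9813_0
 (Tr.nd (nat_lit 1) (nat_lit 1) (nat_lit 7) (nat_lit 2) c7_9813_0
 (Tr.nd (nat_lit 0) (nat_lit 1) (nat_lit 2) (nat_lit 0) c7_9813_0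
 Tr.lf Tr.lf) Tr.lf) (Tr.nd (nat_lit 9) (nat_lit 1) (nat_lit 1) (nat_lit 15) c7_9813_0
 (Tr.nd (nat_lit 8) (nat_lit 1) (nat_lit 5) (nat_lit 10) c7_9813_0
 Tr.lf Tr.lf) Tr.lf)) (Tr.nd (nat_lit 52) (nat_lit 1) (nat_lit 4) (nat_lit 139) c7_9813_0
 (Tr.nd (nat_lit 51) (nat_lit 1) (nat_lit 24) (nat_lit 115) c7_9813_0
 (Tr.nd (nat_lit 50) (nat_lit 1) (nat_lit 75) (nat_lit 40) c7_9813_0
 Tr.lf Tr.lf) Tr.lf) (Tr.nd (nat_lit 57) (nat_lit 3) (nat_lit 7) (nat_lit 158) c7_9813_0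
 (Tr.nd (nat_lit 56) (nat_lit 1) (nat_lit 15) (nat_lit 143) c7_9813_0
 Tr.lf Tr.lf) Tr.lf))) (Tr.nd (nat_lit 107) (nat_lit 10) (nat_lit 3) (nat_lit 347) c7_9813_0
 (Tr.nd (nat_lit 101) (nat_lit 2) (nat_lit 5) (nat_lit 296) c7_9813_0
 (Tr.nd (nat_lit 100) (nat_lit 2) (nat_lit 23) (nat_lit 250) c7_9813_0
 (Tr.nd (nat_lit 99) (nat_lit 1) (nat_lit 61) (nat_lit 189) c7_9813_0
 Tr.lf Tr.lf) Tr.lf) (Tr.nd (nat_lit 106) (nat_lit 5) (nat_lit 6) (nat_lit 317) c7_9813_0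
 (Tr.nd (nat_lit 105) (nat_lit 1) (nat_lit 11) (nat_lit 306) c7_9813_0
 Tr.lf Tr.lf) Tr.lf)) (Tr.nd (nat_lit 150) (nat_lit 4) (nat_lit 5) (nat_lit 448) c7_9813_0
 (Tr.nd (nat_lit 149) (nat_lit 2) (nat_lit 17) (nat_lit 414) c7_9813_0
 (Tr.nd (nat_lit 148) (nat_lit 1) (nat_lit 37) (nat_lit 377) c7_9813_0
 Tr.lf Tr.lf) Tr.lf) (Tr.nd (nat_lit 151) (nat_lit 6) (nat_lit 1) (nat_lit 468) c7_9813_0
 Tr.lf Tr.lf)))) (Tr.nd (nat_lit 248) (nat_lit 7) (nat_lit 3) (nat_lit 761) c7_9813_0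
 (Tr.nd (nat_lit 200) (nat_lit 11) (nat_lit 1) (nat_lit 623) c7_9813_0
 (Tr.nd (nat_lit 157) (nat_lit 37) (nat_lit 1) (nat_lit 534) c7_9813_0
 (Tr.nd (nat_lit 156) (nat_lit 17) (nat_lit 2) (nat_lit 500) c7_9813_0
 (Tr.nd (nat_lit 155) (nat_lit 5) (nat_lit 4) (nat_lit 480) c7_9813_0
 Tr.lf Tr.lf) Tr.lf) (Tr.nd (nat_lit 199) (nat_lit 6) (nat_lit 5) (nat_lit 593) c7_9813_0
 (Tr.nd (nat_lit 198) (nat_lit 2) (nat_lit 11) (nat_lit 571) c7_9813_0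
 Tr.lf Tr.lf) Tr.lf)) (Tr.nd (nat_lit 206) (nat_lit 61) (nat_lit 1) (nat_lit 690) c7_9813_0
 (Tr.nd (nat_lit 205) (nat_lit 23) (nat_lit 2) (nat_lit 644) c7_9813_0
 (Tr.nd (nat_lit 204) (nat_lit 5) (nat_lit 2) (nat_lit 634) c7_9813_0
 Tr.lf Tr.lf) Tr.lf) (Tr.nd (nat_lit 247) (nat_lit 2) (nat_lit 5) (nat_lit 751) c7_9813_0
 Tr.lf Tr.lf))) (Tr.nd (nat_lit 296) (nat_lit 1) (nat_lit 1) (nat_lit 924) c7_9813_0
 (Tr.nd (nat_lit 254) (nat_lit 24) (nat_lit 1) (nat_lit 801) c7_9813_0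
 (Tr.nd (nat_lit 253) (nat_lit 4) (nat_lit 1) (nat_lit 797) c7_9813_0
 (Tr.nd (nat_lit 249) (nat_lit 15) (nat_lit 1) (nat_lit 782) c7_9813_0
 Tr.lf Tr.lf) Tr.lf) (Tr.nd (nat_lit 256) (nat_lit 24) (nat_lit 1) (nat_lit 900) c7_9813_0
 (Tr.nd (nat_lit 255) (nat_lit 75) (nat_lit 1) (nat_lit 825) c7_9813_0
 Tr.lf Tr.lf) Tr.lf)) (Tr.nd (nat_lit 304) (nat_lit 7) (nat_lit 1) (nat_lit 931) c7_9813_0
 (Tr.nd (nat_lit 298) (nat_lit 1) (nat_lit 1) (nat_lit 930) c7_9813_0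
 (Tr.nd (nat_lit 297) (nat_lit 5) (nat_lit 1) (nat_lit 925) c7_9813_0
 Tr.lf Tr.lf) Tr.lf) (Tr.nd (nat_lit 305) (nat_lit 2) (nat_lit 1) (nat_lit 938) c7_9813_0
 Tr.lf Tr.lf)))))

noncomputable def c7_9573_0 : List Nat := [(nat_lit 0x5330acc1aa75a69548ba28acb710e8cb6ca260518b0546da74cd520b3a76715c21c0c643ad1acb32a11bac5586c82088ac312d6c13767a0d9cd7360bd5bc1baaecda70d25a15ccb47a3759cb44ed203da95606d40a8912068c413290eb751b6271826dcaa3039053ad10362189990a1b119872c532b9e4d05510a08186705919b601816bd1eb716cba859b634cc43a68a0ac240505aba1c06ed153683ac52002ca058c942072e23370abaeda5d66924d2eb61c43cb4d5d99e102359b4188616450e805b6c1888c577208890644514d60e869db00000001a50ee35db946dd2e68b005e4c2d8201388122acf55a29601b065e520255385663af4b622e46a2959004a8d06b75836120e1484a415089b12a376601b5a9962eb733990cd950da7656e05a6db95b7887a5ab15b5da921bb6061d050416c32adac2b020383954c22b58981aa8c6c01b2d179458872429524a18282e1583ad95453506a34daeb2869507a2)]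
noncomputable def T7_9573 : Op := Op.mk (nat_lit 37)
 (Tr.nd (nat_lit 154) (nat_lit 1) (nat_lit 6) (nat_lit 474) c7_9573_0
 (Tr.nd (nat_lit 58) (nat_lit 5) (nat_lit 2) (nat_lit 179) c7_9573_0
 (Tr.nd (nat_lit 49) (nat_lit 1) (nat_lit 24) (nat_lit 16) c7_9573_0
 (Tr.nd (nat_lit 7) (nat_lit 1) (nat_lit 1) (nat_lit 9) c7_9573_0
 (Tr.nd (nat_lit 1) (nat_lit 1) (nat_lit 7) (nat_lit 2) c7_9573_0
 (Tr.nd (nat_lit 0) (nat_lit 1) (nat_lit 2) (nat_lit 0) c7_9573_0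
 Tr.lf Tr.lf) Tr.lf) (Tr.nd (nat_lit 9) (nat_lit 1) (nat_lit 1) (nat_lit 15) c7_9573_0
 (Tr.nd (nat_lit 8) (nat_lit 1) (nat_lit 5) (nat_lit 10) c7_9573_0
 Tr.lf Tr.lf) Tr.lf)) (Tr.nd (nat_lit 52) (nat_lit 1) (nat_lit 4) (nat_lit 139) c7_9573_0
 (Tr.nd (nat_lit 51) (nat_lit 1) (nat_lit 24) (nat_lit 115) c7_9573_0
 (Tr.nd (nat_lit 50) (nat_lit 1) (nat_lit 75) (nat_lit 40) c7_9573_0
 Tr.lf Tr.lf) Tr.lf) (Tr.nd (nat_lit 57) (nat_lit 3) (nat_lit 7) (nat_lit 158) c7_9573_0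
 (Tr.nd (nat_lit 56) (nat_lit 1) (nat_lit 15) (nat_lit 143) c7_9573_0
 Tr.lf Tr.lf) Tr.lf))) (Tr.nd (nat_lit 107) (nat_lit 10) (nat_lit 3) (nat_lit 347) c7_9573_0
 (Tr.nd (nat_lit 101) (nat_lit 2) (nat_lit 5) (nat_lit 296) c7_9573_0
 (Tr.nd (nat_lit 100) (nat_lit 2) (nat_lit 23) (nat_lit 250) c7_9573_0
 (Tr.nd (nat_lit 99) (nat_lit 1) (nat_lit 61) (nat_lit 189) c7_9573_0
 Tr.lf Tr.lf) Tr.lf) (Tr.nd (nat_lit 106) (nat_lit 5) (nat_lit 6) (nat_lit 317) c7_9573_0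
 (Tr.nd (nat_lit 105) (nat_lit 1) (nat_lit 11) (nat_lit 306) c7_9573_0
 Tr.lf Tr.lf) Tr.lf)) (Tr.nd (nat_lit 150) (nat_lit 4) (nat_lit 5) (nat_lit 448) c7_9573_0
 (Tr.nd (nat_lit 149) (nat_lit 2) (nat_lit 17) (nat_lit 414) c7_9573_0
 (Tr.nd (nat_lit 148) (nat_lit 1) (nat_lit 37) (nat_lit 377) c7_9573_0
 Tr.lf Tr.lf) Tr.lf) (Tr.nd (nat_lit 151) (nat_lit 6) (nat_lit 1) (nat_lit 468) c7_9573_0
 Tr.lf Tr.lf)))) (Tr.nd (nat_lit 248) (nat_lit 7) (nat_lit 3) (nat_lit 761) c7_9573_0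
 (Tr.nd (nat_lit 200) (nat_lit 11) (nat_lit 1) (nat_lit 623) c7_9573_0
 (Tr.nd (nat_lit 157) (nat_lit 37) (nat_lit 1) (nat_lit 534) c7_9573_0
 (Tr.nd (nat_lit 156) (nat_lit 17) (nat_lit 2) (nat_lit 500) c7_9573_0
 (Tr.nd (nat_lit 155) (nat_lit 5) (nat_lit 4) (nat_lit 480) c7_9573_0
 Tr.lf Tr.lf) Tr.lf) (Tr.nd (nat_lit 199) (nat_lit 6) (nat_lit 5) (nat_lit 593) c7_9573_0
 (Tr.nd (nat_lit 198) (nat_lit 2) (nat_lit 11) (nat_lit 571) c7_9573_0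
 Tr.lf Tr.lf) Tr.lf)) (Tr.nd (nat_lit 206) (nat_lit 61) (nat_lit 1) (nat_lit 690) c7_9573_0
 (Tr.nd (nat_lit 205) (nat_lit 23) (nat_lit 2) (nat_lit 644) c7_9573_0
 (Tr.nd (nat_lit 204) (nat_lit 5) (nat_lit 2) (nat_lit 634) c7_9573_0
 Tr.lf Tr.lf) Tr.lf) (Tr.nd (nat_lit 247) (nat_lit 2) (nat_lit 5) (nat_lit 751) c7_9573_0
 Tr.lf Tr.lf))) (Tr.nd (nat_lit 296) (nat_lit 1) (nat_lit 1) (nat_lit 924) c7_9573_0
 (Tr.nd (nat_lit 254) (nat_lit 24) (nat_lit 1) (nat_lit 801) c7_9573_0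
 (Tr.nd (nat_lit 253) (nat_lit 4) (nat_lit 1) (nat_lit 797) c7_9573_0
 (Tr.nd (nat_lit 249) (nat_lit 15) (nat_lit 1) (nat_lit 782) c7_9573_0
 Tr.lf Tr.lf) Tr.lf) (Tr.nd (nat_lit 256) (nat_lit 24) (nat_lit 1) (nat_lit 900) c7_9573_0
 (Tr.nd (nat_lit 255) (nat_lit 75) (nat_lit 1) (nat_lit 825) c7_9573_0
 Tr.lf Tr.lf) Tr.lf)) (Tr.nd (nat_lit 304) (nat_lit 7) (nat_lit 1) (nat_lit 931) c7_9573_0
 (Tr.nd (nat_lit 298) (nat_lit 1) (nat_lit 1) (nat_lit 930) c7_9573_0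
 (Tr.nd (nat_lit 297) (nat_lit 5) (nat_lit 1) (nat_lit 925) c7_9573_0
 Tr.lf Tr.lf) Tr.lf) (Tr.nd (nat_lit 305) (nat_lit 2) (nat_lit 1) (nat_lit 938) c7_9573_0
 Tr.lf Tr.lf)))))

noncomputable def c7_9558_0 : List Nat := [(nat_lit 0x46ca696e0c8969a464c298541817b0c23a62d0421bc01d816d042944dd50d2d922454583472c73a0b10b00c08c0e9b1432a6884889037516c97466dcd45585b366da41356e1452d540c146024989bae0c60c3009cee76d852473300c922e98e1a346727917b08332e958b3112d8a73d6332485091e2b5b19c421721906a507330bca015438257283590356e98d335061875ca68d2d9c4d927336ea4862ea0d530585d8234640b7b3392ce6881084723810333cb28b05990cbc6d573a75161b80380c015b54c92da8f649cd16b8c308ba1a74d68000000192021ca56a6b0550c025ca10836453b3d9348db91ce40899268e570e0da2e66f635c705c2e64e489310a4bc5949602178a48cb6bd5e240618c18d75274900c28842a98342d6d6b256bcd40c41abbb341276e0950240520535618a53588508cb506119841458049326285af65a4815b0d01a6d380869239a77530c1b323088c34690a4d337005b34d94a)]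
noncomputable def T7_9558 : Op := Op.mk (nat_lit 37)
 (Tr.nd (nat_lit 154) (nat_lit 1) (nat_lit 6) (nat_lit 474) c7_9558_0
 (Tr.nd (nat_lit 58) (nat_lit 5) (nat_lit 2) (nat_lit 179) c7_9558_0
 (Tr.nd (nat_lit 49) (nat_lit 1) (nat_lit 24) (nat_lit 16) c7_9558_0
 (Tr.nd (nat_lit 7) (nat_lit 1) (nat_lit 1) (nat_lit 9) c7_9558_0
 (Tr.nd (nat_lit 1) (nat_lit 1) (nat_lit 7) (nat_lit 2) c7_9558_0
 (Tr.nd (nat_lit 0) (nat_lit 1) (nat_lit 2) (nat_lit 0) c7_9558_0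
 Tr.lf Tr.lf) Tr.lf) (Tr.nd (nat_lit 9) (nat_lit 1) (nat_lit 1) (nat_lit 15) c7_9558_0
 (Tr.nd (nat_lit 8) (nat_lit 1) (nat_lit 5) (nat_lit 10) c7_9558_0
 Tr.lf Tr.lf) Tr.lf)) (Tr.nd (nat_lit 52) (nat_lit 1) (nat_lit 4) (nat_lit 139) c7_9558_0
 (Tr.nd (nat_lit 51) (nat_lit 1) (nat_lit 24) (nat_lit 115) c7_9558_0
 (Tr.nd (nat_lit 50) (nat_lit 1) (nat_lit 75) (nat_lit 40) c7_9558_0
 Tr.lf Tr.lf) Tr.lf) (Tr.nd (nat_lit 57) (nat_lit 3) (nat_lit 7) (nat_lit 158) c7_9558_0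
 (Tr.nd (nat_lit 56) (nat_lit 1) (nat_lit 15) (nat_lit 143) c7_9558_0
 Tr.lf Tr.lf) Tr.lf))) (Tr.nd (nat_lit 107) (nat_lit 10) (nat_lit 3) (nat_lit 347) c7_9558_0
 (Tr.nd (nat_lit 101) (nat_lit 2) (nat_lit 5) (nat_lit 296) c7_9558_0
 (Tr.nd (nat_lit 100) (nat_lit 2) (nat_lit 23) (nat_lit 250) c7_9558_0
 (Tr.nd (nat_lit 99) (nat_lit 1) (nat_lit 61) (nat_lit 189) c7_9558_0
 Tr.lf Tr.lf) Tr.lf) (Tr.nd (nat_lit 106) (nat_lit 5) (nat_lit 6) (nat_lit 317) c7_9558_0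
 (Tr.nd (nat_lit 105) (nat_lit 1) (nat_lit 11) (nat_lit 306) c7_9558_0
 Tr.lf Tr.lf) Tr.lf)) (Tr.nd (nat_lit 150) (nat_lit 4) (nat_lit 5) (nat_lit 448) c7_9558_0
 (Tr.nd (nat_lit 149) (nat_lit 2) (nat_lit 17) (nat_lit 414) c7_9558_0
 (Tr.nd (nat_lit 148) (nat_lit 1) (nat_lit 37) (nat_lit 377) c7_9558_0
 Tr.lf Tr.lf) Tr.lf) (Tr.nd (nat_lit 151) (nat_lit 6) (nat_lit 1) (nat_lit 468) c7_9558_0
 Tr.lf Tr.lf)))) (Tr.nd (nat_lit 248) (nat_lit 7) (nat_lit 3) (nat_lit 761) c7_9558_0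
 (Tr.nd (nat_lit 200) (nat_lit 11) (nat_lit 1) (nat_lit 623) c7_9558_0
 (Tr.nd (nat_lit 157) (nat_lit 37) (nat_lit 1) (nat_lit 534) c7_9558_0
 (Tr.nd (nat_lit 156) (nat_lit 17) (nat_lit 2) (nat_lit 500) c7_9558_0
 (Tr.nd (nat_lit 155) (nat_lit 5) (nat_lit 4) (nat_lit 480) c7_9558_0
 Tr.lf Tr.lf) Tr.lf) (Tr.nd (nat_lit 199) (nat_lit 6) (nat_lit 5) (nat_lit 593) c7_9558_0
 (Tr.nd (nat_lit 198) (nat_lit 2) (nat_lit 11) (nat_lit 571) c7_9558_0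
 Tr.lf Tr.lf) Tr.lf)) (Tr.nd (nat_lit 206) (nat_lit 61) (nat_lit 1) (nat_lit 690) c7_9558_0
 (Tr.nd (nat_lit 205) (nat_lit 23) (nat_lit 2) (nat_lit 644) c7_9558_0
 (Tr.nd (nat_lit 204) (nat_lit 5) (nat_lit 2) (nat_lit 634) c7_9558_0
 Tr.lf Tr.lf) Tr.lf) (Tr.nd (nat_lit 247) (nat_lit 2) (nat_lit 5) (nat_lit 751) c7_9558_0
 Tr.lf Tr.lf))) (Tr.nd (nat_lit 296) (nat_lit 1) (nat_lit 1) (nat_lit 924) c7_9558_0
 (Tr.nd (nat_lit 254) (nat_lit 24) (nat_lit 1) (nat_lit 801) c7_9558_0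
 (Tr.nd (nat_lit 253) (nat_lit 4) (nat_lit 1) (nat_lit 797) c7_9558_0
 (Tr.nd (nat_lit 249) (nat_lit 15) (nat_lit 1) (nat_lit 782) c7_9558_0
 Tr.lf Tr.lf) Tr.lf) (Tr.nd (nat_lit 256) (nat_lit 24) (nat_lit 1) (nat_lit 900) c7_9558_0
 (Tr.nd (nat_lit 255) (nat_lit 75) (nat_lit 1) (nat_lit 825) c7_9558_0
 Tr.lf Tr.lf) Tr.lf)) (Tr.nd (nat_lit 304) (nat_lit 7) (nat_lit 1) (nat_lit 931) c7_9558_0
 (Tr.nd (nat_lit 298) (nat_lit 1) (nat_lit 1) (nat_lit 930) c7_9558_0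
 (Tr.nd (nat_lit 297) (nat_lit 5) (nat_lit 1) (nat_lit 925) c7_9558_0
 Tr.lf Tr.lf) Tr.lf) (Tr.nd (nat_lit 305) (nat_lit 2) (nat_lit 1) (nat_lit 938) c7_9558_0
 Tr.lf Tr.lf)))))

noncomputable def c7_9557_0 : List Nat := [(nat_lit 0)]
noncomputable def T7_9557 : Op := Op.mk (nat_lit 43)
 (Tr.nd (nat_lit 150) (nat_lit 4) (nat_lit 3) (nat_lit 74) c7_9557_0
 (Tr.nd (nat_lit 99) (nat_lit 1) (nat_lit 11) (nat_lit 27) c7_9557_0
 (Tr.nd (nat_lit 50) (nat_lit 1) (nat_lit 15) (nat_lit 3) c7_9557_0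
 (Tr.nd (nat_lit 49) (nat_lit 1) (nat_lit 2) (nat_lit 1) c7_9557_0
 (Tr.nd (nat_lit 1) (nat_lit 1) (nat_lit 1) (nat_lit 0) c7_9557_0
 Tr.lf Tr.lf) Tr.lf) (Tr.nd (nat_lit 52) (nat_lit 1) (nat_lit 2) (nat_lit 25) c7_9557_0
 (Tr.nd (nat_lit 51) (nat_lit 1) (nat_lit 7) (nat_lit 18) c7_9557_0
 Tr.lf Tr.lf) Tr.lf)) (Tr.nd (nat_lit 148) (nat_lit 1) (nat_lit 6) (nat_lit 58) c7_9557_0
 (Tr.nd (nat_lit 101) (nat_lit 2) (nat_lit 3) (nat_lit 52) c7_9557_0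
 (Tr.nd (nat_lit 100) (nat_lit 2) (nat_lit 7) (nat_lit 38) c7_9557_0
 Tr.lf Tr.lf) Tr.lf) (Tr.nd (nat_lit 149) (nat_lit 2) (nat_lit 5) (nat_lit 64) c7_9557_0
 Tr.lf Tr.lf))) (Tr.nd (nat_lit 247) (nat_lit 2) (nat_lit 1) (nat_lit 139) c7_9557_0
 (Tr.nd (nat_lit 199) (nat_lit 6) (nat_lit 5) (nat_lit 98) c7_9557_0
 (Tr.nd (nat_lit 198) (nat_lit 2) (nat_lit 3) (nat_lit 92) c7_9557_0
 (Tr.nd (nat_lit 151) (nat_lit 6) (nat_lit 1) (nat_lit 86) c7_9557_0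
 Tr.lf Tr.lf) Tr.lf) (Tr.nd (nat_lit 200) (nat_lit 11) (nat_lit 1) (nat_lit 128) c7_9557_0
 Tr.lf Tr.lf)) (Tr.nd (nat_lit 250) (nat_lit 2) (nat_lit 1) (nat_lit 163) c7_9557_0
 (Tr.nd (nat_lit 249) (nat_lit 15) (nat_lit 1) (nat_lit 148) c7_9557_0
 (Tr.nd (nat_lit 248) (nat_lit 7) (nat_lit 1) (nat_lit 141) c7_9557_0
 Tr.lf Tr.lf) Tr.lf) (Tr.nd (nat_lit 298) (nat_lit 1) (nat_lit 1) (nat_lit 165) c7_9557_0
 Tr.lf Tr.lf))))

noncomputable def c7_8874_0 : List Nat := [(nat_lit 0)]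
noncomputable def T7_8874 : Op := Op.mk (nat_lit 55)
 (Tr.nd (nat_lit 154) (nat_lit 1) (nat_lit 2) (nat_lit 74) c7_8874_0
 (Tr.nd (nat_lit 105) (nat_lit 1) (nat_lit 7) (nat_lit 35) c7_8874_0
 (Tr.nd (nat_lit 56) (nat_lit 1) (nat_lit 15) (nat_lit 3) c7_8874_0
 (Tr.nd (nat_lit 49) (nat_lit 1) (nat_lit 1) (nat_lit 2) c7_8874_0
 (Tr.nd (nat_lit 7) (nat_lit 1) (nat_lit 2) (nat_lit 0) c7_8874_0
 Tr.lf Tr.lf) Tr.lf) (Tr.nd (nat_lit 70) (nat_lit 1) (nat_lit 6) (nat_lit 29) c7_8874_0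
 (Tr.nd (nat_lit 63) (nat_lit 1) (nat_lit 11) (nat_lit 18) c7_8874_0
 Tr.lf Tr.lf) Tr.lf)) (Tr.nd (nat_lit 126) (nat_lit 2) (nat_lit 3) (nat_lit 66) c7_8874_0
 (Tr.nd (nat_lit 119) (nat_lit 2) (nat_lit 5) (nat_lit 56) c7_8874_0
 (Tr.nd (nat_lit 112) (nat_lit 2) (nat_lit 7) (nat_lit 42) c7_8874_0
 Tr.lf Tr.lf) Tr.lf) (Tr.nd (nat_lit 133) (nat_lit 2) (nat_lit 1) (nat_lit 72) c7_8874_0
 Tr.lf Tr.lf))) (Tr.nd (nat_lit 217) (nat_lit 6) (nat_lit 1) (nat_lit 131) c7_8874_0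
 (Tr.nd (nat_lit 175) (nat_lit 6) (nat_lit 5) (nat_lit 94) c7_8874_0
 (Tr.nd (nat_lit 168) (nat_lit 4) (nat_lit 3) (nat_lit 82) c7_8874_0
 (Tr.nd (nat_lit 161) (nat_lit 2) (nat_lit 3) (nat_lit 76) c7_8874_0
 Tr.lf Tr.lf) Tr.lf) (Tr.nd (nat_lit 182) (nat_lit 7) (nat_lit 1) (nat_lit 124) c7_8874_0
 Tr.lf Tr.lf)) (Tr.nd (nat_lit 238) (nat_lit 1) (nat_lit 1) (nat_lit 163) c7_8874_0
 (Tr.nd (nat_lit 231) (nat_lit 15) (nat_lit 1) (nat_lit 148) c7_8874_0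
 (Tr.nd (nat_lit 224) (nat_lit 11) (nat_lit 1) (nat_lit 137) c7_8874_0
 Tr.lf Tr.lf) Tr.lf) (Tr.nd (nat_lit 280) (nat_lit 2) (nat_lit 1) (nat_lit 164) c7_8874_0
 Tr.lf Tr.lf))))

noncomputable def c7_9896_0 : List Nat := [(nat_lit 0x4d4c247684f4390620c5a3a1b406021504dd8d66ecac000000000000001979c811c0943589332d5a40b635cb498493516dc561ca305131243418b6a88a9a040450499a6d82ab1b4b4924c801ab59b692d838608384b090cedb2455291a42b2a1840d48a68132c8456cb6e9ae7500ac3b044944170d2800c4c14a1b270c92556a069706149a266338ca8058b38e4ec0f3c2594e02baa088846ca18926556a2eb9e8b401da1c592001356743490ae43b5a5e92a21a9a9c53550911ba8c617405b13b298092478567380ed0003571a624a931a931915b30d94241ab54871136344bb3228ad346ca5ea4cbb4c22d5eab186192d10ed19af0c5939299590951b265b3693696c25b88992ad12c4e3436f1536b15121c61373384ba6961d7636025e60611a7acb56529a4c00000002c16682a35b6b0700000000a526ea30000000085d21a166d4568cab28a61744f13740ed389c0e8746056e18468b02b45817668b08984c53ad0556ea1120c0994cf5d45caad240c594a054115740c6cb0679895ac71672032709b0b5348831acc05caa49678360425028c74ea0802224a1b19500abd74d6d96a8165a014d06e00c3117424e4495ce195ad52060748144c6b0ca5b476a9b2daa9a662d49b69e5605b18ecd02cf026a0b4536805c43113cf2ac8c129b0b46971080d817527ae829d1dae504000000000000001d95bc9cade855dad4d86f14ce1030b199a16b90689a)]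
noncomputable def T7_9896 : Op := Op.mk (nat_lit 61)
 (Tr.nd (nat_lit 148) (nat_lit 1) (nat_lit 2) (nat_lit 711) c7_9896_0
 (Tr.nd (nat_lit 70) (nat_lit 1) (nat_lit 23) (nat_lit 333) c7_9896_0
 (Tr.nd (nat_lit 49) (nat_lit 1) (nat_lit 24) (nat_lit 54) c7_9896_0
 (Tr.nd (nat_lit 8) (nat_lit 1) (nat_lit 15) (nat_lit 30) c7_9896_0
 (Tr.nd (nat_lit 1) (nat_lit 1) (nat_lit 2) (nat_lit 4) c7_9896_0
 (Tr.nd (nat_lit 0) (nat_lit 1) (nat_lit 4) (nat_lit 0) c7_9896_0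
 Tr.lf Tr.lf) (Tr.nd (nat_lit 7) (nat_lit 1) (nat_lit 24) (nat_lit 6) c7_9896_0
 Tr.lf Tr.lf)) (Tr.nd (nat_lit 22) (nat_lit 1) (nat_lit 2) (nat_lit 52) c7_9896_0
 (Tr.nd (nat_lit 15) (nat_lit 1) (nat_lit 7) (nat_lit 45) c7_9896_0
 Tr.lf Tr.lf) Tr.lf)) (Tr.nd (nat_lit 57) (nat_lit 3) (nat_lit 11) (nat_lit 209) c7_9896_0
 (Tr.nd (nat_lit 56) (nat_lit 1) (nat_lit 116) (nat_lit 93) c7_9896_0
 (Tr.nd (nat_lit 50) (nat_lit 1) (nat_lit 15) (nat_lit 78) c7_9896_0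
 Tr.lf Tr.lf) Tr.lf) (Tr.nd (nat_lit 64) (nat_lit 5) (nat_lit 6) (nat_lit 303) c7_9896_0
 (Tr.nd (nat_lit 63) (nat_lit 1) (nat_lit 61) (nat_lit 242) c7_9896_0
 Tr.lf Tr.lf) Tr.lf))) (Tr.nd (nat_lit 113) (nat_lit 10) (nat_lit 7) (nat_lit 538) c7_9896_0
 (Tr.nd (nat_lit 105) (nat_lit 1) (nat_lit 61) (nat_lit 373) c7_9896_0
 (Tr.nd (nat_lit 99) (nat_lit 1) (nat_lit 7) (nat_lit 366) c7_9896_0
 (Tr.nd (nat_lit 71) (nat_lit 5) (nat_lit 2) (nat_lit 356) c7_9896_0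
 Tr.lf Tr.lf) Tr.lf) (Tr.nd (nat_lit 112) (nat_lit 2) (nat_lit 37) (nat_lit 464) c7_9896_0
 (Tr.nd (nat_lit 106) (nat_lit 5) (nat_lit 6) (nat_lit 434) c7_9896_0
 Tr.lf Tr.lf) Tr.lf)) (Tr.nd (nat_lit 126) (nat_lit 2) (nat_lit 5) (nat_lit 676) c7_9896_0
 (Tr.nd (nat_lit 120) (nat_lit 17) (nat_lit 2) (nat_lit 642) c7_9896_0
 (Tr.nd (nat_lit 119) (nat_lit 2) (nat_lit 17) (nat_lit 608) c7_9896_0
 Tr.lf Tr.lf) Tr.lf) (Tr.nd (nat_lit 133) (nat_lit 2) (nat_lit 1) (nat_lit 709) c7_9896_0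
 (Tr.nd (nat_lit 127) (nat_lit 23) (nat_lit 1) (nat_lit 686) c7_9896_0
 Tr.lf Tr.lf) Tr.lf)))) (Tr.nd (nat_lit 217) (nat_lit 6) (nat_lit 5) (nat_lit 1063) c7_9896_0
 (Tr.nd (nat_lit 169) (nat_lit 37) (nat_lit 2) (nat_lit 858) c7_9896_0
 (Tr.nd (nat_lit 161) (nat_lit 2) (nat_lit 17) (nat_lit 746) c7_9896_0
 (Tr.nd (nat_lit 155) (nat_lit 5) (nat_lit 2) (nat_lit 736) c7_9896_0
 (Tr.nd (nat_lit 154) (nat_lit 1) (nat_lit 23) (nat_lit 713) c7_9896_0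
 Tr.lf Tr.lf) Tr.lf) (Tr.nd (nat_lit 168) (nat_lit 4) (nat_lit 11) (nat_lit 814) c7_9896_0
 (Tr.nd (nat_lit 162) (nat_lit 17) (nat_lit 2) (nat_lit 780) c7_9896_0
 Tr.lf Tr.lf) Tr.lf)) (Tr.nd (nat_lit 182) (nat_lit 7) (nat_lit 1) (nat_lit 1023) c7_9896_0
 (Tr.nd (nat_lit 176) (nat_lit 61) (nat_lit 1) (nat_lit 962) c7_9896_0
 (Tr.nd (nat_lit 175) (nat_lit 6) (nat_lit 5) (nat_lit 932) c7_9896_0
 Tr.lf Tr.lf) Tr.lf) (Tr.nd (nat_lit 211) (nat_lit 23) (nat_lit 1) (nat_lit 1040) c7_9896_0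
 (Tr.nd (nat_lit 210) (nat_lit 2) (nat_lit 5) (nat_lit 1030) c7_9896_0
 Tr.lf Tr.lf) Tr.lf))) (Tr.nd (nat_lit 259) (nat_lit 2) (nat_lit 1) (nat_lit 1342) c7_9896_0
 (Tr.nd (nat_lit 225) (nat_lit 116) (nat_lit 1) (nat_lit 1187) c7_9896_0
 (Tr.nd (nat_lit 224) (nat_lit 11) (nat_lit 3) (nat_lit 1154) c7_9896_0
 (Tr.nd (nat_lit 218) (nat_lit 61) (nat_lit 1) (nat_lit 1093) c7_9896_0
 Tr.lf Tr.lf) Tr.lf) (Tr.nd (nat_lit 232) (nat_lit 24) (nat_lit 1) (nat_lit 1318) c7_9896_0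
 (Tr.nd (nat_lit 231) (nat_lit 15) (nat_lit 1) (nat_lit 1303) c7_9896_0
 Tr.lf Tr.lf) Tr.lf)) (Tr.nd (nat_lit 274) (nat_lit 24) (nat_lit 1) (nat_lit 1366) c7_9896_0
 (Tr.nd (nat_lit 273) (nat_lit 15) (nat_lit 1) (nat_lit 1351) c7_9896_0
 (Tr.nd (nat_lit 266) (nat_lit 7) (nat_lit 1) (nat_lit 1344) c7_9896_0
 Tr.lf Tr.lf) Tr.lf) (Tr.nd (nat_lit 281) (nat_lit 4) (nat_lit 1) (nat_lit 1392) c7_9896_0
 (Tr.nd (nat_lit 280) (nat_lit 2) (nat_lit 1) (nat_lit 1390) c7_9896_0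
 Tr.lf Tr.lf) Tr.lf)))))

noncomputable def c7_8873_0 : List Nat := [(nat_lit 0x6a218095d00000000000001dcf2381403444848650d0bc5db9072e89db51090752ac075e019aecb55c846a2a0a4ded022504560c2aa4d98368196b93ac679d536adec6b99429a343366d01631b1592118974c3352da2b20ac973881508ab52d2a856a819191d8e495c4c032c41bc0ece3630886bb1b8966212b85012932adb692d8f468a701186a0dd0db53d5a68848367548e306b48cf2a1122d02e82d69dd2951425bc22c419a8251712559600676723c18933136da8d9ececd20c5bc9caae58c35d441924c4d30e74002bdb1b16318b438942d566d4a54a8a9678aa22a73b48ada78e2906f15ad26331835a0c23abbb6b184e494808344436d16902b2b66dcda36f645d00da2da602995041446d0b0699b3aac1366bc6ca4d089746574d516c2d5b44a21a7ae00000001288dc9ca354ec480000000ac8a1d98000000052d77226ed26b4e8e634eba89b4cd691378b60c30bda680659c2cc428adcd9914e4ddccc05b4460890129098a2366ad3b44d40b4128559e06dc21c52b8b6120534ee6ada44d75c0822345399cb64db656140d10e02bd23255928256d8371ec466c296101a8ec91cae42b0153a15499b950622328b33341142e9b4150bae1c8d70045aab1673504a5ab0b590994aa98de7728c4b8bbb38ed0d83151527196d0553b9a9ac30d6d9b95d522159457215832adad4d630b5ace66608b04c80cd2d092cd6540000000000000aec030513)]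
noncomputable def T7_8873 : Op := Op.mk (nat_lit 61)
 (Tr.nd (nat_lit 148) (nat_lit 1) (nat_lit 2) (nat_lit 711) c7_8873_0
 (Tr.nd (nat_lit 70) (nat_lit 1) (nat_lit 23) (nat_lit 333) c7_8873_0
 (Tr.nd (nat_lit 49) (nat_lit 1) (nat_lit 24) (nat_lit 54) c7_8873_0
 (Tr.nd (nat_lit 8) (nat_lit 1) (nat_lit 15) (nat_lit 30) c7_8873_0
 (Tr.nd (nat_lit 1) (nat_lit 1) (nat_lit 2) (nat_lit 4) c7_8873_0
 (Tr.nd (nat_lit 0) (nat_lit 1) (nat_lit 4) (nat_lit 0) c7_8873_0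
 Tr.lf Tr.lf) (Tr.nd (nat_lit 7) (nat_lit 1) (nat_lit 24) (nat_lit 6) c7_8873_0
 Tr.lf Tr.lf)) (Tr.nd (nat_lit 22) (nat_lit 1) (nat_lit 2) (nat_lit 52) c7_8873_0
 (Tr.nd (nat_lit 15) (nat_lit 1) (nat_lit 7) (nat_lit 45) c7_8873_0
 Tr.lf Tr.lf) Tr.lf)) (Tr.nd (nat_lit 57) (nat_lit 3) (nat_lit 11) (nat_lit 209) c7_8873_0
 (Tr.nd (nat_lit 56) (nat_lit 1) (nat_lit 116) (nat_lit 93) c7_8873_0
 (Tr.nd (nat_lit 50) (nat_lit 1) (nat_lit 15) (nat_lit 78) c7_8873_0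
 Tr.lf Tr.lf) Tr.lf) (Tr.nd (nat_lit 64) (nat_lit 5) (nat_lit 6) (nat_lit 303) c7_8873_0
 (Tr.nd (nat_lit 63) (nat_lit 1) (nat_lit 61) (nat_lit 242) c7_8873_0
 Tr.lf Tr.lf) Tr.lf))) (Tr.nd (nat_lit 113) (nat_lit 10) (nat_lit 7) (nat_lit 538) c7_8873_0
 (Tr.nd (nat_lit 105) (nat_lit 1) (nat_lit 61) (nat_lit 373) c7_8873_0
 (Tr.nd (nat_lit 99) (nat_lit 1) (nat_lit 7) (nat_lit 366) c7_8873_0
 (Tr.nd (nat_lit 71) (nat_lit 5) (nat_lit 2) (nat_lit 356) c7_8873_0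
 Tr.lf Tr.lf) Tr.lf) (Tr.nd (nat_lit 112) (nat_lit 2) (nat_lit 37) (nat_lit 464) c7_8873_0
 (Tr.nd (nat_lit 106) (nat_lit 5) (nat_lit 6) (nat_lit 434) c7_8873_0
 Tr.lf Tr.lf) Tr.lf)) (Tr.nd (nat_lit 126) (nat_lit 2) (nat_lit 5) (nat_lit 676) c7_8873_0
 (Tr.nd (nat_lit 120) (nat_lit 17) (nat_lit 2) (nat_lit 642) c7_8873_0
 (Tr.nd (nat_lit 119) (nat_lit 2) (nat_lit 17) (nat_lit 608) c7_8873_0
 Tr.lf Tr.lf) Tr.lf) (Tr.nd (nat_lit 133) (nat_lit 2) (nat_lit 1) (nat_lit 709) c7_8873_0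
 (Tr.nd (nat_lit 127) (nat_lit 23) (nat_lit 1) (nat_lit 686) c7_8873_0
 Tr.lf Tr.lf) Tr.lf)))) (Tr.nd (nat_lit 217) (nat_lit 6) (nat_lit 5) (nat_lit 1063) c7_8873_0
 (Tr.nd (nat_lit 169) (nat_lit 37) (nat_lit 2) (nat_lit 858) c7_8873_0
 (Tr.nd (nat_lit 161) (nat_lit 2) (nat_lit 17) (nat_lit 746) c7_8873_0
 (Tr.nd (nat_lit 155) (nat_lit 5) (nat_lit 2) (nat_lit 736) c7_8873_0
 (Tr.nd (nat_lit 154) (nat_lit 1) (nat_lit 23) (nat_lit 713) c7_8873_0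
 Tr.lf Tr.lf) Tr.lf) (Tr.nd (nat_lit 168) (nat_lit 4) (nat_lit 11) (nat_lit 814) c7_8873_0
 (Tr.nd (nat_lit 162) (nat_lit 17) (nat_lit 2) (nat_lit 780) c7_8873_0
 Tr.lf Tr.lf) Tr.lf)) (Tr.nd (nat_lit 182) (nat_lit 7) (nat_lit 1) (nat_lit 1023) c7_8873_0
 (Tr.nd (nat_lit 176) (nat_lit 61) (nat_lit 1) (nat_lit 962) c7_8873_0
 (Tr.nd (nat_lit 175) (nat_lit 6) (nat_lit 5) (nat_lit 932) c7_8873_0
 Tr.lf Tr.lf) Tr.lf) (Tr.nd (nat_lit 211) (nat_lit 23) (nat_lit 1) (nat_lit 1040) c7_8873_0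
 (Tr.nd (nat_lit 210) (nat_lit 2) (nat_lit 5) (nat_lit 1030) c7_8873_0
 Tr.lf Tr.lf) Tr.lf))) (Tr.nd (nat_lit 259) (nat_lit 2) (nat_lit 1) (nat_lit 1342) c7_8873_0
 (Tr.nd (nat_lit 225) (nat_lit 116) (nat_lit 1) (nat_lit 1187) c7_8873_0
 (Tr.nd (nat_lit 224) (nat_lit 11) (nat_lit 3) (nat_lit 1154) c7_8873_0
 (Tr.nd (nat_lit 218) (nat_lit 61) (nat_lit 1) (nat_lit 1093) c7_8873_0
 Tr.lf Tr.lf) Tr.lf) (Tr.nd (nat_lit 232) (nat_lit 24) (nat_lit 1) (nat_lit 1318) c7_8873_0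
 (Tr.nd (nat_lit 231) (nat_lit 15) (nat_lit 1) (nat_lit 1303) c7_8873_0
 Tr.lf Tr.lf) Tr.lf)) (Tr.nd (nat_lit 274) (nat_lit 24) (nat_lit 1) (nat_lit 1366) c7_8873_0
 (Tr.nd (nat_lit 273) (nat_lit 15) (nat_lit 1) (nat_lit 1351) c7_8873_0
 (Tr.nd (nat_lit 266) (nat_lit 7) (nat_lit 1) (nat_lit 1344) c7_8873_0
 Tr.lf Tr.lf) Tr.lf) (Tr.nd (nat_lit 281) (nat_lit 4) (nat_lit 1) (nat_lit 1392) c7_8873_0
 (Tr.nd (nat_lit 280) (nat_lit 2) (nat_lit 1) (nat_lit 1390) c7_8873_0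
 Tr.lf Tr.lf) Tr.lf)))))

noncomputable def c7_9890_0 : List Nat := [(nat_lit 0xcf3a5bc3024d353a6ba2d9631490453590987a565464a352583b34728a5026a5402de7b56b354d7a1420b1bb5374ea627712a069ca0c342a0dad935ed8ac843ad79649a031a2a4222ce14cd53b50643782b929315621584c1ac57658994c279045682355890da19d9c691366853a95d9caaaa92ce4d73588103a5480950e3a864104036b844d65ce3a882223a6aa490d12450976832d93545a76bb010923ad1b66b46c3b9e2639025256d9545088a8bc1ea22422499a59d0b9537622610a46206a599034a0182f60d20c000141dd936966b020661c22168b3b6ad5aa3ccda157ac44102e2b095b62a266399792b909b02c50c0b036919a351882c1066cc12ca20d841658216f082510389acc88a3d10ccdcf039016a0c304cc654ddac257118c3627a5c0dac3095000000010cc218299e68108000000022e98bcc00000006752d16d951bc9c0464ed0f2b121058d624d0950f52dc0492528a06a07a00e216cc1822b4586a5463c548db993db0b7149022576b4caba4b6116b262920a64915d3150105aaeeb2680c76900820b171c6243691b502943d11a722455558f6a9568cd292938f62c5a640ea704c8a0b341a2d4b1d48547442b51a21c045d68cd80db62649106e1809068e331b306a8c1260a38b0646301d687469042d1388a9412b17300c20e32cc543b192988680499d18d1639a56324a944b88bb330d494c3822b6a2cb4574d6a9a491866cd79e)]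
noncomputable def T7_9890 : Op := Op.mk (nat_lit 61)
 (Tr.nd (nat_lit 148) (nat_lit 1) (nat_lit 2) (nat_lit 711) c7_9890_0
 (Tr.nd (nat_lit 70) (nat_lit 1) (nat_lit 23) (nat_lit 333) c7_9890_0
 (Tr.nd (nat_lit 49) (nat_lit 1) (nat_lit 24) (nat_lit 54) c7_9890_0
 (Tr.nd (nat_lit 8) (nat_lit 1) (nat_lit 15) (nat_lit 30) c7_9890_0
 (Tr.nd (nat_lit 1) (nat_lit 1) (nat_lit 2) (nat_lit 4) c7_9890_0
 (Tr.nd (nat_lit 0) (nat_lit 1) (nat_lit 4) (nat_lit 0) c7_9890_0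
 Tr.lf Tr.lf) (Tr.nd (nat_lit 7) (nat_lit 1) (nat_lit 24) (nat_lit 6) c7_9890_0
 Tr.lf Tr.lf)) (Tr.nd (nat_lit 22) (nat_lit 1) (nat_lit 2) (nat_lit 52) c7_9890_0
 (Tr.nd (nat_lit 15) (nat_lit 1) (nat_lit 7) (nat_lit 45) c7_9890_0
 Tr.lf Tr.lf) Tr.lf)) (Tr.nd (nat_lit 57) (nat_lit 3) (nat_lit 11) (nat_lit 209) c7_9890_0
 (Tr.nd (nat_lit 56) (nat_lit 1) (nat_lit 116) (nat_lit 93) c7_9890_0
 (Tr.nd (nat_lit 50) (nat_lit 1) (nat_lit 15) (nat_lit 78) c7_9890_0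
 Tr.lf Tr.lf) Tr.lf) (Tr.nd (nat_lit 64) (nat_lit 5) (nat_lit 6) (nat_lit 303) c7_9890_0
 (Tr.nd (nat_lit 63) (nat_lit 1) (nat_lit 61) (nat_lit 242) c7_9890_0
 Tr.lf Tr.lf) Tr.lf))) (Tr.nd (nat_lit 113) (nat_lit 10) (nat_lit 7) (nat_lit 538) c7_9890_0
 (Tr.nd (nat_lit 105) (nat_lit 1) (nat_lit 61) (nat_lit 373) c7_9890_0
 (Tr.nd (nat_lit 99) (nat_lit 1) (nat_lit 7) (nat_lit 366) c7_9890_0
 (Tr.nd (nat_lit 71) (nat_lit 5) (nat_lit 2) (nat_lit 356) c7_9890_0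
 Tr.lf Tr.lf) Tr.lf) (Tr.nd (nat_lit 112) (nat_lit 2) (nat_lit 37) (nat_lit 464) c7_9890_0
 (Tr.nd (nat_lit 106) (nat_lit 5) (nat_lit 6) (nat_lit 434) c7_9890_0
 Tr.lf Tr.lf) Tr.lf)) (Tr.nd (nat_lit 126) (nat_lit 2) (nat_lit 5) (nat_lit 676) c7_9890_0
 (Tr.nd (nat_lit 120) (nat_lit 17) (nat_lit 2) (nat_lit 642) c7_9890_0
 (Tr.nd (nat_lit 119) (nat_lit 2) (nat_lit 17) (nat_lit 608) c7_9890_0
 Tr.lf Tr.lf) Tr.lf) (Tr.nd (nat_lit 133) (nat_lit 2) (nat_lit 1) (nat_lit 709) c7_9890_0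
 (Tr.nd (nat_lit 127) (nat_lit 23) (nat_lit 1) (nat_lit 686) c7_9890_0
 Tr.lf Tr.lf) Tr.lf)))) (Tr.nd (nat_lit 217) (nat_lit 6) (nat_lit 5) (nat_lit 1063) c7_9890_0
 (Tr.nd (nat_lit 169) (nat_lit 37) (nat_lit 2) (nat_lit 858) c7_9890_0
 (Tr.nd (nat_lit 161) (nat_lit 2) (nat_lit 17) (nat_lit 746) c7_9890_0
 (Tr.nd (nat_lit 155) (nat_lit 5) (nat_lit 2) (nat_lit 736) c7_9890_0
 (Tr.nd (nat_lit 154) (nat_lit 1) (nat_lit 23) (nat_lit 713) c7_9890_0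
 Tr.lf Tr.lf) Tr.lf) (Tr.nd (nat_lit 168) (nat_lit 4) (nat_lit 11) (nat_lit 814) c7_9890_0
 (Tr.nd (nat_lit 162) (nat_lit 17) (nat_lit 2) (nat_lit 780) c7_9890_0
 Tr.lf Tr.lf) Tr.lf)) (Tr.nd (nat_lit 182) (nat_lit 7) (nat_lit 1) (nat_lit 1023) c7_9890_0
 (Tr.nd (nat_lit 176) (nat_lit 61) (nat_lit 1) (nat_lit 962) c7_9890_0
 (Tr.nd (nat_lit 175) (nat_lit 6) (nat_lit 5) (nat_lit 932) c7_9890_0
 Tr.lf Tr.lf) Tr.lf) (Tr.nd (nat_lit 211) (nat_lit 23) (nat_lit 1) (nat_lit 1040) c7_9890_0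
 (Tr.nd (nat_lit 210) (nat_lit 2) (nat_lit 5) (nat_lit 1030) c7_9890_0
 Tr.lf Tr.lf) Tr.lf))) (Tr.nd (nat_lit 259) (nat_lit 2) (nat_lit 1) (nat_lit 1342) c7_9890_0
 (Tr.nd (nat_lit 225) (nat_lit 116) (nat_lit 1) (nat_lit 1187) c7_9890_0
 (Tr.nd (nat_lit 224) (nat_lit 11) (nat_lit 3) (nat_lit 1154) c7_9890_0
 (Tr.nd (nat_lit 218) (nat_lit 61) (nat_lit 1) (nat_lit 1093) c7_9890_0
 Tr.lf Tr.lf) Tr.lf) (Tr.nd (nat_lit 232) (nat_lit 24) (nat_lit 1) (nat_lit 1318) c7_9890_0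
 (Tr.nd (nat_lit 231) (nat_lit 15) (nat_lit 1) (nat_lit 1303) c7_9890_0
 Tr.lf Tr.lf) Tr.lf)) (Tr.nd (nat_lit 274) (nat_lit 24) (nat_lit 1) (nat_lit 1366) c7_9890_0
 (Tr.nd (nat_lit 273) (nat_lit 15) (nat_lit 1) (nat_lit 1351) c7_9890_0
 (Tr.nd (nat_lit 266) (nat_lit 7) (nat_lit 1) (nat_lit 1344) c7_9890_0
 Tr.lf Tr.lf) Tr.lf) (Tr.nd (nat_lit 281) (nat_lit 4) (nat_lit 1) (nat_lit 1392) c7_9890_0
 (Tr.nd (nat_lit 280) (nat_lit 2) (nat_lit 1) (nat_lit 1390) c7_9890_0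
 Tr.lf Tr.lf) Tr.lf)))))

noncomputable def c7_8870_0 : List Nat := [(nat_lit 0x79e35021515d8d542e601ae2622d0eac540ea41c1e5488da1ae572888ad0026395472b0c95b15a98e6080f2c422294e2c8a08d44e3760285aba83d64b286d8a656e9d4cb53a45428324b6095dbae9b642905e4cc632613156a10c5259ab51c06b1eb1d4518d39ad6b1763120ae338b4190f5cf47699510ad414da1622d130018296438d214a48416bd686dca9530ccacdacb13d966b0ad56038ec64c52841a958d9843668574e2de98474a8001ad665d450f0a54620523106cd4d1b553a9e9a694d2cd6819433ae6a1b00008c2d2703a92903b012039b1b35866c8272d9eb43c00cecb03d2056cd6aab2cf1cf0cdb50205c02a49a76b4038e9db12d040804c8ee93572120108264ed8d71d0db15268260c652513b96b867861557a0b8095b9a6641a139761aaa700000000362f21a66a894ed8000000062e04300000000004b2720622d6cb6628312b1baaddb0c1672bae472b3848c460830982395db51a23a1b785d7030bcb65602020f60ec4c216284b95c603a9d193cb66a5976956861a958db16d8d0c2a46849c60b3442006a689320dad0b8445cd665ad9982c267171d12072b393b7469c28aae5ce5c062ad4f2491c9078318678189279822d37674c2e815b69ab446e003560d62b644a06c4e8200566f3ade995325c837ad25ec9db10a4bb348d6084012a83c9222102849d0545aad704dc06acc620dc4629d4495b455d203d42a9cae8a810a9cf3)]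
noncomputable def T7_8870 : Op := Op.mk (nat_lit 61)
 (Tr.nd (nat_lit 148) (nat_lit 1) (nat_lit 2) (nat_lit 711) c7_8870_0
 (Tr.nd (nat_lit 70) (nat_lit 1) (nat_lit 23) (nat_lit 333) c7_8870_0
 (Tr.nd (nat_lit 49) (nat_lit 1) (nat_lit 24) (nat_lit 54) c7_8870_0
 (Tr.nd (nat_lit 8) (nat_lit 1) (nat_lit 15) (nat_lit 30) c7_8870_0
 (Tr.nd (nat_lit 1) (nat_lit 1) (nat_lit 2) (nat_lit 4) c7_8870_0
 (Tr.nd (nat_lit 0) (nat_lit 1) (nat_lit 4) (nat_lit 0) c7_8870_0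
 Tr.lf Tr.lf) (Tr.nd (nat_lit 7) (nat_lit 1) (nat_lit 24) (nat_lit 6) c7_8870_0
 Tr.lf Tr.lf)) (Tr.nd (nat_lit 22) (nat_lit 1) (nat_lit 2) (nat_lit 52) c7_8870_0
 (Tr.nd (nat_lit 15) (nat_lit 1) (nat_lit 7) (nat_lit 45) c7_8870_0
 Tr.lf Tr.lf) Tr.lf)) (Tr.nd (nat_lit 57) (nat_lit 3) (nat_lit 11) (nat_lit 209) c7_8870_0
 (Tr.nd (nat_lit 56) (nat_lit 1) (nat_lit 116) (nat_lit 93) c7_8870_0
 (Tr.nd (nat_lit 50) (nat_lit 1) (nat_lit 15) (nat_lit 78) c7_8870_0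
 Tr.lf Tr.lf) Tr.lf) (Tr.nd (nat_lit 64) (nat_lit 5) (nat_lit 6) (nat_lit 303) c7_8870_0
 (Tr.nd (nat_lit 63) (nat_lit 1) (nat_lit 61) (nat_lit 242) c7_8870_0
 Tr.lf Tr.lf) Tr.lf))) (Tr.nd (nat_lit 113) (nat_lit 10) (nat_lit 7) (nat_lit 538) c7_8870_0
 (Tr.nd (nat_lit 105) (nat_lit 1) (nat_lit 61) (nat_lit 373) c7_8870_0
 (Tr.nd (nat_lit 99) (nat_lit 1) (nat_lit 7) (nat_lit 366) c7_8870_0
 (Tr.nd (nat_lit 71) (nat_lit 5) (nat_lit 2) (nat_lit 356) c7_8870_0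
 Tr.lf Tr.lf) Tr.lf) (Tr.nd (nat_lit 112) (nat_lit 2) (nat_lit 37) (nat_lit 464) c7_8870_0
 (Tr.nd (nat_lit 106) (nat_lit 5) (nat_lit 6) (nat_lit 434) c7_8870_0
 Tr.lf Tr.lf) Tr.lf)) (Tr.nd (nat_lit 126) (nat_lit 2) (nat_lit 5) (nat_lit 676) c7_8870_0
 (Tr.nd (nat_lit 120) (nat_lit 17) (nat_lit 2) (nat_lit 642) c7_8870_0
 (Tr.nd (nat_lit 119) (nat_lit 2) (nat_lit 17) (nat_lit 608) c7_8870_0
 Tr.lf Tr.lf) Tr.lf) (Tr.nd (nat_lit 133) (nat_lit 2) (nat_lit 1) (nat_lit 709) c7_8870_0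
 (Tr.nd (nat_lit 127) (nat_lit 23) (nat_lit 1) (nat_lit 686) c7_8870_0
 Tr.lf Tr.lf) Tr.lf)))) (Tr.nd (nat_lit 217) (nat_lit 6) (nat_lit 5) (nat_lit 1063) c7_8870_0
 (Tr.nd (nat_lit 169) (nat_lit 37) (nat_lit 2) (nat_lit 858) c7_8870_0
 (Tr.nd (nat_lit 161) (nat_lit 2) (nat_lit 17) (nat_lit 746) c7_8870_0
 (Tr.nd (nat_lit 155) (nat_lit 5) (nat_lit 2) (nat_lit 736) c7_8870_0
 (Tr.nd (nat_lit 154) (nat_lit 1) (nat_lit 23) (nat_lit 713) c7_8870_0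
 Tr.lf Tr.lf) Tr.lf) (Tr.nd (nat_lit 168) (nat_lit 4) (nat_lit 11) (nat_lit 814) c7_8870_0
 (Tr.nd (nat_lit 162) (nat_lit 17) (nat_lit 2) (nat_lit 780) c7_8870_0
 Tr.lf Tr.lf) Tr.lf)) (Tr.nd (nat_lit 182) (nat_lit 7) (nat_lit 1) (nat_lit 1023) c7_8870_0
 (Tr.nd (nat_lit 176) (nat_lit 61) (nat_lit 1) (nat_lit 962) c7_8870_0
 (Tr.nd (nat_lit 175) (nat_lit 6) (nat_lit 5) (nat_lit 932) c7_8870_0
 Tr.lf Tr.lf) Tr.lf) (Tr.nd (nat_lit 211) (nat_lit 23) (nat_lit 1) (nat_lit 1040) c7_8870_0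
 (Tr.nd (nat_lit 210) (nat_lit 2) (nat_lit 5) (nat_lit 1030) c7_8870_0
 Tr.lf Tr.lf) Tr.lf))) (Tr.nd (nat_lit 259) (nat_lit 2) (nat_lit 1) (nat_lit 1342) c7_8870_0
 (Tr.nd (nat_lit 225) (nat_lit 116) (nat_lit 1) (nat_lit 1187) c7_8870_0
 (Tr.nd (nat_lit 224) (nat_lit 11) (nat_lit 3) (nat_lit 1154) c7_8870_0
 (Tr.nd (nat_lit 218) (nat_lit 61) (nat_lit 1) (nat_lit 1093) c7_8870_0
 Tr.lf Tr.lf) Tr.lf) (Tr.nd (nat_lit 232) (nat_lit 24) (nat_lit 1) (nat_lit 1318) c7_8870_0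
 (Tr.nd (nat_lit 231) (nat_lit 15) (nat_lit 1) (nat_lit 1303) c7_8870_0
 Tr.lf Tr.lf) Tr.lf)) (Tr.nd (nat_lit 274) (nat_lit 24) (nat_lit 1) (nat_lit 1366) c7_8870_0
 (Tr.nd (nat_lit 273) (nat_lit 15) (nat_lit 1) (nat_lit 1351) c7_8870_0
 (Tr.nd (nat_lit 266) (nat_lit 7) (nat_lit 1) (nat_lit 1344) c7_8870_0
 Tr.lf Tr.lf) Tr.lf) (Tr.nd (nat_lit 281) (nat_lit 4) (nat_lit 1) (nat_lit 1392) c7_8870_0
 (Tr.nd (nat_lit 280) (nat_lit 2) (nat_lit 1) (nat_lit 1390) c7_8870_0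
 Tr.lf Tr.lf) Tr.lf)))))

noncomputable def c7_9866_0 : List Nat := [(nat_lit 0x15e8e1289669209d4e041030165374d18b203b2360901db44b16547046c8b55a6b30d91206216631210c792b19a6a571a5a94edb54a9682d5a6904a6acd96538d4cad4a2cb85e69c250b1eb9b453995423c9a25e940a361216562b03358da901245c224aca80d06608a9d763a128a8b72484d2c01c75bd9312a845473b6d952ab3b6996b72c50135a0680e16706e0659334a61150326b6d6d6c73b0c5a598a316c1662316a293754a9bd0599d6e228eba3d5b42216e6148f075a6f27136a15136cab5392c4306406dd88002a536d01d5ad9eaa5d1575b57318364e3645326a0a0e2a0d802862d801a52492a1a5a0116870ddb571175ec15ab185c6e08eec2cd58243ba51b57046e330e56b0f257112dd9592095115cc3531ca830017744c6c8447160808a13494e00000002a86e9a56f04ee8000000007b3a93a40000000573790d93b9b0cb1848a376851a6e631566189b685633528995a886d54e679259d4f232c89b150753b23743c86ca1474b3286578ec9bb6dd210a830d9a12cb11b18b3181692a101a96376c36d7954acb6d018b188ae78ad2689d65d8125ad15448572bad5043c26015952506a092244dcba11b241684108160bd11dae55c72c751b456528e2514465c9658a604d5860d648a58cdbae3d51a9ec9bd364597359504812db6ed2237322958c44e53b322db5b82388b3929b62241295b11201ad86d329000208c6e24134b25131cce8)]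
noncomputable def T7_9866 : Op := Op.mk (nat_lit 61)
 (Tr.nd (nat_lit 148) (nat_lit 1) (nat_lit 2) (nat_lit 711) c7_9866_0
 (Tr.nd (nat_lit 70) (nat_lit 1) (nat_lit 23) (nat_lit 333) c7_9866_0
 (Tr.nd (nat_lit 49) (nat_lit 1) (nat_lit 24) (nat_lit 54) c7_9866_0
 (Tr.nd (nat_lit 8) (nat_lit 1) (nat_lit 15) (nat_lit 30) c7_9866_0
 (Tr.nd (nat_lit 1) (nat_lit 1) (nat_lit 2) (nat_lit 4) c7_9866_0
 (Tr.nd (nat_lit 0) (nat_lit 1) (nat_lit 4) (nat_lit 0) c7_9866_0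
 Tr.lf Tr.lf) (Tr.nd (nat_lit 7) (nat_lit 1) (nat_lit 24) (nat_lit 6) c7_9866_0
 Tr.lf Tr.lf)) (Tr.nd (nat_lit 22) (nat_lit 1) (nat_lit 2) (nat_lit 52) c7_9866_0
 (Tr.nd (nat_lit 15) (nat_lit 1) (nat_lit 7) (nat_lit 45) c7_9866_0
 Tr.lf Tr.lf) Tr.lf)) (Tr.nd (nat_lit 57) (nat_lit 3) (nat_lit 11) (nat_lit 209) c7_9866_0
 (Tr.nd (nat_lit 56) (nat_lit 1) (nat_lit 116) (nat_lit 93) c7_9866_0
 (Tr.nd (nat_lit 50) (nat_lit 1) (nat_lit 15) (nat_lit 78) c7_9866_0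
 Tr.lf Tr.lf) Tr.lf) (Tr.nd (nat_lit 64) (nat_lit 5) (nat_lit 6) (nat_lit 303) c7_9866_0
 (Tr.nd (nat_lit 63) (nat_lit 1) (nat_lit 61) (nat_lit 242) c7_9866_0
 Tr.lf Tr.lf) Tr.lf))) (Tr.nd (nat_lit 113) (nat_lit 10) (nat_lit 7) (nat_lit 538) c7_9866_0
 (Tr.nd (nat_lit 105) (nat_lit 1) (nat_lit 61) (nat_lit 373) c7_9866_0
 (Tr.nd (nat_lit 99) (nat_lit 1) (nat_lit 7) (nat_lit 366) c7_9866_0
 (Tr.nd (nat_lit 71) (nat_lit 5) (nat_lit 2) (nat_lit 356) c7_9866_0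
 Tr.lf Tr.lf) Tr.lf) (Tr.nd (nat_lit 112) (nat_lit 2) (nat_lit 37) (nat_lit 464) c7_9866_0
 (Tr.nd (nat_lit 106) (nat_lit 5) (nat_lit 6) (nat_lit 434) c7_9866_0
 Tr.lf Tr.lf) Tr.lf)) (Tr.nd (nat_lit 126) (nat_lit 2) (nat_lit 5) (nat_lit 676) c7_9866_0
 (Tr.nd (nat_lit 120) (nat_lit 17) (nat_lit 2) (nat_lit 642) c7_9866_0
 (Tr.nd (nat_lit 119) (nat_lit 2) (nat_lit 17) (nat_lit 608) c7_9866_0
 Tr.lf Tr.lf) Tr.lf) (Tr.nd (nat_lit 133) (nat_lit 2) (nat_lit 1) (nat_lit 709) c7_9866_0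
 (Tr.nd (nat_lit 127) (nat_lit 23) (nat_lit 1) (nat_lit 686) c7_9866_0
 Tr.lf Tr.lf) Tr.lf)))) (Tr.nd (nat_lit 217) (nat_lit 6) (nat_lit 5) (nat_lit 1063) c7_9866_0
 (Tr.nd (nat_lit 169) (nat_lit 37) (nat_lit 2) (nat_lit 858) c7_9866_0
 (Tr.nd (nat_lit 161) (nat_lit 2) (nat_lit 17) (nat_lit 746) c7_9866_0
 (Tr.nd (nat_lit 155) (nat_lit 5) (nat_lit 2) (nat_lit 736) c7_9866_0
 (Tr.nd (nat_lit 154) (nat_lit 1) (nat_lit 23) (nat_lit 713) c7_9866_0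
 Tr.lf Tr.lf) Tr.lf) (Tr.nd (nat_lit 168) (nat_lit 4) (nat_lit 11) (nat_lit 814) c7_9866_0
 (Tr.nd (nat_lit 162) (nat_lit 17) (nat_lit 2) (nat_lit 780) c7_9866_0
 Tr.lf Tr.lf) Tr.lf)) (Tr.nd (nat_lit 182) (nat_lit 7) (nat_lit 1) (nat_lit 1023) c7_9866_0
 (Tr.nd (nat_lit 176) (nat_lit 61) (nat_lit 1) (nat_lit 962) c7_9866_0
 (Tr.nd (nat_lit 175) (nat_lit 6) (nat_lit 5) (nat_lit 932) c7_9866_0
 Tr.lf Tr.lf) Tr.lf) (Tr.nd (nat_lit 211) (nat_lit 23) (nat_lit 1) (nat_lit 1040) c7_9866_0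
 (Tr.nd (nat_lit 210) (nat_lit 2) (nat_lit 5) (nat_lit 1030) c7_9866_0
 Tr.lf Tr.lf) Tr.lf))) (Tr.nd (nat_lit 259) (nat_lit 2) (nat_lit 1) (nat_lit 1342) c7_9866_0
 (Tr.nd (nat_lit 225) (nat_lit 116) (nat_lit 1) (nat_lit 1187) c7_9866_0
 (Tr.nd (nat_lit 224) (nat_lit 11) (nat_lit 3) (nat_lit 1154) c7_9866_0
 (Tr.nd (nat_lit 218) (nat_lit 61) (nat_lit 1) (nat_lit 1093) c7_9866_0
 Tr.lf Tr.lf) Tr.lf) (Tr.nd (nat_lit 232) (nat_lit 24) (nat_lit 1) (nat_lit 1318) c7_9866_0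
 (Tr.nd (nat_lit 231) (nat_lit 15) (nat_lit 1) (nat_lit 1303) c7_9866_0
 Tr.lf Tr.lf) Tr.lf)) (Tr.nd (nat_lit 274) (nat_lit 24) (nat_lit 1) (nat_lit 1366) c7_9866_0
 (Tr.nd (nat_lit 273) (nat_lit 15) (nat_lit 1) (nat_lit 1351) c7_9866_0
 (Tr.nd (nat_lit 266) (nat_lit 7) (nat_lit 1) (nat_lit 1344) c7_9866_0
 Tr.lf Tr.lf) Tr.lf) (Tr.nd (nat_lit 281) (nat_lit 4) (nat_lit 1) (nat_lit 1392) c7_9866_0
 (Tr.nd (nat_lit 280) (nat_lit 2) (nat_lit 1) (nat_lit 1390) c7_9866_0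
 Tr.lf Tr.lf) Tr.lf)))))

noncomputable def c7_8858_0 : List Nat := [(nat_lit 0xa33733cf625b9aad58cf47a4805ba6d42735ce5224c1ba4069d42bc52a596988db792b3640c532d96959062ba568da6a65a2daa8b328105d5bd6e519351d9980e34d4abb1d336ac57961534f5b6489a7738160867642f45400922b5cc566c79114a37149b09bbaac55c83da6108681a1cae84a8658466ba14cd4d9563a636586cd34b181545cc6c6309ea4e3020050a18acab36a5402c6db0188319b11b5b0d8d78b598b662811730e323349835183606b19c9497a466e89a954a56a54ccbb194c34ec8847ab9ada13b80005469b7645ba73175164b407598cead872ab204abd84a4ac30813048c54b5e70dd55d6670139b0242065a628996d95256da6a5a1922d9490cc9536da92b2db0c4b038ea2ca2b9b1b2638a9816cb15a98039d0841552e33834a0d3232800000002dae92e91a98c3d800000000ce8e9b8000000062db540b5685ab46f495391b65c2e075898cb91b2d8aa78192e44551eac9d9029dcce2c0681c05ad9a94132673a761b26e06f0614225b4e402b13795954310a00421c4dccacde026a2a230669a5b0cb70d6a32f108d6adc145156c915d8c5213060d36616a8e5756d06d23a94682b394ba1ebb2d1462a4d9513c1888a146150af1c198e9d885864eecd04dca24854449499652cf4c7255d84d418355815a4495a0e22920d0b8b70c61e90b849371940acd48e742ad300d6c6901b1eba0c062eca94d7399e0ee5746c9d9e7a3785)]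
noncomputable def T7_8858 : Op := Op.mk (nat_lit 61)
 (Tr.nd (nat_lit 148) (nat_lit 1) (nat_lit 2) (nat_lit 711) c7_8858_0
 (Tr.nd (nat_lit 70) (nat_lit 1) (nat_lit 23) (nat_lit 333) c7_8858_0
 (Tr.nd (nat_lit 49) (nat_lit 1) (nat_lit 24) (nat_lit 54) c7_8858_0
 (Tr.nd (nat_lit 8) (nat_lit 1) (nat_lit 15) (nat_lit 30) c7_8858_0
 (Tr.nd (nat_lit 1) (nat_lit 1) (nat_lit 2) (nat_lit 4) c7_8858_0
 (Tr.nd (nat_lit 0) (nat_lit 1) (nat_lit 4) (nat_lit 0) c7_8858_0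
 Tr.lf Tr.lf) (Tr.nd (nat_lit 7) (nat_lit 1) (nat_lit 24) (nat_lit 6) c7_8858_0
 Tr.lf Tr.lf)) (Tr.nd (nat_lit 22) (nat_lit 1) (nat_lit 2) (nat_lit 52) c7_8858_0
 (Tr.nd (nat_lit 15) (nat_lit 1) (nat_lit 7) (nat_lit 45) c7_8858_0
 Tr.lf Tr.lf) Tr.lf)) (Tr.nd (nat_lit 57) (nat_lit 3) (nat_lit 11) (nat_lit 209) c7_8858_0
 (Tr.nd (nat_lit 56) (nat_lit 1) (nat_lit 116) (nat_lit 93) c7_8858_0
 (Tr.nd (nat_lit 50) (nat_lit 1) (nat_lit 15) (nat_lit 78) c7_8858_0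
 Tr.lf Tr.lf) Tr.lf) (Tr.nd (nat_lit 64) (nat_lit 5) (nat_lit 6) (nat_lit 303) c7_8858_0
 (Tr.nd (nat_lit 63) (nat_lit 1) (nat_lit 61) (nat_lit 242) c7_8858_0
 Tr.lf Tr.lf) Tr.lf))) (Tr.nd (nat_lit 113) (nat_lit 10) (nat_lit 7) (nat_lit 538) c7_8858_0
 (Tr.nd (nat_lit 105) (nat_lit 1) (nat_lit 61) (nat_lit 373) c7_8858_0
 (Tr.nd (nat_lit 99) (nat_lit 1) (nat_lit 7) (nat_lit 366) c7_8858_0
 (Tr.nd (nat_lit 71) (nat_lit 5) (nat_lit 2) (nat_lit 356) c7_8858_0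
 Tr.lf Tr.lf) Tr.lf) (Tr.nd (nat_lit 112) (nat_lit 2) (nat_lit 37) (nat_lit 464) c7_8858_0
 (Tr.nd (nat_lit 106) (nat_lit 5) (nat_lit 6) (nat_lit 434) c7_8858_0
 Tr.lf Tr.lf) Tr.lf)) (Tr.nd (nat_lit 126) (nat_lit 2) (nat_lit 5) (nat_lit 676) c7_8858_0
 (Tr.nd (nat_lit 120) (nat_lit 17) (nat_lit 2) (nat_lit 642) c7_8858_0
 (Tr.nd (nat_lit 119) (nat_lit 2) (nat_lit 17) (nat_lit 608) c7_8858_0
 Tr.lf Tr.lf) Tr.lf) (Tr.nd (nat_lit 133) (nat_lit 2) (nat_lit 1) (nat_lit 709) c7_8858_0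
 (Tr.nd (nat_lit 127) (nat_lit 23) (nat_lit 1) (nat_lit 686) c7_8858_0
 Tr.lf Tr.lf) Tr.lf)))) (Tr.nd (nat_lit 217) (nat_lit 6) (nat_lit 5) (nat_lit 1063) c7_8858_0
 (Tr.nd (nat_lit 169) (nat_lit 37) (nat_lit 2) (nat_lit 858) c7_8858_0
 (Tr.nd (nat_lit 161) (nat_lit 2) (nat_lit 17) (nat_lit 746) c7_8858_0
 (Tr.nd (nat_lit 155) (nat_lit 5) (nat_lit 2) (nat_lit 736) c7_8858_0
 (Tr.nd (nat_lit 154) (nat_lit 1) (nat_lit 23) (nat_lit 713) c7_8858_0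
 Tr.lf Tr.lf) Tr.lf) (Tr.nd (nat_lit 168) (nat_lit 4) (nat_lit 11) (nat_lit 814) c7_8858_0
 (Tr.nd (nat_lit 162) (nat_lit 17) (nat_lit 2) (nat_lit 780) c7_8858_0
 Tr.lf Tr.lf) Tr.lf)) (Tr.nd (nat_lit 182) (nat_lit 7) (nat_lit 1) (nat_lit 1023) c7_8858_0
 (Tr.nd (nat_lit 176) (nat_lit 61) (nat_lit 1) (nat_lit 962) c7_8858_0
 (Tr.nd (nat_lit 175) (nat_lit 6) (nat_lit 5) (nat_lit 932) c7_8858_0
 Tr.lf Tr.lf) Tr.lf) (Tr.nd (nat_lit 211) (nat_lit 23) (nat_lit 1) (nat_lit 1040) c7_8858_0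
 (Tr.nd (nat_lit 210) (nat_lit 2) (nat_lit 5) (nat_lit 1030) c7_8858_0
 Tr.lf Tr.lf) Tr.lf))) (Tr.nd (nat_lit 259) (nat_lit 2) (nat_lit 1) (nat_lit 1342) c7_8858_0
 (Tr.nd (nat_lit 225) (nat_lit 116) (nat_lit 1) (nat_lit 1187) c7_8858_0
 (Tr.nd (nat_lit 224) (nat_lit 11) (nat_lit 3) (nat_lit 1154) c7_8858_0
 (Tr.nd (nat_lit 218) (nat_lit 61) (nat_lit 1) (nat_lit 1093) c7_8858_0
 Tr.lf Tr.lf) Tr.lf) (Tr.nd (nat_lit 232) (nat_lit 24) (nat_lit 1) (nat_lit 1318) c7_8858_0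
 (Tr.nd (nat_lit 231) (nat_lit 15) (nat_lit 1) (nat_lit 1303) c7_8858_0
 Tr.lf Tr.lf) Tr.lf)) (Tr.nd (nat_lit 274) (nat_lit 24) (nat_lit 1) (nat_lit 1366) c7_8858_0
 (Tr.nd (nat_lit 273) (nat_lit 15) (nat_lit 1) (nat_lit 1351) c7_8858_0
 (Tr.nd (nat_lit 266) (nat_lit 7) (nat_lit 1) (nat_lit 1344) c7_8858_0
 Tr.lf Tr.lf) Tr.lf) (Tr.nd (nat_lit 281) (nat_lit 4) (nat_lit 1) (nat_lit 1392) c7_8858_0
 (Tr.nd (nat_lit 280) (nat_lit 2) (nat_lit 1) (nat_lit 1390) c7_8858_0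
 Tr.lf Tr.lf) Tr.lf)))))

noncomputable def c7_9892_0 : List Nat := [(nat_lit 0x65825a65337b584c0d884a76051b124209d5ca0d7a88b24920f5915b13072862136375b58050d0b205c932c0b2d8a5c5913489c88009c8c9293d536c512511b98544821a353ce062cb9a8f5d89672b8bd4d5080a8ca095a45aca8d2aa9b3a66f42dc68164592db58b1c6b541e489422d21c85603035150d2d5859a08601ab9b678695119891a0604028e4a034a10e9a004f031ab34d85641c05158954a43394160023513ad629b382ab04743118463049360000ebc8c10689a9b391534826e42464306a3adc13c2119dd424f66f68d2a0138e34800000000000007691ad5a696aacd748ee9481986ed70b72968ba82d2c57091aaf534a348c629704f57a9669982b5ec6545ca5e0dc95a08366a626596d31d50294752da08f3b0d4ab831c2b115754a464050e0d768750d676c0564d407630c71a80925046a6ca9ad934468723911583a3486470488d0e456e432a6a6f4a20c2ecc4db0d0d0f68b303365e0008c0a3564c02ad1a6f4a2e88e294a15464b1b241876aa804352ec90d51ab31946a1ce673214d9406f34a419361b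391b03158011a08914b0d6c06517b251a2adcd44aab44b1099689b64122e63350bb694028d3b0676d90c7ac6410ac4dd041263b83ade5209504283ac925014da2cf4a4964e49c2560980c851d92a9130920143501554d3d8c9a3b6e3264d0612ba2b3406c91db2db1baa576d97170249ed1b582a72b7278121c19a108b4d53395520dd5b803641a6479c642220d65a598144260a3d84649cd1646790415792361b131a31856f298a60aba636300886daa60ed0d2c092e201464919262d63456d00c05ca74d510d1d166e8c1cc1a94ca52cea082cf02ca7892e0cc138bd730926dca611180499745502cc934aedc68770919143504a841900e9d502d6d1d8f4553d2915577569300000000000000000000000000000000000000000000000000000000000000000002536dae4948d95515093292000000000000000000000000000000000000000000000d25d2d73487471abaa0288c8c44432411c65c8d21010cc528d8ae221d96d1412c4772643a1a200814970cdaaa2ac265495498855575a751b59ae255c864b2010b2f27208f23a27b47ad9aa414850d8b30672b8a098508e086b5a808d5d19cc214dd70235d5727166c168cb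93889b5009e103a5029e651063534640000000cadc84926b6885b00000001400069900000000bcad0b1da6134202c8e0e3c016c6980d11b5d4e2119d969558843acc708ccc0a69c60d161d6552cd154d30b1884c1c6ed7b011a56e3438c1569a46b096dc11238590e696b05ce4226b9c1364ab8910ae3a6cb2d0354b6104ec8d8ccd8cab0eced43434b373b9a1ac50e069469b9d4e41aa966415653363663b5b0f006cd5c9ae955c900a5c8b6e6c69c7120549cd9bd9a42eaf0306686b7154860b902d490400033a4b264c2d746ca0a5da4821c0c2a198a1900000000ad08a70b4f46d0c4cb44c4c344203a3048a1466d055519d503d05884c0bd34896a0014ec0c9541467288056e313051cb33c06b80603a16326502252cc2b938e50edb64a0b2138d999bd316d55661564ca4ec116150062a6e66e1b369641d32ec5c65eb2c4e40326768c6a401186aa7a9c580c818c7957a23b6412caa229342ac50ccd010dcd6228c92308a15c7141610a246e1416ea12b84c86a8c3b42ace313520322d2e9336aac45c2e8c3d536ae58e9684719a536b28d732259d21a1b02876e8a98a86d86d889a29a38b7282a264c30a40048d281b6a95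560dd8b10168d800c55105d8b2ae690731d1a66410c12db10b7298dd10c23a4eb3462492875d030a8b2190a274229d0592a50927a0d00195506b9d1231abd2480815c70bb9210066c2c2b0a79599e195b08d99d28b291b276864d315aec14e84b9694cd0d226600000000000000000000000000000000000000000000000000000000015c1536ea69816b4c06260087440f40d18ed51ca4cc057ad35d0da60111c2e3223794058ad494eaaeac56c380991cba4dad6dd19eae2d223601605059a4db4b34640b190a0cb412e1a59a28d62f18f00e97a2ce14a30ac915960094b20)]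
noncomputable def c7_9892_1 : List Nat := [(nat_lit 0x24b1202595492a0e2463ca666b0338733938a69661ac132c2205ca01734b36d269444250252a4ca3ba424351c9916a41280ebb69c61351a0046b4b075da340b118cd24d6d36e740d09b1c56b853133100058ba06034ed01a6ab6d511d0000000000000000000000000000000000000000000000000000000000f62980d42b68848c391a4d90896cc70ec99a90d33b03ad9d2ba2e911b62922badda8319bae176bac335b7195eb8455635ba73a20b0319c386aeb4ae0f5d5428a2c8516812adbc93396d61c042d190b4c0121945510c489b53a8a1e4734514e910b6122e278589ac1a22196a20d595a8d6542aa20205247086a7740db26ca74baac0ea18ce50e50c820eb7635c88838aa5d925ce986a908)]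
noncomputable def T7_9892 : Op := Op.mk (nat_lit 67)
 (Tr.nd (nat_lit 148) (nat_lit 1) (nat_lit 23) (nat_lit 2439) c7_9892_0
 (Tr.nd (nat_lit 65) (nat_lit 10) (nat_lit 3) (nat_lit 1155) c7_9892_0
 (Tr.nd (nat_lit 49) (nat_lit 1) (nat_lit 100) (nat_lit 224) c7_9892_0
 (Tr.nd (nat_lit 9) (nat_lit 1) (nat_lit 7) (nat_lit 183) c7_9892_0
 (Tr.nd (nat_lit 7) (nat_lit 1) (nat_lit 61) (nat_lit 47) c7_9892_0
 (Tr.nd (nat_lit 1) (nat_lit 1) (nat_lit 24) (nat_lit 23) c7_9892_0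
 (Tr.nd (nat_lit 0) (nat_lit 1) (nat_lit 23) (nat_lit 0) c7_9892_0
 Tr.lf Tr.lf) Tr.lf) (Tr.nd (nat_lit 8) (nat_lit 1) (nat_lit 75) (nat_lit 108) c7_9892_0
 Tr.lf Tr.lf)) (Tr.nd (nat_lit 16) (nat_lit 2) (nat_lit 3) (nat_lit 214) c7_9892_0
 (Tr.nd (nat_lit 15) (nat_lit 1) (nat_lit 24) (nat_lit 190) c7_9892_0
 Tr.lf Tr.lf) (Tr.nd (nat_lit 22) (nat_lit 1) (nat_lit 4) (nat_lit 220) c7_9892_0
 Tr.lf Tr.lf))) (Tr.nd (nat_lit 57) (nat_lit 3) (nat_lit 61) (nat_lit 727) c7_9892_0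
 (Tr.nd (nat_lit 51) (nat_lit 1) (nat_lit 11) (nat_lit 440) c7_9892_0
 (Tr.nd (nat_lit 50) (nat_lit 1) (nat_lit 116) (nat_lit 324) c7_9892_0
 Tr.lf Tr.lf) (Tr.nd (nat_lit 56) (nat_lit 1) (nat_lit 276) (nat_lit 451) c7_9892_0
 Tr.lf Tr.lf)) (Tr.nd (nat_lit 63) (nat_lit 1) (nat_lit 100) (nat_lit 940) c7_9892_0
 (Tr.nd (nat_lit 58) (nat_lit 5) (nat_lit 6) (nat_lit 910) c7_9892_0
 Tr.lf Tr.lf) (Tr.nd (nat_lit 64) (nat_lit 5) (nat_lit 23) (nat_lit 1040) c7_9892_0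
 Tr.lf Tr.lf)))) (Tr.nd (nat_lit 112) (nat_lit 2) (nat_lit 63) (nat_lit 1722) c7_9892_0
 (Tr.nd (nat_lit 100) (nat_lit 2) (nat_lit 7) (nat_lit 1299) c7_9892_0
 (Tr.nd (nat_lit 71) (nat_lit 5) (nat_lit 6) (nat_lit 1208) c7_9892_0
 (Tr.nd (nat_lit 70) (nat_lit 1) (nat_lit 23) (nat_lit 1185) c7_9892_0
 Tr.lf Tr.lf) (Tr.nd (nat_lit 99) (nat_lit 1) (nat_lit 61) (nat_lit 1238) c7_9892_0
 Tr.lf Tr.lf)) (Tr.nd (nat_lit 106) (nat_lit 5) (nat_lit 37) (nat_lit 1467) c7_9892_0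
 (Tr.nd (nat_lit 105) (nat_lit 1) (nat_lit 154) (nat_lit 1313) c7_9892_0
 Tr.lf Tr.lf) (Tr.nd (nat_lit 107) (nat_lit 10) (nat_lit 7) (nat_lit 1652) c7_9892_0
 Tr.lf Tr.lf))) (Tr.nd (nat_lit 120) (nat_lit 17) (nat_lit 5) (nat_lit 2262) c7_9892_0
 (Tr.nd (nat_lit 114) (nat_lit 30) (nat_lit 7) (nat_lit 2018) c7_9892_0
 (Tr.nd (nat_lit 113) (nat_lit 10) (nat_lit 17) (nat_lit 1848) c7_9892_0
 Tr.lf Tr.lf) (Tr.nd (nat_lit 119) (nat_lit 2) (nat_lit 17) (nat_lit 2228) c7_9892_0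
 Tr.lf Tr.lf)) (Tr.nd (nat_lit 126) (nat_lit 2) (nat_lit 3) (nat_lit 2410) c7_9892_0
 (Tr.nd (nat_lit 121) (nat_lit 63) (nat_lit 1) (nat_lit 2347) c7_9892_0
 Tr.lf Tr.lf) (Tr.nd (nat_lit 127) (nat_lit 23) (nat_lit 1) (nat_lit 2416) c7_9892_0
 Tr.lf Tr.lf))))) (Tr.nd (nat_lit 211) (nat_lit 23) (nat_lit 5) (nat_lit 3557) c7_9892_0
 (Tr.nd (nat_lit 168) (nat_lit 4) (nat_lit 11) (nat_lit 3008) c7_9892_0
 (Tr.nd (nat_lit 156) (nat_lit 17) (nat_lit 2) (nat_lit 2616) c7_9892_0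
 (Tr.nd (nat_lit 154) (nat_lit 1) (nat_lit 63) (nat_lit 2468) c7_9892_0
 (Tr.nd (nat_lit 149) (nat_lit 2) (nat_lit 3) (nat_lit 2462) c7_9892_0
 Tr.lf Tr.lf) (Tr.nd (nat_lit 155) (nat_lit 5) (nat_lit 17) (nat_lit 2531) c7_9892_0
 Tr.lf Tr.lf)) (Tr.nd (nat_lit 162) (nat_lit 17) (nat_lit 10) (nat_lit 2712) c7_9892_0
 (Tr.nd (nat_lit 161) (nat_lit 2) (nat_lit 31) (nat_lit 2650) c7_9892_0
 Tr.lf Tr.lf) (Tr.nd (nat_lit 163) (nat_lit 63) (nat_lit 2) (nat_lit 2882) c7_9892_0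
 Tr.lf Tr.lf))) (Tr.nd (nat_lit 176) (nat_lit 61) (nat_lit 1) (nat_lit 3421) c7_9892_0
 (Tr.nd (nat_lit 170) (nat_lit 154) (nat_lit 1) (nat_lit 3237) c7_9892_0
 (Tr.nd (nat_lit 169) (nat_lit 37) (nat_lit 5) (nat_lit 3052) c7_9892_0
 Tr.lf Tr.lf) (Tr.nd (nat_lit 175) (nat_lit 6) (nat_lit 5) (nat_lit 3391) c7_9892_0
 Tr.lf Tr.lf)) (Tr.nd (nat_lit 205) (nat_lit 23) (nat_lit 1) (nat_lit 3512) c7_9892_0
 (Tr.nd (nat_lit 204) (nat_lit 5) (nat_lit 6) (nat_lit 3482) c7_9892_0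
 Tr.lf Tr.lf) (Tr.nd (nat_lit 210) (nat_lit 2) (nat_lit 11) (nat_lit 3535) c7_9892_0
 Tr.lf Tr.lf)))) (Tr.nd (nat_lit 253) (nat_lit 4) (nat_lit 1) (nat_lit 503) c7_9892_1
 (Tr.nd (nat_lit 219) (nat_lit 276) (nat_lit 1) (nat_lit 0) c7_9892_1
 (Tr.nd (nat_lit 217) (nat_lit 6) (nat_lit 5) (nat_lit 3772) c7_9892_0
 (Tr.nd (nat_lit 212) (nat_lit 100) (nat_lit 1) (nat_lit 3672) c7_9892_0
 Tr.lf Tr.lf) (Tr.nd (nat_lit 218) (nat_lit 61) (nat_lit 3) (nat_lit 3802) c7_9892_0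
 Tr.lf Tr.lf)) (Tr.nd (nat_lit 225) (nat_lit 116) (nat_lit 1) (nat_lit 287) c7_9892_1
 (Tr.nd (nat_lit 224) (nat_lit 11) (nat_lit 1) (nat_lit 276) c7_9892_1
 Tr.lf Tr.lf) (Tr.nd (nat_lit 226) (nat_lit 100) (nat_lit 1) (nat_lit 403) c7_9892_1
 Tr.lf Tr.lf))) (Tr.nd (nat_lit 267) (nat_lit 75) (nat_lit 1) (nat_lit 544) c7_9892_1
 (Tr.nd (nat_lit 260) (nat_lit 24) (nat_lit 1) (nat_lit 513) c7_9892_1
 (Tr.nd (nat_lit 259) (nat_lit 2) (nat_lit 3) (nat_lit 507) c7_9892_1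
 Tr.lf Tr.lf) (Tr.nd (nat_lit 266) (nat_lit 7) (nat_lit 1) (nat_lit 537) c7_9892_1
 Tr.lf Tr.lf)) (Tr.nd (nat_lit 274) (nat_lit 24) (nat_lit 1) (nat_lit 680) c7_9892_1
 (Tr.nd (nat_lit 268) (nat_lit 61) (nat_lit 1) (nat_lit 619) c7_9892_1
 Tr.lf Tr.lf) (Tr.nd (nat_lit 275) (nat_lit 23) (nat_lit 1) (nat_lit 704) c7_9892_1
 Tr.lf Tr.lf))))))

noncomputable def c7_9880_0 : List Nat := [(nat_lit 0x51941626a3340bb685b8282a5af6524d9d9a2203d334ce009ae98ddda66c3062a5ea71055b69a40b6a005299c263a98d3165c0ea0019562965ed709818aeac2b0ad197068a819dc5d150066c40b93a1daa6399556b1356b132cd280a975ad3bb28eda35245c1964ad2b690c04241551606c9c0264c22a51a935822ab202c2b2454bc4dce6b440714c8b7286a6d47264058240f6a81201b86a4acaea55b8575bd5009ca2159435aac3831cf586c381d6bc810000ae09cd8c044a4c166174d33219184d43d085848b03804d803641bda28c67ab5800000000000000b4ce4171db08f1c09768d9645270e03171d88d2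71769ae52ed435694425cc00697926c860c4e0c61c10b2ec5950a408b2c09924435dcd9085a612938f6606850712ba6103713aa63046d245d2ca8e275d4300f3a4a412321ba361b6f0116496d0991d8654040293a599a609281c4cc1301923140348271e805b9872296b5050d0983d30000b6810b99e6010350c99a556b93198b609845c2164a7428655233906b241ca3442e6a46a306e554d364c291ad9309b26884d81bb2508d4d6a002ad6e19462532622c4bb121d49a96182352042b14858bcde2c56237480c930d2b38eadb34110500341ab105ccc513a6dc2563226d79d7528898c456e91d7a92d05100988040318a6533a555aeb9d2f0c25460aab74c82d31c56b96d19972b76688dad4ad370935baf6d114b4a1055e66a6d275a7750f1663adc8c376c35ba4d68c05e9842259ab0896a4a5149c869c04394044c30b1925e028d898ea9a8cc6d2a01a30ea9a86dd81540a616cc340a88dad3135710195159b0785d15709d8503324b9461a0222c6018d32348a3644d6ceb15c15c689c0b45670a255c7069db5360eb632ec76528431ba804e3d5c732759b0c8dd6e3ced68e35b52900000000000000000000000000000000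0000000000000000000000000000000000020d7435aae9554a73565932000000000000000000000000000000000000000000000b8515bb74d35a0c763c902521698e3b2a06265354380929b4d466e13154506928e69b9704db4a38c424e4000847a4add1b54402c3d4d885a20986148ae41548ae6de19e454359a5a98604c2b2b4872b5031727ad4ea99b0a930231c41bc539166348633468636ac286a1440c022a9898b92d25a152c59805471c0000000075ba41390123b040000000289b0b1e00000002e260b8bc18a010ab46345d88169d5008e36ecbb3401d20421bb44c112b29b591cd39a2700263a9e808d99da34c233074249016108c71a0860104e184c88890b353d2b0b4da2b4d7a3003d9c69130da102deae98092d09650424622ced6508630e11a84305b4b334801eb02893b82b59b1d36b389a54ae3380c6348acb616b24639c1b005d9169b0c32773c1c5366c2d800da03119483206662e8302c17a698000272db019b138610230521676e23194cb9e3800000000a212d6ce65852a98a405b22b69075361534d0995ac54712182b89adc1b20ddc644e817319ab4d225b68a4aa1c0587762a898841ad008d6c032aa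20980609376644b2c6a09b85b5c5b569dbac44449e5a076a6a5caa2f1d15bb5ab2d5904501800dcec0d1c022e6a2042cc34335d8dd93d4568c035c0671b76c2b0ba36742c82aea1ab05413c61a299610f060e35a063b2813199b59015476d38d92ea2b24b0d3c30774bacb12609ceaba079503019b24156b5b40710dc85d8f0344c5919570ea06acd4522f2b9dd2398c64c889c84a742ab1814cd3513632d200d5108211288e9a71413555474033063953764d0c90129591a85162d50c4718db649a55ca9a6c8ca061b0666eb4a255b4c35c7b2361386a219a06521016433120e0c82004430926845394d4d3b1396a761560aa245c75449828a6a76c82e6e6885cf626cab50000000000000000000000000000000000000000000000000000000000216149068a000c50015c00d19e6d6232100cf3ccb81a186235b75586b00cb69b149ac0aa86d2c56d6806448ccc2d14e94368425128dcf6810ce88e0b595129968404d56de4920da4b0b68b5ab8319036d4b664521e82b6c1758033ae8)]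
noncomputable def c7_9880_1 : List Nat := [(nat_lit 0x2baf001d6436e89983417b256d2160c6a9da2da3249b09259b75340199689445da2382bc109b3d4a32d6c421255ddacd0ed0224b8a3661202cca02024e22d15bcdeb6ea113860988cbcf3c040b0393798045d1d004508022984910660000000000000000000000000000000000000000000000000000000000083a1d92c824b0d1599333b54e37a5d2ea333527450f2631582641bae3ad5b3cd802d4d30d62656d48138d4a26860b866528d98e127435b45dda9831c65a0555e0a988b8462ad4414c982090ad4dc366712e5803369743720af04c99b0a52bad8862719158ea1032539106b21485010828b096a0f689880d81286806a6056c009d28509a6903323018d51528158c0974cc8252d9c21a599)]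
noncomputable def T7_9880 : Op := Op.mk (nat_lit 67)
 (Tr.nd (nat_lit 148) (nat_lit 1) (nat_lit 23) (nat_lit 2439) c7_9880_0
 (Tr.nd (nat_lit 65) (nat_lit 10) (nat_lit 3) (nat_lit 1155) c7_9880_0
 (Tr.nd (nat_lit 49) (nat_lit 1) (nat_lit 100) (nat_lit 224) c7_9880_0
 (Tr.nd (nat_lit 9) (nat_lit 1) (nat_lit 7) (nat_lit 183) c7_9880_0
 (Tr.nd (nat_lit 7) (nat_lit 1) (nat_lit 61) (nat_lit 47) c7_9880_0
 (Tr.nd (nat_lit 1) (nat_lit 1) (nat_lit 24) (nat_lit 23) c7_9880_0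
 (Tr.nd (nat_lit 0) (nat_lit 1) (nat_lit 23) (nat_lit 0) c7_9880_0
 Tr.lf Tr.lf) Tr.lf) (Tr.nd (nat_lit 8) (nat_lit 1) (nat_lit 75) (nat_lit 108) c7_9880_0
 Tr.lf Tr.lf)) (Tr.nd (nat_lit 16) (nat_lit 2) (nat_lit 3) (nat_lit 214) c7_9880_0
 (Tr.nd (nat_lit 15) (nat_lit 1) (nat_lit 24) (nat_lit 190) c7_9880_0
 Tr.lf Tr.lf) (Tr.nd (nat_lit 22) (nat_lit 1) (nat_lit 4) (nat_lit 220) c7_9880_0
 Tr.lf Tr.lf))) (Tr.nd (nat_lit 57) (nat_lit 3) (nat_lit 61) (nat_lit 727) c7_9880_0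
 (Tr.nd (nat_lit 51) (nat_lit 1) (nat_lit 11) (nat_lit 440) c7_9880_0
 (Tr.nd (nat_lit 50) (nat_lit 1) (nat_lit 116) (nat_lit 324) c7_9880_0
 Tr.lf Tr.lf) (Tr.nd (nat_lit 56) (nat_lit 1) (nat_lit 276) (nat_lit 451) c7_9880_0
 Tr.lf Tr.lf)) (Tr.nd (nat_lit 63) (nat_lit 1) (nat_lit 100) (nat_lit 940) c7_9880_0
 (Tr.nd (nat_lit 58) (nat_lit 5) (nat_lit 6) (nat_lit 910) c7_9880_0
 Tr.lf Tr.lf) (Tr.nd (nat_lit 64) (nat_lit 5) (nat_lit 23) (nat_lit 1040) c7_9880_0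
 Tr.lf Tr.lf)))) (Tr.nd (nat_lit 112) (nat_lit 2) (nat_lit 63) (nat_lit 1722) c7_9880_0
 (Tr.nd (nat_lit 100) (nat_lit 2) (nat_lit 7) (nat_lit 1299) c7_9880_0
 (Tr.nd (nat_lit 71) (nat_lit 5) (nat_lit 6) (nat_lit 1208) c7_9880_0
 (Tr.nd (nat_lit 70) (nat_lit 1) (nat_lit 23) (nat_lit 1185) c7_9880_0
 Tr.lf Tr.lf) (Tr.nd (nat_lit 99) (nat_lit 1) (nat_lit 61) (nat_lit 1238) c7_9880_0
 Tr.lf Tr.lf)) (Tr.nd (nat_lit 106) (nat_lit 5) (nat_lit 37) (nat_lit 1467) c7_9880_0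
 (Tr.nd (nat_lit 105) (nat_lit 1) (nat_lit 154) (nat_lit 1313) c7_9880_0
 Tr.lf Tr.lf) (Tr.nd (nat_lit 107) (nat_lit 10) (nat_lit 7) (nat_lit 1652) c7_9880_0
 Tr.lf Tr.lf))) (Tr.nd (nat_lit 120) (nat_lit 17) (nat_lit 5) (nat_lit 2262) c7_9880_0
 (Tr.nd (nat_lit 114) (nat_lit 30) (nat_lit 7) (nat_lit 2018) c7_9880_0
 (Tr.nd (nat_lit 113) (nat_lit 10) (nat_lit 17) (nat_lit 1848) c7_9880_0
 Tr.lf Tr.lf) (Tr.nd (nat_lit 119) (nat_lit 2) (nat_lit 17) (nat_lit 2228) c7_9880_0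
 Tr.lf Tr.lf)) (Tr.nd (nat_lit 126) (nat_lit 2) (nat_lit 3) (nat_lit 2410) c7_9880_0
 (Tr.nd (nat_lit 121) (nat_lit 63) (nat_lit 1) (nat_lit 2347) c7_9880_0
 Tr.lf Tr.lf) (Tr.nd (nat_lit 127) (nat_lit 23) (nat_lit 1) (nat_lit 2416) c7_9880_0
 Tr.lf Tr.lf))))) (Tr.nd (nat_lit 211) (nat_lit 23) (nat_lit 5) (nat_lit 3557) c7_9880_0
 (Tr.nd (nat_lit 168) (nat_lit 4) (nat_lit 11) (nat_lit 3008) c7_9880_0
 (Tr.nd (nat_lit 156) (nat_lit 17) (nat_lit 2) (nat_lit 2616) c7_9880_0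
 (Tr.nd (nat_lit 154) (nat_lit 1) (nat_lit 63) (nat_lit 2468) c7_9880_0
 (Tr.nd (nat_lit 149) (nat_lit 2) (nat_lit 3) (nat_lit 2462) c7_9880_0
 Tr.lf Tr.lf) (Tr.nd (nat_lit 155) (nat_lit 5) (nat_lit 17) (nat_lit 2531) c7_9880_0
 Tr.lf Tr.lf)) (Tr.nd (nat_lit 162) (nat_lit 17) (nat_lit 10) (nat_lit 2712) c7_9880_0
 (Tr.nd (nat_lit 161) (nat_lit 2) (nat_lit 31) (nat_lit 2650) c7_9880_0
 Tr.lf Tr.lf) (Tr.nd (nat_lit 163) (nat_lit 63) (nat_lit 2) (nat_lit 2882) c7_9880_0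
 Tr.lf Tr.lf))) (Tr.nd (nat_lit 176) (nat_lit 61) (nat_lit 1) (nat_lit 3421) c7_9880_0
 (Tr.nd (nat_lit 170) (nat_lit 154) (nat_lit 1) (nat_lit 3237) c7_9880_0
 (Tr.nd (nat_lit 169) (nat_lit 37) (nat_lit 5) (nat_lit 3052) c7_9880_0
 Tr.lf Tr.lf) (Tr.nd (nat_lit 175) (nat_lit 6) (nat_lit 5) (nat_lit 3391) c7_9880_0
 Tr.lf Tr.lf)) (Tr.nd (nat_lit 205) (nat_lit 23) (nat_lit 1) (nat_lit 3512) c7_9880_0
 (Tr.nd (nat_lit 204) (nat_lit 5) (nat_lit 6) (nat_lit 3482) c7_9880_0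
 Tr.lf Tr.lf) (Tr.nd (nat_lit 210) (nat_lit 2) (nat_lit 11) (nat_lit 3535) c7_9880_0
 Tr.lf Tr.lf)))) (Tr.nd (nat_lit 253) (nat_lit 4) (nat_lit 1) (nat_lit 503) c7_9880_1
 (Tr.nd (nat_lit 219) (nat_lit 276) (nat_lit 1) (nat_lit 0) c7_9880_1
 (Tr.nd (nat_lit 217) (nat_lit 6) (nat_lit 5) (nat_lit 3772) c7_9880_0
 (Tr.nd (nat_lit 212) (nat_lit 100) (nat_lit 1) (nat_lit 3672) c7_9880_0
 Tr.lf Tr.lf) (Tr.nd (nat_lit 218) (nat_lit 61) (nat_lit 3) (nat_lit 3802) c7_9880_0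
 Tr.lf Tr.lf)) (Tr.nd (nat_lit 225) (nat_lit 116) (nat_lit 1) (nat_lit 287) c7_9880_1
 (Tr.nd (nat_lit 224) (nat_lit 11) (nat_lit 1) (nat_lit 276) c7_9880_1
 Tr.lf Tr.lf) (Tr.nd (nat_lit 226) (nat_lit 100) (nat_lit 1) (nat_lit 403) c7_9880_1
 Tr.lf Tr.lf))) (Tr.nd (nat_lit 267) (nat_lit 75) (nat_lit 1) (nat_lit 544) c7_9880_1
 (Tr.nd (nat_lit 260) (nat_lit 24) (nat_lit 1) (nat_lit 513) c7_9880_1
 (Tr.nd (nat_lit 259) (nat_lit 2) (nat_lit 3) (nat_lit 507) c7_9880_1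
 Tr.lf Tr.lf) (Tr.nd (nat_lit 266) (nat_lit 7) (nat_lit 1) (nat_lit 537) c7_9880_1
 Tr.lf Tr.lf)) (Tr.nd (nat_lit 274) (nat_lit 24) (nat_lit 1) (nat_lit 680) c7_9880_1
 (Tr.nd (nat_lit 268) (nat_lit 61) (nat_lit 1) (nat_lit 619) c7_9880_1
 Tr.lf Tr.lf) (Tr.nd (nat_lit 275) (nat_lit 23) (nat_lit 1) (nat_lit 704) c7_9880_1
 Tr.lf Tr.lf))))))

noncomputable def c7_9889_0 : List Nat := [(nat_lit 0x58aa8ce6e2d5eb58314886a0494165b745052446588930088882a70736d920f4811946af35007006f354eca352a5454188803228eed11670a35a1a14ba3424280d2540420ac89215226d0841b2a6e123154ce138355821b00408c0b67042a3b063051a3099cb5a6abb36a34ee6c15b195c2e5a09955ab111c01392ed3508519b591308b9b599114c05b6c3b6690a9900d8da58262d99b0de519106692085066d400b30d9d0063405c86b5a36b304059686d0000c0553b54d9c513452ca319826a6556cbd55ca4c76c21d4019a4accc3d0e29c2c80000000000000864850adaf47604ae72226a072172c04762b244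144c97222d255c91185ec05b44d5a296534aaaa10841582af4059615884ad6d4e8b22f485ba03a0d116030550b696b2a1bb9d353c6545b21a29551e6f315cc5915449e34591a480ad5d6459ad92109565909850116925543db08e1363c0cd926b64311057192f448e04a0534ee66bc2c000c0cd736b31b4593055980ac156a334aab6d621a929d8c231ceec5d8b1233d9c86b15910194595dd82cd5d1e72370e8de45ec98b2d2c2d49b9363111d85a4284ab86309eb40232cb2a438a2aad0445a890aab41699a8515c309b5c337764dc692cce613b50261b7615622195263469bd7308a40201335cbb6270726b5a273001260ccb84918b11a15996c71e9633860e26e0cda4883460e62117107657b334123336d6ce9549b4b72b2d6b2d8c51e311301d846cdb894686c6ab5a22b31209510ac6a2835b4a24008e265e70c6a274279d30b0195b6a29606c6a02148d70070442e793c9c92359acf50a08c08e90222953b00cd176c8b01986bcd0ad44e18f32d470009449ba4516c576b03db1314445ba411e30941d7ae3a878b36cd6d4a4080c6cccc4564d12ecada0caa5cc28b48d0900ecde00000000000000000000000000000000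000000000000000000000000000000000002985a0de10b108809d242c30000000000000000000000000000000000000000000009682aa4e06f22ce79b14e31358570099062633692c2167b057109b245a80b81971558c0c9a1695a4cb4641016dd4541e49029a270592cb0d03992c75d72c5daee6dc46350254c89badeb6b0d422c8080d8d4cad67a99844f63767b185e9748e9693d6d55d959131753a4cd83229a9dc5e4d980c7a171ac16cc3c800000002dc122aeac60c8300000001eb3614a000000002d8635691652d4eb789159db46b3dac6a80b25a63315528122ce6a8b4b068b10a832433129a212e31b8f649cb5128173397684ad5026e832cf5a22940681752ad1609ad27042db754180ca0a456056cc999594c6ec9d814a832c899d43220c0855559a2c914ee82da06ccc2a48ea49952325a88292552b8065a8588549523d5212b998152d551500598d1c6661e9524f002e306d8e916aae65ba8b5490f07000035110f442e4956f5512b4ccb20087937327480000000266c0d9c84b8c21a001a2200344b5973d99cc47565114d4b054abd2eb5698ba2320b14acc2ccacd61591220f2b70741503600aac245b198ec3b2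21bd5a7137b554db962d0730a21c25711823d908508006c10ea63131e8a8661545176b60c14892528292024931c0241882d0ea2dca0520c899cacce340b01a168aac0c9d8d4b12006cc6b5b809b0874c9bda4c338888828162824a931a2ee8d8218166b424e2805d56a44573529432d11aec90a8358eb29c35b005926700b20051325c12310a952cca49385318b7152663639e164c2c90dc2c99501eb934d025eb3299bb03564c5c2b1aab8f00814816104e998e48a8728596027b5404c8bd5989930b0a401959c226414853adb314b8d40a66a48da281a3ae0d193084d1b5001bc71d229806e2752082ac9525864459a00946735448a6ab44b804466ad16bc95b006302c8c66b5dcc30c56a9190ad48dc54661865dd496710cb15cb3391565adb645824231e08066e280acd0054ec46c69a15e988cd60a221e09c703ae942e61ca0071674b0b63954742f2b88ae2914b7193638564d0000000000000000000000005185648acb001554c000010272579812b8d4ba515c1536ea6980b0420)]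
noncomputable def c7_9889_1 : List Nat := [(nat_lit 0x2043201a6ab6d511d166b138ec01e764684000003555004b2a92541c40000000000000000000000016ed86554c4c04cace605143885919b3339b68a2d142965bb23c308141982a2193c0e99d09a72952801574ba023a960219c2812195b6c997548f4b1d0cb07164dd5961878551b913a1606a7430c3d5dba1d8b2cb3b656d8d8a3488ad628ca0130e895855421c25625c2e99195b44199968a2d62c0012c36371289a54d823ae60285146c49a874bcd96e168a0c31011a560e1019ab4aea24ce60aecc0d6bd637004c45350e1ae15454c601dd5a9716aeb55d3252a4d8948b856e9c22b0d414b0070d70dc4c0e4c01904741c34b9dd9486a6a1c24235074381c948f52a255109108e1158ddd93c9564e)]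
noncomputable def T7_9889 : Op := Op.mk (nat_lit 67)
 (Tr.nd (nat_lit 148) (nat_lit 1) (nat_lit 23) (nat_lit 2439) c7_9889_0
 (Tr.nd (nat_lit 65) (nat_lit 10) (nat_lit 3) (nat_lit 1155) c7_9889_0
 (Tr.nd (nat_lit 49) (nat_lit 1) (nat_lit 100) (nat_lit 224) c7_9889_0
 (Tr.nd (nat_lit 9) (nat_lit 1) (nat_lit 7) (nat_lit 183) c7_9889_0
 (Tr.nd (nat_lit 7) (nat_lit 1) (nat_lit 61) (nat_lit 47) c7_9889_0
 (Tr.nd (nat_lit 1) (nat_lit 1) (nat_lit 24) (nat_lit 23) c7_9889_0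
 (Tr.nd (nat_lit 0) (nat_lit 1) (nat_lit 23) (nat_lit 0) c7_9889_0
 Tr.lf Tr.lf) Tr.lf) (Tr.nd (nat_lit 8) (nat_lit 1) (nat_lit 75) (nat_lit 108) c7_9889_0
 Tr.lf Tr.lf)) (Tr.nd (nat_lit 16) (nat_lit 2) (nat_lit 3) (nat_lit 214) c7_9889_0
 (Tr.nd (nat_lit 15) (nat_lit 1) (nat_lit 24) (nat_lit 190) c7_9889_0
 Tr.lf Tr.lf) (Tr.nd (nat_lit 22) (nat_lit 1) (nat_lit 4) (nat_lit 220) c7_9889_0
 Tr.lf Tr.lf))) (Tr.nd (nat_lit 57) (nat_lit 3) (nat_lit 61) (nat_lit 727) c7_9889_0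
 (Tr.nd (nat_lit 51) (nat_lit 1) (nat_lit 11) (nat_lit 440) c7_9889_0
 (Tr.nd (nat_lit 50) (nat_lit 1) (nat_lit 116) (nat_lit 324) c7_9889_0
 Tr.lf Tr.lf) (Tr.nd (nat_lit 56) (nat_lit 1) (nat_lit 276) (nat_lit 451) c7_9889_0
 Tr.lf Tr.lf)) (Tr.nd (nat_lit 63) (nat_lit 1) (nat_lit 100) (nat_lit 940) c7_9889_0
 (Tr.nd (nat_lit 58) (nat_lit 5) (nat_lit 6) (nat_lit 910) c7_9889_0
 Tr.lf Tr.lf) (Tr.nd (nat_lit 64) (nat_lit 5) (nat_lit 23) (nat_lit 1040) c7_9889_0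
 Tr.lf Tr.lf)))) (Tr.nd (nat_lit 112) (nat_lit 2) (nat_lit 63) (nat_lit 1722) c7_9889_0
 (Tr.nd (nat_lit 100) (nat_lit 2) (nat_lit 7) (nat_lit 1299) c7_9889_0
 (Tr.nd (nat_lit 71) (nat_lit 5) (nat_lit 6) (nat_lit 1208) c7_9889_0
 (Tr.nd (nat_lit 70) (nat_lit 1) (nat_lit 23) (nat_lit 1185) c7_9889_0
 Tr.lf Tr.lf) (Tr.nd (nat_lit 99) (nat_lit 1) (nat_lit 61) (nat_lit 1238) c7_9889_0
 Tr.lf Tr.lf)) (Tr.nd (nat_lit 106) (nat_lit 5) (nat_lit 37) (nat_lit 1467) c7_9889_0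
 (Tr.nd (nat_lit 105) (nat_lit 1) (nat_lit 154) (nat_lit 1313) c7_9889_0
 Tr.lf Tr.lf) (Tr.nd (nat_lit 107) (nat_lit 10) (nat_lit 7) (nat_lit 1652) c7_9889_0
 Tr.lf Tr.lf))) (Tr.nd (nat_lit 120) (nat_lit 17) (nat_lit 5) (nat_lit 2262) c7_9889_0
 (Tr.nd (nat_lit 114) (nat_lit 30) (nat_lit 7) (nat_lit 2018) c7_9889_0
 (Tr.nd (nat_lit 113) (nat_lit 10) (nat_lit 17) (nat_lit 1848) c7_9889_0
 Tr.lf Tr.lf) (Tr.nd (nat_lit 119) (nat_lit 2) (nat_lit 17) (nat_lit 2228) c7_9889_0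
 Tr.lf Tr.lf)) (Tr.nd (nat_lit 126) (nat_lit 2) (nat_lit 3) (nat_lit 2410) c7_9889_0
 (Tr.nd (nat_lit 121) (nat_lit 63) (nat_lit 1) (nat_lit 2347) c7_9889_0
 Tr.lf Tr.lf) (Tr.nd (nat_lit 127) (nat_lit 23) (nat_lit 1) (nat_lit 2416) c7_9889_0
 Tr.lf Tr.lf))))) (Tr.nd (nat_lit 211) (nat_lit 23) (nat_lit 5) (nat_lit 3557) c7_9889_0
 (Tr.nd (nat_lit 168) (nat_lit 4) (nat_lit 11) (nat_lit 3008) c7_9889_0
 (Tr.nd (nat_lit 156) (nat_lit 17) (nat_lit 2) (nat_lit 2616) c7_9889_0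
 (Tr.nd (nat_lit 154) (nat_lit 1) (nat_lit 63) (nat_lit 2468) c7_9889_0
 (Tr.nd (nat_lit 149) (nat_lit 2) (nat_lit 3) (nat_lit 2462) c7_9889_0
 Tr.lf Tr.lf) (Tr.nd (nat_lit 155) (nat_lit 5) (nat_lit 17) (nat_lit 2531) c7_9889_0
 Tr.lf Tr.lf)) (Tr.nd (nat_lit 162) (nat_lit 17) (nat_lit 10) (nat_lit 2712) c7_9889_0
 (Tr.nd (nat_lit 161) (nat_lit 2) (nat_lit 31) (nat_lit 2650) c7_9889_0
 Tr.lf Tr.lf) (Tr.nd (nat_lit 163) (nat_lit 63) (nat_lit 2) (nat_lit 2882) c7_9889_0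
 Tr.lf Tr.lf))) (Tr.nd (nat_lit 176) (nat_lit 61) (nat_lit 1) (nat_lit 3421) c7_9889_0
 (Tr.nd (nat_lit 170) (nat_lit 154) (nat_lit 1) (nat_lit 3237) c7_9889_0
 (Tr.nd (nat_lit 169) (nat_lit 37) (nat_lit 5) (nat_lit 3052) c7_9889_0
 Tr.lf Tr.lf) (Tr.nd (nat_lit 175) (nat_lit 6) (nat_lit 5) (nat_lit 3391) c7_9889_0
 Tr.lf Tr.lf)) (Tr.nd (nat_lit 205) (nat_lit 23) (nat_lit 1) (nat_lit 3512) c7_9889_0
 (Tr.nd (nat_lit 204) (nat_lit 5) (nat_lit 6) (nat_lit 3482) c7_9889_0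
 Tr.lf Tr.lf) (Tr.nd (nat_lit 210) (nat_lit 2) (nat_lit 11) (nat_lit 3535) c7_9889_0
 Tr.lf Tr.lf)))) (Tr.nd (nat_lit 253) (nat_lit 4) (nat_lit 1) (nat_lit 503) c7_9889_1
 (Tr.nd (nat_lit 219) (nat_lit 276) (nat_lit 1) (nat_lit 0) c7_9889_1
 (Tr.nd (nat_lit 217) (nat_lit 6) (nat_lit 5) (nat_lit 3772) c7_9889_0
 (Tr.nd (nat_lit 212) (nat_lit 100) (nat_lit 1) (nat_lit 3672) c7_9889_0
 Tr.lf Tr.lf) (Tr.nd (nat_lit 218) (nat_lit 61) (nat_lit 3) (nat_lit 3802) c7_9889_0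
 Tr.lf Tr.lf)) (Tr.nd (nat_lit 225) (nat_lit 116) (nat_lit 1) (nat_lit 287) c7_9889_1
 (Tr.nd (nat_lit 224) (nat_lit 11) (nat_lit 1) (nat_lit 276) c7_9889_1
 Tr.lf Tr.lf) (Tr.nd (nat_lit 226) (nat_lit 100) (nat_lit 1) (nat_lit 403) c7_9889_1
 Tr.lf Tr.lf))) (Tr.nd (nat_lit 267) (nat_lit 75) (nat_lit 1) (nat_lit 544) c7_9889_1
 (Tr.nd (nat_lit 260) (nat_lit 24) (nat_lit 1) (nat_lit 513) c7_9889_1
 (Tr.nd (nat_lit 259) (nat_lit 2) (nat_lit 3) (nat_lit 507) c7_9889_1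
 Tr.lf Tr.lf) (Tr.nd (nat_lit 266) (nat_lit 7) (nat_lit 1) (nat_lit 537) c7_9889_1
 Tr.lf Tr.lf)) (Tr.nd (nat_lit 274) (nat_lit 24) (nat_lit 1) (nat_lit 680) c7_9889_1
 (Tr.nd (nat_lit 268) (nat_lit 61) (nat_lit 1) (nat_lit 619) c7_9889_1
 Tr.lf Tr.lf) (Tr.nd (nat_lit 275) (nat_lit 23) (nat_lit 1) (nat_lit 704) c7_9889_1
 Tr.lf Tr.lf))))))

noncomputable def c7_8869_0 : List Nat := [(nat_lit 0x60752148c9998b4e563c13aaec6853518a55960aaeaa9e1265702dbad0243ca04a3042325262b9149bc8e52b7141b02c20cd42e19d869029d2daa4b9b3900c2cd4285418548a957ae9196f53a846eb196ed672495a5494d831ad4921732189ce6cc0b8a815149213844d5809a249003068a2b6cba2172c72d0ac05a671d640b66abda84362558eb044d11ac678a7712f2533969a46c8cb4315c2f44d1b8212d440190cc20150dd66216a658860cf56938620000c001dd99865c830b4b435739b46830c1796a8629e58c270463c362b66282534480000000000001917240aa0218ac8e68820b11530b43a443454d0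f378e53268c6232f1d73863d953a58d216d588189a5bdb58100db0312ea2721688cb07126b301b28a832f4cdb6439a61723a63a439ea2d0b08728ca86b25a33034ba364f10561860b5858aca6f1372a7062abb20e21a41144f34d088d9a8720b0c811a6cd129704dbb426b2b4b50498e00084d846424918819210a0aa6b56a6f48f0045265400cca2256750ee5a54c6d9e7a4d1acd178dc83150b69780d75d18c930c0db139ab1c280b564f4983b614404e9d350180c18182d9c2d61971adaa656cf5616c014b3b5c9283549413834d28d9271d4a843a69cc089a4ceba170b96cad0c5a88d031cda4d0d99d0a4138340268c419cb5a29d19550d959c9829142065dd84a51d09c312f3220ace57100da72cc4643ca98e029620b2e6d3478ba850a3945a72954a81aae4e9cdd873972353cc98f475ed34d8101098bb08108d51a2eb05c166b2b844f32a200302bbad95d21b528c2e11848383518589b06bb2d02d79801445e6a0d564f21a897514ab81801959d02008da69b3b758d188c45ab2b6342dbc1e368644ab675ed9e522945a51b2824ead66718a289e2a175426e04e15e0f0c2b2c100000000000000000000000000000000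000000000000000000000000000000000001e84e49501e2dbb1a0818e6000000000000000000000000000000000000000000000229b21a74b95468831898c8a29b9607183603936a38d875a699ce11aa0d8d4b4c502563221408238182204e385bab392a208a4c50a0e2d45b36c5da330d3b3058ad66ab2446f5ca9c714b520ea5bca66f6b034e6812d0ad4079b50186ea02d09a00b9c4a5b818f2514b8639eadd3b6cc5055c1acf0c0566da500c000000067442a12c8ec88a0000000082c434000000002b18b354782141945cf67696ca57372c208a56d0c01a9ae7a1ba628b0544c55983865351a806a27369e16adb38f192680d6746919b580b07689418e0d65154c52ad8405136ab86452479961516522174938865c1685895593806d8084bb66cd270072b6849cb31ab670c7ae3997038535a2c73798a6a9829319906a8390414d1c9543000a233095844a689143d91d8670a189872cd1c15cb32186139b47aa600003672162c311068e874550c693b9e10c0cb56800000008081e68048ba1ead8309889140964a9316d5b6cb2395b9b91c15c35e0b635a41686084d58176971adae15caad3806ee654c4330565b745148600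2494d00ee80c681268a8447501ed1e2705a332489d384a6c88da9258bb5b26cb4b676385aed81e4d68a8ce5b59c5e2120b15b1126a16682752a280c525c581db0c124ea49269d04eb59521aac0eac658ce22b95b0135740a30d096119b692c1c96d47534c0043b3372c99660a442d169b8ca56e4c66908a48531244aa0051244b28030da8b5d9b2ae85baec3aa545544d210e4643315ba3d401036891892d906ba9ec18a0b52a9960b1200aeea63d925705903667ae8d21434d0706aca446cdd65035693271d3747884d5c260a1ac0d4bd88c2d82528191699d856929b0062994e219c1048ac9ea5b710761125111701b307897912c921339ac12172a814d2d815341513b12ce98b71ebaed6e3a0c400dd55959a3b269834555918c823a305b2a5856ac4eba224aac2c564e401a916a1c303c46c582737713943a87aeb142722604a8d9a75d115146d68ced075874c48043b0c5156e000000000000000000000000000000000000042840000011602142a10ac80570a000000000000c40c0)]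
noncomputable def c7_8869_1 : List Nat := [(nat_lit 0x3103000000000000a35402c8c0a846019400000042840000000000000000000000000000000000008d92c5a4222a11124596c65c19ade205260c90b8860e468118c51d033162756f1219d81cc4318b900e2923591c83a892a6b89cad419ab6430ae090e05d54521a6b629e45d55b001c263addaeb9c6ce98b351658d1a8546f244eb76a230e05919355581244732254a02542ad38150c312d0455eb363412e4c2d54524dd5e99484258ed93c5107148cb8878b34078ec1c0d417275a6217988aa8f135c4c200c7a22432496c910e946baa3839511a0c5e4acd9e29361a76a8a9b4d05bb75d331ae80bc4a8c40e9118563826a2a219919775ccb81682d446ab25312ed49c89b51360b6567228aaca6788)]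
noncomputable def T7_8869 : Op := Op.mk (nat_lit 67)
 (Tr.nd (nat_lit 148) (nat_lit 1) (nat_lit 23) (nat_lit 2439) c7_8869_0
 (Tr.nd (nat_lit 65) (nat_lit 10) (nat_lit 3) (nat_lit 1155) c7_8869_0
 (Tr.nd (nat_lit 49) (nat_lit 1) (nat_lit 100) (nat_lit 224) c7_8869_0
 (Tr.nd (nat_lit 9) (nat_lit 1) (nat_lit 7) (nat_lit 183) c7_8869_0
 (Tr.nd (nat_lit 7) (nat_lit 1) (nat_lit 61) (nat_lit 47) c7_8869_0
 (Tr.nd (nat_lit 1) (nat_lit 1) (nat_lit 24) (nat_lit 23) c7_8869_0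
 (Tr.nd (nat_lit 0) (nat_lit 1) (nat_lit 23) (nat_lit 0) c7_8869_0
 Tr.lf Tr.lf) Tr.lf) (Tr.nd (nat_lit 8) (nat_lit 1) (nat_lit 75) (nat_lit 108) c7_8869_0
 Tr.lf Tr.lf)) (Tr.nd (nat_lit 16) (nat_lit 2) (nat_lit 3) (nat_lit 214) c7_8869_0
 (Tr.nd (nat_lit 15) (nat_lit 1) (nat_lit 24) (nat_lit 190) c7_8869_0
 Tr.lf Tr.lf) (Tr.nd (nat_lit 22) (nat_lit 1) (nat_lit 4) (nat_lit 220) c7_8869_0
 Tr.lf Tr.lf))) (Tr.nd (nat_lit 57) (nat_lit 3) (nat_lit 61) (nat_lit 727) c7_8869_0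
 (Tr.nd (nat_lit 51) (nat_lit 1) (nat_lit 11) (nat_lit 440) c7_8869_0
 (Tr.nd (nat_lit 50) (nat_lit 1) (nat_lit 116) (nat_lit 324) c7_8869_0
 Tr.lf Tr.lf) (Tr.nd (nat_lit 56) (nat_lit 1) (nat_lit 276) (nat_lit 451) c7_8869_0
 Tr.lf Tr.lf)) (Tr.nd (nat_lit 63) (nat_lit 1) (nat_lit 100) (nat_lit 940) c7_8869_0
 (Tr.nd (nat_lit 58) (nat_lit 5) (nat_lit 6) (nat_lit 910) c7_8869_0
 Tr.lf Tr.lf) (Tr.nd (nat_lit 64) (nat_lit 5) (nat_lit 23) (nat_lit 1040) c7_8869_0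
 Tr.lf Tr.lf)))) (Tr.nd (nat_lit 112) (nat_lit 2) (nat_lit 63) (nat_lit 1722) c7_8869_0
 (Tr.nd (nat_lit 100) (nat_lit 2) (nat_lit 7) (nat_lit 1299) c7_8869_0
 (Tr.nd (nat_lit 71) (nat_lit 5) (nat_lit 6) (nat_lit 1208) c7_8869_0
 (Tr.nd (nat_lit 70) (nat_lit 1) (nat_lit 23) (nat_lit 1185) c7_8869_0
 Tr.lf Tr.lf) (Tr.nd (nat_lit 99) (nat_lit 1) (nat_lit 61) (nat_lit 1238) c7_8869_0
 Tr.lf Tr.lf)) (Tr.nd (nat_lit 106) (nat_lit 5) (nat_lit 37) (nat_lit 1467) c7_8869_0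
 (Tr.nd (nat_lit 105) (nat_lit 1) (nat_lit 154) (nat_lit 1313) c7_8869_0
 Tr.lf Tr.lf) (Tr.nd (nat_lit 107) (nat_lit 10) (nat_lit 7) (nat_lit 1652) c7_8869_0
 Tr.lf Tr.lf))) (Tr.nd (nat_lit 120) (nat_lit 17) (nat_lit 5) (nat_lit 2262) c7_8869_0
 (Tr.nd (nat_lit 114) (nat_lit 30) (nat_lit 7) (nat_lit 2018) c7_8869_0
 (Tr.nd (nat_lit 113) (nat_lit 10) (nat_lit 17) (nat_lit 1848) c7_8869_0
 Tr.lf Tr.lf) (Tr.nd (nat_lit 119) (nat_lit 2) (nat_lit 17) (nat_lit 2228) c7_8869_0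
 Tr.lf Tr.lf)) (Tr.nd (nat_lit 126) (nat_lit 2) (nat_lit 3) (nat_lit 2410) c7_8869_0
 (Tr.nd (nat_lit 121) (nat_lit 63) (nat_lit 1) (nat_lit 2347) c7_8869_0
 Tr.lf Tr.lf) (Tr.nd (nat_lit 127) (nat_lit 23) (nat_lit 1) (nat_lit 2416) c7_8869_0
 Tr.lf Tr.lf))))) (Tr.nd (nat_lit 211) (nat_lit 23) (nat_lit 5) (nat_lit 3557) c7_8869_0
 (Tr.nd (nat_lit 168) (nat_lit 4) (nat_lit 11) (nat_lit 3008) c7_8869_0
 (Tr.nd (nat_lit 156) (nat_lit 17) (nat_lit 2) (nat_lit 2616) c7_8869_0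
 (Tr.nd (nat_lit 154) (nat_lit 1) (nat_lit 63) (nat_lit 2468) c7_8869_0
 (Tr.nd (nat_lit 149) (nat_lit 2) (nat_lit 3) (nat_lit 2462) c7_8869_0
 Tr.lf Tr.lf) (Tr.nd (nat_lit 155) (nat_lit 5) (nat_lit 17) (nat_lit 2531) c7_8869_0
 Tr.lf Tr.lf)) (Tr.nd (nat_lit 162) (nat_lit 17) (nat_lit 10) (nat_lit 2712) c7_8869_0
 (Tr.nd (nat_lit 161) (nat_lit 2) (nat_lit 31) (nat_lit 2650) c7_8869_0
 Tr.lf Tr.lf) (Tr.nd (nat_lit 163) (nat_lit 63) (nat_lit 2) (nat_lit 2882) c7_8869_0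
 Tr.lf Tr.lf))) (Tr.nd (nat_lit 176) (nat_lit 61) (nat_lit 1) (nat_lit 3421) c7_8869_0
 (Tr.nd (nat_lit 170) (nat_lit 154) (nat_lit 1) (nat_lit 3237) c7_8869_0
 (Tr.nd (nat_lit 169) (nat_lit 37) (nat_lit 5) (nat_lit 3052) c7_8869_0
 Tr.lf Tr.lf) (Tr.nd (nat_lit 175) (nat_lit 6) (nat_lit 5) (nat_lit 3391) c7_8869_0
 Tr.lf Tr.lf)) (Tr.nd (nat_lit 205) (nat_lit 23) (nat_lit 1) (nat_lit 3512) c7_8869_0
 (Tr.nd (nat_lit 204) (nat_lit 5) (nat_lit 6) (nat_lit 3482) c7_8869_0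
 Tr.lf Tr.lf) (Tr.nd (nat_lit 210) (nat_lit 2) (nat_lit 11) (nat_lit 3535) c7_8869_0
 Tr.lf Tr.lf)))) (Tr.nd (nat_lit 253) (nat_lit 4) (nat_lit 1) (nat_lit 503) c7_8869_1
 (Tr.nd (nat_lit 219) (nat_lit 276) (nat_lit 1) (nat_lit 0) c7_8869_1
 (Tr.nd (nat_lit 217) (nat_lit 6) (nat_lit 5) (nat_lit 3772) c7_8869_0
 (Tr.nd (nat_lit 212) (nat_lit 100) (nat_lit 1) (nat_lit 3672) c7_8869_0
 Tr.lf Tr.lf) (Tr.nd (nat_lit 218) (nat_lit 61) (nat_lit 3) (nat_lit 3802) c7_8869_0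
 Tr.lf Tr.lf)) (Tr.nd (nat_lit 225) (nat_lit 116) (nat_lit 1) (nat_lit 287) c7_8869_1
 (Tr.nd (nat_lit 224) (nat_lit 11) (nat_lit 1) (nat_lit 276) c7_8869_1
 Tr.lf Tr.lf) (Tr.nd (nat_lit 226) (nat_lit 100) (nat_lit 1) (nat_lit 403) c7_8869_1
 Tr.lf Tr.lf))) (Tr.nd (nat_lit 267) (nat_lit 75) (nat_lit 1) (nat_lit 544) c7_8869_1
 (Tr.nd (nat_lit 260) (nat_lit 24) (nat_lit 1) (nat_lit 513) c7_8869_1
 (Tr.nd (nat_lit 259) (nat_lit 2) (nat_lit 3) (nat_lit 507) c7_8869_1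
 Tr.lf Tr.lf) (Tr.nd (nat_lit 266) (nat_lit 7) (nat_lit 1) (nat_lit 537) c7_8869_1
 Tr.lf Tr.lf)) (Tr.nd (nat_lit 274) (nat_lit 24) (nat_lit 1) (nat_lit 680) c7_8869_1
 (Tr.nd (nat_lit 268) (nat_lit 61) (nat_lit 1) (nat_lit 619) c7_8869_1
 Tr.lf Tr.lf) (Tr.nd (nat_lit 275) (nat_lit 23) (nat_lit 1) (nat_lit 704) c7_8869_1
 Tr.lf Tr.lf))))))

noncomputable def c7_9865_0 : List Nat := [(nat_lit 0x5406b596a8791648b56b046d0334876c28794b30a1481e2944838a6c689b2b6081b7b6ac422b7925760edc1c425c554044cd11906100db9d330c1eaf373126daa174bd8645430ca6a2c609661081435b0b2c14aaaa605b18105406a5680c6c3a14e3b0055216b79641e7040c001c39c7487ae99539d0a5290640a9eb4c01c7142c8d4b908205ac56dcb9ba6d05138a0ae58b88c702a63595a76bb2782912892c98156258d10a46c7391900d1409b2336244000170b4a8a891dc5aacdc362223aa160bac399935a838818064c2adb61e44007572000000000000009871b699845d4c874aed99670eba3361b2c426c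2962a103a69a6ec61122ba83480a109aa2a0d20347997948637a84cb218774a35cf57755122a2d298b1658b229849aeb8534e69dd4465c82900e285051103c0398dca868184234944d74e9854746462680b5c82b9650a848966a9381046b66c533cc861b80282c3709943b136b5b6a640001680592f684ed7450c41b89346a88d809d182e4d1e525a53b2d526aa3a5b5ad2115850092531b144dc8dce88b4849d49b40aebd717345a3d6a3a8ab1191936253d62d5ca23b8d3728e4740c12af26ea93475c0f11528e359aa6b2553694c805374a3a224e1724522e6019141a6c41d2e9c08a460c3568798b99ad9282c8e0032310b6610646016a31af588940d69eb2321dce9b1a846c61a4683433404646b519836b26ae48136200463869916dba268c5b34502b352b0bb1a84aac7a2ccdcab6e88825742aa08a11e2e61644918d51114c12d2252713360942008b354eb59a0a31627ad02dcd4a1c413c9d6ae00d110b04a5a8d225264868a82a70a4a4a34673811415466a905b6924ada061b4996a60ad30ce609b8aeb58335418144764d98d456c34b497293604e9183743a0d24616a5104600000000000000000000000000000000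0000000000000000000000000000000000034af5b560c17156f3072244000000000000000000000000000000000000000000000a5a301cc5c0b106c952016810f3c34868b9a3a960cc24a4949a0696b5516ad9180b91cca6852ab39374da1d29a365886942a00b5e0904c9b3318c250ace6e9cdd95441b3752b685d8cb2d2988c89440c12a99d628cdb1d702b4da8d3224c67294ee24c993071a2d3a9c255b3673caeb05b0bc4d93692ccc8d0940000000070d7829a6114091000000015281a63000000016659b4ed093b18c5ae8383232b29b6813163514b89bb0ea5cc25066b50313d2589db8234a78c8b2cd0c14c62528082d341411b14b40ce8266290415111864a3275ad306d1718442c94cb3943665114a2babb9eb859ab0c165a17370c8b32f39804985454d031006917552030ed4d34d620543346d02965329735c63cb4b5d98c86ea080620d46db723b8800acc36dd41ac04214615ba42f1975128571501d80005233ca122476a6b5b68809da15b4028a402e00000000a6cf10ac609d8d15b0e146c72d8561a6735c4528e94504e894a030891254836d2ceaa90222aca21bd5566a4168a20cecce959af1ab4d7306b8f1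8c0018823cc2cb37684aa02571a33194e013b1302a0843b210d555886590633898aa0c61429a128e224ec046c3b9096b2837998d9199634c6d3880a605382a809ba0d15c23b762ac7b0984d94718b650898597624d85924abca114d972286d9d366146ceb942144ccdc3570856a02aa704002762834220ae4b6c52680ac0974b0132e4168e0c0414c214c530041b68463869064685214893711446b5c4cd92815c88360b8bd1985535665e2c581d0693016ead23196668558a5b670600d40ac239256b7a92d98b036db51a6926daf38168f4d1c7ad690680686023b6840b8b0891925db2c625abc80d1a2f336b059ca3864673836aa2d5002886bb6d85a04d04882075355120db705a0b44cd6d48a222263066740a086bc15cb4725a2965112e393b91512cd0ade48c83438d023b1049cd32323d6605323372e81a68e410706612a80160cc894e2d8972a3135366c6924da489c629b00000000000000000000000000b071252493232cb28000068849565a42a05b4322911db5b6d9acecda)]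
noncomputable def c7_9865_1 : List Nat := [(nat_lit 0x9bd8ba5b6ddb5c0682c5b40a81b6544982900002cb2c2b4924494632000000000000000000000000192cd64ac6450ac21cae8689a939255638a62d28e06d27030cc6621539ac6f02d11a5ce42b4d1a41012b94e33090a59ba13c94456ad63ac051668b64732d50ce98221317843a02a0a0dd93d05a26435b482b152d855d9dd88b48628c363031b40ccd1b2cd2a0a4179a370b74daa905a33881b2c3423adb32ca1785115b826026124b51231b480c8e4003384908d462b68c257552c901662805d88693954276092854802b53893259c448051891a911a4f3c96d1066cb716b02356a593389b66ba69488c6041ed412c867641b20a4e6baac1812192e1a2a98a519612329b335d20adb052e912234b5b)]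
noncomputable def T7_9865 : Op := Op.mk (nat_lit 67)
 (Tr.nd (nat_lit 148) (nat_lit 1) (nat_lit 23) (nat_lit 2439) c7_9865_0
 (Tr.nd (nat_lit 65) (nat_lit 10) (nat_lit 3) (nat_lit 1155) c7_9865_0
 (Tr.nd (nat_lit 49) (nat_lit 1) (nat_lit 100) (nat_lit 224) c7_9865_0
 (Tr.nd (nat_lit 9) (nat_lit 1) (nat_lit 7) (nat_lit 183) c7_9865_0
 (Tr.nd (nat_lit 7) (nat_lit 1) (nat_lit 61) (nat_lit 47) c7_9865_0
 (Tr.nd (nat_lit 1) (nat_lit 1) (nat_lit 24) (nat_lit 23) c7_9865_0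
 (Tr.nd (nat_lit 0) (nat_lit 1) (nat_lit 23) (nat_lit 0) c7_9865_0
 Tr.lf Tr.lf) Tr.lf) (Tr.nd (nat_lit 8) (nat_lit 1) (nat_lit 75) (nat_lit 108) c7_9865_0
 Tr.lf Tr.lf)) (Tr.nd (nat_lit 16) (nat_lit 2) (nat_lit 3) (nat_lit 214) c7_9865_0
 (Tr.nd (nat_lit 15) (nat_lit 1) (nat_lit 24) (nat_lit 190) c7_9865_0
 Tr.lf Tr.lf) (Tr.nd (nat_lit 22) (nat_lit 1) (nat_lit 4) (nat_lit 220) c7_9865_0
 Tr.lf Tr.lf))) (Tr.nd (nat_lit 57) (nat_lit 3) (nat_lit 61) (nat_lit 727) c7_9865_0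
 (Tr.nd (nat_lit 51) (nat_lit 1) (nat_lit 11) (nat_lit 440) c7_9865_0
 (Tr.nd (nat_lit 50) (nat_lit 1) (nat_lit 116) (nat_lit 324) c7_9865_0
 Tr.lf Tr.lf) (Tr.nd (nat_lit 56) (nat_lit 1) (nat_lit 276) (nat_lit 451) c7_9865_0
 Tr.lf Tr.lf)) (Tr.nd (nat_lit 63) (nat_lit 1) (nat_lit 100) (nat_lit 940) c7_9865_0
 (Tr.nd (nat_lit 58) (nat_lit 5) (nat_lit 6) (nat_lit 910) c7_9865_0
 Tr.lf Tr.lf) (Tr.nd (nat_lit 64) (nat_lit 5) (nat_lit 23) (nat_lit 1040) c7_9865_0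
 Tr.lf Tr.lf)))) (Tr.nd (nat_lit 112) (nat_lit 2) (nat_lit 63) (nat_lit 1722) c7_9865_0
 (Tr.nd (nat_lit 100) (nat_lit 2) (nat_lit 7) (nat_lit 1299) c7_9865_0
 (Tr.nd (nat_lit 71) (nat_lit 5) (nat_lit 6) (nat_lit 1208) c7_9865_0
 (Tr.nd (nat_lit 70) (nat_lit 1) (nat_lit 23) (nat_lit 1185) c7_9865_0
 Tr.lf Tr.lf) (Tr.nd (nat_lit 99) (nat_lit 1) (nat_lit 61) (nat_lit 1238) c7_9865_0
 Tr.lf Tr.lf)) (Tr.nd (nat_lit 106) (nat_lit 5) (nat_lit 37) (nat_lit 1467) c7_9865_0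
 (Tr.nd (nat_lit 105) (nat_lit 1) (nat_lit 154) (nat_lit 1313) c7_9865_0
 Tr.lf Tr.lf) (Tr.nd (nat_lit 107) (nat_lit 10) (nat_lit 7) (nat_lit 1652) c7_9865_0
 Tr.lf Tr.lf))) (Tr.nd (nat_lit 120) (nat_lit 17) (nat_lit 5) (nat_lit 2262) c7_9865_0
 (Tr.nd (nat_lit 114) (nat_lit 30) (nat_lit 7) (nat_lit 2018) c7_9865_0
 (Tr.nd (nat_lit 113) (nat_lit 10) (nat_lit 17) (nat_lit 1848) c7_9865_0
 Tr.lf Tr.lf) (Tr.nd (nat_lit 119) (nat_lit 2) (nat_lit 17) (nat_lit 2228) c7_9865_0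
 Tr.lf Tr.lf)) (Tr.nd (nat_lit 126) (nat_lit 2) (nat_lit 3) (nat_lit 2410) c7_9865_0
 (Tr.nd (nat_lit 121) (nat_lit 63) (nat_lit 1) (nat_lit 2347) c7_9865_0
 Tr.lf Tr.lf) (Tr.nd (nat_lit 127) (nat_lit 23) (nat_lit 1) (nat_lit 2416) c7_9865_0
 Tr.lf Tr.lf))))) (Tr.nd (nat_lit 211) (nat_lit 23) (nat_lit 5) (nat_lit 3557) c7_9865_0
 (Tr.nd (nat_lit 168) (nat_lit 4) (nat_lit 11) (nat_lit 3008) c7_9865_0
 (Tr.nd (nat_lit 156) (nat_lit 17) (nat_lit 2) (nat_lit 2616) c7_9865_0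
 (Tr.nd (nat_lit 154) (nat_lit 1) (nat_lit 63) (nat_lit 2468) c7_9865_0
 (Tr.nd (nat_lit 149) (nat_lit 2) (nat_lit 3) (nat_lit 2462) c7_9865_0
 Tr.lf Tr.lf) (Tr.nd (nat_lit 155) (nat_lit 5) (nat_lit 17) (nat_lit 2531) c7_9865_0
 Tr.lf Tr.lf)) (Tr.nd (nat_lit 162) (nat_lit 17) (nat_lit 10) (nat_lit 2712) c7_9865_0
 (Tr.nd (nat_lit 161) (nat_lit 2) (nat_lit 31) (nat_lit 2650) c7_9865_0
 Tr.lf Tr.lf) (Tr.nd (nat_lit 163) (nat_lit 63) (nat_lit 2) (nat_lit 2882) c7_9865_0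
 Tr.lf Tr.lf))) (Tr.nd (nat_lit 176) (nat_lit 61) (nat_lit 1) (nat_lit 3421) c7_9865_0
 (Tr.nd (nat_lit 170) (nat_lit 154) (nat_lit 1) (nat_lit 3237) c7_9865_0
 (Tr.nd (nat_lit 169) (nat_lit 37) (nat_lit 5) (nat_lit 3052) c7_9865_0
 Tr.lf Tr.lf) (Tr.nd (nat_lit 175) (nat_lit 6) (nat_lit 5) (nat_lit 3391) c7_9865_0
 Tr.lf Tr.lf)) (Tr.nd (nat_lit 205) (nat_lit 23) (nat_lit 1) (nat_lit 3512) c7_9865_0
 (Tr.nd (nat_lit 204) (nat_lit 5) (nat_lit 6) (nat_lit 3482) c7_9865_0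
 Tr.lf Tr.lf) (Tr.nd (nat_lit 210) (nat_lit 2) (nat_lit 11) (nat_lit 3535) c7_9865_0
 Tr.lf Tr.lf)))) (Tr.nd (nat_lit 253) (nat_lit 4) (nat_lit 1) (nat_lit 503) c7_9865_1
 (Tr.nd (nat_lit 219) (nat_lit 276) (nat_lit 1) (nat_lit 0) c7_9865_1
 (Tr.nd (nat_lit 217) (nat_lit 6) (nat_lit 5) (nat_lit 3772) c7_9865_0
 (Tr.nd (nat_lit 212) (nat_lit 100) (nat_lit 1) (nat_lit 3672) c7_9865_0
 Tr.lf Tr.lf) (Tr.nd (nat_lit 218) (nat_lit 61) (nat_lit 3) (nat_lit 3802) c7_9865_0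
 Tr.lf Tr.lf)) (Tr.nd (nat_lit 225) (nat_lit 116) (nat_lit 1) (nat_lit 287) c7_9865_1
 (Tr.nd (nat_lit 224) (nat_lit 11) (nat_lit 1) (nat_lit 276) c7_9865_1
 Tr.lf Tr.lf) (Tr.nd (nat_lit 226) (nat_lit 100) (nat_lit 1) (nat_lit 403) c7_9865_1
 Tr.lf Tr.lf))) (Tr.nd (nat_lit 267) (nat_lit 75) (nat_lit 1) (nat_lit 544) c7_9865_1
 (Tr.nd (nat_lit 260) (nat_lit 24) (nat_lit 1) (nat_lit 513) c7_9865_1
 (Tr.nd (nat_lit 259) (nat_lit 2) (nat_lit 3) (nat_lit 507) c7_9865_1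
 Tr.lf Tr.lf) (Tr.nd (nat_lit 266) (nat_lit 7) (nat_lit 1) (nat_lit 537) c7_9865_1
 Tr.lf Tr.lf)) (Tr.nd (nat_lit 274) (nat_lit 24) (nat_lit 1) (nat_lit 680) c7_9865_1
 (Tr.nd (nat_lit 268) (nat_lit 61) (nat_lit 1) (nat_lit 619) c7_9865_1
 Tr.lf Tr.lf) (Tr.nd (nat_lit 275) (nat_lit 23) (nat_lit 1) (nat_lit 704) c7_9865_1
 Tr.lf Tr.lf))))))

noncomputable def c7_8857_0 : List Nat := [(nat_lit 0x1c144940c146bc966407ac9ad17681aacdda696d20e512842855a21049221130c945ac88c53032540bd305b649a86ea611981a2834ab42a911331691caaa8684007291a0aae062ac568980bb046c98c50d6036d631b27b149611e41a32911e48d55d7642991536d515316e9a252d906514ce93057058e5493a4eb2e3ae58c6d8a5c673d44ba008364684c38441d864d26c02093cae15032d359176866d12af1d40051ae48ee4b4d24b196b0d2ab58830d08000111b6669e2b4d0a080b73b1e56815856b548733080c66c8bab559b189b187520600000000000000014f53a0095d331682b246a5068e9a76b3164d3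2d60009352805ad9475686dc758ea6e56c90958092d8b4b1421a939ab951484c065ed4d33524b78514e313b039a012c622260b31b49d5508d6e2533ad89293a4bb68cad5ab909363859a395e349cd3343451570756c5318e95d44e0d241d323606cae8ab0e9274c2e79c306411430db5000d76a1dd0b884666135523534c9c9700a299d4d3c628c3008929683b4d3201a87b4af1211af62415a261ea3578004e0606dd049072a532ce95903120b8da0c97aa46d2e49034b22e6c65871c04b33a1388156a0018a0134728521c12a6389158a79152896b5b359c898c696b08e53b19523918d9791b966ae15cd3394d6ce02998d084481d23995a59b54aecb24db04c33b14a50a67852c88d6d296cc3a6d447a274491108a341d88272cabae42d4cea6a58e42f654a28a83209956ead3a03aa4896090532b08b64d24c734a94e59aea19504caa951255518973033c9a190908031080c6391c38040e001902c1303669eb038aa24ab155a088b175d2c68d49e3a49a4b41956882453a294e1aa8a09d96ce2885a91154603712c945abcb1321cc428d8b152b313721ad5da2b31c600d991e0f08cd00000000000000000000000000000000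0000000000000000000000000000000000013b18b129a1c0258610d96d0000000000000000000000000000000000000000000009ae28dab17a32d0994b342f235ace0b9bda32939a267493331b18d362ac155a3b2a48993d2150ba1d91c4d5885866ac80f04501a9cb235c54aca925c8497360aca84ba4094c2e4f2c508a561179d08918dbb375831124d22b744270204d2e0b20d4d0805e8c92310dc988390b3514b09972000b0c2673add7a24800000009a8734ad3b14d86000000021162aa40000000347a0cf1b65ab209826a395b89530b6bc368f5db604e848c31d017a578d20d443c1121ba13b5ca81a4c65c80472669d1454942e650bd8d91c95e994d0659255eba339c730a842f0cd26a1c68a33649ba1a6eccb01a068ab54f137042866d0d9244a9025bb1b55cb8eb4ccab8b64c8162690003b61a4b3a5d8d35cc2254a5911687a6a9001e340d111084ab0e52706f2b95656d0e0107a306a76a0e816ace57800049b258c05a22acad7050661840ed5661932e000000016c935c93923851d50c557727850f179b720d1008666122dca4220da5ba48a437326d166b2b3b6d91d1475b309daa553308002a23a2135e8a2c24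b62534d686a8a9b6a82d192baeaa52ce03614c2ce0c923b35b072ed80c98ada469b4c2f4100705219714512383146d4651d0e2c907709561a39143702c029548c21c18c54480e94a29c98d32c52a731a502e1423151929d52cb5c46a9c2ad96612692ad0ac40436191208d642b007386d516208a90b1bdb3ca36b3d4e49924c1adaa59a672840852c99dcf2ce9c828e25a64e496436d72d28a92349488a17525e145742d75909ad218a22c4d4810aaa556751922c309028d64e6b729b491dc21268aa994063479a40e8aa65022622a76c8610c5da1674586014593cdd56481b183b73459131b90784b31ccb001128d29d3689418509176455e46e69292568b081348800adad4058b72b84e045808d4c05d7616f0a43cceda81751a321a1898006502dd322d0b8a8ac2c40a8100c51cc006ac71444291ac466918d205ab542294d92844d3192c2995daa37a8cf68c3631792aca95b2200000000000000000000000000400040c2164c1884800011522143632a45aa35830000620a137058b6)]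
noncomputable def c7_8857_1 : List Nat := [(nat_lit 0x1b29446d0a20600030970a994ac3b0460354000009818d250831000010000000000000000000000000d1b01c93b1551d2030ac81575c63541d91e0296914d8363672a58ac2852781c9c88151472a600d18054842a01c83a2a8ccca435b21160084e0982e617502ed8bcc1a3366575910dc089411898ec6ce405c34ce259454c4d14a21266c5575ce3609648b596192f6a2956c34242b2b060411a199218399d692d93326351101865310064864e0c4a82a4b631c4e1aec3a6652c619a5243082da5d34ae080426209d9657826aa92224676e051d02233ba86532b38058b2ca870006874d271bb536826ab8c093110d240b601420c8a63886d18a4a4352b22d6d58832086c880416c69971d84e123c6a388)]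
noncomputable def T7_8857 : Op := Op.mk (nat_lit 67)
 (Tr.nd (nat_lit 148) (nat_lit 1) (nat_lit 23) (nat_lit 2439) c7_8857_0
 (Tr.nd (nat_lit 65) (nat_lit 10) (nat_lit 3) (nat_lit 1155) c7_8857_0
 (Tr.nd (nat_lit 49) (nat_lit 1) (nat_lit 100) (nat_lit 224) c7_8857_0
 (Tr.nd (nat_lit 9) (nat_lit 1) (nat_lit 7) (nat_lit 183) c7_8857_0
 (Tr.nd (nat_lit 7) (nat_lit 1) (nat_lit 61) (nat_lit 47) c7_8857_0
 (Tr.nd (nat_lit 1) (nat_lit 1) (nat_lit 24) (nat_lit 23) c7_8857_0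
 (Tr.nd (nat_lit 0) (nat_lit 1) (nat_lit 23) (nat_lit 0) c7_8857_0
 Tr.lf Tr.lf) Tr.lf) (Tr.nd (nat_lit 8) (nat_lit 1) (nat_lit 75) (nat_lit 108) c7_8857_0
 Tr.lf Tr.lf)) (Tr.nd (nat_lit 16) (nat_lit 2) (nat_lit 3) (nat_lit 214) c7_8857_0
 (Tr.nd (nat_lit 15) (nat_lit 1) (nat_lit 24) (nat_lit 190) c7_8857_0
 Tr.lf Tr.lf) (Tr.nd (nat_lit 22) (nat_lit 1) (nat_lit 4) (nat_lit 220) c7_8857_0
 Tr.lf Tr.lf))) (Tr.nd (nat_lit 57) (nat_lit 3) (nat_lit 61) (nat_lit 727) c7_8857_0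
 (Tr.nd (nat_lit 51) (nat_lit 1) (nat_lit 11) (nat_lit 440) c7_8857_0
 (Tr.nd (nat_lit 50) (nat_lit 1) (nat_lit 116) (nat_lit 324) c7_8857_0
 Tr.lf Tr.lf) (Tr.nd (nat_lit 56) (nat_lit 1) (nat_lit 276) (nat_lit 451) c7_8857_0
 Tr.lf Tr.lf)) (Tr.nd (nat_lit 63) (nat_lit 1) (nat_lit 100) (nat_lit 940) c7_8857_0
 (Tr.nd (nat_lit 58) (nat_lit 5) (nat_lit 6) (nat_lit 910) c7_8857_0
 Tr.lf Tr.lf) (Tr.nd (nat_lit 64) (nat_lit 5) (nat_lit 23) (nat_lit 1040) c7_8857_0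
 Tr.lf Tr.lf)))) (Tr.nd (nat_lit 112) (nat_lit 2) (nat_lit 63) (nat_lit 1722) c7_8857_0
 (Tr.nd (nat_lit 100) (nat_lit 2) (nat_lit 7) (nat_lit 1299) c7_8857_0
 (Tr.nd (nat_lit 71) (nat_lit 5) (nat_lit 6) (nat_lit 1208) c7_8857_0
 (Tr.nd (nat_lit 70) (nat_lit 1) (nat_lit 23) (nat_lit 1185) c7_8857_0
 Tr.lf Tr.lf) (Tr.nd (nat_lit 99) (nat_lit 1) (nat_lit 61) (nat_lit 1238) c7_8857_0
 Tr.lf Tr.lf)) (Tr.nd (nat_lit 106) (nat_lit 5) (nat_lit 37) (nat_lit 1467) c7_8857_0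
 (Tr.nd (nat_lit 105) (nat_lit 1) (nat_lit 154) (nat_lit 1313) c7_8857_0
 Tr.lf Tr.lf) (Tr.nd (nat_lit 107) (nat_lit 10) (nat_lit 7) (nat_lit 1652) c7_8857_0
 Tr.lf Tr.lf))) (Tr.nd (nat_lit 120) (nat_lit 17) (nat_lit 5) (nat_lit 2262) c7_8857_0
 (Tr.nd (nat_lit 114) (nat_lit 30) (nat_lit 7) (nat_lit 2018) c7_8857_0
 (Tr.nd (nat_lit 113) (nat_lit 10) (nat_lit 17) (nat_lit 1848) c7_8857_0
 Tr.lf Tr.lf) (Tr.nd (nat_lit 119) (nat_lit 2) (nat_lit 17) (nat_lit 2228) c7_8857_0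
 Tr.lf Tr.lf)) (Tr.nd (nat_lit 126) (nat_lit 2) (nat_lit 3) (nat_lit 2410) c7_8857_0
 (Tr.nd (nat_lit 121) (nat_lit 63) (nat_lit 1) (nat_lit 2347) c7_8857_0
 Tr.lf Tr.lf) (Tr.nd (nat_lit 127) (nat_lit 23) (nat_lit 1) (nat_lit 2416) c7_8857_0
 Tr.lf Tr.lf))))) (Tr.nd (nat_lit 211) (nat_lit 23) (nat_lit 5) (nat_lit 3557) c7_8857_0
 (Tr.nd (nat_lit 168) (nat_lit 4) (nat_lit 11) (nat_lit 3008) c7_8857_0
 (Tr.nd (nat_lit 156) (nat_lit 17) (nat_lit 2) (nat_lit 2616) c7_8857_0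
 (Tr.nd (nat_lit 154) (nat_lit 1) (nat_lit 63) (nat_lit 2468) c7_8857_0
 (Tr.nd (nat_lit 149) (nat_lit 2) (nat_lit 3) (nat_lit 2462) c7_8857_0
 Tr.lf Tr.lf) (Tr.nd (nat_lit 155) (nat_lit 5) (nat_lit 17) (nat_lit 2531) c7_8857_0
 Tr.lf Tr.lf)) (Tr.nd (nat_lit 162) (nat_lit 17) (nat_lit 10) (nat_lit 2712) c7_8857_0
 (Tr.nd (nat_lit 161) (nat_lit 2) (nat_lit 31) (nat_lit 2650) c7_8857_0
 Tr.lf Tr.lf) (Tr.nd (nat_lit 163) (nat_lit 63) (nat_lit 2) (nat_lit 2882) c7_8857_0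
 Tr.lf Tr.lf))) (Tr.nd (nat_lit 176) (nat_lit 61) (nat_lit 1) (nat_lit 3421) c7_8857_0
 (Tr.nd (nat_lit 170) (nat_lit 154) (nat_lit 1) (nat_lit 3237) c7_8857_0
 (Tr.nd (nat_lit 169) (nat_lit 37) (nat_lit 5) (nat_lit 3052) c7_8857_0
 Tr.lf Tr.lf) (Tr.nd (nat_lit 175) (nat_lit 6) (nat_lit 5) (nat_lit 3391) c7_8857_0
 Tr.lf Tr.lf)) (Tr.nd (nat_lit 205) (nat_lit 23) (nat_lit 1) (nat_lit 3512) c7_8857_0
 (Tr.nd (nat_lit 204) (nat_lit 5) (nat_lit 6) (nat_lit 3482) c7_8857_0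
 Tr.lf Tr.lf) (Tr.nd (nat_lit 210) (nat_lit 2) (nat_lit 11) (nat_lit 3535) c7_8857_0
 Tr.lf Tr.lf)))) (Tr.nd (nat_lit 253) (nat_lit 4) (nat_lit 1) (nat_lit 503) c7_8857_1
 (Tr.nd (nat_lit 219) (nat_lit 276) (nat_lit 1) (nat_lit 0) c7_8857_1
 (Tr.nd (nat_lit 217) (nat_lit 6) (nat_lit 5) (nat_lit 3772) c7_8857_0
 (Tr.nd (nat_lit 212) (nat_lit 100) (nat_lit 1) (nat_lit 3672) c7_8857_0
 Tr.lf Tr.lf) (Tr.nd (nat_lit 218) (nat_lit 61) (nat_lit 3) (nat_lit 3802) c7_8857_0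
 Tr.lf Tr.lf)) (Tr.nd (nat_lit 225) (nat_lit 116) (nat_lit 1) (nat_lit 287) c7_8857_1
 (Tr.nd (nat_lit 224) (nat_lit 11) (nat_lit 1) (nat_lit 276) c7_8857_1
 Tr.lf Tr.lf) (Tr.nd (nat_lit 226) (nat_lit 100) (nat_lit 1) (nat_lit 403) c7_8857_1
 Tr.lf Tr.lf))) (Tr.nd (nat_lit 267) (nat_lit 75) (nat_lit 1) (nat_lit 544) c7_8857_1
 (Tr.nd (nat_lit 260) (nat_lit 24) (nat_lit 1) (nat_lit 513) c7_8857_1
 (Tr.nd (nat_lit 259) (nat_lit 2) (nat_lit 3) (nat_lit 507) c7_8857_1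
 Tr.lf Tr.lf) (Tr.nd (nat_lit 266) (nat_lit 7) (nat_lit 1) (nat_lit 537) c7_8857_1
 Tr.lf Tr.lf)) (Tr.nd (nat_lit 274) (nat_lit 24) (nat_lit 1) (nat_lit 680) c7_8857_1
 (Tr.nd (nat_lit 268) (nat_lit 61) (nat_lit 1) (nat_lit 619) c7_8857_1
 Tr.lf Tr.lf) (Tr.nd (nat_lit 275) (nat_lit 23) (nat_lit 1) (nat_lit 704) c7_8857_1
 Tr.lf Tr.lf))))))

noncomputable def c7_9769_0 : List Nat := [(nat_lit 0x6c913136322325ad57661baedaca5142cecd2a8334962a4d46594ee01ab1932d784528d21d652b575a26cdaec860280ee0d56ce2a519a79dd8ad2602918a6ae0f3624c1379dd884904f0031593696441570450746b24c19d8e90e274c3449c4642c05534cb15284cda145c2f30d8b2ca4bbb24ac4f6510909c50b26ac355589b21186516148601d8aad8636e328da3a9c0590492f0c6d7840160cab9db18c0933014ad0b146d10888643d3118b516a9ed9600010db86b6118b35d82db22a5a77480e5827048a152ac9bb2636b96d8dc3609000e00000000000001b1c5e360a5196355955c0c17158744a322c0195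a0876b4acd4813cb4618c916e58c0c1494d19a854d83d8ec0b3764147122dbb7686b36d900d8976c3597aa13221ac1e3a0ba894eb6225ca148da8929a4502af4709143ad1090061328d24a8b55e8aa6f06da8c2040768290b298c4856432b19166c8d152b9d36383691e8668481b4991000a23bacc26943b6cd32af4671b5630d44a49e632a21a16933c58cc356084ab4151805b404901743a5b8f436629cd4081ca1bce2bac7258c825ec02819cc005d003cc918d358c20b734e3c7405c014790789c8d810735053a93354a34151b5ebb17a40c46939897967a42098012f20b425c640171b44cb180c20081b48b8e0029ab68749acb2827001955c4c4468b06010674c63a588812de51a0de18b8f03128d202cb502631662ed8d6704934aa246cb859929017086d5aa1b689348768e099410b4a96dda92355da868bc68a3244404a8aa9542cdcc3672c5c004af426d0b339c48c9a86c5d214a3c5e42d2660058e33962d87a9662b155112202961453994c5daaa5256b6cd4b1aa58a4a64a5b8893664d0991b2092c10d7a56a16d8a90918026506ba6966b61013613883658b864e250ece100000000000000000000000000000000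000000000000000000000000000000000001c4dd1363abaa8835972a2a0000000000000000000000000000000000000000000008a824304c060836908c542cb85e11356dc82199c5e815365d0182079a528080c244c0d6479b94c45965a1880c036200c183c2938d5988db85dc1186dd296264ca7a3649240cc1a345065b120360c0120f02c262d864d1261e0e6184aa5535ba36da25a141d1c803c58309962668b63cd8a5b906c1922223689aa400000003258de59da6cb7600000000dd1d160000000035a708b4241931ac116d934ba81648c64440c0116ac569c20e9a632132c48a5704125903a5556682c9c96516a04d81382465c88955c72a6aecd266b7165830c9786d1c3581343868a55732e996b276024b6974cdad6d94a3882da9646c7663688c4f0a6c88601cb1b2960c399668489e46dd8c1322c094171298caa32188ea2ea72c28800d3b5731d180241298dcb6c769d256d6562314823432c449ab4cd500004048385b6e76d36e8e4cb6cd5ca26703a66080000000182664750d40a5d06aaa01bb6d0963128b63168262594cb5150d5470c2684d183c8011d275a65a0838b82c60e62b30cd8962cd9a9525b564d965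0d87998ca33684c4a865a6aa01990a8d2986989c64c762c6925c2b08a1aa28b0964f60aa4162c0c1e47049396b81956e598a8652555e8f3ce2af159849bce0882cc0d88cf1b9b74e32d5a3c2e4de6ad06aa8836805366bcf518cc5d4124f144c8099a99680eec6c8b30f669d242418c51ad0b5085ecc61b64ae19aa4c34e32ad91c5646ba45c0161020d18c39e933a2e31290999e0808f6552cd2d652d12407604520c078ea0e4f014dcc6b558d94c655cadbad02d14f2a9b775a41d10875b326eed50883c5d100a4608e8ae75eab2d5cc938db8a8d5d915092832240cea62443200bcf0d73731d1e05a530cc201604a66d0a2201c75d05c56c2dda3b4ec3195845c8132cd794d53ae34024eb928b35aa90c66e38c29a55aaa4d291b0dd306e195dc4e70a89d2653488e995001aa10da900c88b0cc5a5d6c72b88d6927ab62206e6802a090e2481308b42dd096ae27684a6741d0211a000000000000000000000000a18cf521c6b0acb46800015db2e2d3b692e9c054840615847290415b2)]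
noncomputable def c7_9769_1 : List Nat := [(nat_lit 0xb644106c706461102540c6b26dad33acb5d0000294cba32718373c18a00000000000000000000000068164a03291161a63b15988d90432b71d4a26bb24721575d6aae69758ec72dd6650b0ca90806ec100ea01586b80d36135a88c789d5d863634d4ca52349aae5668838e378306ab74a2c8eb4804e3ad5d166f15951714230a4cd6a4a840391d0615edac11430b0c368da7134a1a946a5092f69a636036141d9715b448409215495dbab381b2269d8925130d885ad5b6e108cc6bd498297b2198730a147245116296942302284966dd7b4aae1508d378e4e26ac3307751b5d032a51a30060a38060aca08cc89b62626a3ca00e599cc9d271cc90f2b83921c6ccadb82671c4c1587a68d0d35764b344a0)]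
noncomputable def T7_9769 : Op := Op.mk (nat_lit 67)
 (Tr.nd (nat_lit 148) (nat_lit 1) (nat_lit 23) (nat_lit 2439) c7_9769_0
 (Tr.nd (nat_lit 65) (nat_lit 10) (nat_lit 3) (nat_lit 1155) c7_9769_0
 (Tr.nd (nat_lit 49) (nat_lit 1) (nat_lit 100) (nat_lit 224) c7_9769_0
 (Tr.nd (nat_lit 9) (nat_lit 1) (nat_lit 7) (nat_lit 183) c7_9769_0
 (Tr.nd (nat_lit 7) (nat_lit 1) (nat_lit 61) (nat_lit 47) c7_9769_0
 (Tr.nd (nat_lit 1) (nat_lit 1) (nat_lit 24) (nat_lit 23) c7_9769_0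
 (Tr.nd (nat_lit 0) (nat_lit 1) (nat_lit 23) (nat_lit 0) c7_9769_0
 Tr.lf Tr.lf) Tr.lf) (Tr.nd (nat_lit 8) (nat_lit 1) (nat_lit 75) (nat_lit 108) c7_9769_0
 Tr.lf Tr.lf)) (Tr.nd (nat_lit 16) (nat_lit 2) (nat_lit 3) (nat_lit 214) c7_9769_0
 (Tr.nd (nat_lit 15) (nat_lit 1) (nat_lit 24) (nat_lit 190) c7_9769_0
 Tr.lf Tr.lf) (Tr.nd (nat_lit 22) (nat_lit 1) (nat_lit 4) (nat_lit 220) c7_9769_0
 Tr.lf Tr.lf))) (Tr.nd (nat_lit 57) (nat_lit 3) (nat_lit 61) (nat_lit 727) c7_9769_0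
 (Tr.nd (nat_lit 51) (nat_lit 1) (nat_lit 11) (nat_lit 440) c7_9769_0
 (Tr.nd (nat_lit 50) (nat_lit 1) (nat_lit 116) (nat_lit 324) c7_9769_0
 Tr.lf Tr.lf) (Tr.nd (nat_lit 56) (nat_lit 1) (nat_lit 276) (nat_lit 451) c7_9769_0
 Tr.lf Tr.lf)) (Tr.nd (nat_lit 63) (nat_lit 1) (nat_lit 100) (nat_lit 940) c7_9769_0
 (Tr.nd (nat_lit 58) (nat_lit 5) (nat_lit 6) (nat_lit 910) c7_9769_0
 Tr.lf Tr.lf) (Tr.nd (nat_lit 64) (nat_lit 5) (nat_lit 23) (nat_lit 1040) c7_9769_0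
 Tr.lf Tr.lf)))) (Tr.nd (nat_lit 112) (nat_lit 2) (nat_lit 63) (nat_lit 1722) c7_9769_0
 (Tr.nd (nat_lit 100) (nat_lit 2) (nat_lit 7) (nat_lit 1299) c7_9769_0
 (Tr.nd (nat_lit 71) (nat_lit 5) (nat_lit 6) (nat_lit 1208) c7_9769_0
 (Tr.nd (nat_lit 70) (nat_lit 1) (nat_lit 23) (nat_lit 1185) c7_9769_0
 Tr.lf Tr.lf) (Tr.nd (nat_lit 99) (nat_lit 1) (nat_lit 61) (nat_lit 1238) c7_9769_0
 Tr.lf Tr.lf)) (Tr.nd (nat_lit 106) (nat_lit 5) (nat_lit 37) (nat_lit 1467) c7_9769_0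
 (Tr.nd (nat_lit 105) (nat_lit 1) (nat_lit 154) (nat_lit 1313) c7_9769_0
 Tr.lf Tr.lf) (Tr.nd (nat_lit 107) (nat_lit 10) (nat_lit 7) (nat_lit 1652) c7_9769_0
 Tr.lf Tr.lf))) (Tr.nd (nat_lit 120) (nat_lit 17) (nat_lit 5) (nat_lit 2262) c7_9769_0
 (Tr.nd (nat_lit 114) (nat_lit 30) (nat_lit 7) (nat_lit 2018) c7_9769_0
 (Tr.nd (nat_lit 113) (nat_lit 10) (nat_lit 17) (nat_lit 1848) c7_9769_0
 Tr.lf Tr.lf) (Tr.nd (nat_lit 119) (nat_lit 2) (nat_lit 17) (nat_lit 2228) c7_9769_0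
 Tr.lf Tr.lf)) (Tr.nd (nat_lit 126) (nat_lit 2) (nat_lit 3) (nat_lit 2410) c7_9769_0
 (Tr.nd (nat_lit 121) (nat_lit 63) (nat_lit 1) (nat_lit 2347) c7_9769_0
 Tr.lf Tr.lf) (Tr.nd (nat_lit 127) (nat_lit 23) (nat_lit 1) (nat_lit 2416) c7_9769_0
 Tr.lf Tr.lf))))) (Tr.nd (nat_lit 211) (nat_lit 23) (nat_lit 5) (nat_lit 3557) c7_9769_0
 (Tr.nd (nat_lit 168) (nat_lit 4) (nat_lit 11) (nat_lit 3008) c7_9769_0
 (Tr.nd (nat_lit 156) (nat_lit 17) (nat_lit 2) (nat_lit 2616) c7_9769_0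
 (Tr.nd (nat_lit 154) (nat_lit 1) (nat_lit 63) (nat_lit 2468) c7_9769_0
 (Tr.nd (nat_lit 149) (nat_lit 2) (nat_lit 3) (nat_lit 2462) c7_9769_0
 Tr.lf Tr.lf) (Tr.nd (nat_lit 155) (nat_lit 5) (nat_lit 17) (nat_lit 2531) c7_9769_0
 Tr.lf Tr.lf)) (Tr.nd (nat_lit 162) (nat_lit 17) (nat_lit 10) (nat_lit 2712) c7_9769_0
 (Tr.nd (nat_lit 161) (nat_lit 2) (nat_lit 31) (nat_lit 2650) c7_9769_0
 Tr.lf Tr.lf) (Tr.nd (nat_lit 163) (nat_lit 63) (nat_lit 2) (nat_lit 2882) c7_9769_0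
 Tr.lf Tr.lf))) (Tr.nd (nat_lit 176) (nat_lit 61) (nat_lit 1) (nat_lit 3421) c7_9769_0
 (Tr.nd (nat_lit 170) (nat_lit 154) (nat_lit 1) (nat_lit 3237) c7_9769_0
 (Tr.nd (nat_lit 169) (nat_lit 37) (nat_lit 5) (nat_lit 3052) c7_9769_0
 Tr.lf Tr.lf) (Tr.nd (nat_lit 175) (nat_lit 6) (nat_lit 5) (nat_lit 3391) c7_9769_0
 Tr.lf Tr.lf)) (Tr.nd (nat_lit 205) (nat_lit 23) (nat_lit 1) (nat_lit 3512) c7_9769_0
 (Tr.nd (nat_lit 204) (nat_lit 5) (nat_lit 6) (nat_lit 3482) c7_9769_0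
 Tr.lf Tr.lf) (Tr.nd (nat_lit 210) (nat_lit 2) (nat_lit 11) (nat_lit 3535) c7_9769_0
 Tr.lf Tr.lf)))) (Tr.nd (nat_lit 253) (nat_lit 4) (nat_lit 1) (nat_lit 503) c7_9769_1
 (Tr.nd (nat_lit 219) (nat_lit 276) (nat_lit 1) (nat_lit 0) c7_9769_1
 (Tr.nd (nat_lit 217) (nat_lit 6) (nat_lit 5) (nat_lit 3772) c7_9769_0
 (Tr.nd (nat_lit 212) (nat_lit 100) (nat_lit 1) (nat_lit 3672) c7_9769_0
 Tr.lf Tr.lf) (Tr.nd (nat_lit 218) (nat_lit 61) (nat_lit 3) (nat_lit 3802) c7_9769_0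
 Tr.lf Tr.lf)) (Tr.nd (nat_lit 225) (nat_lit 116) (nat_lit 1) (nat_lit 287) c7_9769_1
 (Tr.nd (nat_lit 224) (nat_lit 11) (nat_lit 1) (nat_lit 276) c7_9769_1
 Tr.lf Tr.lf) (Tr.nd (nat_lit 226) (nat_lit 100) (nat_lit 1) (nat_lit 403) c7_9769_1
 Tr.lf Tr.lf))) (Tr.nd (nat_lit 267) (nat_lit 75) (nat_lit 1) (nat_lit 544) c7_9769_1
 (Tr.nd (nat_lit 260) (nat_lit 24) (nat_lit 1) (nat_lit 513) c7_9769_1
 (Tr.nd (nat_lit 259) (nat_lit 2) (nat_lit 3) (nat_lit 507) c7_9769_1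
 Tr.lf Tr.lf) (Tr.nd (nat_lit 266) (nat_lit 7) (nat_lit 1) (nat_lit 537) c7_9769_1
 Tr.lf Tr.lf)) (Tr.nd (nat_lit 274) (nat_lit 24) (nat_lit 1) (nat_lit 680) c7_9769_1
 (Tr.nd (nat_lit 268) (nat_lit 61) (nat_lit 1) (nat_lit 619) c7_9769_1
 Tr.lf Tr.lf) (Tr.nd (nat_lit 275) (nat_lit 23) (nat_lit 1) (nat_lit 704) c7_9769_1
 Tr.lf Tr.lf))))))

noncomputable def c7_9874_0 : List Nat := [(nat_lit 0x3869448ae675dd6da8e01536e936134285b0adb3941c2e581aa58b310e08c92d38b629a016eb1b2195c829a0521c950d1c54094302af341321a0496da6f56ce62982049804422271e18c5014da6762aca06916b42634a1b51ac8e21041b8a6b2d79d56e6d0c15c290b464b9890b592610d0086b269d391c097b036878aa460f0b40a9038526d25d2e98454c06da711c9d52e2a0b6062e71164284c2250e4a4440808bba58d66ee10ecf1c6e0c6a463141580000229a3a880aed759b566a32c306cca8629808408ed509226d2910ed68c63503ba000000000000009670414c449a5410873375e184bb126518d3613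489748c5972432daba816a5b7390baebcaea327164ead4b41b8a089d393d30b4a822a84558c81616af47600695a1900c5948a7a82830419467956d20c8ca555329ecf282e26a3444a30ae4f519cab4a1359d6ccce5388c5a8821516620edc88ca428184bce6ba90352147086b43638ad0005b2bb12516a99718e96dc708a5ca521611338000db6d6b825ab442ad4052d185823b39a238620203644431c6b209c39c15b186d16c35d6104642ea2804ddaaaf5d9aa1c65b983c7675b4c8b942241906cd88940019104bc41ad4b8c41ed09496205c91bac174ce8cee4cd494b612066f290162c710780073485d98cabd49030555984aa3c2e2d139266ec51133ad9d437568ac868aa4189b2166028e969cdc14ad5664632b1048cd768570d69c3243472a49611466458cca4db28dd09920d9418c624371473416566d9b452ea464b08a341d371d53485ad3651034aa6093841daddab0b26d641ddadd8831a43403588a2da76849ab8ea6b09c5064b03758a6d2d2eca268e28d8242c49808931455a8498d4d6304af4835aa44e3d40cdac30805d1b4d4d62ba9671a54ae4749a344b0241731ba400000000000000000000000000000000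000000000000000000000000000000000002d7543542abc26ac59904b6000000000000000000000000000000000000000000000c8847429ed437518f3b290611a428b34b1351b642bcccac05044f2ad254d41835854ed04606598c696ea771b8661e42e01185654a072a06ce426d37193423315b60b68b973496344636cd2c292011341b120aaee0b08b5c1ab62c254934e08243b0110c0e1aabab5821a0d32c54cc205b19a39e0f36d820353114000000004a85425cb5b561000000025c5ac5900000000ec9dcea748ce641ad96693d522a841b5b09a830c9a42e9cec09ac12cb0651baea90b6e29ba54310d6bd8c9330a9703661592123199a5338011190a262a6b20003515326880dad44d932b99dc832160ea81550446d1a66b1ad41146c266e55aca3585d5675d6647adb132157765825aca1c9ac069329a70b093b5830ceb7a306088d248125d1205853562270e16ec60366d01262b5c00c03450c45ec219615400008368c5caad62b5e3a10e88a1c0dc18d4e3980000000b4305a5bd66cdac49c292b50012213582a54ab1180a2d692166ce219858a810d64ca20916b75563530b06e76443476517412ead3593040a60d24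b9027464b990346a8609bd6aaf3b65d146c2081c564e26c598342dca4c0584e5916339216994a615810ece612c586475b9379bc44569681da5469cd0c953083526204008ead9468311b0440687560eab2c154733d4ba5680d48cd08ce962ec558ce3730590a97285a1a1c3024a838c56ac315089b67b5b14c986f237411c35860c95159c8c9358076acc025730c23990ca4370255370b947580865037212a104ea19235293a8a7815540eb0c31ab318449d6032d0725004511858f25a809ec130115010adb42a6441da6371462b2c189a81a31608a30669818cc01699262a48c350483b4b416ac35c910049d80a9074d845052404120d88a8a225d3481121bd0d4894c849a061a964dbc4594e82633029680ca1549482c719a75ac52c66ea5984d8031a053a34352f68e948e031cd44e83a8c0a033c8e2d63a2085ceec84ba51702c6222234244ae5d9b35c422d4c22930160289a26e3ada068158e8628b02b12989a887268e14d2d0acb0b98b1ab9b1902ad549742d4e75924a9a1510625)]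
noncomputable def c7_9874_1 : List Nat := [(nat_lit 0x16061446688925d78dc8564d56a2160dea9ca1ea32c8cc934639a460aa4e894a84a2862b950980b6e31bcec516298352d980e8d1bc20b2c65114523140e6e8b0809496d0ea0a639338acf0088c2e22b5101b178a46b9b33704e6340a7001b41e4ab783343b71a5c728912550b089922343a098d941cdb592a6112c42bda054a790a72666560d4a1ae6268251454766dcd1d901541650a3102266ebaaca809b64a24b723aca10e01a7846034a6ce2366d35858babcdc6742aa635618b8d873918daa726366b1e94838a55640862655652086ad0c26a6e93710eaa5819d07335dd5814ed89b200a4503a6c2863ae60cb9334081a16cd462db769aab248665675d05280cf1189b5d90c4a2a2429d6a00e18b6)]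
noncomputable def T7_9874 : Op := Op.mk (nat_lit 67)
 (Tr.nd (nat_lit 148) (nat_lit 1) (nat_lit 23) (nat_lit 2439) c7_9874_0
 (Tr.nd (nat_lit 65) (nat_lit 10) (nat_lit 3) (nat_lit 1155) c7_9874_0
 (Tr.nd (nat_lit 49) (nat_lit 1) (nat_lit 100) (nat_lit 224) c7_9874_0
 (Tr.nd (nat_lit 9) (nat_lit 1) (nat_lit 7) (nat_lit 183) c7_9874_0
 (Tr.nd (nat_lit 7) (nat_lit 1) (nat_lit 61) (nat_lit 47) c7_9874_0
 (Tr.nd (nat_lit 1) (nat_lit 1) (nat_lit 24) (nat_lit 23) c7_9874_0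
 (Tr.nd (nat_lit 0) (nat_lit 1) (nat_lit 23) (nat_lit 0) c7_9874_0
 Tr.lf Tr.lf) Tr.lf) (Tr.nd (nat_lit 8) (nat_lit 1) (nat_lit 75) (nat_lit 108) c7_9874_0
 Tr.lf Tr.lf)) (Tr.nd (nat_lit 16) (nat_lit 2) (nat_lit 3) (nat_lit 214) c7_9874_0
 (Tr.nd (nat_lit 15) (nat_lit 1) (nat_lit 24) (nat_lit 190) c7_9874_0
 Tr.lf Tr.lf) (Tr.nd (nat_lit 22) (nat_lit 1) (nat_lit 4) (nat_lit 220) c7_9874_0
 Tr.lf Tr.lf))) (Tr.nd (nat_lit 57) (nat_lit 3) (nat_lit 61) (nat_lit 727) c7_9874_0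
 (Tr.nd (nat_lit 51) (nat_lit 1) (nat_lit 11) (nat_lit 440) c7_9874_0
 (Tr.nd (nat_lit 50) (nat_lit 1) (nat_lit 116) (nat_lit 324) c7_9874_0
 Tr.lf Tr.lf) (Tr.nd (nat_lit 56) (nat_lit 1) (nat_lit 276) (nat_lit 451) c7_9874_0
 Tr.lf Tr.lf)) (Tr.nd (nat_lit 63) (nat_lit 1) (nat_lit 100) (nat_lit 940) c7_9874_0
 (Tr.nd (nat_lit 58) (nat_lit 5) (nat_lit 6) (nat_lit 910) c7_9874_0
 Tr.lf Tr.lf) (Tr.nd (nat_lit 64) (nat_lit 5) (nat_lit 23) (nat_lit 1040) c7_9874_0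
 Tr.lf Tr.lf)))) (Tr.nd (nat_lit 112) (nat_lit 2) (nat_lit 63) (nat_lit 1722) c7_9874_0
 (Tr.nd (nat_lit 100) (nat_lit 2) (nat_lit 7) (nat_lit 1299) c7_9874_0
 (Tr.nd (nat_lit 71) (nat_lit 5) (nat_lit 6) (nat_lit 1208) c7_9874_0
 (Tr.nd (nat_lit 70) (nat_lit 1) (nat_lit 23) (nat_lit 1185) c7_9874_0
 Tr.lf Tr.lf) (Tr.nd (nat_lit 99) (nat_lit 1) (nat_lit 61) (nat_lit 1238) c7_9874_0
 Tr.lf Tr.lf)) (Tr.nd (nat_lit 106) (nat_lit 5) (nat_lit 37) (nat_lit 1467) c7_9874_0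
 (Tr.nd (nat_lit 105) (nat_lit 1) (nat_lit 154) (nat_lit 1313) c7_9874_0
 Tr.lf Tr.lf) (Tr.nd (nat_lit 107) (nat_lit 10) (nat_lit 7) (nat_lit 1652) c7_9874_0
 Tr.lf Tr.lf))) (Tr.nd (nat_lit 120) (nat_lit 17) (nat_lit 5) (nat_lit 2262) c7_9874_0
 (Tr.nd (nat_lit 114) (nat_lit 30) (nat_lit 7) (nat_lit 2018) c7_9874_0
 (Tr.nd (nat_lit 113) (nat_lit 10) (nat_lit 17) (nat_lit 1848) c7_9874_0
 Tr.lf Tr.lf) (Tr.nd (nat_lit 119) (nat_lit 2) (nat_lit 17) (nat_lit 2228) c7_9874_0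
 Tr.lf Tr.lf)) (Tr.nd (nat_lit 126) (nat_lit 2) (nat_lit 3) (nat_lit 2410) c7_9874_0
 (Tr.nd (nat_lit 121) (nat_lit 63) (nat_lit 1) (nat_lit 2347) c7_9874_0
 Tr.lf Tr.lf) (Tr.nd (nat_lit 127) (nat_lit 23) (nat_lit 1) (nat_lit 2416) c7_9874_0
 Tr.lf Tr.lf))))) (Tr.nd (nat_lit 211) (nat_lit 23) (nat_lit 5) (nat_lit 3557) c7_9874_0
 (Tr.nd (nat_lit 168) (nat_lit 4) (nat_lit 11) (nat_lit 3008) c7_9874_0
 (Tr.nd (nat_lit 156) (nat_lit 17) (nat_lit 2) (nat_lit 2616) c7_9874_0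
 (Tr.nd (nat_lit 154) (nat_lit 1) (nat_lit 63) (nat_lit 2468) c7_9874_0
 (Tr.nd (nat_lit 149) (nat_lit 2) (nat_lit 3) (nat_lit 2462) c7_9874_0
 Tr.lf Tr.lf) (Tr.nd (nat_lit 155) (nat_lit 5) (nat_lit 17) (nat_lit 2531) c7_9874_0
 Tr.lf Tr.lf)) (Tr.nd (nat_lit 162) (nat_lit 17) (nat_lit 10) (nat_lit 2712) c7_9874_0
 (Tr.nd (nat_lit 161) (nat_lit 2) (nat_lit 31) (nat_lit 2650) c7_9874_0
 Tr.lf Tr.lf) (Tr.nd (nat_lit 163) (nat_lit 63) (nat_lit 2) (nat_lit 2882) c7_9874_0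
 Tr.lf Tr.lf))) (Tr.nd (nat_lit 176) (nat_lit 61) (nat_lit 1) (nat_lit 3421) c7_9874_0
 (Tr.nd (nat_lit 170) (nat_lit 154) (nat_lit 1) (nat_lit 3237) c7_9874_0
 (Tr.nd (nat_lit 169) (nat_lit 37) (nat_lit 5) (nat_lit 3052) c7_9874_0
 Tr.lf Tr.lf) (Tr.nd (nat_lit 175) (nat_lit 6) (nat_lit 5) (nat_lit 3391) c7_9874_0
 Tr.lf Tr.lf)) (Tr.nd (nat_lit 205) (nat_lit 23) (nat_lit 1) (nat_lit 3512) c7_9874_0
 (Tr.nd (nat_lit 204) (nat_lit 5) (nat_lit 6) (nat_lit 3482) c7_9874_0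
 Tr.lf Tr.lf) (Tr.nd (nat_lit 210) (nat_lit 2) (nat_lit 11) (nat_lit 3535) c7_9874_0
 Tr.lf Tr.lf)))) (Tr.nd (nat_lit 253) (nat_lit 4) (nat_lit 1) (nat_lit 503) c7_9874_1
 (Tr.nd (nat_lit 219) (nat_lit 276) (nat_lit 1) (nat_lit 0) c7_9874_1
 (Tr.nd (nat_lit 217) (nat_lit 6) (nat_lit 5) (nat_lit 3772) c7_9874_0
 (Tr.nd (nat_lit 212) (nat_lit 100) (nat_lit 1) (nat_lit 3672) c7_9874_0
 Tr.lf Tr.lf) (Tr.nd (nat_lit 218) (nat_lit 61) (nat_lit 3) (nat_lit 3802) c7_9874_0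
 Tr.lf Tr.lf)) (Tr.nd (nat_lit 225) (nat_lit 116) (nat_lit 1) (nat_lit 287) c7_9874_1
 (Tr.nd (nat_lit 224) (nat_lit 11) (nat_lit 1) (nat_lit 276) c7_9874_1
 Tr.lf Tr.lf) (Tr.nd (nat_lit 226) (nat_lit 100) (nat_lit 1) (nat_lit 403) c7_9874_1
 Tr.lf Tr.lf))) (Tr.nd (nat_lit 267) (nat_lit 75) (nat_lit 1) (nat_lit 544) c7_9874_1
 (Tr.nd (nat_lit 260) (nat_lit 24) (nat_lit 1) (nat_lit 513) c7_9874_1
 (Tr.nd (nat_lit 259) (nat_lit 2) (nat_lit 3) (nat_lit 507) c7_9874_1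
 Tr.lf Tr.lf) (Tr.nd (nat_lit 266) (nat_lit 7) (nat_lit 1) (nat_lit 537) c7_9874_1
 Tr.lf Tr.lf)) (Tr.nd (nat_lit 274) (nat_lit 24) (nat_lit 1) (nat_lit 680) c7_9874_1
 (Tr.nd (nat_lit 268) (nat_lit 61) (nat_lit 1) (nat_lit 619) c7_9874_1
 Tr.lf Tr.lf) (Tr.nd (nat_lit 275) (nat_lit 23) (nat_lit 1) (nat_lit 704) c7_9874_1
 Tr.lf Tr.lf))))))

noncomputable def c7_9826_0 : List Nat := [(nat_lit 0x180c120b8265c4292ee3a5aac36a0e5310d918044642dc90a262c5d12c406b20683cdba0d95b740ac873348c44ba32c8b02528ad4b50599d98111532920d85302d360c0e312aa67a55163586cd8de616d8416941b0a9282500c10302c13d16b71b6e84438371d230d7494ac921b30250328732ca0205b11b4b7174ecca255120175922aa44d3c32c05924b292b0d88da855901e65401a3a6d0889314410ea00c480ce90d30bae3cee8e980b67229b6ebdb2000093c2578d46370dc040de0d39b6159331ac555e6da001cdd4ca098ca6d1a4e403000000000000006011126b5450b2d11805cc9b164f03aaa4ea214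54685b5d91c82a95e5460a0790cc22c224b0692189764768dc68036571d3012043354f64a878b4590c4809a100180a86ded524030838b46db24a175483584cc86803a63b3983a05063832c2988c301c2a96c75402c929b34170d75152c1cd6d7514ea71a9629920844c002db0b6a864a000132565189a456cc8cbc702eac6b21946ca55994123736982504acc201d510b50d0a8a0c1422683086b22a7089e428d95cc24b4806ca35581ae60610026664819531446a8d00b62dc0d9d854f54d07425aaa44033d039188236c6b183116ee0c10121691a8573d6158c80442a39436e3400c930ccca8dd8ed6de2ac45639e00833321a8566f2681a8129e4336e1cb242c182362b5eb2236e01272c2a3721214170d018801b6865398806b46869b3355c5b4666c16a8ad0d98426e4b60f2560bb0d953363b58b6319b62770230404c0c52b11b7a039ca0baee9020218c08653a3060582ac4b60750c8421cc6c3000242d0935759163c44cdb81d8a11a0086046ad4b4b87652ec76873653506324830c9634e9b05810b61090f5ba4805b76bb41ae0a6795369d2a48c845ae200d85c0b4d0240e95a00000000000000000000000000000000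000000000000000000000000000000000001d2c5b0163075299e33338a000000000000000000000000000000000000000000000d1635235259cc0a4816e301db45c8295e094641d4621a2f415b1b172825a101caa24c6d0a740f4d70130c4ad8231ba9486b043740ae14e28830ea72358c0cdd6a2cad254d179e828085584233302830075c80b984b602145562ac041b35002948b555a6a22010c26a80dd4a1d418344c4d12dae51b934ba5a4404000000052915364b4751a000000001ba0985e0000000298f0d490ad6ebb94990092536d93b5dd406654f1759af5004645a30612c035102db8b356e82069412b58052520234d114875040c0a7704b092c76182109d7ac14b640a8a19e8a02850448182ca673152d9aba1801221ae3b290138dcd8adac0c134864941941e0b3110c2acec5448e4aeda1388a305c4d57119aca525ea042a6590a280e104a54198091a4e6d160d045aade2004dbceaa1d3a12e8db4698cc00029585540d93369402f35b675b6d158b644358000000061a7486cd5c79b781c9a01942b19c821db3c48996d05cc2bb5d92631561a2895400cc4112ece484d53511628651125cb2d10010045978c580b00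7b049646c9ae181ae363180cd6d3adca66864210860224113506c2368836cc4cda6b3d9326516d4a352584904960329ea217244812d4733c216068d050d72644438bd2552c8ce81076d14d0eed5a3635ad50c75e0a233485b0a44ae002341a4b66d960768d05949095268181211114c110093990e2143cd07544eda5842b2e273254e81e604c411406939731861559628a84e542bd5256a073aa8cb359dc2570ecce06dd4e6dcadc8135052dd4c9c04901af6009ca6c928897426dd71b046884d30ac971552c9a922a0cda8a018d3191491ac8d41d75270a6c162da8e92baa9391af09022ca6f42b14a9d9909c994cd06f0b650e0b933302b2365234d9a6a906dbb07a1c0a062c0d05bc6b2b390c50a4c298158cab110eb609482852b62e1cd449483195acc29b4a4316570d036c0bcf361ecebbb4648669785d15b4dd02789b0b0b41692a620868c4acb728aaa9b71935a8ca62488e90989b081c48c9ac906a8a407a804880d42886ad48c85da549d8a842d28319d2c24c802d4d3d5a299)]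
noncomputable def c7_9826_1 : List Nat := [(nat_lit 0x5a29dcd356800b48335e0c236842a95a566d42c0dca982854880902e601a2a612c9ac09c420da84c99e38872c483b14bad6510a8bb4cd9732d53c0575889e6b27a290bad0d46669609736aebd986f3cc81b614c7650c1b36883c9d870912513c633b234220d825b8c072b0e44688348c50c8f22e9cd9148ca118984ecad14ad804562c5af6ca0b85265c0d0489684440b285b535b9390005852da2b85232b22d110d4320444368c69535ca766c259111e728ab2d9141970d73310022eb269166b474023380a5957502d962b46d4c61106b258ad8d085291492d1842dc69cc830a05255cae4885202c9958519ba9c941c63a12a56dab0f549115d271cf02e631c24ace656532838810d1aac4ace1a74a14)]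
noncomputable def T7_9826 : Op := Op.mk (nat_lit 67)
 (Tr.nd (nat_lit 148) (nat_lit 1) (nat_lit 23) (nat_lit 2439) c7_9826_0
 (Tr.nd (nat_lit 65) (nat_lit 10) (nat_lit 3) (nat_lit 1155) c7_9826_0
 (Tr.nd (nat_lit 49) (nat_lit 1) (nat_lit 100) (nat_lit 224) c7_9826_0
 (Tr.nd (nat_lit 9) (nat_lit 1) (nat_lit 7) (nat_lit 183) c7_9826_0
 (Tr.nd (nat_lit 7) (nat_lit 1) (nat_lit 61) (nat_lit 47) c7_9826_0
 (Tr.nd (nat_lit 1) (nat_lit 1) (nat_lit 24) (nat_lit 23) c7_9826_0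
 (Tr.nd (nat_lit 0) (nat_lit 1) (nat_lit 23) (nat_lit 0) c7_9826_0
 Tr.lf Tr.lf) Tr.lf) (Tr.nd (nat_lit 8) (nat_lit 1) (nat_lit 75) (nat_lit 108) c7_9826_0
 Tr.lf Tr.lf)) (Tr.nd (nat_lit 16) (nat_lit 2) (nat_lit 3) (nat_lit 214) c7_9826_0
 (Tr.nd (nat_lit 15) (nat_lit 1) (nat_lit 24) (nat_lit 190) c7_9826_0
 Tr.lf Tr.lf) (Tr.nd (nat_lit 22) (nat_lit 1) (nat_lit 4) (nat_lit 220) c7_9826_0
 Tr.lf Tr.lf))) (Tr.nd (nat_lit 57) (nat_lit 3) (nat_lit 61) (nat_lit 727) c7_9826_0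
 (Tr.nd (nat_lit 51) (nat_lit 1) (nat_lit 11) (nat_lit 440) c7_9826_0
 (Tr.nd (nat_lit 50) (nat_lit 1) (nat_lit 116) (nat_lit 324) c7_9826_0
 Tr.lf Tr.lf) (Tr.nd (nat_lit 56) (nat_lit 1) (nat_lit 276) (nat_lit 451) c7_9826_0
 Tr.lf Tr.lf)) (Tr.nd (nat_lit 63) (nat_lit 1) (nat_lit 100) (nat_lit 940) c7_9826_0
 (Tr.nd (nat_lit 58) (nat_lit 5) (nat_lit 6) (nat_lit 910) c7_9826_0
 Tr.lf Tr.lf) (Tr.nd (nat_lit 64) (nat_lit 5) (nat_lit 23) (nat_lit 1040) c7_9826_0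
 Tr.lf Tr.lf)))) (Tr.nd (nat_lit 112) (nat_lit 2) (nat_lit 63) (nat_lit 1722) c7_9826_0
 (Tr.nd (nat_lit 100) (nat_lit 2) (nat_lit 7) (nat_lit 1299) c7_9826_0
 (Tr.nd (nat_lit 71) (nat_lit 5) (nat_lit 6) (nat_lit 1208) c7_9826_0
 (Tr.nd (nat_lit 70) (nat_lit 1) (nat_lit 23) (nat_lit 1185) c7_9826_0
 Tr.lf Tr.lf) (Tr.nd (nat_lit 99) (nat_lit 1) (nat_lit 61) (nat_lit 1238) c7_9826_0
 Tr.lf Tr.lf)) (Tr.nd (nat_lit 106) (nat_lit 5) (nat_lit 37) (nat_lit 1467) c7_9826_0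
 (Tr.nd (nat_lit 105) (nat_lit 1) (nat_lit 154) (nat_lit 1313) c7_9826_0
 Tr.lf Tr.lf) (Tr.nd (nat_lit 107) (nat_lit 10) (nat_lit 7) (nat_lit 1652) c7_9826_0
 Tr.lf Tr.lf))) (Tr.nd (nat_lit 120) (nat_lit 17) (nat_lit 5) (nat_lit 2262) c7_9826_0
 (Tr.nd (nat_lit 114) (nat_lit 30) (nat_lit 7) (nat_lit 2018) c7_9826_0
 (Tr.nd (nat_lit 113) (nat_lit 10) (nat_lit 17) (nat_lit 1848) c7_9826_0
 Tr.lf Tr.lf) (Tr.nd (nat_lit 119) (nat_lit 2) (nat_lit 17) (nat_lit 2228) c7_9826_0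
 Tr.lf Tr.lf)) (Tr.nd (nat_lit 126) (nat_lit 2) (nat_lit 3) (nat_lit 2410) c7_9826_0
 (Tr.nd (nat_lit 121) (nat_lit 63) (nat_lit 1) (nat_lit 2347) c7_9826_0
 Tr.lf Tr.lf) (Tr.nd (nat_lit 127) (nat_lit 23) (nat_lit 1) (nat_lit 2416) c7_9826_0
 Tr.lf Tr.lf))))) (Tr.nd (nat_lit 211) (nat_lit 23) (nat_lit 5) (nat_lit 3557) c7_9826_0
 (Tr.nd (nat_lit 168) (nat_lit 4) (nat_lit 11) (nat_lit 3008) c7_9826_0
 (Tr.nd (nat_lit 156) (nat_lit 17) (nat_lit 2) (nat_lit 2616) c7_9826_0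
 (Tr.nd (nat_lit 154) (nat_lit 1) (nat_lit 63) (nat_lit 2468) c7_9826_0
 (Tr.nd (nat_lit 149) (nat_lit 2) (nat_lit 3) (nat_lit 2462) c7_9826_0
 Tr.lf Tr.lf) (Tr.nd (nat_lit 155) (nat_lit 5) (nat_lit 17) (nat_lit 2531) c7_9826_0
 Tr.lf Tr.lf)) (Tr.nd (nat_lit 162) (nat_lit 17) (nat_lit 10) (nat_lit 2712) c7_9826_0
 (Tr.nd (nat_lit 161) (nat_lit 2) (nat_lit 31) (nat_lit 2650) c7_9826_0
 Tr.lf Tr.lf) (Tr.nd (nat_lit 163) (nat_lit 63) (nat_lit 2) (nat_lit 2882) c7_9826_0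
 Tr.lf Tr.lf))) (Tr.nd (nat_lit 176) (nat_lit 61) (nat_lit 1) (nat_lit 3421) c7_9826_0
 (Tr.nd (nat_lit 170) (nat_lit 154) (nat_lit 1) (nat_lit 3237) c7_9826_0
 (Tr.nd (nat_lit 169) (nat_lit 37) (nat_lit 5) (nat_lit 3052) c7_9826_0
 Tr.lf Tr.lf) (Tr.nd (nat_lit 175) (nat_lit 6) (nat_lit 5) (nat_lit 3391) c7_9826_0
 Tr.lf Tr.lf)) (Tr.nd (nat_lit 205) (nat_lit 23) (nat_lit 1) (nat_lit 3512) c7_9826_0
 (Tr.nd (nat_lit 204) (nat_lit 5) (nat_lit 6) (nat_lit 3482) c7_9826_0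
 Tr.lf Tr.lf) (Tr.nd (nat_lit 210) (nat_lit 2) (nat_lit 11) (nat_lit 3535) c7_9826_0
 Tr.lf Tr.lf)))) (Tr.nd (nat_lit 253) (nat_lit 4) (nat_lit 1) (nat_lit 503) c7_9826_1
 (Tr.nd (nat_lit 219) (nat_lit 276) (nat_lit 1) (nat_lit 0) c7_9826_1
 (Tr.nd (nat_lit 217) (nat_lit 6) (nat_lit 5) (nat_lit 3772) c7_9826_0
 (Tr.nd (nat_lit 212) (nat_lit 100) (nat_lit 1) (nat_lit 3672) c7_9826_0
 Tr.lf Tr.lf) (Tr.nd (nat_lit 218) (nat_lit 61) (nat_lit 3) (nat_lit 3802) c7_9826_0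
 Tr.lf Tr.lf)) (Tr.nd (nat_lit 225) (nat_lit 116) (nat_lit 1) (nat_lit 287) c7_9826_1
 (Tr.nd (nat_lit 224) (nat_lit 11) (nat_lit 1) (nat_lit 276) c7_9826_1
 Tr.lf Tr.lf) (Tr.nd (nat_lit 226) (nat_lit 100) (nat_lit 1) (nat_lit 403) c7_9826_1
 Tr.lf Tr.lf))) (Tr.nd (nat_lit 267) (nat_lit 75) (nat_lit 1) (nat_lit 544) c7_9826_1
 (Tr.nd (nat_lit 260) (nat_lit 24) (nat_lit 1) (nat_lit 513) c7_9826_1
 (Tr.nd (nat_lit 259) (nat_lit 2) (nat_lit 3) (nat_lit 507) c7_9826_1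
 Tr.lf Tr.lf) (Tr.nd (nat_lit 266) (nat_lit 7) (nat_lit 1) (nat_lit 537) c7_9826_1
 Tr.lf Tr.lf)) (Tr.nd (nat_lit 274) (nat_lit 24) (nat_lit 1) (nat_lit 680) c7_9826_1
 (Tr.nd (nat_lit 268) (nat_lit 61) (nat_lit 1) (nat_lit 619) c7_9826_1
 Tr.lf Tr.lf) (Tr.nd (nat_lit 275) (nat_lit 23) (nat_lit 1) (nat_lit 704) c7_9826_1
 Tr.lf Tr.lf))))))

noncomputable def c7_9862_0 : List Nat := [(nat_lit 0x119ca31ab0263585d620d66dc42e045a2c2e32d195b0726b0900a6047398b618aae592c646b0a4316ec6800d089105010d0e44340e90dd42806352761ae1ab4535cdb554aec81a2d4c7224349aa547192e6099353616db6a1097046600d4528c060c355654912c9c96b7441a63631098f526995d7150920d0ba12d20c0ab20b31727a5b56d5e08149808b0a8ae56cd8eada05368b38a2c80833d4d51e840b41258063d5bd1b68115ab4ea8e84c51a72372000011cadcb89770275559351d9a48c440d767160f5523a184c26ab5694acb9a95a2c80000000000000b34968039365716550c2b5d38e893a0d4052008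f25a50b69a1764b213518405a9d36b5909948d95108a3886624d91adac96008b662b6eb51321170303272b5a01a583419314d635d8d4e6516b50a54328b5caa6c4d92aab46eb776d348f6826baec2a9a870c401c0194838d4c99ad73186b9b4435cd22c173431ca6d89ab2b9a83498b40000d87b3461add7a62aecc382891a08c29d55e35c349d0bab43436d51302f666b942258b0908ca4958bc83280c764740e0060246ae9355ccb26e794c1b2a354b1016564ae19c79b8cb62122e45a4db28672b90a68acb6b49c012ac1748060dc0992c32b4c818537206d46100d3bb224846b85ac6802221b10e40aab1d5cd6201c794223b599554c2c707481754b130ac9b35d6a2a63c10509212551724a458dd45a78654198ca8b6c6d51a890448b3c51da488282541131e0aa6e9a8b8e8a734a6231c5e83196545bc849613358623540d8054041c846dad4b31402611690134153522816b49da0506e888a48932020d22859b936e0588222203622a5432e84cb2059b2acb0e1332cb580ab448690d7b5762111b82cb1059736b4a8a1299915a4c271623612210d74cd22aa6692a211975262112800000000000000000000000000000000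000000000000000000000000000000000000e735d034d18dea6139279800000000000000000000000000000000000000000000002b04a49db6b2aa7018b594bc4c4034186d44ee2f4c0ea9968b704050ab26238b484d203c3160056a23574a4d0420d9ca9168144b39c64b4a3b03836d202ec2482e38ed6764c240c68acf6a5d458065cf121c76bb897b02832017a52762414d94dacc9464299d1066a34bc562e8b052e31640b3531d44346d4d48000000019c742c6363510a000000006c9b71100000002cc436ec11ac8c106b35a4bd6d7187a447634a11d505d65a7651d9690e1370166cda972764782dadb32d2a19902aa182f67562a182c54094c9a699a98aba12a2ce5b9e87173632c8691635806232816a275b743d9400325db702da50b0714502aca522d02edda637200c2a932592b334d90b3259c001a02a45694c71aed418a8b3aada00d0794414c594ec4f595236a75341a0c5722b98ca3dae00a8524f628000464d71972dc6ed4b2151237234e284cc55c680000000ee6c611c4ed2d16139a6b5ab295aa09649626c41ad989050da802a18d4871237669006a5ac12644521500accb0e8ab38f6798aa3aec349b9c260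729d3082b76c8d64a488baa984301c48aa40d0a1ac085db6c836a92d0d192594963624e365488c0e8cd849066e0a67a920502bc8ac9ccad446c7270a04d0000e330955b07132baebb620a029858215d8c08c13a2c3090214ea1b12d6b442434e2e5ba0cd57848e9c9e28694a96ec062842f263346e521c9c3b1d6ad0e46680ecd94ee136cc0ba23a018c4968c3c098e34d36db246310ccb8ec56836479ba9c525d23635d9d9739a4c6262ab695346a374544e8a6843486ca2422016791cdd59c856d8dda0bb020c21d4b36b510bcd0aed71139aa432f244c6d6871d44b005a032a85eb6d3836c6d198649b24ab11039588a31c99e6aaa605450d118614c509110a295065116a91686dec18c36498a54566d5282d3a816d7282b17324617812eec9daf04d9d92d1140a70b94602ea8e283b903a9a44ca3855ace44c1410aa8ec4842b4ae8752799a89c5b71ab2acc46e1412768b65cc2c030000033502093861b20002408000c0000c0012bd2126084c56591c800254aa915db6cc59b432e5)]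
noncomputable def c7_9862_1 : List Nat := [(nat_lit 0x1632c5a59d2db5d06ab1120091c965509821264cec000c000030008012000b61862482152c00000c0c1d9ab6f02ee3adda4c90192d252c37b0bac4a4141c88a9844aae241158bb518e2d01a6e216ac238816e5858cc688454c96c5b433b5adab2466614b467222c76d02e368895da5511a1a5b0c18d9b62d06a612720764c76355b92d428b06c4b1221420d66e0ce8602d08d94555337289a2d5845c99dd188ded6cdab329b937094b3cd381951daa4250b6b69272959641d6a5b2b50c41ea33cca9134ac88e496d0284c6ebb1d86475a95a9758c1910b2c71e00db8211b59816e4e8c71b0e85b12eae6adc910d5a9807aab8eda02250b65668ded950f66a984c19b11c8cc8450ec6f555869d846b70aa5)]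
noncomputable def T7_9862 : Op := Op.mk (nat_lit 67)
 (Tr.nd (nat_lit 148) (nat_lit 1) (nat_lit 23) (nat_lit 2439) c7_9862_0
 (Tr.nd (nat_lit 65) (nat_lit 10) (nat_lit 3) (nat_lit 1155) c7_9862_0
 (Tr.nd (nat_lit 49) (nat_lit 1) (nat_lit 100) (nat_lit 224) c7_9862_0
 (Tr.nd (nat_lit 9) (nat_lit 1) (nat_lit 7) (nat_lit 183) c7_9862_0
 (Tr.nd (nat_lit 7) (nat_lit 1) (nat_lit 61) (nat_lit 47) c7_9862_0
 (Tr.nd (nat_lit 1) (nat_lit 1) (nat_lit 24) (nat_lit 23) c7_9862_0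
 (Tr.nd (nat_lit 0) (nat_lit 1) (nat_lit 23) (nat_lit 0) c7_9862_0
 Tr.lf Tr.lf) Tr.lf) (Tr.nd (nat_lit 8) (nat_lit 1) (nat_lit 75) (nat_lit 108) c7_9862_0
 Tr.lf Tr.lf)) (Tr.nd (nat_lit 16) (nat_lit 2) (nat_lit 3) (nat_lit 214) c7_9862_0
 (Tr.nd (nat_lit 15) (nat_lit 1) (nat_lit 24) (nat_lit 190) c7_9862_0
 Tr.lf Tr.lf) (Tr.nd (nat_lit 22) (nat_lit 1) (nat_lit 4) (nat_lit 220) c7_9862_0
 Tr.lf Tr.lf))) (Tr.nd (nat_lit 57) (nat_lit 3) (nat_lit 61) (nat_lit 727) c7_9862_0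
 (Tr.nd (nat_lit 51) (nat_lit 1) (nat_lit 11) (nat_lit 440) c7_9862_0
 (Tr.nd (nat_lit 50) (nat_lit 1) (nat_lit 116) (nat_lit 324) c7_9862_0
 Tr.lf Tr.lf) (Tr.nd (nat_lit 56) (nat_lit 1) (nat_lit 276) (nat_lit 451) c7_9862_0
 Tr.lf Tr.lf)) (Tr.nd (nat_lit 63) (nat_lit 1) (nat_lit 100) (nat_lit 940) c7_9862_0
 (Tr.nd (nat_lit 58) (nat_lit 5) (nat_lit 6) (nat_lit 910) c7_9862_0
 Tr.lf Tr.lf) (Tr.nd (nat_lit 64) (nat_lit 5) (nat_lit 23) (nat_lit 1040) c7_9862_0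
 Tr.lf Tr.lf)))) (Tr.nd (nat_lit 112) (nat_lit 2) (nat_lit 63) (nat_lit 1722) c7_9862_0
 (Tr.nd (nat_lit 100) (nat_lit 2) (nat_lit 7) (nat_lit 1299) c7_9862_0
 (Tr.nd (nat_lit 71) (nat_lit 5) (nat_lit 6) (nat_lit 1208) c7_9862_0
 (Tr.nd (nat_lit 70) (nat_lit 1) (nat_lit 23) (nat_lit 1185) c7_9862_0
 Tr.lf Tr.lf) (Tr.nd (nat_lit 99) (nat_lit 1) (nat_lit 61) (nat_lit 1238) c7_9862_0
 Tr.lf Tr.lf)) (Tr.nd (nat_lit 106) (nat_lit 5) (nat_lit 37) (nat_lit 1467) c7_9862_0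
 (Tr.nd (nat_lit 105) (nat_lit 1) (nat_lit 154) (nat_lit 1313) c7_9862_0
 Tr.lf Tr.lf) (Tr.nd (nat_lit 107) (nat_lit 10) (nat_lit 7) (nat_lit 1652) c7_9862_0
 Tr.lf Tr.lf))) (Tr.nd (nat_lit 120) (nat_lit 17) (nat_lit 5) (nat_lit 2262) c7_9862_0
 (Tr.nd (nat_lit 114) (nat_lit 30) (nat_lit 7) (nat_lit 2018) c7_9862_0
 (Tr.nd (nat_lit 113) (nat_lit 10) (nat_lit 17) (nat_lit 1848) c7_9862_0
 Tr.lf Tr.lf) (Tr.nd (nat_lit 119) (nat_lit 2) (nat_lit 17) (nat_lit 2228) c7_9862_0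
 Tr.lf Tr.lf)) (Tr.nd (nat_lit 126) (nat_lit 2) (nat_lit 3) (nat_lit 2410) c7_9862_0
 (Tr.nd (nat_lit 121) (nat_lit 63) (nat_lit 1) (nat_lit 2347) c7_9862_0
 Tr.lf Tr.lf) (Tr.nd (nat_lit 127) (nat_lit 23) (nat_lit 1) (nat_lit 2416) c7_9862_0
 Tr.lf Tr.lf))))) (Tr.nd (nat_lit 211) (nat_lit 23) (nat_lit 5) (nat_lit 3557) c7_9862_0
 (Tr.nd (nat_lit 168) (nat_lit 4) (nat_lit 11) (nat_lit 3008) c7_9862_0
 (Tr.nd (nat_lit 156) (nat_lit 17) (nat_lit 2) (nat_lit 2616) c7_9862_0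
 (Tr.nd (nat_lit 154) (nat_lit 1) (nat_lit 63) (nat_lit 2468) c7_9862_0
 (Tr.nd (nat_lit 149) (nat_lit 2) (nat_lit 3) (nat_lit 2462) c7_9862_0
 Tr.lf Tr.lf) (Tr.nd (nat_lit 155) (nat_lit 5) (nat_lit 17) (nat_lit 2531) c7_9862_0
 Tr.lf Tr.lf)) (Tr.nd (nat_lit 162) (nat_lit 17) (nat_lit 10) (nat_lit 2712) c7_9862_0
 (Tr.nd (nat_lit 161) (nat_lit 2) (nat_lit 31) (nat_lit 2650) c7_9862_0
 Tr.lf Tr.lf) (Tr.nd (nat_lit 163) (nat_lit 63) (nat_lit 2) (nat_lit 2882) c7_9862_0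
 Tr.lf Tr.lf))) (Tr.nd (nat_lit 176) (nat_lit 61) (nat_lit 1) (nat_lit 3421) c7_9862_0
 (Tr.nd (nat_lit 170) (nat_lit 154) (nat_lit 1) (nat_lit 3237) c7_9862_0
 (Tr.nd (nat_lit 169) (nat_lit 37) (nat_lit 5) (nat_lit 3052) c7_9862_0
 Tr.lf Tr.lf) (Tr.nd (nat_lit 175) (nat_lit 6) (nat_lit 5) (nat_lit 3391) c7_9862_0
 Tr.lf Tr.lf)) (Tr.nd (nat_lit 205) (nat_lit 23) (nat_lit 1) (nat_lit 3512) c7_9862_0
 (Tr.nd (nat_lit 204) (nat_lit 5) (nat_lit 6) (nat_lit 3482) c7_9862_0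
 Tr.lf Tr.lf) (Tr.nd (nat_lit 210) (nat_lit 2) (nat_lit 11) (nat_lit 3535) c7_9862_0
 Tr.lf Tr.lf)))) (Tr.nd (nat_lit 253) (nat_lit 4) (nat_lit 1) (nat_lit 503) c7_9862_1
 (Tr.nd (nat_lit 219) (nat_lit 276) (nat_lit 1) (nat_lit 0) c7_9862_1
 (Tr.nd (nat_lit 217) (nat_lit 6) (nat_lit 5) (nat_lit 3772) c7_9862_0
 (Tr.nd (nat_lit 212) (nat_lit 100) (nat_lit 1) (nat_lit 3672) c7_9862_0
 Tr.lf Tr.lf) (Tr.nd (nat_lit 218) (nat_lit 61) (nat_lit 3) (nat_lit 3802) c7_9862_0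
 Tr.lf Tr.lf)) (Tr.nd (nat_lit 225) (nat_lit 116) (nat_lit 1) (nat_lit 287) c7_9862_1
 (Tr.nd (nat_lit 224) (nat_lit 11) (nat_lit 1) (nat_lit 276) c7_9862_1
 Tr.lf Tr.lf) (Tr.nd (nat_lit 226) (nat_lit 100) (nat_lit 1) (nat_lit 403) c7_9862_1
 Tr.lf Tr.lf))) (Tr.nd (nat_lit 267) (nat_lit 75) (nat_lit 1) (nat_lit 544) c7_9862_1
 (Tr.nd (nat_lit 260) (nat_lit 24) (nat_lit 1) (nat_lit 513) c7_9862_1
 (Tr.nd (nat_lit 259) (nat_lit 2) (nat_lit 3) (nat_lit 507) c7_9862_1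
 Tr.lf Tr.lf) (Tr.nd (nat_lit 266) (nat_lit 7) (nat_lit 1) (nat_lit 537) c7_9862_1
 Tr.lf Tr.lf)) (Tr.nd (nat_lit 274) (nat_lit 24) (nat_lit 1) (nat_lit 680) c7_9862_1
 (Tr.nd (nat_lit 268) (nat_lit 61) (nat_lit 1) (nat_lit 619) c7_9862_1
 Tr.lf Tr.lf) (Tr.nd (nat_lit 275) (nat_lit 23) (nat_lit 1) (nat_lit 704) c7_9862_1
 Tr.lf Tr.lf))))))

noncomputable def c7_8854_0 : List Nat := [(nat_lit 0x48d0aa6aa478b9212a68719a024ca750aa732b604b235d66ca491aa86bc214f2729990da9d323650e696b52439cd0490dcc5952742906880b4656d16c062d88a9a5b6c715519514aa85b804391ce19b0516800214203149cb4a286ec8a3d0974010464da5a48bd4c963709772109b5a146b185259400e9d70336cc2156a16989804346293ad2193b8acdc0262d622bc518cc1a134bcf14e5c726d505cccba1eb9012e4ae6d98ec1362710db2da3ac15b2a00000302f1a6b05db5a32385d65c2110f4343a49a25aacc2644aaf2460ba690062a48000000000000006699c05ac15c2842085c66834a722d40d1ac51c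d562199d6431324816b0b6b85cdac74179658e16c4068d58f0d3644b81890a9895a8a2387389388cd5c78ab735b23990107a891e12e043b0b789cd037600aba826c19e746a14b4539b4e92003a8b5615897588d89a635506ac2d8c4a0c1c95046975b858aed8ad3b0bb14e15a2d428a0000b911546a1632583161496cee7037549682d945dcb6852a9981b049b035a2c89bb016169e89dda4a9256bcd04d5b660c031695a31b721b48676875c9d2b6c698811a2555ad3748c1251dbac613b844b1bb271eca9b992494ddaed075a2340a535a60b82756cad726352b6dd29d5999886236589862d06b54e8508250a4656030722469363c1dca35720e9874a561a6956b6e36e8692c0000a72a0d0a9a313b52109b0731b160cb3ae6d156c0304241a8a6d96e203ba14f1893331258d5b454a23ad9a114ded21cd8066a8992144aa5188528a271c846dd61829902918ac323689a8070d8cb61d86205d05a5619102838b4430eb6e058e25146850a35128c90957420378c9b368a18db752196c2b5301b380b95474c650489214c36b637153050d25b8c39ad52bb05c0116ed48008ca540ac48c2800000000000000000000000000000000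0000000000000000000000000000000000029174561d5dca43284a57b40000000000000000000000000000000000000000000002d946e756b4676e38e464069873d9a203204223ade74dccacd5c8583648a8dc4f69614249ae4b2b8d36d0ed0d081906236d750899d950a9d08b52553770ba4a4cb5594a36c88dd1d56a15a3364ec4eb330385a4e91a815a708c46f5aac7866daad1564db529ecb1970789aa279b3198532010a2a56495c694d0b40000000ce4c8b2720d3ac300000001eb50d2a00000002849642442b706206722444c2906e6db4b0995301b53584818d560420e908b234929b422d6829301cb22b5cebaab6d256b935b9dd2dd18a01544d4976a4e6d40a43d70546385971c366738ee85469478c7051722744640c464ada619ca9cc02968c72cb322b9768cc76d1932125a060baf4303a9e28e4e602e52346914b8cc102146a800b1d0e6e0812543024d3510a59d44ad06955b0524d6299982818cbac0000cecc458296c96a3b491116e89714d96d83880000000cbd42b63da299c372cb51adda602b076b5ab6e4da358c6354ec816ca25e7a066158c1986ea0441a05b285b4b0cd12213232ce02cb220e5c284ed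2605ab26372c86e6524cda4b82002b26671495b145996268601881004ca20e130b48e68c52cc42bb08aebb1d1271445b5105ae971cb5393c1952366c835a548a385dd3641da24d6936cb694258449b2865cd176ac64a018a3256895b76c14a26209b80d05314888115d146313656f53ab10c1ad4d3152300826b80776472850d4c872718ca021b7a10c858d1ac1b4259753985871b76da1129153d6038e48ecf6aa9bb55848e29a10834744f26eb3129566ded086db660a591a571c688b506694ee756ada03310cc126869536a6ba64b50d5d2e25a823c1999418236b0102080664d898a81a10c42dc46132a6581181445c2f4100858b8ca300f60f058a16cd319b40d204993118b71018692e068c9119096999294e40d81a892182a13b5ac4024815d32328b8b45b6b6599b0152d1a4b064696b258d828e0e9441b9ca265a16046b41b6b4109b37602db10490591a020cd05034e83200127616804027030a3016c00c027124838a059896c00115021416512b5c2b6808000808724946049)]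
noncomputable def c7_8854_1 : List Nat := [(nat_lit 0x491859246088000089b231da94590460154000d9285908e20927120300364428c23120102d1b1240164585941d4638980d466ace49a6aa0696480000c94499854e54da86946b18a21b964b927210c9a5008d6de965bb65328ca2e435d009201c9dad0a8609289894858d89686d816052c291ac9860146ce07495956335403433503616c3160654b325a0901066e366bbaa715518a4e0ccaaa76e0eb28e8b3758d937590db316858ce04319ab08636968e05068d3950a94c592072b471b4a323050c950b19440aa1161566814b25a0cda1b65a9ac39930943908a33496487444c2a5ab05a2549011ca2e534b6b569155cf5216baa2158286a0d98633433db342b9256cc19c44ed9858d18938154451c490)]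
noncomputable def T7_8854 : Op := Op.mk (nat_lit 67)
 (Tr.nd (nat_lit 148) (nat_lit 1) (nat_lit 23) (nat_lit 2439) c7_8854_0
 (Tr.nd (nat_lit 65) (nat_lit 10) (nat_lit 3) (nat_lit 1155) c7_8854_0
 (Tr.nd (nat_lit 49) (nat_lit 1) (nat_lit 100) (nat_lit 224) c7_8854_0
 (Tr.nd (nat_lit 9) (nat_lit 1) (nat_lit 7) (nat_lit 183) c7_8854_0
 (Tr.nd (nat_lit 7) (nat_lit 1) (nat_lit 61) (nat_lit 47) c7_8854_0
 (Tr.nd (nat_lit 1) (nat_lit 1) (nat_lit 24) (nat_lit 23) c7_8854_0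
 (Tr.nd (nat_lit 0) (nat_lit 1) (nat_lit 23) (nat_lit 0) c7_8854_0
 Tr.lf Tr.lf) Tr.lf) (Tr.nd (nat_lit 8) (nat_lit 1) (nat_lit 75) (nat_lit 108) c7_8854_0
 Tr.lf Tr.lf)) (Tr.nd (nat_lit 16) (nat_lit 2) (nat_lit 3) (nat_lit 214) c7_8854_0
 (Tr.nd (nat_lit 15) (nat_lit 1) (nat_lit 24) (nat_lit 190) c7_8854_0
 Tr.lf Tr.lf) (Tr.nd (nat_lit 22) (nat_lit 1) (nat_lit 4) (nat_lit 220) c7_8854_0
 Tr.lf Tr.lf))) (Tr.nd (nat_lit 57) (nat_lit 3) (nat_lit 61) (nat_lit 727) c7_8854_0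
 (Tr.nd (nat_lit 51) (nat_lit 1) (nat_lit 11) (nat_lit 440) c7_8854_0
 (Tr.nd (nat_lit 50) (nat_lit 1) (nat_lit 116) (nat_lit 324) c7_8854_0
 Tr.lf Tr.lf) (Tr.nd (nat_lit 56) (nat_lit 1) (nat_lit 276) (nat_lit 451) c7_8854_0
 Tr.lf Tr.lf)) (Tr.nd (nat_lit 63) (nat_lit 1) (nat_lit 100) (nat_lit 940) c7_8854_0
 (Tr.nd (nat_lit 58) (nat_lit 5) (nat_lit 6) (nat_lit 910) c7_8854_0
 Tr.lf Tr.lf) (Tr.nd (nat_lit 64) (nat_lit 5) (nat_lit 23) (nat_lit 1040) c7_8854_0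
 Tr.lf Tr.lf)))) (Tr.nd (nat_lit 112) (nat_lit 2) (nat_lit 63) (nat_lit 1722) c7_8854_0
 (Tr.nd (nat_lit 100) (nat_lit 2) (nat_lit 7) (nat_lit 1299) c7_8854_0
 (Tr.nd (nat_lit 71) (nat_lit 5) (nat_lit 6) (nat_lit 1208) c7_8854_0
 (Tr.nd (nat_lit 70) (nat_lit 1) (nat_lit 23) (nat_lit 1185) c7_8854_0
 Tr.lf Tr.lf) (Tr.nd (nat_lit 99) (nat_lit 1) (nat_lit 61) (nat_lit 1238) c7_8854_0
 Tr.lf Tr.lf)) (Tr.nd (nat_lit 106) (nat_lit 5) (nat_lit 37) (nat_lit 1467) c7_8854_0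
 (Tr.nd (nat_lit 105) (nat_lit 1) (nat_lit 154) (nat_lit 1313) c7_8854_0
 Tr.lf Tr.lf) (Tr.nd (nat_lit 107) (nat_lit 10) (nat_lit 7) (nat_lit 1652) c7_8854_0
 Tr.lf Tr.lf))) (Tr.nd (nat_lit 120) (nat_lit 17) (nat_lit 5) (nat_lit 2262) c7_8854_0
 (Tr.nd (nat_lit 114) (nat_lit 30) (nat_lit 7) (nat_lit 2018) c7_8854_0
 (Tr.nd (nat_lit 113) (nat_lit 10) (nat_lit 17) (nat_lit 1848) c7_8854_0
 Tr.lf Tr.lf) (Tr.nd (nat_lit 119) (nat_lit 2) (nat_lit 17) (nat_lit 2228) c7_8854_0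
 Tr.lf Tr.lf)) (Tr.nd (nat_lit 126) (nat_lit 2) (nat_lit 3) (nat_lit 2410) c7_8854_0
 (Tr.nd (nat_lit 121) (nat_lit 63) (nat_lit 1) (nat_lit 2347) c7_8854_0
 Tr.lf Tr.lf) (Tr.nd (nat_lit 127) (nat_lit 23) (nat_lit 1) (nat_lit 2416) c7_8854_0
 Tr.lf Tr.lf))))) (Tr.nd (nat_lit 211) (nat_lit 23) (nat_lit 5) (nat_lit 3557) c7_8854_0
 (Tr.nd (nat_lit 168) (nat_lit 4) (nat_lit 11) (nat_lit 3008) c7_8854_0
 (Tr.nd (nat_lit 156) (nat_lit 17) (nat_lit 2) (nat_lit 2616) c7_8854_0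
 (Tr.nd (nat_lit 154) (nat_lit 1) (nat_lit 63) (nat_lit 2468) c7_8854_0
 (Tr.nd (nat_lit 149) (nat_lit 2) (nat_lit 3) (nat_lit 2462) c7_8854_0
 Tr.lf Tr.lf) (Tr.nd (nat_lit 155) (nat_lit 5) (nat_lit 17) (nat_lit 2531) c7_8854_0
 Tr.lf Tr.lf)) (Tr.nd (nat_lit 162) (nat_lit 17) (nat_lit 10) (nat_lit 2712) c7_8854_0
 (Tr.nd (nat_lit 161) (nat_lit 2) (nat_lit 31) (nat_lit 2650) c7_8854_0
 Tr.lf Tr.lf) (Tr.nd (nat_lit 163) (nat_lit 63) (nat_lit 2) (nat_lit 2882) c7_8854_0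
 Tr.lf Tr.lf))) (Tr.nd (nat_lit 176) (nat_lit 61) (nat_lit 1) (nat_lit 3421) c7_8854_0
 (Tr.nd (nat_lit 170) (nat_lit 154) (nat_lit 1) (nat_lit 3237) c7_8854_0
 (Tr.nd (nat_lit 169) (nat_lit 37) (nat_lit 5) (nat_lit 3052) c7_8854_0
 Tr.lf Tr.lf) (Tr.nd (nat_lit 175) (nat_lit 6) (nat_lit 5) (nat_lit 3391) c7_8854_0
 Tr.lf Tr.lf)) (Tr.nd (nat_lit 205) (nat_lit 23) (nat_lit 1) (nat_lit 3512) c7_8854_0
 (Tr.nd (nat_lit 204) (nat_lit 5) (nat_lit 6) (nat_lit 3482) c7_8854_0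
 Tr.lf Tr.lf) (Tr.nd (nat_lit 210) (nat_lit 2) (nat_lit 11) (nat_lit 3535) c7_8854_0
 Tr.lf Tr.lf)))) (Tr.nd (nat_lit 253) (nat_lit 4) (nat_lit 1) (nat_lit 503) c7_8854_1
 (Tr.nd (nat_lit 219) (nat_lit 276) (nat_lit 1) (nat_lit 0) c7_8854_1
 (Tr.nd (nat_lit 217) (nat_lit 6) (nat_lit 5) (nat_lit 3772) c7_8854_0
 (Tr.nd (nat_lit 212) (nat_lit 100) (nat_lit 1) (nat_lit 3672) c7_8854_0
 Tr.lf Tr.lf) (Tr.nd (nat_lit 218) (nat_lit 61) (nat_lit 3) (nat_lit 3802) c7_8854_0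
 Tr.lf Tr.lf)) (Tr.nd (nat_lit 225) (nat_lit 116) (nat_lit 1) (nat_lit 287) c7_8854_1
 (Tr.nd (nat_lit 224) (nat_lit 11) (nat_lit 1) (nat_lit 276) c7_8854_1
 Tr.lf Tr.lf) (Tr.nd (nat_lit 226) (nat_lit 100) (nat_lit 1) (nat_lit 403) c7_8854_1
 Tr.lf Tr.lf))) (Tr.nd (nat_lit 267) (nat_lit 75) (nat_lit 1) (nat_lit 544) c7_8854_1
 (Tr.nd (nat_lit 260) (nat_lit 24) (nat_lit 1) (nat_lit 513) c7_8854_1
 (Tr.nd (nat_lit 259) (nat_lit 2) (nat_lit 3) (nat_lit 507) c7_8854_1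
 Tr.lf Tr.lf) (Tr.nd (nat_lit 266) (nat_lit 7) (nat_lit 1) (nat_lit 537) c7_8854_1
 Tr.lf Tr.lf)) (Tr.nd (nat_lit 274) (nat_lit 24) (nat_lit 1) (nat_lit 680) c7_8854_1
 (Tr.nd (nat_lit 268) (nat_lit 61) (nat_lit 1) (nat_lit 619) c7_8854_1
 Tr.lf Tr.lf) (Tr.nd (nat_lit 275) (nat_lit 23) (nat_lit 1) (nat_lit 704) c7_8854_1
 Tr.lf Tr.lf))))))

noncomputable def c7_9766_0 : List Nat := [(nat_lit 0x5d868f3471b74b1cda88ad8256553284584246eb5a355a18bba225e78097025ab8820b020a56ab185285a0315752c06a86841a337602206d0691103193a33635237417a09a590064c72a45c59daeba7628a78ac328e1609c0c37066460c8934eba5d848676d90cf4b4c12e12d7100422664e619b24c906b3445b69105da182cd99168e263c5cac6c5b79256d370a000935006d2a0352ed830e069d0ac6c39305a01ac96a08bc066514a606412001e8b28e30000566420222e6ba5af0b99c0949bcf05262a86468c1421089ad9c3525220b8c89000000000000000a3544b0ea72d0862dadac83c0c2c864a5350ee5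8d40185a7616ecba028023556858ad9e8010930e176e6f2a402b3634076492c45173829508c1abac7802ab4488a9a524cb2a4d7296d110ad2c1c37000ad82d66402019c8a98aadc7a640db6ace171a40e8b4ac86e27540e6aac5720761a8591c6026a80e6e12ad265bab2ee80698d483000034a1dd5e6eccd0a6015c934ca40684ee96d98c623ae25483164dbc9b0886a488395d620520153ce319a78b436115cd47b390859eb6256d83121e6ad09c458d644ac12c3b15a8509d836139a2005ae92b0175275704ae3d1e54c561acd8f1a590532aaaae5ac8dc704911a729760352d227385bc096326692c665307351a03595a2b380a25e6d6db40ae1706c19139820da89d8208abc85230449a097100b167370aa5c6916e68489826b626412523404eac2722892d3223469cc600ce80518471179029ba5386eccbb9ca732aeb692a6c42905d7548604d69100632349bcf2444658426b740832e029679b49c001d0a4e92304aeba89103b444db7545e363d597b531a35b442d93cd1d23708cf60528e604685a063919b5266580030c013d818a4b2650345605195928e44098d219c58c0549b00000000000000000000000000000000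000000000000000000000000000000000002c134cd46d820c8b421b9b0000000000000000000000000000000000000000000000c90835c9acca5837114e8b4e770566ca620ba956aa52496968436dcd52202ce30aac521551a5035a26690c8d0c2c0a74b364ee3b010975b94b468676d1301bd1979171d4b431dbb1c4b1042a052a5330cc02cb13a70cc68daca166a93511bc54d5c75a55812861d3738ac4a0a9b48b8f6710d520f340c79d166cc00000008289241a6a031ae00000002306b08d00000003275dd236ed54a2b06ab23677676a4b3c138122b0ab65555b1d02a7440885994b08a98e8601235a68a9a8d31d91ad1bb2080ea98165a8dbaa503b0364225e8881854ee311099235d8a1510339754c60623447a8a0e492d8898379100d59bd6b318690204cf647216ab8101113595b32b4cc202a72d58ba244b0598466164ddb430665881ac71505582405c641489b862dd25030221cc0b151d2219e6d22462c00010ab48ed838189699ae71c594cc0120908d1000000005055c17228dd066dc0ee808ceb6ae8dcc3442a8e94aa6227100263ab05d4c8491070b808e614cac66f22f4cc0ac829348cadd8496f0d1ad09408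0a3b60d6086d99e0b6d8b04cacd75a69484390b1a984624331c586473451ce415571e46d68c34c9ab63152a3b356490a789d65a8324014d10eda11b320a11b618a356650e16d025ea192210e136e89e01d926b196b2b86d2bc9809b694b0448a84282d129415066b58a3645dd01d0a26ec8b29019e4890d9ce9c2d2f27a90da94ba0a150d48ac9226780da26f1c4b54c6da52c11c6ee2341196c25156b2662b54991aaeb03b4d443634cf12c2ada35a365a45a954b309e3aa81c89e40548b4aa662503ad06c9570a338e88a49a368e629594cd4d72ce54190de46a299b4d95daf6af3b357209240545928d5ce8d1918e0d8b41789a06b2918282dc2a46aaa32c2c63cada64a463430da6cd6c0ab48a60a0b2ac53282401210d518d139e1160212c12e385b263106a998b442300e4d825a1b24405648c5511566af0114274990cd90ae96a393292822aabb2bd121166c56f197120120ac02001004400c0c4400189b6200a3104201803006e169355b2931389991a3653041265842a00c580d)]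
noncomputable def c7_9766_1 : List Nat := [(nat_lit 0x1489430223065a410436529c85a8d426cb5526d1a9030018081070a003b6818001508c00500040080cb4b12c556612840c654e7b339dda0b00ca411c134666028473483824ba54545439254014b60992180566e053285ab840e12d98e324326019419e253855c102404822d1caca221a2932a0374b69b0c5381a657ae14ab96266a1a148cb5d314898301098846b143506902506c129194a7586036e1215b19950ea6119a279b05856305c8768e9cb48540911653a901e106552c517668d5728320951616b90331ab66da8612e5b9cb5e0ae8d936c8a865380e410cb2cdd0919416c6ca15525acaabb9b42ca348ec4686cb4d12ea19b45a563bad7a23ab542700a5b0119a3aaa0ae751742932b19662cdc)]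
noncomputable def T7_9766 : Op := Op.mk (nat_lit 67)
 (Tr.nd (nat_lit 148) (nat_lit 1) (nat_lit 23) (nat_lit 2439) c7_9766_0
 (Tr.nd (nat_lit 65) (nat_lit 10) (nat_lit 3) (nat_lit 1155) c7_9766_0
 (Tr.nd (nat_lit 49) (nat_lit 1) (nat_lit 100) (nat_lit 224) c7_9766_0
 (Tr.nd (nat_lit 9) (nat_lit 1) (nat_lit 7) (nat_lit 183) c7_9766_0
 (Tr.nd (nat_lit 7) (nat_lit 1) (nat_lit 61) (nat_lit 47) c7_9766_0
 (Tr.nd (nat_lit 1) (nat_lit 1) (nat_lit 24) (nat_lit 23) c7_9766_0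
 (Tr.nd (nat_lit 0) (nat_lit 1) (nat_lit 23) (nat_lit 0) c7_9766_0
 Tr.lf Tr.lf) Tr.lf) (Tr.nd (nat_lit 8) (nat_lit 1) (nat_lit 75) (nat_lit 108) c7_9766_0
 Tr.lf Tr.lf)) (Tr.nd (nat_lit 16) (nat_lit 2) (nat_lit 3) (nat_lit 214) c7_9766_0
 (Tr.nd (nat_lit 15) (nat_lit 1) (nat_lit 24) (nat_lit 190) c7_9766_0
 Tr.lf Tr.lf) (Tr.nd (nat_lit 22) (nat_lit 1) (nat_lit 4) (nat_lit 220) c7_9766_0
 Tr.lf Tr.lf))) (Tr.nd (nat_lit 57) (nat_lit 3) (nat_lit 61) (nat_lit 727) c7_9766_0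
 (Tr.nd (nat_lit 51) (nat_lit 1) (nat_lit 11) (nat_lit 440) c7_9766_0
 (Tr.nd (nat_lit 50) (nat_lit 1) (nat_lit 116) (nat_lit 324) c7_9766_0
 Tr.lf Tr.lf) (Tr.nd (nat_lit 56) (nat_lit 1) (nat_lit 276) (nat_lit 451) c7_9766_0
 Tr.lf Tr.lf)) (Tr.nd (nat_lit 63) (nat_lit 1) (nat_lit 100) (nat_lit 940) c7_9766_0
 (Tr.nd (nat_lit 58) (nat_lit 5) (nat_lit 6) (nat_lit 910) c7_9766_0
 Tr.lf Tr.lf) (Tr.nd (nat_lit 64) (nat_lit 5) (nat_lit 23) (nat_lit 1040) c7_9766_0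
 Tr.lf Tr.lf)))) (Tr.nd (nat_lit 112) (nat_lit 2) (nat_lit 63) (nat_lit 1722) c7_9766_0
 (Tr.nd (nat_lit 100) (nat_lit 2) (nat_lit 7) (nat_lit 1299) c7_9766_0
 (Tr.nd (nat_lit 71) (nat_lit 5) (nat_lit 6) (nat_lit 1208) c7_9766_0
 (Tr.nd (nat_lit 70) (nat_lit 1) (nat_lit 23) (nat_lit 1185) c7_9766_0
 Tr.lf Tr.lf) (Tr.nd (nat_lit 99) (nat_lit 1) (nat_lit 61) (nat_lit 1238) c7_9766_0
 Tr.lf Tr.lf)) (Tr.nd (nat_lit 106) (nat_lit 5) (nat_lit 37) (nat_lit 1467) c7_9766_0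
 (Tr.nd (nat_lit 105) (nat_lit 1) (nat_lit 154) (nat_lit 1313) c7_9766_0
 Tr.lf Tr.lf) (Tr.nd (nat_lit 107) (nat_lit 10) (nat_lit 7) (nat_lit 1652) c7_9766_0
 Tr.lf Tr.lf))) (Tr.nd (nat_lit 120) (nat_lit 17) (nat_lit 5) (nat_lit 2262) c7_9766_0
 (Tr.nd (nat_lit 114) (nat_lit 30) (nat_lit 7) (nat_lit 2018) c7_9766_0
 (Tr.nd (nat_lit 113) (nat_lit 10) (nat_lit 17) (nat_lit 1848) c7_9766_0
 Tr.lf Tr.lf) (Tr.nd (nat_lit 119) (nat_lit 2) (nat_lit 17) (nat_lit 2228) c7_9766_0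
 Tr.lf Tr.lf)) (Tr.nd (nat_lit 126) (nat_lit 2) (nat_lit 3) (nat_lit 2410) c7_9766_0
 (Tr.nd (nat_lit 121) (nat_lit 63) (nat_lit 1) (nat_lit 2347) c7_9766_0
 Tr.lf Tr.lf) (Tr.nd (nat_lit 127) (nat_lit 23) (nat_lit 1) (nat_lit 2416) c7_9766_0
 Tr.lf Tr.lf))))) (Tr.nd (nat_lit 211) (nat_lit 23) (nat_lit 5) (nat_lit 3557) c7_9766_0
 (Tr.nd (nat_lit 168) (nat_lit 4) (nat_lit 11) (nat_lit 3008) c7_9766_0
 (Tr.nd (nat_lit 156) (nat_lit 17) (nat_lit 2) (nat_lit 2616) c7_9766_0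
 (Tr.nd (nat_lit 154) (nat_lit 1) (nat_lit 63) (nat_lit 2468) c7_9766_0
 (Tr.nd (nat_lit 149) (nat_lit 2) (nat_lit 3) (nat_lit 2462) c7_9766_0
 Tr.lf Tr.lf) (Tr.nd (nat_lit 155) (nat_lit 5) (nat_lit 17) (nat_lit 2531) c7_9766_0
 Tr.lf Tr.lf)) (Tr.nd (nat_lit 162) (nat_lit 17) (nat_lit 10) (nat_lit 2712) c7_9766_0
 (Tr.nd (nat_lit 161) (nat_lit 2) (nat_lit 31) (nat_lit 2650) c7_9766_0
 Tr.lf Tr.lf) (Tr.nd (nat_lit 163) (nat_lit 63) (nat_lit 2) (nat_lit 2882) c7_9766_0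
 Tr.lf Tr.lf))) (Tr.nd (nat_lit 176) (nat_lit 61) (nat_lit 1) (nat_lit 3421) c7_9766_0
 (Tr.nd (nat_lit 170) (nat_lit 154) (nat_lit 1) (nat_lit 3237) c7_9766_0
 (Tr.nd (nat_lit 169) (nat_lit 37) (nat_lit 5) (nat_lit 3052) c7_9766_0
 Tr.lf Tr.lf) (Tr.nd (nat_lit 175) (nat_lit 6) (nat_lit 5) (nat_lit 3391) c7_9766_0
 Tr.lf Tr.lf)) (Tr.nd (nat_lit 205) (nat_lit 23) (nat_lit 1) (nat_lit 3512) c7_9766_0
 (Tr.nd (nat_lit 204) (nat_lit 5) (nat_lit 6) (nat_lit 3482) c7_9766_0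
 Tr.lf Tr.lf) (Tr.nd (nat_lit 210) (nat_lit 2) (nat_lit 11) (nat_lit 3535) c7_9766_0
 Tr.lf Tr.lf)))) (Tr.nd (nat_lit 253) (nat_lit 4) (nat_lit 1) (nat_lit 503) c7_9766_1
 (Tr.nd (nat_lit 219) (nat_lit 276) (nat_lit 1) (nat_lit 0) c7_9766_1
 (Tr.nd (nat_lit 217) (nat_lit 6) (nat_lit 5) (nat_lit 3772) c7_9766_0
 (Tr.nd (nat_lit 212) (nat_lit 100) (nat_lit 1) (nat_lit 3672) c7_9766_0
 Tr.lf Tr.lf) (Tr.nd (nat_lit 218) (nat_lit 61) (nat_lit 3) (nat_lit 3802) c7_9766_0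
 Tr.lf Tr.lf)) (Tr.nd (nat_lit 225) (nat_lit 116) (nat_lit 1) (nat_lit 287) c7_9766_1
 (Tr.nd (nat_lit 224) (nat_lit 11) (nat_lit 1) (nat_lit 276) c7_9766_1
 Tr.lf Tr.lf) (Tr.nd (nat_lit 226) (nat_lit 100) (nat_lit 1) (nat_lit 403) c7_9766_1
 Tr.lf Tr.lf))) (Tr.nd (nat_lit 267) (nat_lit 75) (nat_lit 1) (nat_lit 544) c7_9766_1
 (Tr.nd (nat_lit 260) (nat_lit 24) (nat_lit 1) (nat_lit 513) c7_9766_1
 (Tr.nd (nat_lit 259) (nat_lit 2) (nat_lit 3) (nat_lit 507) c7_9766_1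
 Tr.lf Tr.lf) (Tr.nd (nat_lit 266) (nat_lit 7) (nat_lit 1) (nat_lit 537) c7_9766_1
 Tr.lf Tr.lf)) (Tr.nd (nat_lit 274) (nat_lit 24) (nat_lit 1) (nat_lit 680) c7_9766_1
 (Tr.nd (nat_lit 268) (nat_lit 61) (nat_lit 1) (nat_lit 619) c7_9766_1
 Tr.lf Tr.lf) (Tr.nd (nat_lit 275) (nat_lit 23) (nat_lit 1) (nat_lit 704) c7_9766_1
 Tr.lf Tr.lf))))))

noncomputable def c7_8806_0 : List Nat := [(nat_lit 0x4b5bcf52026b372da69741a5942978976eb2a940346716a1e205673b0b5652ad5614417526e844248480d08269ab7046e6f460aa1a58310d230144c818a331296bc906a68f1810792852241688528130163c7659d295b61c6c318b5a4ad69690ad84ad3063b8b19e8d2394355553072903aac4d8349b1385e34b898b58ca556009a79c79dd708ee2c24d4a1ea708b2a92a552da531b102498235080c06f495d2801524647746a80de62311808dd05ca380c00011ad067b44a310c3336e14558d061d7303716e84cdb5a42649db05856b616344d000000000000010422c6d9a4b8cdd2e5ac13552a5b16d08d00d68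2db1316c49d05d0d851229844926014246e38521d96a116a0cb3379c52d4459330acc86ced24e8b69a5a305235aa6c5541b6bce155ab709ac38bb300d8746a212d512c0136543b5991903505d1182a26b5a84817b1b84cf3af02f6c23245a584d118d10670a50e80e454936296776af3000acc4988f0311963b8155ecc26b2c09302c8a58b5754066c53964e21942d68b00c58aa0c396dc55a8b976991d6a30c576cb114e593944ae201ed346300ce698b4ac12011b8bb84b5aa112743260cd9ad50c923c63cf17886cc46c75689946e125c642a3819b15b0a0592090e3098515d83ace29538d2522a3064756b618cc0298192d60086e17b279e25e498ae15886f551e94d6f5ac5815800ab0a98216aee9922e17a386690da52d09d1245554dab078b7548edce00939b68610449809919b1c54424401c1cc76c9cb8bd193886cb486476c95b802a94d9372015c1802a855a0ea5852190c88337116a315003016a16a4b68d440d6a5b62b04996c1c4b999d635b63a31880a408ec9a14c992704955b2e5b29a444e6612cbc034629895a4cb1630a6d2a592078b756d707321008884a0a2d40d00000000000000000000000000000000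000000000000000000000000000000000001d39b6746e278b05231d8ea000000000000000000000000000000000000000000000ccdcf557631d0c0d992c029d90c8190e92697812a48090429a5d6c055ac8659c5d8d57a54b06890591558a8949c91961624b841208919306a9c9c25e72dcdc8b329a2726b190a756b4ea724b67440209740107a4a99cb0b0a4b1a23812b8ac72a5e42964d1736f2c9d0e0a868d458a0f6db54ce22dd539b288ab000000004c1c62234591aec00000001d42c6b300000000465a386cc98b379ab6d8de9ae28860cdb618a1499b068ea61335128510ca07a3d35152b4ca8431e39871d69c8b5382cd04a16a22d21accf5843b61b0b4356053803111680684dbda8785b34d94c49b5ec169507a4a0ab628f37a5845ca056cac1a31d4a42810924a0d14a20d8ac8ad29686a5b44c9809c09b3b2562ba0972d66a5c648043925acb09a98332dc8ca25ad2d024eda5a15b3a91a3ac309ca8a300004104794c9a2f691cccb844716a26a500e070000000019b702a9dd19095858b16a2c8dc2c3cac2883b5708585284455968ae3cde4d046c6d9892966a980ea29a4343aa076adb7290842690da955624588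6aaaa98b149ccf067570869d836464c93b524ed0e194e32da91af2d8e72810915a78258825480a19089dd1302ea2c49562c05322a009222215525785589c1aced99c6820288842aa44371005844d6e95684cc7307712f0b124f2459b258b42cdd95ace36ca2dc6bad14d86ed183a62ccb81bc9b196670899752c136430266eb31818d98c16e1340ed61c0ea51cc5a381c4826b95b1834017a6a8a71b8f16c54d66b3030a33988ba47494367b173170c2436a8ab34b490a015d1cc55180ad3b76675b5a36279a82b224b046b4876b75a700a4801b1679bc644b04328a80495ac16624116095d8cd10d8ad64a220043b306b684dc3348d9694a3484ac970b1b255a828ce915958a98a6d6229c905250f01b52d620b6ed31444c48a185b96a4d520818502a5d3b6d5240d116b940165a142651009b7716eea984748755883aa43305690b98308017512ac7466a01eb60063d098a832d8a00012760300f0c4320a36ec4008027400a375249a0900011426646c3294242b6801086193442183330)]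
noncomputable def c7_8806_1 : List Nat := [(nat_lit 0x342c60814d61820409b232046c3295a1314000048a49375288131202001dad2882c1c330301b1240173c6e9456e9949d8325d545863d63928894959b1d4765640d547594893141abab6756da0145a0460096d16b94148495db6359a84418824549b96b4608a50951436b6c8393376033164412c6839368e88e48b161c58c9d7a4c69376d3032084672182aaacc15a08d4ac120dc56b2dea6676d4a4095cc8c96252999b42432521cde509590b54116400b0e4b299b9956552488f46a5cca593d803936f4cebd54b60da8d348581ab35358a2ad646af274428e822da41989a58b08e932ea360e07a6428b9844043078da64806aa1c94018b74719ca1d1126a605c1e918aca9b686e8056845a571c469832)]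
noncomputable def T7_8806 : Op := Op.mk (nat_lit 67)
 (Tr.nd (nat_lit 148) (nat_lit 1) (nat_lit 23) (nat_lit 2439) c7_8806_0
 (Tr.nd (nat_lit 65) (nat_lit 10) (nat_lit 3) (nat_lit 1155) c7_8806_0
 (Tr.nd (nat_lit 49) (nat_lit 1) (nat_lit 100) (nat_lit 224) c7_8806_0
 (Tr.nd (nat_lit 9) (nat_lit 1) (nat_lit 7) (nat_lit 183) c7_8806_0
 (Tr.nd (nat_lit 7) (nat_lit 1) (nat_lit 61) (nat_lit 47) c7_8806_0
 (Tr.nd (nat_lit 1) (nat_lit 1) (nat_lit 24) (nat_lit 23) c7_8806_0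
 (Tr.nd (nat_lit 0) (nat_lit 1) (nat_lit 23) (nat_lit 0) c7_8806_0
 Tr.lf Tr.lf) Tr.lf) (Tr.nd (nat_lit 8) (nat_lit 1) (nat_lit 75) (nat_lit 108) c7_8806_0
 Tr.lf Tr.lf)) (Tr.nd (nat_lit 16) (nat_lit 2) (nat_lit 3) (nat_lit 214) c7_8806_0
 (Tr.nd (nat_lit 15) (nat_lit 1) (nat_lit 24) (nat_lit 190) c7_8806_0
 Tr.lf Tr.lf) (Tr.nd (nat_lit 22) (nat_lit 1) (nat_lit 4) (nat_lit 220) c7_8806_0
 Tr.lf Tr.lf))) (Tr.nd (nat_lit 57) (nat_lit 3) (nat_lit 61) (nat_lit 727) c7_8806_0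
 (Tr.nd (nat_lit 51) (nat_lit 1) (nat_lit 11) (nat_lit 440) c7_8806_0
 (Tr.nd (nat_lit 50) (nat_lit 1) (nat_lit 116) (nat_lit 324) c7_8806_0
 Tr.lf Tr.lf) (Tr.nd (nat_lit 56) (nat_lit 1) (nat_lit 276) (nat_lit 451) c7_8806_0
 Tr.lf Tr.lf)) (Tr.nd (nat_lit 63) (nat_lit 1) (nat_lit 100) (nat_lit 940) c7_8806_0
 (Tr.nd (nat_lit 58) (nat_lit 5) (nat_lit 6) (nat_lit 910) c7_8806_0
 Tr.lf Tr.lf) (Tr.nd (nat_lit 64) (nat_lit 5) (nat_lit 23) (nat_lit 1040) c7_8806_0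
 Tr.lf Tr.lf)))) (Tr.nd (nat_lit 112) (nat_lit 2) (nat_lit 63) (nat_lit 1722) c7_8806_0
 (Tr.nd (nat_lit 100) (nat_lit 2) (nat_lit 7) (nat_lit 1299) c7_8806_0
 (Tr.nd (nat_lit 71) (nat_lit 5) (nat_lit 6) (nat_lit 1208) c7_8806_0
 (Tr.nd (nat_lit 70) (nat_lit 1) (nat_lit 23) (nat_lit 1185) c7_8806_0
 Tr.lf Tr.lf) (Tr.nd (nat_lit 99) (nat_lit 1) (nat_lit 61) (nat_lit 1238) c7_8806_0
 Tr.lf Tr.lf)) (Tr.nd (nat_lit 106) (nat_lit 5) (nat_lit 37) (nat_lit 1467) c7_8806_0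
 (Tr.nd (nat_lit 105) (nat_lit 1) (nat_lit 154) (nat_lit 1313) c7_8806_0
 Tr.lf Tr.lf) (Tr.nd (nat_lit 107) (nat_lit 10) (nat_lit 7) (nat_lit 1652) c7_8806_0
 Tr.lf Tr.lf))) (Tr.nd (nat_lit 120) (nat_lit 17) (nat_lit 5) (nat_lit 2262) c7_8806_0
 (Tr.nd (nat_lit 114) (nat_lit 30) (nat_lit 7) (nat_lit 2018) c7_8806_0
 (Tr.nd (nat_lit 113) (nat_lit 10) (nat_lit 17) (nat_lit 1848) c7_8806_0
 Tr.lf Tr.lf) (Tr.nd (nat_lit 119) (nat_lit 2) (nat_lit 17) (nat_lit 2228) c7_8806_0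
 Tr.lf Tr.lf)) (Tr.nd (nat_lit 126) (nat_lit 2) (nat_lit 3) (nat_lit 2410) c7_8806_0
 (Tr.nd (nat_lit 121) (nat_lit 63) (nat_lit 1) (nat_lit 2347) c7_8806_0
 Tr.lf Tr.lf) (Tr.nd (nat_lit 127) (nat_lit 23) (nat_lit 1) (nat_lit 2416) c7_8806_0
 Tr.lf Tr.lf))))) (Tr.nd (nat_lit 211) (nat_lit 23) (nat_lit 5) (nat_lit 3557) c7_8806_0
 (Tr.nd (nat_lit 168) (nat_lit 4) (nat_lit 11) (nat_lit 3008) c7_8806_0
 (Tr.nd (nat_lit 156) (nat_lit 17) (nat_lit 2) (nat_lit 2616) c7_8806_0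
 (Tr.nd (nat_lit 154) (nat_lit 1) (nat_lit 63) (nat_lit 2468) c7_8806_0
 (Tr.nd (nat_lit 149) (nat_lit 2) (nat_lit 3) (nat_lit 2462) c7_8806_0
 Tr.lf Tr.lf) (Tr.nd (nat_lit 155) (nat_lit 5) (nat_lit 17) (nat_lit 2531) c7_8806_0
 Tr.lf Tr.lf)) (Tr.nd (nat_lit 162) (nat_lit 17) (nat_lit 10) (nat_lit 2712) c7_8806_0
 (Tr.nd (nat_lit 161) (nat_lit 2) (nat_lit 31) (nat_lit 2650) c7_8806_0
 Tr.lf Tr.lf) (Tr.nd (nat_lit 163) (nat_lit 63) (nat_lit 2) (nat_lit 2882) c7_8806_0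
 Tr.lf Tr.lf))) (Tr.nd (nat_lit 176) (nat_lit 61) (nat_lit 1) (nat_lit 3421) c7_8806_0
 (Tr.nd (nat_lit 170) (nat_lit 154) (nat_lit 1) (nat_lit 3237) c7_8806_0
 (Tr.nd (nat_lit 169) (nat_lit 37) (nat_lit 5) (nat_lit 3052) c7_8806_0
 Tr.lf Tr.lf) (Tr.nd (nat_lit 175) (nat_lit 6) (nat_lit 5) (nat_lit 3391) c7_8806_0
 Tr.lf Tr.lf)) (Tr.nd (nat_lit 205) (nat_lit 23) (nat_lit 1) (nat_lit 3512) c7_8806_0
 (Tr.nd (nat_lit 204) (nat_lit 5) (nat_lit 6) (nat_lit 3482) c7_8806_0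
 Tr.lf Tr.lf) (Tr.nd (nat_lit 210) (nat_lit 2) (nat_lit 11) (nat_lit 3535) c7_8806_0
 Tr.lf Tr.lf)))) (Tr.nd (nat_lit 253) (nat_lit 4) (nat_lit 1) (nat_lit 503) c7_8806_1
 (Tr.nd (nat_lit 219) (nat_lit 276) (nat_lit 1) (nat_lit 0) c7_8806_1
 (Tr.nd (nat_lit 217) (nat_lit 6) (nat_lit 5) (nat_lit 3772) c7_8806_0
 (Tr.nd (nat_lit 212) (nat_lit 100) (nat_lit 1) (nat_lit 3672) c7_8806_0
 Tr.lf Tr.lf) (Tr.nd (nat_lit 218) (nat_lit 61) (nat_lit 3) (nat_lit 3802) c7_8806_0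
 Tr.lf Tr.lf)) (Tr.nd (nat_lit 225) (nat_lit 116) (nat_lit 1) (nat_lit 287) c7_8806_1
 (Tr.nd (nat_lit 224) (nat_lit 11) (nat_lit 1) (nat_lit 276) c7_8806_1
 Tr.lf Tr.lf) (Tr.nd (nat_lit 226) (nat_lit 100) (nat_lit 1) (nat_lit 403) c7_8806_1
 Tr.lf Tr.lf))) (Tr.nd (nat_lit 267) (nat_lit 75) (nat_lit 1) (nat_lit 544) c7_8806_1
 (Tr.nd (nat_lit 260) (nat_lit 24) (nat_lit 1) (nat_lit 513) c7_8806_1
 (Tr.nd (nat_lit 259) (nat_lit 2) (nat_lit 3) (nat_lit 507) c7_8806_1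
 Tr.lf Tr.lf) (Tr.nd (nat_lit 266) (nat_lit 7) (nat_lit 1) (nat_lit 537) c7_8806_1
 Tr.lf Tr.lf)) (Tr.nd (nat_lit 274) (nat_lit 24) (nat_lit 1) (nat_lit 680) c7_8806_1
 (Tr.nd (nat_lit 268) (nat_lit 61) (nat_lit 1) (nat_lit 619) c7_8806_1
 Tr.lf Tr.lf) (Tr.nd (nat_lit 275) (nat_lit 23) (nat_lit 1) (nat_lit 704) c7_8806_1
 Tr.lf Tr.lf))))))

noncomputable def c7_9802_0 : List Nat := [(nat_lit 0x1c067adcd6aa4520a53c2a5b31aba2ad8481da0b266242573369b4a74a6a6d74a558d402e7b42414f501c869d26672c35cd551958800a49c2eda983156168ae3540319730aa8669941544167585722f61510d90cd32a59315dc10363d41b460e1aa92cc14b344c62ab2c26cf334caf13b2c219366e339b40d0426ee718d6448d70814290a11584d5ac59364cc452f2a5488973260d59b90a12631d2e1249c5cb50100902996a9b4ec02177380832c006d2900019172cd8319404ece3bb419354642598e2d0af097506264a734606ad856993115800000000000018180a615461d914c6c28233b4b8f20e04682c81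9bb5cb322d3c45910c908b50eea31bab436605b8db264c354ccb00cbb431655320f4d665818b56e48adc85d405a959325d8d89694da383cc1c266141933709452a0249235849c8064655195646a35b6aa4b53546d60c3d75d35774262795c153a416c924a4681ba58572a2e9a3c8632e0002c5904cf59a070b781571a73c022ed8a3c93422a99548c2385a56c4657090d491b7b300a89bb647953951ab1a9c0e0c36099218a075e67358da5ba06b1c81bca336daeb664d00b20042c426d85288088149a8268112958b92d20063296b6262c4616a394125e7ae7711330f08ae98131e312909d1e2d118884119ba81d84015d2acf3c0a0047a4474a491b272dcf06828290c839b6d10832602a87b0ab33433514c3c8136e055a64da52c970e83152cd83c9255489d13372206195522c54841daa8c221325352d59a904d986826aeeba8599173b867103b367402cda03b58c010595e6f42666f3b2880072ec4402e9a62dec428f0d5ea0bc85d75774130d2920dd2a66e8968141a8b9482a299646aacb305a1583975a841ab36690c1098d0868372295252adcc9e6cda5ca5840219048804bca900000000000000000000000000000000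000000000000000000000000000000000000baf146074400bdb6d6bd900000000000000000000000000000000000000000000002cb9888f18024806dd522ba444c834c2637505ec60d1b904a062892515956a24c1ce1920785d48ab60d40622cc2838018f2c9b86bd0331b94d1840e9a29506ae249c22d1a40cb183198b551258f40583abcdc2b0a4350a94a0dc73604acddd2acaed2495ba82a1bb8b5346d972586494a643008d690aa0132936800000006e522a36b85439e00000000c8ee6330000000311740067b5245c1639ba94226b1b8b15b083644cc9949d1aaa0b56d370c5ccc3a68ab1d61aaa30262b216c28694cadd235086c476ab25673425a2416421ec2958a2752f1cca9aa318016b5491bb94232d2e9985a2b2862d65819686a61ad25a75a03d82775385d58b940960a4a0e6995a58ed6f005914a11859c66d781146c1a2b63081402b22a30e83a436a0ddc039a344b508bac19d099c74b02c2a6b0980006ac35018762de5ac136366c009610447ab300000000084a1462e89c614c8ab1836044b66eb144e5bb224e56305c80c04b8cb30c701421d99955cb06c128c68a52e8a3161d706caa6a71bda43065b139d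86979ed0659550e829668859355318c2d22e729086ae86b2561a582d82a8d75d9a9559916946043921135a1348868b5cc339636c0ab1b5566d122523caeb7660a2e18608d0bb0840296a2eb33899cb11a671db4bc683b5c30bb626306b4a23ae07541d6a20a218148949276ead60752da9631ad4b3b694465428cd920a61a0ea9151a4692f589196cc2670325234629db7366aa85755d194a9a48b99d7154a6d64622cb4666e07a4b4826c754c9a4b5b884ceaad40dce408da96609d08612343c8cb5e2a4daacc1b2e92b965769006c55d6391e592d8a81922a9860b52338b5253af6c15ae2bb4c950200cc230251826488c036755aaa69346889b21db3550aae85368834308cb257558d8db1250a6608838d1a32d3b4592359080580d59329296c88242a5064cac88b965b50127482b459e575a904922d00e65950c0780005c0c1a2c71711b854451844aab9aaae97258e5037a58b38215ab00a070b92cf2ce899632070542592811474b00dd654ad89642b34b19d26a64502845655a680)]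
noncomputable def c7_9802_1 : List Nat := [(nat_lit 0x269d5914281416a935e0cd2e859296a565d480cd71402c96054462439682bcb3c96a310880ee460908583b6da4a6d6104c08118d2920e39d0de18961e143682d76b581855a3013292412b7559e53220809ab76596a0ac8b5844a848292d8922d65489408164e4945ad32e614e20a1a1a11276c1b955764b0a1113a01538480d60a519a694aa46f44ee69d971d946493860a0890533c620405056519300704a30d4b768a0aa825888e6498b546e9438d4a538e99895742d52aaac18e92752f6cf16242aa6c34812919038c041640c31eb05d034e6983705c900151a6c596502dd43620bd3389ab7424659202a3967916da6ec6f045481e8508a33109ae8e968d94514e24354e0662dd44559508c755730)]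
noncomputable def T7_9802 : Op := Op.mk (nat_lit 67)
 (Tr.nd (nat_lit 148) (nat_lit 1) (nat_lit 23) (nat_lit 2439) c7_9802_0
 (Tr.nd (nat_lit 65) (nat_lit 10) (nat_lit 3) (nat_lit 1155) c7_9802_0
 (Tr.nd (nat_lit 49) (nat_lit 1) (nat_lit 100) (nat_lit 224) c7_9802_0
 (Tr.nd (nat_lit 9) (nat_lit 1) (nat_lit 7) (nat_lit 183) c7_9802_0
 (Tr.nd (nat_lit 7) (nat_lit 1) (nat_lit 61) (nat_lit 47) c7_9802_0
 (Tr.nd (nat_lit 1) (nat_lit 1) (nat_lit 24) (nat_lit 23) c7_9802_0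
 (Tr.nd (nat_lit 0) (nat_lit 1) (nat_lit 23) (nat_lit 0) c7_9802_0
 Tr.lf Tr.lf) Tr.lf) (Tr.nd (nat_lit 8) (nat_lit 1) (nat_lit 75) (nat_lit 108) c7_9802_0
 Tr.lf Tr.lf)) (Tr.nd (nat_lit 16) (nat_lit 2) (nat_lit 3) (nat_lit 214) c7_9802_0
 (Tr.nd (nat_lit 15) (nat_lit 1) (nat_lit 24) (nat_lit 190) c7_9802_0
 Tr.lf Tr.lf) (Tr.nd (nat_lit 22) (nat_lit 1) (nat_lit 4) (nat_lit 220) c7_9802_0
 Tr.lf Tr.lf))) (Tr.nd (nat_lit 57) (nat_lit 3) (nat_lit 61) (nat_lit 727) c7_9802_0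
 (Tr.nd (nat_lit 51) (nat_lit 1) (nat_lit 11) (nat_lit 440) c7_9802_0
 (Tr.nd (nat_lit 50) (nat_lit 1) (nat_lit 116) (nat_lit 324) c7_9802_0
 Tr.lf Tr.lf) (Tr.nd (nat_lit 56) (nat_lit 1) (nat_lit 276) (nat_lit 451) c7_9802_0
 Tr.lf Tr.lf)) (Tr.nd (nat_lit 63) (nat_lit 1) (nat_lit 100) (nat_lit 940) c7_9802_0
 (Tr.nd (nat_lit 58) (nat_lit 5) (nat_lit 6) (nat_lit 910) c7_9802_0
 Tr.lf Tr.lf) (Tr.nd (nat_lit 64) (nat_lit 5) (nat_lit 23) (nat_lit 1040) c7_9802_0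
 Tr.lf Tr.lf)))) (Tr.nd (nat_lit 112) (nat_lit 2) (nat_lit 63) (nat_lit 1722) c7_9802_0
 (Tr.nd (nat_lit 100) (nat_lit 2) (nat_lit 7) (nat_lit 1299) c7_9802_0
 (Tr.nd (nat_lit 71) (nat_lit 5) (nat_lit 6) (nat_lit 1208) c7_9802_0
 (Tr.nd (nat_lit 70) (nat_lit 1) (nat_lit 23) (nat_lit 1185) c7_9802_0
 Tr.lf Tr.lf) (Tr.nd (nat_lit 99) (nat_lit 1) (nat_lit 61) (nat_lit 1238) c7_9802_0
 Tr.lf Tr.lf)) (Tr.nd (nat_lit 106) (nat_lit 5) (nat_lit 37) (nat_lit 1467) c7_9802_0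
 (Tr.nd (nat_lit 105) (nat_lit 1) (nat_lit 154) (nat_lit 1313) c7_9802_0
 Tr.lf Tr.lf) (Tr.nd (nat_lit 107) (nat_lit 10) (nat_lit 7) (nat_lit 1652) c7_9802_0
 Tr.lf Tr.lf))) (Tr.nd (nat_lit 120) (nat_lit 17) (nat_lit 5) (nat_lit 2262) c7_9802_0
 (Tr.nd (nat_lit 114) (nat_lit 30) (nat_lit 7) (nat_lit 2018) c7_9802_0
 (Tr.nd (nat_lit 113) (nat_lit 10) (nat_lit 17) (nat_lit 1848) c7_9802_0
 Tr.lf Tr.lf) (Tr.nd (nat_lit 119) (nat_lit 2) (nat_lit 17) (nat_lit 2228) c7_9802_0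
 Tr.lf Tr.lf)) (Tr.nd (nat_lit 126) (nat_lit 2) (nat_lit 3) (nat_lit 2410) c7_9802_0
 (Tr.nd (nat_lit 121) (nat_lit 63) (nat_lit 1) (nat_lit 2347) c7_9802_0
 Tr.lf Tr.lf) (Tr.nd (nat_lit 127) (nat_lit 23) (nat_lit 1) (nat_lit 2416) c7_9802_0
 Tr.lf Tr.lf))))) (Tr.nd (nat_lit 211) (nat_lit 23) (nat_lit 5) (nat_lit 3557) c7_9802_0
 (Tr.nd (nat_lit 168) (nat_lit 4) (nat_lit 11) (nat_lit 3008) c7_9802_0
 (Tr.nd (nat_lit 156) (nat_lit 17) (nat_lit 2) (nat_lit 2616) c7_9802_0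
 (Tr.nd (nat_lit 154) (nat_lit 1) (nat_lit 63) (nat_lit 2468) c7_9802_0
 (Tr.nd (nat_lit 149) (nat_lit 2) (nat_lit 3) (nat_lit 2462) c7_9802_0
 Tr.lf Tr.lf) (Tr.nd (nat_lit 155) (nat_lit 5) (nat_lit 17) (nat_lit 2531) c7_9802_0
 Tr.lf Tr.lf)) (Tr.nd (nat_lit 162) (nat_lit 17) (nat_lit 10) (nat_lit 2712) c7_9802_0
 (Tr.nd (nat_lit 161) (nat_lit 2) (nat_lit 31) (nat_lit 2650) c7_9802_0
 Tr.lf Tr.lf) (Tr.nd (nat_lit 163) (nat_lit 63) (nat_lit 2) (nat_lit 2882) c7_9802_0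
 Tr.lf Tr.lf))) (Tr.nd (nat_lit 176) (nat_lit 61) (nat_lit 1) (nat_lit 3421) c7_9802_0
 (Tr.nd (nat_lit 170) (nat_lit 154) (nat_lit 1) (nat_lit 3237) c7_9802_0
 (Tr.nd (nat_lit 169) (nat_lit 37) (nat_lit 5) (nat_lit 3052) c7_9802_0
 Tr.lf Tr.lf) (Tr.nd (nat_lit 175) (nat_lit 6) (nat_lit 5) (nat_lit 3391) c7_9802_0
 Tr.lf Tr.lf)) (Tr.nd (nat_lit 205) (nat_lit 23) (nat_lit 1) (nat_lit 3512) c7_9802_0
 (Tr.nd (nat_lit 204) (nat_lit 5) (nat_lit 6) (nat_lit 3482) c7_9802_0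
 Tr.lf Tr.lf) (Tr.nd (nat_lit 210) (nat_lit 2) (nat_lit 11) (nat_lit 3535) c7_9802_0
 Tr.lf Tr.lf)))) (Tr.nd (nat_lit 253) (nat_lit 4) (nat_lit 1) (nat_lit 503) c7_9802_1
 (Tr.nd (nat_lit 219) (nat_lit 276) (nat_lit 1) (nat_lit 0) c7_9802_1
 (Tr.nd (nat_lit 217) (nat_lit 6) (nat_lit 5) (nat_lit 3772) c7_9802_0
 (Tr.nd (nat_lit 212) (nat_lit 100) (nat_lit 1) (nat_lit 3672) c7_9802_0
 Tr.lf Tr.lf) (Tr.nd (nat_lit 218) (nat_lit 61) (nat_lit 3) (nat_lit 3802) c7_9802_0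
 Tr.lf Tr.lf)) (Tr.nd (nat_lit 225) (nat_lit 116) (nat_lit 1) (nat_lit 287) c7_9802_1
 (Tr.nd (nat_lit 224) (nat_lit 11) (nat_lit 1) (nat_lit 276) c7_9802_1
 Tr.lf Tr.lf) (Tr.nd (nat_lit 226) (nat_lit 100) (nat_lit 1) (nat_lit 403) c7_9802_1
 Tr.lf Tr.lf))) (Tr.nd (nat_lit 267) (nat_lit 75) (nat_lit 1) (nat_lit 544) c7_9802_1
 (Tr.nd (nat_lit 260) (nat_lit 24) (nat_lit 1) (nat_lit 513) c7_9802_1
 (Tr.nd (nat_lit 259) (nat_lit 2) (nat_lit 3) (nat_lit 507) c7_9802_1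
 Tr.lf Tr.lf) (Tr.nd (nat_lit 266) (nat_lit 7) (nat_lit 1) (nat_lit 537) c7_9802_1
 Tr.lf Tr.lf)) (Tr.nd (nat_lit 274) (nat_lit 24) (nat_lit 1) (nat_lit 680) c7_9802_1
 (Tr.nd (nat_lit 268) (nat_lit 61) (nat_lit 1) (nat_lit 619) c7_9802_1
 Tr.lf Tr.lf) (Tr.nd (nat_lit 275) (nat_lit 23) (nat_lit 1) (nat_lit 704) c7_9802_1
 Tr.lf Tr.lf))))))

noncomputable def c7_9754_0 : List Nat := [(nat_lit 0x61722f2d0436141855066c98d900326531b2111272d044a9c2c925c34a37602bd842018d4628c1a4018d3d1c65c1041561b32732b6050aa62d6a58d74166170a5bc06484c197499a266bd0aa2bcc2ba21339008366f2c41b2e445065096b684e80199a2d742b12980dd88bb4617576811ba6c651ac6d1e5a9d08c4685ba82d135914b0a8a6a669c6d124d073a2bca0061c0b09b0f08ceb135340f446a581a089680ecd023b5831485c805a6d32319795b0900004e429292208a03442a5e713a087aead339a61b7aa6d830b28a0cdd8010625376800000000000005370b2d031dc53cda61d15b4980db514d714a00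8568bc886f629a0c451d875a7060a3026c3a5476998e971774184c42d5c78b8a5209c9302d245234c098e8a5ecd156534d2c9b60851312ae546b0c98826e34ea746024475955a468e995bb9289bc636a554c6858b062d48b37479c332c2e0940512553285954f0a95b1206d4a3cc920d0002d534ed304ddb75422da07982b3c5c89801e2c879505dc9a79c94681871acd0d9c91d48399541225d3812e22dad9449699895dd2b11b42a944426ab4a5442691c00b4e8b1ac458d18e0830ae8c6c39d91d4c3d984983aa93410d48e695b6438100678e672025a9b584a1616a9a83550252189124b062a104b5d30cd0e00500144a5247a28720504a83048e846c6c999801b05251ab1d4534c661e11080c46d172c161360986cad1eb7418100071e44ab9e7ab8443a43a4ab165e9366e3a99163d64d7568acb6af10f608ecd96cb02dcd3cf3ae1785402834b4c002635b29a68294cdb2b603645b7a244534d96e003421b661100a8ccc75e79a7ad0196cb7b143660e7765914eeb233b391c643c0dca4cc5a10bb4d1e2582d4110d9986671bc53d2ed42206773b32013ae82a2083536c06ad326500000000000000000000000000000000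00000000000000000000000000000000000052ea4900f08e466354a54400000000000000000000000000000000000000000000092211204b4085b18e44482c4012a2309a16302589c02890401dd2b6f3802b9396070a4842d0b402c2571a8eb730a034c2ecc0ba06a4ec6244dd351a4b6204a702174d7540cd6c71681ed9b0a22a44320e4ad609e8db8eca04cf34e6cd0693649ce82d4415bb3aa55049a84da128c1e95c992495c5d3a02c621828000000017416b41d3b2256000000035a7368400000001e2e35a656aacd2aa80c155553b72b0e298245069b5a45dc2394b55c36c26561c34c8f0910d0a78c4f16c1b53b8d5823125224c8d5d70e0f588a5a5668459c615451928528eb49a605d5c246981a09b40696241b146738ee40e8309ab3acc7436b88d61b42144318db8cae28184d1d9b056653a101123ae8a26d80d26e8ac34de68eae00236c929956b689c20036a584516610db5736c34f169dd730456a3cc0001aa92481880922e8411265ab32e15a6d320100000001b1016d66a94303ad500b0cb0b60a12666e692c2466a825338a4f6473d7328a3b28f27426ad83221ec6cd24b02610a1a360612c1d28b94d6e016b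ba8c2d654ad80d13919ae5342c015a16dc90b08a0ad6520e59bd840247a04d122d8d078dba3ce2b31640808ce668c385ce012b0dcc31956082d8150998ec589a5d19528c9b0040b5db0214a4b32662d19a2752dc0752821a04e88da94ca8c0a59a032a13035a206a99a60c52663a3070648a61a38556ed0994c9290948e9a19b917b4590d922330300255707752252d0832cc2911171574582180502d16b869366022e942297618ea806dcaa433645016402a309b2084455e8eb76270230d4542c29ae36ac6295ccf1cc6903d92cc2cf336e14272a4a14152d54dca251b361629d6de45624e5206c31a6cd1c2ab3572db250c320444a345230b0584ab842d9d1e10d4eb46d0e976b511931533c016406de9a9d837403552d245c111870370061cb01449555a9032319a968840349246dc75d415526a7085194c60d06a7126a698945189e44348a704c6252a850d98aa0d93b2d76a86eb0d20e600540600a8003036d000030202000030068c8614dad2293b59d4a36538341b5b31160a5940)]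
noncomputable def c7_9754_1 : List Nat := [(nat_lit 0x59621940f64d84c636528dc5dad2293b4d182c2903000008023000016d230002a0060540078834ca11b74ce37040864152c1631b7005851bc094444ad0e0245ca00e12e570d851831ba455055d71b7201a4902992a5c2b006e555905032c610352318541194933552056c6c6e99b601640cf44748544ed66b17126ca2a4ea0357526b6681d32126a4cd418c67ab99a331a0c2ea71cd5c518da45a20c600d843c624c392a5533504622a6511086cea075680b981314601042196dcd8e4448e1014d1979ca948758ae86255c71805aaa901c79495c380329115c6ad4c5a584664ec74b34a26a5356849d0228313946a279d39549e960412cc82b1666480329604d119a04365a6b40855c0439e286358611)]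
noncomputable def T7_9754 : Op := Op.mk (nat_lit 67)
 (Tr.nd (nat_lit 148) (nat_lit 1) (nat_lit 23) (nat_lit 2439) c7_9754_0
 (Tr.nd (nat_lit 65) (nat_lit 10) (nat_lit 3) (nat_lit 1155) c7_9754_0
 (Tr.nd (nat_lit 49) (nat_lit 1) (nat_lit 100) (nat_lit 224) c7_9754_0
 (Tr.nd (nat_lit 9) (nat_lit 1) (nat_lit 7) (nat_lit 183) c7_9754_0
 (Tr.nd (nat_lit 7) (nat_lit 1) (nat_lit 61) (nat_lit 47) c7_9754_0
 (Tr.nd (nat_lit 1) (nat_lit 1) (nat_lit 24) (nat_lit 23) c7_9754_0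
 (Tr.nd (nat_lit 0) (nat_lit 1) (nat_lit 23) (nat_lit 0) c7_9754_0
 Tr.lf Tr.lf) Tr.lf) (Tr.nd (nat_lit 8) (nat_lit 1) (nat_lit 75) (nat_lit 108) c7_9754_0
 Tr.lf Tr.lf)) (Tr.nd (nat_lit 16) (nat_lit 2) (nat_lit 3) (nat_lit 214) c7_9754_0
 (Tr.nd (nat_lit 15) (nat_lit 1) (nat_lit 24) (nat_lit 190) c7_9754_0
 Tr.lf Tr.lf) (Tr.nd (nat_lit 22) (nat_lit 1) (nat_lit 4) (nat_lit 220) c7_9754_0
 Tr.lf Tr.lf))) (Tr.nd (nat_lit 57) (nat_lit 3) (nat_lit 61) (nat_lit 727) c7_9754_0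
 (Tr.nd (nat_lit 51) (nat_lit 1) (nat_lit 11) (nat_lit 440) c7_9754_0
 (Tr.nd (nat_lit 50) (nat_lit 1) (nat_lit 116) (nat_lit 324) c7_9754_0
 Tr.lf Tr.lf) (Tr.nd (nat_lit 56) (nat_lit 1) (nat_lit 276) (nat_lit 451) c7_9754_0
 Tr.lf Tr.lf)) (Tr.nd (nat_lit 63) (nat_lit 1) (nat_lit 100) (nat_lit 940) c7_9754_0
 (Tr.nd (nat_lit 58) (nat_lit 5) (nat_lit 6) (nat_lit 910) c7_9754_0
 Tr.lf Tr.lf) (Tr.nd (nat_lit 64) (nat_lit 5) (nat_lit 23) (nat_lit 1040) c7_9754_0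
 Tr.lf Tr.lf)))) (Tr.nd (nat_lit 112) (nat_lit 2) (nat_lit 63) (nat_lit 1722) c7_9754_0
 (Tr.nd (nat_lit 100) (nat_lit 2) (nat_lit 7) (nat_lit 1299) c7_9754_0
 (Tr.nd (nat_lit 71) (nat_lit 5) (nat_lit 6) (nat_lit 1208) c7_9754_0
 (Tr.nd (nat_lit 70) (nat_lit 1) (nat_lit 23) (nat_lit 1185) c7_9754_0
 Tr.lf Tr.lf) (Tr.nd (nat_lit 99) (nat_lit 1) (nat_lit 61) (nat_lit 1238) c7_9754_0
 Tr.lf Tr.lf)) (Tr.nd (nat_lit 106) (nat_lit 5) (nat_lit 37) (nat_lit 1467) c7_9754_0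
 (Tr.nd (nat_lit 105) (nat_lit 1) (nat_lit 154) (nat_lit 1313) c7_9754_0
 Tr.lf Tr.lf) (Tr.nd (nat_lit 107) (nat_lit 10) (nat_lit 7) (nat_lit 1652) c7_9754_0
 Tr.lf Tr.lf))) (Tr.nd (nat_lit 120) (nat_lit 17) (nat_lit 5) (nat_lit 2262) c7_9754_0
 (Tr.nd (nat_lit 114) (nat_lit 30) (nat_lit 7) (nat_lit 2018) c7_9754_0
 (Tr.nd (nat_lit 113) (nat_lit 10) (nat_lit 17) (nat_lit 1848) c7_9754_0
 Tr.lf Tr.lf) (Tr.nd (nat_lit 119) (nat_lit 2) (nat_lit 17) (nat_lit 2228) c7_9754_0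
 Tr.lf Tr.lf)) (Tr.nd (nat_lit 126) (nat_lit 2) (nat_lit 3) (nat_lit 2410) c7_9754_0
 (Tr.nd (nat_lit 121) (nat_lit 63) (nat_lit 1) (nat_lit 2347) c7_9754_0
 Tr.lf Tr.lf) (Tr.nd (nat_lit 127) (nat_lit 23) (nat_lit 1) (nat_lit 2416) c7_9754_0
 Tr.lf Tr.lf))))) (Tr.nd (nat_lit 211) (nat_lit 23) (nat_lit 5) (nat_lit 3557) c7_9754_0
 (Tr.nd (nat_lit 168) (nat_lit 4) (nat_lit 11) (nat_lit 3008) c7_9754_0
 (Tr.nd (nat_lit 156) (nat_lit 17) (nat_lit 2) (nat_lit 2616) c7_9754_0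
 (Tr.nd (nat_lit 154) (nat_lit 1) (nat_lit 63) (nat_lit 2468) c7_9754_0
 (Tr.nd (nat_lit 149) (nat_lit 2) (nat_lit 3) (nat_lit 2462) c7_9754_0
 Tr.lf Tr.lf) (Tr.nd (nat_lit 155) (nat_lit 5) (nat_lit 17) (nat_lit 2531) c7_9754_0
 Tr.lf Tr.lf)) (Tr.nd (nat_lit 162) (nat_lit 17) (nat_lit 10) (nat_lit 2712) c7_9754_0
 (Tr.nd (nat_lit 161) (nat_lit 2) (nat_lit 31) (nat_lit 2650) c7_9754_0
 Tr.lf Tr.lf) (Tr.nd (nat_lit 163) (nat_lit 63) (nat_lit 2) (nat_lit 2882) c7_9754_0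
 Tr.lf Tr.lf))) (Tr.nd (nat_lit 176) (nat_lit 61) (nat_lit 1) (nat_lit 3421) c7_9754_0
 (Tr.nd (nat_lit 170) (nat_lit 154) (nat_lit 1) (nat_lit 3237) c7_9754_0
 (Tr.nd (nat_lit 169) (nat_lit 37) (nat_lit 5) (nat_lit 3052) c7_9754_0
 Tr.lf Tr.lf) (Tr.nd (nat_lit 175) (nat_lit 6) (nat_lit 5) (nat_lit 3391) c7_9754_0
 Tr.lf Tr.lf)) (Tr.nd (nat_lit 205) (nat_lit 23) (nat_lit 1) (nat_lit 3512) c7_9754_0
 (Tr.nd (nat_lit 204) (nat_lit 5) (nat_lit 6) (nat_lit 3482) c7_9754_0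
 Tr.lf Tr.lf) (Tr.nd (nat_lit 210) (nat_lit 2) (nat_lit 11) (nat_lit 3535) c7_9754_0
 Tr.lf Tr.lf)))) (Tr.nd (nat_lit 253) (nat_lit 4) (nat_lit 1) (nat_lit 503) c7_9754_1
 (Tr.nd (nat_lit 219) (nat_lit 276) (nat_lit 1) (nat_lit 0) c7_9754_1
 (Tr.nd (nat_lit 217) (nat_lit 6) (nat_lit 5) (nat_lit 3772) c7_9754_0
 (Tr.nd (nat_lit 212) (nat_lit 100) (nat_lit 1) (nat_lit 3672) c7_9754_0
 Tr.lf Tr.lf) (Tr.nd (nat_lit 218) (nat_lit 61) (nat_lit 3) (nat_lit 3802) c7_9754_0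
 Tr.lf Tr.lf)) (Tr.nd (nat_lit 225) (nat_lit 116) (nat_lit 1) (nat_lit 287) c7_9754_1
 (Tr.nd (nat_lit 224) (nat_lit 11) (nat_lit 1) (nat_lit 276) c7_9754_1
 Tr.lf Tr.lf) (Tr.nd (nat_lit 226) (nat_lit 100) (nat_lit 1) (nat_lit 403) c7_9754_1
 Tr.lf Tr.lf))) (Tr.nd (nat_lit 267) (nat_lit 75) (nat_lit 1) (nat_lit 544) c7_9754_1
 (Tr.nd (nat_lit 260) (nat_lit 24) (nat_lit 1) (nat_lit 513) c7_9754_1
 (Tr.nd (nat_lit 259) (nat_lit 2) (nat_lit 3) (nat_lit 507) c7_9754_1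
 Tr.lf Tr.lf) (Tr.nd (nat_lit 266) (nat_lit 7) (nat_lit 1) (nat_lit 537) c7_9754_1
 Tr.lf Tr.lf)) (Tr.nd (nat_lit 274) (nat_lit 24) (nat_lit 1) (nat_lit 680) c7_9754_1
 (Tr.nd (nat_lit 268) (nat_lit 61) (nat_lit 1) (nat_lit 619) c7_9754_1
 Tr.lf Tr.lf) (Tr.nd (nat_lit 275) (nat_lit 23) (nat_lit 1) (nat_lit 704) c7_9754_1
 Tr.lf Tr.lf))))))

noncomputable def c7_9876_0 : List Nat := [(nat_lit 0x231804c2b210e38002e3352b547246a5340d1c4c3714f124b2c679405cce648396b566660826d8355349c2590664510cc9104aa40140e35a0d85ab7a9d9a94222e0296001418e5332c29d05c740cbdb3c2085840dae29425437900ea4d0468d50052d8baccaa9340200014b2979575d2a4465032a9e81e32a27314a8350666ed9b526e02d644750d204620e58b1851473772723540d19d00561a82a2829d450376072a4123496884535196d223859755bae2e06b3350824770370003a02458da31b38dc8b3744a34d5040c6dd79e2237a5b8679435b06129dd0036a20ba8208c48b41dac2652850415641569026a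d13086e98b3c35b33701cf3adb78c4d4db0b0671081d73073500109b0aea46ae4102a5e4c4675d6aacb31c06db0aa68305b26048340000000000000000000000dac59cd8d8c92f1a6954d915648881804ac07720556724d4d04492a93cf53312a6800000000000000000000000726c31156d15b2846a13136d0c522891375961d0ac150a92d8ba55442221040769ca88897b36edc282610b0daba05a24ac404b141020d687344a22844da076281433a4178a6c50908a3711550188ba02ee2f27162d3416583ce1863665529843524c99091ad8c710462b6a59b9a4366a52a628e07624d0183ac4aa931004c9991a629b9279ecd470998aa0a1b2d592d32a16c6132646a8e15d17150bd15222bb268b34d395ab1c5215193064523674e159785a29b0b8db2c325995264bb003aa28c59b31b9010252868213a44c156e79e50da420e0352acb8a520b5b0ba88080206a521918199592cd20c812f036476b242170985b44a546aa64395408a7abcb589190c484c9e729a4376d936742353a846c6d8a4766a25b5b2691cad23b588459d4663125469a3001a40a41d1032c44d92ec713ac7238b6c105762458c4530420d160b536e51d72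145271d68b57661b164559388393c4d208c696505b22edd0cd4c0b2932109cc1a1ea0e8b17832044148f456c9906e8521562a33ac44e11522e9835d42d34366528cc4af39a90284a296da4a5a458d673b684c1d98a5aa13d851a469eb11a8a1298900e8322b5888131505318e75180a5abc08ac1cab6b4a23496286650681c91a71d4a4ad71800000015566b291244210a8565d798a5cc45200000000da92a2a692d844a85436c02ad6a1360aaa00d74c9e68441a34e8f406aa2a0d1c00014541d4ed0966d35d1ae670903265c8ac4dd5bb94216610a6d3554b024e5190668a24708c43ad7aca369211558182754d04082667a68e373595a803191c09d6348c3b42dc335da95682087814cbaea9b23b501da2e14a694a73a3685a0a370e823653531c43a8bc71cf60d8c6dcadb7553430625984415e786c3218db0a04bc432d3d7361d50d694989aa54cc950b4470323198906b8007862f4329d2c08d36c274c2235c3057090c44261317194dd09cd5351b14b4223581009a274aaedd9d9115309b4d64d0c44c0c82cec8d9b18912aec6438646159026164ba286760a562b2c2c5a0e10cac8526cc5c506cb0315384271636ade285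24e0d18080ce2c5da66540a4600462266399d560ae2cc30ea598f2c6a08405bca1048345b2c48e5312563143a4b005122c54d3c4b65e32c348334adc4a102162b2e998e528521a1ac2e0ded20662a006f132a6491207a1d9a989d21c33d5ca6bb0442e59543169e77240365e92cacc4ab6358586a2d9edab12b9529ae1832b01032e256459035ab001aa8b1b83a73b66ab470512170e6c92358a16ea8705a1a6630297060b6a24d911159bd2484109e958961361a0000000000000000000000000000000000000000000000000000000000000000000000000000000000000001c6eeb4636d018d403b6613400002002babce4118af3d45d667a0cde988ad06f59a1830025988c640b28c122b202ba11222f53ab3000a418667651cb9c80c11d420224a7482e934adda899244da9893abd093981135132ce10e3706dd6c9600ae8a59d296696598c090a65cc2d0538a14f05a65a418a6582ae5ab1a2c45414722290392404050189305940010)]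
noncomputable def c7_9876_1 : List Nat := [(nat_lit 0x1000594424e0111004962122a4710541ca60ee5aa21968e1265a64334628d1168d1968c80385966966cc59a2ba0064b75b63538c18b2d44d401e24c2f6d4ed49ced69dc01c428de872404db171ed0e49276b18eb3483470ba0b61c568ba8b244d858ed031b48ae960030866973613a0e99bc267a5d45cf3a1c10002cbb34c200001341ed88170605b4e16eadc6000000000000000000000000000000000000000000000000000000000000000000000000000000000000000114d5391825045618d82b14c10126b8d4e04110d8a43c9588042ec9ab284e38e50b5753d7545584b71cd15094112103b8401614558048076ed484d196920bc9d00e780755da0511359594316cea60152a35a746c13b068645b29a047361992c0a42c0c0506b58b1589366c6a32629910b163a1acba198018946ecd0834cb0e65b241256d52a0a6d152e0f170b62375a84d0c852e210d02a82db22285b3944811353c68cf1696cae3852c1d5b1452b4681599d701aa05b2103ad9ae64370e6eecee2038e68a336dcc5c011b6542cc56c4123130b6a02d06982950e3198cb4081b56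8e68634a7a2b5ad8e735c448763ac6b076ea4282820010baf54cdb59b764d47705884f30c93712cdaa2b0e3b5a14d60289adec1906458ca662c94e2c2e0cc65e7162e4293664b239284a4606989843ba8941b80714b2464d1ac153940b85d738dbd415344940812d465990661b0b16de12b642532242a35730229ccc20ad8625ea52ce8db646c9011aa6a0c0c4ec15c2183a0ab34cc96a65c0168c3365374d73c63460b9caf1a20c528a6841716248c9554da6841e40c5ab7752722b584836b441dac99028e2f6aa63760a5600450a8e0358084b0a0bb1178514176846ece3a8b8ac9ac621350428640001c6b20540a74dc8210b275a2a583add3539092e3b5224e2b5a9621308bc11c9270599375621d0467724442abc70688aa12140ed5211580943604552a5cd3930a366854cd0f621a16d78ba7293244db6c5121410a8932a05dad522332d43cb496a46e2db91b6045ad32409d17086b8000b281c858cce531173148789816916421ba19ad656c822cd38106939ac41c4baa4a1b0f6a994eb8d228c8eb8b5a6e4329840868a0728276a821b651c8e5d552c22603259a48f284827476415844894d82308bc22a62a0b625d2c313656a4e2a82cb02890a016d34558d6970ecf2d85930c55992b1670a12bd8142282db4314eb35011122a8ac629053555a8d9203486b88469600556385b6942ad6cc2a1d19ca5476da575609a00121acf0322ba0da9ac985374ab5074839a988a096aa64d78c84e5b68dd6664d4dae6c42ce35d62ddaa28cb48c446cc2892b344ad7511579d0d1a850137500f26814896e4226cf50c6a4c85b)]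
noncomputable def T7_9876 : Op := Op.mk (nat_lit 73)
 (Tr.nd (nat_lit 148) (nat_lit 1) (nat_lit 63) (nat_lit 3332) c7_9876_0
 (Tr.nd (nat_lit 64) (nat_lit 5) (nat_lit 23) (nat_lit 1596) c7_9876_0
 (Tr.nd (nat_lit 49) (nat_lit 1) (nat_lit 154) (nat_lit 337) c7_9876_0
 (Tr.nd (nat_lit 9) (nat_lit 1) (nat_lit 24) (nat_lit 275) c7_9876_0
 (Tr.nd (nat_lit 7) (nat_lit 1) (nat_lit 61) (nat_lit 98) c7_9876_0
 (Tr.nd (nat_lit 1) (nat_lit 1) (nat_lit 61) (nat_lit 37) c7_9876_0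
 (Tr.nd (nat_lit 0) (nat_lit 1) (nat_lit 37) (nat_lit 0) c7_9876_0
 Tr.lf Tr.lf) Tr.lf) (Tr.nd (nat_lit 8) (nat_lit 1) (nat_lit 116) (nat_lit 159) c7_9876_0
 Tr.lf Tr.lf)) (Tr.nd (nat_lit 16) (nat_lit 2) (nat_lit 5) (nat_lit 325) c7_9876_0
 (Tr.nd (nat_lit 15) (nat_lit 1) (nat_lit 24) (nat_lit 301) c7_9876_0
 (Tr.nd (nat_lit 10) (nat_lit 1) (nat_lit 2) (nat_lit 299) c7_9876_0
 Tr.lf Tr.lf) Tr.lf) (Tr.nd (nat_lit 22) (nat_lit 1) (nat_lit 2) (nat_lit 335) c7_9876_0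
 Tr.lf Tr.lf))) (Tr.nd (nat_lit 57) (nat_lit 3) (nat_lit 100) (nat_lit 1110) c7_9876_0
 (Tr.nd (nat_lit 52) (nat_lit 1) (nat_lit 6) (nat_lit 828) c7_9876_0
 (Tr.nd (nat_lit 51) (nat_lit 1) (nat_lit 61) (nat_lit 767) c7_9876_0
 (Tr.nd (nat_lit 50) (nat_lit 1) (nat_lit 276) (nat_lit 491) c7_9876_0
 Tr.lf Tr.lf) Tr.lf) (Tr.nd (nat_lit 56) (nat_lit 1) (nat_lit 276) (nat_lit 834) c7_9876_0
 Tr.lf Tr.lf)) (Tr.nd (nat_lit 59) (nat_lit 5) (nat_lit 2) (nat_lit 1525) c7_9876_0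
 (Tr.nd (nat_lit 58) (nat_lit 5) (nat_lit 23) (nat_lit 1410) c7_9876_0
 Tr.lf Tr.lf) (Tr.nd (nat_lit 63) (nat_lit 1) (nat_lit 61) (nat_lit 1535) c7_9876_0
 Tr.lf Tr.lf)))) (Tr.nd (nat_lit 107) (nat_lit 10) (nat_lit 17) (nat_lit 2504) c7_9876_0
 (Tr.nd (nat_lit 100) (nat_lit 2) (nat_lit 37) (nat_lit 1951) c7_9876_0
 (Tr.nd (nat_lit 71) (nat_lit 5) (nat_lit 2) (nat_lit 1787) c7_9876_0
 (Tr.nd (nat_lit 70) (nat_lit 1) (nat_lit 6) (nat_lit 1781) c7_9876_0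
 (Tr.nd (nat_lit 65) (nat_lit 10) (nat_lit 7) (nat_lit 1711) c7_9876_0
 Tr.lf Tr.lf) Tr.lf) (Tr.nd (nat_lit 99) (nat_lit 1) (nat_lit 154) (nat_lit 1797) c7_9876_0
 Tr.lf Tr.lf)) (Tr.nd (nat_lit 105) (nat_lit 1) (nat_lit 154) (nat_lit 2035) c7_9876_0
 (Tr.nd (nat_lit 101) (nat_lit 2) (nat_lit 5) (nat_lit 2025) c7_9876_0
 Tr.lf Tr.lf) (Tr.nd (nat_lit 106) (nat_lit 5) (nat_lit 63) (nat_lit 2189) c7_9876_0
 Tr.lf Tr.lf))) (Tr.nd (nat_lit 115) (nat_lit 63) (nat_lit 1) (nat_lit 3162) c7_9876_0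
 (Tr.nd (nat_lit 113) (nat_lit 10) (nat_lit 17) (nat_lit 2782) c7_9876_0
 (Tr.nd (nat_lit 112) (nat_lit 2) (nat_lit 37) (nat_lit 2708) c7_9876_0
 (Tr.nd (nat_lit 108) (nat_lit 17) (nat_lit 2) (nat_lit 2674) c7_9876_0
 Tr.lf Tr.lf) Tr.lf) (Tr.nd (nat_lit 114) (nat_lit 30) (nat_lit 7) (nat_lit 2952) c7_9876_0
 Tr.lf Tr.lf)) (Tr.nd (nat_lit 120) (nat_lit 17) (nat_lit 2) (nat_lit 3235) c7_9876_0
 (Tr.nd (nat_lit 119) (nat_lit 2) (nat_lit 5) (nat_lit 3225) c7_9876_0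
 Tr.lf Tr.lf) (Tr.nd (nat_lit 121) (nat_lit 63) (nat_lit 1) (nat_lit 3269) c7_9876_0
 Tr.lf Tr.lf))))) (Tr.nd (nat_lit 206) (nat_lit 61) (nat_lit 1) (nat_lit 1065) c7_9876_1
 (Tr.nd (nat_lit 163) (nat_lit 63) (nat_lit 5) (nat_lit 170) c7_9876_1
 (Tr.nd (nat_lit 156) (nat_lit 17) (nat_lit 10) (nat_lit 3659) c7_9876_0
 (Tr.nd (nat_lit 154) (nat_lit 1) (nat_lit 63) (nat_lit 3441) c7_9876_0
 (Tr.nd (nat_lit 150) (nat_lit 4) (nat_lit 3) (nat_lit 3429) c7_9876_0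
 (Tr.nd (nat_lit 149) (nat_lit 2) (nat_lit 17) (nat_lit 3395) c7_9876_0
 Tr.lf Tr.lf) Tr.lf) (Tr.nd (nat_lit 155) (nat_lit 5) (nat_lit 31) (nat_lit 3504) c7_9876_0
 Tr.lf Tr.lf)) (Tr.nd (nat_lit 161) (nat_lit 2) (nat_lit 17) (nat_lit 3903) c7_9876_0
 (Tr.nd (nat_lit 157) (nat_lit 37) (nat_lit 2) (nat_lit 3829) c7_9876_0
 Tr.lf Tr.lf) (Tr.nd (nat_lit 162) (nat_lit 17) (nat_lit 10) (nat_lit 0) c7_9876_1
 Tr.lf Tr.lf))) (Tr.nd (nat_lit 198) (nat_lit 2) (nat_lit 5) (nat_lit 879) c7_9876_1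
 (Tr.nd (nat_lit 169) (nat_lit 37) (nat_lit 2) (nat_lit 651) c7_9876_1
 (Tr.nd (nat_lit 168) (nat_lit 4) (nat_lit 3) (nat_lit 639) c7_9876_1
 (Tr.nd (nat_lit 164) (nat_lit 154) (nat_lit 1) (nat_lit 485) c7_9876_1
 Tr.lf Tr.lf) Tr.lf) (Tr.nd (nat_lit 170) (nat_lit 154) (nat_lit 1) (nat_lit 725) c7_9876_1
 Tr.lf Tr.lf)) (Tr.nd (nat_lit 204) (nat_lit 5) (nat_lit 11) (nat_lit 895) c7_9876_1
 (Tr.nd (nat_lit 199) (nat_lit 6) (nat_lit 1) (nat_lit 889) c7_9876_1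
 Tr.lf Tr.lf) (Tr.nd (nat_lit 205) (nat_lit 23) (nat_lit 5) (nat_lit 950) c7_9876_1
 Tr.lf Tr.lf)))) (Tr.nd (nat_lit 247) (nat_lit 2) (nat_lit 1) (nat_lit 2324) c7_9876_1
 (Tr.nd (nat_lit 217) (nat_lit 6) (nat_lit 1) (nat_lit 1827) c7_9876_1
 (Tr.nd (nat_lit 212) (nat_lit 100) (nat_lit 3) (nat_lit 1251) c7_9876_1
 (Tr.nd (nat_lit 211) (nat_lit 23) (nat_lit 5) (nat_lit 1136) c7_9876_1
 (Tr.nd (nat_lit 210) (nat_lit 2) (nat_lit 5) (nat_lit 1126) c7_9876_1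
 Tr.lf Tr.lf) Tr.lf) (Tr.nd (nat_lit 213) (nat_lit 276) (nat_lit 1) (nat_lit 1551) c7_9876_1
 Tr.lf Tr.lf)) (Tr.nd (nat_lit 219) (nat_lit 276) (nat_lit 1) (nat_lit 1894) c7_9876_1
 (Tr.nd (nat_lit 218) (nat_lit 61) (nat_lit 1) (nat_lit 1833) c7_9876_1
 Tr.lf Tr.lf) (Tr.nd (nat_lit 220) (nat_lit 154) (nat_lit 1) (nat_lit 2170) c7_9876_1
 Tr.lf Tr.lf))) (Tr.nd (nat_lit 261) (nat_lit 116) (nat_lit 1) (nat_lit 2388) c7_9876_1
 (Tr.nd (nat_lit 259) (nat_lit 2) (nat_lit 1) (nat_lit 2362) c7_9876_1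
 (Tr.nd (nat_lit 254) (nat_lit 24) (nat_lit 1) (nat_lit 2338) c7_9876_1
 (Tr.nd (nat_lit 253) (nat_lit 4) (nat_lit 3) (nat_lit 2326) c7_9876_1
 Tr.lf Tr.lf) Tr.lf) (Tr.nd (nat_lit 260) (nat_lit 24) (nat_lit 1) (nat_lit 2364) c7_9876_1
 Tr.lf Tr.lf)) (Tr.nd (nat_lit 268) (nat_lit 61) (nat_lit 1) (nat_lit 2565) c7_9876_1
 (Tr.nd (nat_lit 262) (nat_lit 61) (nat_lit 1) (nat_lit 2504) c7_9876_1
 Tr.lf Tr.lf) (Tr.nd (nat_lit 269) (nat_lit 37) (nat_lit 1) (nat_lit 2626) c7_9876_1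
 Tr.lf Tr.lf))))))

noncomputable def c7_9828_0 : List Nat := [(nat_lit 0x2846c8521dcd3b680a1a96224d56a24ce8b10b986b30a9329546408096490269392cdcd82133c567350644cacaa2cbd01ac048a280494c80baad580956f0d52830564153d595b02eec1b3848c22cd32c306c8176a8298ca19bce3a4175540a7b64f1d984a4b83a9c20002061e38d82a09e8c5b8c99b728c00894a40644d0060411b4919a110d4c3d62c356f6849ab5b5c5a82f613358e91b08a7852c6090d6295dd56036b490ec40c29463176698c4c0882824176501405c650e00018f492b2c550c80a94a2a1a58c9b733a55c424f4729c195ae8023a2d5c6add4d35c25572ac7544360ab8e563a898e9a6eb538ee531404d722c636399a40ea89a7465cc5aa214ec4c2821a5a60470dd2462c3a80888b6a241105006a1d34ace0e24610a5609b76000000000000000000000000734c5e4dcba80a8a8daf2a747ad1b4c5b169430d73a8882ea34110614419c0a51b8c0000000000000000000000634580760db23763250022a06758a26c14248c89988cb1912888c50009b36526d505a29e05cd8e0818acc72d15cc1966a6b0c8693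2ed294d1e5966c52230b5a194a6a92346a24a566b040280e36dca515c7196937705b0795c74042cdac1622c21351018d8b029d855c266d3d4a3455b4542b94c5a344c058e317054a581a92cd44e0d324d67708702b0684b84746409a25548cd96980756a302a27048c81e7b6c13b9b1abc234f1a36a06aae76d1a6b2a2ae94311b20bc9bc1b59318c376a84871140bab466480501634a44d8572e8c611b1a2c53d1607232568eb3685e96388472a0d2db36f072da16baa0b625a2ac7694eecb5712d6e4c1cccc55a24293cd1b1d2ea0dcdb6506448a8294c400b56593b548e42e5003ae36a9936076413925a49629da518000544d7a1336c61831729441d85586ae021d0a03959a82e8b81392725d5d29651b88e89d691da13199add06c44a5559ca0b0cb013cf68146b4995a28866c54b2e936a84c94340aeb20019a012a5c49420e7ac55b6b62d1591b69ab426988409109c1a2cf30e25a56c15a3580836b526b55714429b321e34132e5556e13a550b74dd432e3d6a006ce624e185cd609817608527055e020d4e22b6a178d62862673096ed20180d5058800000012011e79db9acd4b0244e8532f1266a00000004b88ba5a9d4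33865d590e8236894ba5064093d0c356af30dc29bd3639815cab1d0a29ea4c0cbaf645a8c17b2489c9a8c68c192ba8cae8495172a5846609658479131cdb3b026916527b3706b5bc1aaa651544491c854a24c7641dae370ca04d65d0551141a41ab13a49b6381d76652c665c0c0c8cd8b668e2d26104084ab64510abdad426428c4a79080ea95080d193728c9561a6659c1854c86dd2620808490b0461962bad45c0cd2465ae72da61b12719033c1ea9ca68726159000d727b1d8b528571dacd104551ad551143286a9d8300eb7735a524b0e804489c0cd4e4c83b401a898d1acd692456413657110e9540caa85070669948d9ab0d2059d9bd4e65234a0d86a1d0a8443a327380d3b68ce0d2d05d1a4c8c19b08d2005a22b5764b5251a816b41adcf2c2da922048e00346ac09d9b62740a12ce65e31c24539914d0e4a8ad5a56d14b2cd08b989a5bb0a8905609149992c40d6996976922008d2c80342a69d70db428ea8752249b012412d30644d345141182a93d82096306c562eb1802520b1ad57a9009acd348d52092d0144437266d546a44ba38a6dad84264ed25b6c18dc2848b28c44894a78a362b5259e095135d2a1660a86b412d591ba0d2637225c13065d77360584a696c00000000000000000000000000000000000000000000000000000000000000000000000000000000000000020b7684652402c45449250100000140146e0dc0520511608cba262d0320869c4b98295a7b5a80d9c8a336ec6b0d455b990605aeaac270daf118398159118ab4510612b50a8e654362d8b66a5a2a39a62a233a90196a6086a274d503a0625440982a7316436535dd006d4aae4090c261a95c6b269208c8633ad6826d34a661b0912f035b60277576db58c00a08)]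
noncomputable def c7_9828_1 : List Nat := [(nat_lit 0x8a00c1db6d7756806dd2332520d87a24d368276e2e190a0926b271d8986830485aab13604d5d3653250f1a86801560626215d312a9821b96012af01904ca5239a08f4954cc5c4226504ed8e0caa659059597a526c8d110b444a5209521389ab5173605c35db03b7669d8868c9c698242133a0acb82505109110002b40b391000001112494454a04916066d688000000000000000000000000000000000000000000000000000000000000000000000000000000000000000147a489010b870d6c289b4834d4db78a0b24a936bdaa19d38adb3129971676db4ac4991b640a646550c03048ea415a6395828536c6bb8b435a24c00756699a700b172118d24a21dced20cc65d211630685145766d00d46c5864383d2cce0b1b0ce8a42d261563456d31d69aa13024b30202926d665a64c40c97a45209504a232b63052612daf406ba81b6112e4ce941ad92860a841664ddb547674a2541ae9214e6089b4a0a3d00cde02b5192e9a4dcc5b8b322950573620795d5da49c98b632b21994116ae4342f62760ac2f3102963c84b842dd768c10c887590097022b31aa08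164dd1d0884ee54e64b60510544112446b91db1803304a74c42576962e9825460e906d4aa94153406c8625a4af01b25760c5cd5d2ba484d1c26000acd50568b55ed82b0da568122b2d35292016c7619810a0f53a5d801839718d02ecca1673a8350e5a1dab300a1660eacb74546dd44840504872162b4b6ec4ec5462a50b0b066d42aec2571a54e8db60e6e084db2c764428a9eb2e8c085d92072940450e2b195c4d4c594b349a12bdb470959c19648685066ad45490aec2abb210e60e6c9aa4e389da1924235c318f24f20230656f4acb053adb88b5b24c3308982a5dd9a51578282e4b56498dd540006359ae48ceda9b0291ccf0535c5e215b5a4442720ae020c26d6c1a3d03143a73313741c6e100cea189a10da80d0c9ea30c49d1ec0056e71962ea6b662b3131baaad61229cc17b440a3aab934add8403273221d7654a20b1da30da1530418aa2f536e2b32dbc9672a872d0285190a4000d018045d740a625a05769359623b430516ad264e213679a019619163caa3603b09add0b84cd8a4eb53151b8b246bbac8d2c48d45645d2ac4442b044772430258ca4a9388c1146ed8a08eb02a4a8833da5cc8b6c11e8ead98a9d96873593698c166310c204a9295a82356936446db04b5399103cc625914a84d89b128db29765a94458643b302227365d6d1718d9cd95c50d28a1492bc3506cc6b3aa4a2d8d3a896bd80166d322d565e283a1070e3056592e2411d75ad6b98581cc4b8609095e6c6c9d10e60d8f27a397407292b4a4803c181969ab2b526bc6a2dcdb2d430866ae66e750c30a807024760e155b4c3a98359382)]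
noncomputable def T7_9828 : Op := Op.mk (nat_lit 73)
 (Tr.nd (nat_lit 148) (nat_lit 1) (nat_lit 63) (nat_lit 3332) c7_9828_0
 (Tr.nd (nat_lit 64) (nat_lit 5) (nat_lit 23) (nat_lit 1596) c7_9828_0
 (Tr.nd (nat_lit 49) (nat_lit 1) (nat_lit 154) (nat_lit 337) c7_9828_0
 (Tr.nd (nat_lit 9) (nat_lit 1) (nat_lit 24) (nat_lit 275) c7_9828_0
 (Tr.nd (nat_lit 7) (nat_lit 1) (nat_lit 61) (nat_lit 98) c7_9828_0
 (Tr.nd (nat_lit 1) (nat_lit 1) (nat_lit 61) (nat_lit 37) c7_9828_0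
 (Tr.nd (nat_lit 0) (nat_lit 1) (nat_lit 37) (nat_lit 0) c7_9828_0
 Tr.lf Tr.lf) Tr.lf) (Tr.nd (nat_lit 8) (nat_lit 1) (nat_lit 116) (nat_lit 159) c7_9828_0
 Tr.lf Tr.lf)) (Tr.nd (nat_lit 16) (nat_lit 2) (nat_lit 5) (nat_lit 325) c7_9828_0
 (Tr.nd (nat_lit 15) (nat_lit 1) (nat_lit 24) (nat_lit 301) c7_9828_0
 (Tr.nd (nat_lit 10) (nat_lit 1) (nat_lit 2) (nat_lit 299) c7_9828_0
 Tr.lf Tr.lf) Tr.lf) (Tr.nd (nat_lit 22) (nat_lit 1) (nat_lit 2) (nat_lit 335) c7_9828_0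
 Tr.lf Tr.lf))) (Tr.nd (nat_lit 57) (nat_lit 3) (nat_lit 100) (nat_lit 1110) c7_9828_0
 (Tr.nd (nat_lit 52) (nat_lit 1) (nat_lit 6) (nat_lit 828) c7_9828_0
 (Tr.nd (nat_lit 51) (nat_lit 1) (nat_lit 61) (nat_lit 767) c7_9828_0
 (Tr.nd (nat_lit 50) (nat_lit 1) (nat_lit 276) (nat_lit 491) c7_9828_0
 Tr.lf Tr.lf) Tr.lf) (Tr.nd (nat_lit 56) (nat_lit 1) (nat_lit 276) (nat_lit 834) c7_9828_0
 Tr.lf Tr.lf)) (Tr.nd (nat_lit 59) (nat_lit 5) (nat_lit 2) (nat_lit 1525) c7_9828_0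
 (Tr.nd (nat_lit 58) (nat_lit 5) (nat_lit 23) (nat_lit 1410) c7_9828_0
 Tr.lf Tr.lf) (Tr.nd (nat_lit 63) (nat_lit 1) (nat_lit 61) (nat_lit 1535) c7_9828_0
 Tr.lf Tr.lf)))) (Tr.nd (nat_lit 107) (nat_lit 10) (nat_lit 17) (nat_lit 2504) c7_9828_0
 (Tr.nd (nat_lit 100) (nat_lit 2) (nat_lit 37) (nat_lit 1951) c7_9828_0
 (Tr.nd (nat_lit 71) (nat_lit 5) (nat_lit 2) (nat_lit 1787) c7_9828_0
 (Tr.nd (nat_lit 70) (nat_lit 1) (nat_lit 6) (nat_lit 1781) c7_9828_0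
 (Tr.nd (nat_lit 65) (nat_lit 10) (nat_lit 7) (nat_lit 1711) c7_9828_0
 Tr.lf Tr.lf) Tr.lf) (Tr.nd (nat_lit 99) (nat_lit 1) (nat_lit 154) (nat_lit 1797) c7_9828_0
 Tr.lf Tr.lf)) (Tr.nd (nat_lit 105) (nat_lit 1) (nat_lit 154) (nat_lit 2035) c7_9828_0
 (Tr.nd (nat_lit 101) (nat_lit 2) (nat_lit 5) (nat_lit 2025) c7_9828_0
 Tr.lf Tr.lf) (Tr.nd (nat_lit 106) (nat_lit 5) (nat_lit 63) (nat_lit 2189) c7_9828_0
 Tr.lf Tr.lf))) (Tr.nd (nat_lit 115) (nat_lit 63) (nat_lit 1) (nat_lit 3162) c7_9828_0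
 (Tr.nd (nat_lit 113) (nat_lit 10) (nat_lit 17) (nat_lit 2782) c7_9828_0
 (Tr.nd (nat_lit 112) (nat_lit 2) (nat_lit 37) (nat_lit 2708) c7_9828_0
 (Tr.nd (nat_lit 108) (nat_lit 17) (nat_lit 2) (nat_lit 2674) c7_9828_0
 Tr.lf Tr.lf) Tr.lf) (Tr.nd (nat_lit 114) (nat_lit 30) (nat_lit 7) (nat_lit 2952) c7_9828_0
 Tr.lf Tr.lf)) (Tr.nd (nat_lit 120) (nat_lit 17) (nat_lit 2) (nat_lit 3235) c7_9828_0
 (Tr.nd (nat_lit 119) (nat_lit 2) (nat_lit 5) (nat_lit 3225) c7_9828_0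
 Tr.lf Tr.lf) (Tr.nd (nat_lit 121) (nat_lit 63) (nat_lit 1) (nat_lit 3269) c7_9828_0
 Tr.lf Tr.lf))))) (Tr.nd (nat_lit 206) (nat_lit 61) (nat_lit 1) (nat_lit 1065) c7_9828_1
 (Tr.nd (nat_lit 163) (nat_lit 63) (nat_lit 5) (nat_lit 170) c7_9828_1
 (Tr.nd (nat_lit 156) (nat_lit 17) (nat_lit 10) (nat_lit 3659) c7_9828_0
 (Tr.nd (nat_lit 154) (nat_lit 1) (nat_lit 63) (nat_lit 3441) c7_9828_0
 (Tr.nd (nat_lit 150) (nat_lit 4) (nat_lit 3) (nat_lit 3429) c7_9828_0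
 (Tr.nd (nat_lit 149) (nat_lit 2) (nat_lit 17) (nat_lit 3395) c7_9828_0
 Tr.lf Tr.lf) Tr.lf) (Tr.nd (nat_lit 155) (nat_lit 5) (nat_lit 31) (nat_lit 3504) c7_9828_0
 Tr.lf Tr.lf)) (Tr.nd (nat_lit 161) (nat_lit 2) (nat_lit 17) (nat_lit 3903) c7_9828_0
 (Tr.nd (nat_lit 157) (nat_lit 37) (nat_lit 2) (nat_lit 3829) c7_9828_0
 Tr.lf Tr.lf) (Tr.nd (nat_lit 162) (nat_lit 17) (nat_lit 10) (nat_lit 0) c7_9828_1
 Tr.lf Tr.lf))) (Tr.nd (nat_lit 198) (nat_lit 2) (nat_lit 5) (nat_lit 879) c7_9828_1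
 (Tr.nd (nat_lit 169) (nat_lit 37) (nat_lit 2) (nat_lit 651) c7_9828_1
 (Tr.nd (nat_lit 168) (nat_lit 4) (nat_lit 3) (nat_lit 639) c7_9828_1
 (Tr.nd (nat_lit 164) (nat_lit 154) (nat_lit 1) (nat_lit 485) c7_9828_1
 Tr.lf Tr.lf) Tr.lf) (Tr.nd (nat_lit 170) (nat_lit 154) (nat_lit 1) (nat_lit 725) c7_9828_1
 Tr.lf Tr.lf)) (Tr.nd (nat_lit 204) (nat_lit 5) (nat_lit 11) (nat_lit 895) c7_9828_1
 (Tr.nd (nat_lit 199) (nat_lit 6) (nat_lit 1) (nat_lit 889) c7_9828_1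
 Tr.lf Tr.lf) (Tr.nd (nat_lit 205) (nat_lit 23) (nat_lit 5) (nat_lit 950) c7_9828_1
 Tr.lf Tr.lf)))) (Tr.nd (nat_lit 247) (nat_lit 2) (nat_lit 1) (nat_lit 2324) c7_9828_1
 (Tr.nd (nat_lit 217) (nat_lit 6) (nat_lit 1) (nat_lit 1827) c7_9828_1
 (Tr.nd (nat_lit 212) (nat_lit 100) (nat_lit 3) (nat_lit 1251) c7_9828_1
 (Tr.nd (nat_lit 211) (nat_lit 23) (nat_lit 5) (nat_lit 1136) c7_9828_1
 (Tr.nd (nat_lit 210) (nat_lit 2) (nat_lit 5) (nat_lit 1126) c7_9828_1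
 Tr.lf Tr.lf) Tr.lf) (Tr.nd (nat_lit 213) (nat_lit 276) (nat_lit 1) (nat_lit 1551) c7_9828_1
 Tr.lf Tr.lf)) (Tr.nd (nat_lit 219) (nat_lit 276) (nat_lit 1) (nat_lit 1894) c7_9828_1
 (Tr.nd (nat_lit 218) (nat_lit 61) (nat_lit 1) (nat_lit 1833) c7_9828_1
 Tr.lf Tr.lf) (Tr.nd (nat_lit 220) (nat_lit 154) (nat_lit 1) (nat_lit 2170) c7_9828_1
 Tr.lf Tr.lf))) (Tr.nd (nat_lit 261) (nat_lit 116) (nat_lit 1) (nat_lit 2388) c7_9828_1
 (Tr.nd (nat_lit 259) (nat_lit 2) (nat_lit 1) (nat_lit 2362) c7_9828_1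
 (Tr.nd (nat_lit 254) (nat_lit 24) (nat_lit 1) (nat_lit 2338) c7_9828_1
 (Tr.nd (nat_lit 253) (nat_lit 4) (nat_lit 3) (nat_lit 2326) c7_9828_1
 Tr.lf Tr.lf) Tr.lf) (Tr.nd (nat_lit 260) (nat_lit 24) (nat_lit 1) (nat_lit 2364) c7_9828_1
 Tr.lf Tr.lf)) (Tr.nd (nat_lit 268) (nat_lit 61) (nat_lit 1) (nat_lit 2565) c7_9828_1
 (Tr.nd (nat_lit 262) (nat_lit 61) (nat_lit 1) (nat_lit 2504) c7_9828_1
 Tr.lf Tr.lf) (Tr.nd (nat_lit 269) (nat_lit 37) (nat_lit 1) (nat_lit 2626) c7_9828_1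
 Tr.lf Tr.lf))))))

noncomputable def c7_9816_0 : List Nat := [(nat_lit 0x690c0d83352ea2aeb602dd75b75b55c415652c74280766b65544acbba98a6d2b663d6cd5d031b9a5732c8792899870d223913553163b48e92b660309a04e6a4d5d4b6843090cf50acaddb240cdd000ce94c8e3730a694f2a9ea80c3001c256aa072e44a245888b0d0000018adcdc626a71a63b10820220318b9d26a3109a46f46dd68a1516c30005137b3cb016c42625d96a452576451162028d1869904bcc2588d13a2e68b776419082255aabb906a5d66b61589aa434a2d4a20004a0102884a445068773a71b5ad5a45355c465020784a3292bc519b0c8a19cadc1365a004239aa180c54f1408132da08dd8f04561b428e764585833100b0a8ed593558c1aa746e908da8d44900006502c162651a64549c8cb74bac4c2d5d56a25040b0b6ad94f51400000000000000000000000c569e44889da289891495444658f23017088d8ba48e80d912240a08b6dbb1000b1000000000000000000000008f0526daa4b62e9751682826cb3ceac4222bab313116ad0e081c2a46111e023826b184ec509ad238bcaec2e4db48a86c4b2503211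cccacd216b2b0eb3207894583828e217502d590c65273148c2c65181c383dad79493351db7519dc2ad216a9d6092dacdb50c8c16cae0a5e39a8f248bc9b2eb2f325c14d89bb6c603b3459dc6a3a4714a65046dac286715cd6c1918a6ad599d4599b36d5aa2a91886c8118691b9c118b1b5418e395251b0b0c75cb0321062d1c36e8d539a4c2751d6540508554241901d612c75028b8e4ea32c69dc766d8a01506a73526674d3185e34bda90f6a342b49840755766f41a338125642040801036027376ed3668940525a5212806ee0a8d000ec7588d3b536db4e8adc904a2ba43c60735d32c4bc9c07268d785b488b68ac69194a191352a1aaf36e669b20dc756154742c5932056066bb15340920a119109bc58d7627206820c0f2d20d1216aa72470098831172048056b11781b996d005560d1a62f50d081e16d8038f22dca454eec345a0b8569944602d481b259a9181271954c5c94d992d60c91b7627679c5747b31549a0a6d65156408d2a18195056126ed50a04d14ace434a52668e05e2abba628c6c34c26708322adbaca0616950a4852da2544f53227a8000000024669472553a8dd235a312590d4b0400000001716519d126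4216338c22b4156e04dc29c302b886136db8440aa915652b9c6db19a6ed768d9310e533acecac7152c50db2d9624582ba3b4525c68029b34466916c163b5832bb96100c43624b3264a921d89ba59a9a0a9512e8305b8bb691b697451170219bcd668b226d95a1199075561e88e6cd325475b5b245582af340474b63466a1302ab81a3a005da0282e6a14ce40031e764b6598dc3104e2684586866db76931cc464430a19a64c583060b6b3a4676d78cbb42134a404b354916045958d6e6aabab252ba054238ecc4701d8b5404168f538dd50c4024294c04002e54871ec4e0096a1c411a3c346ec0f47a6874776880268316a55783d012a0062db36eec0d800ae968645569e52b108c7478c809d834a9da6cc3634c6a32c7526517292eb6106d021660662115b0100d1b53d8bd492e0d25acba75813c8661eb4272c2c8c13b808f5d99321bb0d7129514e16d4c5ae18c509bc63a4359049b1150563313118e662872eb08dadd03025a63aaa87236c1753aa8f0d4e818961a9592290ab85a1d211d61a9b08dc6b2d1ad2ba318ad50d89508a9b865cea0e2604a62584b9bd856a5c4633120025e089d8392402baea66d8c558e742a822add354109824904037680a10ae703029da4b01200000000000000000000000000000000000000000000000000000000000000000000000000000000000000025930c581b600a252049696400000200cb220990d1a18354538a641146c45259d12891959ea60732c807a5c2165587449daab02024a598268936aab949b2412572c56e9ae8d29069104c529b4c3421b04513468c1a7a609d58c0688a0b820408a44552084cbaa24406cd0458120c0c32a76d2cd09175ba9425d081ae8699a34d9074009206bb5a36d2d340228)]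
noncomputable def c7_9816_1 : List Nat := [(nat_lit 0x2820536cdb0b76b8024813105b4e68699ae00cd6046eb7504cd2cdb1ab0c0309094114b6014a2acb408351522801086a2282910e55a1a6698c294d422ea25ae357421b9a479a9a53695216d57b52402443865723424a069d8d28e55263a14f4754aaac08795c61b9e45c82c15e4915294505a28d157086614c840031c5008800001649924244a206d80670d2580000000000000000000000000000000000000000000000000000000000000000000000000000000000000000e8231adb04c9cce9d29593d94d4ad4054156836961ad564208120e184ad424e696ac705217b58728e57a8b2d92dab3851775682cf5172999ade5a02c0a06d43713aa4d444b099d3950da041731358d5c30e36618920dae6852c4d27209426e7891adb48820a0ba58a1e8e1509d0e44550369059306b8736850e18ed0d5b46345461ccccc30d4955a8ad532645860614accebc6806d0b6526d61c4a5432c5a1b66d500d3214947071358e993a4366e2f13240463a8db2c6e68c6ab1b4d06702b1c04671d90d898352c8632c8b582d3541b07506736f118a39406d31d663280606a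50db230328b6f119a14818cd54acd19a01150baa63a9990b5a20b21082b426041131cc6700235a995a969976d46b206c74d2b86b962000daa81316e42d64bb04584a127b6523602c498ea31b419a3116ad8ea61c4546474885680b00c3a125d018075d83d9e61314e321a9c0de372113bab59b0ab6a8a4897512d25dd36a5e55ccac271489399d28cdb911172ce4ae2429d282d8d244cea15aa664e162d090a04f17581361880abb0876b944b41a5c14b68809c64d16b9aa1948196cb6c3cdd09156c8a392b65848901494a2729034cbc1e6e26566a86db4c2ba994b61c01a92396b1ad62eb930726800054ac5488942d4721cd0b247413114d65b4771d7352198a5532d9a12462368c05975b5158418b41a61b851d35751cc8c53d2246991e468a48462b5b483a222c4311a5092a28bb4d1348a87b39aa8f3d89dad295c22d5080a8dbc1593238616a825215a86d4d311b35071846c5eb4c80019c2db52da3310262e674c290ea2026cbd48cca972201216a0e103406296355a12984996621045216276b8339b40ac0c41242688ed742322169286662a829a2762f0c72635da606112d274d9362acd159b13306969222e6910435b62f04d6042233da5d283a56ee948b200e449300803462b79a8a54e6b6e6c902c21d69a4236108900ed3acc5102661ea6331970a565386829d71a5d28d62e165946783125b8d6dcc5d6d50e04aa4ac1a9b9b2c4c500734b6633a0c295b2e6234d088ac19d76a5b04d954d35523cb0a05a83d33d048e93a642e0b316a845a35ad64ae610682c9964b713ac1ccd561955d2e2488139134dc271)]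
noncomputable def T7_9816 : Op := Op.mk (nat_lit 73)
 (Tr.nd (nat_lit 148) (nat_lit 1) (nat_lit 63) (nat_lit 3332) c7_9816_0
 (Tr.nd (nat_lit 64) (nat_lit 5) (nat_lit 23) (nat_lit 1596) c7_9816_0
 (Tr.nd (nat_lit 49) (nat_lit 1) (nat_lit 154) (nat_lit 337) c7_9816_0
 (Tr.nd (nat_lit 9) (nat_lit 1) (nat_lit 24) (nat_lit 275) c7_9816_0
 (Tr.nd (nat_lit 7) (nat_lit 1) (nat_lit 61) (nat_lit 98) c7_9816_0
 (Tr.nd (nat_lit 1) (nat_lit 1) (nat_lit 61) (nat_lit 37) c7_9816_0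
 (Tr.nd (nat_lit 0) (nat_lit 1) (nat_lit 37) (nat_lit 0) c7_9816_0
 Tr.lf Tr.lf) Tr.lf) (Tr.nd (nat_lit 8) (nat_lit 1) (nat_lit 116) (nat_lit 159) c7_9816_0
 Tr.lf Tr.lf)) (Tr.nd (nat_lit 16) (nat_lit 2) (nat_lit 5) (nat_lit 325) c7_9816_0
 (Tr.nd (nat_lit 15) (nat_lit 1) (nat_lit 24) (nat_lit 301) c7_9816_0
 (Tr.nd (nat_lit 10) (nat_lit 1) (nat_lit 2) (nat_lit 299) c7_9816_0
 Tr.lf Tr.lf) Tr.lf) (Tr.nd (nat_lit 22) (nat_lit 1) (nat_lit 2) (nat_lit 335) c7_9816_0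
 Tr.lf Tr.lf))) (Tr.nd (nat_lit 57) (nat_lit 3) (nat_lit 100) (nat_lit 1110) c7_9816_0
 (Tr.nd (nat_lit 52) (nat_lit 1) (nat_lit 6) (nat_lit 828) c7_9816_0
 (Tr.nd (nat_lit 51) (nat_lit 1) (nat_lit 61) (nat_lit 767) c7_9816_0
 (Tr.nd (nat_lit 50) (nat_lit 1) (nat_lit 276) (nat_lit 491) c7_9816_0
 Tr.lf Tr.lf) Tr.lf) (Tr.nd (nat_lit 56) (nat_lit 1) (nat_lit 276) (nat_lit 834) c7_9816_0
 Tr.lf Tr.lf)) (Tr.nd (nat_lit 59) (nat_lit 5) (nat_lit 2) (nat_lit 1525) c7_9816_0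
 (Tr.nd (nat_lit 58) (nat_lit 5) (nat_lit 23) (nat_lit 1410) c7_9816_0
 Tr.lf Tr.lf) (Tr.nd (nat_lit 63) (nat_lit 1) (nat_lit 61) (nat_lit 1535) c7_9816_0
 Tr.lf Tr.lf)))) (Tr.nd (nat_lit 107) (nat_lit 10) (nat_lit 17) (nat_lit 2504) c7_9816_0
 (Tr.nd (nat_lit 100) (nat_lit 2) (nat_lit 37) (nat_lit 1951) c7_9816_0
 (Tr.nd (nat_lit 71) (nat_lit 5) (nat_lit 2) (nat_lit 1787) c7_9816_0
 (Tr.nd (nat_lit 70) (nat_lit 1) (nat_lit 6) (nat_lit 1781) c7_9816_0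
 (Tr.nd (nat_lit 65) (nat_lit 10) (nat_lit 7) (nat_lit 1711) c7_9816_0
 Tr.lf Tr.lf) Tr.lf) (Tr.nd (nat_lit 99) (nat_lit 1) (nat_lit 154) (nat_lit 1797) c7_9816_0
 Tr.lf Tr.lf)) (Tr.nd (nat_lit 105) (nat_lit 1) (nat_lit 154) (nat_lit 2035) c7_9816_0
 (Tr.nd (nat_lit 101) (nat_lit 2) (nat_lit 5) (nat_lit 2025) c7_9816_0
 Tr.lf Tr.lf) (Tr.nd (nat_lit 106) (nat_lit 5) (nat_lit 63) (nat_lit 2189) c7_9816_0
 Tr.lf Tr.lf))) (Tr.nd (nat_lit 115) (nat_lit 63) (nat_lit 1) (nat_lit 3162) c7_9816_0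
 (Tr.nd (nat_lit 113) (nat_lit 10) (nat_lit 17) (nat_lit 2782) c7_9816_0
 (Tr.nd (nat_lit 112) (nat_lit 2) (nat_lit 37) (nat_lit 2708) c7_9816_0
 (Tr.nd (nat_lit 108) (nat_lit 17) (nat_lit 2) (nat_lit 2674) c7_9816_0
 Tr.lf Tr.lf) Tr.lf) (Tr.nd (nat_lit 114) (nat_lit 30) (nat_lit 7) (nat_lit 2952) c7_9816_0
 Tr.lf Tr.lf)) (Tr.nd (nat_lit 120) (nat_lit 17) (nat_lit 2) (nat_lit 3235) c7_9816_0
 (Tr.nd (nat_lit 119) (nat_lit 2) (nat_lit 5) (nat_lit 3225) c7_9816_0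
 Tr.lf Tr.lf) (Tr.nd (nat_lit 121) (nat_lit 63) (nat_lit 1) (nat_lit 3269) c7_9816_0
 Tr.lf Tr.lf))))) (Tr.nd (nat_lit 206) (nat_lit 61) (nat_lit 1) (nat_lit 1065) c7_9816_1
 (Tr.nd (nat_lit 163) (nat_lit 63) (nat_lit 5) (nat_lit 170) c7_9816_1
 (Tr.nd (nat_lit 156) (nat_lit 17) (nat_lit 10) (nat_lit 3659) c7_9816_0
 (Tr.nd (nat_lit 154) (nat_lit 1) (nat_lit 63) (nat_lit 3441) c7_9816_0
 (Tr.nd (nat_lit 150) (nat_lit 4) (nat_lit 3) (nat_lit 3429) c7_9816_0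
 (Tr.nd (nat_lit 149) (nat_lit 2) (nat_lit 17) (nat_lit 3395) c7_9816_0
 Tr.lf Tr.lf) Tr.lf) (Tr.nd (nat_lit 155) (nat_lit 5) (nat_lit 31) (nat_lit 3504) c7_9816_0
 Tr.lf Tr.lf)) (Tr.nd (nat_lit 161) (nat_lit 2) (nat_lit 17) (nat_lit 3903) c7_9816_0
 (Tr.nd (nat_lit 157) (nat_lit 37) (nat_lit 2) (nat_lit 3829) c7_9816_0
 Tr.lf Tr.lf) (Tr.nd (nat_lit 162) (nat_lit 17) (nat_lit 10) (nat_lit 0) c7_9816_1
 Tr.lf Tr.lf))) (Tr.nd (nat_lit 198) (nat_lit 2) (nat_lit 5) (nat_lit 879) c7_9816_1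
 (Tr.nd (nat_lit 169) (nat_lit 37) (nat_lit 2) (nat_lit 651) c7_9816_1
 (Tr.nd (nat_lit 168) (nat_lit 4) (nat_lit 3) (nat_lit 639) c7_9816_1
 (Tr.nd (nat_lit 164) (nat_lit 154) (nat_lit 1) (nat_lit 485) c7_9816_1
 Tr.lf Tr.lf) Tr.lf) (Tr.nd (nat_lit 170) (nat_lit 154) (nat_lit 1) (nat_lit 725) c7_9816_1
 Tr.lf Tr.lf)) (Tr.nd (nat_lit 204) (nat_lit 5) (nat_lit 11) (nat_lit 895) c7_9816_1
 (Tr.nd (nat_lit 199) (nat_lit 6) (nat_lit 1) (nat_lit 889) c7_9816_1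
 Tr.lf Tr.lf) (Tr.nd (nat_lit 205) (nat_lit 23) (nat_lit 5) (nat_lit 950) c7_9816_1
 Tr.lf Tr.lf)))) (Tr.nd (nat_lit 247) (nat_lit 2) (nat_lit 1) (nat_lit 2324) c7_9816_1
 (Tr.nd (nat_lit 217) (nat_lit 6) (nat_lit 1) (nat_lit 1827) c7_9816_1
 (Tr.nd (nat_lit 212) (nat_lit 100) (nat_lit 3) (nat_lit 1251) c7_9816_1
 (Tr.nd (nat_lit 211) (nat_lit 23) (nat_lit 5) (nat_lit 1136) c7_9816_1
 (Tr.nd (nat_lit 210) (nat_lit 2) (nat_lit 5) (nat_lit 1126) c7_9816_1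
 Tr.lf Tr.lf) Tr.lf) (Tr.nd (nat_lit 213) (nat_lit 276) (nat_lit 1) (nat_lit 1551) c7_9816_1
 Tr.lf Tr.lf)) (Tr.nd (nat_lit 219) (nat_lit 276) (nat_lit 1) (nat_lit 1894) c7_9816_1
 (Tr.nd (nat_lit 218) (nat_lit 61) (nat_lit 1) (nat_lit 1833) c7_9816_1
 Tr.lf Tr.lf) (Tr.nd (nat_lit 220) (nat_lit 154) (nat_lit 1) (nat_lit 2170) c7_9816_1
 Tr.lf Tr.lf))) (Tr.nd (nat_lit 261) (nat_lit 116) (nat_lit 1) (nat_lit 2388) c7_9816_1
 (Tr.nd (nat_lit 259) (nat_lit 2) (nat_lit 1) (nat_lit 2362) c7_9816_1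
 (Tr.nd (nat_lit 254) (nat_lit 24) (nat_lit 1) (nat_lit 2338) c7_9816_1
 (Tr.nd (nat_lit 253) (nat_lit 4) (nat_lit 3) (nat_lit 2326) c7_9816_1
 Tr.lf Tr.lf) Tr.lf) (Tr.nd (nat_lit 260) (nat_lit 24) (nat_lit 1) (nat_lit 2364) c7_9816_1
 Tr.lf Tr.lf)) (Tr.nd (nat_lit 268) (nat_lit 61) (nat_lit 1) (nat_lit 2565) c7_9816_1
 (Tr.nd (nat_lit 262) (nat_lit 61) (nat_lit 1) (nat_lit 2504) c7_9816_1
 Tr.lf Tr.lf) (Tr.nd (nat_lit 269) (nat_lit 37) (nat_lit 1) (nat_lit 2626) c7_9816_1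
 Tr.lf Tr.lf))))))

noncomputable def c7_9873_0 : List Nat := [(nat_lit 0x4b56b2e0998100c0152c6052bb00db16e80c88299608f580859472a78b78dda632d535d4cb8154b0969a3b20526cb598e41e7b34d20aa2c5460d4441b0a3916a816454f2018841159000203882446b0394cb34374473cf649eb6e10e6b2052a8546306d5894aa814200016c5330a79bb05b528b0d60d9e9306d4040946a49a9d380c5ac9588eb22c344a172919ad5ca5c609d6980811d816c9219e099b512dd260223ce92f37a02f42988d00cd4112e230294b0ce5a542d6642f0006495055024b660e1da847234870312697200bac29350989688abac5532868a6a4409a28dc8e9d9a4f635c8dc53400a54d14c5a2a1d75416c0d0ba441d6405aa96610070d3301b42dcc2d881a015724166642ed0accb1619b1085464a0a9602703466644cde64d7800000000000000000000001887ac12e05d14d4e9ca3cad944289b552c16e053679e08c0ae8e086b5187154b008000000000000000000000086c88a068d4b3812d56714b36ca3051265a288ecc6c36243a09150645324c1a20639ed81b14a7202cb3598211e4f268d90544451a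c922d58e86164546b31487186a15108d4ca23b0000c5da555651b3282ac6d35516c9410e400b4bc35468223c0b64e62c4daa89d26b2c92d931c2dcded9015589c1aaa10a18842394b8571bc35cc015b862503c1c7a4808414b04289a9139925a86a8582b166db2e2c2bb06912ce78042472e1063522418a14ddcc0594144ccec55ae54230c95116d952aa5dc80771cc4aa1d928f18922eb5094619034e37b3cf68d51046eda638146b1b13621cc5ace1a9813872581701ce4a0269012060cd54b6141d705d5610a52474914b52b305a2a4a3c741816d2c9471051d648d558f16516c694b77063044076d016da275e8eb316d6bcc92c659286bcc314aa1b850ad1185173a1eaf4064a059b179bb8a6dc014b8e6436c44d987511613488a29414b842371ad2d0911c586ad6d816dcb880822b091a5b265dcc4a3000338b6a4acb595545a8bb9a55e388ce074d0a1699b0c29e92300a676390b99c632e820e1252de77666d12c4960518a65751108adae9ad2052b682ac244b75601a9cb21d70c8386928d229b299a3af1a01a7024b42551346901b9aacc285c1880000000669b0865d6691caab60b965d2ad4e000000005276b00225d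183168c978e81e4a3370cf592492b4583990f174e176ba60616d09b56f5572375c4868ca5db45786a992ea95526541135d6489468d63506587983318db46974228a4626e62a66d1b107024ea602da6ae347582b4704dd15ca5376095288eab5ca42ce4808f14cc4936a2526a621286132534a6b0e2424ad32025426c560cec4daa1a15241e9ad4e338dc35290b1a359070246ce96162a559897348045d71b3ad2d362442061644a57165094259ab8509bb01c312cd8d2a4aba40b346898b6c18320154c8c2c58e22bb013ab6b57a4165748d73c64001d75a0bb96af454576485d391ba15acce46d8af2ce6522bb0d6225a6039904659968c3da2369b34b20688985b6408b04179db74692d0baaace98438c31010f326e0d84c970e331c9b4d0acdcad4592dd645954461b88c6282950e282905b10a32143da45b2b8c6b56b2b9ec4e145ac3b835533321b418cc65cb06ac2d5ad96db8d66599ab8ed8f1a443503aa6990201960f60f025240b501718975d8b691918731d1430e71292ba1e82500b949c43823b0195482d46102c6acd602cbd2d3095aba423b1703a0686305bd20183945b654b5c0194459315e02646ed4a835c6999665668e401adcd658ca36614404db444188e4960663374da120d272528ce913128ec9c86bc64a9eb632628804ddaa438592529844036db95ab28cab769182e606275c9b04e179b7b063345a65c600b330169032d162d2a640b00342210d8c4675a72176446634ab07a5c006b58b14a5b636c004131e065d4cb93803d23af1308af68e1af14d250a319836c4560cd70000000000000004722290392401c00d800b3cc0032000030601b71210001b8038d040029122c088a10738a350b68b8ddd68c6da02450449216d8a00d)]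
noncomputable def c7_9873_1 : List Nat := [(nat_lit 0x14808ed90249411480b69c2dd5b8ca6cc4e28f1062808ca406800114e206a40010275a406300000b0003cf2006c00c404962122a4700000000000000a1018caf695bc4267382544d7669b549db46926a740203746b15306c450c82614a6e2c5ccd89305b44c3c8c5b50b1b7170394c0a04c00c85a23686532c4980032a200dc65a653c18d9b7998d0da475a8468c8726d6a2e2cad5adb4805068d92518c8ad6d00a284b96e6ac873a646b6289d01af0b12c4d2099b4d4b8589528a5065bae4de52932c59bc28d4c91d070432b2ba992b6862b6aac36cab1d9481ab87019a7321b45a026a886b88ca1c9a3a4836b554214ce3306ea993c928e52c8065b83b09aa8975cf272168b41502634eaea00d0542e599dada99065ecd431c658c829b260a58854c069ce5ae3ba165e4e36d96ed4cca98cb5874384d82d0b47420d86aba04f575226e80e0528702288aed664914450361194d92850b17487a6a5da1880614348a4e1c0130a785c3614d888d5e6d286991c95d351d2acb0c0cd1969e2a8109a0361e7042e572d74b2c98ac2327642d49599a6655166b93202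d42d262da36a4745b1723b414131552d8a052c010ecdd48e9590b60b04d8324d2d7ab5282cc7690802c48e68e129432e40d99d271266aa6ac6b35736a2c1038ab455d5b3451026498b60d9a92414d9d052092604b9e34ac666eac29ca9c8504acd0b5e55195565a5900d380c58da48915610c5135e795a4b412a02a8512626995665aa9a86a4d48dbd8d433c5a403b13356d13523805da24e3ab2ce020e56441c65472a85a89a44a159a536e1d0879865854e4e616025d74941584d562acb0a13a612916b46e1067ad5b59a57b009b98a2d5d74475d66956744d33a23cc88cb84138264e72b35e2c9740004d71b6952c0f632b224b0e730365d1d064cb60708cc4366ab8c034a6a2b0264918d20539d734365341a5134c6161ae3258d5203bad80995116d48849d35db540a0baad14288c92960b4bdabcd9b20c41159708c5bb162716ca0e585d20aa9a665a6e01e1b1ca84f4792b2ca7265a8000617936061607ab2d6c93906450401d636c8db2770ca380999274ea50319a2245152683282e30b6a06d82f1d620236d1d5bcced2816422677315ea28c0aa12a7525e74365912d84ada5c40418702b0d7308e1b33d80743da375aaa0391316ca0b5665eb90d1a56b8cbd400032ed4e2d601aac5511964b291ad1664ae250b9224ca21c4cd02058320b8c6d0b09441b0ee574ade8b5ad4d5bc3589592a69581873385561b724a61cd1a712eb489d12c1612e004cce90b85222c60370d4e264ed5639814824eb25b02ab2d2a521034016aa98f3259a1611965a75e50c5123107b3662810a502438cc634653588ac3053108545776)]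
noncomputable def T7_9873 : Op := Op.mk (nat_lit 73)
 (Tr.nd (nat_lit 148) (nat_lit 1) (nat_lit 63) (nat_lit 3332) c7_9873_0
 (Tr.nd (nat_lit 64) (nat_lit 5) (nat_lit 23) (nat_lit 1596) c7_9873_0
 (Tr.nd (nat_lit 49) (nat_lit 1) (nat_lit 154) (nat_lit 337) c7_9873_0
 (Tr.nd (nat_lit 9) (nat_lit 1) (nat_lit 24) (nat_lit 275) c7_9873_0
 (Tr.nd (nat_lit 7) (nat_lit 1) (nat_lit 61) (nat_lit 98) c7_9873_0
 (Tr.nd (nat_lit 1) (nat_lit 1) (nat_lit 61) (nat_lit 37) c7_9873_0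
 (Tr.nd (nat_lit 0) (nat_lit 1) (nat_lit 37) (nat_lit 0) c7_9873_0
 Tr.lf Tr.lf) Tr.lf) (Tr.nd (nat_lit 8) (nat_lit 1) (nat_lit 116) (nat_lit 159) c7_9873_0
 Tr.lf Tr.lf)) (Tr.nd (nat_lit 16) (nat_lit 2) (nat_lit 5) (nat_lit 325) c7_9873_0
 (Tr.nd (nat_lit 15) (nat_lit 1) (nat_lit 24) (nat_lit 301) c7_9873_0
 (Tr.nd (nat_lit 10) (nat_lit 1) (nat_lit 2) (nat_lit 299) c7_9873_0
 Tr.lf Tr.lf) Tr.lf) (Tr.nd (nat_lit 22) (nat_lit 1) (nat_lit 2) (nat_lit 335) c7_9873_0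
 Tr.lf Tr.lf))) (Tr.nd (nat_lit 57) (nat_lit 3) (nat_lit 100) (nat_lit 1110) c7_9873_0
 (Tr.nd (nat_lit 52) (nat_lit 1) (nat_lit 6) (nat_lit 828) c7_9873_0
 (Tr.nd (nat_lit 51) (nat_lit 1) (nat_lit 61) (nat_lit 767) c7_9873_0
 (Tr.nd (nat_lit 50) (nat_lit 1) (nat_lit 276) (nat_lit 491) c7_9873_0
 Tr.lf Tr.lf) Tr.lf) (Tr.nd (nat_lit 56) (nat_lit 1) (nat_lit 276) (nat_lit 834) c7_9873_0
 Tr.lf Tr.lf)) (Tr.nd (nat_lit 59) (nat_lit 5) (nat_lit 2) (nat_lit 1525) c7_9873_0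
 (Tr.nd (nat_lit 58) (nat_lit 5) (nat_lit 23) (nat_lit 1410) c7_9873_0
 Tr.lf Tr.lf) (Tr.nd (nat_lit 63) (nat_lit 1) (nat_lit 61) (nat_lit 1535) c7_9873_0
 Tr.lf Tr.lf)))) (Tr.nd (nat_lit 107) (nat_lit 10) (nat_lit 17) (nat_lit 2504) c7_9873_0
 (Tr.nd (nat_lit 100) (nat_lit 2) (nat_lit 37) (nat_lit 1951) c7_9873_0
 (Tr.nd (nat_lit 71) (nat_lit 5) (nat_lit 2) (nat_lit 1787) c7_9873_0
 (Tr.nd (nat_lit 70) (nat_lit 1) (nat_lit 6) (nat_lit 1781) c7_9873_0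
 (Tr.nd (nat_lit 65) (nat_lit 10) (nat_lit 7) (nat_lit 1711) c7_9873_0
 Tr.lf Tr.lf) Tr.lf) (Tr.nd (nat_lit 99) (nat_lit 1) (nat_lit 154) (nat_lit 1797) c7_9873_0
 Tr.lf Tr.lf)) (Tr.nd (nat_lit 105) (nat_lit 1) (nat_lit 154) (nat_lit 2035) c7_9873_0
 (Tr.nd (nat_lit 101) (nat_lit 2) (nat_lit 5) (nat_lit 2025) c7_9873_0
 Tr.lf Tr.lf) (Tr.nd (nat_lit 106) (nat_lit 5) (nat_lit 63) (nat_lit 2189) c7_9873_0
 Tr.lf Tr.lf))) (Tr.nd (nat_lit 115) (nat_lit 63) (nat_lit 1) (nat_lit 3162) c7_9873_0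
 (Tr.nd (nat_lit 113) (nat_lit 10) (nat_lit 17) (nat_lit 2782) c7_9873_0
 (Tr.nd (nat_lit 112) (nat_lit 2) (nat_lit 37) (nat_lit 2708) c7_9873_0
 (Tr.nd (nat_lit 108) (nat_lit 17) (nat_lit 2) (nat_lit 2674) c7_9873_0
 Tr.lf Tr.lf) Tr.lf) (Tr.nd (nat_lit 114) (nat_lit 30) (nat_lit 7) (nat_lit 2952) c7_9873_0
 Tr.lf Tr.lf)) (Tr.nd (nat_lit 120) (nat_lit 17) (nat_lit 2) (nat_lit 3235) c7_9873_0
 (Tr.nd (nat_lit 119) (nat_lit 2) (nat_lit 5) (nat_lit 3225) c7_9873_0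
 Tr.lf Tr.lf) (Tr.nd (nat_lit 121) (nat_lit 63) (nat_lit 1) (nat_lit 3269) c7_9873_0
 Tr.lf Tr.lf))))) (Tr.nd (nat_lit 206) (nat_lit 61) (nat_lit 1) (nat_lit 1065) c7_9873_1
 (Tr.nd (nat_lit 163) (nat_lit 63) (nat_lit 5) (nat_lit 170) c7_9873_1
 (Tr.nd (nat_lit 156) (nat_lit 17) (nat_lit 10) (nat_lit 3659) c7_9873_0
 (Tr.nd (nat_lit 154) (nat_lit 1) (nat_lit 63) (nat_lit 3441) c7_9873_0
 (Tr.nd (nat_lit 150) (nat_lit 4) (nat_lit 3) (nat_lit 3429) c7_9873_0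
 (Tr.nd (nat_lit 149) (nat_lit 2) (nat_lit 17) (nat_lit 3395) c7_9873_0
 Tr.lf Tr.lf) Tr.lf) (Tr.nd (nat_lit 155) (nat_lit 5) (nat_lit 31) (nat_lit 3504) c7_9873_0
 Tr.lf Tr.lf)) (Tr.nd (nat_lit 161) (nat_lit 2) (nat_lit 17) (nat_lit 3903) c7_9873_0
 (Tr.nd (nat_lit 157) (nat_lit 37) (nat_lit 2) (nat_lit 3829) c7_9873_0
 Tr.lf Tr.lf) (Tr.nd (nat_lit 162) (nat_lit 17) (nat_lit 10) (nat_lit 0) c7_9873_1
 Tr.lf Tr.lf))) (Tr.nd (nat_lit 198) (nat_lit 2) (nat_lit 5) (nat_lit 879) c7_9873_1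
 (Tr.nd (nat_lit 169) (nat_lit 37) (nat_lit 2) (nat_lit 651) c7_9873_1
 (Tr.nd (nat_lit 168) (nat_lit 4) (nat_lit 3) (nat_lit 639) c7_9873_1
 (Tr.nd (nat_lit 164) (nat_lit 154) (nat_lit 1) (nat_lit 485) c7_9873_1
 Tr.lf Tr.lf) Tr.lf) (Tr.nd (nat_lit 170) (nat_lit 154) (nat_lit 1) (nat_lit 725) c7_9873_1
 Tr.lf Tr.lf)) (Tr.nd (nat_lit 204) (nat_lit 5) (nat_lit 11) (nat_lit 895) c7_9873_1
 (Tr.nd (nat_lit 199) (nat_lit 6) (nat_lit 1) (nat_lit 889) c7_9873_1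
 Tr.lf Tr.lf) (Tr.nd (nat_lit 205) (nat_lit 23) (nat_lit 5) (nat_lit 950) c7_9873_1
 Tr.lf Tr.lf)))) (Tr.nd (nat_lit 247) (nat_lit 2) (nat_lit 1) (nat_lit 2324) c7_9873_1
 (Tr.nd (nat_lit 217) (nat_lit 6) (nat_lit 1) (nat_lit 1827) c7_9873_1
 (Tr.nd (nat_lit 212) (nat_lit 100) (nat_lit 3) (nat_lit 1251) c7_9873_1
 (Tr.nd (nat_lit 211) (nat_lit 23) (nat_lit 5) (nat_lit 1136) c7_9873_1
 (Tr.nd (nat_lit 210) (nat_lit 2) (nat_lit 5) (nat_lit 1126) c7_9873_1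
 Tr.lf Tr.lf) Tr.lf) (Tr.nd (nat_lit 213) (nat_lit 276) (nat_lit 1) (nat_lit 1551) c7_9873_1
 Tr.lf Tr.lf)) (Tr.nd (nat_lit 219) (nat_lit 276) (nat_lit 1) (nat_lit 1894) c7_9873_1
 (Tr.nd (nat_lit 218) (nat_lit 61) (nat_lit 1) (nat_lit 1833) c7_9873_1
 Tr.lf Tr.lf) (Tr.nd (nat_lit 220) (nat_lit 154) (nat_lit 1) (nat_lit 2170) c7_9873_1
 Tr.lf Tr.lf))) (Tr.nd (nat_lit 261) (nat_lit 116) (nat_lit 1) (nat_lit 2388) c7_9873_1
 (Tr.nd (nat_lit 259) (nat_lit 2) (nat_lit 1) (nat_lit 2362) c7_9873_1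
 (Tr.nd (nat_lit 254) (nat_lit 24) (nat_lit 1) (nat_lit 2338) c7_9873_1
 (Tr.nd (nat_lit 253) (nat_lit 4) (nat_lit 3) (nat_lit 2326) c7_9873_1
 Tr.lf Tr.lf) Tr.lf) (Tr.nd (nat_lit 260) (nat_lit 24) (nat_lit 1) (nat_lit 2364) c7_9873_1
 Tr.lf Tr.lf)) (Tr.nd (nat_lit 268) (nat_lit 61) (nat_lit 1) (nat_lit 2565) c7_9873_1
 (Tr.nd (nat_lit 262) (nat_lit 61) (nat_lit 1) (nat_lit 2504) c7_9873_1
 Tr.lf Tr.lf) (Tr.nd (nat_lit 269) (nat_lit 37) (nat_lit 1) (nat_lit 2626) c7_9873_1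
 Tr.lf Tr.lf))))))

noncomputable def c7_9825_0 : List Nat := [(nat_lit 0x21900ac888034d6632d7a8a9c35dc900762ceb6da947726182143b5adc393a4c8da4f62d8076a49a95100d8604b910cd8999b738c4c1d8eb405ab2b011b318c7332152b091e05d60cc32646a0d31666dcce4a8da6b2b6748d1c192616816ecc9e0c9826305863ba4c0001e4944b56c621a0ed3232760726ac0dc7b5a438b648b19690b7504dcab3199daa25d96c67658527095ea20944baca6d148900a4eb1d7b0653ca13b5989b802db0ce79edadab42ed18b7318ad05151b660001ada42d34196b05d44269d9229aeb531a2d9dc6e2080c1888928baad6224060db606c110cd15d5daeeaa686021b12da4300952e575164054218041d4eaf6533012ae89648194cdb8e6ac36aa0068d6ac2db88a22d50e8d9c2d66656ddb3cf161b640d49d2ec4c580000000000000000000000dae71599bda1d75ac609974b309da345dc1b214baad2d695163ac540b684899ac2940000000000000000000000c1d5361800eed08c1229484921d4457742e3b157863ac9317344246c31862d89b470e014db0c7236066dc708456cdcaac080d298c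c216cbc036ed7a165b0c5216b2888e261d650a4ccd85e7662aecda6b594422e00d816b08a3009d33255d98bb9121ab7544a2732c66f275576125ec227abc7314d8ed054120402d2a836aa030ec98101890b8070ec742e6615894ab3c028318e8628c56d4a15670e2cc549940088411c204d3118ce98d28ecaed2a1606709360b18a6bd446e331bada8c14f4132002d8c05e5a5b5d42aadb7110d3ae117425a628b96183c8545635c322b1a7ad460108b62dac406c7245e1847a3421b0e202799b334549b43892730f008c59cd93702a86a1b6d668c8d1d4852a8ce34056154dac644da69068ac227058249bb21820840a0629ab90940a8a515806d6a1312f4c920f03b553188214dc8602e004d9ac5022aba94da98c12b089342d5289cd44454c7208a2ac29b9a92b20cbc500e986a2adba17a601c4889626e3c0572a76394ba62bb3a48890c82cf6ca8150c34c90ceb5040ed8b58abd007721a136229e82419a4721223817b16d3030973b498d9108cdb94dc9b29b0de76020d1a21a5549664b1550a69a544cb01620230d350aa09663d63722b1294b6a95400000000920766abc2a40b805a202f64dd42800000000620b14b5b61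b482b7158d8ad4c16a5d0320710e4c51bb5a11598c22d4b3884326ce910a196506899638628f3414bb36c30ca8456050c9c6e063a454e8d4db4249cc99ce941492868ab33c8b96cd40d59d693713b441471b75ca86c19052c2c5368818b3b9100396ec842161756c942506eb1664b458355694980768b02ab3c7201460cb0a109a5d768635320ba2cf2b6593436149d8d9b1b02e675adc4d19ac79d2134430ee644a4b088c51384b8c646c61433614d3024e14cb157690595692345552cea86300a414565223a4b0b42c2ce619433499012d13c3122198ca9024b0c82b318d61cd66355a900e6134349d3676b0958d0aaa9ad88d16db5cd6a4e330e965d9576e8cd45b6cad10c4e6db9833aa4cc68e3a9a26d20753a80a684ca7225ac74bd6ab6e54dd8bb494ec1903844aa2c4942b1e3464c079e530c0600cc5b6dd485612cc9c560f40d9ac0825180c596aba2a42239585138dc4256ec63008865959d5208c919cabd8408d0aec2ba0b0204c1d1568644008421c0d286916e8e690b76e154460d666d97566312f6b8bcb5c1828d9a118b28e954b9d7b6990b2b68cd8bd9931a2d9bae052b23493249494cccc0bcc8a2b68baaa98192a5508c632d4e6823d0d6e9c738ee869d12b8dd9ac4988d9148a91242ec7368435953a2822d712cc4aa3103118cbb1cda193031b0e27abc96d2995470a3a0a76012958ba5851c98705a72659c01baa6d8b48732c669552440f318b48210d61e48840ca19a0e2eea224820f678cda8b484d0d517ac245848d6d60959188acacb2975e35068e0108a04cd4114102c02000000000000030912f035b6052c035b768a00416000030831b71230021b8638d0400010cbc0d995049cf4cd321416ed08ca48063b52b6c8061ea29)]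
noncomputable def c7_9825_1 : List Nat := [(nat_lit 0x68b98602db2376380922c0cdad1102d3d33c49156948ccb04000114e386a60030275a70830000190400a2d6dd2033406dd2332520c0000000000000445936b84660703549956594520272024198570b6d25b39692ccac01c1ad75b3769829a44248f66b2a74063b0840a59874c0824ce0f31013559a1cb460da0002baf32b165ac6d1186b14659a8762406c6898a31c561b364b3b9a8c3708d219b472b2e150850aa942c9d7282298d593066d1cacc901aa45252a12727b53ac25c44990180a8f18a8c23d1b59e4732a6da6d2004933435c254144088a0488319e49c6430b18a90f067448a468a6850251690c4ee863a067714c39a0d58a9e406c75062956b5d4e02b088b533713a300ab4e5d59d96d733034f0382990cd06cd8587a18c508c464282571765860203876b5207538946558a812a2ba9967018583238ace481570c0c1da4d046f4716b8b935c5bd1e60c60694b66cc2012ed292e86c335c6906a21110c1202a5c862b8d52300051b749830c8c2252b44403a471d4e24cdba87907a678a78121120941c0140eb38b81caa409a16979070d6a0aa8c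194e5b5284bcb35706484d926b94aa25b0e825c70cb4a54c71408719389288ac8b112accd2440a1c70699335d383d703a00e8a8a8a898cb8599b706101cc3772a0526685286390359a60d621171154252a9a04db436a92db70928e30990a43359284509cd697994c0b0326c186846c5246d15e1ac4dc56c619a70a5b97697088318a34191e102751cb179a1a8d4695d98407530c2f57ada0424e6edcd2c9341192a58aca8323564411af16b469216d370ad506b846a712c501d0622c30de20b2ad405cd4a6358b4ec2e329e81cb72d8edb1181a84d826704198dc18468d7ac43550e8da5846818251800024347b2005c32281a590c2ac34eb22c0ae55902a3534644d5b2372e70b24546269870052819682a4d3462aa590b26ab30530a4112bcd86d16d6a6c6de0602dc26d7ac18069b3b323152058a4f0904cd15293360b0746dae8368ac0455add15c740ad014cda55215310c6f340a72860016372d59c6d4b014a3034cccd6d45530d60239961644dd1b4654514163a22a0ba3512b90a4941d821d1368dd55042393da00350305a9a1050e8aec466100026457ab631af0352cc8413320196348b3533151405a420c260e6466bac92e7952c8151d4b85ad842342d195e2836b6aa1a8b05234608b1154e92c82166dd41266338124479cdaac1a710d30acdc0336b342b2dd5695406c6341a8d22cd34b6080269d71284482966125c95b1291d80b156112553780885c9941c646422035b4d6a96d83166981a5cd980d300d718c0ae081b880b044d97147932e911da454c1272526258b9a100b0b9ae24b424ce51142b2995c4e)]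
noncomputable def T7_9825 : Op := Op.mk (nat_lit 73)
 (Tr.nd (nat_lit 148) (nat_lit 1) (nat_lit 63) (nat_lit 3332) c7_9825_0
 (Tr.nd (nat_lit 64) (nat_lit 5) (nat_lit 23) (nat_lit 1596) c7_9825_0
 (Tr.nd (nat_lit 49) (nat_lit 1) (nat_lit 154) (nat_lit 337) c7_9825_0
 (Tr.nd (nat_lit 9) (nat_lit 1) (nat_lit 24) (nat_lit 275) c7_9825_0
 (Tr.nd (nat_lit 7) (nat_lit 1) (nat_lit 61) (nat_lit 98) c7_9825_0
 (Tr.nd (nat_lit 1) (nat_lit 1) (nat_lit 61) (nat_lit 37) c7_9825_0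
 (Tr.nd (nat_lit 0) (nat_lit 1) (nat_lit 37) (nat_lit 0) c7_9825_0
 Tr.lf Tr.lf) Tr.lf) (Tr.nd (nat_lit 8) (nat_lit 1) (nat_lit 116) (nat_lit 159) c7_9825_0
 Tr.lf Tr.lf)) (Tr.nd (nat_lit 16) (nat_lit 2) (nat_lit 5) (nat_lit 325) c7_9825_0
 (Tr.nd (nat_lit 15) (nat_lit 1) (nat_lit 24) (nat_lit 301) c7_9825_0
 (Tr.nd (nat_lit 10) (nat_lit 1) (nat_lit 2) (nat_lit 299) c7_9825_0
 Tr.lf Tr.lf) Tr.lf) (Tr.nd (nat_lit 22) (nat_lit 1) (nat_lit 2) (nat_lit 335) c7_9825_0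
 Tr.lf Tr.lf))) (Tr.nd (nat_lit 57) (nat_lit 3) (nat_lit 100) (nat_lit 1110) c7_9825_0
 (Tr.nd (nat_lit 52) (nat_lit 1) (nat_lit 6) (nat_lit 828) c7_9825_0
 (Tr.nd (nat_lit 51) (nat_lit 1) (nat_lit 61) (nat_lit 767) c7_9825_0
 (Tr.nd (nat_lit 50) (nat_lit 1) (nat_lit 276) (nat_lit 491) c7_9825_0
 Tr.lf Tr.lf) Tr.lf) (Tr.nd (nat_lit 56) (nat_lit 1) (nat_lit 276) (nat_lit 834) c7_9825_0
 Tr.lf Tr.lf)) (Tr.nd (nat_lit 59) (nat_lit 5) (nat_lit 2) (nat_lit 1525) c7_9825_0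
 (Tr.nd (nat_lit 58) (nat_lit 5) (nat_lit 23) (nat_lit 1410) c7_9825_0
 Tr.lf Tr.lf) (Tr.nd (nat_lit 63) (nat_lit 1) (nat_lit 61) (nat_lit 1535) c7_9825_0
 Tr.lf Tr.lf)))) (Tr.nd (nat_lit 107) (nat_lit 10) (nat_lit 17) (nat_lit 2504) c7_9825_0
 (Tr.nd (nat_lit 100) (nat_lit 2) (nat_lit 37) (nat_lit 1951) c7_9825_0
 (Tr.nd (nat_lit 71) (nat_lit 5) (nat_lit 2) (nat_lit 1787) c7_9825_0
 (Tr.nd (nat_lit 70) (nat_lit 1) (nat_lit 6) (nat_lit 1781) c7_9825_0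
 (Tr.nd (nat_lit 65) (nat_lit 10) (nat_lit 7) (nat_lit 1711) c7_9825_0
 Tr.lf Tr.lf) Tr.lf) (Tr.nd (nat_lit 99) (nat_lit 1) (nat_lit 154) (nat_lit 1797) c7_9825_0
 Tr.lf Tr.lf)) (Tr.nd (nat_lit 105) (nat_lit 1) (nat_lit 154) (nat_lit 2035) c7_9825_0
 (Tr.nd (nat_lit 101) (nat_lit 2) (nat_lit 5) (nat_lit 2025) c7_9825_0
 Tr.lf Tr.lf) (Tr.nd (nat_lit 106) (nat_lit 5) (nat_lit 63) (nat_lit 2189) c7_9825_0
 Tr.lf Tr.lf))) (Tr.nd (nat_lit 115) (nat_lit 63) (nat_lit 1) (nat_lit 3162) c7_9825_0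
 (Tr.nd (nat_lit 113) (nat_lit 10) (nat_lit 17) (nat_lit 2782) c7_9825_0
 (Tr.nd (nat_lit 112) (nat_lit 2) (nat_lit 37) (nat_lit 2708) c7_9825_0
 (Tr.nd (nat_lit 108) (nat_lit 17) (nat_lit 2) (nat_lit 2674) c7_9825_0
 Tr.lf Tr.lf) Tr.lf) (Tr.nd (nat_lit 114) (nat_lit 30) (nat_lit 7) (nat_lit 2952) c7_9825_0
 Tr.lf Tr.lf)) (Tr.nd (nat_lit 120) (nat_lit 17) (nat_lit 2) (nat_lit 3235) c7_9825_0
 (Tr.nd (nat_lit 119) (nat_lit 2) (nat_lit 5) (nat_lit 3225) c7_9825_0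
 Tr.lf Tr.lf) (Tr.nd (nat_lit 121) (nat_lit 63) (nat_lit 1) (nat_lit 3269) c7_9825_0
 Tr.lf Tr.lf))))) (Tr.nd (nat_lit 206) (nat_lit 61) (nat_lit 1) (nat_lit 1065) c7_9825_1
 (Tr.nd (nat_lit 163) (nat_lit 63) (nat_lit 5) (nat_lit 170) c7_9825_1
 (Tr.nd (nat_lit 156) (nat_lit 17) (nat_lit 10) (nat_lit 3659) c7_9825_0
 (Tr.nd (nat_lit 154) (nat_lit 1) (nat_lit 63) (nat_lit 3441) c7_9825_0
 (Tr.nd (nat_lit 150) (nat_lit 4) (nat_lit 3) (nat_lit 3429) c7_9825_0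
 (Tr.nd (nat_lit 149) (nat_lit 2) (nat_lit 17) (nat_lit 3395) c7_9825_0
 Tr.lf Tr.lf) Tr.lf) (Tr.nd (nat_lit 155) (nat_lit 5) (nat_lit 31) (nat_lit 3504) c7_9825_0
 Tr.lf Tr.lf)) (Tr.nd (nat_lit 161) (nat_lit 2) (nat_lit 17) (nat_lit 3903) c7_9825_0
 (Tr.nd (nat_lit 157) (nat_lit 37) (nat_lit 2) (nat_lit 3829) c7_9825_0
 Tr.lf Tr.lf) (Tr.nd (nat_lit 162) (nat_lit 17) (nat_lit 10) (nat_lit 0) c7_9825_1
 Tr.lf Tr.lf))) (Tr.nd (nat_lit 198) (nat_lit 2) (nat_lit 5) (nat_lit 879) c7_9825_1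
 (Tr.nd (nat_lit 169) (nat_lit 37) (nat_lit 2) (nat_lit 651) c7_9825_1
 (Tr.nd (nat_lit 168) (nat_lit 4) (nat_lit 3) (nat_lit 639) c7_9825_1
 (Tr.nd (nat_lit 164) (nat_lit 154) (nat_lit 1) (nat_lit 485) c7_9825_1
 Tr.lf Tr.lf) Tr.lf) (Tr.nd (nat_lit 170) (nat_lit 154) (nat_lit 1) (nat_lit 725) c7_9825_1
 Tr.lf Tr.lf)) (Tr.nd (nat_lit 204) (nat_lit 5) (nat_lit 11) (nat_lit 895) c7_9825_1
 (Tr.nd (nat_lit 199) (nat_lit 6) (nat_lit 1) (nat_lit 889) c7_9825_1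
 Tr.lf Tr.lf) (Tr.nd (nat_lit 205) (nat_lit 23) (nat_lit 5) (nat_lit 950) c7_9825_1
 Tr.lf Tr.lf)))) (Tr.nd (nat_lit 247) (nat_lit 2) (nat_lit 1) (nat_lit 2324) c7_9825_1
 (Tr.nd (nat_lit 217) (nat_lit 6) (nat_lit 1) (nat_lit 1827) c7_9825_1
 (Tr.nd (nat_lit 212) (nat_lit 100) (nat_lit 3) (nat_lit 1251) c7_9825_1
 (Tr.nd (nat_lit 211) (nat_lit 23) (nat_lit 5) (nat_lit 1136) c7_9825_1
 (Tr.nd (nat_lit 210) (nat_lit 2) (nat_lit 5) (nat_lit 1126) c7_9825_1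
 Tr.lf Tr.lf) Tr.lf) (Tr.nd (nat_lit 213) (nat_lit 276) (nat_lit 1) (nat_lit 1551) c7_9825_1
 Tr.lf Tr.lf)) (Tr.nd (nat_lit 219) (nat_lit 276) (nat_lit 1) (nat_lit 1894) c7_9825_1
 (Tr.nd (nat_lit 218) (nat_lit 61) (nat_lit 1) (nat_lit 1833) c7_9825_1
 Tr.lf Tr.lf) (Tr.nd (nat_lit 220) (nat_lit 154) (nat_lit 1) (nat_lit 2170) c7_9825_1
 Tr.lf Tr.lf))) (Tr.nd (nat_lit 261) (nat_lit 116) (nat_lit 1) (nat_lit 2388) c7_9825_1
 (Tr.nd (nat_lit 259) (nat_lit 2) (nat_lit 1) (nat_lit 2362) c7_9825_1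
 (Tr.nd (nat_lit 254) (nat_lit 24) (nat_lit 1) (nat_lit 2338) c7_9825_1
 (Tr.nd (nat_lit 253) (nat_lit 4) (nat_lit 3) (nat_lit 2326) c7_9825_1
 Tr.lf Tr.lf) Tr.lf) (Tr.nd (nat_lit 260) (nat_lit 24) (nat_lit 1) (nat_lit 2364) c7_9825_1
 Tr.lf Tr.lf)) (Tr.nd (nat_lit 268) (nat_lit 61) (nat_lit 1) (nat_lit 2565) c7_9825_1
 (Tr.nd (nat_lit 262) (nat_lit 61) (nat_lit 1) (nat_lit 2504) c7_9825_1
 Tr.lf Tr.lf) (Tr.nd (nat_lit 269) (nat_lit 37) (nat_lit 1) (nat_lit 2626) c7_9825_1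
 Tr.lf Tr.lf))))))

noncomputable def c7_9861_0 : List Nat := [(nat_lit 0x3715b0095943082b10d001618a22a90dc058862120a2a7440986310d0d20c6505164b261b6681b51b6498aa31426e193550c52cb530540b8dd29ecda68ea9b2cb61219bb30285d86b981b149562aa203420e19aed7224bc73928b01821c284c268256c0e94ca649c00019913a8ca96a244857a0102c028a6789334c8496d1a4501bb6022508485814696054ace30ac0e71b36dd50464c8834cb72724dad343ab42decaca5041b75265095c743c694756d9103a166a352b132880003a88a8c2a22e01220a4d4b6420818c439c8d0a932dccc1a646b3c243a140d9ae6362a8c42649146c2824b40e151d83d74a4233190679390d21e8d969509c8f63009001017099134620994d580241936851681d89c4f215880b6ee28d398ae3b022d2adb082365580000000000000000000000522d0259416dc9e9904a626431bad58ada897160ac1491b1822c044f528b6b48f0a400000000000000000000000967aa09094e8242e6d16d4410db2b981a8cd2c06905818aaf55b4433aaa1930cd64b70285189354933206c41b38530856ecae3992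d100526042951a434c2c4f0c134da82858e15dbb1634b7269e30e41da1964a4dc65841a925aa020c691021d23c520b28db030acd35c20c32b20380564c1048101b25702cdb4280685541591bb58d8b559c180e35992ce803a228c281009519212b542166c365a6069a1894314cbb57a6b732757b22c4c3375d15454ca2c68c3218eb0ad18808b9208d162a458924575ae37990a9328971d4b56a924c201721a9a02c0ba8322238679a09926040572eb9b51310a89b31c94b486c516261abdb53148b5b36a1939336e12d05aa0a894c5dd00ce5a821997995b2045112275203b8ba42a1e746d81a132c55ac13614c71388334669059a785296535b3198ac1a574b81c1880012d71bc06c035850d2343b599947abca3014b654c1a6330d5b4335a2d58163382d20c1650c53ae14ecacc9ba5e7529599207ac681206bb6b5bcad715b9da94220b53031a1e832734489a9155a4b58953aaa2c413168159323ab1693d4ca0b28b30869810a7a8d6819a1b5068908573c02a1ad8066ab5981a765a504d94434f2a1360daab69ba4579bbb040910b885c1cc76c49448000000183b6182d09280caee6b263605b3b580000000164c8da56565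1360a0420845d095122752a6329c7210d39465b090b48a661272023ba65b0d8521ec6b55bda279b19ada9d0ec6b6f24e68b020ccd29057b5da84a606ea70426a182714cb92c174142c9255075aa921522a0b11d9ca83543841b234e1b69b70c12a48aaba108e1911d2b868d50575574d6a31855e168809d2ca462125682c5d24ace4ac2636ee5712f104199060892041c21da762320716b3a824d025e49a04dd2cc94310444cd3a8cce0daa39376166c55572d2f080ea58b6245a86080c8556f1b5d9adb30d92a0493066923320d8b5201c4a553ae16cd7923b2566b8d99aaad0ca71260e25365968096024c399471a2659b298971025b11ca4ace6044e0c36682b8e1985649228866084cdc1dacdb294e24118aacd2d68525a8c4c0020d9885e44aa6a1ac540583090bb430ac582ce9651566d464b6a0b217163a00e092172a216cc9444a9ddb2aaac89c86b23c6251112cd41cc155bdb42c4c69050ca1d8d69c708b7670e9028757a1ace1024a2471a2e3980cb0eed8195520502d848805c324564decaa0d8da664688eb816db6598a8c54d1b28b05548b48a0a931a174ae9ce9758d9c7306e28d14052ed172a61d1e96d81c836d886458d882b2a677365e48cb4371b70195884b8ed1820088e310c858660c5644851aab38b220cdb27586a08d464a1720ac89892c55b472baeae571dba02661a225914806065e60881e84a659804a5652b4a6ae24b2b6295ac89ce01b08e5b71523023a8e26bb00c0b0b6d9b3a9aeb31a34dc332f4c0a88868e344726d839268d52884c218d815512db4b44030a8d4000000000000000000000000032502093861b200000000810000000300000000000002e03000100000bcb690b7b0000000000001b58a2db4da93000)]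
noncomputable def c7_9861_1 : List Nat := [(nat_lit 0xd2b4db68a1da400000000000366cc9b2cc80000400301a80000000000000c00000040080000000b61862482112c0000000000000000000000000cb4b0b515581ae9449a2e2db28961c8b22d92acba4a637467524d1cb08eac3317135b229a2a55158dc11d35ae00e4475b63836023c4ac9d8a5ab24a3ba24c0015a8c9a165a26662021e65884034164a9868489ad71d8eebaac53754b206a4a82d4225c4e089875adb420aca3caa7102564708586643038e0202185ae32568101332496842000a442e99c846314382c2b93239a051a2d92ccc3c8398a9aa469b02da3209a8b6d02cacdcc1602a91a19908319b8a355876bba28836b321db50692028b6a665ba0a0ed216698256a136c775a40a681a2603acda9b14314c858c4a732b8955a4dd3b18b0441a740ccdb37510f1174b0151287392e0b12b2aaac223861123aab025a53ada1963604d165ab22b4a20cc0d4dca861d80541dda5c208b3c316e6441b246762a39a5d8e03364303506c98d1612e12e102b2b646c3827ab7032a623346b8b23ab749a0d96ea4e4e1918a55ca02140dc94c413d29ba33531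20372042c10c9a299b59b0d43428c6139216f5451483d639084f3c61754305c94d8caac549a13095b1a8b1d8dd35045cc21b4a83aab35829b5b6d4318eb51c8596202408288600d8f6cc135bc0a66314c812d6578e8228c8b9d39106994b349b8b88c2ab2cc070cccaaab8dc45aa1760d556a0c09942ca2b644526a0441a0451dd825450625415a38ca62c12e949922d6b169a9e828750aad60db724d54a9573c84250c192ee810c6ea46890bb5d9d1224f4208ca68d2cdba76331bb2ca281267499599444968300a32e6c18698d82de0b34064e87339496b192e0aa09e46815e98b730cec368340004326b8e633280629ce344bd2a01335d8ae4e544a24e986b99c146602421b56f3a0d6d3755a4368559a60a2da08db2b4c42ed54b0364c54067aa064148bb04f016e1734600d306165164586e6933957212e816b1944edba829593149d4d5a8b5764c0d0028676a142895a72a62b1460019dbaec484e5cc490bb12af335b5a55b1a35c6862ca2106d11e0c8cad16e866ca985c3486acb6201c59dce2d0bb58a52628c981b019b8ed800103188d611a640e13651e0ec122599d8e2829b101019999e6229228830d50113458aca93b6e1b3645405a5ac9e7713a08eb28819ad5db33d494f1c0a09d2ddb5808c04989295836e020b5a4a973299b8a952e8551413a9b9cab359c4f5d50980a5501e22a2725001a0823b716ea5340943690e465e99ad8a0f3d6541a181199302b4d25690919ccf002a6162f5630a1e9927584d64cdcf35600e8c23a8182c89b443b0d8c57b5a20356acc05ecadb84754723d62244ac0934505)]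
noncomputable def T7_9861 : Op := Op.mk (nat_lit 73)
 (Tr.nd (nat_lit 148) (nat_lit 1) (nat_lit 63) (nat_lit 3332) c7_9861_0
 (Tr.nd (nat_lit 64) (nat_lit 5) (nat_lit 23) (nat_lit 1596) c7_9861_0
 (Tr.nd (nat_lit 49) (nat_lit 1) (nat_lit 154) (nat_lit 337) c7_9861_0
 (Tr.nd (nat_lit 9) (nat_lit 1) (nat_lit 24) (nat_lit 275) c7_9861_0
 (Tr.nd (nat_lit 7) (nat_lit 1) (nat_lit 61) (nat_lit 98) c7_9861_0
 (Tr.nd (nat_lit 1) (nat_lit 1) (nat_lit 61) (nat_lit 37) c7_9861_0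
 (Tr.nd (nat_lit 0) (nat_lit 1) (nat_lit 37) (nat_lit 0) c7_9861_0
 Tr.lf Tr.lf) Tr.lf) (Tr.nd (nat_lit 8) (nat_lit 1) (nat_lit 116) (nat_lit 159) c7_9861_0
 Tr.lf Tr.lf)) (Tr.nd (nat_lit 16) (nat_lit 2) (nat_lit 5) (nat_lit 325) c7_9861_0
 (Tr.nd (nat_lit 15) (nat_lit 1) (nat_lit 24) (nat_lit 301) c7_9861_0
 (Tr.nd (nat_lit 10) (nat_lit 1) (nat_lit 2) (nat_lit 299) c7_9861_0
 Tr.lf Tr.lf) Tr.lf) (Tr.nd (nat_lit 22) (nat_lit 1) (nat_lit 2) (nat_lit 335) c7_9861_0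
 Tr.lf Tr.lf))) (Tr.nd (nat_lit 57) (nat_lit 3) (nat_lit 100) (nat_lit 1110) c7_9861_0
 (Tr.nd (nat_lit 52) (nat_lit 1) (nat_lit 6) (nat_lit 828) c7_9861_0
 (Tr.nd (nat_lit 51) (nat_lit 1) (nat_lit 61) (nat_lit 767) c7_9861_0
 (Tr.nd (nat_lit 50) (nat_lit 1) (nat_lit 276) (nat_lit 491) c7_9861_0
 Tr.lf Tr.lf) Tr.lf) (Tr.nd (nat_lit 56) (nat_lit 1) (nat_lit 276) (nat_lit 834) c7_9861_0
 Tr.lf Tr.lf)) (Tr.nd (nat_lit 59) (nat_lit 5) (nat_lit 2) (nat_lit 1525) c7_9861_0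
 (Tr.nd (nat_lit 58) (nat_lit 5) (nat_lit 23) (nat_lit 1410) c7_9861_0
 Tr.lf Tr.lf) (Tr.nd (nat_lit 63) (nat_lit 1) (nat_lit 61) (nat_lit 1535) c7_9861_0
 Tr.lf Tr.lf)))) (Tr.nd (nat_lit 107) (nat_lit 10) (nat_lit 17) (nat_lit 2504) c7_9861_0
 (Tr.nd (nat_lit 100) (nat_lit 2) (nat_lit 37) (nat_lit 1951) c7_9861_0
 (Tr.nd (nat_lit 71) (nat_lit 5) (nat_lit 2) (nat_lit 1787) c7_9861_0
 (Tr.nd (nat_lit 70) (nat_lit 1) (nat_lit 6) (nat_lit 1781) c7_9861_0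
 (Tr.nd (nat_lit 65) (nat_lit 10) (nat_lit 7) (nat_lit 1711) c7_9861_0
 Tr.lf Tr.lf) Tr.lf) (Tr.nd (nat_lit 99) (nat_lit 1) (nat_lit 154) (nat_lit 1797) c7_9861_0
 Tr.lf Tr.lf)) (Tr.nd (nat_lit 105) (nat_lit 1) (nat_lit 154) (nat_lit 2035) c7_9861_0
 (Tr.nd (nat_lit 101) (nat_lit 2) (nat_lit 5) (nat_lit 2025) c7_9861_0
 Tr.lf Tr.lf) (Tr.nd (nat_lit 106) (nat_lit 5) (nat_lit 63) (nat_lit 2189) c7_9861_0
 Tr.lf Tr.lf))) (Tr.nd (nat_lit 115) (nat_lit 63) (nat_lit 1) (nat_lit 3162) c7_9861_0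
 (Tr.nd (nat_lit 113) (nat_lit 10) (nat_lit 17) (nat_lit 2782) c7_9861_0
 (Tr.nd (nat_lit 112) (nat_lit 2) (nat_lit 37) (nat_lit 2708) c7_9861_0
 (Tr.nd (nat_lit 108) (nat_lit 17) (nat_lit 2) (nat_lit 2674) c7_9861_0
 Tr.lf Tr.lf) Tr.lf) (Tr.nd (nat_lit 114) (nat_lit 30) (nat_lit 7) (nat_lit 2952) c7_9861_0
 Tr.lf Tr.lf)) (Tr.nd (nat_lit 120) (nat_lit 17) (nat_lit 2) (nat_lit 3235) c7_9861_0
 (Tr.nd (nat_lit 119) (nat_lit 2) (nat_lit 5) (nat_lit 3225) c7_9861_0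
 Tr.lf Tr.lf) (Tr.nd (nat_lit 121) (nat_lit 63) (nat_lit 1) (nat_lit 3269) c7_9861_0
 Tr.lf Tr.lf))))) (Tr.nd (nat_lit 206) (nat_lit 61) (nat_lit 1) (nat_lit 1065) c7_9861_1
 (Tr.nd (nat_lit 163) (nat_lit 63) (nat_lit 5) (nat_lit 170) c7_9861_1
 (Tr.nd (nat_lit 156) (nat_lit 17) (nat_lit 10) (nat_lit 3659) c7_9861_0
 (Tr.nd (nat_lit 154) (nat_lit 1) (nat_lit 63) (nat_lit 3441) c7_9861_0
 (Tr.nd (nat_lit 150) (nat_lit 4) (nat_lit 3) (nat_lit 3429) c7_9861_0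
 (Tr.nd (nat_lit 149) (nat_lit 2) (nat_lit 17) (nat_lit 3395) c7_9861_0
 Tr.lf Tr.lf) Tr.lf) (Tr.nd (nat_lit 155) (nat_lit 5) (nat_lit 31) (nat_lit 3504) c7_9861_0
 Tr.lf Tr.lf)) (Tr.nd (nat_lit 161) (nat_lit 2) (nat_lit 17) (nat_lit 3903) c7_9861_0
 (Tr.nd (nat_lit 157) (nat_lit 37) (nat_lit 2) (nat_lit 3829) c7_9861_0
 Tr.lf Tr.lf) (Tr.nd (nat_lit 162) (nat_lit 17) (nat_lit 10) (nat_lit 0) c7_9861_1
 Tr.lf Tr.lf))) (Tr.nd (nat_lit 198) (nat_lit 2) (nat_lit 5) (nat_lit 879) c7_9861_1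
 (Tr.nd (nat_lit 169) (nat_lit 37) (nat_lit 2) (nat_lit 651) c7_9861_1
 (Tr.nd (nat_lit 168) (nat_lit 4) (nat_lit 3) (nat_lit 639) c7_9861_1
 (Tr.nd (nat_lit 164) (nat_lit 154) (nat_lit 1) (nat_lit 485) c7_9861_1
 Tr.lf Tr.lf) Tr.lf) (Tr.nd (nat_lit 170) (nat_lit 154) (nat_lit 1) (nat_lit 725) c7_9861_1
 Tr.lf Tr.lf)) (Tr.nd (nat_lit 204) (nat_lit 5) (nat_lit 11) (nat_lit 895) c7_9861_1
 (Tr.nd (nat_lit 199) (nat_lit 6) (nat_lit 1) (nat_lit 889) c7_9861_1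
 Tr.lf Tr.lf) (Tr.nd (nat_lit 205) (nat_lit 23) (nat_lit 5) (nat_lit 950) c7_9861_1
 Tr.lf Tr.lf)))) (Tr.nd (nat_lit 247) (nat_lit 2) (nat_lit 1) (nat_lit 2324) c7_9861_1
 (Tr.nd (nat_lit 217) (nat_lit 6) (nat_lit 1) (nat_lit 1827) c7_9861_1
 (Tr.nd (nat_lit 212) (nat_lit 100) (nat_lit 3) (nat_lit 1251) c7_9861_1
 (Tr.nd (nat_lit 211) (nat_lit 23) (nat_lit 5) (nat_lit 1136) c7_9861_1
 (Tr.nd (nat_lit 210) (nat_lit 2) (nat_lit 5) (nat_lit 1126) c7_9861_1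
 Tr.lf Tr.lf) Tr.lf) (Tr.nd (nat_lit 213) (nat_lit 276) (nat_lit 1) (nat_lit 1551) c7_9861_1
 Tr.lf Tr.lf)) (Tr.nd (nat_lit 219) (nat_lit 276) (nat_lit 1) (nat_lit 1894) c7_9861_1
 (Tr.nd (nat_lit 218) (nat_lit 61) (nat_lit 1) (nat_lit 1833) c7_9861_1
 Tr.lf Tr.lf) (Tr.nd (nat_lit 220) (nat_lit 154) (nat_lit 1) (nat_lit 2170) c7_9861_1
 Tr.lf Tr.lf))) (Tr.nd (nat_lit 261) (nat_lit 116) (nat_lit 1) (nat_lit 2388) c7_9861_1
 (Tr.nd (nat_lit 259) (nat_lit 2) (nat_lit 1) (nat_lit 2362) c7_9861_1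
 (Tr.nd (nat_lit 254) (nat_lit 24) (nat_lit 1) (nat_lit 2338) c7_9861_1
 (Tr.nd (nat_lit 253) (nat_lit 4) (nat_lit 3) (nat_lit 2326) c7_9861_1
 Tr.lf Tr.lf) Tr.lf) (Tr.nd (nat_lit 260) (nat_lit 24) (nat_lit 1) (nat_lit 2364) c7_9861_1
 Tr.lf Tr.lf)) (Tr.nd (nat_lit 268) (nat_lit 61) (nat_lit 1) (nat_lit 2565) c7_9861_1
 (Tr.nd (nat_lit 262) (nat_lit 61) (nat_lit 1) (nat_lit 2504) c7_9861_1
 Tr.lf Tr.lf) (Tr.nd (nat_lit 269) (nat_lit 37) (nat_lit 1) (nat_lit 2626) c7_9861_1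
 Tr.lf Tr.lf))))))

noncomputable def c7_8853_0 : List Nat := [(nat_lit 0x108a1a6ca59ad16996a622b058222a030b52a91248d30a131b812085b648242aa4b39cc66c1b61319a1359b462bc84d9860b89dbb621869ab42c1165066a7468db35a2d0565b58db542cce6d5d88a32a5ae5548a830b17052506557022e805476b0e4b644ac2b4a1c0003578252449db12475b2a6eb2568753714a00a9bb0a29849781c5041b2de4d9622a51519d09351ae692c75c150973934a0845ea5d32e2cc6ec919741104499590989273535b26cc44c20e42daa5bd0b7a80012d1576450a06cb67a2b0c0e8a9265b07694a833305cc1c45d202f3b4ca226416f329e90ea3366370b785c64cd179b20b50586d799126a0e21ea2178446cd8d11b796a2d08a4f1c92c0310cc0564e48dcd999b3536646106a07b496e89e249d02c8b4a0808acb90000000000000000000000064d96c049725865945020d9921dcd94b4ad3ae52434dc4159ab76078ac9244c989580000000000000000000000b14b008d554d4de8513b631da9dc6e41c688256c6d263d4e27471522239ebb54957aa163c8e1596ac80ac10512918d52b96d0980a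c1ec96b4bbae71d6710d5025975d44bb14c9a0211b35482e8126c3628c9cb52a02cd805665cca4d5a28caac4c4432488c5815e031261c9a315091474c44128964ce510d16e952196a8aa6cb13a962e179a1467a0640c88ba06ab64c7082f558a342245aa66edc222a9255c1c65e918730cb04eb2245866308902f45845a081a4a44d881962336a7aed9e98cb6b473a005210e8b286704b42994a0ce8dae380356230940cc9649a2531d49594a022a1c0d625c016164b60a2e68ca7249bca4c03c062e64631409549b2973ae679269802a3abd3111e8018cb9aa112814616ac5198c5bd29789cd0721a220217716c5c6d0e604a99601e54e62898a523486d4eb548a315808548467660988642153302b51650d8939209a4d308142db772098c6005489318e60001082eb7457266276a9a2c48693a65d40272a668048b5a2c8c44a490d333b19aa976c76b882162c0dbb331a151800896162a60411b2c85eaa0166c69281889122c02698a307a8d4e98936a2b5a428ec39a52a4a3863cc90a2ad35531a0933d2645e885235d461660443b5698b5035864860c4b00000001241111980de42d26e2a5625bad0538000000015ad6846a30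a390e2a146d129254813d222c10d2daec9d30b323a40d69cc44ad36ec66a491b5120a423946d4b2ac72a9962d206b5046374d5767ae05d59dc8e8856a982400a384d9281ab151911988e819ac80553088b5b20d6512488ec3265a082856ca5bc868f00f131176a9a671cd4d04321805149b59d034228cc5af302b84058c9221a6d9b0aed4363635c3304a0920848570a8ead21620817554d5aeace2708826a7680b4a20304e330b7000ecaded1ece6d0cb5484618310d6e3463332cc056d64e59206a6e8b444867340a8c5dd2c3a805176526a45595a6f172cdb6022cda2b6100000000000000000000000000000000000000000000000003364b12ac021a0246eb148905d35a2e8f150cc4318105012362b1452c305a31068d99b59c85ccb34e46d5105116988458220892d73282a6a6000000000000000000000000000000000698ad02d000b6aac06ad6990ae89b8b145e329aadd047460b4a44cecb5e92d6625688d421e4a2a9b65ad9d7a55992cb0b2c7335871241938a185612d3599b9a46e54a971978112e60aad055bd5d92b4cb471b1676847248aa7384bb4631e8c0cd3d49a12bb30e82855a01ab0c341230a182b9bc590ac4847056cb34a8848e330193165176d4ac66cda66e10282c0d89844a361165208b155eb95044146600d8822110b8801029a822ed3311b66378318b455c061066b2a1d228c336d49049859a2801032d6e81158dcf585c1b528ca697a118e3ab22ac93a000000000000000000000000000000000006dc8090180dc0db0e06900300dcadb0e529b71b9000000000000000000000000000000000000000000000c21400000000001b6242406036236c311a40030362b6c31456b94848000000000000000000000141980000)]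
noncomputable def c7_8853_1 : List Nat := [(nat_lit 0x6845000000000000000000000009916b91470db23b00c0126070db03b01804813b60000000000050830000000000000000000000000000000002c30988f5836d4c85c49052c5b346955e94415059c083d6b10cb99d0a22893468d80d322c1b3a6670a2cd95ad2ca82ee38e066669b0a376119973d4e4509800351852a29a51a41244dbc30a0d62ac9e10603545338319b85b703d36a08ba21000a33018083b001e1440455ae751ca0916506c2c0613b00c8a018de9b4a6201ab8866019975d644864a532d8ad30355a3b1e740d2a65383505252e5ad424b826ab6e954cba921505cb5eca9da52687925a67b0954828d1a0e309bd95ba19a8b06cc280650a30ccf548a7b6b450e8066d59c34042b1a3869248b6b9382966da2ac8ac6b659b1db2676caf406cc8615c135aa9b0e651ca36a6a8169da980eab4ec162b46c9d95a9e8adc337a05a4192195a48d0b9846e155dd80305c616932162438cd78b70e164a84ad175304d8db224404925aa3018996501a69bb2d72098680a6481e05a2229b5b86c2eb654ae52a8a506679ad14c8921d159d2d26880981035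4a038a14d20740f5493d88af510961391ad735193a0a431860ee363cb28b65804f51ab884026288b5b4d34205106db460032d4c32b06aca64e1ceb8a81616666f210092260c94d71d15b55a948b720ee28e84a8ed886db0124d2a92084eb75cdba70a9c736840b042982a6028c1d272436cdd55509a530a4b6092e5b846153756e08587b1daeae8820475634c6b263c8d485340634880711452a0a00161511469c7a458640a204821a9d0a62b5795646b9ed5535b85056e00da196ab042d85a09ad62caab0a7224470c5ab2628a17b6ba1b1b9a1428b654ca289c7332d516871428a329259044c00020d414c20a34552d4037b4d5cc1da098dcd6c59284306b0192ad0d3bb1808d28c2eb81a14ccad267a41306aa69d51025e70c7125624f195c40db91569274c6e1731850d340652025421134ed28115ccc965280424b631539458d5199274b0ac244116ad9aa2102656a4ae695089d8001aca84b34356240bac35a4c1394d15ad42d6aa6b751020000f1c1a522204383416adb6621069a4d0491a5298b289d01e88c0b05090f62e04a8403a1c521932730a304a1d107ad38cb2e02431555c58e3608ce2cbd49170450bb39b57185b306ba00ca5c1262c280a1ea45403d40373434393b73208830713c860993202ec8f42212d29a45083586a3b926f02d621c813ce1526540a58ccccd9372b64b95a2bd49d04174d13552c12a8008d1706e0a0559c680c6baa0b86100536cc910c6da765c06bb5da48006696e08d96c1c9808e682656622cea4c2a649924d8012da0653474d5106d6c3d6a20c266396aa15268e8cda70d)]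
noncomputable def T7_8853 : Op := Op.mk (nat_lit 73)
 (Tr.nd (nat_lit 148) (nat_lit 1) (nat_lit 63) (nat_lit 3332) c7_8853_0
 (Tr.nd (nat_lit 64) (nat_lit 5) (nat_lit 23) (nat_lit 1596) c7_8853_0
 (Tr.nd (nat_lit 49) (nat_lit 1) (nat_lit 154) (nat_lit 337) c7_8853_0
 (Tr.nd (nat_lit 9) (nat_lit 1) (nat_lit 24) (nat_lit 275) c7_8853_0
 (Tr.nd (nat_lit 7) (nat_lit 1) (nat_lit 61) (nat_lit 98) c7_8853_0
 (Tr.nd (nat_lit 1) (nat_lit 1) (nat_lit 61) (nat_lit 37) c7_8853_0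
 (Tr.nd (nat_lit 0) (nat_lit 1) (nat_lit 37) (nat_lit 0) c7_8853_0
 Tr.lf Tr.lf) Tr.lf) (Tr.nd (nat_lit 8) (nat_lit 1) (nat_lit 116) (nat_lit 159) c7_8853_0
 Tr.lf Tr.lf)) (Tr.nd (nat_lit 16) (nat_lit 2) (nat_lit 5) (nat_lit 325) c7_8853_0
 (Tr.nd (nat_lit 15) (nat_lit 1) (nat_lit 24) (nat_lit 301) c7_8853_0
 (Tr.nd (nat_lit 10) (nat_lit 1) (nat_lit 2) (nat_lit 299) c7_8853_0
 Tr.lf Tr.lf) Tr.lf) (Tr.nd (nat_lit 22) (nat_lit 1) (nat_lit 2) (nat_lit 335) c7_8853_0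
 Tr.lf Tr.lf))) (Tr.nd (nat_lit 57) (nat_lit 3) (nat_lit 100) (nat_lit 1110) c7_8853_0
 (Tr.nd (nat_lit 52) (nat_lit 1) (nat_lit 6) (nat_lit 828) c7_8853_0
 (Tr.nd (nat_lit 51) (nat_lit 1) (nat_lit 61) (nat_lit 767) c7_8853_0
 (Tr.nd (nat_lit 50) (nat_lit 1) (nat_lit 276) (nat_lit 491) c7_8853_0
 Tr.lf Tr.lf) Tr.lf) (Tr.nd (nat_lit 56) (nat_lit 1) (nat_lit 276) (nat_lit 834) c7_8853_0
 Tr.lf Tr.lf)) (Tr.nd (nat_lit 59) (nat_lit 5) (nat_lit 2) (nat_lit 1525) c7_8853_0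
 (Tr.nd (nat_lit 58) (nat_lit 5) (nat_lit 23) (nat_lit 1410) c7_8853_0
 Tr.lf Tr.lf) (Tr.nd (nat_lit 63) (nat_lit 1) (nat_lit 61) (nat_lit 1535) c7_8853_0
 Tr.lf Tr.lf)))) (Tr.nd (nat_lit 107) (nat_lit 10) (nat_lit 17) (nat_lit 2504) c7_8853_0
 (Tr.nd (nat_lit 100) (nat_lit 2) (nat_lit 37) (nat_lit 1951) c7_8853_0
 (Tr.nd (nat_lit 71) (nat_lit 5) (nat_lit 2) (nat_lit 1787) c7_8853_0
 (Tr.nd (nat_lit 70) (nat_lit 1) (nat_lit 6) (nat_lit 1781) c7_8853_0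
 (Tr.nd (nat_lit 65) (nat_lit 10) (nat_lit 7) (nat_lit 1711) c7_8853_0
 Tr.lf Tr.lf) Tr.lf) (Tr.nd (nat_lit 99) (nat_lit 1) (nat_lit 154) (nat_lit 1797) c7_8853_0
 Tr.lf Tr.lf)) (Tr.nd (nat_lit 105) (nat_lit 1) (nat_lit 154) (nat_lit 2035) c7_8853_0
 (Tr.nd (nat_lit 101) (nat_lit 2) (nat_lit 5) (nat_lit 2025) c7_8853_0
 Tr.lf Tr.lf) (Tr.nd (nat_lit 106) (nat_lit 5) (nat_lit 63) (nat_lit 2189) c7_8853_0
 Tr.lf Tr.lf))) (Tr.nd (nat_lit 115) (nat_lit 63) (nat_lit 1) (nat_lit 3162) c7_8853_0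
 (Tr.nd (nat_lit 113) (nat_lit 10) (nat_lit 17) (nat_lit 2782) c7_8853_0
 (Tr.nd (nat_lit 112) (nat_lit 2) (nat_lit 37) (nat_lit 2708) c7_8853_0
 (Tr.nd (nat_lit 108) (nat_lit 17) (nat_lit 2) (nat_lit 2674) c7_8853_0
 Tr.lf Tr.lf) Tr.lf) (Tr.nd (nat_lit 114) (nat_lit 30) (nat_lit 7) (nat_lit 2952) c7_8853_0
 Tr.lf Tr.lf)) (Tr.nd (nat_lit 120) (nat_lit 17) (nat_lit 2) (nat_lit 3235) c7_8853_0
 (Tr.nd (nat_lit 119) (nat_lit 2) (nat_lit 5) (nat_lit 3225) c7_8853_0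
 Tr.lf Tr.lf) (Tr.nd (nat_lit 121) (nat_lit 63) (nat_lit 1) (nat_lit 3269) c7_8853_0
 Tr.lf Tr.lf))))) (Tr.nd (nat_lit 206) (nat_lit 61) (nat_lit 1) (nat_lit 1065) c7_8853_1
 (Tr.nd (nat_lit 163) (nat_lit 63) (nat_lit 5) (nat_lit 170) c7_8853_1
 (Tr.nd (nat_lit 156) (nat_lit 17) (nat_lit 10) (nat_lit 3659) c7_8853_0
 (Tr.nd (nat_lit 154) (nat_lit 1) (nat_lit 63) (nat_lit 3441) c7_8853_0
 (Tr.nd (nat_lit 150) (nat_lit 4) (nat_lit 3) (nat_lit 3429) c7_8853_0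
 (Tr.nd (nat_lit 149) (nat_lit 2) (nat_lit 17) (nat_lit 3395) c7_8853_0
 Tr.lf Tr.lf) Tr.lf) (Tr.nd (nat_lit 155) (nat_lit 5) (nat_lit 31) (nat_lit 3504) c7_8853_0
 Tr.lf Tr.lf)) (Tr.nd (nat_lit 161) (nat_lit 2) (nat_lit 17) (nat_lit 3903) c7_8853_0
 (Tr.nd (nat_lit 157) (nat_lit 37) (nat_lit 2) (nat_lit 3829) c7_8853_0
 Tr.lf Tr.lf) (Tr.nd (nat_lit 162) (nat_lit 17) (nat_lit 10) (nat_lit 0) c7_8853_1
 Tr.lf Tr.lf))) (Tr.nd (nat_lit 198) (nat_lit 2) (nat_lit 5) (nat_lit 879) c7_8853_1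
 (Tr.nd (nat_lit 169) (nat_lit 37) (nat_lit 2) (nat_lit 651) c7_8853_1
 (Tr.nd (nat_lit 168) (nat_lit 4) (nat_lit 3) (nat_lit 639) c7_8853_1
 (Tr.nd (nat_lit 164) (nat_lit 154) (nat_lit 1) (nat_lit 485) c7_8853_1
 Tr.lf Tr.lf) Tr.lf) (Tr.nd (nat_lit 170) (nat_lit 154) (nat_lit 1) (nat_lit 725) c7_8853_1
 Tr.lf Tr.lf)) (Tr.nd (nat_lit 204) (nat_lit 5) (nat_lit 11) (nat_lit 895) c7_8853_1
 (Tr.nd (nat_lit 199) (nat_lit 6) (nat_lit 1) (nat_lit 889) c7_8853_1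
 Tr.lf Tr.lf) (Tr.nd (nat_lit 205) (nat_lit 23) (nat_lit 5) (nat_lit 950) c7_8853_1
 Tr.lf Tr.lf)))) (Tr.nd (nat_lit 247) (nat_lit 2) (nat_lit 1) (nat_lit 2324) c7_8853_1
 (Tr.nd (nat_lit 217) (nat_lit 6) (nat_lit 1) (nat_lit 1827) c7_8853_1
 (Tr.nd (nat_lit 212) (nat_lit 100) (nat_lit 3) (nat_lit 1251) c7_8853_1
 (Tr.nd (nat_lit 211) (nat_lit 23) (nat_lit 5) (nat_lit 1136) c7_8853_1
 (Tr.nd (nat_lit 210) (nat_lit 2) (nat_lit 5) (nat_lit 1126) c7_8853_1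
 Tr.lf Tr.lf) Tr.lf) (Tr.nd (nat_lit 213) (nat_lit 276) (nat_lit 1) (nat_lit 1551) c7_8853_1
 Tr.lf Tr.lf)) (Tr.nd (nat_lit 219) (nat_lit 276) (nat_lit 1) (nat_lit 1894) c7_8853_1
 (Tr.nd (nat_lit 218) (nat_lit 61) (nat_lit 1) (nat_lit 1833) c7_8853_1
 Tr.lf Tr.lf) (Tr.nd (nat_lit 220) (nat_lit 154) (nat_lit 1) (nat_lit 2170) c7_8853_1
 Tr.lf Tr.lf))) (Tr.nd (nat_lit 261) (nat_lit 116) (nat_lit 1) (nat_lit 2388) c7_8853_1
 (Tr.nd (nat_lit 259) (nat_lit 2) (nat_lit 1) (nat_lit 2362) c7_8853_1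
 (Tr.nd (nat_lit 254) (nat_lit 24) (nat_lit 1) (nat_lit 2338) c7_8853_1
 (Tr.nd (nat_lit 253) (nat_lit 4) (nat_lit 3) (nat_lit 2326) c7_8853_1
 Tr.lf Tr.lf) Tr.lf) (Tr.nd (nat_lit 260) (nat_lit 24) (nat_lit 1) (nat_lit 2364) c7_8853_1
 Tr.lf Tr.lf)) (Tr.nd (nat_lit 268) (nat_lit 61) (nat_lit 1) (nat_lit 2565) c7_8853_1
 (Tr.nd (nat_lit 262) (nat_lit 61) (nat_lit 1) (nat_lit 2504) c7_8853_1
 Tr.lf Tr.lf) (Tr.nd (nat_lit 269) (nat_lit 37) (nat_lit 1) (nat_lit 2626) c7_8853_1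
 Tr.lf Tr.lf))))))

noncomputable def c7_9765_0 : List Nat := [(nat_lit 0x56230f0900b56a807a084cc2a62052656b0dac4bd466a4cc564552a5b5ad6d0a0e61a8d051a4bb69437a8d368434e873477616eb91b9c45b35d4492a66107aec3457255ed7526e8217b41adcd1699699a08a6e2f1164161cf30d8204291415c1109384326e67283300002138459b9b0ab396584957087005a9612c992872b8ea15811c19636c170114a203a16de84a69d4b14a8ade8a1521851d0a0c4a1388c60c68b4e3865cd841c341615d4aa6a321c4d55d844ab1c30da83480035830e6a26784831d5d2864d046a08932d6aa56342a50304985a4c4a51ac93ad0b4c555a5552ac361d4aab32a8e990b7125d28d81a4cc24862254272a553b612ce1ac413505a6a281833d82c03cdc011a45d8618e56032baa938c855351baa0c8a630837ac31c68000000000000000000000014c6648688152357724038aac54b5b70278d432ca1c1c2c291aa51a44858861323700000000000000000000000c22258c25160714713384c5531d91cd3258dad307121906b685c35c2ba1c1304468ab8a2745068576c6271e8a37b2a75d88499c53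99904841dc8a4408a1ccbcf517566e10a258b4eab32467a9663cc5cb405e66e6cdd04971b63102dad0e108bcd5bb4428ab0ce0dac8c0db17938356acc94ad5b819340e0795024203cc056d0e9b4ed1bd04af4c5e2e339e184c1666d592545cf44db46bba2bb37a3da44ec905acb53090a1456c3c82623550564321d4362e21668cd35572422001620d0d15289035054d14bb1b065c82c8ac5241c4089429250d855e4a0a40470d0c785602b83702559b4b8a26e539355ad960edd2a96060301d505153a4b90402934ac1096971c04874d7154e8a518db964ccea0ab964cad6038b519a1972c5606842518e6a73aa48f0576919c9e78baf4c2198656e6217958ccd4c28dccb00ad5b411a36c210a677387318ecca042ac3d1c96d17178695b7357b5d746c3ac14b1a2156356ea2a00a1186f59b4b5ac2424696c6058a23749140a6c4918989e06d665c2dced6720816060d80b39990d8c288957a5c0a80e7890f618a1566898e4b15d9536655509a27539ab4a2a8a1b859213902d6d6e52b5664840da3d712ea760ca4148a49d4c661784865aed76612d2484f00000000eab9194ca662757282dc71a48a5060000000022434244845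51c6448872cb08a0a641b0181a8426d475dac92a4c03a1d4a816cb1648396d64469eb8db093431806c0440a850e08cab9631129e54522c084459ca1c88456464b9d59ac45500cc6cdad5b0a025d57646b2865619413ad01956a363728262130d9d233224b8eb69c03cb41328235ad39b744302505086d420f555056054c72b1a924c6db86936a41a2a4c74d69b91a6d6e1821b738a9b66cc9baa5490405092b6c61719160b2bcc8a40ad5b6008578b59a39524a4cc6e58cd6ce412953c533828ee690b4c2a8c35642ba574a4aa386d820d9acd01165d1939b28c4a1a71809946d386298cdd46094342cd6a4dba84cca6594ae9319634f6363a5c4449843100d42d891419878538b44d082d5d5a17a6d414cb866474b5a260594c8cb74ca9a216902ad2c68c45a1261981974db08b228089c1988535b13846dcd9b39829ed984a0113491d012747b0c03ca2b6b29adb1c60a054d48518eda98a000d81a436458517045cb8677286670e5b1adb615634333cd1029cd50601ac989d1bb4c958c930dda5015b28411308310ca010e0c060834a082439dd5d6495610d514391b34e81e51292cd1b0f6015d89a32503c58cabb54069b051ac0e2b6a6d6c5185229ebaeb7641570e54d4adc0d6cc5b40082f3b5ac8620e94ec618a219055289331aad287049516e524c0201c2ddb31cf5c2a200a142c90b49ae3415264960816e86c3a10005805c586956644c59548cdaad71a293d433083710450935a2a8d3588da21681260b0758b15506b29256634ae5a468ac1d0566564f16e3740a71703632d26944c19591a00000000000000000000000004440c0e4400180000000081401800010000800000192680205850c023422d8425b000000000000674042a6c1b88000)]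
noncomputable def c7_9765_1 : List Nat := [(nat_lit 0xea436a8405780000000000036481968330203146420029258000002000040006005008000000018001588c01500000000000000000000000000651d598d282cccac8ad649a0794c2ab5c94b58c606aa46f50c814926862969c74d59e7066a280bc9eb59b1b4d214107520c2c5cd229c76ab4b91594352174001accaa2500042b0d8ad908649691114eba4c812cc42800aa35cf1d2d6cc602034916b45490c624ea70b4a25505828a187636620e0b276bcc8204d942dd201769b30b96ad1d4d64eb0502cd1351552a2239a0985a662ead8a0283040d9c2cc08c4667599dc8a348b88cd3485476da68c283495e30035c53114902a92d976d1d388049d5a6e029b19250056b605746cc0d4626dc45a43c91133b6a5664ccd72dab81aa1b36508519494c9806c00286adae14644d5028871db268bb6a8b3030c49225461bb0496989423cb4d095b2cd6766c546b4a216412946e3760234d547ac7656c3ca92c930c2692662a332d111b16d020ae58da01aa131026375c901a9941e6ce7968a0306029393666c76712d5b24b94ba0556c713413c200b6d6421a73207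380a44ca2ba5199d623660701491856c9946608341daabcc6629cac6e6645761c3244b40178b084ac3d25742655ac451da5d5b17708ce693ad5519a0dcc9851675b6d8ca3ae091a680a8c2cb722a662c691cc13256dcae13ad54dd9c20d201b415a00ea2d1b40902318816b4cd2a0b1a9218a24e56a60518d8149625b5cb0d49b33631685adbb95cd1195766b88c96c0d071adc0dd85e014b4996912208c641d841b578a4ec8564502b18b1654084a0d15668950e5aa2e08c50a8053c28628128d4a868963358b03012361b9015d419972861189a6a52306b022861aad2134134eb0da862ccbb0000149389386032a36e12328a174b2114b08bc9e79a049d68b6475db0c83330b86e24d06891612b5593ae73600c90bb91b1bb6e4246812cc6c515146d4f1b894d0aaad29ab6aa591c253ca8470d98273c44446b3375696ed1b1588f40580467000b4b5aa00a0ba4ecd2233388c528a18001342ad4e5b30264193b66d2e6c3811015175a9ca8c14e4887586e6baecee8dbb30ccea2db239987502117b1c1e31eaf440c1b614a09bb910197a9461ba44a1083c948d1b736849916718c644e22e6da721771b31b2ca6e80c513b691230659814d44ec706806804cc322a525b8e6f361b91ece50e4c1946b4868b174316e36174328d95a6155ad01b054211455d6a1920f045606cced0844280a94852ec41936c9481324d620d74e8deb62aea12b91a19111849b0286ad52bc7019a0d06cbd9074682302c9b4280c0d88a9a686aba58d1cf4c2e0857ab9516e58d49a67308dca8a336782ab556d59b6502d175e704a2ccb630d)]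
noncomputable def T7_9765 : Op := Op.mk (nat_lit 73)
 (Tr.nd (nat_lit 148) (nat_lit 1) (nat_lit 63) (nat_lit 3332) c7_9765_0
 (Tr.nd (nat_lit 64) (nat_lit 5) (nat_lit 23) (nat_lit 1596) c7_9765_0
 (Tr.nd (nat_lit 49) (nat_lit 1) (nat_lit 154) (nat_lit 337) c7_9765_0
 (Tr.nd (nat_lit 9) (nat_lit 1) (nat_lit 24) (nat_lit 275) c7_9765_0
 (Tr.nd (nat_lit 7) (nat_lit 1) (nat_lit 61) (nat_lit 98) c7_9765_0
 (Tr.nd (nat_lit 1) (nat_lit 1) (nat_lit 61) (nat_lit 37) c7_9765_0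
 (Tr.nd (nat_lit 0) (nat_lit 1) (nat_lit 37) (nat_lit 0) c7_9765_0
 Tr.lf Tr.lf) Tr.lf) (Tr.nd (nat_lit 8) (nat_lit 1) (nat_lit 116) (nat_lit 159) c7_9765_0
 Tr.lf Tr.lf)) (Tr.nd (nat_lit 16) (nat_lit 2) (nat_lit 5) (nat_lit 325) c7_9765_0
 (Tr.nd (nat_lit 15) (nat_lit 1) (nat_lit 24) (nat_lit 301) c7_9765_0
 (Tr.nd (nat_lit 10) (nat_lit 1) (nat_lit 2) (nat_lit 299) c7_9765_0
 Tr.lf Tr.lf) Tr.lf) (Tr.nd (nat_lit 22) (nat_lit 1) (nat_lit 2) (nat_lit 335) c7_9765_0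
 Tr.lf Tr.lf))) (Tr.nd (nat_lit 57) (nat_lit 3) (nat_lit 100) (nat_lit 1110) c7_9765_0
 (Tr.nd (nat_lit 52) (nat_lit 1) (nat_lit 6) (nat_lit 828) c7_9765_0
 (Tr.nd (nat_lit 51) (nat_lit 1) (nat_lit 61) (nat_lit 767) c7_9765_0
 (Tr.nd (nat_lit 50) (nat_lit 1) (nat_lit 276) (nat_lit 491) c7_9765_0
 Tr.lf Tr.lf) Tr.lf) (Tr.nd (nat_lit 56) (nat_lit 1) (nat_lit 276) (nat_lit 834) c7_9765_0
 Tr.lf Tr.lf)) (Tr.nd (nat_lit 59) (nat_lit 5) (nat_lit 2) (nat_lit 1525) c7_9765_0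
 (Tr.nd (nat_lit 58) (nat_lit 5) (nat_lit 23) (nat_lit 1410) c7_9765_0
 Tr.lf Tr.lf) (Tr.nd (nat_lit 63) (nat_lit 1) (nat_lit 61) (nat_lit 1535) c7_9765_0
 Tr.lf Tr.lf)))) (Tr.nd (nat_lit 107) (nat_lit 10) (nat_lit 17) (nat_lit 2504) c7_9765_0
 (Tr.nd (nat_lit 100) (nat_lit 2) (nat_lit 37) (nat_lit 1951) c7_9765_0
 (Tr.nd (nat_lit 71) (nat_lit 5) (nat_lit 2) (nat_lit 1787) c7_9765_0
 (Tr.nd (nat_lit 70) (nat_lit 1) (nat_lit 6) (nat_lit 1781) c7_9765_0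
 (Tr.nd (nat_lit 65) (nat_lit 10) (nat_lit 7) (nat_lit 1711) c7_9765_0
 Tr.lf Tr.lf) Tr.lf) (Tr.nd (nat_lit 99) (nat_lit 1) (nat_lit 154) (nat_lit 1797) c7_9765_0
 Tr.lf Tr.lf)) (Tr.nd (nat_lit 105) (nat_lit 1) (nat_lit 154) (nat_lit 2035) c7_9765_0
 (Tr.nd (nat_lit 101) (nat_lit 2) (nat_lit 5) (nat_lit 2025) c7_9765_0
 Tr.lf Tr.lf) (Tr.nd (nat_lit 106) (nat_lit 5) (nat_lit 63) (nat_lit 2189) c7_9765_0
 Tr.lf Tr.lf))) (Tr.nd (nat_lit 115) (nat_lit 63) (nat_lit 1) (nat_lit 3162) c7_9765_0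
 (Tr.nd (nat_lit 113) (nat_lit 10) (nat_lit 17) (nat_lit 2782) c7_9765_0
 (Tr.nd (nat_lit 112) (nat_lit 2) (nat_lit 37) (nat_lit 2708) c7_9765_0
 (Tr.nd (nat_lit 108) (nat_lit 17) (nat_lit 2) (nat_lit 2674) c7_9765_0
 Tr.lf Tr.lf) Tr.lf) (Tr.nd (nat_lit 114) (nat_lit 30) (nat_lit 7) (nat_lit 2952) c7_9765_0
 Tr.lf Tr.lf)) (Tr.nd (nat_lit 120) (nat_lit 17) (nat_lit 2) (nat_lit 3235) c7_9765_0
 (Tr.nd (nat_lit 119) (nat_lit 2) (nat_lit 5) (nat_lit 3225) c7_9765_0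
 Tr.lf Tr.lf) (Tr.nd (nat_lit 121) (nat_lit 63) (nat_lit 1) (nat_lit 3269) c7_9765_0
 Tr.lf Tr.lf))))) (Tr.nd (nat_lit 206) (nat_lit 61) (nat_lit 1) (nat_lit 1065) c7_9765_1
 (Tr.nd (nat_lit 163) (nat_lit 63) (nat_lit 5) (nat_lit 170) c7_9765_1
 (Tr.nd (nat_lit 156) (nat_lit 17) (nat_lit 10) (nat_lit 3659) c7_9765_0
 (Tr.nd (nat_lit 154) (nat_lit 1) (nat_lit 63) (nat_lit 3441) c7_9765_0
 (Tr.nd (nat_lit 150) (nat_lit 4) (nat_lit 3) (nat_lit 3429) c7_9765_0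
 (Tr.nd (nat_lit 149) (nat_lit 2) (nat_lit 17) (nat_lit 3395) c7_9765_0
 Tr.lf Tr.lf) Tr.lf) (Tr.nd (nat_lit 155) (nat_lit 5) (nat_lit 31) (nat_lit 3504) c7_9765_0
 Tr.lf Tr.lf)) (Tr.nd (nat_lit 161) (nat_lit 2) (nat_lit 17) (nat_lit 3903) c7_9765_0
 (Tr.nd (nat_lit 157) (nat_lit 37) (nat_lit 2) (nat_lit 3829) c7_9765_0
 Tr.lf Tr.lf) (Tr.nd (nat_lit 162) (nat_lit 17) (nat_lit 10) (nat_lit 0) c7_9765_1
 Tr.lf Tr.lf))) (Tr.nd (nat_lit 198) (nat_lit 2) (nat_lit 5) (nat_lit 879) c7_9765_1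
 (Tr.nd (nat_lit 169) (nat_lit 37) (nat_lit 2) (nat_lit 651) c7_9765_1
 (Tr.nd (nat_lit 168) (nat_lit 4) (nat_lit 3) (nat_lit 639) c7_9765_1
 (Tr.nd (nat_lit 164) (nat_lit 154) (nat_lit 1) (nat_lit 485) c7_9765_1
 Tr.lf Tr.lf) Tr.lf) (Tr.nd (nat_lit 170) (nat_lit 154) (nat_lit 1) (nat_lit 725) c7_9765_1
 Tr.lf Tr.lf)) (Tr.nd (nat_lit 204) (nat_lit 5) (nat_lit 11) (nat_lit 895) c7_9765_1
 (Tr.nd (nat_lit 199) (nat_lit 6) (nat_lit 1) (nat_lit 889) c7_9765_1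
 Tr.lf Tr.lf) (Tr.nd (nat_lit 205) (nat_lit 23) (nat_lit 5) (nat_lit 950) c7_9765_1
 Tr.lf Tr.lf)))) (Tr.nd (nat_lit 247) (nat_lit 2) (nat_lit 1) (nat_lit 2324) c7_9765_1
 (Tr.nd (nat_lit 217) (nat_lit 6) (nat_lit 1) (nat_lit 1827) c7_9765_1
 (Tr.nd (nat_lit 212) (nat_lit 100) (nat_lit 3) (nat_lit 1251) c7_9765_1
 (Tr.nd (nat_lit 211) (nat_lit 23) (nat_lit 5) (nat_lit 1136) c7_9765_1
 (Tr.nd (nat_lit 210) (nat_lit 2) (nat_lit 5) (nat_lit 1126) c7_9765_1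
 Tr.lf Tr.lf) Tr.lf) (Tr.nd (nat_lit 213) (nat_lit 276) (nat_lit 1) (nat_lit 1551) c7_9765_1
 Tr.lf Tr.lf)) (Tr.nd (nat_lit 219) (nat_lit 276) (nat_lit 1) (nat_lit 1894) c7_9765_1
 (Tr.nd (nat_lit 218) (nat_lit 61) (nat_lit 1) (nat_lit 1833) c7_9765_1
 Tr.lf Tr.lf) (Tr.nd (nat_lit 220) (nat_lit 154) (nat_lit 1) (nat_lit 2170) c7_9765_1
 Tr.lf Tr.lf))) (Tr.nd (nat_lit 261) (nat_lit 116) (nat_lit 1) (nat_lit 2388) c7_9765_1
 (Tr.nd (nat_lit 259) (nat_lit 2) (nat_lit 1) (nat_lit 2362) c7_9765_1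
 (Tr.nd (nat_lit 254) (nat_lit 24) (nat_lit 1) (nat_lit 2338) c7_9765_1
 (Tr.nd (nat_lit 253) (nat_lit 4) (nat_lit 3) (nat_lit 2326) c7_9765_1
 Tr.lf Tr.lf) Tr.lf) (Tr.nd (nat_lit 260) (nat_lit 24) (nat_lit 1) (nat_lit 2364) c7_9765_1
 Tr.lf Tr.lf)) (Tr.nd (nat_lit 268) (nat_lit 61) (nat_lit 1) (nat_lit 2565) c7_9765_1
 (Tr.nd (nat_lit 262) (nat_lit 61) (nat_lit 1) (nat_lit 2504) c7_9765_1
 Tr.lf Tr.lf) (Tr.nd (nat_lit 269) (nat_lit 37) (nat_lit 1) (nat_lit 2626) c7_9765_1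
 Tr.lf Tr.lf))))))

noncomputable def c7_8805_0 : List Nat := [(nat_lit 0x505c0149492d54c1489329c8139e45b4998568713284f3109221670bb008e3046a0792db04f0b4891e61010b8b2c82c0978d043c83d4b233983d2a058d8a463231a1e79e6e3546ca94028160aeba52a109e0611933b219d34bc3155da42021ca830bcdd512c4699a4000054692b585d0c0980b1e866516c9bad28eedae32ed9e0a9ce24e46c24c0d5451bb537716a67188825240450a5508b2ea19781b1010582bda1b81373ab551dcce26d209801480763c9094b09ad588e1498005af677296e1a266eb09995c6e294d1e421060d9c02e221c5e4a2854aa20eb0a484d00a5522858f379ca114aa440a4c91075851588c512cce301d408f610830445dd53328d543a4d0a5b1d6e4057aeceb48c703b93419b0259cac048810906d2717ab8ae55ea48d40000000000000000000000c9c2f3176b20a85ae437474eb75a841840e08137825b5d9a60a01e6a44db292c15640000000000000000000000812934a25d05691d63673323b3090d18245318b52d86867325668b213594391d723b3211a32d42ac12b6d55c9eb2cd102521226ea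79a812200776c064c505c0cb046c63b59a1102bc068d0db0b26c8624367068e40c719848a744f3c1466178124a0f1bb68c4a41606c95c46522933483c8345038d85109814b44d90850974d6318e9792a803661066a552ba04cab45a35a772b8388b40304247129b46c936609b7086da027abcc57a86ad8946008de0c1b218e23b1345864b7517164365e630ca518d169860d956db325a984953095925458e82b2b1c06a69a041c19d24186752a2a49553246312889a964620adcc1049dcb506645470685064d90a870c91b2c494a1e79588d081559550426ae699970d59ccde2685a556476cc481261695abb51643b91d42905512ba6d8c0855280806c096b034171a597544b0826cb1816019d1e6b1905a490a05324da30a42b058803a26c9496375c904662619aadda96eeca24da0a80d6cc5444c604756ee200120b451122ec84e940ca69b26c6688349a18c4144e2a5d2375390bb63332db0b66cf5634433983d0bb5599615a0d17418593b5751285d61a1113188544bd12196613cc36ee2320e220ad71149209d72b0b7280651aba808a2c25ac886eaa0000000006c6ca9a9a6d04c32cad948b1d84aa0000000068909312c7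6c2d981c18b3968d43b5c0d6b2aeea6049b94c99892070e79b8ab058636595a10cd17ad642b9c69c4f312d83185acc6cd0b0aa864738357b082a2643b096c60bc5b3240f36edb0d131789ac394e592523a459aa7a8b9ec94622a2599c02d834c43b8dc6340d9a262459a66cca0c0c42cb8e3a3bb3ad1cb2c84daa6d5b694d27681948ad675cad109ca4b14d4184439e81108451da4a4f14b44132db12b258d40162c25d9252070d815d995a6d64dab9418416d80a037209924156d6db8adad952036a3710aa05e00479ca3028535e0b50e42589230a14c3412283d154e826b58936999c09b75d470b9a020919aa3b15c9bd1e6a678ad0e89e14c66a34062e8e9671ca57b61463067b6c43214044c344c5b2d24a508d158586b3b44ada098163c2edabcad768448569ca0970a21a5809b51130bac1cb282cc41543329565a8b2de5944ca913a2520b67665d3a96692e4ae085c92920422024b243b0184211a56b4625669244ae4eba9b663d9d7a55882d4c720b32d159289a589c35895545c7352225310179983638e0948a2319840aa8ad12b1b4ed4e4c2b8124c81581e74eda6d92d65ac8ca887190523169b395b9ca66193a4d6712eb2e2b620eddb6b03942bad4deb860cc81206cda1c0a028ca5baeca3b044f6045d30c490b024b143025998c3085d9546e562506e4c09add552597758aa0529b3c0c32e25910ab41b15408005404ac645e01978d900a191b308a424d0aca15b65b46a1400240000000000008000a129b0005a0000024ec0502004e2494dcb9801804e4418d384c60938001e4d64d3400000000000000000000000000070a0d1821b60000000001b62402050362b6c3120e004036349cf30c6769d8000000000000000015082c11d292000)]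
noncomputable def c7_8805_1 : List Nat := [(nat_lit 0x9235c128815000000000000000006c6d7830f3c4d3b0100188270db23b01402013b60000000001b6086148a31000000000000000000000000000d656a6372d4b8851a2b8ad6bc9cd200e30ee620d163708a048e8a52dd86866584bbb3db0751c4e10d860a144627365b6462c8cd2048a0f6058a0494e658180003a9999500021552916a30164eb0c233da2442aa5d5964d575ba00d6a4581d8dc565660c307a5803143248c81270d35046cd412b8b6bad8b0a022319b4a42d502553b361caa3a26c66073991d2a0eba0a18d29a33160289bad9c9d810db1354db4271745b06aaa0d5cae432ca189ea141ab788a5dcae2803aca4e5234947a401c183109cf225c5ab92bad6a58b424a8d8a2a0065a9d18e94985866ab5b60d8542f10f01b24d3b5270206112b04b24880c009b246608ec8c9a59b8d65ec5b244514af1c2e76e2c04c90886a4aa38f5a65930b1200b2c3400921cd11107b4892172354a40766ad2071b1c8a1c56ac5883882698690959c8a6984c6385526b05941aab63086bc36d08ae0965798053c5a8d2c962de3a88a9d4982214a012440848c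f50e24c88dc4aea6c202474806083443c648e68611a257615594662ca96545d95082c322b425cade5629b3a6aa0a350aaed1108b60a815716069b1e38ed418501aa8b33054d85688ee75009a69d97265b85364c6c240b68c621161544b34734b8569d6a550881a6f4a05858bb104ab738c9c2bc89795b868041357a424068dd202c18aec9c714d9e66ab5b1a316eaf2d6e60246e1645055106d5b31ba426974c4a3d038598f321cb60d8c84aa20d9dc23c560aa3284f60f2661c25b032db28c7749ab71e746595ba45a618c9a4a94da86d24c5219bab8318d08d830d15b4e279bd487b068336950000682d40010a9656302acd165135633b6a19d49515d4ca45423d14015770b081636655ae2412683ae441518581d5b61e683cb04a664aa143a028532ea112abbb12cc22b2984e8cb4aad666634782983b9ed2d1b5c71263a0b994726c2424c541c982ac0d5cdc4f5cd416ad89859420a00100b280756ee2843a02a87b26054136945b56cddad54b0d42e0923adcb225b415810321d09185369688440936890e4f398b03210e5b41064a2acb34ea20a16b13b358dcb4489046cd73b6d8ad6e00c2c55ac1cda19e89824096a4122a09a46a45ab89bd06c8c908d6ea940ad1ac800da48d0514a31c914b288a0490f57659ab1712c2ad072eac8ad3105b953492989928122c2d3158104a36b29125c0e881316c425563440d91c9d2ac7268a698c610485ab2195a8ba9642d38e72c0956b119bce8d134d1390300c6111ba2276a323cf175632db6eb430e60466ec041a6da9b6c45432f5b224568e1401234200d838056696e4)]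
noncomputable def T7_8805 : Op := Op.mk (nat_lit 73)
 (Tr.nd (nat_lit 148) (nat_lit 1) (nat_lit 63) (nat_lit 3332) c7_8805_0
 (Tr.nd (nat_lit 64) (nat_lit 5) (nat_lit 23) (nat_lit 1596) c7_8805_0
 (Tr.nd (nat_lit 49) (nat_lit 1) (nat_lit 154) (nat_lit 337) c7_8805_0
 (Tr.nd (nat_lit 9) (nat_lit 1) (nat_lit 24) (nat_lit 275) c7_8805_0
 (Tr.nd (nat_lit 7) (nat_lit 1) (nat_lit 61) (nat_lit 98) c7_8805_0
 (Tr.nd (nat_lit 1) (nat_lit 1) (nat_lit 61) (nat_lit 37) c7_8805_0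
 (Tr.nd (nat_lit 0) (nat_lit 1) (nat_lit 37) (nat_lit 0) c7_8805_0
 Tr.lf Tr.lf) Tr.lf) (Tr.nd (nat_lit 8) (nat_lit 1) (nat_lit 116) (nat_lit 159) c7_8805_0
 Tr.lf Tr.lf)) (Tr.nd (nat_lit 16) (nat_lit 2) (nat_lit 5) (nat_lit 325) c7_8805_0
 (Tr.nd (nat_lit 15) (nat_lit 1) (nat_lit 24) (nat_lit 301) c7_8805_0
 (Tr.nd (nat_lit 10) (nat_lit 1) (nat_lit 2) (nat_lit 299) c7_8805_0
 Tr.lf Tr.lf) Tr.lf) (Tr.nd (nat_lit 22) (nat_lit 1) (nat_lit 2) (nat_lit 335) c7_8805_0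
 Tr.lf Tr.lf))) (Tr.nd (nat_lit 57) (nat_lit 3) (nat_lit 100) (nat_lit 1110) c7_8805_0
 (Tr.nd (nat_lit 52) (nat_lit 1) (nat_lit 6) (nat_lit 828) c7_8805_0
 (Tr.nd (nat_lit 51) (nat_lit 1) (nat_lit 61) (nat_lit 767) c7_8805_0
 (Tr.nd (nat_lit 50) (nat_lit 1) (nat_lit 276) (nat_lit 491) c7_8805_0
 Tr.lf Tr.lf) Tr.lf) (Tr.nd (nat_lit 56) (nat_lit 1) (nat_lit 276) (nat_lit 834) c7_8805_0
 Tr.lf Tr.lf)) (Tr.nd (nat_lit 59) (nat_lit 5) (nat_lit 2) (nat_lit 1525) c7_8805_0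
 (Tr.nd (nat_lit 58) (nat_lit 5) (nat_lit 23) (nat_lit 1410) c7_8805_0
 Tr.lf Tr.lf) (Tr.nd (nat_lit 63) (nat_lit 1) (nat_lit 61) (nat_lit 1535) c7_8805_0
 Tr.lf Tr.lf)))) (Tr.nd (nat_lit 107) (nat_lit 10) (nat_lit 17) (nat_lit 2504) c7_8805_0
 (Tr.nd (nat_lit 100) (nat_lit 2) (nat_lit 37) (nat_lit 1951) c7_8805_0
 (Tr.nd (nat_lit 71) (nat_lit 5) (nat_lit 2) (nat_lit 1787) c7_8805_0
 (Tr.nd (nat_lit 70) (nat_lit 1) (nat_lit 6) (nat_lit 1781) c7_8805_0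
 (Tr.nd (nat_lit 65) (nat_lit 10) (nat_lit 7) (nat_lit 1711) c7_8805_0
 Tr.lf Tr.lf) Tr.lf) (Tr.nd (nat_lit 99) (nat_lit 1) (nat_lit 154) (nat_lit 1797) c7_8805_0
 Tr.lf Tr.lf)) (Tr.nd (nat_lit 105) (nat_lit 1) (nat_lit 154) (nat_lit 2035) c7_8805_0
 (Tr.nd (nat_lit 101) (nat_lit 2) (nat_lit 5) (nat_lit 2025) c7_8805_0
 Tr.lf Tr.lf) (Tr.nd (nat_lit 106) (nat_lit 5) (nat_lit 63) (nat_lit 2189) c7_8805_0
 Tr.lf Tr.lf))) (Tr.nd (nat_lit 115) (nat_lit 63) (nat_lit 1) (nat_lit 3162) c7_8805_0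
 (Tr.nd (nat_lit 113) (nat_lit 10) (nat_lit 17) (nat_lit 2782) c7_8805_0
 (Tr.nd (nat_lit 112) (nat_lit 2) (nat_lit 37) (nat_lit 2708) c7_8805_0
 (Tr.nd (nat_lit 108) (nat_lit 17) (nat_lit 2) (nat_lit 2674) c7_8805_0
 Tr.lf Tr.lf) Tr.lf) (Tr.nd (nat_lit 114) (nat_lit 30) (nat_lit 7) (nat_lit 2952) c7_8805_0
 Tr.lf Tr.lf)) (Tr.nd (nat_lit 120) (nat_lit 17) (nat_lit 2) (nat_lit 3235) c7_8805_0
 (Tr.nd (nat_lit 119) (nat_lit 2) (nat_lit 5) (nat_lit 3225) c7_8805_0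
 Tr.lf Tr.lf) (Tr.nd (nat_lit 121) (nat_lit 63) (nat_lit 1) (nat_lit 3269) c7_8805_0
 Tr.lf Tr.lf))))) (Tr.nd (nat_lit 206) (nat_lit 61) (nat_lit 1) (nat_lit 1065) c7_8805_1
 (Tr.nd (nat_lit 163) (nat_lit 63) (nat_lit 5) (nat_lit 170) c7_8805_1
 (Tr.nd (nat_lit 156) (nat_lit 17) (nat_lit 10) (nat_lit 3659) c7_8805_0
 (Tr.nd (nat_lit 154) (nat_lit 1) (nat_lit 63) (nat_lit 3441) c7_8805_0
 (Tr.nd (nat_lit 150) (nat_lit 4) (nat_lit 3) (nat_lit 3429) c7_8805_0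
 (Tr.nd (nat_lit 149) (nat_lit 2) (nat_lit 17) (nat_lit 3395) c7_8805_0
 Tr.lf Tr.lf) Tr.lf) (Tr.nd (nat_lit 155) (nat_lit 5) (nat_lit 31) (nat_lit 3504) c7_8805_0
 Tr.lf Tr.lf)) (Tr.nd (nat_lit 161) (nat_lit 2) (nat_lit 17) (nat_lit 3903) c7_8805_0
 (Tr.nd (nat_lit 157) (nat_lit 37) (nat_lit 2) (nat_lit 3829) c7_8805_0
 Tr.lf Tr.lf) (Tr.nd (nat_lit 162) (nat_lit 17) (nat_lit 10) (nat_lit 0) c7_8805_1
 Tr.lf Tr.lf))) (Tr.nd (nat_lit 198) (nat_lit 2) (nat_lit 5) (nat_lit 879) c7_8805_1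
 (Tr.nd (nat_lit 169) (nat_lit 37) (nat_lit 2) (nat_lit 651) c7_8805_1
 (Tr.nd (nat_lit 168) (nat_lit 4) (nat_lit 3) (nat_lit 639) c7_8805_1
 (Tr.nd (nat_lit 164) (nat_lit 154) (nat_lit 1) (nat_lit 485) c7_8805_1
 Tr.lf Tr.lf) Tr.lf) (Tr.nd (nat_lit 170) (nat_lit 154) (nat_lit 1) (nat_lit 725) c7_8805_1
 Tr.lf Tr.lf)) (Tr.nd (nat_lit 204) (nat_lit 5) (nat_lit 11) (nat_lit 895) c7_8805_1
 (Tr.nd (nat_lit 199) (nat_lit 6) (nat_lit 1) (nat_lit 889) c7_8805_1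
 Tr.lf Tr.lf) (Tr.nd (nat_lit 205) (nat_lit 23) (nat_lit 5) (nat_lit 950) c7_8805_1
 Tr.lf Tr.lf)))) (Tr.nd (nat_lit 247) (nat_lit 2) (nat_lit 1) (nat_lit 2324) c7_8805_1
 (Tr.nd (nat_lit 217) (nat_lit 6) (nat_lit 1) (nat_lit 1827) c7_8805_1
 (Tr.nd (nat_lit 212) (nat_lit 100) (nat_lit 3) (nat_lit 1251) c7_8805_1
 (Tr.nd (nat_lit 211) (nat_lit 23) (nat_lit 5) (nat_lit 1136) c7_8805_1
 (Tr.nd (nat_lit 210) (nat_lit 2) (nat_lit 5) (nat_lit 1126) c7_8805_1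
 Tr.lf Tr.lf) Tr.lf) (Tr.nd (nat_lit 213) (nat_lit 276) (nat_lit 1) (nat_lit 1551) c7_8805_1
 Tr.lf Tr.lf)) (Tr.nd (nat_lit 219) (nat_lit 276) (nat_lit 1) (nat_lit 1894) c7_8805_1
 (Tr.nd (nat_lit 218) (nat_lit 61) (nat_lit 1) (nat_lit 1833) c7_8805_1
 Tr.lf Tr.lf) (Tr.nd (nat_lit 220) (nat_lit 154) (nat_lit 1) (nat_lit 2170) c7_8805_1
 Tr.lf Tr.lf))) (Tr.nd (nat_lit 261) (nat_lit 116) (nat_lit 1) (nat_lit 2388) c7_8805_1
 (Tr.nd (nat_lit 259) (nat_lit 2) (nat_lit 1) (nat_lit 2362) c7_8805_1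
 (Tr.nd (nat_lit 254) (nat_lit 24) (nat_lit 1) (nat_lit 2338) c7_8805_1
 (Tr.nd (nat_lit 253) (nat_lit 4) (nat_lit 3) (nat_lit 2326) c7_8805_1
 Tr.lf Tr.lf) Tr.lf) (Tr.nd (nat_lit 260) (nat_lit 24) (nat_lit 1) (nat_lit 2364) c7_8805_1
 Tr.lf Tr.lf)) (Tr.nd (nat_lit 268) (nat_lit 61) (nat_lit 1) (nat_lit 2565) c7_8805_1
 (Tr.nd (nat_lit 262) (nat_lit 61) (nat_lit 1) (nat_lit 2504) c7_8805_1
 Tr.lf Tr.lf) (Tr.nd (nat_lit 269) (nat_lit 37) (nat_lit 1) (nat_lit 2626) c7_8805_1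
 Tr.lf Tr.lf))))))

noncomputable def c7_9801_0 : List Nat := [(nat_lit 0x345093526caec8b42320a090050adb6c53aab4f567130412e1742f2d8d0dcc5bc5a245932b0695eda6b0bcb21ae450118164b044902a9c3205da308688dd9950130218e6134054036dada06b0a59ba2d50bcdd1b342b68632369019c4f3ab44a1b30d316a0902b0a8000182e8a886f1d6c13205cb441b1d5126ac3390a5a166634dc6289010b7534b6cb420ccde39811bd6c4c465e0845527b318d0090b544e2b43040648ea60d66d5a80c5a546cc7a1403321a5d0f6d2ac1a9b000036c2b2ccd31589ab62122c1d6729691aa3819b6a7261b4839856f445b85acd26556cec80b5ca836158ed016c5ba8b49e4cc6ca99ba346126c358ddb423157012d8f4699c6646d491b60a9c402b06a4ed131959b662b34c85808cce16e2368605cad2e90d57242000000000000000000000009658de1a250ece8044b743ae12099991bbb1c51431d9b86299666bb13a181566c1c8000000000000000000000004a04ac814110e92502c9dac20ad8eb12cd462a8c0d5a788a6080c8828e2015da66941ae2996423451a9132c2e9a6c06d805182c1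183a1c6d2915405722d65164b298d2d867120b0b4646e51142e59b6e9d646228e3a23d1d984b3484135bcdacd918ecb4c76a3581086e2d629d3627aed918a8b2c2368565039015540214c98db69239316b368c5b655574db0b7025ba5230b72b8b2a2b2f6472c88ad1458a4b534511dad0a48d6b406252c3c2302d06b118b21d456692566e5ca3559c36a038d885241d0d94b02c1a360335491a889a0b00eaa2c95e349755782c8eb190e14243ad40db5524412aaa57b134181827009e38c41d659a043560c82e8442946cec8a2218aad6289a82d309e722311b1584326c053426b05674a5119a9814425654c58f62cb3ad8e9a546640169aa263a71643aa873354865b6f5c3129ea81a31d0d64280bb05b291b1a2200e3711b20600e274d74db2e6a893175359eae6c6b126153835c20405812c017122220ebc06965069b01c19a43ba0d267329b42220ce369c8e6146553866250eaada794a54899d9981685384b9adb01574d638c29a26a241bcf2206d0e7b311553122cd09ae9370badb5059a6e8c4dd6d8ab745853ac6aa0a9806230b79b8d220234a4280000001355628422b67b56828ab60ec8343060000000186e09d38d6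d8b2d52acc5b208422e2012256984621c25c664f3cd46a2033b0e5464ceaccb4c0cd599605076aed8b3d4a74e8805515229b54e4b99001c19280298015ca0802134b20545105ac58a9912ccb7ad1a5342099546c2a02bd4174aa5c36bc82680c9b04d48936e6d514630a808a0351695541e32e1b18e5a815638e108ca2cb13076ac86b20d5432c18c414cd220023019158c609804c0868868a8eb1186941926580059533619a6da74508287695d8acc8803075279c11c34ca8b554d83c68393c099243a2a8db8e65829a85e254cc848514d04c5280269ae91d984333b5a4b589d7b4d74811825ba9da10d52cc900cc944ace5b212a320d16346c6a5405a2619544ec8eb90c9642ada6d2b5128d1909cd93908f0d6c3a1840cb431a14d09ab808e06e11832d6368c12d1e3256e02e861126052e06289b5881828354895442d35324d25a5b74af5123a9184b10e8dc5b4804aebac0b72ce235e6c4bb485d433096cd2a4a100d610ecd2178d2e18852f31854f6869d666315110412a412d1a0d223a23a240cc4b0b35769a31ac78a28995431e2e583560ed107a299c74bd81d352a2166680d43a262433a3a62881c10848683cf56e98add6515359ad9d815d08b72923a122e1a52c1d3a641a2d91a59262846ab7348cd0633106d67261015a469e6554147b3b525300e58d59924a52830c092ea3660589d5b50ee81197136e6ae8c64d34037011b29103850eb45837401a973266baa80087672d2e4662025ac990488eb22c32883a85166b2ca2a863d6db2917254cd4b75cb462e9971d83d2911862b424aaba00000000000003524d409adb4e9705adb34d0099600003080197123001118638d059a410cac08d1580107000d014adb2806524b5686b948db0d9669)]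
noncomputable def c7_9801_1 : List Nat := [(nat_lit 0x6965b0db916b827724916022dbb10148031040954c08c8b041a5914e386050030275840830000196804d34b6e43598db6e805d244c00000000000002d80c1a1048241da5b55e65b2909a219478c040b152200282ad5222a2ae4553d236148705582cb002cf578e36c7b18008aeba12f58981352194eb1462148800066266534d60e6a9eb49d61426ac5d956a501ec2eb200c308d8925a54e58c0d1256bd9c41545e69c99110691e4d850b8452e4d1ba9c08e9259816ca6169ab21d38b6802d959dcd01aec2e52c80205148d49974e4a04c5ba176366e89c2dcd352eaaad41b574884d8b11536d042532c0123633442536cd1d211a5814d42500bb546951710e9d5095e38cca00809a214516c216b8d774ca10d384b92002522c511b762056eacf6483c15664dac0de74a8f2d680ebaec024d946e63032614ab9746765318e338119204b626418c360832aa321824d8c15b4e0961ce174191b9a08dcc1a48d2de213002ae6899202d42d618d1a70206b25370b6ab18c1b7494861923932ded308842b14c30d0b0dc31d2c526d10aa519b66900a0b3823240b9c2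5a58809dd346a42124f6aa5a1c100765836223c02419d889524836937b68f2b58588a62865501950996a29dae42c0548c96e12f04c3d04a4294c8e85aa4181ae0cd4c84a188d054b0d6f23143262701646cead5090374d447a3500a06281b35225c4508529c2ce646708b9c1852ca809b292ebc8ea480245ad7532d031846525509a5aa20aaa06c6c03154b9d74c241ae5c037a62a575155da02b6e185d4246840130411492d1820208b54006880896310017ac8d5da29115500a635a374a7306ab1ac52b9ccc88a08d6253028d9520c19dadeb585a42cb924b8e78ba824ea0f6602944ab4d40a5994000342558c5824ce986ce348d545230aa3641cf55424694196908f36615080d5115c1d68ca2b754b6ea4e15b4f20adb751a935d2669413a2aa07b3c66c0159e6c251353441c72e9aa225b7464c68cc842f62d4889a50719bac1a37063156156cec2dd1e4838b3560da617170838226520012c14eb9d6140528c81921280841ae11aa3481d3b4773c9aace9054f5969ae9ad4604216c0ea7101414ec0d9689591102e998e14857344e1ae6db2c1a990469a54454e455c12d20a1460eb08844510b79b9032edb19b4574064429bc46c3549c4703209214dc806c9174b08804e70ca2e2e15838209aa20180cc2daa0b89749c0dca28f3022a7226dd2da8230154b269dacac56913654d05920f2b684eb0837905a958cb544ed828689259b8969bc9ac1b02981655cb9e58d7510b2aa8476db491e12b05cad3716a69c72d55aa5349cab1082cb8f302b6d07a36e821ba09240469481d6652a05ad0b60532941d93574cd53643)]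
noncomputable def T7_9801 : Op := Op.mk (nat_lit 73)
 (Tr.nd (nat_lit 148) (nat_lit 1) (nat_lit 63) (nat_lit 3332) c7_9801_0
 (Tr.nd (nat_lit 64) (nat_lit 5) (nat_lit 23) (nat_lit 1596) c7_9801_0
 (Tr.nd (nat_lit 49) (nat_lit 1) (nat_lit 154) (nat_lit 337) c7_9801_0
 (Tr.nd (nat_lit 9) (nat_lit 1) (nat_lit 24) (nat_lit 275) c7_9801_0
 (Tr.nd (nat_lit 7) (nat_lit 1) (nat_lit 61) (nat_lit 98) c7_9801_0
 (Tr.nd (nat_lit 1) (nat_lit 1) (nat_lit 61) (nat_lit 37) c7_9801_0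
 (Tr.nd (nat_lit 0) (nat_lit 1) (nat_lit 37) (nat_lit 0) c7_9801_0
 Tr.lf Tr.lf) Tr.lf) (Tr.nd (nat_lit 8) (nat_lit 1) (nat_lit 116) (nat_lit 159) c7_9801_0
 Tr.lf Tr.lf)) (Tr.nd (nat_lit 16) (nat_lit 2) (nat_lit 5) (nat_lit 325) c7_9801_0
 (Tr.nd (nat_lit 15) (nat_lit 1) (nat_lit 24) (nat_lit 301) c7_9801_0
 (Tr.nd (nat_lit 10) (nat_lit 1) (nat_lit 2) (nat_lit 299) c7_9801_0
 Tr.lf Tr.lf) Tr.lf) (Tr.nd (nat_lit 22) (nat_lit 1) (nat_lit 2) (nat_lit 335) c7_9801_0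
 Tr.lf Tr.lf))) (Tr.nd (nat_lit 57) (nat_lit 3) (nat_lit 100) (nat_lit 1110) c7_9801_0
 (Tr.nd (nat_lit 52) (nat_lit 1) (nat_lit 6) (nat_lit 828) c7_9801_0
 (Tr.nd (nat_lit 51) (nat_lit 1) (nat_lit 61) (nat_lit 767) c7_9801_0
 (Tr.nd (nat_lit 50) (nat_lit 1) (nat_lit 276) (nat_lit 491) c7_9801_0
 Tr.lf Tr.lf) Tr.lf) (Tr.nd (nat_lit 56) (nat_lit 1) (nat_lit 276) (nat_lit 834) c7_9801_0
 Tr.lf Tr.lf)) (Tr.nd (nat_lit 59) (nat_lit 5) (nat_lit 2) (nat_lit 1525) c7_9801_0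
 (Tr.nd (nat_lit 58) (nat_lit 5) (nat_lit 23) (nat_lit 1410) c7_9801_0
 Tr.lf Tr.lf) (Tr.nd (nat_lit 63) (nat_lit 1) (nat_lit 61) (nat_lit 1535) c7_9801_0
 Tr.lf Tr.lf)))) (Tr.nd (nat_lit 107) (nat_lit 10) (nat_lit 17) (nat_lit 2504) c7_9801_0
 (Tr.nd (nat_lit 100) (nat_lit 2) (nat_lit 37) (nat_lit 1951) c7_9801_0
 (Tr.nd (nat_lit 71) (nat_lit 5) (nat_lit 2) (nat_lit 1787) c7_9801_0
 (Tr.nd (nat_lit 70) (nat_lit 1) (nat_lit 6) (nat_lit 1781) c7_9801_0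
 (Tr.nd (nat_lit 65) (nat_lit 10) (nat_lit 7) (nat_lit 1711) c7_9801_0
 Tr.lf Tr.lf) Tr.lf) (Tr.nd (nat_lit 99) (nat_lit 1) (nat_lit 154) (nat_lit 1797) c7_9801_0
 Tr.lf Tr.lf)) (Tr.nd (nat_lit 105) (nat_lit 1) (nat_lit 154) (nat_lit 2035) c7_9801_0
 (Tr.nd (nat_lit 101) (nat_lit 2) (nat_lit 5) (nat_lit 2025) c7_9801_0
 Tr.lf Tr.lf) (Tr.nd (nat_lit 106) (nat_lit 5) (nat_lit 63) (nat_lit 2189) c7_9801_0
 Tr.lf Tr.lf))) (Tr.nd (nat_lit 115) (nat_lit 63) (nat_lit 1) (nat_lit 3162) c7_9801_0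
 (Tr.nd (nat_lit 113) (nat_lit 10) (nat_lit 17) (nat_lit 2782) c7_9801_0
 (Tr.nd (nat_lit 112) (nat_lit 2) (nat_lit 37) (nat_lit 2708) c7_9801_0
 (Tr.nd (nat_lit 108) (nat_lit 17) (nat_lit 2) (nat_lit 2674) c7_9801_0
 Tr.lf Tr.lf) Tr.lf) (Tr.nd (nat_lit 114) (nat_lit 30) (nat_lit 7) (nat_lit 2952) c7_9801_0
 Tr.lf Tr.lf)) (Tr.nd (nat_lit 120) (nat_lit 17) (nat_lit 2) (nat_lit 3235) c7_9801_0
 (Tr.nd (nat_lit 119) (nat_lit 2) (nat_lit 5) (nat_lit 3225) c7_9801_0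
 Tr.lf Tr.lf) (Tr.nd (nat_lit 121) (nat_lit 63) (nat_lit 1) (nat_lit 3269) c7_9801_0
 Tr.lf Tr.lf))))) (Tr.nd (nat_lit 206) (nat_lit 61) (nat_lit 1) (nat_lit 1065) c7_9801_1
 (Tr.nd (nat_lit 163) (nat_lit 63) (nat_lit 5) (nat_lit 170) c7_9801_1
 (Tr.nd (nat_lit 156) (nat_lit 17) (nat_lit 10) (nat_lit 3659) c7_9801_0
 (Tr.nd (nat_lit 154) (nat_lit 1) (nat_lit 63) (nat_lit 3441) c7_9801_0
 (Tr.nd (nat_lit 150) (nat_lit 4) (nat_lit 3) (nat_lit 3429) c7_9801_0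
 (Tr.nd (nat_lit 149) (nat_lit 2) (nat_lit 17) (nat_lit 3395) c7_9801_0
 Tr.lf Tr.lf) Tr.lf) (Tr.nd (nat_lit 155) (nat_lit 5) (nat_lit 31) (nat_lit 3504) c7_9801_0
 Tr.lf Tr.lf)) (Tr.nd (nat_lit 161) (nat_lit 2) (nat_lit 17) (nat_lit 3903) c7_9801_0
 (Tr.nd (nat_lit 157) (nat_lit 37) (nat_lit 2) (nat_lit 3829) c7_9801_0
 Tr.lf Tr.lf) (Tr.nd (nat_lit 162) (nat_lit 17) (nat_lit 10) (nat_lit 0) c7_9801_1
 Tr.lf Tr.lf))) (Tr.nd (nat_lit 198) (nat_lit 2) (nat_lit 5) (nat_lit 879) c7_9801_1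
 (Tr.nd (nat_lit 169) (nat_lit 37) (nat_lit 2) (nat_lit 651) c7_9801_1
 (Tr.nd (nat_lit 168) (nat_lit 4) (nat_lit 3) (nat_lit 639) c7_9801_1
 (Tr.nd (nat_lit 164) (nat_lit 154) (nat_lit 1) (nat_lit 485) c7_9801_1
 Tr.lf Tr.lf) Tr.lf) (Tr.nd (nat_lit 170) (nat_lit 154) (nat_lit 1) (nat_lit 725) c7_9801_1
 Tr.lf Tr.lf)) (Tr.nd (nat_lit 204) (nat_lit 5) (nat_lit 11) (nat_lit 895) c7_9801_1
 (Tr.nd (nat_lit 199) (nat_lit 6) (nat_lit 1) (nat_lit 889) c7_9801_1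
 Tr.lf Tr.lf) (Tr.nd (nat_lit 205) (nat_lit 23) (nat_lit 5) (nat_lit 950) c7_9801_1
 Tr.lf Tr.lf)))) (Tr.nd (nat_lit 247) (nat_lit 2) (nat_lit 1) (nat_lit 2324) c7_9801_1
 (Tr.nd (nat_lit 217) (nat_lit 6) (nat_lit 1) (nat_lit 1827) c7_9801_1
 (Tr.nd (nat_lit 212) (nat_lit 100) (nat_lit 3) (nat_lit 1251) c7_9801_1
 (Tr.nd (nat_lit 211) (nat_lit 23) (nat_lit 5) (nat_lit 1136) c7_9801_1
 (Tr.nd (nat_lit 210) (nat_lit 2) (nat_lit 5) (nat_lit 1126) c7_9801_1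
 Tr.lf Tr.lf) Tr.lf) (Tr.nd (nat_lit 213) (nat_lit 276) (nat_lit 1) (nat_lit 1551) c7_9801_1
 Tr.lf Tr.lf)) (Tr.nd (nat_lit 219) (nat_lit 276) (nat_lit 1) (nat_lit 1894) c7_9801_1
 (Tr.nd (nat_lit 218) (nat_lit 61) (nat_lit 1) (nat_lit 1833) c7_9801_1
 Tr.lf Tr.lf) (Tr.nd (nat_lit 220) (nat_lit 154) (nat_lit 1) (nat_lit 2170) c7_9801_1
 Tr.lf Tr.lf))) (Tr.nd (nat_lit 261) (nat_lit 116) (nat_lit 1) (nat_lit 2388) c7_9801_1
 (Tr.nd (nat_lit 259) (nat_lit 2) (nat_lit 1) (nat_lit 2362) c7_9801_1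
 (Tr.nd (nat_lit 254) (nat_lit 24) (nat_lit 1) (nat_lit 2338) c7_9801_1
 (Tr.nd (nat_lit 253) (nat_lit 4) (nat_lit 3) (nat_lit 2326) c7_9801_1
 Tr.lf Tr.lf) Tr.lf) (Tr.nd (nat_lit 260) (nat_lit 24) (nat_lit 1) (nat_lit 2364) c7_9801_1
 Tr.lf Tr.lf)) (Tr.nd (nat_lit 268) (nat_lit 61) (nat_lit 1) (nat_lit 2565) c7_9801_1
 (Tr.nd (nat_lit 262) (nat_lit 61) (nat_lit 1) (nat_lit 2504) c7_9801_1
 Tr.lf Tr.lf) (Tr.nd (nat_lit 269) (nat_lit 37) (nat_lit 1) (nat_lit 2626) c7_9801_1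
 Tr.lf Tr.lf))))))

noncomputable def c7_9753_0 : List Nat := [(nat_lit 0x46c361b4682acb1d1365a6c4a99e2021b0151109310909b424eb1044b33acb60099caacae79e09a5b4369324802b32b08c96b5279c0c88ed2a5935ab085db4e4b5ba2958d96a35445c4ac32cd4201c2a2e6092bb6282c55a15301610680af6b46a1512614376303180000d5b214909d22a05b8e25566e428e4e2bb02b07ab2164612c9859ce2c20d1c42079c82566e9484eddb50da9458d00f6b5235b6894b491e5130edd6a04d464db0a5a40a600068addaac5accf1b983acc5800555d901a0304927491e3134b5b024cd60ea804a8cf6765b4e2d818ab2dc242f217280999cb0c2a25118658f42445a8599906b654700d9c6db2bd9e152015c416cc581a70415d6388c34a6c4204b687133a5c43d4e7a5ca556b7452000d1093346da42a9215bad600000000000000000000000c6370c8c8951dab2cd5897aed64a9c4862ec4ee3aa860405cdb180150989489c5c88000000000000000000000049c4d8506d95c9b29c5a3ad2613d1ca6629314196d640545ca28ae4f51ac2b5186b4b014c4d215562402a330340b6458b19605dac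430cc3666424750523265056bb268c022349dae545b2915e306cb52888a5b6d72ad344db09d66cc2cc5c065a2e2b0586c154b0d71512449402a26c18463b293ac49e603712231cf08eb92544ad95a1667029a4c2aa6b0baee928d717434e42f661d270506d002646d630045a9688eda9b5566e86a508173331593465d855b5156691937459913112c4c99211a4186866ceb6838b22f189674824c44914a0aca4ac55c16940a40cdc09b9493b1342d61d0d2ee4a319170ea9b2e52452e2d20d2d252782d9eb99b9a8b00f631912b56e90258d46a2926a3b5201d584acb31a450b689984e542d3b15565086136f5d2c4ed4980717ab40db2ba6321939039032b862c33971cd939002695ac0a9b166a154d95ac538066e10048678991d34e6565aeae52d8224b4eca8b60c80021d758896e4529918caa33151b709a018f134e9598e3456224a5411405ec1ab0961bc95aebcf48908c5622a5eda021675d7168d5c144e024cd62d266da44048bdb4a1a95e4065b4c9e61111ed25040ac308a42830844e199010925ba1232732906b40c98c012a16da9299aab814a800000006475bcd129d0c658357028adb49546000000028951454cd4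6c470525062426d831acd0175b391adcc2eaac248c346ad7b19b0880b638ceb2926bb3094d38baabb481938907b2769c2239565296e2453610ca9a0a7509509bc5eaf1263a0b6ed20bb46acbc9c4de7702de4db4d02dbb738c0d0c54a958a20a12712971983028c75225a5e53135597021d384a10c1d64404b22204b8268a5d467a686d2c1d2dc0919e9a10c8115d3028842a71e1b02e252ccea8d2383b1989cb31004614c20428942ae192cb1589b6953b0cc281e16919a548984d10d1585327308552c6cb75a5ae88e1498ae8a98d84688922831664157b2b9b3009630de19e180288b73d8409399bd45391916ad40db295b56d5a89e60dd2a4514e5385b424c8345b843a1955c54a05260543a595359940b00dea4da2021464024229e98c9a155051a832780d1125d29aa32871c2e80e0ca885c1b29e6000244f0735ab48c8005d10a6091aade2f17b1a90d48d7468c298a96cb0ca25514001606cba6c5204192d2745c6a10d805394a6ad3305b54d68c84277618818c62e9a98f2804a001098040e84d8aca1b1ba9d720064637935ae483764804caecf384a0e9053aa61480f48d52290a0a8b820848d994a58e893551ea0dadd0c340dc7391d94ad0514962d2d834046c0c300c8ed18398962cd144a4c19819d2e761cf1ad9d6c96bb567308eeba1da13102246d54924521b036d0ce0eb14dd56b4d359b518489050d1428003406b3236a57194ad52c1893426c745a1276b9a3911723791a8d15a8da23180a60b0758b53086b29652632dd42c60a3650527186b17635b0a757036320c952d3811704000000000000001842c020e400380a000400189b600000814003003101001600081927001023590580020640d040043d00c31a03c32d91a59080649)]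
noncomputable def c7_9753_1 : List Nat := [(nat_lit 0x49602059a56cb0cc0a70c04cc10011485802009449702100312588001900100700300050080001b6818001000a06200588203306000000000000000a406c06b0d01242841419815283252a5eb858d8b9209c41181804b75453672684a58947535c618468359c446e46548e68ed690b45729334818c95c8d875480035a65c93000a114c512026156974d36e575343ac62c5b48d824524954dc8085099b19aeae0d1e56bb64b716e9cf195eb31621634894534a193a3185ae421a41b66e960b4066a52d206131782395758332c13b8156e9644f0b73855c9d1b4899d73a815701091a08b3713ae8b16a90650d367a65b5db33439760b4053b58601ad9c4d8e11b3425bb4675d0ddb099a009605b3533524da35985b0d29c206b94433c9e181cf2250914a6b2d89400115528b0cb64a868c29cd703704a9d99cce69890876349dcd40716c9a061323b0aa1b0ada595231a032b6da7546bac395245c35b852d4161c172cc83006e52c0d488e607592558d1aa42194c4e16a111e8016a4986458b841abc4eb8121e249c50742c6494d759cb47468aa50cb264d0da5c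f47a1b71a98ce520601c4ee82c39c8936301666da252d2c80394282e44015292808c69b269b46151c90d44d643b0c5b5000690f65a6a722ac634464b4e2dd36cd5306ed04c342cd7136e06096d914d8b20de1a6742751083c2d1804ce886685428b118caa6682697429e813d4422431409ac234e4b0a40cd4cb4028b34e68b8c37754b653422e4f572bcc44d92f58ccb06a4872b822680b53b906c2758b72af10eb2c08cec4d2f3685485c689a22c194d04eb6245d58a831b5ad984a35857b0752a5dd8dd2506196ac73b11394b1c22ec6c4d390100d1b264578805d06c97505e39d364adc3604b0d4000081e291ced60e9004315947a569e4d2691b2db522353644ae8db3112060d602dc245a3581335b240802f0c4a06114245061d008b26ce0283cd69b2c02cec4c59b665200a4dbd2652e84911a886a9cca3aebc83265cdeae0680895931caab14cdc226581c8896380a903ccb75a2e8c0018c2e93498db88e85558390d8a46c952eb8c000584b455b1b6404366c775cb22f1a6b909cf04808352c0c6876ada2a152ced11193b34002c4b78eb1e1913b435498d655aca69c3448522836ce13381972c182d1da2621ad6a610cd1c6839c4f1d0dc6e40d4aa5a5cb660cad586545a389aa8d046b406d2ac49ba4ec73698b536652835096b4b7458a24c07374ab8ea11d9e880ad9a2ed0309858006549464d12888324684522bb5cd4b58941269d8e49aa8465009155a168e72c58968c1aa40a7b304850bc8d4e88e90c8ae3c9bb3115114a8e94a88f0ba4051cce3442ed8a4c99a9d6f589ed258e5c6ca2b10e6ea5904ecb26)]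
noncomputable def T7_9753 : Op := Op.mk (nat_lit 73)
 (Tr.nd (nat_lit 148) (nat_lit 1) (nat_lit 63) (nat_lit 3332) c7_9753_0
 (Tr.nd (nat_lit 64) (nat_lit 5) (nat_lit 23) (nat_lit 1596) c7_9753_0
 (Tr.nd (nat_lit 49) (nat_lit 1) (nat_lit 154) (nat_lit 337) c7_9753_0
 (Tr.nd (nat_lit 9) (nat_lit 1) (nat_lit 24) (nat_lit 275) c7_9753_0
 (Tr.nd (nat_lit 7) (nat_lit 1) (nat_lit 61) (nat_lit 98) c7_9753_0
 (Tr.nd (nat_lit 1) (nat_lit 1) (nat_lit 61) (nat_lit 37) c7_9753_0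
 (Tr.nd (nat_lit 0) (nat_lit 1) (nat_lit 37) (nat_lit 0) c7_9753_0
 Tr.lf Tr.lf) Tr.lf) (Tr.nd (nat_lit 8) (nat_lit 1) (nat_lit 116) (nat_lit 159) c7_9753_0
 Tr.lf Tr.lf)) (Tr.nd (nat_lit 16) (nat_lit 2) (nat_lit 5) (nat_lit 325) c7_9753_0
 (Tr.nd (nat_lit 15) (nat_lit 1) (nat_lit 24) (nat_lit 301) c7_9753_0
 (Tr.nd (nat_lit 10) (nat_lit 1) (nat_lit 2) (nat_lit 299) c7_9753_0
 Tr.lf Tr.lf) Tr.lf) (Tr.nd (nat_lit 22) (nat_lit 1) (nat_lit 2) (nat_lit 335) c7_9753_0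
 Tr.lf Tr.lf))) (Tr.nd (nat_lit 57) (nat_lit 3) (nat_lit 100) (nat_lit 1110) c7_9753_0
 (Tr.nd (nat_lit 52) (nat_lit 1) (nat_lit 6) (nat_lit 828) c7_9753_0
 (Tr.nd (nat_lit 51) (nat_lit 1) (nat_lit 61) (nat_lit 767) c7_9753_0
 (Tr.nd (nat_lit 50) (nat_lit 1) (nat_lit 276) (nat_lit 491) c7_9753_0
 Tr.lf Tr.lf) Tr.lf) (Tr.nd (nat_lit 56) (nat_lit 1) (nat_lit 276) (nat_lit 834) c7_9753_0
 Tr.lf Tr.lf)) (Tr.nd (nat_lit 59) (nat_lit 5) (nat_lit 2) (nat_lit 1525) c7_9753_0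
 (Tr.nd (nat_lit 58) (nat_lit 5) (nat_lit 23) (nat_lit 1410) c7_9753_0
 Tr.lf Tr.lf) (Tr.nd (nat_lit 63) (nat_lit 1) (nat_lit 61) (nat_lit 1535) c7_9753_0
 Tr.lf Tr.lf)))) (Tr.nd (nat_lit 107) (nat_lit 10) (nat_lit 17) (nat_lit 2504) c7_9753_0
 (Tr.nd (nat_lit 100) (nat_lit 2) (nat_lit 37) (nat_lit 1951) c7_9753_0
 (Tr.nd (nat_lit 71) (nat_lit 5) (nat_lit 2) (nat_lit 1787) c7_9753_0
 (Tr.nd (nat_lit 70) (nat_lit 1) (nat_lit 6) (nat_lit 1781) c7_9753_0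
 (Tr.nd (nat_lit 65) (nat_lit 10) (nat_lit 7) (nat_lit 1711) c7_9753_0
 Tr.lf Tr.lf) Tr.lf) (Tr.nd (nat_lit 99) (nat_lit 1) (nat_lit 154) (nat_lit 1797) c7_9753_0
 Tr.lf Tr.lf)) (Tr.nd (nat_lit 105) (nat_lit 1) (nat_lit 154) (nat_lit 2035) c7_9753_0
 (Tr.nd (nat_lit 101) (nat_lit 2) (nat_lit 5) (nat_lit 2025) c7_9753_0
 Tr.lf Tr.lf) (Tr.nd (nat_lit 106) (nat_lit 5) (nat_lit 63) (nat_lit 2189) c7_9753_0
 Tr.lf Tr.lf))) (Tr.nd (nat_lit 115) (nat_lit 63) (nat_lit 1) (nat_lit 3162) c7_9753_0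
 (Tr.nd (nat_lit 113) (nat_lit 10) (nat_lit 17) (nat_lit 2782) c7_9753_0
 (Tr.nd (nat_lit 112) (nat_lit 2) (nat_lit 37) (nat_lit 2708) c7_9753_0
 (Tr.nd (nat_lit 108) (nat_lit 17) (nat_lit 2) (nat_lit 2674) c7_9753_0
 Tr.lf Tr.lf) Tr.lf) (Tr.nd (nat_lit 114) (nat_lit 30) (nat_lit 7) (nat_lit 2952) c7_9753_0
 Tr.lf Tr.lf)) (Tr.nd (nat_lit 120) (nat_lit 17) (nat_lit 2) (nat_lit 3235) c7_9753_0
 (Tr.nd (nat_lit 119) (nat_lit 2) (nat_lit 5) (nat_lit 3225) c7_9753_0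
 Tr.lf Tr.lf) (Tr.nd (nat_lit 121) (nat_lit 63) (nat_lit 1) (nat_lit 3269) c7_9753_0
 Tr.lf Tr.lf))))) (Tr.nd (nat_lit 206) (nat_lit 61) (nat_lit 1) (nat_lit 1065) c7_9753_1
 (Tr.nd (nat_lit 163) (nat_lit 63) (nat_lit 5) (nat_lit 170) c7_9753_1
 (Tr.nd (nat_lit 156) (nat_lit 17) (nat_lit 10) (nat_lit 3659) c7_9753_0
 (Tr.nd (nat_lit 154) (nat_lit 1) (nat_lit 63) (nat_lit 3441) c7_9753_0
 (Tr.nd (nat_lit 150) (nat_lit 4) (nat_lit 3) (nat_lit 3429) c7_9753_0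
 (Tr.nd (nat_lit 149) (nat_lit 2) (nat_lit 17) (nat_lit 3395) c7_9753_0
 Tr.lf Tr.lf) Tr.lf) (Tr.nd (nat_lit 155) (nat_lit 5) (nat_lit 31) (nat_lit 3504) c7_9753_0
 Tr.lf Tr.lf)) (Tr.nd (nat_lit 161) (nat_lit 2) (nat_lit 17) (nat_lit 3903) c7_9753_0
 (Tr.nd (nat_lit 157) (nat_lit 37) (nat_lit 2) (nat_lit 3829) c7_9753_0
 Tr.lf Tr.lf) (Tr.nd (nat_lit 162) (nat_lit 17) (nat_lit 10) (nat_lit 0) c7_9753_1
 Tr.lf Tr.lf))) (Tr.nd (nat_lit 198) (nat_lit 2) (nat_lit 5) (nat_lit 879) c7_9753_1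
 (Tr.nd (nat_lit 169) (nat_lit 37) (nat_lit 2) (nat_lit 651) c7_9753_1
 (Tr.nd (nat_lit 168) (nat_lit 4) (nat_lit 3) (nat_lit 639) c7_9753_1
 (Tr.nd (nat_lit 164) (nat_lit 154) (nat_lit 1) (nat_lit 485) c7_9753_1
 Tr.lf Tr.lf) Tr.lf) (Tr.nd (nat_lit 170) (nat_lit 154) (nat_lit 1) (nat_lit 725) c7_9753_1
 Tr.lf Tr.lf)) (Tr.nd (nat_lit 204) (nat_lit 5) (nat_lit 11) (nat_lit 895) c7_9753_1
 (Tr.nd (nat_lit 199) (nat_lit 6) (nat_lit 1) (nat_lit 889) c7_9753_1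
 Tr.lf Tr.lf) (Tr.nd (nat_lit 205) (nat_lit 23) (nat_lit 5) (nat_lit 950) c7_9753_1
 Tr.lf Tr.lf)))) (Tr.nd (nat_lit 247) (nat_lit 2) (nat_lit 1) (nat_lit 2324) c7_9753_1
 (Tr.nd (nat_lit 217) (nat_lit 6) (nat_lit 1) (nat_lit 1827) c7_9753_1
 (Tr.nd (nat_lit 212) (nat_lit 100) (nat_lit 3) (nat_lit 1251) c7_9753_1
 (Tr.nd (nat_lit 211) (nat_lit 23) (nat_lit 5) (nat_lit 1136) c7_9753_1
 (Tr.nd (nat_lit 210) (nat_lit 2) (nat_lit 5) (nat_lit 1126) c7_9753_1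
 Tr.lf Tr.lf) Tr.lf) (Tr.nd (nat_lit 213) (nat_lit 276) (nat_lit 1) (nat_lit 1551) c7_9753_1
 Tr.lf Tr.lf)) (Tr.nd (nat_lit 219) (nat_lit 276) (nat_lit 1) (nat_lit 1894) c7_9753_1
 (Tr.nd (nat_lit 218) (nat_lit 61) (nat_lit 1) (nat_lit 1833) c7_9753_1
 Tr.lf Tr.lf) (Tr.nd (nat_lit 220) (nat_lit 154) (nat_lit 1) (nat_lit 2170) c7_9753_1
 Tr.lf Tr.lf))) (Tr.nd (nat_lit 261) (nat_lit 116) (nat_lit 1) (nat_lit 2388) c7_9753_1
 (Tr.nd (nat_lit 259) (nat_lit 2) (nat_lit 1) (nat_lit 2362) c7_9753_1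
 (Tr.nd (nat_lit 254) (nat_lit 24) (nat_lit 1) (nat_lit 2338) c7_9753_1
 (Tr.nd (nat_lit 253) (nat_lit 4) (nat_lit 3) (nat_lit 2326) c7_9753_1
 Tr.lf Tr.lf) Tr.lf) (Tr.nd (nat_lit 260) (nat_lit 24) (nat_lit 1) (nat_lit 2364) c7_9753_1
 Tr.lf Tr.lf)) (Tr.nd (nat_lit 268) (nat_lit 61) (nat_lit 1) (nat_lit 2565) c7_9753_1
 (Tr.nd (nat_lit 262) (nat_lit 61) (nat_lit 1) (nat_lit 2504) c7_9753_1
 Tr.lf Tr.lf) (Tr.nd (nat_lit 269) (nat_lit 37) (nat_lit 1) (nat_lit 2626) c7_9753_1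
 Tr.lf Tr.lf))))))

noncomputable def c7_8793_0 : List Nat := [(nat_lit 0x1ba882610148d18e76ecc482b21d89d14dbb6b1aba55503ac99c8b6811caeac469102aba18582dca18ae66d5b9d74824e2e2ac02e53146157284ca9b58299685b2948181aa06c5133c2168295334a88e31022bc9cb94a59ba348052b562d665a434530318caf0d3340001c369a4e198006aa340168a9a08833ada412e031ea612f066a76d44dc368d95702184e5431448b882b23435856cc1130416c2b409850a96e6262c0352b014b3139112b8f4641c25215298b4301a5337580028211694330548d4a85d8ec0bd5b80cc4e385865b6b6248e14942a90f35768ccc3400102132312012072130020098685cdaa79835189231c90376db0ca31c4ec0d89cc88d8ab108dd8c8786205055823ade893018b4346a06c1882e671d80ac4e96201d8981942400000000000000000000004c3c2e5506b018dda936549115a680cf20e9a0ba498e024630b201028a8b2906e644000000000000000000000025b8356ac9a037226a141b1c21b86d0711a90e8784c1cacd99622a945223019a634c8d0b6444c64335902f42b0d144e1a9494ad25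64a604b9011a1b380a0a1b60ba4a2d9a851da4d792c8b14c2f2d6e3641a36dab5d15ab1e31e825b6e094786b6dd5297012370524ac9414b56677140b13304d5001a58e9b5a0647b0a36c56dab2336ca5a26b360cbadccd6c132e4f676076004299496547651a30b06245441435e58a1ac8acc6226a6a6246716c650230566e04e260e3206f365da24a9b0d822351358302ec5d6e54e548e440658cec69671e81330cc942216694d105820005108639bab429a126284bb49846c4a992c161b470593cc2d6e086913d6c024408b03a6a382826acbad3cca023193142054ca610c8c2cdea52c642aa0c344037445072ccd84560680c4460a1262a3a196e76ab224587809459ad42348d36c69dc444e16c3c616a205499d3205616c6b50a58ac0456546c9117290215469c7a86c399c8e8d6bd236e40f045c0906d840634e54d491c74c9185e2ad9404a9c31399ced6d61aaa7659a8c131d941884712029022b5cc9ea0318839d7a15943440c062b2152656e3cb194b62d92e9059822cb29326c45e2234e5a8e859c2104d89109eb75acb269aac313c76cc5872af00000000a3b1b481495775c06c1a8e01614506000000033a5c839985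ac6652aca940ee12e39b26cc12609d215a4b4e714baa46a5822b159a770a5a5b6c73195c2b2dc0734d0991add1845b12249985b58e884c6d9c893838a28291218da3b19953628ab4a4a4c8e4706c2d0f6b26255d199b40de794021833952d2808cb1d8a50ec76675214529c39d419294505601c6c2a863659e581da316370a21eb63475099b9859a289709386252088a4924b15964618d85cc02888959ccdb01275745393d6c398b233a28ea11c955a2495dc4095c0728cb4453051a90cd0decd68459245ab8d2892b0ec2c6c219c0d1d488daba81698e88606744e5c13c345a2a4a040da3205ce424c95cc1054c6d438b473bac25b42d14cac226a30118dd7566941a813954c0d3761ae414a042adb75c6e1412306ec85084dc01d3685c966a5c6aa96ed1d04b3369440db670470b9a25b5a83698248ecb906090a0364558a70cb3d9839c4656c569ed4a4507a0800703d2e596b0331d37340298da1cb2dc888625668dc0652aba9b66cd9d7a55b52d4c724f33814d9d1b989c25b5ac15c439a66e55916198342209a66450de522c2bcc4cf0b0654c3a480b068968ac5a31495c96b0b144d8544c145850b5572176878c189aa0b192ed54a144d0a05db05a23388335a9da3610ec6cda077302884b18c289a4a89eb53d2673355a452146d8b785a09230991889a508ada66240540130d20cce28e4a855e84028a25902dd26052658c021a61113ac2ee5ab890a287526a64e54602f438c25ac00c00000000000018000224320002000000db121a0181b1daeccb4a00081b19b68d0db06b6440029b29b2ca00000000000000030030a081680800031821ad2400000001b6241004036330d72471005036289ceb836d920300000080084300901908ea182389d80)]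
noncomputable def c7_8793_1 : List Nat := [(nat_lit 0x6c4e2860ab816012030408008000030096db08ebc4a3b01400714b5c343b01000413b600000000136e0860c000202d008a300300000000000000005932630f416d25c58511679d964d0c59196a58ec25a46649a0d128b95558069710a6c9646e4583c45150a80c9930e3332215635a2695628a128ee5ab32e2400220345b065a446935a0164a288066750a9628e2f0930d0015004e86daa04692a15a0c0922d19b3b6142452753d1e93356e6a226928c383260a03d589b4a65a245338582423721299669ae0b5cc0488641484ba20069ad13270435855d415350c8553577678b9085b416db4ecad58263294b84654c654b0a162c33b237885038ee0cb771b8d82619c8c0205530921c01b41671740c85c5e8338f4d28995b72b9d11a19c0083602b5b2c62d3a2013d4d70b12e596b3311802099845237669d0518d4a4840e18ea01698a88ca4ac6db450ca66198a4dc2112cc15d23512123b462224d8c20836214b894abad5b62662aa06007857ab66c72d80b43113312625998999d664c69331061644d313ad250b2ac0b448876d265162a97649a262cba1a2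b90a4247ae2a29867754cbc73b3281199b32ca0da9b48e85e16640531dc947556a1846566d7580b299d4114e42220068ca4a0c810e02c32bb544e416d4919a06dd946c75610ab1622c62204d5681e84423084c67320a84435a04dba120158c7806f18c366a99ea0b30a963cf1bac6e66584a6a016ddb0542ec8b8d2a648d6012d1d79c9b490e89a14c61171ea650ec6ed125905049952acc6b4bb4465819502d6e1455a2cf12e1901a228a31892b16dc260ae5d907a4809d941856e95a4700981cccae39b338ea914ac18ca74bb17b0cb688ab61a89bb299d61dcf5ac3560ab23932920824cb75140000359b21a14a690306414573d434d4976704a6c19d58cc0e773ca195534965dbadcd0294a483062ccc55b1a701cca949691659434a24d64b4366c39671bb09a817430188298b2333af1070605cd68ed5003404a66c198695a2049594f4aae1966aa33224535406ba96d8929698b353a0004956ec836c24232866246dc99db85723d186c5ce34e2a10916a0a5b0ab2280743342b706cca8486bd222144cc3986cc6a03ab4e5a6949c0add28b00cc21836d990b6c244c7852c60c1c847410da3b26406eb820243816b0da75bad85a3522a42a864440328180d4db26c25674c8604ae9064988180240ebc84495a2dc40a32598293c5860e916b66424ce241d5668769824c60b660350e4546185044520855a39498b2ce3d0a1a2401b880da6c68ca09b66caf232358b1b535c90a865a9a6de31b87553652672329bc5c0689ac8d070dd439b0ada0a3994255459191caa1990e9d0345d33208214b550798530d82514acba71)]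
noncomputable def T7_8793 : Op := Op.mk (nat_lit 73)
 (Tr.nd (nat_lit 148) (nat_lit 1) (nat_lit 63) (nat_lit 3332) c7_8793_0
 (Tr.nd (nat_lit 64) (nat_lit 5) (nat_lit 23) (nat_lit 1596) c7_8793_0
 (Tr.nd (nat_lit 49) (nat_lit 1) (nat_lit 154) (nat_lit 337) c7_8793_0
 (Tr.nd (nat_lit 9) (nat_lit 1) (nat_lit 24) (nat_lit 275) c7_8793_0
 (Tr.nd (nat_lit 7) (nat_lit 1) (nat_lit 61) (nat_lit 98) c7_8793_0
 (Tr.nd (nat_lit 1) (nat_lit 1) (nat_lit 61) (nat_lit 37) c7_8793_0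
 (Tr.nd (nat_lit 0) (nat_lit 1) (nat_lit 37) (nat_lit 0) c7_8793_0
 Tr.lf Tr.lf) Tr.lf) (Tr.nd (nat_lit 8) (nat_lit 1) (nat_lit 116) (nat_lit 159) c7_8793_0
 Tr.lf Tr.lf)) (Tr.nd (nat_lit 16) (nat_lit 2) (nat_lit 5) (nat_lit 325) c7_8793_0
 (Tr.nd (nat_lit 15) (nat_lit 1) (nat_lit 24) (nat_lit 301) c7_8793_0
 (Tr.nd (nat_lit 10) (nat_lit 1) (nat_lit 2) (nat_lit 299) c7_8793_0
 Tr.lf Tr.lf) Tr.lf) (Tr.nd (nat_lit 22) (nat_lit 1) (nat_lit 2) (nat_lit 335) c7_8793_0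
 Tr.lf Tr.lf))) (Tr.nd (nat_lit 57) (nat_lit 3) (nat_lit 100) (nat_lit 1110) c7_8793_0
 (Tr.nd (nat_lit 52) (nat_lit 1) (nat_lit 6) (nat_lit 828) c7_8793_0
 (Tr.nd (nat_lit 51) (nat_lit 1) (nat_lit 61) (nat_lit 767) c7_8793_0
 (Tr.nd (nat_lit 50) (nat_lit 1) (nat_lit 276) (nat_lit 491) c7_8793_0
 Tr.lf Tr.lf) Tr.lf) (Tr.nd (nat_lit 56) (nat_lit 1) (nat_lit 276) (nat_lit 834) c7_8793_0
 Tr.lf Tr.lf)) (Tr.nd (nat_lit 59) (nat_lit 5) (nat_lit 2) (nat_lit 1525) c7_8793_0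
 (Tr.nd (nat_lit 58) (nat_lit 5) (nat_lit 23) (nat_lit 1410) c7_8793_0
 Tr.lf Tr.lf) (Tr.nd (nat_lit 63) (nat_lit 1) (nat_lit 61) (nat_lit 1535) c7_8793_0
 Tr.lf Tr.lf)))) (Tr.nd (nat_lit 107) (nat_lit 10) (nat_lit 17) (nat_lit 2504) c7_8793_0
 (Tr.nd (nat_lit 100) (nat_lit 2) (nat_lit 37) (nat_lit 1951) c7_8793_0
 (Tr.nd (nat_lit 71) (nat_lit 5) (nat_lit 2) (nat_lit 1787) c7_8793_0
 (Tr.nd (nat_lit 70) (nat_lit 1) (nat_lit 6) (nat_lit 1781) c7_8793_0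
 (Tr.nd (nat_lit 65) (nat_lit 10) (nat_lit 7) (nat_lit 1711) c7_8793_0
 Tr.lf Tr.lf) Tr.lf) (Tr.nd (nat_lit 99) (nat_lit 1) (nat_lit 154) (nat_lit 1797) c7_8793_0
 Tr.lf Tr.lf)) (Tr.nd (nat_lit 105) (nat_lit 1) (nat_lit 154) (nat_lit 2035) c7_8793_0
 (Tr.nd (nat_lit 101) (nat_lit 2) (nat_lit 5) (nat_lit 2025) c7_8793_0
 Tr.lf Tr.lf) (Tr.nd (nat_lit 106) (nat_lit 5) (nat_lit 63) (nat_lit 2189) c7_8793_0
 Tr.lf Tr.lf))) (Tr.nd (nat_lit 115) (nat_lit 63) (nat_lit 1) (nat_lit 3162) c7_8793_0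
 (Tr.nd (nat_lit 113) (nat_lit 10) (nat_lit 17) (nat_lit 2782) c7_8793_0
 (Tr.nd (nat_lit 112) (nat_lit 2) (nat_lit 37) (nat_lit 2708) c7_8793_0
 (Tr.nd (nat_lit 108) (nat_lit 17) (nat_lit 2) (nat_lit 2674) c7_8793_0
 Tr.lf Tr.lf) Tr.lf) (Tr.nd (nat_lit 114) (nat_lit 30) (nat_lit 7) (nat_lit 2952) c7_8793_0
 Tr.lf Tr.lf)) (Tr.nd (nat_lit 120) (nat_lit 17) (nat_lit 2) (nat_lit 3235) c7_8793_0
 (Tr.nd (nat_lit 119) (nat_lit 2) (nat_lit 5) (nat_lit 3225) c7_8793_0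
 Tr.lf Tr.lf) (Tr.nd (nat_lit 121) (nat_lit 63) (nat_lit 1) (nat_lit 3269) c7_8793_0
 Tr.lf Tr.lf))))) (Tr.nd (nat_lit 206) (nat_lit 61) (nat_lit 1) (nat_lit 1065) c7_8793_1
 (Tr.nd (nat_lit 163) (nat_lit 63) (nat_lit 5) (nat_lit 170) c7_8793_1
 (Tr.nd (nat_lit 156) (nat_lit 17) (nat_lit 10) (nat_lit 3659) c7_8793_0
 (Tr.nd (nat_lit 154) (nat_lit 1) (nat_lit 63) (nat_lit 3441) c7_8793_0
 (Tr.nd (nat_lit 150) (nat_lit 4) (nat_lit 3) (nat_lit 3429) c7_8793_0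
 (Tr.nd (nat_lit 149) (nat_lit 2) (nat_lit 17) (nat_lit 3395) c7_8793_0
 Tr.lf Tr.lf) Tr.lf) (Tr.nd (nat_lit 155) (nat_lit 5) (nat_lit 31) (nat_lit 3504) c7_8793_0
 Tr.lf Tr.lf)) (Tr.nd (nat_lit 161) (nat_lit 2) (nat_lit 17) (nat_lit 3903) c7_8793_0
 (Tr.nd (nat_lit 157) (nat_lit 37) (nat_lit 2) (nat_lit 3829) c7_8793_0
 Tr.lf Tr.lf) (Tr.nd (nat_lit 162) (nat_lit 17) (nat_lit 10) (nat_lit 0) c7_8793_1
 Tr.lf Tr.lf))) (Tr.nd (nat_lit 198) (nat_lit 2) (nat_lit 5) (nat_lit 879) c7_8793_1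
 (Tr.nd (nat_lit 169) (nat_lit 37) (nat_lit 2) (nat_lit 651) c7_8793_1
 (Tr.nd (nat_lit 168) (nat_lit 4) (nat_lit 3) (nat_lit 639) c7_8793_1
 (Tr.nd (nat_lit 164) (nat_lit 154) (nat_lit 1) (nat_lit 485) c7_8793_1
 Tr.lf Tr.lf) Tr.lf) (Tr.nd (nat_lit 170) (nat_lit 154) (nat_lit 1) (nat_lit 725) c7_8793_1
 Tr.lf Tr.lf)) (Tr.nd (nat_lit 204) (nat_lit 5) (nat_lit 11) (nat_lit 895) c7_8793_1
 (Tr.nd (nat_lit 199) (nat_lit 6) (nat_lit 1) (nat_lit 889) c7_8793_1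
 Tr.lf Tr.lf) (Tr.nd (nat_lit 205) (nat_lit 23) (nat_lit 5) (nat_lit 950) c7_8793_1
 Tr.lf Tr.lf)))) (Tr.nd (nat_lit 247) (nat_lit 2) (nat_lit 1) (nat_lit 2324) c7_8793_1
 (Tr.nd (nat_lit 217) (nat_lit 6) (nat_lit 1) (nat_lit 1827) c7_8793_1
 (Tr.nd (nat_lit 212) (nat_lit 100) (nat_lit 3) (nat_lit 1251) c7_8793_1
 (Tr.nd (nat_lit 211) (nat_lit 23) (nat_lit 5) (nat_lit 1136) c7_8793_1
 (Tr.nd (nat_lit 210) (nat_lit 2) (nat_lit 5) (nat_lit 1126) c7_8793_1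
 Tr.lf Tr.lf) Tr.lf) (Tr.nd (nat_lit 213) (nat_lit 276) (nat_lit 1) (nat_lit 1551) c7_8793_1
 Tr.lf Tr.lf)) (Tr.nd (nat_lit 219) (nat_lit 276) (nat_lit 1) (nat_lit 1894) c7_8793_1
 (Tr.nd (nat_lit 218) (nat_lit 61) (nat_lit 1) (nat_lit 1833) c7_8793_1
 Tr.lf Tr.lf) (Tr.nd (nat_lit 220) (nat_lit 154) (nat_lit 1) (nat_lit 2170) c7_8793_1
 Tr.lf Tr.lf))) (Tr.nd (nat_lit 261) (nat_lit 116) (nat_lit 1) (nat_lit 2388) c7_8793_1
 (Tr.nd (nat_lit 259) (nat_lit 2) (nat_lit 1) (nat_lit 2362) c7_8793_1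
 (Tr.nd (nat_lit 254) (nat_lit 24) (nat_lit 1) (nat_lit 2338) c7_8793_1
 (Tr.nd (nat_lit 253) (nat_lit 4) (nat_lit 3) (nat_lit 2326) c7_8793_1
 Tr.lf Tr.lf) Tr.lf) (Tr.nd (nat_lit 260) (nat_lit 24) (nat_lit 1) (nat_lit 2364) c7_8793_1
 Tr.lf Tr.lf)) (Tr.nd (nat_lit 268) (nat_lit 61) (nat_lit 1) (nat_lit 2565) c7_8793_1
 (Tr.nd (nat_lit 262) (nat_lit 61) (nat_lit 1) (nat_lit 2504) c7_8793_1
 Tr.lf Tr.lf) (Tr.nd (nat_lit 269) (nat_lit 37) (nat_lit 1) (nat_lit 2626) c7_8793_1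
 Tr.lf Tr.lf))))))

noncomputable def c7_9369_0 : List Nat := [(nat_lit 0x119344262d844341885ae862219601229d0d8ecb86d4e6d9d54c2c4b332c362349a8e5b030acdc6163b3cf526096a91cd0d0ae32226cc434a4b05ba61208994a6b8ea4618692b52b653af4108ac1731ce10e5002c1b8a47093245a510187514ba1dc2e3b562c6696000008b46ec55622aca8519574c9dba9563c2a23048a1a292311e0dc215052071d1b5036ae9a42f08cc436d0ab5a3a27133b03111148e3319356559bb1d9ed0405c27176136845348325e21ec3515d98b868004cc662b16eb1248bc76093cc674a85acc20754a94e3534395b908165554c550c55218bc0da135192e2685a466704aa862a1aaaac840b5ab19a271a352b88418d9e84a685d50c896955a3cea6007a50f5319d2ba2e1b307325849a285a4cace2632209b3d8ed4ba8000000000000000000000091ecc3ad0399a089631ab8aa8aa3894108b289973462b39d356d023228719b6634700000000000000000000000d015145361a6159a99cacd144c8463a5255811d1084d28cd79829e273c638a5608d1081eda632d32d45e959d2682e8a8594805aad9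b1a4b8e5c45814760346c4e1426ddd5334ed60918d068cbb18821714a4631090425071dc4b3b558eb0b3642682704681a27938c1db054db11ba58584e3444d2528121e1162b1d05c6402b41d481b0c01b05829194086e6566ca9a6c617490cc908b6e3a1519b2b8e2caac8c32695d6e0b4370338ea5b67559bd948620e629d99c591c50152c6a492690a5ed0cb6d8d553396308b2490638cdd93659b7500e685a6ea4c843c1291da72723cb4c5e22360508608c12682b2d6c1b326766510da64f0aa992211a7437a95629b34350cc39d54d5998f1b2d52d5115666e4d5d7288f334d74d01cc1c5635738a551da108f1c16ab1b0d61dc698ab09099e3a62edc956c5a29d891092266cc898c28d10c32d7544239544970268b4f1c5d61c3536eab96b4ad441826daae40c359b25ea5618e5438554e9821540b62201b8ac14468c1d46206b15e476653405a83a8a41c6a90d2b1b32102a010b1420bc2c46b71dc6320c390914c4a5249a38e4a41c2c78a628cdeba4ae075d2f5d6b25e2922b064b21366cb6baddb8e2e58680648a24ce062164d9bd23c41cc88c000000015216890b8435510eba88910742712400000006c108a420c59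67a17a521c84b36aa2b21e960256210a626e3c598ce72a38696b9412d3c6004b8f2390da9a28403cce04875910906c70b344a0937392494e4d9ab2b5c47659309e37330446453599e8189123718641a574962ca6c92bd70cb3496725ac078e76aa8dd439a3243942811583376580c5826ca28319c5480bb6e8a14c830a6b4b9b68a1a519d183366a48a04203aeeb11c6e718d2239ad8d29875360ad9da8511199ec6315e8cd1148a2c9bda548515b77591b12c6932194f329640914b94395149da8d65aba384a71325a79b6aca5c9806288c44a8599383af4c748ab51ba10614bb5156896315602520d18a6a74ad92432b12a9a5a264188c6b1d6dba892ec022da041b9208076bd4141553264298664b974680c89214cd0448af5a33846a269b402016941d1a68cc66b296042533d4c31c109bb235350aa220339a47b278c30354899d0519516b695058c950baa6ecd0a31ec045019706e97237ab71caf655c2f4028775a0d0216d619ba0644e3ac32c71e653588281d3184db213952cca358e96d92dc628686c35a2c31a76109ccb3d836a5b68ae882b3488aa125525c92996499a0b11ca2aa6d658033934c69568c56a00115d1321b230016a649947a491ca74690c49174ccc38e6cac94b490de17485810e42057166c6e50a868cb01112a6570668c6c02a04654555a35288f071946391ec4484c269ae944bae8032a9198d9a52036892324aeac2ae20b35b5c71c90da5269c5b0288b06ec2a07b15a976e441a657ad6599166a91963126ea332a245660eca624b4a15258af028082c42232352da09c00000000000000185470009570200c3520100ec360000081801b2230008280180049070008476af5880008206040042b88036a8aa00441a52240209)]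
noncomputable def c7_9369_1 : List Nat := [(nat_lit 0x48201291a41400a8abb000ea81001180208002973bb14080310490060022080302b60060080001b0d88040370c0023544803154600000000000000052e276ca9869549c80b0170e105acb548ae321ea11849b2192395616d10d56eb86b0d56882e355b324084336328280d9c69366c12c71d764f20a3a83baa48000e65064d9a53a14aac00aeb251ae9a4c264076723851718ce0b139954558508880dc29e11d86a50112c298a858dca59d50816300664d466c136c4b22de3a88ae123210c8e10c00344e7141552e26d656e862754b0b28a92b49b5a91a20a4c460541535082224c08e318941da9bd55ce8620ac61209a038a05c992af5798795d95a02085255515ac13980e2321a3698555a2d5c048eca89399004b15d1ab555626519968e494c756cec71bb9b919ad8d6111403670a334adaba8564390566d15b4d0920f4681746a501aa0f1d33164c66a8d020943cc56a9253d23c1128979a96689a745ace0a0c8dac6d9a02149059a65e998c6e4d4245999a2c91c280d245b54e8c20284ab1c9398b254b369364aa94d500044d5d92e8901b03890c49246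11550135800b266883942db59acf472cade35860d58336ec1a96112a0db7196d4c8e85695db4eb0acd46ea90d2c34866e274428d9986219b5748914700636915493af45a9521c5c725c0da46a822a90017701908a8d19a4c4b6aeb0211506ad15019d7827a431b3ae683258651882a9b6a265976076d2717a9661555613a6242c80b17074e6d4532253986ae4c0441ab847215748f13763aaa2695d00c933b96b7093114eca16c3596c5476aca96d6364923d4922c14b31ca4130175824454606404d8318f57842b2008a99a6e794271c498c0d0d67402a4cd6617633b3891b856cbc1e51e6406d5b00002729635762023caa52434265490042844a68541c05e626661cf6928508c5a51490814cb19c75add76d94b68164b191491cc976eb99aeb11d935cde14347394620d91c73492244e8a40b184170eae374a946645215a120ab1a22d8b5012a6de54a714a00688c4ccec68b44ab0008a800055d81454b40a8c10d6aa318ab1c3237325bc986247536d0c20b91b72d556daa630eb38e6994d08c92aac502aeb961829851835216f4049809d8d1686ecd6ad696f1a65b822ed0eb2dc4dc30a81271a752151b2979b2eb6dc82ad1b403d48b2b348919361b89ab292a8e1d0d26e4b210d83686e42b4ac2f4a5d30cdaba12da3ad51ad93612ea461b0ce1a635b6ae36362aecae8a3d65c15b9032326b56e511c180c531628c018a18873713506d6412c8f38d44e32e22482c8709aae8695242d26e94c62b5863b066488d468442825183252895801d02d52355b91659e68dd5e4e69252692dad4d192972db23816968cb79a972)]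
noncomputable def T7_9369 : Op := Op.mk (nat_lit 73)
 (Tr.nd (nat_lit 148) (nat_lit 1) (nat_lit 63) (nat_lit 3332) c7_9369_0
 (Tr.nd (nat_lit 64) (nat_lit 5) (nat_lit 23) (nat_lit 1596) c7_9369_0
 (Tr.nd (nat_lit 49) (nat_lit 1) (nat_lit 154) (nat_lit 337) c7_9369_0
 (Tr.nd (nat_lit 9) (nat_lit 1) (nat_lit 24) (nat_lit 275) c7_9369_0
 (Tr.nd (nat_lit 7) (nat_lit 1) (nat_lit 61) (nat_lit 98) c7_9369_0
 (Tr.nd (nat_lit 1) (nat_lit 1) (nat_lit 61) (nat_lit 37) c7_9369_0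
 (Tr.nd (nat_lit 0) (nat_lit 1) (nat_lit 37) (nat_lit 0) c7_9369_0
 Tr.lf Tr.lf) Tr.lf) (Tr.nd (nat_lit 8) (nat_lit 1) (nat_lit 116) (nat_lit 159) c7_9369_0
 Tr.lf Tr.lf)) (Tr.nd (nat_lit 16) (nat_lit 2) (nat_lit 5) (nat_lit 325) c7_9369_0
 (Tr.nd (nat_lit 15) (nat_lit 1) (nat_lit 24) (nat_lit 301) c7_9369_0
 (Tr.nd (nat_lit 10) (nat_lit 1) (nat_lit 2) (nat_lit 299) c7_9369_0
 Tr.lf Tr.lf) Tr.lf) (Tr.nd (nat_lit 22) (nat_lit 1) (nat_lit 2) (nat_lit 335) c7_9369_0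
 Tr.lf Tr.lf))) (Tr.nd (nat_lit 57) (nat_lit 3) (nat_lit 100) (nat_lit 1110) c7_9369_0
 (Tr.nd (nat_lit 52) (nat_lit 1) (nat_lit 6) (nat_lit 828) c7_9369_0
 (Tr.nd (nat_lit 51) (nat_lit 1) (nat_lit 61) (nat_lit 767) c7_9369_0
 (Tr.nd (nat_lit 50) (nat_lit 1) (nat_lit 276) (nat_lit 491) c7_9369_0
 Tr.lf Tr.lf) Tr.lf) (Tr.nd (nat_lit 56) (nat_lit 1) (nat_lit 276) (nat_lit 834) c7_9369_0
 Tr.lf Tr.lf)) (Tr.nd (nat_lit 59) (nat_lit 5) (nat_lit 2) (nat_lit 1525) c7_9369_0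
 (Tr.nd (nat_lit 58) (nat_lit 5) (nat_lit 23) (nat_lit 1410) c7_9369_0
 Tr.lf Tr.lf) (Tr.nd (nat_lit 63) (nat_lit 1) (nat_lit 61) (nat_lit 1535) c7_9369_0
 Tr.lf Tr.lf)))) (Tr.nd (nat_lit 107) (nat_lit 10) (nat_lit 17) (nat_lit 2504) c7_9369_0
 (Tr.nd (nat_lit 100) (nat_lit 2) (nat_lit 37) (nat_lit 1951) c7_9369_0
 (Tr.nd (nat_lit 71) (nat_lit 5) (nat_lit 2) (nat_lit 1787) c7_9369_0
 (Tr.nd (nat_lit 70) (nat_lit 1) (nat_lit 6) (nat_lit 1781) c7_9369_0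
 (Tr.nd (nat_lit 65) (nat_lit 10) (nat_lit 7) (nat_lit 1711) c7_9369_0
 Tr.lf Tr.lf) Tr.lf) (Tr.nd (nat_lit 99) (nat_lit 1) (nat_lit 154) (nat_lit 1797) c7_9369_0
 Tr.lf Tr.lf)) (Tr.nd (nat_lit 105) (nat_lit 1) (nat_lit 154) (nat_lit 2035) c7_9369_0
 (Tr.nd (nat_lit 101) (nat_lit 2) (nat_lit 5) (nat_lit 2025) c7_9369_0
 Tr.lf Tr.lf) (Tr.nd (nat_lit 106) (nat_lit 5) (nat_lit 63) (nat_lit 2189) c7_9369_0
 Tr.lf Tr.lf))) (Tr.nd (nat_lit 115) (nat_lit 63) (nat_lit 1) (nat_lit 3162) c7_9369_0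
 (Tr.nd (nat_lit 113) (nat_lit 10) (nat_lit 17) (nat_lit 2782) c7_9369_0
 (Tr.nd (nat_lit 112) (nat_lit 2) (nat_lit 37) (nat_lit 2708) c7_9369_0
 (Tr.nd (nat_lit 108) (nat_lit 17) (nat_lit 2) (nat_lit 2674) c7_9369_0
 Tr.lf Tr.lf) Tr.lf) (Tr.nd (nat_lit 114) (nat_lit 30) (nat_lit 7) (nat_lit 2952) c7_9369_0
 Tr.lf Tr.lf)) (Tr.nd (nat_lit 120) (nat_lit 17) (nat_lit 2) (nat_lit 3235) c7_9369_0
 (Tr.nd (nat_lit 119) (nat_lit 2) (nat_lit 5) (nat_lit 3225) c7_9369_0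
 Tr.lf Tr.lf) (Tr.nd (nat_lit 121) (nat_lit 63) (nat_lit 1) (nat_lit 3269) c7_9369_0
 Tr.lf Tr.lf))))) (Tr.nd (nat_lit 206) (nat_lit 61) (nat_lit 1) (nat_lit 1065) c7_9369_1
 (Tr.nd (nat_lit 163) (nat_lit 63) (nat_lit 5) (nat_lit 170) c7_9369_1
 (Tr.nd (nat_lit 156) (nat_lit 17) (nat_lit 10) (nat_lit 3659) c7_9369_0
 (Tr.nd (nat_lit 154) (nat_lit 1) (nat_lit 63) (nat_lit 3441) c7_9369_0
 (Tr.nd (nat_lit 150) (nat_lit 4) (nat_lit 3) (nat_lit 3429) c7_9369_0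
 (Tr.nd (nat_lit 149) (nat_lit 2) (nat_lit 17) (nat_lit 3395) c7_9369_0
 Tr.lf Tr.lf) Tr.lf) (Tr.nd (nat_lit 155) (nat_lit 5) (nat_lit 31) (nat_lit 3504) c7_9369_0
 Tr.lf Tr.lf)) (Tr.nd (nat_lit 161) (nat_lit 2) (nat_lit 17) (nat_lit 3903) c7_9369_0
 (Tr.nd (nat_lit 157) (nat_lit 37) (nat_lit 2) (nat_lit 3829) c7_9369_0
 Tr.lf Tr.lf) (Tr.nd (nat_lit 162) (nat_lit 17) (nat_lit 10) (nat_lit 0) c7_9369_1
 Tr.lf Tr.lf))) (Tr.nd (nat_lit 198) (nat_lit 2) (nat_lit 5) (nat_lit 879) c7_9369_1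
 (Tr.nd (nat_lit 169) (nat_lit 37) (nat_lit 2) (nat_lit 651) c7_9369_1
 (Tr.nd (nat_lit 168) (nat_lit 4) (nat_lit 3) (nat_lit 639) c7_9369_1
 (Tr.nd (nat_lit 164) (nat_lit 154) (nat_lit 1) (nat_lit 485) c7_9369_1
 Tr.lf Tr.lf) Tr.lf) (Tr.nd (nat_lit 170) (nat_lit 154) (nat_lit 1) (nat_lit 725) c7_9369_1
 Tr.lf Tr.lf)) (Tr.nd (nat_lit 204) (nat_lit 5) (nat_lit 11) (nat_lit 895) c7_9369_1
 (Tr.nd (nat_lit 199) (nat_lit 6) (nat_lit 1) (nat_lit 889) c7_9369_1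
 Tr.lf Tr.lf) (Tr.nd (nat_lit 205) (nat_lit 23) (nat_lit 5) (nat_lit 950) c7_9369_1
 Tr.lf Tr.lf)))) (Tr.nd (nat_lit 247) (nat_lit 2) (nat_lit 1) (nat_lit 2324) c7_9369_1
 (Tr.nd (nat_lit 217) (nat_lit 6) (nat_lit 1) (nat_lit 1827) c7_9369_1
 (Tr.nd (nat_lit 212) (nat_lit 100) (nat_lit 3) (nat_lit 1251) c7_9369_1
 (Tr.nd (nat_lit 211) (nat_lit 23) (nat_lit 5) (nat_lit 1136) c7_9369_1
 (Tr.nd (nat_lit 210) (nat_lit 2) (nat_lit 5) (nat_lit 1126) c7_9369_1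
 Tr.lf Tr.lf) Tr.lf) (Tr.nd (nat_lit 213) (nat_lit 276) (nat_lit 1) (nat_lit 1551) c7_9369_1
 Tr.lf Tr.lf)) (Tr.nd (nat_lit 219) (nat_lit 276) (nat_lit 1) (nat_lit 1894) c7_9369_1
 (Tr.nd (nat_lit 218) (nat_lit 61) (nat_lit 1) (nat_lit 1833) c7_9369_1
 Tr.lf Tr.lf) (Tr.nd (nat_lit 220) (nat_lit 154) (nat_lit 1) (nat_lit 2170) c7_9369_1
 Tr.lf Tr.lf))) (Tr.nd (nat_lit 261) (nat_lit 116) (nat_lit 1) (nat_lit 2388) c7_9369_1
 (Tr.nd (nat_lit 259) (nat_lit 2) (nat_lit 1) (nat_lit 2362) c7_9369_1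
 (Tr.nd (nat_lit 254) (nat_lit 24) (nat_lit 1) (nat_lit 2338) c7_9369_1
 (Tr.nd (nat_lit 253) (nat_lit 4) (nat_lit 3) (nat_lit 2326) c7_9369_1
 Tr.lf Tr.lf) Tr.lf) (Tr.nd (nat_lit 260) (nat_lit 24) (nat_lit 1) (nat_lit 2364) c7_9369_1
 Tr.lf Tr.lf)) (Tr.nd (nat_lit 268) (nat_lit 61) (nat_lit 1) (nat_lit 2565) c7_9369_1
 (Tr.nd (nat_lit 262) (nat_lit 61) (nat_lit 1) (nat_lit 2504) c7_9369_1
 Tr.lf Tr.lf) (Tr.nd (nat_lit 269) (nat_lit 37) (nat_lit 1) (nat_lit 2626) c7_9369_1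
 Tr.lf Tr.lf))))))

noncomputable def c7_9810_0 : List Nat := [(nat_lit 0x376a1056b10c279cc517ad8ac3a808966900e28e2e04d1650aad64542d0222ee76b42568424c763b83cc4aa1a8b019994923ad6d2cc2baded42409c7152a350373b29560a0614aa530c45300d882a0c3782393811c59673528b2c0014cb9b6d1a60b00579da7050460002b7604d8a9acd2b9c44d67081a15ec3336540662cb09d8647139a8b256562935cc6ed29c1331339924d05b44009898dca0074ad416e4da820a86a8c2f23189a83760c4a4b971ab167000cb4406e6062f00027234adc0279555d804c167436d6ad0c8546c64dcf387626005bc7126e85bb047b329b54d24c28a451849a6a6d17b38256ccd4938e6c8109d8c79ea4b94aa16c14ad2683616803babaf5580a028d589e6700f5220b610062ce54eb19360636a45d038566615705400000000000000000000001b206b4f616e89d014106c49202a5a4298ce39ecd36acb214dd15da5dd10148b60cc0000000000000000000000da88656e8642ab4799951399c2404e4a149a6532b31a00f3059a509b668a96306260c865ae0b546b32998400f381e1a9b01a29068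c234deb21cc21292b27403aeb85b910a15a68dd923c15ab2810cdd4c30d301e60a141b626092436235aa7a826106a406cddb622e24ac059a716150e902d6451356c21ab6a346ad4c2a5cc272694c2014005a4988b1937001c2615a3575591d60312cd162b24e7454d83204d03440f22e6a9c0ac760d8e1b634e5439a521d54b623b99d066239a6909373aee966b556108016b00323a3d49ae1c90aa5c82c4a586a18a5b57008c3b6d052e4b358f323386514ace815194298cc50182006bac5536332ab6f659c0a490995b9ab0683a2426825865a9e4d5cad911818a4c961d432098cd4c236d76e70b81519d4d9369622d9e1a801e609382c855a21628018e09524e43a07a4640c6bc18973926a9912969ebab00a88c874b9d0e684bd71b058603a8649198155cd5b15a1b80191514b98e80c6ad9a0cf16ee10cc00972951b561724299844de1a45322f42d6b155b525528660e4e8115db6045b6b44e622586656b3309185234b330a05530a1180190d6b485014d4342041b276dda22e9c55d6cc76d5cd6ec324f6693c81853aea8e541811d8ec0843746d02000000000018cca199a4985493c94449c43a43000000002d4015da531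b102c8eb770a9378982525011cb542cc043531a110f25a6529d59a8b62251dd497ae6b4b9304a041b8e61516114d35a851d34a053b1850060c724de68ac9e220885b23b0dd6871388e10286c949151001c658a3b03bb6bb199b675023399d940e048191dd58b05d31c0da087a1633d5546930508208c663c2bd550c67850c850a65160e97031c02e2294cda7085c68b1a518e1509b0c1ab8273516c5612ed035153d0039ad31770625cf6235305c5c534c4b80972e29d09075ed751a2462da413580292cc73573428a2688c88632da31629c99c856d14da588c4e42328db1c465cb3da3b2d6936a91919507060f0148b60d930ec0c83ab8eac9291b56212930181dae0002ca078605aa85cc1d8a8728ab15b381aca02454a64e5a9d8599c54cc86768ca3aa511b09a6837b5661c2006a9ad898cd2c3552e90eac46752d6116b6176c7b1d1b18e4aad50c722854d480843502b4855b02d441622d588b5994b152870ac8345d42445381a998cd0d2a96889da4c13da3af6160242d81c6aab662a79b29dac4c8d0a5aad05ba882208c08cd04a326cd60554728ebc8e326ae9ba50dc7b138e6ccb73bb080445cc88b248802168980640cabb1b9d94d6d3d124a5373ccb9344848ab46d030c002480130091738ce0701b46a64851400ac608050180053c06881c06d1a18681a144d9680e089cd6c8e242406806d1a040a20151a0ea4a65b00348d2287902d26c1041b90611d74c81aeed0906ad0824128492db2bc2225e04529ed3506983522e289b10d45181d6964c9ad7300506a0c59a59271b9a4c9334572113d6ea255a6025cea540804582940401d440084cb0624406ce0458120c5c32a76d0d309174ba9c25d0e12e9669a39697306e490e7327648838c09a8)]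
noncomputable def c7_9810_1 : List Nat := [(nat_lit 0x2e8038c29256b478c92363466d8e69a59ac18cd60c6eb3504c34cdb1ab0d4309094118b6014a10cb408105c404058865008054abd601a6560badcd4d4a4c870d3546a9658824930aad16bd8960b896c4c102813936b81c12a6cd5e5a38c3aad8d99a32dc6a391520cca904cdaba42d35c50616a4104369321660000d45074365a26e22954082804273602601204e2b64f12862265b41426261827360310a603344018044021ca8014509689cd80c462e3d41203400248030c0e7aa6cc81657385b62659bc0b6c4b89d1a84033465b2863100c352931564d44519b65018e296ac86c5024945cdc90b5200cd2464c4862c0c6d601937212896309661eae8823b91816cad67072b74e4082ae7118686c9a76ae313556907071b6ea6b5b03509566ce2543361768395a0e4144c8d95093a05c102244d508ac70572b606742488db5b18f3d30c0b3345403197a238a2e86cb53422b0e8a9dc7268e0e564631cc862e814086a20485d310c03693da63ab085d0e0b5980274c84a62d60b9d12661b2ab630a50a047068d52a9686d1899639a0f515440384b7656e05501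725537106363b4c3199d74a35818a61840bb13569d8216c273ba460170c81802ecc5571d682a592c16268645e5aa0e007071274b24c58ab9a806366981daea41393266c75a0379868676620aa685b0525540bb456e48598e3343a367131968d609618c25a1e562c928c8116545d44ae381cc8413504a875561d5dadcb30226218c26d6a1ac2e8131ab6c4e00c29827270116c843c2b853a23d86bad6e3824998291ca532d8a562080e6b229e6d2c70840461d8d02cd3146274d341945418dae66e163043a6c3a35aab7292045148e46b84d08c5484c681825435b640975b9b248cd69b20d34c9134ac0004a0a25058d926c100eac6975d0601321598c340109b99190515cae00c2b1c55d68c216693d9a586d6e8eed8e96ea8e359536b6b5b0801982a6808c993a642042851a2a051a166948c2907a5c8bc32503c4a76da811b1d921284ca6043523b0495d5999e564833d989b234156ed6c2001949685a18356ce784d2d4e1131d19a2a90811b16a96a7aaa03c092c5c4432894eb9933462bd6632151101dd734cd80b57491eb0319d3802e4cc4c64696542d3269911255336800ccf18f4d8461330b1b284ea2d913106ab0950a1468945115135a16e621594b2d2ed62c41d6009630a0a6aa369988a990e35e64bb403ac0dea294e868e26892a2090c5a9da7412901c98602e698990562596b453288f43b436e303b3288e8dc226ce14f499e142393cc2c33964c45cf3ac96e2a3183488384bb00001c5b62ec6c292a362da0769460ae35c3966c42963042cc09c740d6ad2daa62e14e4261c0ac252c4d06d6411a6192b5a14)]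
noncomputable def T7_9810 : Op := Op.mk (nat_lit 73)
 (Tr.nd (nat_lit 148) (nat_lit 1) (nat_lit 63) (nat_lit 3332) c7_9810_0
 (Tr.nd (nat_lit 64) (nat_lit 5) (nat_lit 23) (nat_lit 1596) c7_9810_0
 (Tr.nd (nat_lit 49) (nat_lit 1) (nat_lit 154) (nat_lit 337) c7_9810_0
 (Tr.nd (nat_lit 9) (nat_lit 1) (nat_lit 24) (nat_lit 275) c7_9810_0
 (Tr.nd (nat_lit 7) (nat_lit 1) (nat_lit 61) (nat_lit 98) c7_9810_0
 (Tr.nd (nat_lit 1) (nat_lit 1) (nat_lit 61) (nat_lit 37) c7_9810_0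
 (Tr.nd (nat_lit 0) (nat_lit 1) (nat_lit 37) (nat_lit 0) c7_9810_0
 Tr.lf Tr.lf) Tr.lf) (Tr.nd (nat_lit 8) (nat_lit 1) (nat_lit 116) (nat_lit 159) c7_9810_0
 Tr.lf Tr.lf)) (Tr.nd (nat_lit 16) (nat_lit 2) (nat_lit 5) (nat_lit 325) c7_9810_0
 (Tr.nd (nat_lit 15) (nat_lit 1) (nat_lit 24) (nat_lit 301) c7_9810_0
 (Tr.nd (nat_lit 10) (nat_lit 1) (nat_lit 2) (nat_lit 299) c7_9810_0
 Tr.lf Tr.lf) Tr.lf) (Tr.nd (nat_lit 22) (nat_lit 1) (nat_lit 2) (nat_lit 335) c7_9810_0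
 Tr.lf Tr.lf))) (Tr.nd (nat_lit 57) (nat_lit 3) (nat_lit 100) (nat_lit 1110) c7_9810_0
 (Tr.nd (nat_lit 52) (nat_lit 1) (nat_lit 6) (nat_lit 828) c7_9810_0
 (Tr.nd (nat_lit 51) (nat_lit 1) (nat_lit 61) (nat_lit 767) c7_9810_0
 (Tr.nd (nat_lit 50) (nat_lit 1) (nat_lit 276) (nat_lit 491) c7_9810_0
 Tr.lf Tr.lf) Tr.lf) (Tr.nd (nat_lit 56) (nat_lit 1) (nat_lit 276) (nat_lit 834) c7_9810_0
 Tr.lf Tr.lf)) (Tr.nd (nat_lit 59) (nat_lit 5) (nat_lit 2) (nat_lit 1525) c7_9810_0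
 (Tr.nd (nat_lit 58) (nat_lit 5) (nat_lit 23) (nat_lit 1410) c7_9810_0
 Tr.lf Tr.lf) (Tr.nd (nat_lit 63) (nat_lit 1) (nat_lit 61) (nat_lit 1535) c7_9810_0
 Tr.lf Tr.lf)))) (Tr.nd (nat_lit 107) (nat_lit 10) (nat_lit 17) (nat_lit 2504) c7_9810_0
 (Tr.nd (nat_lit 100) (nat_lit 2) (nat_lit 37) (nat_lit 1951) c7_9810_0
 (Tr.nd (nat_lit 71) (nat_lit 5) (nat_lit 2) (nat_lit 1787) c7_9810_0
 (Tr.nd (nat_lit 70) (nat_lit 1) (nat_lit 6) (nat_lit 1781) c7_9810_0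
 (Tr.nd (nat_lit 65) (nat_lit 10) (nat_lit 7) (nat_lit 1711) c7_9810_0
 Tr.lf Tr.lf) Tr.lf) (Tr.nd (nat_lit 99) (nat_lit 1) (nat_lit 154) (nat_lit 1797) c7_9810_0
 Tr.lf Tr.lf)) (Tr.nd (nat_lit 105) (nat_lit 1) (nat_lit 154) (nat_lit 2035) c7_9810_0
 (Tr.nd (nat_lit 101) (nat_lit 2) (nat_lit 5) (nat_lit 2025) c7_9810_0
 Tr.lf Tr.lf) (Tr.nd (nat_lit 106) (nat_lit 5) (nat_lit 63) (nat_lit 2189) c7_9810_0
 Tr.lf Tr.lf))) (Tr.nd (nat_lit 115) (nat_lit 63) (nat_lit 1) (nat_lit 3162) c7_9810_0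
 (Tr.nd (nat_lit 113) (nat_lit 10) (nat_lit 17) (nat_lit 2782) c7_9810_0
 (Tr.nd (nat_lit 112) (nat_lit 2) (nat_lit 37) (nat_lit 2708) c7_9810_0
 (Tr.nd (nat_lit 108) (nat_lit 17) (nat_lit 2) (nat_lit 2674) c7_9810_0
 Tr.lf Tr.lf) Tr.lf) (Tr.nd (nat_lit 114) (nat_lit 30) (nat_lit 7) (nat_lit 2952) c7_9810_0
 Tr.lf Tr.lf)) (Tr.nd (nat_lit 120) (nat_lit 17) (nat_lit 2) (nat_lit 3235) c7_9810_0
 (Tr.nd (nat_lit 119) (nat_lit 2) (nat_lit 5) (nat_lit 3225) c7_9810_0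
 Tr.lf Tr.lf) (Tr.nd (nat_lit 121) (nat_lit 63) (nat_lit 1) (nat_lit 3269) c7_9810_0
 Tr.lf Tr.lf))))) (Tr.nd (nat_lit 206) (nat_lit 61) (nat_lit 1) (nat_lit 1065) c7_9810_1
 (Tr.nd (nat_lit 163) (nat_lit 63) (nat_lit 5) (nat_lit 170) c7_9810_1
 (Tr.nd (nat_lit 156) (nat_lit 17) (nat_lit 10) (nat_lit 3659) c7_9810_0
 (Tr.nd (nat_lit 154) (nat_lit 1) (nat_lit 63) (nat_lit 3441) c7_9810_0
 (Tr.nd (nat_lit 150) (nat_lit 4) (nat_lit 3) (nat_lit 3429) c7_9810_0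
 (Tr.nd (nat_lit 149) (nat_lit 2) (nat_lit 17) (nat_lit 3395) c7_9810_0
 Tr.lf Tr.lf) Tr.lf) (Tr.nd (nat_lit 155) (nat_lit 5) (nat_lit 31) (nat_lit 3504) c7_9810_0
 Tr.lf Tr.lf)) (Tr.nd (nat_lit 161) (nat_lit 2) (nat_lit 17) (nat_lit 3903) c7_9810_0
 (Tr.nd (nat_lit 157) (nat_lit 37) (nat_lit 2) (nat_lit 3829) c7_9810_0
 Tr.lf Tr.lf) (Tr.nd (nat_lit 162) (nat_lit 17) (nat_lit 10) (nat_lit 0) c7_9810_1
 Tr.lf Tr.lf))) (Tr.nd (nat_lit 198) (nat_lit 2) (nat_lit 5) (nat_lit 879) c7_9810_1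
 (Tr.nd (nat_lit 169) (nat_lit 37) (nat_lit 2) (nat_lit 651) c7_9810_1
 (Tr.nd (nat_lit 168) (nat_lit 4) (nat_lit 3) (nat_lit 639) c7_9810_1
 (Tr.nd (nat_lit 164) (nat_lit 154) (nat_lit 1) (nat_lit 485) c7_9810_1
 Tr.lf Tr.lf) Tr.lf) (Tr.nd (nat_lit 170) (nat_lit 154) (nat_lit 1) (nat_lit 725) c7_9810_1
 Tr.lf Tr.lf)) (Tr.nd (nat_lit 204) (nat_lit 5) (nat_lit 11) (nat_lit 895) c7_9810_1
 (Tr.nd (nat_lit 199) (nat_lit 6) (nat_lit 1) (nat_lit 889) c7_9810_1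
 Tr.lf Tr.lf) (Tr.nd (nat_lit 205) (nat_lit 23) (nat_lit 5) (nat_lit 950) c7_9810_1
 Tr.lf Tr.lf)))) (Tr.nd (nat_lit 247) (nat_lit 2) (nat_lit 1) (nat_lit 2324) c7_9810_1
 (Tr.nd (nat_lit 217) (nat_lit 6) (nat_lit 1) (nat_lit 1827) c7_9810_1
 (Tr.nd (nat_lit 212) (nat_lit 100) (nat_lit 3) (nat_lit 1251) c7_9810_1
 (Tr.nd (nat_lit 211) (nat_lit 23) (nat_lit 5) (nat_lit 1136) c7_9810_1
 (Tr.nd (nat_lit 210) (nat_lit 2) (nat_lit 5) (nat_lit 1126) c7_9810_1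
 Tr.lf Tr.lf) Tr.lf) (Tr.nd (nat_lit 213) (nat_lit 276) (nat_lit 1) (nat_lit 1551) c7_9810_1
 Tr.lf Tr.lf)) (Tr.nd (nat_lit 219) (nat_lit 276) (nat_lit 1) (nat_lit 1894) c7_9810_1
 (Tr.nd (nat_lit 218) (nat_lit 61) (nat_lit 1) (nat_lit 1833) c7_9810_1
 Tr.lf Tr.lf) (Tr.nd (nat_lit 220) (nat_lit 154) (nat_lit 1) (nat_lit 2170) c7_9810_1
 Tr.lf Tr.lf))) (Tr.nd (nat_lit 261) (nat_lit 116) (nat_lit 1) (nat_lit 2388) c7_9810_1
 (Tr.nd (nat_lit 259) (nat_lit 2) (nat_lit 1) (nat_lit 2362) c7_9810_1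
 (Tr.nd (nat_lit 254) (nat_lit 24) (nat_lit 1) (nat_lit 2338) c7_9810_1
 (Tr.nd (nat_lit 253) (nat_lit 4) (nat_lit 3) (nat_lit 2326) c7_9810_1
 Tr.lf Tr.lf) Tr.lf) (Tr.nd (nat_lit 260) (nat_lit 24) (nat_lit 1) (nat_lit 2364) c7_9810_1
 Tr.lf Tr.lf)) (Tr.nd (nat_lit 268) (nat_lit 61) (nat_lit 1) (nat_lit 2565) c7_9810_1
 (Tr.nd (nat_lit 262) (nat_lit 61) (nat_lit 1) (nat_lit 2504) c7_9810_1
 Tr.lf Tr.lf) (Tr.nd (nat_lit 269) (nat_lit 37) (nat_lit 1) (nat_lit 2626) c7_9810_1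
 Tr.lf Tr.lf))))))

noncomputable def c7_9570_0 : List Nat := [(nat_lit 0x2d60640886ba04d1ac38c6388c36875ba1b21c66683698854949aaa228a0b053c7695b3a3552b64871184d28c9145b26d1108e1362953864693758d86690586763aacb0c62c6b6c6ed6018eab4866928555c6809dcf07125688c12c13048e6902c503b3743cc0284600019573a2d44db2145e4f5af112acd418150a20c54e22e11c785d66bb22c66f46695220d2a51c8113573200b97341c2a04c8d0b2a9553a6b200463aee8c5b584aea96a0022956211239d81b2db0f6c264d00067a1b258541534b346002e2d10a985055c00bac8d6b72322b25a65931e6018216aece1741daab5daed57622b31ed53304203ce12cb4c974172376e05d6408e85129aa0902ac00965266b988a04c7495a6b41b661b65b12bc52814a8d040172575483b6873575c28000000000000000000000031018d94c6ad271bb21b0b1e8c22cd234256044a5aad1a0d6d60a27521466e90c30c0000000000000000000000c220f16517958a3a263564ad58eb03843a4e32ac9191c1a099bad04cc1543ae2d36a1a046908a4cc06b4275301b44cded49860169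50405d51e22302a149ab5c2c9aac40752da64d3934a8618a94a85cb23c1e0dc49ddb2865b114222da9b1c5404eb693a8361b12b1bcd8af439c35c1461165a1a40900762c06db261960d6ad023bb5d6234434a302a366312f1692d560ac21698d81b16025d85ba5aad850b14602eb4c74888e15d81135382834b41aae2d1da76161608d95b235700026315446568a1ca2771a056710cab611b2192a2e86b21b4c58f6ccd591a9544d8c490c3a118354c6c35a321906868c126618b6e95e462a556a973332b0dd1b68dd89bbb46d4b426d3624a24384d5354036cc5202b761ae181b7b42c14ead40d4209a75c7107b4d900d811ea647ad059503c744f3d9c4f0968725ab164636b82dc6eb75434b82952b40291a9c705776188626ab390572126e915d1a50a8cac76ca88880830499432110999418ac484056160806a8da29576363496c06964ce36411692758da4ad6d11410cd90da868466d305b90a0f16108eaa93a0845551895c6406a8c2acb0253761c5070224950b94b19dd9ba437ad00bc2260684d156709b2921b8b66d917436dd73c0244d8e296666800000015455a631533b5190c65cd89a30cce400000006a5602229bb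15a4974598651a46da7285d6f5760bac15e45e81ca1296146e8894da90e8d36cc022969790166ba2144332a76cac832b702589339347697735268f3590d1c5832ccbb46c1c0c96c2c53a9c8ed6521d91c6c965c8718c62dd324c8da458f60e879ad514d202981458385058c9ad946dabc5d9255753a86e2d13a65c710c84a03a04405a46d56d9b80a63112dabc36c8009c6d4d94032302d1496b76bd7309d9a311b04bb454d9b5e450d96698c8a298a9e4b688a25ec906598a8190d53c06b3455e066a6966c261c83c8e98cb51c50c046d20b4492636da594d421050a64236a9caf14f619c84b328c2e64dcf60f4948dae05304bcd08b150919c90bcb055b76845e31c05e54a6820b4196c89a2ccea8810027158936212a3c6e0d44e421cb4d759004cf1a61588436312a98d63c26a9625a025313c248c12537980a5b188b39b56528907034cd07460e5360927b54d0cf5a8d860713ba834c80859b7b59195182b12918e94c516a8028153920e4462a2603236530801605c1b1d91ac5aa62886dd0150e80c454e0ea360a221356b43438f60da68372b56d8db88db08aa96db3955414b4329c4d21ad2522a24874a9a0caeadaaecc62d95b9c210b490a404c31b97565296520016a630c0024801c0090523b6068af64da908a8263275000812d129a22481a2bd9312aa0ed98a6ec0d07249d352882585413393a81a0ec93b29511b2b40065d131c2990478a2160ad2ec71b458d157422b4af00d1400935aec31524e10218a5091590b58aa4834b2cb5031c90af4aaa2a80ca796ad941471944c1594b4ae52995aac0a150601a16c804d081ec806d1a1b69bc9a076c4092e551a09051cb137696b949055cb196e94cb74a6cb2c892d10ce49aad10da486e380680)]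
noncomputable def c7_9570_1 : List Nat := [(nat_lit 0x26063a9926c14cae923c14c9292cb29b35b0d9ad872d5104d8ed9b5272c51048a555ac801db109acda6d8a53602d98813402d90a40615088cae45a09847515cc5370436620b621920268210972acbdacb6d706681a5cd1652cc6c28861850c8e2956b4194ca22033b32285754c194dc72b36a19028e704868c4001e60c153b29511b2b4b62290ab58b4151920a254d692c45236a687b622ab035b3a29092829b05b0020055ac1a0a83226d6ce8a46d8a441204600248030c06304525a60b34570748c5218a142c8a56d79a08e0d0af5c2aadc6b600ac3024604ca7155b724802950ce9943af481a78a4369849b6560d180b06642599348a58c84a136275836484a8cdc4d42da4b16c466d6809689dd1ac2ecd5a4454ad81389464a03d8365a408711725d9b790224348bab5188652adcf04d5d9a486d1621ccd51a252ca6c181cd1763a892f2d6ca21d148e907660cdb246525368e2666c8742aa119e84630d6c25552403ab8ddd1b596d3015d18a23492baea31b80b9b0d641a40e66f0b60849bb450ec9ecf54506d8da5810795a0a51d3a2731b12629a0070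d5a189d8896c4292036911b111a23728f6db4aa240aa13716d11591b238024c3074361b6c1a502d2f59a4d45db594631b0d00c6444b564c00898102dbc1e10e0ea272d2e0507089336ce71ed6ab628266e660648c6584b105637699649b6aadb269d41859116878d2ab271673a614aac5b79cd6d422448a7518c36358c68c5346b3101b8a11355b176536c50a5145d84d660d2c16c25c11c60b225d8dc6b7769ad8c019ccdd84b194730593ce6913d59b5cd23d20648d6ac24ab6c6ad0b46cc558ddb6c39e32064479665851d56c76222bd3582068b24db2455411c3324b4b900950c2bb560ba6d4c0005c1b275958515a8a31e80c8721b649c47163534bd2cb0c48b4067aeb699a82dbd946c1365263ca8a4cc03506640b7360d6f6af066c66224942308e32b68919654615300b8ec0e2a8a04569555c0833984646cc191740803b0e90c00609272959aacb3a938a75c96bc45c5376acab20006da86b04a322204a5508b0b40a058b092184015055b63917118939aa93524c8e891e5740c1c36ae88e354a440b52b10d660aeb753ad11da702ce56c8c578576b7339a93a0d5041432cac37764e394bd544d44e68da6840ab6db64d7a3ccb83555024660c1430ce54a84acccb56776091413226c7291cd8135cd4464d6e1d716a0425684023c2bb82b1381bcc36d919b2ec47096a52abae99a86a71019c8188a9783d4b6aa076b65700264c0802a8562aed2da05ab1b419466aa8b29021a82c8da3728ab528b71a629735675780c03ac043222c349c610ac14cb59b61614010c4e6ee73218cb72a62548bac74113060a60bad5)]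
noncomputable def T7_9570 : Op := Op.mk (nat_lit 73)
 (Tr.nd (nat_lit 148) (nat_lit 1) (nat_lit 63) (nat_lit 3332) c7_9570_0
 (Tr.nd (nat_lit 64) (nat_lit 5) (nat_lit 23) (nat_lit 1596) c7_9570_0
 (Tr.nd (nat_lit 49) (nat_lit 1) (nat_lit 154) (nat_lit 337) c7_9570_0
 (Tr.nd (nat_lit 9) (nat_lit 1) (nat_lit 24) (nat_lit 275) c7_9570_0
 (Tr.nd (nat_lit 7) (nat_lit 1) (nat_lit 61) (nat_lit 98) c7_9570_0
 (Tr.nd (nat_lit 1) (nat_lit 1) (nat_lit 61) (nat_lit 37) c7_9570_0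
 (Tr.nd (nat_lit 0) (nat_lit 1) (nat_lit 37) (nat_lit 0) c7_9570_0
 Tr.lf Tr.lf) Tr.lf) (Tr.nd (nat_lit 8) (nat_lit 1) (nat_lit 116) (nat_lit 159) c7_9570_0
 Tr.lf Tr.lf)) (Tr.nd (nat_lit 16) (nat_lit 2) (nat_lit 5) (nat_lit 325) c7_9570_0
 (Tr.nd (nat_lit 15) (nat_lit 1) (nat_lit 24) (nat_lit 301) c7_9570_0
 (Tr.nd (nat_lit 10) (nat_lit 1) (nat_lit 2) (nat_lit 299) c7_9570_0
 Tr.lf Tr.lf) Tr.lf) (Tr.nd (nat_lit 22) (nat_lit 1) (nat_lit 2) (nat_lit 335) c7_9570_0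
 Tr.lf Tr.lf))) (Tr.nd (nat_lit 57) (nat_lit 3) (nat_lit 100) (nat_lit 1110) c7_9570_0
 (Tr.nd (nat_lit 52) (nat_lit 1) (nat_lit 6) (nat_lit 828) c7_9570_0
 (Tr.nd (nat_lit 51) (nat_lit 1) (nat_lit 61) (nat_lit 767) c7_9570_0
 (Tr.nd (nat_lit 50) (nat_lit 1) (nat_lit 276) (nat_lit 491) c7_9570_0
 Tr.lf Tr.lf) Tr.lf) (Tr.nd (nat_lit 56) (nat_lit 1) (nat_lit 276) (nat_lit 834) c7_9570_0
 Tr.lf Tr.lf)) (Tr.nd (nat_lit 59) (nat_lit 5) (nat_lit 2) (nat_lit 1525) c7_9570_0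
 (Tr.nd (nat_lit 58) (nat_lit 5) (nat_lit 23) (nat_lit 1410) c7_9570_0
 Tr.lf Tr.lf) (Tr.nd (nat_lit 63) (nat_lit 1) (nat_lit 61) (nat_lit 1535) c7_9570_0
 Tr.lf Tr.lf)))) (Tr.nd (nat_lit 107) (nat_lit 10) (nat_lit 17) (nat_lit 2504) c7_9570_0
 (Tr.nd (nat_lit 100) (nat_lit 2) (nat_lit 37) (nat_lit 1951) c7_9570_0
 (Tr.nd (nat_lit 71) (nat_lit 5) (nat_lit 2) (nat_lit 1787) c7_9570_0
 (Tr.nd (nat_lit 70) (nat_lit 1) (nat_lit 6) (nat_lit 1781) c7_9570_0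
 (Tr.nd (nat_lit 65) (nat_lit 10) (nat_lit 7) (nat_lit 1711) c7_9570_0
 Tr.lf Tr.lf) Tr.lf) (Tr.nd (nat_lit 99) (nat_lit 1) (nat_lit 154) (nat_lit 1797) c7_9570_0
 Tr.lf Tr.lf)) (Tr.nd (nat_lit 105) (nat_lit 1) (nat_lit 154) (nat_lit 2035) c7_9570_0
 (Tr.nd (nat_lit 101) (nat_lit 2) (nat_lit 5) (nat_lit 2025) c7_9570_0
 Tr.lf Tr.lf) (Tr.nd (nat_lit 106) (nat_lit 5) (nat_lit 63) (nat_lit 2189) c7_9570_0
 Tr.lf Tr.lf))) (Tr.nd (nat_lit 115) (nat_lit 63) (nat_lit 1) (nat_lit 3162) c7_9570_0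
 (Tr.nd (nat_lit 113) (nat_lit 10) (nat_lit 17) (nat_lit 2782) c7_9570_0
 (Tr.nd (nat_lit 112) (nat_lit 2) (nat_lit 37) (nat_lit 2708) c7_9570_0
 (Tr.nd (nat_lit 108) (nat_lit 17) (nat_lit 2) (nat_lit 2674) c7_9570_0
 Tr.lf Tr.lf) Tr.lf) (Tr.nd (nat_lit 114) (nat_lit 30) (nat_lit 7) (nat_lit 2952) c7_9570_0
 Tr.lf Tr.lf)) (Tr.nd (nat_lit 120) (nat_lit 17) (nat_lit 2) (nat_lit 3235) c7_9570_0
 (Tr.nd (nat_lit 119) (nat_lit 2) (nat_lit 5) (nat_lit 3225) c7_9570_0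
 Tr.lf Tr.lf) (Tr.nd (nat_lit 121) (nat_lit 63) (nat_lit 1) (nat_lit 3269) c7_9570_0
 Tr.lf Tr.lf))))) (Tr.nd (nat_lit 206) (nat_lit 61) (nat_lit 1) (nat_lit 1065) c7_9570_1
 (Tr.nd (nat_lit 163) (nat_lit 63) (nat_lit 5) (nat_lit 170) c7_9570_1
 (Tr.nd (nat_lit 156) (nat_lit 17) (nat_lit 10) (nat_lit 3659) c7_9570_0
 (Tr.nd (nat_lit 154) (nat_lit 1) (nat_lit 63) (nat_lit 3441) c7_9570_0
 (Tr.nd (nat_lit 150) (nat_lit 4) (nat_lit 3) (nat_lit 3429) c7_9570_0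
 (Tr.nd (nat_lit 149) (nat_lit 2) (nat_lit 17) (nat_lit 3395) c7_9570_0
 Tr.lf Tr.lf) Tr.lf) (Tr.nd (nat_lit 155) (nat_lit 5) (nat_lit 31) (nat_lit 3504) c7_9570_0
 Tr.lf Tr.lf)) (Tr.nd (nat_lit 161) (nat_lit 2) (nat_lit 17) (nat_lit 3903) c7_9570_0
 (Tr.nd (nat_lit 157) (nat_lit 37) (nat_lit 2) (nat_lit 3829) c7_9570_0
 Tr.lf Tr.lf) (Tr.nd (nat_lit 162) (nat_lit 17) (nat_lit 10) (nat_lit 0) c7_9570_1
 Tr.lf Tr.lf))) (Tr.nd (nat_lit 198) (nat_lit 2) (nat_lit 5) (nat_lit 879) c7_9570_1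
 (Tr.nd (nat_lit 169) (nat_lit 37) (nat_lit 2) (nat_lit 651) c7_9570_1
 (Tr.nd (nat_lit 168) (nat_lit 4) (nat_lit 3) (nat_lit 639) c7_9570_1
 (Tr.nd (nat_lit 164) (nat_lit 154) (nat_lit 1) (nat_lit 485) c7_9570_1
 Tr.lf Tr.lf) Tr.lf) (Tr.nd (nat_lit 170) (nat_lit 154) (nat_lit 1) (nat_lit 725) c7_9570_1
 Tr.lf Tr.lf)) (Tr.nd (nat_lit 204) (nat_lit 5) (nat_lit 11) (nat_lit 895) c7_9570_1
 (Tr.nd (nat_lit 199) (nat_lit 6) (nat_lit 1) (nat_lit 889) c7_9570_1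
 Tr.lf Tr.lf) (Tr.nd (nat_lit 205) (nat_lit 23) (nat_lit 5) (nat_lit 950) c7_9570_1
 Tr.lf Tr.lf)))) (Tr.nd (nat_lit 247) (nat_lit 2) (nat_lit 1) (nat_lit 2324) c7_9570_1
 (Tr.nd (nat_lit 217) (nat_lit 6) (nat_lit 1) (nat_lit 1827) c7_9570_1
 (Tr.nd (nat_lit 212) (nat_lit 100) (nat_lit 3) (nat_lit 1251) c7_9570_1
 (Tr.nd (nat_lit 211) (nat_lit 23) (nat_lit 5) (nat_lit 1136) c7_9570_1
 (Tr.nd (nat_lit 210) (nat_lit 2) (nat_lit 5) (nat_lit 1126) c7_9570_1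
 Tr.lf Tr.lf) Tr.lf) (Tr.nd (nat_lit 213) (nat_lit 276) (nat_lit 1) (nat_lit 1551) c7_9570_1
 Tr.lf Tr.lf)) (Tr.nd (nat_lit 219) (nat_lit 276) (nat_lit 1) (nat_lit 1894) c7_9570_1
 (Tr.nd (nat_lit 218) (nat_lit 61) (nat_lit 1) (nat_lit 1833) c7_9570_1
 Tr.lf Tr.lf) (Tr.nd (nat_lit 220) (nat_lit 154) (nat_lit 1) (nat_lit 2170) c7_9570_1
 Tr.lf Tr.lf))) (Tr.nd (nat_lit 261) (nat_lit 116) (nat_lit 1) (nat_lit 2388) c7_9570_1
 (Tr.nd (nat_lit 259) (nat_lit 2) (nat_lit 1) (nat_lit 2362) c7_9570_1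
 (Tr.nd (nat_lit 254) (nat_lit 24) (nat_lit 1) (nat_lit 2338) c7_9570_1
 (Tr.nd (nat_lit 253) (nat_lit 4) (nat_lit 3) (nat_lit 2326) c7_9570_1
 Tr.lf Tr.lf) Tr.lf) (Tr.nd (nat_lit 260) (nat_lit 24) (nat_lit 1) (nat_lit 2364) c7_9570_1
 Tr.lf Tr.lf)) (Tr.nd (nat_lit 268) (nat_lit 61) (nat_lit 1) (nat_lit 2565) c7_9570_1
 (Tr.nd (nat_lit 262) (nat_lit 61) (nat_lit 1) (nat_lit 2504) c7_9570_1
 Tr.lf Tr.lf) (Tr.nd (nat_lit 269) (nat_lit 37) (nat_lit 1) (nat_lit 2626) c7_9570_1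
 Tr.lf Tr.lf))))))

noncomputable def c7_9798_0 : List Nat := [(nat_lit 0x914c9a94d8420b5d8a6a3756c5505c6a685e68849e840915c519329582a871ad666b6501d34d7000c10cd645234ec72193041c62990c1440d858905e78602d7523464325555a6db69aad31a6619e132449a72a9157248c23104c4abc994988214ee532a6429558c4000018da96052921504e26ed29180c9a4a0c13216a33ced81989247584568a258309db2164b256094f611870c1510198736ee049cab170b346467939ab96221cc044e665225814bdb15924d594a41568dc200034c2c5641d25328312c81e72ac0a853b31720cd066138614a4abb085136aa4046e039c3a69685725aa16cd318f111b8025536a2065752468c3130b09e1233a4b50809ca96da8e169068cb80c0169a1941a94ea091b2a692c8ed99a032522f46a01a3054b1dd1acc0000000000000000000000210d7118e2294f60a8cf2ba5c49c4da1477046a35c124ccd86b7835929084946030c0000000000000000000000b3005c9022c11598b3ac2875c9e020448b01263519c69ba605510dcb4845982c724962d04b11988127366e451c083225116ad924b2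a1d6910c932b6c4a6c66c3542b26c58dc22b628a02763991924d08acc9c2842d6a8c071d74c015b2622d997aa319971102ba29089334b1ad39044c3a121828cc8d9d968b1b5d492d2c4154da5456c560b8dac30c434a11aebaa6566355b418d1a28d5063d31164b5995ad53103ba09a58dc1ae15491d99e341b5078e988c010ad58b0b4128730091bb54b577222102a0a981995262b0e8254a74c9535dc2374ea2cb631ad00e806bb2958444d2a60ba9a0b338b60682030541104e88d8f22360a88108d2a4e6ca92badabb1a134c694bb9e62ccd12b06954e80e365512c2b68c815a50a4ca39300064cade19d56e8f012e39e64cd5576dc3194508b0427b3144b1866a0caaa311b9550c2c590c980cc5e2ea8f1b59a1c2660d4cf56d155cdabd10a5150496859c5b6a9e6ca4aa1994aa5960eaa490116eb45ea054c15b0d94474a9942170832eb999112769a52839b68cbd45c89724d93c2e4c0c1ed8d230490892ccad32c1c3a6c4d22897601bcb36c41939a8208d9d2f0c15729010800313d4226cc6299c914d4a701d5b56882c8a90002ec9128844e2b70000000013434496a727297a4a43b5c2e5d0e000000006d88913a0e65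0a44a29215d150aa392033aa8145802cc588045b4b6970968991366ac6d102b4c9d425756d4d853c946f3374804ad56e3da0a4b49669c80c500cda22e4d1432cccaca18539eac968b85d51d90d66e659352b61b28730c9b415a437418500d069c288c02cb44cb834312a28c04710d0aaf31a6341519d8aaa640c30b07422c415c296c5928c4dd6890e418194419c8302046936b55586164505231c266c53b29a6a0ac24a4116ddb5b74d64b89b08c1186347b16ceacbad2893801cc5b55a1c09596d19e151c12960cad06bc6e1b35881768899566329446e9180500759cf6b0089b5337a1c6ebb57a52522227a08e8a7552c190c8e1214e38f598638215c4d6284a9b63679174630957312565332d8db112411686c0678e91c53257340eb5e193748a539428c041809c2366b27a219ea73332208b35adb18b6a5d63ac4b3588522b7030122b4b56b42ac9534ced50a428a4cd40465104d04381606b99a2a1a002b926d00ad1a857618514584ae053a66914653650b1c8b1a5d04a52c12809468294dc5e46395c4cd10eac0d643b4ce32d53a1062ab0ca1550104712a4c5880f38e090867588400578378659692c384505b0833089d24a673806186ac0d5b92389590323011e572ba0212c4908d9142ac8a6234c9a8a4508202cf1d815944f312d5a245a64c18e0c586961299b2cadb022c2dc2013454c3659c008c5ad0a8024265a80021b7adb74a498003768a45b350a14264e15cc83d309140cc98d172902d8878833460318da50c402b211a00074cd981240310a978b32811cb72c4574492b962a1ba433a5074186400c084f0d060480309003a0741996b68db0801b712010dac0ed95819a70001b8038d041c700000046d8cf281dab144c00935b0d9996)]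
noncomputable def c7_9798_1 : List Nat := [(nat_lit 0x19685b0dd248109472b588b3c1b700000031c4114e206a40031a58956d88c9b040275a40836c2db96845626204830009184c33408c005861311662c19b05ac09a659ae8092ac618322812839897445b98a31aad370c8606a20480804ab354b34456333c09c8c616834cc2d1d18968508c4f65229b5200849b35b4001d2c60e265a0480a84ed0e003165b0d514900c6cca08db22cb7a2419a650c638425a652995b03cd45911b1cf20083148a26b4c0e8a4a8c52528127240899e89c25e921d8e013c0611ec660924f28c560244b13299d0d8a01c2840d741a9969ecdc132761692459ac82b02b66a4c0bcc86a27847a0d26ae49b2c554f358318415510d64bb6d2038ca2130c919bcd00c60144d13142aab898ca8906a4429c0ad2e64bd6b20b400982a297ae01918c134105850174268a12315af4d112ea16e598a2105e74b253368af151bdaa28813532c02e176c0a4aa2c347608128ace292ead509938561b95bb9b6cb4364c951e71a20d24454e4914234db1004c46f00c4894cabd694ac42161265ad037a9c1e04415aadda8276da2e18165ca43145901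b4c0752a9c0e4745444f586b60c18265e73503018a81acf162d55e7686d010a321089d2d4dad4985a49d161ae3a856994cd11a6763438840c28a0354a6ea636282ce342b4e9684a5260cb5d71ae0281ab3b8e566ab15530280c1cd419a71e3633662403a3ceeaf5452a08ca3a0942e84297450c06e1410e138510265c440a584d686155561636b8dc288846b2094434a2a66dbb21cde41245d59bb9c4265450e824b3460c42f5472c114d6a0a6f011422469e4932689b38dd4ec024d4bcd8aac1b542155d01a2564300354294288142d8aa2b08d5ed88b9312675146b8aa2aaa06562a56970784aa1d80003d30d30d248e9ca52952f38735742ab1535403ad51a42491295900035494416a6ee22346e8a48f450e94942e6a1004080363a86199af60411746b081b7966c0dac141a4ed318c65a645e494092181a76cc601c5a9c94ce5749c43d0a8f59822a6d882e6334c621652c33968ca9760000324f537329d6ca009355632c9548bc154916f3576ca3c85b2088a34299dda3a8a6ee7a263426314bb4e7156733a110960b39062ab1b81c5516152c3961370434c0c602bae79e0e4acddad0b19058c879d489076ad005c4d88ed4d253036ac5a71d31a05814640588cd76d6640cb6839c41304e06ca144998cc89b699912ba003508a60502dc7347264149946cb50750a98756b62d5237194594cad17580e840e05cb6b19e789a282715300c0d56c306c351b7b69986f5b9ba2e9a42220c0d8ad26585876a2942bab493684543548e6a850a9a86038d44adc03b86a19b80c65aa04db83501e6a386eae22d035916e243ae2d2a)]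
noncomputable def T7_9798 : Op := Op.mk (nat_lit 73)
 (Tr.nd (nat_lit 148) (nat_lit 1) (nat_lit 63) (nat_lit 3332) c7_9798_0
 (Tr.nd (nat_lit 64) (nat_lit 5) (nat_lit 23) (nat_lit 1596) c7_9798_0
 (Tr.nd (nat_lit 49) (nat_lit 1) (nat_lit 154) (nat_lit 337) c7_9798_0
 (Tr.nd (nat_lit 9) (nat_lit 1) (nat_lit 24) (nat_lit 275) c7_9798_0
 (Tr.nd (nat_lit 7) (nat_lit 1) (nat_lit 61) (nat_lit 98) c7_9798_0
 (Tr.nd (nat_lit 1) (nat_lit 1) (nat_lit 61) (nat_lit 37) c7_9798_0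
 (Tr.nd (nat_lit 0) (nat_lit 1) (nat_lit 37) (nat_lit 0) c7_9798_0
 Tr.lf Tr.lf) Tr.lf) (Tr.nd (nat_lit 8) (nat_lit 1) (nat_lit 116) (nat_lit 159) c7_9798_0
 Tr.lf Tr.lf)) (Tr.nd (nat_lit 16) (nat_lit 2) (nat_lit 5) (nat_lit 325) c7_9798_0
 (Tr.nd (nat_lit 15) (nat_lit 1) (nat_lit 24) (nat_lit 301) c7_9798_0
 (Tr.nd (nat_lit 10) (nat_lit 1) (nat_lit 2) (nat_lit 299) c7_9798_0
 Tr.lf Tr.lf) Tr.lf) (Tr.nd (nat_lit 22) (nat_lit 1) (nat_lit 2) (nat_lit 335) c7_9798_0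
 Tr.lf Tr.lf))) (Tr.nd (nat_lit 57) (nat_lit 3) (nat_lit 100) (nat_lit 1110) c7_9798_0
 (Tr.nd (nat_lit 52) (nat_lit 1) (nat_lit 6) (nat_lit 828) c7_9798_0
 (Tr.nd (nat_lit 51) (nat_lit 1) (nat_lit 61) (nat_lit 767) c7_9798_0
 (Tr.nd (nat_lit 50) (nat_lit 1) (nat_lit 276) (nat_lit 491) c7_9798_0
 Tr.lf Tr.lf) Tr.lf) (Tr.nd (nat_lit 56) (nat_lit 1) (nat_lit 276) (nat_lit 834) c7_9798_0
 Tr.lf Tr.lf)) (Tr.nd (nat_lit 59) (nat_lit 5) (nat_lit 2) (nat_lit 1525) c7_9798_0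
 (Tr.nd (nat_lit 58) (nat_lit 5) (nat_lit 23) (nat_lit 1410) c7_9798_0
 Tr.lf Tr.lf) (Tr.nd (nat_lit 63) (nat_lit 1) (nat_lit 61) (nat_lit 1535) c7_9798_0
 Tr.lf Tr.lf)))) (Tr.nd (nat_lit 107) (nat_lit 10) (nat_lit 17) (nat_lit 2504) c7_9798_0
 (Tr.nd (nat_lit 100) (nat_lit 2) (nat_lit 37) (nat_lit 1951) c7_9798_0
 (Tr.nd (nat_lit 71) (nat_lit 5) (nat_lit 2) (nat_lit 1787) c7_9798_0
 (Tr.nd (nat_lit 70) (nat_lit 1) (nat_lit 6) (nat_lit 1781) c7_9798_0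
 (Tr.nd (nat_lit 65) (nat_lit 10) (nat_lit 7) (nat_lit 1711) c7_9798_0
 Tr.lf Tr.lf) Tr.lf) (Tr.nd (nat_lit 99) (nat_lit 1) (nat_lit 154) (nat_lit 1797) c7_9798_0
 Tr.lf Tr.lf)) (Tr.nd (nat_lit 105) (nat_lit 1) (nat_lit 154) (nat_lit 2035) c7_9798_0
 (Tr.nd (nat_lit 101) (nat_lit 2) (nat_lit 5) (nat_lit 2025) c7_9798_0
 Tr.lf Tr.lf) (Tr.nd (nat_lit 106) (nat_lit 5) (nat_lit 63) (nat_lit 2189) c7_9798_0
 Tr.lf Tr.lf))) (Tr.nd (nat_lit 115) (nat_lit 63) (nat_lit 1) (nat_lit 3162) c7_9798_0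
 (Tr.nd (nat_lit 113) (nat_lit 10) (nat_lit 17) (nat_lit 2782) c7_9798_0
 (Tr.nd (nat_lit 112) (nat_lit 2) (nat_lit 37) (nat_lit 2708) c7_9798_0
 (Tr.nd (nat_lit 108) (nat_lit 17) (nat_lit 2) (nat_lit 2674) c7_9798_0
 Tr.lf Tr.lf) Tr.lf) (Tr.nd (nat_lit 114) (nat_lit 30) (nat_lit 7) (nat_lit 2952) c7_9798_0
 Tr.lf Tr.lf)) (Tr.nd (nat_lit 120) (nat_lit 17) (nat_lit 2) (nat_lit 3235) c7_9798_0
 (Tr.nd (nat_lit 119) (nat_lit 2) (nat_lit 5) (nat_lit 3225) c7_9798_0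
 Tr.lf Tr.lf) (Tr.nd (nat_lit 121) (nat_lit 63) (nat_lit 1) (nat_lit 3269) c7_9798_0
 Tr.lf Tr.lf))))) (Tr.nd (nat_lit 206) (nat_lit 61) (nat_lit 1) (nat_lit 1065) c7_9798_1
 (Tr.nd (nat_lit 163) (nat_lit 63) (nat_lit 5) (nat_lit 170) c7_9798_1
 (Tr.nd (nat_lit 156) (nat_lit 17) (nat_lit 10) (nat_lit 3659) c7_9798_0
 (Tr.nd (nat_lit 154) (nat_lit 1) (nat_lit 63) (nat_lit 3441) c7_9798_0
 (Tr.nd (nat_lit 150) (nat_lit 4) (nat_lit 3) (nat_lit 3429) c7_9798_0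
 (Tr.nd (nat_lit 149) (nat_lit 2) (nat_lit 17) (nat_lit 3395) c7_9798_0
 Tr.lf Tr.lf) Tr.lf) (Tr.nd (nat_lit 155) (nat_lit 5) (nat_lit 31) (nat_lit 3504) c7_9798_0
 Tr.lf Tr.lf)) (Tr.nd (nat_lit 161) (nat_lit 2) (nat_lit 17) (nat_lit 3903) c7_9798_0
 (Tr.nd (nat_lit 157) (nat_lit 37) (nat_lit 2) (nat_lit 3829) c7_9798_0
 Tr.lf Tr.lf) (Tr.nd (nat_lit 162) (nat_lit 17) (nat_lit 10) (nat_lit 0) c7_9798_1
 Tr.lf Tr.lf))) (Tr.nd (nat_lit 198) (nat_lit 2) (nat_lit 5) (nat_lit 879) c7_9798_1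
 (Tr.nd (nat_lit 169) (nat_lit 37) (nat_lit 2) (nat_lit 651) c7_9798_1
 (Tr.nd (nat_lit 168) (nat_lit 4) (nat_lit 3) (nat_lit 639) c7_9798_1
 (Tr.nd (nat_lit 164) (nat_lit 154) (nat_lit 1) (nat_lit 485) c7_9798_1
 Tr.lf Tr.lf) Tr.lf) (Tr.nd (nat_lit 170) (nat_lit 154) (nat_lit 1) (nat_lit 725) c7_9798_1
 Tr.lf Tr.lf)) (Tr.nd (nat_lit 204) (nat_lit 5) (nat_lit 11) (nat_lit 895) c7_9798_1
 (Tr.nd (nat_lit 199) (nat_lit 6) (nat_lit 1) (nat_lit 889) c7_9798_1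
 Tr.lf Tr.lf) (Tr.nd (nat_lit 205) (nat_lit 23) (nat_lit 5) (nat_lit 950) c7_9798_1
 Tr.lf Tr.lf)))) (Tr.nd (nat_lit 247) (nat_lit 2) (nat_lit 1) (nat_lit 2324) c7_9798_1
 (Tr.nd (nat_lit 217) (nat_lit 6) (nat_lit 1) (nat_lit 1827) c7_9798_1
 (Tr.nd (nat_lit 212) (nat_lit 100) (nat_lit 3) (nat_lit 1251) c7_9798_1
 (Tr.nd (nat_lit 211) (nat_lit 23) (nat_lit 5) (nat_lit 1136) c7_9798_1
 (Tr.nd (nat_lit 210) (nat_lit 2) (nat_lit 5) (nat_lit 1126) c7_9798_1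
 Tr.lf Tr.lf) Tr.lf) (Tr.nd (nat_lit 213) (nat_lit 276) (nat_lit 1) (nat_lit 1551) c7_9798_1
 Tr.lf Tr.lf)) (Tr.nd (nat_lit 219) (nat_lit 276) (nat_lit 1) (nat_lit 1894) c7_9798_1
 (Tr.nd (nat_lit 218) (nat_lit 61) (nat_lit 1) (nat_lit 1833) c7_9798_1
 Tr.lf Tr.lf) (Tr.nd (nat_lit 220) (nat_lit 154) (nat_lit 1) (nat_lit 2170) c7_9798_1
 Tr.lf Tr.lf))) (Tr.nd (nat_lit 261) (nat_lit 116) (nat_lit 1) (nat_lit 2388) c7_9798_1
 (Tr.nd (nat_lit 259) (nat_lit 2) (nat_lit 1) (nat_lit 2362) c7_9798_1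
 (Tr.nd (nat_lit 254) (nat_lit 24) (nat_lit 1) (nat_lit 2338) c7_9798_1
 (Tr.nd (nat_lit 253) (nat_lit 4) (nat_lit 3) (nat_lit 2326) c7_9798_1
 Tr.lf Tr.lf) Tr.lf) (Tr.nd (nat_lit 260) (nat_lit 24) (nat_lit 1) (nat_lit 2364) c7_9798_1
 Tr.lf Tr.lf)) (Tr.nd (nat_lit 268) (nat_lit 61) (nat_lit 1) (nat_lit 2565) c7_9798_1
 (Tr.nd (nat_lit 262) (nat_lit 61) (nat_lit 1) (nat_lit 2504) c7_9798_1
 Tr.lf Tr.lf) (Tr.nd (nat_lit 269) (nat_lit 37) (nat_lit 1) (nat_lit 2626) c7_9798_1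
 Tr.lf Tr.lf))))))

noncomputable def c7_9750_0 : List Nat := [(nat_lit 0x35810517426500232762ab8ce1a38566a9a82da30a1d4d2aa84dbb6db224eb7566a0d466a1333007008c479ba1a1412c02a34802008e04d889bb881036ac551a2c256943385a6a571c1b38a745c2d6935932142e9362901a408e3b4e4366aa71226488499078bb73c0002313609e9426de4e1d64ce04adc883538dbd6c493b28599b41b03403c0686c943162a4a0ce0258cc445046c85d62b5405e3a2c0c79c1b2aeaaa31810b40306c16b0d73b8c0828f65b01b6d1122ea1b010005532314793092761b44ac6b2c970929cc341b45554e0e658ab73854360333a1dd722d066d41a2601094c2b4b0995aeac57a112988c7ad472d18c6aa8a6c261dc2d9338a8a8386c22d5147b38048aac5201b17504a9b6c06cb6710421d5eb864c86c6026408c1c540000000000000000000000195528d9c37378ed58db0098b5e500d71820910988b4d91a5150db1044a1c8b913b000000000000000000000008a6b5dd9581a6da64072d57502950c782358b81a4344a26473546e8884d668106d82019a8908440cca263b388021d501aed068c4d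0ce2e6b1d0ad64351a11270549a613b84a192094f3ca388adabaa50180db153af23467412b216d6520ee6b2a4a3b1cf694191d8513a46143a8b752d2d3401170565604443169d47125e0c589a4590232141840c04f1968785d4598e02d8f071a3ae2467847b4d0b8325958e6cb1194576c2c361485220864c99a704ab522d14a0bb9498dd06733929829a81b2cd2b0e0b8384ab2d52914506d76aa5a232335a2ac5e9464f0b93429470c2cc9e16805caccaaed0509b825c484d1276b4d449aeb84c6884f5a51c6a0994f204982822bba58f00ca741a726b12b034d2ad5b014990aa16b838a36cd50496e4e6484d43c36b708a398b19c0764cd49e65bb5cd99c1184bc892a674202c27618ed192e5c69cf6b8556901a16a468194869944d1d3ac8207294ee651ab12c905118c683330d4352e151c709ab218cae603709d0a146d8076da9a22872a0da24c0a9a0914912c2f1ccea5b2803304232b4302baa9606a48c66120c313005c0f43190d378e49c693d4a8112d322a38aa909980c90420a10022b692904a5814c0a964f5af41986515035042da00822ad6000000002c92a0a35ad89d92c10965c04909ba000000058b68249354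d9274b0d08566cb92da4955003641c669114eed2a5436856d3b2140321321d9984a00203aa6ee7a5729d0cd9e530d8b292268b225a2c91351760426b35314c418f54620a954e2eb37336b97322cd1bcf096bb0e7b20f5931324434ccb2b2d9a0ccacb0dba5000a57214a492c1db65101d83116b98bb42aa6222e27237957233750e5a2bcdd2714237aa4f046490e49b3024550a1d8950d9b1033b5190b4a0b0cb89156432d1bc29421a9cb70a09293068102069093c636aa6b2370832a018e4c5957687434959065263009d10318631a48a746ca988c454522081d18261d9270d6a344cb708506de023dacb102b14094b6a922d64916f4b71850cde9589842d49a61a28f14a9cd12b3a248c651a4d2a8611a8480c3b140139329760d8643c4682b256a0ecaa0952ea91614d6de12e96cdb33b1d0d6104552f5b6a0b4b2a48a6992a6942588d093466608454184d0866d81540d0ecd27346c95b3b0dd114ed74164d052b12b9a6260ded6c35a02cd19ac8d259b0593a2e908a89463b8c4840d98187618b4823c6b6dbd4e5748e3503b32d2c8f5902489ba38f0b1344e00d890166406b3594020e9506133a649dccd34e5a36f593032da9ada17108c921625b28e828590b410c691680baed18234a448ba96605a18646ae771d76aac7651846f50d826e773b251630d405170c611af42298d5a4cd0bbb17208d1b16a05763aee3a59a3a066ad02d628cc16e459d4a0b9c890a9c6852f68e32dbd98a8dd5c8da22384274b05e1720c06b29a5c631245b468a6d58ae6218b17632284956c08f22ab0e18e9ca40080042dad124001581804ad0902000a84d055a36db49008140000029020004985219240000000000000000000000186a32b8a6005806000d90b09b6)]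
noncomputable def c7_9750_1 : List Nat := [(nat_lit 0x1b683205b00060640068eab0b8600000000000000000000000125834690002006800000500804db6d29d41342a00021216a40601d000494c9b3000086b31404981a43b3d440e8b9d25024eae612205405c9403752eb033355202065498c8a34b8655444dbc32064cdb2e39b334271aa1291ea2255e523643c2874002d610d6b9a598eaeb95d02e5294e0919dab33426d4e1a0cce941c3194444c394592bd5ea486c5cdc18595caaed71d5ea9c861990859ba825234a185aeb22a45bd0396da9ecae68b0440a1801b91a9258848dcdc04c66b4e069bb1b4f6d99a726a6715025354d166a00ae98614a649cf43806ce0622806ac035295d5614e930a9ba8ec11a467952336489abba812890ecc076996d175ccc1b328c283d2c009ac16314ad4c459915dad153532bd912dcd1a4f63301511b68604d061506085e0eac2866a0d6aac1a56caaac4814d874bd450c22e21b14b5b58af4ba92726196149810b308cd0e51c71682a1835ae6db04945e650218a08b54664c3460a935c051a8c936e0694d3660531a56ab2a01e14e39a486762b98a63a543990e9636505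68a631aee9538f3274c926522a42c208950140b06accd409a9a2e6a43d740f079602648d2305ac511ae6056ac8c6b3b050b00e692320922152771d033918ddd40b606ee103a8b2a532150b7943ae19d22442438a8b5a53731686b22444c6249902ad5573101380568ad1255b39c2ec8a23497ac626c05d9012cd10ce9772a4c39e64a8cbc18d168f28d5550c29b190a366b04066eb66aec4c99b6390d728dd6d21690d5a458d25a107450dd2e8109595494b2992928a4a48b3b0d167b43321912da8c54e9d8c2f2b58a860acb01415d25776af32534cd1a2808a58b409b44c84e451c30361caa82e694000412972889045096b703c5495c469d04b23a7492e54145881822262228b0f099db9ac9501a232448364d914003104082580f409547154169928446e6938d2c736982e19988c81a0618483c1c91312c5754219953604712c035bb49cf536b00e0082d080c41a4e1183453b2c075c6840004bd232f558305dd0638aa35898b868584e1c0a20964e54a2f568d8c4125c6b9a0b0d322c05295a1300daa8d7678d3ac64b9b1c36265010af4449599309b1a515d5e15b074559b2830022d99a356c9c05c39187335430934389436b4aaaf320b18dd8d128271d5845a41dc8046e802af472b4097824e4a83153b539aa7410f54ccc3589963679d35cc58c7545ad6dd82b63b081a1c90b5db56536ba98ee3458210c6416b4a24d870242a94265c7563022d95e031974d09b6100ec6ab089351b4926b06076621463d3012d4b4cded52193aa4d2bb9a441a4119b5756a6004cd9334990ab0c83800a3366cc4389320489c81546a)]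
noncomputable def T7_9750 : Op := Op.mk (nat_lit 73)
 (Tr.nd (nat_lit 148) (nat_lit 1) (nat_lit 63) (nat_lit 3332) c7_9750_0
 (Tr.nd (nat_lit 64) (nat_lit 5) (nat_lit 23) (nat_lit 1596) c7_9750_0
 (Tr.nd (nat_lit 49) (nat_lit 1) (nat_lit 154) (nat_lit 337) c7_9750_0
 (Tr.nd (nat_lit 9) (nat_lit 1) (nat_lit 24) (nat_lit 275) c7_9750_0
 (Tr.nd (nat_lit 7) (nat_lit 1) (nat_lit 61) (nat_lit 98) c7_9750_0
 (Tr.nd (nat_lit 1) (nat_lit 1) (nat_lit 61) (nat_lit 37) c7_9750_0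
 (Tr.nd (nat_lit 0) (nat_lit 1) (nat_lit 37) (nat_lit 0) c7_9750_0
 Tr.lf Tr.lf) Tr.lf) (Tr.nd (nat_lit 8) (nat_lit 1) (nat_lit 116) (nat_lit 159) c7_9750_0
 Tr.lf Tr.lf)) (Tr.nd (nat_lit 16) (nat_lit 2) (nat_lit 5) (nat_lit 325) c7_9750_0
 (Tr.nd (nat_lit 15) (nat_lit 1) (nat_lit 24) (nat_lit 301) c7_9750_0
 (Tr.nd (nat_lit 10) (nat_lit 1) (nat_lit 2) (nat_lit 299) c7_9750_0
 Tr.lf Tr.lf) Tr.lf) (Tr.nd (nat_lit 22) (nat_lit 1) (nat_lit 2) (nat_lit 335) c7_9750_0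
 Tr.lf Tr.lf))) (Tr.nd (nat_lit 57) (nat_lit 3) (nat_lit 100) (nat_lit 1110) c7_9750_0
 (Tr.nd (nat_lit 52) (nat_lit 1) (nat_lit 6) (nat_lit 828) c7_9750_0
 (Tr.nd (nat_lit 51) (nat_lit 1) (nat_lit 61) (nat_lit 767) c7_9750_0
 (Tr.nd (nat_lit 50) (nat_lit 1) (nat_lit 276) (nat_lit 491) c7_9750_0
 Tr.lf Tr.lf) Tr.lf) (Tr.nd (nat_lit 56) (nat_lit 1) (nat_lit 276) (nat_lit 834) c7_9750_0
 Tr.lf Tr.lf)) (Tr.nd (nat_lit 59) (nat_lit 5) (nat_lit 2) (nat_lit 1525) c7_9750_0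
 (Tr.nd (nat_lit 58) (nat_lit 5) (nat_lit 23) (nat_lit 1410) c7_9750_0
 Tr.lf Tr.lf) (Tr.nd (nat_lit 63) (nat_lit 1) (nat_lit 61) (nat_lit 1535) c7_9750_0
 Tr.lf Tr.lf)))) (Tr.nd (nat_lit 107) (nat_lit 10) (nat_lit 17) (nat_lit 2504) c7_9750_0
 (Tr.nd (nat_lit 100) (nat_lit 2) (nat_lit 37) (nat_lit 1951) c7_9750_0
 (Tr.nd (nat_lit 71) (nat_lit 5) (nat_lit 2) (nat_lit 1787) c7_9750_0
 (Tr.nd (nat_lit 70) (nat_lit 1) (nat_lit 6) (nat_lit 1781) c7_9750_0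
 (Tr.nd (nat_lit 65) (nat_lit 10) (nat_lit 7) (nat_lit 1711) c7_9750_0
 Tr.lf Tr.lf) Tr.lf) (Tr.nd (nat_lit 99) (nat_lit 1) (nat_lit 154) (nat_lit 1797) c7_9750_0
 Tr.lf Tr.lf)) (Tr.nd (nat_lit 105) (nat_lit 1) (nat_lit 154) (nat_lit 2035) c7_9750_0
 (Tr.nd (nat_lit 101) (nat_lit 2) (nat_lit 5) (nat_lit 2025) c7_9750_0
 Tr.lf Tr.lf) (Tr.nd (nat_lit 106) (nat_lit 5) (nat_lit 63) (nat_lit 2189) c7_9750_0
 Tr.lf Tr.lf))) (Tr.nd (nat_lit 115) (nat_lit 63) (nat_lit 1) (nat_lit 3162) c7_9750_0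
 (Tr.nd (nat_lit 113) (nat_lit 10) (nat_lit 17) (nat_lit 2782) c7_9750_0
 (Tr.nd (nat_lit 112) (nat_lit 2) (nat_lit 37) (nat_lit 2708) c7_9750_0
 (Tr.nd (nat_lit 108) (nat_lit 17) (nat_lit 2) (nat_lit 2674) c7_9750_0
 Tr.lf Tr.lf) Tr.lf) (Tr.nd (nat_lit 114) (nat_lit 30) (nat_lit 7) (nat_lit 2952) c7_9750_0
 Tr.lf Tr.lf)) (Tr.nd (nat_lit 120) (nat_lit 17) (nat_lit 2) (nat_lit 3235) c7_9750_0
 (Tr.nd (nat_lit 119) (nat_lit 2) (nat_lit 5) (nat_lit 3225) c7_9750_0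
 Tr.lf Tr.lf) (Tr.nd (nat_lit 121) (nat_lit 63) (nat_lit 1) (nat_lit 3269) c7_9750_0
 Tr.lf Tr.lf))))) (Tr.nd (nat_lit 206) (nat_lit 61) (nat_lit 1) (nat_lit 1065) c7_9750_1
 (Tr.nd (nat_lit 163) (nat_lit 63) (nat_lit 5) (nat_lit 170) c7_9750_1
 (Tr.nd (nat_lit 156) (nat_lit 17) (nat_lit 10) (nat_lit 3659) c7_9750_0
 (Tr.nd (nat_lit 154) (nat_lit 1) (nat_lit 63) (nat_lit 3441) c7_9750_0
 (Tr.nd (nat_lit 150) (nat_lit 4) (nat_lit 3) (nat_lit 3429) c7_9750_0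
 (Tr.nd (nat_lit 149) (nat_lit 2) (nat_lit 17) (nat_lit 3395) c7_9750_0
 Tr.lf Tr.lf) Tr.lf) (Tr.nd (nat_lit 155) (nat_lit 5) (nat_lit 31) (nat_lit 3504) c7_9750_0
 Tr.lf Tr.lf)) (Tr.nd (nat_lit 161) (nat_lit 2) (nat_lit 17) (nat_lit 3903) c7_9750_0
 (Tr.nd (nat_lit 157) (nat_lit 37) (nat_lit 2) (nat_lit 3829) c7_9750_0
 Tr.lf Tr.lf) (Tr.nd (nat_lit 162) (nat_lit 17) (nat_lit 10) (nat_lit 0) c7_9750_1
 Tr.lf Tr.lf))) (Tr.nd (nat_lit 198) (nat_lit 2) (nat_lit 5) (nat_lit 879) c7_9750_1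
 (Tr.nd (nat_lit 169) (nat_lit 37) (nat_lit 2) (nat_lit 651) c7_9750_1
 (Tr.nd (nat_lit 168) (nat_lit 4) (nat_lit 3) (nat_lit 639) c7_9750_1
 (Tr.nd (nat_lit 164) (nat_lit 154) (nat_lit 1) (nat_lit 485) c7_9750_1
 Tr.lf Tr.lf) Tr.lf) (Tr.nd (nat_lit 170) (nat_lit 154) (nat_lit 1) (nat_lit 725) c7_9750_1
 Tr.lf Tr.lf)) (Tr.nd (nat_lit 204) (nat_lit 5) (nat_lit 11) (nat_lit 895) c7_9750_1
 (Tr.nd (nat_lit 199) (nat_lit 6) (nat_lit 1) (nat_lit 889) c7_9750_1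
 Tr.lf Tr.lf) (Tr.nd (nat_lit 205) (nat_lit 23) (nat_lit 5) (nat_lit 950) c7_9750_1
 Tr.lf Tr.lf)))) (Tr.nd (nat_lit 247) (nat_lit 2) (nat_lit 1) (nat_lit 2324) c7_9750_1
 (Tr.nd (nat_lit 217) (nat_lit 6) (nat_lit 1) (nat_lit 1827) c7_9750_1
 (Tr.nd (nat_lit 212) (nat_lit 100) (nat_lit 3) (nat_lit 1251) c7_9750_1
 (Tr.nd (nat_lit 211) (nat_lit 23) (nat_lit 5) (nat_lit 1136) c7_9750_1
 (Tr.nd (nat_lit 210) (nat_lit 2) (nat_lit 5) (nat_lit 1126) c7_9750_1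
 Tr.lf Tr.lf) Tr.lf) (Tr.nd (nat_lit 213) (nat_lit 276) (nat_lit 1) (nat_lit 1551) c7_9750_1
 Tr.lf Tr.lf)) (Tr.nd (nat_lit 219) (nat_lit 276) (nat_lit 1) (nat_lit 1894) c7_9750_1
 (Tr.nd (nat_lit 218) (nat_lit 61) (nat_lit 1) (nat_lit 1833) c7_9750_1
 Tr.lf Tr.lf) (Tr.nd (nat_lit 220) (nat_lit 154) (nat_lit 1) (nat_lit 2170) c7_9750_1
 Tr.lf Tr.lf))) (Tr.nd (nat_lit 261) (nat_lit 116) (nat_lit 1) (nat_lit 2388) c7_9750_1
 (Tr.nd (nat_lit 259) (nat_lit 2) (nat_lit 1) (nat_lit 2362) c7_9750_1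
 (Tr.nd (nat_lit 254) (nat_lit 24) (nat_lit 1) (nat_lit 2338) c7_9750_1
 (Tr.nd (nat_lit 253) (nat_lit 4) (nat_lit 3) (nat_lit 2326) c7_9750_1
 Tr.lf Tr.lf) Tr.lf) (Tr.nd (nat_lit 260) (nat_lit 24) (nat_lit 1) (nat_lit 2364) c7_9750_1
 Tr.lf Tr.lf)) (Tr.nd (nat_lit 268) (nat_lit 61) (nat_lit 1) (nat_lit 2565) c7_9750_1
 (Tr.nd (nat_lit 262) (nat_lit 61) (nat_lit 1) (nat_lit 2504) c7_9750_1
 Tr.lf Tr.lf) (Tr.nd (nat_lit 269) (nat_lit 37) (nat_lit 1) (nat_lit 2626) c7_9750_1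
 Tr.lf Tr.lf))))))

noncomputable def c7_8790_0 : List Nat := [(nat_lit 0x1b2db0420e035736daaaa5480d9cb95c1ba057867b1ce958e3a19018b18b5a810921668619757a29842231743aaae9109b281748e6d34af362b4a58894c0875b8bda16020a49803460843734839832aad4b53648b622d937618452863a101c762895a5451da685a320002bc8b41e06d81008c6ce2e9cce01ccac05d2ccbab268c9d42b72c1321b65ab4d9d008890b68a21ad69b5a3b1d720a1375e8ee2c066941d36534ad0eae1c9e7618350f28441854aa49cd0503115d29b310005db1883ae0a1cd966ad692074148c8222005c99d95e4eb12b6818d00d485a569a607586de884363729814cdb0eb10d36a4cc89809c21376075acecaf48c8103343c8e0f5115a92c3590109a602c68d3285b46ba0e0289a34954a8c2031662e10caf358c771991a40000000000000000000000284a4bad4ccc629ca2c4509896baa20f21461449ae28dc4ca6d545d58a2461a773900000000000000000000000b838db6014dd2b67ac6b020dccccf14730644d379b7501b528885aa336e5a5cd3177032599c9b50eeba1184a8cb036ea38d8858f3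4a92d50c891a0b54e158d264110b3443271bd5882e8400228922b038449032b54ea448667b6863866196140af0976906d14c69a8d3b6ad04c856b58a54b7b008c345baeb405a8514d7484d6e0894026c4b31dd9d91582831435687488dd8153669dd4036095a24c4a178b49100c0f4b4556dd35993c2491831999492cd1110cb8da42da0c05a5b92c96d1585132068d6c2ed60b998a5ba816036ad86880b62a0132c988320043b444152f1d5c498da2810350928236c64b8339ec4aa41aee71624cd82cb16d52ce6e59b502aadb3726ae8310604e16eecd0cacd8cb5099879cab0b720ec4025a0ab000069bcaa20c16ec5bc23450354c9696585e076240520cd441928386579337006e3a471a96498101a708ac8d06cc59005554dd0ce300482683371499d2a9ae26d94044842eca828d19e22025d92dcb48c5002b2a0045626447a0156344cb042ecc548c35cca082ec1472ebb239caf18156d0621da68068911ad596444a193304056f4d02aa37b66626894ac1082eecf1220273244330a84d5840e56e858b8c15a18db5372091948c71b2142f1683cdd85000000004c0e00c889e0528304e201dcb3d44000000003005a816db0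6242015d334d820684b2524689c640de16e8a2755ca4666ccea2b456540d4d60e8e920e0f425a9b5bb6d80c4b504ba111936668d75e5948da815c4061020486bb7508b4abb2202aae9808558d4ed12d320e81a38a0d59d21344d9bb01421a0c19b72e7950500d25736252e60eab93c9d28886042822098550d33640b494d2c126bb0032c626eaa6172888bd542f1cd022326bcb4b28790b18c1aa9ea6488dcedd30249aa0a20ce4886484250b1b8851012c08351368aa77384d95e851205988560ccaaed565794b0bb45c6994404dc23336071651cda99ad8a8ebd9835bc89c1424d8e420128d6c1c586b2d8e6e59751ab2ae0abce5128149254a46946671bb4a9a6311154754c3cd8594c010c51482a10a06f68192f22488e535e1a5b8a095d440cb9853ae8a699bd8658894166c480c9395034a0c258eaaa6338e035139cd640f03706364c90d972abb2b05985506acdd76759d556d1bad4834140a94580504625668dc25d2aba9b675d9d7a55a32d4c72b3322952c31cd89c150d0535c4b9a476546165983229648b42bc9c00c16dcd68eda76b6a0b3d5106589a27542a00cd518e9c05c702c957586dc126ee7514c41886801312ec1a6386ac8aa5b0464160a0f5cb426d548c6cda0b840284a5193243792814995388c4b5528e1141525baa40c19a2ab0ddaaa55aa0b156bb2190735acd309773c1e80271911c254b59a6265860171a3808a470892ed0b206d5269ac334d166910a6dc00018000000000003000042524800040000092361e00012332c4ac32800012392c4ab1664640c00300000000000000040000000200085300480c85310a2a246c00000001b62412030363b2c6c6b6006036236c311b6180000000030018ce01680c0001106324240)]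
noncomputable def c7_8790_1 : List Nat := [(nat_lit 0x132438404000302d023c180300000000061b6070db03b01801b2729cb63b00c02413b6000000003720aa207440b0090344080200000001000000002d5d96b9e8581548a989538daa50b00612258d99a25128dc49e0c5bb057362a68552939b94b5540159164dd11b68c0696534f0c9a695d802ccdac80c72280001866629865a86976c44c70171a026633d5930d2edd18582dae54322a752aad6c3a8a784212bad9111418e255327038d5a442259b04b585890a041a89b4a4586c890445d4814ecf305b60eccc2f19a4d5a982ae159ba1dc7215179d844776a6d55b2b3503a2d35e462acaaf4a53d8056592836d45468ad98b086951a94440d2b29585bb39250e88b1645ac5b88d2e12e014b667a164226eb0ecf6c51da61aeb76a0b4056c0450440651a84413095ba94dd57175ed752ee1151a512adaab196624d856279d6e039b20e6e9448a59519534a714a526cac4602501b421a8163435c2c740416184100ab531d711806291ca892b682d2971ad534da00265684c688004945243c66d81a56440c65d6451477095d583db0173b2d9834628d9c5c8d364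385ca412a2b36818b4a8ed2ee3ab0b0d06c5a06a659a332e2c81106c60d25c4a30c7ad36c881c1d288d6421136e8566cb11619ea5c49c61caa43204a390ab9012d165b55862086b9aa5a8751120f200d274b21c73d4a623521d8874a33005bc6ea4a036224ce684012b46bd959352ad8e6828a2062049e7aea8066ca1e76d9b2ab0508ac3b0e62386944e828594d044421330b3058b98b189b06d58d2528c734e96a4a953507aba640084180754226e459675d29e9497019ac1132701b524e671dadc628866741acb22405c8a8057687808f1ce9984ca87b4a494dd0da531b986b68f484552248a0c0000d6415906a0a60720004840a161e0140cbceb68cade21b8f22816e38522e41236ada704e88750ccd6ac420ee8151a180978910139ed5906095225350bdb371542699ba021a12c580acb2b70294c04d36303099652836b5a3b6a29690d2b823d1a950a5bd060969acd281b080a52d8001451024287265ad92b244073c294455b5081280b2d275d1598b48ea584d048087162b6aaa809287b09817418d3008d24b138e4c75206a5acec31844b0a110228b914674574db428349da5859d3732b1b32c4101c898946968c05200b10b3061adab32b5b4a705a1af54124c9b848dd09455e16072a9459b41904a29b0c6eb80cea309648d8a9722720855b5b8b530344853983771a9e61b074108d8617600604578bc08b6c52999d695381d2640296c7437500d534c825b5552052bb3290dccb944708123b490f5281929a124b5c0c173c25a2ab89d86b8165cd2c45d95432658692071a05c64d034d5c33651ec1244c935864)]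
noncomputable def T7_8790 : Op := Op.mk (nat_lit 73)
 (Tr.nd (nat_lit 148) (nat_lit 1) (nat_lit 63) (nat_lit 3332) c7_8790_0
 (Tr.nd (nat_lit 64) (nat_lit 5) (nat_lit 23) (nat_lit 1596) c7_8790_0
 (Tr.nd (nat_lit 49) (nat_lit 1) (nat_lit 154) (nat_lit 337) c7_8790_0
 (Tr.nd (nat_lit 9) (nat_lit 1) (nat_lit 24) (nat_lit 275) c7_8790_0
 (Tr.nd (nat_lit 7) (nat_lit 1) (nat_lit 61) (nat_lit 98) c7_8790_0
 (Tr.nd (nat_lit 1) (nat_lit 1) (nat_lit 61) (nat_lit 37) c7_8790_0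
 (Tr.nd (nat_lit 0) (nat_lit 1) (nat_lit 37) (nat_lit 0) c7_8790_0
 Tr.lf Tr.lf) Tr.lf) (Tr.nd (nat_lit 8) (nat_lit 1) (nat_lit 116) (nat_lit 159) c7_8790_0
 Tr.lf Tr.lf)) (Tr.nd (nat_lit 16) (nat_lit 2) (nat_lit 5) (nat_lit 325) c7_8790_0
 (Tr.nd (nat_lit 15) (nat_lit 1) (nat_lit 24) (nat_lit 301) c7_8790_0
 (Tr.nd (nat_lit 10) (nat_lit 1) (nat_lit 2) (nat_lit 299) c7_8790_0
 Tr.lf Tr.lf) Tr.lf) (Tr.nd (nat_lit 22) (nat_lit 1) (nat_lit 2) (nat_lit 335) c7_8790_0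
 Tr.lf Tr.lf))) (Tr.nd (nat_lit 57) (nat_lit 3) (nat_lit 100) (nat_lit 1110) c7_8790_0
 (Tr.nd (nat_lit 52) (nat_lit 1) (nat_lit 6) (nat_lit 828) c7_8790_0
 (Tr.nd (nat_lit 51) (nat_lit 1) (nat_lit 61) (nat_lit 767) c7_8790_0
 (Tr.nd (nat_lit 50) (nat_lit 1) (nat_lit 276) (nat_lit 491) c7_8790_0
 Tr.lf Tr.lf) Tr.lf) (Tr.nd (nat_lit 56) (nat_lit 1) (nat_lit 276) (nat_lit 834) c7_8790_0
 Tr.lf Tr.lf)) (Tr.nd (nat_lit 59) (nat_lit 5) (nat_lit 2) (nat_lit 1525) c7_8790_0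
 (Tr.nd (nat_lit 58) (nat_lit 5) (nat_lit 23) (nat_lit 1410) c7_8790_0
 Tr.lf Tr.lf) (Tr.nd (nat_lit 63) (nat_lit 1) (nat_lit 61) (nat_lit 1535) c7_8790_0
 Tr.lf Tr.lf)))) (Tr.nd (nat_lit 107) (nat_lit 10) (nat_lit 17) (nat_lit 2504) c7_8790_0
 (Tr.nd (nat_lit 100) (nat_lit 2) (nat_lit 37) (nat_lit 1951) c7_8790_0
 (Tr.nd (nat_lit 71) (nat_lit 5) (nat_lit 2) (nat_lit 1787) c7_8790_0
 (Tr.nd (nat_lit 70) (nat_lit 1) (nat_lit 6) (nat_lit 1781) c7_8790_0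
 (Tr.nd (nat_lit 65) (nat_lit 10) (nat_lit 7) (nat_lit 1711) c7_8790_0
 Tr.lf Tr.lf) Tr.lf) (Tr.nd (nat_lit 99) (nat_lit 1) (nat_lit 154) (nat_lit 1797) c7_8790_0
 Tr.lf Tr.lf)) (Tr.nd (nat_lit 105) (nat_lit 1) (nat_lit 154) (nat_lit 2035) c7_8790_0
 (Tr.nd (nat_lit 101) (nat_lit 2) (nat_lit 5) (nat_lit 2025) c7_8790_0
 Tr.lf Tr.lf) (Tr.nd (nat_lit 106) (nat_lit 5) (nat_lit 63) (nat_lit 2189) c7_8790_0
 Tr.lf Tr.lf))) (Tr.nd (nat_lit 115) (nat_lit 63) (nat_lit 1) (nat_lit 3162) c7_8790_0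
 (Tr.nd (nat_lit 113) (nat_lit 10) (nat_lit 17) (nat_lit 2782) c7_8790_0
 (Tr.nd (nat_lit 112) (nat_lit 2) (nat_lit 37) (nat_lit 2708) c7_8790_0
 (Tr.nd (nat_lit 108) (nat_lit 17) (nat_lit 2) (nat_lit 2674) c7_8790_0
 Tr.lf Tr.lf) Tr.lf) (Tr.nd (nat_lit 114) (nat_lit 30) (nat_lit 7) (nat_lit 2952) c7_8790_0
 Tr.lf Tr.lf)) (Tr.nd (nat_lit 120) (nat_lit 17) (nat_lit 2) (nat_lit 3235) c7_8790_0
 (Tr.nd (nat_lit 119) (nat_lit 2) (nat_lit 5) (nat_lit 3225) c7_8790_0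
 Tr.lf Tr.lf) (Tr.nd (nat_lit 121) (nat_lit 63) (nat_lit 1) (nat_lit 3269) c7_8790_0
 Tr.lf Tr.lf))))) (Tr.nd (nat_lit 206) (nat_lit 61) (nat_lit 1) (nat_lit 1065) c7_8790_1
 (Tr.nd (nat_lit 163) (nat_lit 63) (nat_lit 5) (nat_lit 170) c7_8790_1
 (Tr.nd (nat_lit 156) (nat_lit 17) (nat_lit 10) (nat_lit 3659) c7_8790_0
 (Tr.nd (nat_lit 154) (nat_lit 1) (nat_lit 63) (nat_lit 3441) c7_8790_0
 (Tr.nd (nat_lit 150) (nat_lit 4) (nat_lit 3) (nat_lit 3429) c7_8790_0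
 (Tr.nd (nat_lit 149) (nat_lit 2) (nat_lit 17) (nat_lit 3395) c7_8790_0
 Tr.lf Tr.lf) Tr.lf) (Tr.nd (nat_lit 155) (nat_lit 5) (nat_lit 31) (nat_lit 3504) c7_8790_0
 Tr.lf Tr.lf)) (Tr.nd (nat_lit 161) (nat_lit 2) (nat_lit 17) (nat_lit 3903) c7_8790_0
 (Tr.nd (nat_lit 157) (nat_lit 37) (nat_lit 2) (nat_lit 3829) c7_8790_0
 Tr.lf Tr.lf) (Tr.nd (nat_lit 162) (nat_lit 17) (nat_lit 10) (nat_lit 0) c7_8790_1
 Tr.lf Tr.lf))) (Tr.nd (nat_lit 198) (nat_lit 2) (nat_lit 5) (nat_lit 879) c7_8790_1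
 (Tr.nd (nat_lit 169) (nat_lit 37) (nat_lit 2) (nat_lit 651) c7_8790_1
 (Tr.nd (nat_lit 168) (nat_lit 4) (nat_lit 3) (nat_lit 639) c7_8790_1
 (Tr.nd (nat_lit 164) (nat_lit 154) (nat_lit 1) (nat_lit 485) c7_8790_1
 Tr.lf Tr.lf) Tr.lf) (Tr.nd (nat_lit 170) (nat_lit 154) (nat_lit 1) (nat_lit 725) c7_8790_1
 Tr.lf Tr.lf)) (Tr.nd (nat_lit 204) (nat_lit 5) (nat_lit 11) (nat_lit 895) c7_8790_1
 (Tr.nd (nat_lit 199) (nat_lit 6) (nat_lit 1) (nat_lit 889) c7_8790_1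
 Tr.lf Tr.lf) (Tr.nd (nat_lit 205) (nat_lit 23) (nat_lit 5) (nat_lit 950) c7_8790_1
 Tr.lf Tr.lf)))) (Tr.nd (nat_lit 247) (nat_lit 2) (nat_lit 1) (nat_lit 2324) c7_8790_1
 (Tr.nd (nat_lit 217) (nat_lit 6) (nat_lit 1) (nat_lit 1827) c7_8790_1
 (Tr.nd (nat_lit 212) (nat_lit 100) (nat_lit 3) (nat_lit 1251) c7_8790_1
 (Tr.nd (nat_lit 211) (nat_lit 23) (nat_lit 5) (nat_lit 1136) c7_8790_1
 (Tr.nd (nat_lit 210) (nat_lit 2) (nat_lit 5) (nat_lit 1126) c7_8790_1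
 Tr.lf Tr.lf) Tr.lf) (Tr.nd (nat_lit 213) (nat_lit 276) (nat_lit 1) (nat_lit 1551) c7_8790_1
 Tr.lf Tr.lf)) (Tr.nd (nat_lit 219) (nat_lit 276) (nat_lit 1) (nat_lit 1894) c7_8790_1
 (Tr.nd (nat_lit 218) (nat_lit 61) (nat_lit 1) (nat_lit 1833) c7_8790_1
 Tr.lf Tr.lf) (Tr.nd (nat_lit 220) (nat_lit 154) (nat_lit 1) (nat_lit 2170) c7_8790_1
 Tr.lf Tr.lf))) (Tr.nd (nat_lit 261) (nat_lit 116) (nat_lit 1) (nat_lit 2388) c7_8790_1
 (Tr.nd (nat_lit 259) (nat_lit 2) (nat_lit 1) (nat_lit 2362) c7_8790_1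
 (Tr.nd (nat_lit 254) (nat_lit 24) (nat_lit 1) (nat_lit 2338) c7_8790_1
 (Tr.nd (nat_lit 253) (nat_lit 4) (nat_lit 3) (nat_lit 2326) c7_8790_1
 Tr.lf Tr.lf) Tr.lf) (Tr.nd (nat_lit 260) (nat_lit 24) (nat_lit 1) (nat_lit 2364) c7_8790_1
 Tr.lf Tr.lf)) (Tr.nd (nat_lit 268) (nat_lit 61) (nat_lit 1) (nat_lit 2565) c7_8790_1
 (Tr.nd (nat_lit 262) (nat_lit 61) (nat_lit 1) (nat_lit 2504) c7_8790_1
 Tr.lf Tr.lf) (Tr.nd (nat_lit 269) (nat_lit 37) (nat_lit 1) (nat_lit 2626) c7_8790_1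
 Tr.lf Tr.lf))))))

noncomputable def c7_9366_0 : List Nat := [(nat_lit 0x162ba5d10baac5920e322e698b94d9384328d328642b1b42eb89329812535d34350942c19ad6c4d4343a96738eb508818b28b2b696614b8b19346326bced6e8818c329a298697342821375ba62505093caab98a58cf22db455ce12e88c20b26eba3631ad5d80209280002328b4f2ac605343400e3b26de0969888157908da976c168d2ace21c954514c9192b6222d296bb0a2ce3a201603644e15451322cb752d1cc38ae65549ca13666d5035b6989b180294268d6db2d5b657600043b277409421488e1988b2143014909c2a68c0ea7aa85cb9c8f56a22980a659b6683159134331924b07826a4aa114b6f2d100d1513b9c8f58cc573558853544cc88540810b0074d108c5892805ca6cccaecb6a65b6e94d0b1010ed034dba42bb42da1634aa2f55000000000000000000000004186620809a85095b58422769987a17a3823a9e6a9722d483a238da8526a693d1a780000000000000000000000da80124d246e123d0c4b344e8b47354d1ac0712a83786a1e063c16a9b69929591309c01d59dd6b8c08f28082ac20662d788403434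6aa7b2a5e7525455040a2656aae9ab776a5605c829b6b8db4416ce6d46f6b2328313444ed90adcc81814372cf14d692e06937568b150ac5a6186891218a56bacd05ca2a7024f41596d0c634604dd929a9ba24036010269310af01164f528244a6a35522c8ab252db229a388e2d60d8118b4dbab0316ea42e0a63a001ca9219e974cce6aba68433846686c063622e8443418759b583862f2b2d0932749124eb0ec68150326855d65885186550254086570c4de4b0d89c32023c41d18ba87a4cd562db9400b19b840cc54992e07624018f34abb91d238d62d672b74e74bb124527208a6680b6528d2d1185c2b0b130a858a1271dc1b1350368e618861e31158e3b22c049920386811961c6042d2c1a430d328e6b96b64a588ee63596e56e12a854cf56d2761b6ecec8e928b928ac092b6ebc4884127113109d831802d6c00181840b8c42404c64e911d82e805cd0a69454a022f0ba3401c4a1094402433ad39885d0293426738b2c822d37ac96c8a8b316c8c5b6a939c45ad26bb2d1d6282866f04f5b4a075bb00c1b093316927b69246ca84956981ccb16d56680000001a0d5a4a26b38d995db51903016826c0000000363049a2a5b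830b5681413721aa687028276b30471801b0c8b73991585c701482a98b188168065d0a264c673ccaa1ea617acdb05304cc68109a7064553ad9516157106d0ab464b46d996146bb60840a22423210544f472c6028d44c4cf4ba5db64f1da34d465181da666ee6cbce8c8e69423402ba682dd4d380d4c3c5c98c39d5a905a61506ad123a64e1a4309448e6ec871430d5516d7354612eb4d239b595c9c96522a30e8e9af612302611118133075c710b1ab134b1804c527261713059468a813012baf1b8ad237032d316256b0ad43126912a6b1aaea667a6c35a5e742ac0c614da582d22a665341568207b2146166b357a2c5eca4d8044b6a0a30b698036152c8cd4a25974a4db41b2c2f40248a67900302b2d5131d3b64ad02a92ac18a8487072515634066a65561e2eb52640521b4490412413a024b19359073599e288435220ad8120a940ec145025036712dabd584615836840e56234027b4863c41189cf5ae4b21d68b0a9756c2da8b732ee7400a1864b68990365cad8750e9a2475ac640d6386485aa1b349a05763a593004e16c21b90a121ccc944704046b6a4b029269c0ad9a4c2931b586a2c44b75a0322cc465cd8d9ea96933db08a2d2548d0d6ac18e92a920581e1b5ace78d8cac936cab2953145355db2e9728834e520e10518385ec424325106b67a5d701a9448b8402231c0e4b2e60488326a7a58140c314ac302c64d660330361ab80c03ab53013987ada2a3994de36b12c5658f32a05b25a9956481a24235696acd8e10161123032f2a65ae6ce9b158b4a15258af248082c433ce432cc09c0800545dd925b01480c87690e8248564529c08a2dd890081801822280104eeaf6a88240000000000000000000000184648471770400a2c454255c36)]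
noncomputable def c7_9366_1 : List Nat := [(nat_lit 0x1b0d51311528a0043567140970600000000000000000000000120abb3bab41002828600600804ed68a08c6c52540922b06d60b00d036496d59540008a2ab1545b858b300040f27235ac98d6918e1b4ca4e4696460964eb38e9887437464521186f26ac5b6d639ae96552c0ed39b45e2a8b6e61e244372ac0c06a800032e06de4d60c8c323430c442599aa4b0a401eb2c8c470a8041a8251b80d7599ec98512c1207666318510620d8d30a2d66b2d753451d11b2a2db4b22e539858c106c54414513625d524ad970d53519516d426ab814c51b1e3125537038d9015c8a558703b130d659c20140c4f536ac6a4a682b4f00250ab5a0d9e7558cc33451b56e2acad5bb2749a20425784aed4e365c9428b2a308aa6ceb7024178bca60a4ae2d4556226c8edcf1381073864d9a01381d8c409b191850773bb251ec058db956419b707152dc6d4b15b08ce363024938060381175350b11d803b52403354b4bc10591694d538dc6240d22d18db755b256f4b261a4d2cd2236589a2c8369ba0b9e20a469110b11715a897ae30832190565e16d24e2612f009d46326a255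a240183692dc344cc6359275d63085db0a708e3b8cb121316a41812741681657a1aeb34c2a629dadb56841615236a21a320165aae8c4b968b3515ca56d5159331486d486a25a82b46e3964a4c215aa47990dc0e2915c5e15a458051c56b1e650a99159d11b81512883a026c1ad618b2349b4cf3383712ad6b99463040cb48c628e64eb1a42515e3b0284d1d58e820c98d54613582731b54cd5743c1c8dd2f3332934ca5463a72a5cca84d851d419565b8d45611a68109c2d0d10db4b9986bab681e251854c1e183968213b9d2530b081d2da69b81b05144d620502d9ab482188102708d1d4ad150e4b4000489a4deac245871b8d4400a72532dacc60785b4ba9b98625a96a24c45b924db34933a12652181b5b8846db9a19bc11143ae65b5d264ca8f13536ce05b3a515496c97369941659478b429340acc0f1b7160900e40c14ccc0562a32201a1446aad4a44c81a602dec1b08891964100320014614290e12b40e80e24830139d6dd90074591944d7257b5b4cad26ee7a2315835ab5b2e0f5703364b72d747169860931926600e30cb80531804b480654096ce4c8d44890285452e156603c6c37290320885b7594415b0202d5301e21843454e93009b8e3b414996c34341831b1599a56ae6c232934e3a044dba486a9a0b763c61b0ea7629b21350d41ec5e703cca9050f0d5235871bd2ca0535d971019958222af28768ac2a0a51cd50256ed582452d94543a130f6006b30828b6c75681418234c6927b39a60eaa452860558d04508c30f459a34cb53086ca458049b49862e65b3048362e5b156743499a8489b544cd69e14a)]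
noncomputable def T7_9366 : Op := Op.mk (nat_lit 73)
 (Tr.nd (nat_lit 148) (nat_lit 1) (nat_lit 63) (nat_lit 3332) c7_9366_0
 (Tr.nd (nat_lit 64) (nat_lit 5) (nat_lit 23) (nat_lit 1596) c7_9366_0
 (Tr.nd (nat_lit 49) (nat_lit 1) (nat_lit 154) (nat_lit 337) c7_9366_0
 (Tr.nd (nat_lit 9) (nat_lit 1) (nat_lit 24) (nat_lit 275) c7_9366_0
 (Tr.nd (nat_lit 7) (nat_lit 1) (nat_lit 61) (nat_lit 98) c7_9366_0
 (Tr.nd (nat_lit 1) (nat_lit 1) (nat_lit 61) (nat_lit 37) c7_9366_0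
 (Tr.nd (nat_lit 0) (nat_lit 1) (nat_lit 37) (nat_lit 0) c7_9366_0
 Tr.lf Tr.lf) Tr.lf) (Tr.nd (nat_lit 8) (nat_lit 1) (nat_lit 116) (nat_lit 159) c7_9366_0
 Tr.lf Tr.lf)) (Tr.nd (nat_lit 16) (nat_lit 2) (nat_lit 5) (nat_lit 325) c7_9366_0
 (Tr.nd (nat_lit 15) (nat_lit 1) (nat_lit 24) (nat_lit 301) c7_9366_0
 (Tr.nd (nat_lit 10) (nat_lit 1) (nat_lit 2) (nat_lit 299) c7_9366_0
 Tr.lf Tr.lf) Tr.lf) (Tr.nd (nat_lit 22) (nat_lit 1) (nat_lit 2) (nat_lit 335) c7_9366_0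
 Tr.lf Tr.lf))) (Tr.nd (nat_lit 57) (nat_lit 3) (nat_lit 100) (nat_lit 1110) c7_9366_0
 (Tr.nd (nat_lit 52) (nat_lit 1) (nat_lit 6) (nat_lit 828) c7_9366_0
 (Tr.nd (nat_lit 51) (nat_lit 1) (nat_lit 61) (nat_lit 767) c7_9366_0
 (Tr.nd (nat_lit 50) (nat_lit 1) (nat_lit 276) (nat_lit 491) c7_9366_0
 Tr.lf Tr.lf) Tr.lf) (Tr.nd (nat_lit 56) (nat_lit 1) (nat_lit 276) (nat_lit 834) c7_9366_0
 Tr.lf Tr.lf)) (Tr.nd (nat_lit 59) (nat_lit 5) (nat_lit 2) (nat_lit 1525) c7_9366_0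
 (Tr.nd (nat_lit 58) (nat_lit 5) (nat_lit 23) (nat_lit 1410) c7_9366_0
 Tr.lf Tr.lf) (Tr.nd (nat_lit 63) (nat_lit 1) (nat_lit 61) (nat_lit 1535) c7_9366_0
 Tr.lf Tr.lf)))) (Tr.nd (nat_lit 107) (nat_lit 10) (nat_lit 17) (nat_lit 2504) c7_9366_0
 (Tr.nd (nat_lit 100) (nat_lit 2) (nat_lit 37) (nat_lit 1951) c7_9366_0
 (Tr.nd (nat_lit 71) (nat_lit 5) (nat_lit 2) (nat_lit 1787) c7_9366_0
 (Tr.nd (nat_lit 70) (nat_lit 1) (nat_lit 6) (nat_lit 1781) c7_9366_0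
 (Tr.nd (nat_lit 65) (nat_lit 10) (nat_lit 7) (nat_lit 1711) c7_9366_0
 Tr.lf Tr.lf) Tr.lf) (Tr.nd (nat_lit 99) (nat_lit 1) (nat_lit 154) (nat_lit 1797) c7_9366_0
 Tr.lf Tr.lf)) (Tr.nd (nat_lit 105) (nat_lit 1) (nat_lit 154) (nat_lit 2035) c7_9366_0
 (Tr.nd (nat_lit 101) (nat_lit 2) (nat_lit 5) (nat_lit 2025) c7_9366_0
 Tr.lf Tr.lf) (Tr.nd (nat_lit 106) (nat_lit 5) (nat_lit 63) (nat_lit 2189) c7_9366_0
 Tr.lf Tr.lf))) (Tr.nd (nat_lit 115) (nat_lit 63) (nat_lit 1) (nat_lit 3162) c7_9366_0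
 (Tr.nd (nat_lit 113) (nat_lit 10) (nat_lit 17) (nat_lit 2782) c7_9366_0
 (Tr.nd (nat_lit 112) (nat_lit 2) (nat_lit 37) (nat_lit 2708) c7_9366_0
 (Tr.nd (nat_lit 108) (nat_lit 17) (nat_lit 2) (nat_lit 2674) c7_9366_0
 Tr.lf Tr.lf) Tr.lf) (Tr.nd (nat_lit 114) (nat_lit 30) (nat_lit 7) (nat_lit 2952) c7_9366_0
 Tr.lf Tr.lf)) (Tr.nd (nat_lit 120) (nat_lit 17) (nat_lit 2) (nat_lit 3235) c7_9366_0
 (Tr.nd (nat_lit 119) (nat_lit 2) (nat_lit 5) (nat_lit 3225) c7_9366_0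
 Tr.lf Tr.lf) (Tr.nd (nat_lit 121) (nat_lit 63) (nat_lit 1) (nat_lit 3269) c7_9366_0
 Tr.lf Tr.lf))))) (Tr.nd (nat_lit 206) (nat_lit 61) (nat_lit 1) (nat_lit 1065) c7_9366_1
 (Tr.nd (nat_lit 163) (nat_lit 63) (nat_lit 5) (nat_lit 170) c7_9366_1
 (Tr.nd (nat_lit 156) (nat_lit 17) (nat_lit 10) (nat_lit 3659) c7_9366_0
 (Tr.nd (nat_lit 154) (nat_lit 1) (nat_lit 63) (nat_lit 3441) c7_9366_0
 (Tr.nd (nat_lit 150) (nat_lit 4) (nat_lit 3) (nat_lit 3429) c7_9366_0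
 (Tr.nd (nat_lit 149) (nat_lit 2) (nat_lit 17) (nat_lit 3395) c7_9366_0
 Tr.lf Tr.lf) Tr.lf) (Tr.nd (nat_lit 155) (nat_lit 5) (nat_lit 31) (nat_lit 3504) c7_9366_0
 Tr.lf Tr.lf)) (Tr.nd (nat_lit 161) (nat_lit 2) (nat_lit 17) (nat_lit 3903) c7_9366_0
 (Tr.nd (nat_lit 157) (nat_lit 37) (nat_lit 2) (nat_lit 3829) c7_9366_0
 Tr.lf Tr.lf) (Tr.nd (nat_lit 162) (nat_lit 17) (nat_lit 10) (nat_lit 0) c7_9366_1
 Tr.lf Tr.lf))) (Tr.nd (nat_lit 198) (nat_lit 2) (nat_lit 5) (nat_lit 879) c7_9366_1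
 (Tr.nd (nat_lit 169) (nat_lit 37) (nat_lit 2) (nat_lit 651) c7_9366_1
 (Tr.nd (nat_lit 168) (nat_lit 4) (nat_lit 3) (nat_lit 639) c7_9366_1
 (Tr.nd (nat_lit 164) (nat_lit 154) (nat_lit 1) (nat_lit 485) c7_9366_1
 Tr.lf Tr.lf) Tr.lf) (Tr.nd (nat_lit 170) (nat_lit 154) (nat_lit 1) (nat_lit 725) c7_9366_1
 Tr.lf Tr.lf)) (Tr.nd (nat_lit 204) (nat_lit 5) (nat_lit 11) (nat_lit 895) c7_9366_1
 (Tr.nd (nat_lit 199) (nat_lit 6) (nat_lit 1) (nat_lit 889) c7_9366_1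
 Tr.lf Tr.lf) (Tr.nd (nat_lit 205) (nat_lit 23) (nat_lit 5) (nat_lit 950) c7_9366_1
 Tr.lf Tr.lf)))) (Tr.nd (nat_lit 247) (nat_lit 2) (nat_lit 1) (nat_lit 2324) c7_9366_1
 (Tr.nd (nat_lit 217) (nat_lit 6) (nat_lit 1) (nat_lit 1827) c7_9366_1
 (Tr.nd (nat_lit 212) (nat_lit 100) (nat_lit 3) (nat_lit 1251) c7_9366_1
 (Tr.nd (nat_lit 211) (nat_lit 23) (nat_lit 5) (nat_lit 1136) c7_9366_1
 (Tr.nd (nat_lit 210) (nat_lit 2) (nat_lit 5) (nat_lit 1126) c7_9366_1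
 Tr.lf Tr.lf) Tr.lf) (Tr.nd (nat_lit 213) (nat_lit 276) (nat_lit 1) (nat_lit 1551) c7_9366_1
 Tr.lf Tr.lf)) (Tr.nd (nat_lit 219) (nat_lit 276) (nat_lit 1) (nat_lit 1894) c7_9366_1
 (Tr.nd (nat_lit 218) (nat_lit 61) (nat_lit 1) (nat_lit 1833) c7_9366_1
 Tr.lf Tr.lf) (Tr.nd (nat_lit 220) (nat_lit 154) (nat_lit 1) (nat_lit 2170) c7_9366_1
 Tr.lf Tr.lf))) (Tr.nd (nat_lit 261) (nat_lit 116) (nat_lit 1) (nat_lit 2388) c7_9366_1
 (Tr.nd (nat_lit 259) (nat_lit 2) (nat_lit 1) (nat_lit 2362) c7_9366_1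
 (Tr.nd (nat_lit 254) (nat_lit 24) (nat_lit 1) (nat_lit 2338) c7_9366_1
 (Tr.nd (nat_lit 253) (nat_lit 4) (nat_lit 3) (nat_lit 2326) c7_9366_1
 Tr.lf Tr.lf) Tr.lf) (Tr.nd (nat_lit 260) (nat_lit 24) (nat_lit 1) (nat_lit 2364) c7_9366_1
 Tr.lf Tr.lf)) (Tr.nd (nat_lit 268) (nat_lit 61) (nat_lit 1) (nat_lit 2565) c7_9366_1
 (Tr.nd (nat_lit 262) (nat_lit 61) (nat_lit 1) (nat_lit 2504) c7_9366_1
 Tr.lf Tr.lf) (Tr.nd (nat_lit 269) (nat_lit 37) (nat_lit 1) (nat_lit 2626) c7_9366_1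
 Tr.lf Tr.lf))))))

noncomputable def c7_9318_0 : List Nat := [(nat_lit 0x4112569901cb60500b22a5b0a94941da05a628aad4a62314586e918893228835245d5bb63c0d802a1baf2ad911669e08417042491aad3c9239e5b577481e4c636c756caa55d293919b46d690d449b1308692c512c6247356cdd73299b48b926462758dcc02d9e3a400003202855692d6db966919524358d9222392b38159e5aa9b31a476310644daa44c1c5c32290526091e6e6d4e4c5c9558a181d2a5a072d11932a3404aa59e0d2d5329412abb6b6da8c12b6906c8262d4e6d8006a891ae7b031a0166b445b803c76a7613628595090e0f43b301c44d24ad9c6ce24990c36998eac925dc74369864249c5b8f6449a4a8c07b1998c640aca11da21b3ab0cc199b991d814e00f1c0647522b6f1b942416c24dd82156db76d5582245ab92633c95480a400000000000000000000009a24d04e95a3a9ac193748623646887ab16096ab7062238b314d5b3b48261a458e28000000000000000000000091eb33d20b1d9a2461006595c0ed2d64b91c112602ae566d14059ddaa0537215b58e5876906ca159d32606b9336c22516cc65d91a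c80cb16aa822c2a995a9e94d486cc14d66e3aeab6a175ce658cb9a143623a436f0c1cb8194dce0a9dc822b196835085d11512801cad9bad32c14015b481131d4486e41219286c455484320b8b1432e0b8c6246b5b8450066625d8c8cc38cd996988c820a4dacaad39ea1e34842068da9ad1e6cd86490588e896b12706b9516449ba068b63299a40d9c195734e50eb24905c70daa54cccb474990e30014966aa6e29d14e94a4d262c2f666a84c78a89ec5da4474298dc10c5ccd3d71d46ab1c0c2a3b946926d45906c545c6b6c955aa42bda474e2e6d144eb4ecc4e58ca9d4e8148a41c54af2a6bd4370c49daf37738a42d674502c6436c405c0a3d4c86c241662c5898a16e98b81b924314d1570b88a862651a7662370acdb71bb869a8cf3d91d0233295e2eb5748aa60c0c9aa62ad8093a88b3a21211d1360ea0085a10e29c40c98d8595b6cda66ed2d98515650d1108752361051a208c3423141b492a976a96124aed7b56e1c1dd8c359520285501786ac2a769436803a9412c554092490532cda656e280cbb07802ce80b64016305d66d4a2d5ec4064b54000000015c52e6b39561744ac136556d24d406000000030b2aea8251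765369417a5ba5819ae1d05d5467529ace42ddd838e562882481ecad96eb52a56188a6596c064d0ab8e82d92c39a8f319539bc2dae4a4b93320371d5167a17662ce9302428dcd88599d1b30b3b4d225350f5936823b01a932e6b81d16a11c9e31e466156a00bae2c135b2602162ec31a4b3482d29714da3c0a45a989b65a215808dc9454ca79ab4199493356cda8cd42abb4649974811b99931c4d9431350b74a9c088c9e021142a8396e822714748b2d38cac9d6e0a49806db29a263b752587b3523b7262cb10d1341522b1a5d80ba37b3b3486c4758cc19a6e36041727192daad14a38a18aba5c250ac2cc5123259945c3271e11352b01885319572d586110356a0ac83a4a15dab00ab97208393356a3650c312ca56804c110c51aa35409e8d0d998501a4a30662641a953719880d36b40e3c9eccc41cca202d95b919a345ad489b643900206e60e09906f362851eb994e4b26c8205b8666ee254ab58a13920c42894eb66e4d0462db1729590d261006626b5b562dc65332a9638352054410452dc944001940440055b122935237040a8c4314c2a51927600598ec480c6a4d5c96cd54a232ea89834355633b2924d2848db06e233d136cc4d8aca1022ec2442831a33a9180d36d6575d9940088d4126a1d736a29418d0a5732f0ab55266b2b10d85924890385b1adb398d85845ecd308170a99a365aac18558095e745185b31b29c013ab71e2ac9b6ccc5456020252b50b5d10b1dc1eb69336c9594e12cdb6a30d11c2b6ab600d09a00772600020d1e48131ab86982c59bb1703db22a5ad8c868444e8409c202c1d4bdb018828007640004026e049388d86230008d8806a23004e040180c41c000000000000000000000069a8b053a2a06b7662caf5d0e188)]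
noncomputable def c7_9318_1 : List Nat := [(nat_lit 0xe18cd73b287b5b80aa6344a2e980000000000000000000000c41c060011890302a900ec08030386c0e2491a92010005b100220e036ccdc43220c487492e2d81099425c65a6badc0482294f131980a2e042bb16b50d4b86c2184c171e86d94dac0aea60662279226db98d5ca14d7217236008074550bdb692a38002b2f42f1b29d2d18515e760195184aad94a7a23190834f66506653a3db272d1884a49251b052ac9e915ca8ccbd52330611a2ed1d62e9044e02045a575d94a42475212da3631c223024095c21d530c1c1848822839145e4b3c98b2e895159098a8b6b324072988e9308093516e9b9c8cad4eb927256eab764a947594c4c096c180d15012b99580db27703881268dba5d2285312222886564710c4974cd90dd61598436d74a2425898a5cac44eade8636420b692c8d17ae710a1bcd85a08c688243651b2250ebbb4d2a533990c33b24169728761ce614d4da6125616838756c004b81e32a0520a1512d0bb002f6560a0381e10444d12ab0096961ab15ad2d1b8f5a9a6ddc6d553b20665c8570b35e210a63956a40a03a617498d88344f19588a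ec1515ecb0691a1b6da6860e03a3cab10b574b15854ab68cdb468a30c0258a1500aab04302e051e71c346ad94512e21ac95395e2f597474c173825533d1c016834370b12a658b58eb4ae33269b2ce3947a15496de16c0835583b434dd14264d5b61ab9316d7408164338b1724a6a36bd31d10b0a75388275cd1d38ed007136a4948b03c2878ed918e1389822d16d0106a2ee75eac9db471e432436500314a69a8b33310eccc04e95999e51571b00bd2326c8eda3378d583ce278cb25a240264a82e986cd64d5082e5a4b66b9624c8cc049ae4a18163ad87b5453735da9da5706d66b65cb51254e5140000d6e79d56bda60ee15ab14902554c82732d1482a64bc2e419d12b4bac872800b644c590331b584451bb0da59688249242a8e48237101362cd8d41dc33222a111222e9876ac631bbb3b5d920c95dac5649b08a020434e1630c61b22f485404a4d1ab5b22c8e55cdb0349a34944995c000cc0605710da98a04c15e505c4912d4745496210d5526a9d673b1685098ad9e785d30d5b8db7918dc0f634a2d43115198ea9a286491b119d35a11d03395234d7222db0cb9d04bb4b7968cc6a93726e15112d662d293549b75cceab0800821af08a31148ec923a0671d68c28cba5c66a8a454c828ce46821ba94c5210daf272587370572b60818a46d3b031c26319c455281c9635a859d56ba9cf4b136db6cd8334610d4a6862a69e75eaeac59cc9611593b967b5c451116b4c99d85134122765da1db284275670c243918a0141a53460ca24d8465bb4465bd51cceb62a1d1acb1c4d932352632cc060a36128b2761440d8db68)]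
noncomputable def T7_9318 : Op := Op.mk (nat_lit 73)
 (Tr.nd (nat_lit 148) (nat_lit 1) (nat_lit 63) (nat_lit 3332) c7_9318_0
 (Tr.nd (nat_lit 64) (nat_lit 5) (nat_lit 23) (nat_lit 1596) c7_9318_0
 (Tr.nd (nat_lit 49) (nat_lit 1) (nat_lit 154) (nat_lit 337) c7_9318_0
 (Tr.nd (nat_lit 9) (nat_lit 1) (nat_lit 24) (nat_lit 275) c7_9318_0
 (Tr.nd (nat_lit 7) (nat_lit 1) (nat_lit 61) (nat_lit 98) c7_9318_0
 (Tr.nd (nat_lit 1) (nat_lit 1) (nat_lit 61) (nat_lit 37) c7_9318_0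
 (Tr.nd (nat_lit 0) (nat_lit 1) (nat_lit 37) (nat_lit 0) c7_9318_0
 Tr.lf Tr.lf) Tr.lf) (Tr.nd (nat_lit 8) (nat_lit 1) (nat_lit 116) (nat_lit 159) c7_9318_0
 Tr.lf Tr.lf)) (Tr.nd (nat_lit 16) (nat_lit 2) (nat_lit 5) (nat_lit 325) c7_9318_0
 (Tr.nd (nat_lit 15) (nat_lit 1) (nat_lit 24) (nat_lit 301) c7_9318_0
 (Tr.nd (nat_lit 10) (nat_lit 1) (nat_lit 2) (nat_lit 299) c7_9318_0
 Tr.lf Tr.lf) Tr.lf) (Tr.nd (nat_lit 22) (nat_lit 1) (nat_lit 2) (nat_lit 335) c7_9318_0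
 Tr.lf Tr.lf))) (Tr.nd (nat_lit 57) (nat_lit 3) (nat_lit 100) (nat_lit 1110) c7_9318_0
 (Tr.nd (nat_lit 52) (nat_lit 1) (nat_lit 6) (nat_lit 828) c7_9318_0
 (Tr.nd (nat_lit 51) (nat_lit 1) (nat_lit 61) (nat_lit 767) c7_9318_0
 (Tr.nd (nat_lit 50) (nat_lit 1) (nat_lit 276) (nat_lit 491) c7_9318_0
 Tr.lf Tr.lf) Tr.lf) (Tr.nd (nat_lit 56) (nat_lit 1) (nat_lit 276) (nat_lit 834) c7_9318_0
 Tr.lf Tr.lf)) (Tr.nd (nat_lit 59) (nat_lit 5) (nat_lit 2) (nat_lit 1525) c7_9318_0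
 (Tr.nd (nat_lit 58) (nat_lit 5) (nat_lit 23) (nat_lit 1410) c7_9318_0
 Tr.lf Tr.lf) (Tr.nd (nat_lit 63) (nat_lit 1) (nat_lit 61) (nat_lit 1535) c7_9318_0
 Tr.lf Tr.lf)))) (Tr.nd (nat_lit 107) (nat_lit 10) (nat_lit 17) (nat_lit 2504) c7_9318_0
 (Tr.nd (nat_lit 100) (nat_lit 2) (nat_lit 37) (nat_lit 1951) c7_9318_0
 (Tr.nd (nat_lit 71) (nat_lit 5) (nat_lit 2) (nat_lit 1787) c7_9318_0
 (Tr.nd (nat_lit 70) (nat_lit 1) (nat_lit 6) (nat_lit 1781) c7_9318_0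
 (Tr.nd (nat_lit 65) (nat_lit 10) (nat_lit 7) (nat_lit 1711) c7_9318_0
 Tr.lf Tr.lf) Tr.lf) (Tr.nd (nat_lit 99) (nat_lit 1) (nat_lit 154) (nat_lit 1797) c7_9318_0
 Tr.lf Tr.lf)) (Tr.nd (nat_lit 105) (nat_lit 1) (nat_lit 154) (nat_lit 2035) c7_9318_0
 (Tr.nd (nat_lit 101) (nat_lit 2) (nat_lit 5) (nat_lit 2025) c7_9318_0
 Tr.lf Tr.lf) (Tr.nd (nat_lit 106) (nat_lit 5) (nat_lit 63) (nat_lit 2189) c7_9318_0
 Tr.lf Tr.lf))) (Tr.nd (nat_lit 115) (nat_lit 63) (nat_lit 1) (nat_lit 3162) c7_9318_0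
 (Tr.nd (nat_lit 113) (nat_lit 10) (nat_lit 17) (nat_lit 2782) c7_9318_0
 (Tr.nd (nat_lit 112) (nat_lit 2) (nat_lit 37) (nat_lit 2708) c7_9318_0
 (Tr.nd (nat_lit 108) (nat_lit 17) (nat_lit 2) (nat_lit 2674) c7_9318_0
 Tr.lf Tr.lf) Tr.lf) (Tr.nd (nat_lit 114) (nat_lit 30) (nat_lit 7) (nat_lit 2952) c7_9318_0
 Tr.lf Tr.lf)) (Tr.nd (nat_lit 120) (nat_lit 17) (nat_lit 2) (nat_lit 3235) c7_9318_0
 (Tr.nd (nat_lit 119) (nat_lit 2) (nat_lit 5) (nat_lit 3225) c7_9318_0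
 Tr.lf Tr.lf) (Tr.nd (nat_lit 121) (nat_lit 63) (nat_lit 1) (nat_lit 3269) c7_9318_0
 Tr.lf Tr.lf))))) (Tr.nd (nat_lit 206) (nat_lit 61) (nat_lit 1) (nat_lit 1065) c7_9318_1
 (Tr.nd (nat_lit 163) (nat_lit 63) (nat_lit 5) (nat_lit 170) c7_9318_1
 (Tr.nd (nat_lit 156) (nat_lit 17) (nat_lit 10) (nat_lit 3659) c7_9318_0
 (Tr.nd (nat_lit 154) (nat_lit 1) (nat_lit 63) (nat_lit 3441) c7_9318_0
 (Tr.nd (nat_lit 150) (nat_lit 4) (nat_lit 3) (nat_lit 3429) c7_9318_0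
 (Tr.nd (nat_lit 149) (nat_lit 2) (nat_lit 17) (nat_lit 3395) c7_9318_0
 Tr.lf Tr.lf) Tr.lf) (Tr.nd (nat_lit 155) (nat_lit 5) (nat_lit 31) (nat_lit 3504) c7_9318_0
 Tr.lf Tr.lf)) (Tr.nd (nat_lit 161) (nat_lit 2) (nat_lit 17) (nat_lit 3903) c7_9318_0
 (Tr.nd (nat_lit 157) (nat_lit 37) (nat_lit 2) (nat_lit 3829) c7_9318_0
 Tr.lf Tr.lf) (Tr.nd (nat_lit 162) (nat_lit 17) (nat_lit 10) (nat_lit 0) c7_9318_1
 Tr.lf Tr.lf))) (Tr.nd (nat_lit 198) (nat_lit 2) (nat_lit 5) (nat_lit 879) c7_9318_1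
 (Tr.nd (nat_lit 169) (nat_lit 37) (nat_lit 2) (nat_lit 651) c7_9318_1
 (Tr.nd (nat_lit 168) (nat_lit 4) (nat_lit 3) (nat_lit 639) c7_9318_1
 (Tr.nd (nat_lit 164) (nat_lit 154) (nat_lit 1) (nat_lit 485) c7_9318_1
 Tr.lf Tr.lf) Tr.lf) (Tr.nd (nat_lit 170) (nat_lit 154) (nat_lit 1) (nat_lit 725) c7_9318_1
 Tr.lf Tr.lf)) (Tr.nd (nat_lit 204) (nat_lit 5) (nat_lit 11) (nat_lit 895) c7_9318_1
 (Tr.nd (nat_lit 199) (nat_lit 6) (nat_lit 1) (nat_lit 889) c7_9318_1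
 Tr.lf Tr.lf) (Tr.nd (nat_lit 205) (nat_lit 23) (nat_lit 5) (nat_lit 950) c7_9318_1
 Tr.lf Tr.lf)))) (Tr.nd (nat_lit 247) (nat_lit 2) (nat_lit 1) (nat_lit 2324) c7_9318_1
 (Tr.nd (nat_lit 217) (nat_lit 6) (nat_lit 1) (nat_lit 1827) c7_9318_1
 (Tr.nd (nat_lit 212) (nat_lit 100) (nat_lit 3) (nat_lit 1251) c7_9318_1
 (Tr.nd (nat_lit 211) (nat_lit 23) (nat_lit 5) (nat_lit 1136) c7_9318_1
 (Tr.nd (nat_lit 210) (nat_lit 2) (nat_lit 5) (nat_lit 1126) c7_9318_1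
 Tr.lf Tr.lf) Tr.lf) (Tr.nd (nat_lit 213) (nat_lit 276) (nat_lit 1) (nat_lit 1551) c7_9318_1
 Tr.lf Tr.lf)) (Tr.nd (nat_lit 219) (nat_lit 276) (nat_lit 1) (nat_lit 1894) c7_9318_1
 (Tr.nd (nat_lit 218) (nat_lit 61) (nat_lit 1) (nat_lit 1833) c7_9318_1
 Tr.lf Tr.lf) (Tr.nd (nat_lit 220) (nat_lit 154) (nat_lit 1) (nat_lit 2170) c7_9318_1
 Tr.lf Tr.lf))) (Tr.nd (nat_lit 261) (nat_lit 116) (nat_lit 1) (nat_lit 2388) c7_9318_1
 (Tr.nd (nat_lit 259) (nat_lit 2) (nat_lit 1) (nat_lit 2362) c7_9318_1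
 (Tr.nd (nat_lit 254) (nat_lit 24) (nat_lit 1) (nat_lit 2338) c7_9318_1
 (Tr.nd (nat_lit 253) (nat_lit 4) (nat_lit 3) (nat_lit 2326) c7_9318_1
 Tr.lf Tr.lf) Tr.lf) (Tr.nd (nat_lit 260) (nat_lit 24) (nat_lit 1) (nat_lit 2364) c7_9318_1
 Tr.lf Tr.lf)) (Tr.nd (nat_lit 268) (nat_lit 61) (nat_lit 1) (nat_lit 2565) c7_9318_1
 (Tr.nd (nat_lit 262) (nat_lit 61) (nat_lit 1) (nat_lit 2504) c7_9318_1
 Tr.lf Tr.lf) (Tr.nd (nat_lit 269) (nat_lit 37) (nat_lit 1) (nat_lit 2626) c7_9318_1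
 Tr.lf Tr.lf))))))

noncomputable def c7_9812_0 : List Nat := [(nat_lit 0xa94232a64058474d29a5025e78c128a8cd6ad9e86046a69d084470b327a55435a65822a2c4b0a9b9c78e56ec70a601298888e83ad160a5d8d95027a4b8c61495dccb1204962e6ac86f14528a9dad713784badbb4ccac6389924393471db123404ecb31af5c96071a5ca810c1462d5650c63311890b0e659286246b19009221a10aab685b2d33953850a8351a0d05872bcc81108334ee2cc169105832291394b5a028276800032a8b72d5623814687a5464d3044c243b71af3d6c35e42ca6801e0e22e3d76b8948b0a82cb96e9498528530715a2aea80c2ca01ac089218a97aa0d49616685abcd608dda9445193a9bc326306c05a45682e18282d239c4ee048424d0286568d2345042a6c5d0a50f0ae84e3a02108a818f15322f0c2ab5c8b025a2abcd3c308444261a98c5c9b03041825924d10662bace836c0811285901342522540042b8a20c2344045b5d4cbc6acb20d1cb338607120318248e3807b6768605d4d04814a35a61da94345c9ed5baf6952c02a8a980ac424919872364e6f4ad276d90ec75aeb3661351362c8c5b45b8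28448b33c9da5e080610b43546b082d10dace978550e9128712616188ea0d1a7090928dc5c2f0d425a44034d06948b4d96d350e066175bbb071804835945b2db254b2d309830603545b6062842d4f60a60c20c0bb64410a82b0d760ac6223a391021508cba23b5ba371851cc2a495558d33128b8000000000000086ea8e5450004d68a322819d459366d2e05072288600547347620470c641c100516716e8441129cca86307490928b510d7671db9a7134d62d3ca60b34ea0325627004160320808d4a9601569e43459a67269a8d3d6b8f6b82899449000000000000000000000000000000000000000000000000000000000000000000014190d0464e74023257358300000000000000000000000000000000000000000000030c04324a8e1901c486c9a4000000005ed72c029304c90000000094a672800000001382b52500554caaec751607a60eaa9254691a2d0265c35b62d5080b0c5c11703816dac0556209320d63ae18541aaa6486c1a3221a622a8db8505128f361b65bdacd64ad205978628a520448211c052c6c54105725ced25bad1d6d0a54ec25b87379a14144090a875ae898b04020e33004b6f30d665a603ab32c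d14d250730551d68045d5bd2940e1553832ab545089c31b05af5d31d1805e465a0308b10d61c00b14eadb1769540896255896f69b601dba45704324cd788c3179629859654e65aaeda08829418514742002b01b0049824d563000c41cdb8d018cd7184e086100751a18374c8594e00461b7944480968694c411858c653c426340a0ac3813023d72571b8a70cd2076ab71c8c902048d5a8f149914431916a93201b1835866d56b0a0a376a50c9e77214b32c8985733543240464c045984455d53238868c48c26cd6c65915064000000069959ed6226519e02374ea657657b13a9355a0a1a690aa000335aa740b216aa58d2601150035336a9d70c52ab034861bac26430b1929202516682d1132e88eb993426c9132a80225a292a10cab4d49ac18465ce179372169652a49e83597580b2a4b4d324aa943320ca1b11080919bcd9d03676b61ab6593d5bc32122c8cada72c8f68a0889b2c309021563cc881b4eed4da96c96c72a4b9ad30163086066a4057361341a2d9ca44055b846ae169b2c6996924830f1d0171d894843103d6698a0c890d58189521c604b954149a8070d03366904144030a00bab8f62cbc31c90b8c0ea2262e1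9683700f48a6003018c0696c048db2c40c3028121c5900d8180286d9226bc287704e8106135a9a4e2b30501284c45803b2dcc0050045c29842b11d10173cb6ccb4131b1da4ae8540b416ac6593983763994cc19129b501c2055cd0b0a5614361212652badd842aac4496ed0e51d00000000000000000000000000000000000000000000000000000000014ed81d8e82e7240000191369902e5b6646c76a51b0904680151a152c800300d441a150481e0841a11300841ad10a8a596684a24d0346f1689b6642d02900090649b79b0048052314956c64326f28cea180024514b12462716118db030)]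
noncomputable def c7_9812_1 : List Nat := [(nat_lit 0x1806dc283389c0939228a4000c5c5c59b582c1ba92381a048006f36d2c24000340b42d2d25339b980a4949302c58072c90d8b3b6ac20826ca32cb01546592ad2cc0108d50814a0906e256b94ad2db190b4d8060c000923d44c76236c68000000000000000000000000000000000000000000000000000000000b20b693a4b582b60028d44b1c1c0924995ac34d33580a61326a409148a8463436c0c633604d7a3d5875588b49d203a5cc1040dc4e8cb470569b68b884cb2c603502acae2092e05428de32590d6508a60c13907988853526ae4750b60b63512666d3cd929b292398d149981a916c319d01558875096386659d9c775005180828824d29626188174882ab58038c1)]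
noncomputable def T7_9812 : Op := Op.mk (nat_lit 79)
 (Tr.nd (nat_lit 148) (nat_lit 1) (nat_lit 63) (nat_lit 2439) c7_9812_0
 (Tr.nd (nat_lit 63) (nat_lit 1) (nat_lit 11) (nat_lit 1167) c7_9812_0
 (Tr.nd (nat_lit 49) (nat_lit 1) (nat_lit 100) (nat_lit 224) c7_9812_0
 (Tr.nd (nat_lit 9) (nat_lit 1) (nat_lit 24) (nat_lit 183) c7_9812_0
 (Tr.nd (nat_lit 7) (nat_lit 1) (nat_lit 24) (nat_lit 84) c7_9812_0
 (Tr.nd (nat_lit 1) (nat_lit 1) (nat_lit 61) (nat_lit 23) c7_9812_0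
 (Tr.nd (nat_lit 0) (nat_lit 1) (nat_lit 23) (nat_lit 0) c7_9812_0
 Tr.lf Tr.lf) Tr.lf) (Tr.nd (nat_lit 8) (nat_lit 1) (nat_lit 75) (nat_lit 108) c7_9812_0
 Tr.lf Tr.lf)) (Tr.nd (nat_lit 15) (nat_lit 1) (nat_lit 7) (nat_lit 211) c7_9812_0
 (Tr.nd (nat_lit 10) (nat_lit 1) (nat_lit 4) (nat_lit 207) c7_9812_0
 Tr.lf Tr.lf) (Tr.nd (nat_lit 16) (nat_lit 2) (nat_lit 3) (nat_lit 218) c7_9812_0
 Tr.lf Tr.lf))) (Tr.nd (nat_lit 56) (nat_lit 1) (nat_lit 116) (nat_lit 723) c7_9812_0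
 (Tr.nd (nat_lit 51) (nat_lit 1) (nat_lit 100) (nat_lit 600) c7_9812_0
 (Tr.nd (nat_lit 50) (nat_lit 1) (nat_lit 276) (nat_lit 324) c7_9812_0
 Tr.lf Tr.lf) (Tr.nd (nat_lit 52) (nat_lit 1) (nat_lit 23) (nat_lit 700) c7_9812_0
 Tr.lf Tr.lf)) (Tr.nd (nat_lit 58) (nat_lit 5) (nat_lit 23) (nat_lit 1022) c7_9812_0
 (Tr.nd (nat_lit 57) (nat_lit 3) (nat_lit 61) (nat_lit 839) c7_9812_0
 Tr.lf Tr.lf) (Tr.nd (nat_lit 59) (nat_lit 5) (nat_lit 6) (nat_lit 1137) c7_9812_0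
 Tr.lf Tr.lf)))) (Tr.nd (nat_lit 106) (nat_lit 5) (nat_lit 37) (nat_lit 1619) c7_9812_0
 (Tr.nd (nat_lit 100) (nat_lit 2) (nat_lit 63) (nat_lit 1392) c7_9812_0
 (Tr.nd (nat_lit 65) (nat_lit 10) (nat_lit 3) (nat_lit 1208) c7_9812_0
 (Tr.nd (nat_lit 64) (nat_lit 5) (nat_lit 6) (nat_lit 1178) c7_9812_0
 Tr.lf Tr.lf) (Tr.nd (nat_lit 99) (nat_lit 1) (nat_lit 154) (nat_lit 1238) c7_9812_0
 Tr.lf Tr.lf)) (Tr.nd (nat_lit 102) (nat_lit 2) (nat_lit 3) (nat_lit 1552) c7_9812_0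
 (Tr.nd (nat_lit 101) (nat_lit 2) (nat_lit 17) (nat_lit 1518) c7_9812_0
 Tr.lf Tr.lf) (Tr.nd (nat_lit 105) (nat_lit 1) (nat_lit 61) (nat_lit 1558) c7_9812_0
 Tr.lf Tr.lf))) (Tr.nd (nat_lit 112) (nat_lit 2) (nat_lit 7) (nat_lit 2082) c7_9812_0
 (Tr.nd (nat_lit 108) (nat_lit 17) (nat_lit 5) (nat_lit 1974) c7_9812_0
 (Tr.nd (nat_lit 107) (nat_lit 10) (nat_lit 17) (nat_lit 1804) c7_9812_0
 Tr.lf Tr.lf) (Tr.nd (nat_lit 109) (nat_lit 23) (nat_lit 1) (nat_lit 2059) c7_9812_0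
 Tr.lf Tr.lf)) (Tr.nd (nat_lit 114) (nat_lit 30) (nat_lit 7) (nat_lit 2166) c7_9812_0
 (Tr.nd (nat_lit 113) (nat_lit 10) (nat_lit 7) (nat_lit 2096) c7_9812_0
 Tr.lf Tr.lf) (Tr.nd (nat_lit 115) (nat_lit 63) (nat_lit 1) (nat_lit 2376) c7_9812_0
 Tr.lf Tr.lf))))) (Tr.nd (nat_lit 204) (nat_lit 5) (nat_lit 6) (nat_lit 3545) c7_9812_0
 (Tr.nd (nat_lit 158) (nat_lit 61) (nat_lit 1) (nat_lit 3101) c7_9812_0
 (Tr.nd (nat_lit 154) (nat_lit 1) (nat_lit 23) (nat_lit 2638) c7_9812_0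
 (Tr.nd (nat_lit 150) (nat_lit 4) (nat_lit 11) (nat_lit 2564) c7_9812_0
 (Tr.nd (nat_lit 149) (nat_lit 2) (nat_lit 31) (nat_lit 2502) c7_9812_0
 Tr.lf Tr.lf) (Tr.nd (nat_lit 151) (nat_lit 6) (nat_lit 5) (nat_lit 2608) c7_9812_0
 Tr.lf Tr.lf)) (Tr.nd (nat_lit 156) (nat_lit 17) (nat_lit 10) (nat_lit 2746) c7_9812_0
 (Tr.nd (nat_lit 155) (nat_lit 5) (nat_lit 17) (nat_lit 2661) c7_9812_0
 Tr.lf Tr.lf) (Tr.nd (nat_lit 157) (nat_lit 37) (nat_lit 5) (nat_lit 2916) c7_9812_0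
 Tr.lf Tr.lf))) (Tr.nd (nat_lit 164) (nat_lit 154) (nat_lit 1) (nat_lit 3328) c7_9812_0
 (Tr.nd (nat_lit 162) (nat_lit 17) (nat_lit 2) (nat_lit 3168) c7_9812_0
 (Tr.nd (nat_lit 161) (nat_lit 2) (nat_lit 3) (nat_lit 3162) c7_9812_0
 Tr.lf Tr.lf) (Tr.nd (nat_lit 163) (nat_lit 63) (nat_lit 2) (nat_lit 3202) c7_9812_0
 Tr.lf Tr.lf)) (Tr.nd (nat_lit 199) (nat_lit 6) (nat_lit 5) (nat_lit 3504) c7_9812_0
 (Tr.nd (nat_lit 198) (nat_lit 2) (nat_lit 11) (nat_lit 3482) c7_9812_0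
 Tr.lf Tr.lf) (Tr.nd (nat_lit 200) (nat_lit 11) (nat_lit 1) (nat_lit 3534) c7_9812_0
 Tr.lf Tr.lf)))) (Tr.nd (nat_lit 247) (nat_lit 2) (nat_lit 3) (nat_lit 476) c7_9812_1
 (Tr.nd (nat_lit 211) (nat_lit 23) (nat_lit 1) (nat_lit 3989) c7_9812_0
 (Tr.nd (nat_lit 206) (nat_lit 61) (nat_lit 3) (nat_lit 3690) c7_9812_0
 (Tr.nd (nat_lit 205) (nat_lit 23) (nat_lit 5) (nat_lit 3575) c7_9812_0
 Tr.lf Tr.lf) (Tr.nd (nat_lit 207) (nat_lit 116) (nat_lit 1) (nat_lit 3873) c7_9812_0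
 Tr.lf Tr.lf)) (Tr.nd (nat_lit 213) (nat_lit 276) (nat_lit 1) (nat_lit 100) c7_9812_1
 (Tr.nd (nat_lit 212) (nat_lit 100) (nat_lit 1) (nat_lit 0) c7_9812_1
 Tr.lf Tr.lf) (Tr.nd (nat_lit 214) (nat_lit 100) (nat_lit 1) (nat_lit 376) c7_9812_1
 Tr.lf Tr.lf))) (Tr.nd (nat_lit 255) (nat_lit 75) (nat_lit 1) (nat_lit 517) c7_9812_1
 (Tr.nd (nat_lit 253) (nat_lit 4) (nat_lit 1) (nat_lit 489) c7_9812_1
 (Tr.nd (nat_lit 248) (nat_lit 7) (nat_lit 1) (nat_lit 482) c7_9812_1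
 Tr.lf Tr.lf) (Tr.nd (nat_lit 254) (nat_lit 24) (nat_lit 1) (nat_lit 493) c7_9812_1
 Tr.lf Tr.lf)) (Tr.nd (nat_lit 262) (nat_lit 61) (nat_lit 1) (nat_lit 616) c7_9812_1
 (Tr.nd (nat_lit 256) (nat_lit 24) (nat_lit 1) (nat_lit 592) c7_9812_1
 Tr.lf Tr.lf) (Tr.nd (nat_lit 263) (nat_lit 23) (nat_lit 1) (nat_lit 677) c7_9812_1
 Tr.lf Tr.lf))))))

noncomputable def c7_9572_0 : List Nat := [(nat_lit 0x6131627608bdb60a200399caa051c616aa1b04926c8e9aa6a48821054a8860b1cb584b6066202d0925581534d15c3608ab0cb200a1131caf3acad5278091c570cce219c6aa92202345111a83c0096b4146a135e245323545d2cc4291b1a10b579ca6a7a8b2518a1b0982181a83d66ce0d160f2015dad949aa9376a8a51240ab598424d3d954f0420930d8cb584a58b4a6cad8025d58841548183d6c526b4d9b52f02ac00002ea862ed9a1d4b41910065e61104e0113a2090062401993a1d004293adca8a7aac96aa910106164d2f4ad8b55b92ca6272549bb68541a616a659c02b195637a01a839b66d2f2c420c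6d34743d830eba7319d565600d2a626c2a3660eac019a52993238f6d68b736e86dd54954a6680e0baa0868326a6ac15989b444c129a10bb3b26d022036a0d4b64255b4f52ec2958ec72a3b28e2254025cf1870ac1c1e0730754a520e62c030070c25061d706d9914764d9678164596893518080012e4198ec41063085912d8a08808916047342841994a93b3d2588c02a8358088d4b5cc5dd135256d17683212d901a929cea2e47b2941b7245b20d802ac34207b24558e04764d37b3aa61293b6adeca4aa5298205c20202d1316a95b8d30237680ee681c766d824a713b12ad220c67454a91c534109c2a3a1d93213d43d5dd84b0c4752e21accf25ad8a1d23463a336231592d54dc9507767a52e159056e146311ac0000000000000a598d847100066165a80693110b9a300a56b136674013ce3a6e601addcf0a5dac6496833b9daae5196b0a839406334ce7980cd02ed9ac7648bb5e95d6462f179599ea9502a573d2acce6702ebb33b594b6393db5029603cf169e0c0000000000000000000000000000000000000000000000000000000000000000000004a1dbb3cdab456edba4c92000000000000000000000000000000000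000000000000d5ba88099b1e285d8b61e6800000006d444e7906c462400000002c24433000000002978e9a00344dd2c905d2a1c28d6a0b2319b65d1e6ac634ca475c61895a68ac463a5b5829a754d2d8d0662041db5655da3cd06aecc392e74b42cd21988354983760058590071aa5c50922ca26b364b5162ee9744921098c8c2bc2865a70095351ecd86116cec16305daa2114e0668956a6b0dcc30a2d8f671c4a3a28a20b3022ba9008c436b316f578469259b224665943122a34082a08915d831815a05288030f55293662d92e351b951461a8c8a4a6194bd888238618a42db1ae308b06188180943c41b12b88788cc621d18c3809ab94c4995715a28d336293336b6e840d76c0156c14a1ca36f50c636598e93407325cd10585c1209e23381908d07596bc2b4eda05393ce465216e858ca3d29546d03566003b2aaf078d75863662b9a6c1840e599b4b6f117013372a2e54062cb568d3088cdb526a589d164b5aad0dd999a4b308220355c8000000089a79289eb53245b922922581b502004a0e4088283ccb00002e95e389ae30a9505c0501c10145e89ea1048972d65380d9165ae06eb81b56a90c518a4bb4640d485acaeba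04c4452d0728aa55cb95270bae2005a5c0e8ded2e72daf102b12887272d02368d05c94609629a0acc64383cf230189e856688b6ba1ec6ab62aed46c01a7123851a9a80888830c5659261e925050080b98b0e393c233a48ac2f62a6a15b6ec18c460cddb178e8109b094424a590b4669c668a8541099e220532310db6650d89ca1308169bb09a84b4416d588253756192544f2d63a8c3a4c36c0c20d56452976ab5806c20999206a004020804acd4200e88c08980c40a5160120110044ba8da56086a8c800d90ea4554965488f0743b92b454735900180c24e658955e29c0ccd31d2c8b5075386a1dda3403995d856db80e651ca4a91145533a1b8a54294c5a308a0c106eaa4a2e12e3a25553224b64000000000000000000000000000000000000000000000000000000000075ac6b60c08db6000029c1a1863426333916a0042ce265e0c1d060c88404006353750c1033075375070071128c307210402d54e50ae9aa413d2161ab320006c2c591704c5a82c29245c0662d74e8cac426599a598a501498230249028)]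
noncomputable def c7_9572_1 : List Nat := [(nat_lit 0x1402491810d2222474b342cb40e45cc6bb43c06a09346415a1a1a82ce41b0005a54c3326682574d50692ba0063352519316836d9ca0e22d30639e02088827044021d333970ccb51e4081132b1783429c304c0b88000db604612dc1db8800000000000000000000000000000000000000000000000000000000064c3b24ccc63c648b0989152a9dc322cc0854a3048c5c58a9567664434598daae292a62ab8e4600d32f667365c891d88980a5d5a6d080ce2a26ea419113470625ade38488d134da30613586d5621d3056101e4b306d144c2875810d50842e086c8465c6b20831915484b42419480ed56b36292aa41846d8693185572e59a8892c3ba9b040eec829921741b5368)]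
noncomputable def T7_9572 : Op := Op.mk (nat_lit 79)
 (Tr.nd (nat_lit 148) (nat_lit 1) (nat_lit 63) (nat_lit 2439) c7_9572_0
 (Tr.nd (nat_lit 63) (nat_lit 1) (nat_lit 11) (nat_lit 1167) c7_9572_0
 (Tr.nd (nat_lit 49) (nat_lit 1) (nat_lit 100) (nat_lit 224) c7_9572_0
 (Tr.nd (nat_lit 9) (nat_lit 1) (nat_lit 24) (nat_lit 183) c7_9572_0
 (Tr.nd (nat_lit 7) (nat_lit 1) (nat_lit 24) (nat_lit 84) c7_9572_0
 (Tr.nd (nat_lit 1) (nat_lit 1) (nat_lit 61) (nat_lit 23) c7_9572_0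
 (Tr.nd (nat_lit 0) (nat_lit 1) (nat_lit 23) (nat_lit 0) c7_9572_0
 Tr.lf Tr.lf) Tr.lf) (Tr.nd (nat_lit 8) (nat_lit 1) (nat_lit 75) (nat_lit 108) c7_9572_0
 Tr.lf Tr.lf)) (Tr.nd (nat_lit 15) (nat_lit 1) (nat_lit 7) (nat_lit 211) c7_9572_0
 (Tr.nd (nat_lit 10) (nat_lit 1) (nat_lit 4) (nat_lit 207) c7_9572_0
 Tr.lf Tr.lf) (Tr.nd (nat_lit 16) (nat_lit 2) (nat_lit 3) (nat_lit 218) c7_9572_0
 Tr.lf Tr.lf))) (Tr.nd (nat_lit 56) (nat_lit 1) (nat_lit 116) (nat_lit 723) c7_9572_0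
 (Tr.nd (nat_lit 51) (nat_lit 1) (nat_lit 100) (nat_lit 600) c7_9572_0
 (Tr.nd (nat_lit 50) (nat_lit 1) (nat_lit 276) (nat_lit 324) c7_9572_0
 Tr.lf Tr.lf) (Tr.nd (nat_lit 52) (nat_lit 1) (nat_lit 23) (nat_lit 700) c7_9572_0
 Tr.lf Tr.lf)) (Tr.nd (nat_lit 58) (nat_lit 5) (nat_lit 23) (nat_lit 1022) c7_9572_0
 (Tr.nd (nat_lit 57) (nat_lit 3) (nat_lit 61) (nat_lit 839) c7_9572_0
 Tr.lf Tr.lf) (Tr.nd (nat_lit 59) (nat_lit 5) (nat_lit 6) (nat_lit 1137) c7_9572_0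
 Tr.lf Tr.lf)))) (Tr.nd (nat_lit 106) (nat_lit 5) (nat_lit 37) (nat_lit 1619) c7_9572_0
 (Tr.nd (nat_lit 100) (nat_lit 2) (nat_lit 63) (nat_lit 1392) c7_9572_0
 (Tr.nd (nat_lit 65) (nat_lit 10) (nat_lit 3) (nat_lit 1208) c7_9572_0
 (Tr.nd (nat_lit 64) (nat_lit 5) (nat_lit 6) (nat_lit 1178) c7_9572_0
 Tr.lf Tr.lf) (Tr.nd (nat_lit 99) (nat_lit 1) (nat_lit 154) (nat_lit 1238) c7_9572_0
 Tr.lf Tr.lf)) (Tr.nd (nat_lit 102) (nat_lit 2) (nat_lit 3) (nat_lit 1552) c7_9572_0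
 (Tr.nd (nat_lit 101) (nat_lit 2) (nat_lit 17) (nat_lit 1518) c7_9572_0
 Tr.lf Tr.lf) (Tr.nd (nat_lit 105) (nat_lit 1) (nat_lit 61) (nat_lit 1558) c7_9572_0
 Tr.lf Tr.lf))) (Tr.nd (nat_lit 112) (nat_lit 2) (nat_lit 7) (nat_lit 2082) c7_9572_0
 (Tr.nd (nat_lit 108) (nat_lit 17) (nat_lit 5) (nat_lit 1974) c7_9572_0
 (Tr.nd (nat_lit 107) (nat_lit 10) (nat_lit 17) (nat_lit 1804) c7_9572_0
 Tr.lf Tr.lf) (Tr.nd (nat_lit 109) (nat_lit 23) (nat_lit 1) (nat_lit 2059) c7_9572_0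
 Tr.lf Tr.lf)) (Tr.nd (nat_lit 114) (nat_lit 30) (nat_lit 7) (nat_lit 2166) c7_9572_0
 (Tr.nd (nat_lit 113) (nat_lit 10) (nat_lit 7) (nat_lit 2096) c7_9572_0
 Tr.lf Tr.lf) (Tr.nd (nat_lit 115) (nat_lit 63) (nat_lit 1) (nat_lit 2376) c7_9572_0
 Tr.lf Tr.lf))))) (Tr.nd (nat_lit 204) (nat_lit 5) (nat_lit 6) (nat_lit 3545) c7_9572_0
 (Tr.nd (nat_lit 158) (nat_lit 61) (nat_lit 1) (nat_lit 3101) c7_9572_0
 (Tr.nd (nat_lit 154) (nat_lit 1) (nat_lit 23) (nat_lit 2638) c7_9572_0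
 (Tr.nd (nat_lit 150) (nat_lit 4) (nat_lit 11) (nat_lit 2564) c7_9572_0
 (Tr.nd (nat_lit 149) (nat_lit 2) (nat_lit 31) (nat_lit 2502) c7_9572_0
 Tr.lf Tr.lf) (Tr.nd (nat_lit 151) (nat_lit 6) (nat_lit 5) (nat_lit 2608) c7_9572_0
 Tr.lf Tr.lf)) (Tr.nd (nat_lit 156) (nat_lit 17) (nat_lit 10) (nat_lit 2746) c7_9572_0
 (Tr.nd (nat_lit 155) (nat_lit 5) (nat_lit 17) (nat_lit 2661) c7_9572_0
 Tr.lf Tr.lf) (Tr.nd (nat_lit 157) (nat_lit 37) (nat_lit 5) (nat_lit 2916) c7_9572_0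
 Tr.lf Tr.lf))) (Tr.nd (nat_lit 164) (nat_lit 154) (nat_lit 1) (nat_lit 3328) c7_9572_0
 (Tr.nd (nat_lit 162) (nat_lit 17) (nat_lit 2) (nat_lit 3168) c7_9572_0
 (Tr.nd (nat_lit 161) (nat_lit 2) (nat_lit 3) (nat_lit 3162) c7_9572_0
 Tr.lf Tr.lf) (Tr.nd (nat_lit 163) (nat_lit 63) (nat_lit 2) (nat_lit 3202) c7_9572_0
 Tr.lf Tr.lf)) (Tr.nd (nat_lit 199) (nat_lit 6) (nat_lit 5) (nat_lit 3504) c7_9572_0
 (Tr.nd (nat_lit 198) (nat_lit 2) (nat_lit 11) (nat_lit 3482) c7_9572_0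
 Tr.lf Tr.lf) (Tr.nd (nat_lit 200) (nat_lit 11) (nat_lit 1) (nat_lit 3534) c7_9572_0
 Tr.lf Tr.lf)))) (Tr.nd (nat_lit 247) (nat_lit 2) (nat_lit 3) (nat_lit 476) c7_9572_1
 (Tr.nd (nat_lit 211) (nat_lit 23) (nat_lit 1) (nat_lit 3989) c7_9572_0
 (Tr.nd (nat_lit 206) (nat_lit 61) (nat_lit 3) (nat_lit 3690) c7_9572_0
 (Tr.nd (nat_lit 205) (nat_lit 23) (nat_lit 5) (nat_lit 3575) c7_9572_0
 Tr.lf Tr.lf) (Tr.nd (nat_lit 207) (nat_lit 116) (nat_lit 1) (nat_lit 3873) c7_9572_0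
 Tr.lf Tr.lf)) (Tr.nd (nat_lit 213) (nat_lit 276) (nat_lit 1) (nat_lit 100) c7_9572_1
 (Tr.nd (nat_lit 212) (nat_lit 100) (nat_lit 1) (nat_lit 0) c7_9572_1
 Tr.lf Tr.lf) (Tr.nd (nat_lit 214) (nat_lit 100) (nat_lit 1) (nat_lit 376) c7_9572_1
 Tr.lf Tr.lf))) (Tr.nd (nat_lit 255) (nat_lit 75) (nat_lit 1) (nat_lit 517) c7_9572_1
 (Tr.nd (nat_lit 253) (nat_lit 4) (nat_lit 1) (nat_lit 489) c7_9572_1
 (Tr.nd (nat_lit 248) (nat_lit 7) (nat_lit 1) (nat_lit 482) c7_9572_1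
 Tr.lf Tr.lf) (Tr.nd (nat_lit 254) (nat_lit 24) (nat_lit 1) (nat_lit 493) c7_9572_1
 Tr.lf Tr.lf)) (Tr.nd (nat_lit 262) (nat_lit 61) (nat_lit 1) (nat_lit 616) c7_9572_1
 (Tr.nd (nat_lit 256) (nat_lit 24) (nat_lit 1) (nat_lit 592) c7_9572_1
 Tr.lf Tr.lf) (Tr.nd (nat_lit 263) (nat_lit 23) (nat_lit 1) (nat_lit 677) c7_9572_1
 Tr.lf Tr.lf))))))

noncomputable def c7_9809_0 : List Nat := [(nat_lit 0x6434ce194925d8d2a6871a49cb5d68c80db062c39a0b3b891a2090a6439859a13011caf6ca36cb763a55b88830503af52a94749ac33174e86a2c21930c221c8226e4bb4429724a048607a3223118503c75192ab0c8b6527154f48c8ad186b136af2801575d20082455330915ab411d201c614b0574a6c0284f38320a528079ec01086c51cc93a6cb56f5c102f56e9a9ec08b89a907202012e29a5c5012403591a8ae14b40002b431aab6e9c188114e6125ce5aa4c9c85aaed55958d61e6160216997348698ac850104a2a65b48d75b8606da14d25dc054653aa32c355386c60c1093555e858d5dd30aa665302a0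1980520cc11c96103a1d7906ea61859ca91c632a8875ba5d4451841b709b05bad204a00729203baed85828732456416a6ec21159481946101cc4c4e2d40ce750a089614a8b71b9bb1b99c418c19c1101e71bd42af43a01ae884cd8055ce6b18402a6196c2957990ed71444ba5940ad62b45476815a224dd81c76bab5b36a8301a0920458202a27a086519403070a58675d94ba04200124414926b6db44058b59c4166dd5022c22274c0e8c23c09a5c961561269cc46c332bb9464d043b5e952cea3613ae6e96c0d80830a10b910083443204f426a975102542570c8aae9819a4038bd6c8629234958d4b1878bcf13995a98281743a4d68281d4e54b60e4d4359d919ad6864a813090eccd7aecc2cd885c7b0050014d40000000000000cc0776ca5000076388582c6b5653a49332ea734c2600a34591a300c326811818ac4de401cb36e878c48ac8579e018254b72c01cdb6e9731989af2ccbc5d4f04219306a0b444c690c0866ab399796749d0e8cd6db788196b6224303300000000000000000000000000000000000000000000000000000000000000000002b806042673d4339e8022ca00000000000000000000000000000000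00000000000009952b22945800e34a1a2e4c00000005466f488a3a60ca00000001dc2133600000002c335da0023c36b50cee8800881b38cc0de530408a722ae0d4875a955ae2cea3590064e92e2766c20dd773db0b88c4e56424028d78679d960d2e53229921b26590270409c19905556830db292a499a7547a878c62a55da7618d4893648e0c816cbd41a050d534dd1ac0942102cae0a6669da634e229374e6b5d2a5138d164ccdb788b801997441a58545ab0c8a1436cc10040a82b10b4116831888146d61d555c28b5193116176020bb28140ca4905a26928c84d454609582f3a9196c30d4020e5d1ea880de814d7013199d42e6c06f42c52c5185972714cdec5d41a86d1001add5885dcc8958265d683512eb283c88d84d4e52506036e59e2c044c2301301461640546c0834b2d556551c1a70e2958f20c355b0b3ac5620c96286841a042c054068bd151a6aee0ccceaba408610ec31aa9961571b0aa06ac9a684db10c6eba526cb54582008000000086429127475c764c0b8d5936a6329e16a49bad5b1eb20c00029613ad94a84298f3c21a889b0c73a26152c14acd132d8194b51a296da838c48079c5a01b3c52b9830a846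1400e3a03d1b26ba0c39c75b98d62c99b2469828e38856e6590ab2a16524aea7818361a1131a14429903b530a2712233291081201c0d04029414592508c54c68ec6c8d632910095ac1661d8b68cc94586a040c9dd1544495da932ca900842c4619613180baa2784740b162989ac02b6cc00917095d104c2a44a711a76b248b0c5a60b2c90426f5a4d0d0834a60791841a924b454ca2e0b4b0820e9847b5154a83a056042900c287609d9843a1d2b191434906ab159a2c9a8599292b79b6f6333664d2861b18e646d22b4c98824390844c4a64058ad15dd2120eb6c0b1b93a0316ac6ba81a48a149acaf5dad7a001a374174883a5828ec882db230b4a053449b6149bd593829014a0c75b13af18cac144dd5ac246bab4b666b49d38a33521b97635321b91c8a5669aad4c0a0c13225162802ac138320361a9785d1d4216f479ba9e734c65c4424e6e3303d556acaab545292da66012710eca5a0aa9aa51328541d01626e0a015c8ada40240641032476001186412323d8322b0d115163328254e54ed56929c113b6856)]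
noncomputable def c7_9809_1 : List Nat := [(nat_lit 0xc8cdb1286364caec6ac6a4117832a8298741636721482c30200d8a58020b00900db548e8110d49c8022074ccc0294da17ad88a745c9089ea5c38cd004d6b2b414b36159716b0e9a3cd56f399b302ae6a33340c365846865401432895a084501ab5534bb148e46c16a9dac6c1ba1471ad274bd92775c09972ada355c146e8a2e219229ae1704d5cad19a28cc406116d4b869caacb582101ab512769407a93567346cd1863256d008dcead55586d8d482355ccca6d8d086e19100b5b6a6b24dcea4f512690131b56e09468012cc40503528a33ba1c345634564369707162b5173cc9d8c418091803a056158a8bb3834c41065990d4586a99249520c2b310d984098a4db9b408259)]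
noncomputable def T7_9809 : Op := Op.mk (nat_lit 79)
 (Tr.nd (nat_lit 148) (nat_lit 1) (nat_lit 63) (nat_lit 2439) c7_9809_0
 (Tr.nd (nat_lit 63) (nat_lit 1) (nat_lit 11) (nat_lit 1167) c7_9809_0
 (Tr.nd (nat_lit 49) (nat_lit 1) (nat_lit 100) (nat_lit 224) c7_9809_0
 (Tr.nd (nat_lit 9) (nat_lit 1) (nat_lit 24) (nat_lit 183) c7_9809_0
 (Tr.nd (nat_lit 7) (nat_lit 1) (nat_lit 24) (nat_lit 84) c7_9809_0
 (Tr.nd (nat_lit 1) (nat_lit 1) (nat_lit 61) (nat_lit 23) c7_9809_0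
 (Tr.nd (nat_lit 0) (nat_lit 1) (nat_lit 23) (nat_lit 0) c7_9809_0
 Tr.lf Tr.lf) Tr.lf) (Tr.nd (nat_lit 8) (nat_lit 1) (nat_lit 75) (nat_lit 108) c7_9809_0
 Tr.lf Tr.lf)) (Tr.nd (nat_lit 15) (nat_lit 1) (nat_lit 7) (nat_lit 211) c7_9809_0
 (Tr.nd (nat_lit 10) (nat_lit 1) (nat_lit 4) (nat_lit 207) c7_9809_0
 Tr.lf Tr.lf) (Tr.nd (nat_lit 16) (nat_lit 2) (nat_lit 3) (nat_lit 218) c7_9809_0
 Tr.lf Tr.lf))) (Tr.nd (nat_lit 56) (nat_lit 1) (nat_lit 116) (nat_lit 723) c7_9809_0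
 (Tr.nd (nat_lit 51) (nat_lit 1) (nat_lit 100) (nat_lit 600) c7_9809_0
 (Tr.nd (nat_lit 50) (nat_lit 1) (nat_lit 276) (nat_lit 324) c7_9809_0
 Tr.lf Tr.lf) (Tr.nd (nat_lit 52) (nat_lit 1) (nat_lit 23) (nat_lit 700) c7_9809_0
 Tr.lf Tr.lf)) (Tr.nd (nat_lit 58) (nat_lit 5) (nat_lit 23) (nat_lit 1022) c7_9809_0
 (Tr.nd (nat_lit 57) (nat_lit 3) (nat_lit 61) (nat_lit 839) c7_9809_0
 Tr.lf Tr.lf) (Tr.nd (nat_lit 59) (nat_lit 5) (nat_lit 6) (nat_lit 1137) c7_9809_0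
 Tr.lf Tr.lf)))) (Tr.nd (nat_lit 106) (nat_lit 5) (nat_lit 37) (nat_lit 1619) c7_9809_0
 (Tr.nd (nat_lit 100) (nat_lit 2) (nat_lit 63) (nat_lit 1392) c7_9809_0
 (Tr.nd (nat_lit 65) (nat_lit 10) (nat_lit 3) (nat_lit 1208) c7_9809_0
 (Tr.nd (nat_lit 64) (nat_lit 5) (nat_lit 6) (nat_lit 1178) c7_9809_0
 Tr.lf Tr.lf) (Tr.nd (nat_lit 99) (nat_lit 1) (nat_lit 154) (nat_lit 1238) c7_9809_0
 Tr.lf Tr.lf)) (Tr.nd (nat_lit 102) (nat_lit 2) (nat_lit 3) (nat_lit 1552) c7_9809_0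
 (Tr.nd (nat_lit 101) (nat_lit 2) (nat_lit 17) (nat_lit 1518) c7_9809_0
 Tr.lf Tr.lf) (Tr.nd (nat_lit 105) (nat_lit 1) (nat_lit 61) (nat_lit 1558) c7_9809_0
 Tr.lf Tr.lf))) (Tr.nd (nat_lit 112) (nat_lit 2) (nat_lit 7) (nat_lit 2082) c7_9809_0
 (Tr.nd (nat_lit 108) (nat_lit 17) (nat_lit 5) (nat_lit 1974) c7_9809_0
 (Tr.nd (nat_lit 107) (nat_lit 10) (nat_lit 17) (nat_lit 1804) c7_9809_0
 Tr.lf Tr.lf) (Tr.nd (nat_lit 109) (nat_lit 23) (nat_lit 1) (nat_lit 2059) c7_9809_0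
 Tr.lf Tr.lf)) (Tr.nd (nat_lit 114) (nat_lit 30) (nat_lit 7) (nat_lit 2166) c7_9809_0
 (Tr.nd (nat_lit 113) (nat_lit 10) (nat_lit 7) (nat_lit 2096) c7_9809_0
 Tr.lf Tr.lf) (Tr.nd (nat_lit 115) (nat_lit 63) (nat_lit 1) (nat_lit 2376) c7_9809_0
 Tr.lf Tr.lf))))) (Tr.nd (nat_lit 204) (nat_lit 5) (nat_lit 6) (nat_lit 3545) c7_9809_0
 (Tr.nd (nat_lit 158) (nat_lit 61) (nat_lit 1) (nat_lit 3101) c7_9809_0
 (Tr.nd (nat_lit 154) (nat_lit 1) (nat_lit 23) (nat_lit 2638) c7_9809_0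
 (Tr.nd (nat_lit 150) (nat_lit 4) (nat_lit 11) (nat_lit 2564) c7_9809_0
 (Tr.nd (nat_lit 149) (nat_lit 2) (nat_lit 31) (nat_lit 2502) c7_9809_0
 Tr.lf Tr.lf) (Tr.nd (nat_lit 151) (nat_lit 6) (nat_lit 5) (nat_lit 2608) c7_9809_0
 Tr.lf Tr.lf)) (Tr.nd (nat_lit 156) (nat_lit 17) (nat_lit 10) (nat_lit 2746) c7_9809_0
 (Tr.nd (nat_lit 155) (nat_lit 5) (nat_lit 17) (nat_lit 2661) c7_9809_0
 Tr.lf Tr.lf) (Tr.nd (nat_lit 157) (nat_lit 37) (nat_lit 5) (nat_lit 2916) c7_9809_0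
 Tr.lf Tr.lf))) (Tr.nd (nat_lit 164) (nat_lit 154) (nat_lit 1) (nat_lit 3328) c7_9809_0
 (Tr.nd (nat_lit 162) (nat_lit 17) (nat_lit 2) (nat_lit 3168) c7_9809_0
 (Tr.nd (nat_lit 161) (nat_lit 2) (nat_lit 3) (nat_lit 3162) c7_9809_0
 Tr.lf Tr.lf) (Tr.nd (nat_lit 163) (nat_lit 63) (nat_lit 2) (nat_lit 3202) c7_9809_0
 Tr.lf Tr.lf)) (Tr.nd (nat_lit 199) (nat_lit 6) (nat_lit 5) (nat_lit 3504) c7_9809_0
 (Tr.nd (nat_lit 198) (nat_lit 2) (nat_lit 11) (nat_lit 3482) c7_9809_0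
 Tr.lf Tr.lf) (Tr.nd (nat_lit 200) (nat_lit 11) (nat_lit 1) (nat_lit 3534) c7_9809_0
 Tr.lf Tr.lf)))) (Tr.nd (nat_lit 247) (nat_lit 2) (nat_lit 3) (nat_lit 476) c7_9809_1
 (Tr.nd (nat_lit 211) (nat_lit 23) (nat_lit 1) (nat_lit 3989) c7_9809_0
 (Tr.nd (nat_lit 206) (nat_lit 61) (nat_lit 3) (nat_lit 3690) c7_9809_0
 (Tr.nd (nat_lit 205) (nat_lit 23) (nat_lit 5) (nat_lit 3575) c7_9809_0
 Tr.lf Tr.lf) (Tr.nd (nat_lit 207) (nat_lit 116) (nat_lit 1) (nat_lit 3873) c7_9809_0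
 Tr.lf Tr.lf)) (Tr.nd (nat_lit 213) (nat_lit 276) (nat_lit 1) (nat_lit 100) c7_9809_1
 (Tr.nd (nat_lit 212) (nat_lit 100) (nat_lit 1) (nat_lit 0) c7_9809_1
 Tr.lf Tr.lf) (Tr.nd (nat_lit 214) (nat_lit 100) (nat_lit 1) (nat_lit 376) c7_9809_1
 Tr.lf Tr.lf))) (Tr.nd (nat_lit 255) (nat_lit 75) (nat_lit 1) (nat_lit 517) c7_9809_1
 (Tr.nd (nat_lit 253) (nat_lit 4) (nat_lit 1) (nat_lit 489) c7_9809_1
 (Tr.nd (nat_lit 248) (nat_lit 7) (nat_lit 1) (nat_lit 482) c7_9809_1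
 Tr.lf Tr.lf) (Tr.nd (nat_lit 254) (nat_lit 24) (nat_lit 1) (nat_lit 493) c7_9809_1
 Tr.lf Tr.lf)) (Tr.nd (nat_lit 262) (nat_lit 61) (nat_lit 1) (nat_lit 616) c7_9809_1
 (Tr.nd (nat_lit 256) (nat_lit 24) (nat_lit 1) (nat_lit 592) c7_9809_1
 Tr.lf Tr.lf) (Tr.nd (nat_lit 263) (nat_lit 23) (nat_lit 1) (nat_lit 677) c7_9809_1
 Tr.lf Tr.lf))))))

noncomputable def c7_9569_0 : List Nat := [(nat_lit 0x6712044890f140095c74436b6f2c2ac856a465b60d865508548b898346a04e8714da805b5620015463a203664021686d4b46ca8f2b902158d6d840344cb78dcb2790ade31ba0dd4dc8aad37663124465996d939548347228ad8847031a245365c5637568cab1d1b4096c6aebb020724d300c8ab38bb190e871b340c5e6a04e0c5d64ed4b1b09b04b0c556acca9ce442418a55d915911cc0b444508c819d0851685893a5a000029a6534759591d021abc409610ec9668e1043c1d3140762ac03409177622c3286a98b27494203044d8528d6978dcf6d980e62b3413302d53355660162ab08e26f65828e870c855a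ea41dc914e8a74ce38ac8d02528508529366a4a1c8040edd461a20240cd11424e519034188b6536b6e8258424d86b1984111496412b216145c112065b6646225bb0460c5ccc6986b36b9361929135600b569488721308cddce1a222d9c202eeae984672bacb4c938c971545d309057a835bc6052b5883642564cb1364ea4607688339aaca84c676217168cce66abac56edac518cc9ecf080340a8aeb704307839a255c42b448caeb5684b24e590690a5e8765122167637ac358da9515349d2c1183599184ada74255a490135a94e4065c76164951316624b2b05db6c1193216d608883473160818dd9e5a506c9644c625d6362a288dced4f08263296ee40c72a6a1cf6c1c45aac5a90c242e5683369d85172b1b382ac0000000000000b4c61859d000dae923956a5cbb163568e7087165ad02d9a920bb9e66b1126d1b2a115d62baa10e32a799766b8b245ba35b6ae1a19d637ab08c7339841434dda902ee51a9138b564256b698a20d1e8e141dcdcb8b14c776c9cd6825900000000000000000000000000000000000000000000000000000000000000000002db136d3169658b4d32e8a800000000000000000000000000000000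00000000000005a63595a270ed32782375b0000000005dd36b9d89dcdc000000026991d0500000000e94bab201b45da3415d4316e55a8a36369795211619a2e62271cc9c4764534a48dd173364306571c43cc36a51588a63aab32c2bae185ea738de624aecb581346229b6b56a407720d973541e7418202a5b0ac8d8c9104ba94a124a233274111c2487206095e84aaed36aab18a9a88b319116300cb159b4ca51410a2b7b55ad96cab04dcc1a09c556ca09627549b54b1a72965d9e44338040e811893223d33a459ac94e6dd6306f203416eaf020259d7aa149d244f668927125a65d763c0c35dd591062d950531eade06132305234029ddad2142066f6d1439639b711a0b075ac5c4cd71c06203aa9c4262182c8242083a5c30903151c2b8cd15dc1610847418150cb439204861a576b130910913da448c08c48909c95471e98d15a296ac255da8c86315c432d9b51c19552810baa96ae421682791d180f6d9ea7336e1620da82110226b594340000000ca8314833751171869d889746e15a4501b4311832c00e6000067825529191b1da452bb5b58e03551044cc290626168d811c350a4b6413ae001c335b4b15b622209628c5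d084d6c8d0a2dabd6bc2174d315a71b659a00de19359565a6322c2222d8c883cab41314c349cd8818596a8e0b456a79367071ec43a92235af2793b98a51459259692250398d6966161bdb24a986cc1100a0a065458b324a8b065a45d04946ad227299104ac70d24381a92c925b03533686d5c23a8cb0cbaa20b2ec00239825280138b2db54173424231b28d0d4029184cd192c6ca02248d21095a29235b905058c5012c29c0953a80a58045a6c4bd916e43466f151cbb0835b9a8b379d49b2c105cd28613199666ce2a2c94002dd48c8c260bb180519dca16160e608160a805b0acd858546da828867646eb8e62130c8cb2a96cec8ee02d60b235166a362eab49a82d74ad551d441545d0618caa57a45304e44c0254a622eb595574a90761644a65cc66852b18cad63215ce908a65e588c350b122c00e7963a209335a21a742230ced075963d3689a04436b6e6a64a0614532c0d6cce1a6108a4532c174d20ce003148295c18b7523402408450b247600018463016cd81003488cc8434a0621c275b18da6a3676dd72)]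
noncomputable def c7_9569_1 : List Nat := [(nat_lit 0x5aeb6bd85d360e5b898c1c0598205e052600236968183830000d8a590a0c0090294ab6708ec4123807a50644a3b4e1005ae56401e1266e8ab383447354114baa128ac29b24b88b5e18142b4c14e9690531c802f6941390b86072ccb45035ea8172e45c391a13c1eb0d80b32b0959aaab275950d88901a91a1a280aa630f4ad421558a8cc274b34bb2d4c42cb1e89b70ec6162bc682203b424a68c40547600a6a6c94d91554cb0993871993da62b26d618dcf2cb22aaadb4c1ade70599bae28930669046ebc6840bae128482c4463a586482dce2da90a392aab59a541ac9212b1b4171a908d196008e0c8a246e94914ec081a5250045b96429e830340898a516e14099a322a6d9)]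
noncomputable def T7_9569 : Op := Op.mk (nat_lit 79)
 (Tr.nd (nat_lit 148) (nat_lit 1) (nat_lit 63) (nat_lit 2439) c7_9569_0
 (Tr.nd (nat_lit 63) (nat_lit 1) (nat_lit 11) (nat_lit 1167) c7_9569_0
 (Tr.nd (nat_lit 49) (nat_lit 1) (nat_lit 100) (nat_lit 224) c7_9569_0
 (Tr.nd (nat_lit 9) (nat_lit 1) (nat_lit 24) (nat_lit 183) c7_9569_0
 (Tr.nd (nat_lit 7) (nat_lit 1) (nat_lit 24) (nat_lit 84) c7_9569_0
 (Tr.nd (nat_lit 1) (nat_lit 1) (nat_lit 61) (nat_lit 23) c7_9569_0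
 (Tr.nd (nat_lit 0) (nat_lit 1) (nat_lit 23) (nat_lit 0) c7_9569_0
 Tr.lf Tr.lf) Tr.lf) (Tr.nd (nat_lit 8) (nat_lit 1) (nat_lit 75) (nat_lit 108) c7_9569_0
 Tr.lf Tr.lf)) (Tr.nd (nat_lit 15) (nat_lit 1) (nat_lit 7) (nat_lit 211) c7_9569_0
 (Tr.nd (nat_lit 10) (nat_lit 1) (nat_lit 4) (nat_lit 207) c7_9569_0
 Tr.lf Tr.lf) (Tr.nd (nat_lit 16) (nat_lit 2) (nat_lit 3) (nat_lit 218) c7_9569_0
 Tr.lf Tr.lf))) (Tr.nd (nat_lit 56) (nat_lit 1) (nat_lit 116) (nat_lit 723) c7_9569_0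
 (Tr.nd (nat_lit 51) (nat_lit 1) (nat_lit 100) (nat_lit 600) c7_9569_0
 (Tr.nd (nat_lit 50) (nat_lit 1) (nat_lit 276) (nat_lit 324) c7_9569_0
 Tr.lf Tr.lf) (Tr.nd (nat_lit 52) (nat_lit 1) (nat_lit 23) (nat_lit 700) c7_9569_0
 Tr.lf Tr.lf)) (Tr.nd (nat_lit 58) (nat_lit 5) (nat_lit 23) (nat_lit 1022) c7_9569_0
 (Tr.nd (nat_lit 57) (nat_lit 3) (nat_lit 61) (nat_lit 839) c7_9569_0
 Tr.lf Tr.lf) (Tr.nd (nat_lit 59) (nat_lit 5) (nat_lit 6) (nat_lit 1137) c7_9569_0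
 Tr.lf Tr.lf)))) (Tr.nd (nat_lit 106) (nat_lit 5) (nat_lit 37) (nat_lit 1619) c7_9569_0
 (Tr.nd (nat_lit 100) (nat_lit 2) (nat_lit 63) (nat_lit 1392) c7_9569_0
 (Tr.nd (nat_lit 65) (nat_lit 10) (nat_lit 3) (nat_lit 1208) c7_9569_0
 (Tr.nd (nat_lit 64) (nat_lit 5) (nat_lit 6) (nat_lit 1178) c7_9569_0
 Tr.lf Tr.lf) (Tr.nd (nat_lit 99) (nat_lit 1) (nat_lit 154) (nat_lit 1238) c7_9569_0
 Tr.lf Tr.lf)) (Tr.nd (nat_lit 102) (nat_lit 2) (nat_lit 3) (nat_lit 1552) c7_9569_0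
 (Tr.nd (nat_lit 101) (nat_lit 2) (nat_lit 17) (nat_lit 1518) c7_9569_0
 Tr.lf Tr.lf) (Tr.nd (nat_lit 105) (nat_lit 1) (nat_lit 61) (nat_lit 1558) c7_9569_0
 Tr.lf Tr.lf))) (Tr.nd (nat_lit 112) (nat_lit 2) (nat_lit 7) (nat_lit 2082) c7_9569_0
 (Tr.nd (nat_lit 108) (nat_lit 17) (nat_lit 5) (nat_lit 1974) c7_9569_0
 (Tr.nd (nat_lit 107) (nat_lit 10) (nat_lit 17) (nat_lit 1804) c7_9569_0
 Tr.lf Tr.lf) (Tr.nd (nat_lit 109) (nat_lit 23) (nat_lit 1) (nat_lit 2059) c7_9569_0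
 Tr.lf Tr.lf)) (Tr.nd (nat_lit 114) (nat_lit 30) (nat_lit 7) (nat_lit 2166) c7_9569_0
 (Tr.nd (nat_lit 113) (nat_lit 10) (nat_lit 7) (nat_lit 2096) c7_9569_0
 Tr.lf Tr.lf) (Tr.nd (nat_lit 115) (nat_lit 63) (nat_lit 1) (nat_lit 2376) c7_9569_0
 Tr.lf Tr.lf))))) (Tr.nd (nat_lit 204) (nat_lit 5) (nat_lit 6) (nat_lit 3545) c7_9569_0
 (Tr.nd (nat_lit 158) (nat_lit 61) (nat_lit 1) (nat_lit 3101) c7_9569_0
 (Tr.nd (nat_lit 154) (nat_lit 1) (nat_lit 23) (nat_lit 2638) c7_9569_0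
 (Tr.nd (nat_lit 150) (nat_lit 4) (nat_lit 11) (nat_lit 2564) c7_9569_0
 (Tr.nd (nat_lit 149) (nat_lit 2) (nat_lit 31) (nat_lit 2502) c7_9569_0
 Tr.lf Tr.lf) (Tr.nd (nat_lit 151) (nat_lit 6) (nat_lit 5) (nat_lit 2608) c7_9569_0
 Tr.lf Tr.lf)) (Tr.nd (nat_lit 156) (nat_lit 17) (nat_lit 10) (nat_lit 2746) c7_9569_0
 (Tr.nd (nat_lit 155) (nat_lit 5) (nat_lit 17) (nat_lit 2661) c7_9569_0
 Tr.lf Tr.lf) (Tr.nd (nat_lit 157) (nat_lit 37) (nat_lit 5) (nat_lit 2916) c7_9569_0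
 Tr.lf Tr.lf))) (Tr.nd (nat_lit 164) (nat_lit 154) (nat_lit 1) (nat_lit 3328) c7_9569_0
 (Tr.nd (nat_lit 162) (nat_lit 17) (nat_lit 2) (nat_lit 3168) c7_9569_0
 (Tr.nd (nat_lit 161) (nat_lit 2) (nat_lit 3) (nat_lit 3162) c7_9569_0
 Tr.lf Tr.lf) (Tr.nd (nat_lit 163) (nat_lit 63) (nat_lit 2) (nat_lit 3202) c7_9569_0
 Tr.lf Tr.lf)) (Tr.nd (nat_lit 199) (nat_lit 6) (nat_lit 5) (nat_lit 3504) c7_9569_0
 (Tr.nd (nat_lit 198) (nat_lit 2) (nat_lit 11) (nat_lit 3482) c7_9569_0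
 Tr.lf Tr.lf) (Tr.nd (nat_lit 200) (nat_lit 11) (nat_lit 1) (nat_lit 3534) c7_9569_0
 Tr.lf Tr.lf)))) (Tr.nd (nat_lit 247) (nat_lit 2) (nat_lit 3) (nat_lit 476) c7_9569_1
 (Tr.nd (nat_lit 211) (nat_lit 23) (nat_lit 1) (nat_lit 3989) c7_9569_0
 (Tr.nd (nat_lit 206) (nat_lit 61) (nat_lit 3) (nat_lit 3690) c7_9569_0
 (Tr.nd (nat_lit 205) (nat_lit 23) (nat_lit 5) (nat_lit 3575) c7_9569_0
 Tr.lf Tr.lf) (Tr.nd (nat_lit 207) (nat_lit 116) (nat_lit 1) (nat_lit 3873) c7_9569_0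
 Tr.lf Tr.lf)) (Tr.nd (nat_lit 213) (nat_lit 276) (nat_lit 1) (nat_lit 100) c7_9569_1
 (Tr.nd (nat_lit 212) (nat_lit 100) (nat_lit 1) (nat_lit 0) c7_9569_1
 Tr.lf Tr.lf) (Tr.nd (nat_lit 214) (nat_lit 100) (nat_lit 1) (nat_lit 376) c7_9569_1
 Tr.lf Tr.lf))) (Tr.nd (nat_lit 255) (nat_lit 75) (nat_lit 1) (nat_lit 517) c7_9569_1
 (Tr.nd (nat_lit 253) (nat_lit 4) (nat_lit 1) (nat_lit 489) c7_9569_1
 (Tr.nd (nat_lit 248) (nat_lit 7) (nat_lit 1) (nat_lit 482) c7_9569_1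
 Tr.lf Tr.lf) (Tr.nd (nat_lit 254) (nat_lit 24) (nat_lit 1) (nat_lit 493) c7_9569_1
 Tr.lf Tr.lf)) (Tr.nd (nat_lit 262) (nat_lit 61) (nat_lit 1) (nat_lit 616) c7_9569_1
 (Tr.nd (nat_lit 256) (nat_lit 24) (nat_lit 1) (nat_lit 592) c7_9569_1
 Tr.lf Tr.lf) (Tr.nd (nat_lit 263) (nat_lit 23) (nat_lit 1) (nat_lit 677) c7_9569_1
 Tr.lf Tr.lf))))))

noncomputable def c7_9797_0 : List Nat := [(nat_lit 0x54730063400d8640c0896a3140ac4d880b6d8a0f46eaa9332466b8e589a50e25d6844989b1d28ae60e90340b0503adbd6a471052b76b2aab626508c4a13464d8aac2d98b5da33839820b43b10db392b59a0a8940c0329941a7617542b981c828b0399156293c5a898331004152ab1b6e613b90bacc09a51ac685c314c66db2a7266e9340b18255138882a9b2c3707b1755066564db32b50e92a191da5050c29212421d40000951cba05a0ce32a611543681dc6282a66b0957995105b22f60200a04e09542a8c940e818878bc6d536a1e46360279bd6530c0436d2128820ca41866b166444d1a248bcdc5b3896b0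40a550125042d20e8aec1049ccc380dad04f351a42cd7311a46c965b4639c64b6304d18a54f39b449c623895035da0118786642d85465c89613163721adb8a330d3101710c4b013a850a1a1c658150132759404da3654c27b64705031908f3b856b459bd608c228a58045ac5478b61294bc63a4b0b28e3905648d8499a295a4a05031d36821108d58eb146d3b4a11336cbadc2c4aecb1d298346c496e423076c240c14190b4db1b465a4c132481a0c8884358136599a045992b9b74aad6cea92184c47150618b4da11a78651a7060c3ad8a68c628188c5934084460154c6687359367164e360c6c723c1506d3a958079ec2ec5c0828d8154aa90dcae1c1c26082e96bc944a3dac29256d8554096c8100c6a6b31a44400000000000002331ac15500030aa8e658c02904d928f4a73846d1200b21601e35b333cf466421b14869810b701495c6911d24d20c568c616b6058a6b1ab395775a1ad44d9d92a2f40f693662665592bda0b9316eaeac5dc1d3432364cc385aa10690000000000000000000000000000000000000000000000000000000000000000000192e0776cb221b2580d3248000000000000000000000000000000000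00000000000064590985d6a172bd00c8074000000073289642cba633300000000c5188710000000302b02130101a9bab80a93079354e02005b31404690bc9a62cd51aadd9c5142ea990b0505dc29132503cd5c1e54882975265bd8cc19ad675c26456ab068a3158208a46b208aa8cc21206bcf02d4128c00cd98e69a6ac40d3983aa68cb680332a342891190a04b2c4d3b22eace433605e551c0e45005630aaa492569848b08dceaa63120ae8accce023168ba8c60534e612251999395d21a0e2848ae9556631158ea756c5e3b402a604da1612c75ba86f20b21b147612505141c12e6f2993a3579c0b062218adb341ab294da02cb80459b41a0d2305a0096864d2304d424ae369671e2a472a6862d1acba7054cd350a3036b85a9368830a9266eb95a8434182f19161b515d1196848f5d004a479a09da4461e8d2086d54c41b42089222b10825c947b28de652530a4a90b393c3091610416049b608861b2e6f340370acc5da2b4e6730701588800000000980941665610a4d8a592714a514ec63319314eac4d82a0000c4e1ba65a3120318c940a32a5542730925d6c298d543913b6c24c590995445b344a90930d28c8f6881d152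ad5a414ba363a5922ad9890236234686793ced9ad55800039205430dcb5ce03b1472a80cee22eb70069242a5d38325228ab5d2d22ed19eb46311520d5ccaab3674d5028a0a2492301339645274ea2b9264b3a8334135281978151e342ac448c2cd2460801504a6c155499816242a3c8bd8d2120061344a050d242c360027081a3888c694b6b9905a4f430b134215c4a3054a620d8868c8b5e581d3166ab32689a05515220560a4508c402c4445cc66254c9ad952cc02e346a94cb5090129cc8786a9a55104112656660ac26d2410cb250a54b096d0333aa25bb1cc59d9c65a4486d124cae86c29a2569db16de916ab32a9890670db1064db1866acab5292a55c2e87206abd30c49642d6d5430d90f19168e24d0dab4506ab99340105c45c72b2da4091a6b810ae6911534e4132314114bac381832012ad00e659344951c5adc9e42b4b4908b1953154000069572b50681009506b028012963cce68a88d9ac224000019da83a0c32000c00080000000002003a0000000141d249b411364d248120006a489311c5b940)]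
noncomputable def c7_9797_1 : List Nat := [(nat_lit 0x2c6ce2a125254800121249ada022d249ac22000000056004000000000100060005861311762c00007b44cd1592ad94b928c48d060a6143b80c1678c998136145506b41374992742cd6b728e224a6b2d180805535842319758a08a15a091a6a8293d50235d302424d97638ca8c82026b475308a77609a51cca4665ac126532646cce138a25385395a70d75640d54ed9ec6d782d000a939b38135dca0988c8066c53098c81d7046ed06da2cc1c4e3cc41b58d060d015b8832cc6a9091562825a4812cd884b4ad24b4732a3036c10b5dd55650a6e4cbb9032d443db58e09218cd04ea0d12a101aa2a052535a554b3a6232ced05cc14a41d12a2144ea819a066199a4c82f5d9234e)]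
noncomputable def T7_9797 : Op := Op.mk (nat_lit 79)
 (Tr.nd (nat_lit 148) (nat_lit 1) (nat_lit 63) (nat_lit 2439) c7_9797_0
 (Tr.nd (nat_lit 63) (nat_lit 1) (nat_lit 11) (nat_lit 1167) c7_9797_0
 (Tr.nd (nat_lit 49) (nat_lit 1) (nat_lit 100) (nat_lit 224) c7_9797_0
 (Tr.nd (nat_lit 9) (nat_lit 1) (nat_lit 24) (nat_lit 183) c7_9797_0
 (Tr.nd (nat_lit 7) (nat_lit 1) (nat_lit 24) (nat_lit 84) c7_9797_0
 (Tr.nd (nat_lit 1) (nat_lit 1) (nat_lit 61) (nat_lit 23) c7_9797_0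
 (Tr.nd (nat_lit 0) (nat_lit 1) (nat_lit 23) (nat_lit 0) c7_9797_0
 Tr.lf Tr.lf) Tr.lf) (Tr.nd (nat_lit 8) (nat_lit 1) (nat_lit 75) (nat_lit 108) c7_9797_0
 Tr.lf Tr.lf)) (Tr.nd (nat_lit 15) (nat_lit 1) (nat_lit 7) (nat_lit 211) c7_9797_0
 (Tr.nd (nat_lit 10) (nat_lit 1) (nat_lit 4) (nat_lit 207) c7_9797_0
 Tr.lf Tr.lf) (Tr.nd (nat_lit 16) (nat_lit 2) (nat_lit 3) (nat_lit 218) c7_9797_0
 Tr.lf Tr.lf))) (Tr.nd (nat_lit 56) (nat_lit 1) (nat_lit 116) (nat_lit 723) c7_9797_0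
 (Tr.nd (nat_lit 51) (nat_lit 1) (nat_lit 100) (nat_lit 600) c7_9797_0
 (Tr.nd (nat_lit 50) (nat_lit 1) (nat_lit 276) (nat_lit 324) c7_9797_0
 Tr.lf Tr.lf) (Tr.nd (nat_lit 52) (nat_lit 1) (nat_lit 23) (nat_lit 700) c7_9797_0
 Tr.lf Tr.lf)) (Tr.nd (nat_lit 58) (nat_lit 5) (nat_lit 23) (nat_lit 1022) c7_9797_0
 (Tr.nd (nat_lit 57) (nat_lit 3) (nat_lit 61) (nat_lit 839) c7_9797_0
 Tr.lf Tr.lf) (Tr.nd (nat_lit 59) (nat_lit 5) (nat_lit 6) (nat_lit 1137) c7_9797_0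
 Tr.lf Tr.lf)))) (Tr.nd (nat_lit 106) (nat_lit 5) (nat_lit 37) (nat_lit 1619) c7_9797_0
 (Tr.nd (nat_lit 100) (nat_lit 2) (nat_lit 63) (nat_lit 1392) c7_9797_0
 (Tr.nd (nat_lit 65) (nat_lit 10) (nat_lit 3) (nat_lit 1208) c7_9797_0
 (Tr.nd (nat_lit 64) (nat_lit 5) (nat_lit 6) (nat_lit 1178) c7_9797_0
 Tr.lf Tr.lf) (Tr.nd (nat_lit 99) (nat_lit 1) (nat_lit 154) (nat_lit 1238) c7_9797_0
 Tr.lf Tr.lf)) (Tr.nd (nat_lit 102) (nat_lit 2) (nat_lit 3) (nat_lit 1552) c7_9797_0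
 (Tr.nd (nat_lit 101) (nat_lit 2) (nat_lit 17) (nat_lit 1518) c7_9797_0
 Tr.lf Tr.lf) (Tr.nd (nat_lit 105) (nat_lit 1) (nat_lit 61) (nat_lit 1558) c7_9797_0
 Tr.lf Tr.lf))) (Tr.nd (nat_lit 112) (nat_lit 2) (nat_lit 7) (nat_lit 2082) c7_9797_0
 (Tr.nd (nat_lit 108) (nat_lit 17) (nat_lit 5) (nat_lit 1974) c7_9797_0
 (Tr.nd (nat_lit 107) (nat_lit 10) (nat_lit 17) (nat_lit 1804) c7_9797_0
 Tr.lf Tr.lf) (Tr.nd (nat_lit 109) (nat_lit 23) (nat_lit 1) (nat_lit 2059) c7_9797_0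
 Tr.lf Tr.lf)) (Tr.nd (nat_lit 114) (nat_lit 30) (nat_lit 7) (nat_lit 2166) c7_9797_0
 (Tr.nd (nat_lit 113) (nat_lit 10) (nat_lit 7) (nat_lit 2096) c7_9797_0
 Tr.lf Tr.lf) (Tr.nd (nat_lit 115) (nat_lit 63) (nat_lit 1) (nat_lit 2376) c7_9797_0
 Tr.lf Tr.lf))))) (Tr.nd (nat_lit 204) (nat_lit 5) (nat_lit 6) (nat_lit 3545) c7_9797_0
 (Tr.nd (nat_lit 158) (nat_lit 61) (nat_lit 1) (nat_lit 3101) c7_9797_0
 (Tr.nd (nat_lit 154) (nat_lit 1) (nat_lit 23) (nat_lit 2638) c7_9797_0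
 (Tr.nd (nat_lit 150) (nat_lit 4) (nat_lit 11) (nat_lit 2564) c7_9797_0
 (Tr.nd (nat_lit 149) (nat_lit 2) (nat_lit 31) (nat_lit 2502) c7_9797_0
 Tr.lf Tr.lf) (Tr.nd (nat_lit 151) (nat_lit 6) (nat_lit 5) (nat_lit 2608) c7_9797_0
 Tr.lf Tr.lf)) (Tr.nd (nat_lit 156) (nat_lit 17) (nat_lit 10) (nat_lit 2746) c7_9797_0
 (Tr.nd (nat_lit 155) (nat_lit 5) (nat_lit 17) (nat_lit 2661) c7_9797_0
 Tr.lf Tr.lf) (Tr.nd (nat_lit 157) (nat_lit 37) (nat_lit 5) (nat_lit 2916) c7_9797_0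
 Tr.lf Tr.lf))) (Tr.nd (nat_lit 164) (nat_lit 154) (nat_lit 1) (nat_lit 3328) c7_9797_0
 (Tr.nd (nat_lit 162) (nat_lit 17) (nat_lit 2) (nat_lit 3168) c7_9797_0
 (Tr.nd (nat_lit 161) (nat_lit 2) (nat_lit 3) (nat_lit 3162) c7_9797_0
 Tr.lf Tr.lf) (Tr.nd (nat_lit 163) (nat_lit 63) (nat_lit 2) (nat_lit 3202) c7_9797_0
 Tr.lf Tr.lf)) (Tr.nd (nat_lit 199) (nat_lit 6) (nat_lit 5) (nat_lit 3504) c7_9797_0
 (Tr.nd (nat_lit 198) (nat_lit 2) (nat_lit 11) (nat_lit 3482) c7_9797_0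
 Tr.lf Tr.lf) (Tr.nd (nat_lit 200) (nat_lit 11) (nat_lit 1) (nat_lit 3534) c7_9797_0
 Tr.lf Tr.lf)))) (Tr.nd (nat_lit 247) (nat_lit 2) (nat_lit 3) (nat_lit 476) c7_9797_1
 (Tr.nd (nat_lit 211) (nat_lit 23) (nat_lit 1) (nat_lit 3989) c7_9797_0
 (Tr.nd (nat_lit 206) (nat_lit 61) (nat_lit 3) (nat_lit 3690) c7_9797_0
 (Tr.nd (nat_lit 205) (nat_lit 23) (nat_lit 5) (nat_lit 3575) c7_9797_0
 Tr.lf Tr.lf) (Tr.nd (nat_lit 207) (nat_lit 116) (nat_lit 1) (nat_lit 3873) c7_9797_0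
 Tr.lf Tr.lf)) (Tr.nd (nat_lit 213) (nat_lit 276) (nat_lit 1) (nat_lit 100) c7_9797_1
 (Tr.nd (nat_lit 212) (nat_lit 100) (nat_lit 1) (nat_lit 0) c7_9797_1
 Tr.lf Tr.lf) (Tr.nd (nat_lit 214) (nat_lit 100) (nat_lit 1) (nat_lit 376) c7_9797_1
 Tr.lf Tr.lf))) (Tr.nd (nat_lit 255) (nat_lit 75) (nat_lit 1) (nat_lit 517) c7_9797_1
 (Tr.nd (nat_lit 253) (nat_lit 4) (nat_lit 1) (nat_lit 489) c7_9797_1
 (Tr.nd (nat_lit 248) (nat_lit 7) (nat_lit 1) (nat_lit 482) c7_9797_1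
 Tr.lf Tr.lf) (Tr.nd (nat_lit 254) (nat_lit 24) (nat_lit 1) (nat_lit 493) c7_9797_1
 Tr.lf Tr.lf)) (Tr.nd (nat_lit 262) (nat_lit 61) (nat_lit 1) (nat_lit 616) c7_9797_1
 (Tr.nd (nat_lit 256) (nat_lit 24) (nat_lit 1) (nat_lit 592) c7_9797_1
 Tr.lf Tr.lf) (Tr.nd (nat_lit 263) (nat_lit 23) (nat_lit 1) (nat_lit 677) c7_9797_1
 Tr.lf Tr.lf))))))

noncomputable def c7_9749_0 : List Nat := [(nat_lit 0x2cbcdad966d9a457657096e2a050e5cb249aba1c4e19c4dd65c46505d4d24d5083a03c24784d90396748759240d46a2408048825972b62d64995985cb902d9b702a94d969437171ac9c38aadd68aa7592329c6e0151a698e84eb8e44340a1744a0482591db6a69d8e05547b4925b43bae5730338113322a8c60a002711206e0553a5066545c5346929240e698b6e0152056c0d4b64a5806dabd26a0386c80182a545525000031026790b518d886ed011554e4d514a60d65a00d2a6960402d01044a0ebb63583a1bc21572d40600312b0d59468e36c93134106d681a098b00957a5263282b63c49d439598e01244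70c2d64b8952b0c54a56ac00f14ed45888d491d258b5c30d5dc8379529379182c8cc26b57612e6433b0d854492ec4f64602a504a2d0d208c811208508cc16191ac105cbb35ad54ad2d00caebc0e6ad00b72393669280bcec92eac8ad85a6421851ac65a8ac661368a3531510948802f4d006820801b6aedd1a8c6d5cc50bb4a4649d2581683250408554190de72c018451d82175425b0109bc9ac71914bb176dd9409254a8519b541e136d45b425b206a0aa428916ce3c74068c885817b5a854954649b20d5598b9ecc99b572bb982b20b1ab171678206311d0863334593800a8165d9d0334d1404a9e8687062ed3624330b182e54696809ea8d585b4bd1b382026b92c51824c21ad30b37127b224b20d321b1d91d400000000000000625cc2026000b12cd5ba804e50da65d1bb5cb73ca8009c6d4a042d1a9c696509a3cad4ad7066a0192d1d35a515a8579c3042627b639e32e201bb2da4c25af1a2306e741248af521c14e76c1a4d96d48075873c76cd4260863ce856a0000000000000000000000000000000000000000000000000000000000000000000228d16eeca812b42356ad4e00000000000000000000000000000000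000000000000073214d30a3b0a86115a8d280000000968793a2adb0b6d00000002c6a194e0000000195595a5026103cc5402ae4ae5321a416495695949a3668b2605ed13c1454812a610456175ca5c086e6d5da2e48a2334b31454a260425b4f0d44af5150db53ae8b698d01dd60c42a99d468725422b0d5e790420143a9c48e55819630858c42bc5a2984e6c5a8432908ea8f40a338ec35ac2c85c85c2411359607310e8aa6adcd154903249b841cb352985484ab5602e15d5412ddae2510145504a2da11a701b4186d1c2c958409043514d6f3ca09ae0305a96104e8936653683c1d172c1d28c302d320dd05dd6495e644493da47002dcb56c4275a985aec68dd6eace10839e270cc5816a9546111d1220da44aad018bd9e99e30cb8602e4c15b43850c15033208764ca3468ca955c10b4a354292a540cab5a39801dc8d88e191a9464bb4618a92011c2ec62e24e72d411709b33a90194245213b482293a4969c538b2a654a100302e5aa3066c000000061b58b16d00a515a16c2c0a10c8a1205e55a52e91aaa8200036ae975e190c1192084080dca91a51220ca125d2655d4c4902930a409124b654521ecce1650da020404561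2936249ae8938cb38d80c5414112c03817126f2219b6c2f009d0cc6d434ba44b4520631c6926f511586b4eaa74a7532651b25c8b1aac6e37a1566b8c9260a66f5745b043626c2ae452cae9b6b4eb800018cd2a9b783728691548ce889b906c02270a5621bacdca9ac30231560b03698c8970172862d2b2181ad92ba0d2dbcb64de65976a9837740050ae2458a58d44f441ad534dd221a634c9b5b7a8d968c8cf31302a1b605ab7ac0da2a901b39e2202ced66509b98aea49315189ec1015141e23475d91b01b89ec18a119a98ce96ba8db3300685408e0a470d0c338d44bce21153967a5adacdc09c9ae6d8d84cc4cc471c0ebb6879ac6b29bda1d8175621bb2e6b3b62959184d8d56a12b2a49a9cd82133698e96a17190c03698962ec6f6aad05ab924e43341b12eea9e75da284d64b2650c10b400260e589ea2305432b2b570235b02d6000000000c0000db12360008051b12120481319a3390d692d9200009000000021241c80000180000b6a42d000700c05a90b44204a852b516a6da5b0000000014994c19000)]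
noncomputable def c7_9749_1 : List Nat := [(nat_lit 0x2c68b48800000001b24db568b91a1580182d095a06023000b4256d000030000016209300000000736946a001b266e4a64a6970b8312c0580a582117039bb596c14d6343b406e9423b91761888705cd4b0083302d08608b592c9a145aebcd5d593b09a191a4b54c8b55d9b959c943690182e331335c369681370cc952613066d2f3a5ba64cb532a0a581d8b441b2906542f1a2ec521b4b2dce61451037b42d42dbc18cd48dd86d35844268bb1a1850f6b8985281430566ba43798534571d12ac308894c23021c8a950643478539d8032108a674ab338750a482816556cc0528d97377212d3111a079e05ccb61736ed25a70d301ada6ae4c299a89cb14a09d50a009ab63456b)]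
noncomputable def T7_9749 : Op := Op.mk (nat_lit 79)
 (Tr.nd (nat_lit 148) (nat_lit 1) (nat_lit 63) (nat_lit 2439) c7_9749_0
 (Tr.nd (nat_lit 63) (nat_lit 1) (nat_lit 11) (nat_lit 1167) c7_9749_0
 (Tr.nd (nat_lit 49) (nat_lit 1) (nat_lit 100) (nat_lit 224) c7_9749_0
 (Tr.nd (nat_lit 9) (nat_lit 1) (nat_lit 24) (nat_lit 183) c7_9749_0
 (Tr.nd (nat_lit 7) (nat_lit 1) (nat_lit 24) (nat_lit 84) c7_9749_0
 (Tr.nd (nat_lit 1) (nat_lit 1) (nat_lit 61) (nat_lit 23) c7_9749_0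
 (Tr.nd (nat_lit 0) (nat_lit 1) (nat_lit 23) (nat_lit 0) c7_9749_0
 Tr.lf Tr.lf) Tr.lf) (Tr.nd (nat_lit 8) (nat_lit 1) (nat_lit 75) (nat_lit 108) c7_9749_0
 Tr.lf Tr.lf)) (Tr.nd (nat_lit 15) (nat_lit 1) (nat_lit 7) (nat_lit 211) c7_9749_0
 (Tr.nd (nat_lit 10) (nat_lit 1) (nat_lit 4) (nat_lit 207) c7_9749_0
 Tr.lf Tr.lf) (Tr.nd (nat_lit 16) (nat_lit 2) (nat_lit 3) (nat_lit 218) c7_9749_0
 Tr.lf Tr.lf))) (Tr.nd (nat_lit 56) (nat_lit 1) (nat_lit 116) (nat_lit 723) c7_9749_0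
 (Tr.nd (nat_lit 51) (nat_lit 1) (nat_lit 100) (nat_lit 600) c7_9749_0
 (Tr.nd (nat_lit 50) (nat_lit 1) (nat_lit 276) (nat_lit 324) c7_9749_0
 Tr.lf Tr.lf) (Tr.nd (nat_lit 52) (nat_lit 1) (nat_lit 23) (nat_lit 700) c7_9749_0
 Tr.lf Tr.lf)) (Tr.nd (nat_lit 58) (nat_lit 5) (nat_lit 23) (nat_lit 1022) c7_9749_0
 (Tr.nd (nat_lit 57) (nat_lit 3) (nat_lit 61) (nat_lit 839) c7_9749_0
 Tr.lf Tr.lf) (Tr.nd (nat_lit 59) (nat_lit 5) (nat_lit 6) (nat_lit 1137) c7_9749_0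
 Tr.lf Tr.lf)))) (Tr.nd (nat_lit 106) (nat_lit 5) (nat_lit 37) (nat_lit 1619) c7_9749_0
 (Tr.nd (nat_lit 100) (nat_lit 2) (nat_lit 63) (nat_lit 1392) c7_9749_0
 (Tr.nd (nat_lit 65) (nat_lit 10) (nat_lit 3) (nat_lit 1208) c7_9749_0
 (Tr.nd (nat_lit 64) (nat_lit 5) (nat_lit 6) (nat_lit 1178) c7_9749_0
 Tr.lf Tr.lf) (Tr.nd (nat_lit 99) (nat_lit 1) (nat_lit 154) (nat_lit 1238) c7_9749_0
 Tr.lf Tr.lf)) (Tr.nd (nat_lit 102) (nat_lit 2) (nat_lit 3) (nat_lit 1552) c7_9749_0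
 (Tr.nd (nat_lit 101) (nat_lit 2) (nat_lit 17) (nat_lit 1518) c7_9749_0
 Tr.lf Tr.lf) (Tr.nd (nat_lit 105) (nat_lit 1) (nat_lit 61) (nat_lit 1558) c7_9749_0
 Tr.lf Tr.lf))) (Tr.nd (nat_lit 112) (nat_lit 2) (nat_lit 7) (nat_lit 2082) c7_9749_0
 (Tr.nd (nat_lit 108) (nat_lit 17) (nat_lit 5) (nat_lit 1974) c7_9749_0
 (Tr.nd (nat_lit 107) (nat_lit 10) (nat_lit 17) (nat_lit 1804) c7_9749_0
 Tr.lf Tr.lf) (Tr.nd (nat_lit 109) (nat_lit 23) (nat_lit 1) (nat_lit 2059) c7_9749_0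
 Tr.lf Tr.lf)) (Tr.nd (nat_lit 114) (nat_lit 30) (nat_lit 7) (nat_lit 2166) c7_9749_0
 (Tr.nd (nat_lit 113) (nat_lit 10) (nat_lit 7) (nat_lit 2096) c7_9749_0
 Tr.lf Tr.lf) (Tr.nd (nat_lit 115) (nat_lit 63) (nat_lit 1) (nat_lit 2376) c7_9749_0
 Tr.lf Tr.lf))))) (Tr.nd (nat_lit 204) (nat_lit 5) (nat_lit 6) (nat_lit 3545) c7_9749_0
 (Tr.nd (nat_lit 158) (nat_lit 61) (nat_lit 1) (nat_lit 3101) c7_9749_0
 (Tr.nd (nat_lit 154) (nat_lit 1) (nat_lit 23) (nat_lit 2638) c7_9749_0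
 (Tr.nd (nat_lit 150) (nat_lit 4) (nat_lit 11) (nat_lit 2564) c7_9749_0
 (Tr.nd (nat_lit 149) (nat_lit 2) (nat_lit 31) (nat_lit 2502) c7_9749_0
 Tr.lf Tr.lf) (Tr.nd (nat_lit 151) (nat_lit 6) (nat_lit 5) (nat_lit 2608) c7_9749_0
 Tr.lf Tr.lf)) (Tr.nd (nat_lit 156) (nat_lit 17) (nat_lit 10) (nat_lit 2746) c7_9749_0
 (Tr.nd (nat_lit 155) (nat_lit 5) (nat_lit 17) (nat_lit 2661) c7_9749_0
 Tr.lf Tr.lf) (Tr.nd (nat_lit 157) (nat_lit 37) (nat_lit 5) (nat_lit 2916) c7_9749_0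
 Tr.lf Tr.lf))) (Tr.nd (nat_lit 164) (nat_lit 154) (nat_lit 1) (nat_lit 3328) c7_9749_0
 (Tr.nd (nat_lit 162) (nat_lit 17) (nat_lit 2) (nat_lit 3168) c7_9749_0
 (Tr.nd (nat_lit 161) (nat_lit 2) (nat_lit 3) (nat_lit 3162) c7_9749_0
 Tr.lf Tr.lf) (Tr.nd (nat_lit 163) (nat_lit 63) (nat_lit 2) (nat_lit 3202) c7_9749_0
 Tr.lf Tr.lf)) (Tr.nd (nat_lit 199) (nat_lit 6) (nat_lit 5) (nat_lit 3504) c7_9749_0
 (Tr.nd (nat_lit 198) (nat_lit 2) (nat_lit 11) (nat_lit 3482) c7_9749_0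
 Tr.lf Tr.lf) (Tr.nd (nat_lit 200) (nat_lit 11) (nat_lit 1) (nat_lit 3534) c7_9749_0
 Tr.lf Tr.lf)))) (Tr.nd (nat_lit 247) (nat_lit 2) (nat_lit 3) (nat_lit 476) c7_9749_1
 (Tr.nd (nat_lit 211) (nat_lit 23) (nat_lit 1) (nat_lit 3989) c7_9749_0
 (Tr.nd (nat_lit 206) (nat_lit 61) (nat_lit 3) (nat_lit 3690) c7_9749_0
 (Tr.nd (nat_lit 205) (nat_lit 23) (nat_lit 5) (nat_lit 3575) c7_9749_0
 Tr.lf Tr.lf) (Tr.nd (nat_lit 207) (nat_lit 116) (nat_lit 1) (nat_lit 3873) c7_9749_0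
 Tr.lf Tr.lf)) (Tr.nd (nat_lit 213) (nat_lit 276) (nat_lit 1) (nat_lit 100) c7_9749_1
 (Tr.nd (nat_lit 212) (nat_lit 100) (nat_lit 1) (nat_lit 0) c7_9749_1
 Tr.lf Tr.lf) (Tr.nd (nat_lit 214) (nat_lit 100) (nat_lit 1) (nat_lit 376) c7_9749_1
 Tr.lf Tr.lf))) (Tr.nd (nat_lit 255) (nat_lit 75) (nat_lit 1) (nat_lit 517) c7_9749_1
 (Tr.nd (nat_lit 253) (nat_lit 4) (nat_lit 1) (nat_lit 489) c7_9749_1
 (Tr.nd (nat_lit 248) (nat_lit 7) (nat_lit 1) (nat_lit 482) c7_9749_1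
 Tr.lf Tr.lf) (Tr.nd (nat_lit 254) (nat_lit 24) (nat_lit 1) (nat_lit 493) c7_9749_1
 Tr.lf Tr.lf)) (Tr.nd (nat_lit 262) (nat_lit 61) (nat_lit 1) (nat_lit 616) c7_9749_1
 (Tr.nd (nat_lit 256) (nat_lit 24) (nat_lit 1) (nat_lit 592) c7_9749_1
 Tr.lf Tr.lf) (Tr.nd (nat_lit 263) (nat_lit 23) (nat_lit 1) (nat_lit 677) c7_9749_1
 Tr.lf Tr.lf))))))

noncomputable def c7_8789_0 : List Nat := [(nat_lit 0x241da516cd094c6cc551656406a60da81d4a6d16ddcaaa6846108511b4c14c5998aa4c1ed98c11a5082e9a6c48551c096c54c23318b68de9b0bacd45980274840d32b08a6c01495c28834b84b31e42d56584248348808d21ed2e98959b25c4a14a0980adc76656066599658610c95d051d66511771d8ca9e0e08c27ac8e63a9d2e29dc09c5e0ad2a8c8040d21918d62851054da81a7635a04ac6b90a4de06c00a258474200026431825302a74528ba0201399895425268040b136c537262202ac430a812d8c4d444d5a6960e948b4188031cce06eb92110da56543605782d25364ab2570094a7534265d492514a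d5ae985a0b4c70454b5e981989c7121914e0880b2a11944665d6019245e213c320236db053734602c6e331a658d10dd786864d111002231168c2123b15b424159a32de064522a74b0088476a2dc6d2036b4195c0b135d42d78d5565436036c9c458d12011a205b6cbc6b4d0db04720a5b0515cba85645ab6112d8d2eb0140cc2a20e4f261e80db81023b160e46a0d6569e5727052c83352836d8cc8ba5a89cce2654ecc4e1638d919cc1ac4d4b5641c106ce50b956835b112c32c8783489683006c33c31850ce24b669d40201376b89bb16a93b0e7b658e16bae16d858dc9c628d13536242a80cc40a44a2b0c240316b8d50944c4008880ae71209ad7354244ccebd9a381921b5515aa9834e4e5b029231a2b2cb0a3000000000000005056a4004000b098ada69770b4b66372c0c0a19b8a01a2c189b90851e5ab0d1d439a6d75c21224d20180d852112f1d352f6488b03708a16094602af3b72570c89a20acc261744149586a96b5e7500e24321418d89414b666e98e64a000000000000000000000000000000000000000000000000000000000000000000001c1602851e50991e98631c00000000000000000000000000000000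000000000000062d3987b0d2402161535e5800000000ea80964595bb5d00000001d5a5809000000001a6e2e5003022885921465965530724425b851229a8b8daaca9131059468e2594805b601069264ca692968cd99421bac56037a0314cee6a20980932f47a3986c502334092aea59ccdbaa5b009862564309059e68aaad59a5281b1aa18512eb2282e34b46e6c207509427b26e30304519a3b598ce540b6c0058e84089ab45b39669955191b8c661a8255a122472ac9ca4dd300194ed996259c50a8659aa88cd6731d148c0db0b4b58d672dacc2d531a1971da48cc615865b6c853020129ca0e25b60362acaaa73b42ae93908ec200d7541d99d52a9100d47192ac70199e675b804eeae26234dcc267820632a280cdb4ad831ab4e20c9a149012c4e98c30e04808c81814b68251597054608aa050c682c138e274234ced88a18e9904cc35da9d8a2492acb429b8d8901aa595929b26433a0362ac8da6032475b11e8e101422d06cc4334da9a8000000001546cd52e004d68559b9829306b16a16010a1142f120100002126e930404a225b5b24049d44291736272a8c6b2a491ae065382a8a84258543634519d704b926ab02b243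75a02e221a692e684321c6d19168e98b0c4ec4e4c68481b2094a2bb6a1048dd7b43a5a4e53185846d814b5c944102386881925bae79b38180148144bada8a4d4d836a41531298cac384caeab390140000000000000000000000300020012648260180001ecd01298c0000003d9a02531c600000003db68ea08201ec1a266968b362097a6bae24d4b6a6c8c4654a9976e2d2d76ae50d3923b081a437536305d30b72b7467687a1af40001b0006034468d56340268186ab0b18b681b0c06d1c836a00000498000030000d10068d56340240c06d1c9a8000170000d10088da3d43c0002592c4031a049d404cc4801a3409e200a3558ca809a0d60006c3008d46062d02900ca8982800ca2069378c4830d2000000000000018000000d8938001002871578ec5168a91b60009369a6000000000126d34d300602871cd75241112c8942c28d06120000000000000000000000000000000001800021cd200000000000000000000000200000000000000000000001000000002402000288369b36000000000000001016c0000)]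
noncomputable def c7_8789_1 : List Nat := [(nat_lit 0x1b2200000000000000037b4d841400010090000000200000000000000000000001000000000008748238f68c96a61216982ecd140cc531559159671b840e3930612371308a519422564a0209bae8e314003069a69b4800000000034d36900036e445328ec73aa31400800312760000000c0000000000000c1d0cba19273b424c30606d1110555722d6a6628a612808c4ec86c89230ec8977141309dc0c61869b949076c29bb304301bb53d76cb511379d156800860571cf6811d49786a4ec446acab595689ead62f2d8396a8b460b555d688608920e974dd480197486196b399d33316bc2b763661ac8729ba9930065724698b1ddae499d6b2d588b81c94dd92a49d75d33)]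
noncomputable def T7_8789 : Op := Op.mk (nat_lit 79)
 (Tr.nd (nat_lit 148) (nat_lit 1) (nat_lit 63) (nat_lit 2439) c7_8789_0
 (Tr.nd (nat_lit 63) (nat_lit 1) (nat_lit 11) (nat_lit 1167) c7_8789_0
 (Tr.nd (nat_lit 49) (nat_lit 1) (nat_lit 100) (nat_lit 224) c7_8789_0
 (Tr.nd (nat_lit 9) (nat_lit 1) (nat_lit 24) (nat_lit 183) c7_8789_0
 (Tr.nd (nat_lit 7) (nat_lit 1) (nat_lit 24) (nat_lit 84) c7_8789_0
 (Tr.nd (nat_lit 1) (nat_lit 1) (nat_lit 61) (nat_lit 23) c7_8789_0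
 (Tr.nd (nat_lit 0) (nat_lit 1) (nat_lit 23) (nat_lit 0) c7_8789_0
 Tr.lf Tr.lf) Tr.lf) (Tr.nd (nat_lit 8) (nat_lit 1) (nat_lit 75) (nat_lit 108) c7_8789_0
 Tr.lf Tr.lf)) (Tr.nd (nat_lit 15) (nat_lit 1) (nat_lit 7) (nat_lit 211) c7_8789_0
 (Tr.nd (nat_lit 10) (nat_lit 1) (nat_lit 4) (nat_lit 207) c7_8789_0
 Tr.lf Tr.lf) (Tr.nd (nat_lit 16) (nat_lit 2) (nat_lit 3) (nat_lit 218) c7_8789_0
 Tr.lf Tr.lf))) (Tr.nd (nat_lit 56) (nat_lit 1) (nat_lit 116) (nat_lit 723) c7_8789_0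
 (Tr.nd (nat_lit 51) (nat_lit 1) (nat_lit 100) (nat_lit 600) c7_8789_0
 (Tr.nd (nat_lit 50) (nat_lit 1) (nat_lit 276) (nat_lit 324) c7_8789_0
 Tr.lf Tr.lf) (Tr.nd (nat_lit 52) (nat_lit 1) (nat_lit 23) (nat_lit 700) c7_8789_0
 Tr.lf Tr.lf)) (Tr.nd (nat_lit 58) (nat_lit 5) (nat_lit 23) (nat_lit 1022) c7_8789_0
 (Tr.nd (nat_lit 57) (nat_lit 3) (nat_lit 61) (nat_lit 839) c7_8789_0
 Tr.lf Tr.lf) (Tr.nd (nat_lit 59) (nat_lit 5) (nat_lit 6) (nat_lit 1137) c7_8789_0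
 Tr.lf Tr.lf)))) (Tr.nd (nat_lit 106) (nat_lit 5) (nat_lit 37) (nat_lit 1619) c7_8789_0
 (Tr.nd (nat_lit 100) (nat_lit 2) (nat_lit 63) (nat_lit 1392) c7_8789_0
 (Tr.nd (nat_lit 65) (nat_lit 10) (nat_lit 3) (nat_lit 1208) c7_8789_0
 (Tr.nd (nat_lit 64) (nat_lit 5) (nat_lit 6) (nat_lit 1178) c7_8789_0
 Tr.lf Tr.lf) (Tr.nd (nat_lit 99) (nat_lit 1) (nat_lit 154) (nat_lit 1238) c7_8789_0
 Tr.lf Tr.lf)) (Tr.nd (nat_lit 102) (nat_lit 2) (nat_lit 3) (nat_lit 1552) c7_8789_0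
 (Tr.nd (nat_lit 101) (nat_lit 2) (nat_lit 17) (nat_lit 1518) c7_8789_0
 Tr.lf Tr.lf) (Tr.nd (nat_lit 105) (nat_lit 1) (nat_lit 61) (nat_lit 1558) c7_8789_0
 Tr.lf Tr.lf))) (Tr.nd (nat_lit 112) (nat_lit 2) (nat_lit 7) (nat_lit 2082) c7_8789_0
 (Tr.nd (nat_lit 108) (nat_lit 17) (nat_lit 5) (nat_lit 1974) c7_8789_0
 (Tr.nd (nat_lit 107) (nat_lit 10) (nat_lit 17) (nat_lit 1804) c7_8789_0
 Tr.lf Tr.lf) (Tr.nd (nat_lit 109) (nat_lit 23) (nat_lit 1) (nat_lit 2059) c7_8789_0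
 Tr.lf Tr.lf)) (Tr.nd (nat_lit 114) (nat_lit 30) (nat_lit 7) (nat_lit 2166) c7_8789_0
 (Tr.nd (nat_lit 113) (nat_lit 10) (nat_lit 7) (nat_lit 2096) c7_8789_0
 Tr.lf Tr.lf) (Tr.nd (nat_lit 115) (nat_lit 63) (nat_lit 1) (nat_lit 2376) c7_8789_0
 Tr.lf Tr.lf))))) (Tr.nd (nat_lit 204) (nat_lit 5) (nat_lit 6) (nat_lit 3545) c7_8789_0
 (Tr.nd (nat_lit 158) (nat_lit 61) (nat_lit 1) (nat_lit 3101) c7_8789_0
 (Tr.nd (nat_lit 154) (nat_lit 1) (nat_lit 23) (nat_lit 2638) c7_8789_0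
 (Tr.nd (nat_lit 150) (nat_lit 4) (nat_lit 11) (nat_lit 2564) c7_8789_0
 (Tr.nd (nat_lit 149) (nat_lit 2) (nat_lit 31) (nat_lit 2502) c7_8789_0
 Tr.lf Tr.lf) (Tr.nd (nat_lit 151) (nat_lit 6) (nat_lit 5) (nat_lit 2608) c7_8789_0
 Tr.lf Tr.lf)) (Tr.nd (nat_lit 156) (nat_lit 17) (nat_lit 10) (nat_lit 2746) c7_8789_0
 (Tr.nd (nat_lit 155) (nat_lit 5) (nat_lit 17) (nat_lit 2661) c7_8789_0
 Tr.lf Tr.lf) (Tr.nd (nat_lit 157) (nat_lit 37) (nat_lit 5) (nat_lit 2916) c7_8789_0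
 Tr.lf Tr.lf))) (Tr.nd (nat_lit 164) (nat_lit 154) (nat_lit 1) (nat_lit 3328) c7_8789_0
 (Tr.nd (nat_lit 162) (nat_lit 17) (nat_lit 2) (nat_lit 3168) c7_8789_0
 (Tr.nd (nat_lit 161) (nat_lit 2) (nat_lit 3) (nat_lit 3162) c7_8789_0
 Tr.lf Tr.lf) (Tr.nd (nat_lit 163) (nat_lit 63) (nat_lit 2) (nat_lit 3202) c7_8789_0
 Tr.lf Tr.lf)) (Tr.nd (nat_lit 199) (nat_lit 6) (nat_lit 5) (nat_lit 3504) c7_8789_0
 (Tr.nd (nat_lit 198) (nat_lit 2) (nat_lit 11) (nat_lit 3482) c7_8789_0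
 Tr.lf Tr.lf) (Tr.nd (nat_lit 200) (nat_lit 11) (nat_lit 1) (nat_lit 3534) c7_8789_0
 Tr.lf Tr.lf)))) (Tr.nd (nat_lit 247) (nat_lit 2) (nat_lit 3) (nat_lit 476) c7_8789_1
 (Tr.nd (nat_lit 211) (nat_lit 23) (nat_lit 1) (nat_lit 3989) c7_8789_0
 (Tr.nd (nat_lit 206) (nat_lit 61) (nat_lit 3) (nat_lit 3690) c7_8789_0
 (Tr.nd (nat_lit 205) (nat_lit 23) (nat_lit 5) (nat_lit 3575) c7_8789_0
 Tr.lf Tr.lf) (Tr.nd (nat_lit 207) (nat_lit 116) (nat_lit 1) (nat_lit 3873) c7_8789_0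
 Tr.lf Tr.lf)) (Tr.nd (nat_lit 213) (nat_lit 276) (nat_lit 1) (nat_lit 100) c7_8789_1
 (Tr.nd (nat_lit 212) (nat_lit 100) (nat_lit 1) (nat_lit 0) c7_8789_1
 Tr.lf Tr.lf) (Tr.nd (nat_lit 214) (nat_lit 100) (nat_lit 1) (nat_lit 376) c7_8789_1
 Tr.lf Tr.lf))) (Tr.nd (nat_lit 255) (nat_lit 75) (nat_lit 1) (nat_lit 517) c7_8789_1
 (Tr.nd (nat_lit 253) (nat_lit 4) (nat_lit 1) (nat_lit 489) c7_8789_1
 (Tr.nd (nat_lit 248) (nat_lit 7) (nat_lit 1) (nat_lit 482) c7_8789_1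
 Tr.lf Tr.lf) (Tr.nd (nat_lit 254) (nat_lit 24) (nat_lit 1) (nat_lit 493) c7_8789_1
 Tr.lf Tr.lf)) (Tr.nd (nat_lit 262) (nat_lit 61) (nat_lit 1) (nat_lit 616) c7_8789_1
 (Tr.nd (nat_lit 256) (nat_lit 24) (nat_lit 1) (nat_lit 592) c7_8789_1
 Tr.lf Tr.lf) (Tr.nd (nat_lit 263) (nat_lit 23) (nat_lit 1) (nat_lit 677) c7_8789_1
 Tr.lf Tr.lf))))))

noncomputable def c7_9365_0 : List Nat := [(nat_lit 0x26b4e019a7a4ba67b28a8a8964b84e573502c9507439444bd1589cb9829014c66cb6a8cc6a56d9a2dcf1d86af00a47b276d23269a215ae08b1356955a4599acdd7512d924aa86cdd3ac95155271b51e58cb5e12d86bb6460801a0b6081389653c5042a230183058649cebaf5cd86e4ced1aa701333cf042bc6b6817023a6731b9047505e0f34c2b32520a0ccabb458c4008229124163d72b51342d8c01bb0e1a979961940000ec0a866083a5d46bc117206dacb044ba81233ced86695a31a0110114d682622324c4c0b0618ea5d6ec8088a585d6eea6942bdb6cc1cdaab059ed0b45059186c822323d0d5b00686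500ca289c29cd1ad48541a8199c0c22a001da8db6763244c26961d905257456f5cdd719c930100a3666da25b3c2ec9e84b321b9591a41d4601056ee32adab060ac1312b808d52080a2534203025b89033380b231a3cadad4c01185b9ed50d2000052259194a753b267a4573a6bade64895179808492184c1b6c480c512ac8306cb5c34b6d412c46c3850e905144d3a62b1d995a0616d5931dcdc66071b300d11bb3c2b7024daad3b580ad20541528114cac4a63a6e766310018a0a16000ca6b8cc043182aa3d44c958040a548685a14961ec0d61dd55d8e9b1b092c3cea65074034e152464a2a94292b81054bce3671958943d0cb74d84480cabaa6ccda04223573ca2d4b96bd82c05234a806b648a200842cec384000000000000000c556168b1000a044b56a83b5a2c655d76212ce2806024422b72930519334d6b0d83727a168c946126350c65b880eca0c3adad62924c8299d48958b41b48c4506353198b259d0e89c228381b48b43b01b8b44169247276dc6116560100000000000000000000000000000000000000000000000000000000000000000001d12ecb1318434873b235a100000000000000000000000000000000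000000000000019d6689663261644a958294000000052ed62a0d531b9b00000000042e0ca000000015c36115033896215c4083195e40c001452daab9ea101417b4d58114b5619a8f090c04ad9474351d143dae34e40d6b59208c410166563221ec5a60b27115e16504c13511038926b86c298984a05b1db1ca2c898544c5690ab5a142422041546a9bd03c2522d142145b9d6b141621a45c5abd5a24482aaf2aa4683c40b60ceaa4bca89ad613651771099a5e4c69a64e4c194410cbcc076390e3760998f2a4436466876d95e41b570d315883a435820421266b05d6758c49256ab46c2b25220001260aecf5a3020689db56730725000c5e330a4168482548aa201432364a439c0cc632422d9bae318eac04e4ab23a470cd90c446f658e1a98c2a30acaa5c14395375576442e84d3a0731af5d961762005418462f017088c89d29e34625145808b1481b2a6672150494c2b208a666cf21954de21edb674234dd5baccb1404495bacdc70c2501a840000000c5b2062115111145686e6b916819829992e52564db12320000a06e89bc45c2340ea560aa38829d9208e4a0b5194ae92b0086d124db533682f36688045a100c6365aebad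6340c20354c3db550bc0a34c0b62e1c155884d830311e6dcb652eb88a2240d94824d54eb776c4278e06830d71bab18e9d91b9e2da0e076d3821a625964881546b7826ebbadd68629b01a36c86952000018749512428133a4d336c34a66680ca0d55929b2ecdc8d50c500680ca96cd1900d98199516d503715089b3d359334f011a749230d4b4ca92d60a4712b55ae82004d12b01d840883b8a434030a296d9d530ddc2b6d97400d10da2f101b162c30530da62d1b99c73723d098e6d910a361843475d6cb01b882d31bad88132462b59d53499c68c08e174815698205d352215556d0a848f2c1538c042c5c6000c2cd269c6d42e66ac511913da69b281368b3254abb63ae85b3d8e78daea5299acd9820d9b47ab83030c1439b454a749af2054873153ca444ba14c232c19338302b2c645584dd71302e82883388d749d8991b2e00eb4a4a000000000c00006dc8369008060dc01504009b524a5064c8dc80002400000002a0a0080000180000db122d240780606c68cc4c02d33b151130d93b0000000031082341000)]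
noncomputable def c7_9365_1 : List Nat := [(nat_lit 0x2294103800000001b12d86a0aa57a640681e14ec03033009b413b6000030000010110540000000b1e7613b094c0b2b04848cb69a670c274341da826d532a30786b114759127581196e427626ba54784140b306a3ada0ea90e5911847a421970688564a9166a878c88859d26b46a9b46288611847739b4a412d3b63c73d4eaec082533d8d670742d6db6d2d054e781cf6000515af370695325a299c9d1a8b64161c5481b343bb499a3ad6e20dbc405548a6d400308c9aecacc151244871766af518c34ea9221aa54ce138e28c2c57511045b10206da06c0cbc6566bc9ea8d92129802b2db746ad86ae2db34518098247561400cac0760a48104d72b9138a443b6445a66e181)]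
noncomputable def T7_9365 : Op := Op.mk (nat_lit 79)
 (Tr.nd (nat_lit 148) (nat_lit 1) (nat_lit 63) (nat_lit 2439) c7_9365_0
 (Tr.nd (nat_lit 63) (nat_lit 1) (nat_lit 11) (nat_lit 1167) c7_9365_0
 (Tr.nd (nat_lit 49) (nat_lit 1) (nat_lit 100) (nat_lit 224) c7_9365_0
 (Tr.nd (nat_lit 9) (nat_lit 1) (nat_lit 24) (nat_lit 183) c7_9365_0
 (Tr.nd (nat_lit 7) (nat_lit 1) (nat_lit 24) (nat_lit 84) c7_9365_0
 (Tr.nd (nat_lit 1) (nat_lit 1) (nat_lit 61) (nat_lit 23) c7_9365_0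
 (Tr.nd (nat_lit 0) (nat_lit 1) (nat_lit 23) (nat_lit 0) c7_9365_0
 Tr.lf Tr.lf) Tr.lf) (Tr.nd (nat_lit 8) (nat_lit 1) (nat_lit 75) (nat_lit 108) c7_9365_0
 Tr.lf Tr.lf)) (Tr.nd (nat_lit 15) (nat_lit 1) (nat_lit 7) (nat_lit 211) c7_9365_0
 (Tr.nd (nat_lit 10) (nat_lit 1) (nat_lit 4) (nat_lit 207) c7_9365_0
 Tr.lf Tr.lf) (Tr.nd (nat_lit 16) (nat_lit 2) (nat_lit 3) (nat_lit 218) c7_9365_0
 Tr.lf Tr.lf))) (Tr.nd (nat_lit 56) (nat_lit 1) (nat_lit 116) (nat_lit 723) c7_9365_0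
 (Tr.nd (nat_lit 51) (nat_lit 1) (nat_lit 100) (nat_lit 600) c7_9365_0
 (Tr.nd (nat_lit 50) (nat_lit 1) (nat_lit 276) (nat_lit 324) c7_9365_0
 Tr.lf Tr.lf) (Tr.nd (nat_lit 52) (nat_lit 1) (nat_lit 23) (nat_lit 700) c7_9365_0
 Tr.lf Tr.lf)) (Tr.nd (nat_lit 58) (nat_lit 5) (nat_lit 23) (nat_lit 1022) c7_9365_0
 (Tr.nd (nat_lit 57) (nat_lit 3) (nat_lit 61) (nat_lit 839) c7_9365_0
 Tr.lf Tr.lf) (Tr.nd (nat_lit 59) (nat_lit 5) (nat_lit 6) (nat_lit 1137) c7_9365_0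
 Tr.lf Tr.lf)))) (Tr.nd (nat_lit 106) (nat_lit 5) (nat_lit 37) (nat_lit 1619) c7_9365_0
 (Tr.nd (nat_lit 100) (nat_lit 2) (nat_lit 63) (nat_lit 1392) c7_9365_0
 (Tr.nd (nat_lit 65) (nat_lit 10) (nat_lit 3) (nat_lit 1208) c7_9365_0
 (Tr.nd (nat_lit 64) (nat_lit 5) (nat_lit 6) (nat_lit 1178) c7_9365_0
 Tr.lf Tr.lf) (Tr.nd (nat_lit 99) (nat_lit 1) (nat_lit 154) (nat_lit 1238) c7_9365_0
 Tr.lf Tr.lf)) (Tr.nd (nat_lit 102) (nat_lit 2) (nat_lit 3) (nat_lit 1552) c7_9365_0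
 (Tr.nd (nat_lit 101) (nat_lit 2) (nat_lit 17) (nat_lit 1518) c7_9365_0
 Tr.lf Tr.lf) (Tr.nd (nat_lit 105) (nat_lit 1) (nat_lit 61) (nat_lit 1558) c7_9365_0
 Tr.lf Tr.lf))) (Tr.nd (nat_lit 112) (nat_lit 2) (nat_lit 7) (nat_lit 2082) c7_9365_0
 (Tr.nd (nat_lit 108) (nat_lit 17) (nat_lit 5) (nat_lit 1974) c7_9365_0
 (Tr.nd (nat_lit 107) (nat_lit 10) (nat_lit 17) (nat_lit 1804) c7_9365_0
 Tr.lf Tr.lf) (Tr.nd (nat_lit 109) (nat_lit 23) (nat_lit 1) (nat_lit 2059) c7_9365_0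
 Tr.lf Tr.lf)) (Tr.nd (nat_lit 114) (nat_lit 30) (nat_lit 7) (nat_lit 2166) c7_9365_0
 (Tr.nd (nat_lit 113) (nat_lit 10) (nat_lit 7) (nat_lit 2096) c7_9365_0
 Tr.lf Tr.lf) (Tr.nd (nat_lit 115) (nat_lit 63) (nat_lit 1) (nat_lit 2376) c7_9365_0
 Tr.lf Tr.lf))))) (Tr.nd (nat_lit 204) (nat_lit 5) (nat_lit 6) (nat_lit 3545) c7_9365_0
 (Tr.nd (nat_lit 158) (nat_lit 61) (nat_lit 1) (nat_lit 3101) c7_9365_0
 (Tr.nd (nat_lit 154) (nat_lit 1) (nat_lit 23) (nat_lit 2638) c7_9365_0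
 (Tr.nd (nat_lit 150) (nat_lit 4) (nat_lit 11) (nat_lit 2564) c7_9365_0
 (Tr.nd (nat_lit 149) (nat_lit 2) (nat_lit 31) (nat_lit 2502) c7_9365_0
 Tr.lf Tr.lf) (Tr.nd (nat_lit 151) (nat_lit 6) (nat_lit 5) (nat_lit 2608) c7_9365_0
 Tr.lf Tr.lf)) (Tr.nd (nat_lit 156) (nat_lit 17) (nat_lit 10) (nat_lit 2746) c7_9365_0
 (Tr.nd (nat_lit 155) (nat_lit 5) (nat_lit 17) (nat_lit 2661) c7_9365_0
 Tr.lf Tr.lf) (Tr.nd (nat_lit 157) (nat_lit 37) (nat_lit 5) (nat_lit 2916) c7_9365_0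
 Tr.lf Tr.lf))) (Tr.nd (nat_lit 164) (nat_lit 154) (nat_lit 1) (nat_lit 3328) c7_9365_0
 (Tr.nd (nat_lit 162) (nat_lit 17) (nat_lit 2) (nat_lit 3168) c7_9365_0
 (Tr.nd (nat_lit 161) (nat_lit 2) (nat_lit 3) (nat_lit 3162) c7_9365_0
 Tr.lf Tr.lf) (Tr.nd (nat_lit 163) (nat_lit 63) (nat_lit 2) (nat_lit 3202) c7_9365_0
 Tr.lf Tr.lf)) (Tr.nd (nat_lit 199) (nat_lit 6) (nat_lit 5) (nat_lit 3504) c7_9365_0
 (Tr.nd (nat_lit 198) (nat_lit 2) (nat_lit 11) (nat_lit 3482) c7_9365_0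
 Tr.lf Tr.lf) (Tr.nd (nat_lit 200) (nat_lit 11) (nat_lit 1) (nat_lit 3534) c7_9365_0
 Tr.lf Tr.lf)))) (Tr.nd (nat_lit 247) (nat_lit 2) (nat_lit 3) (nat_lit 476) c7_9365_1
 (Tr.nd (nat_lit 211) (nat_lit 23) (nat_lit 1) (nat_lit 3989) c7_9365_0
 (Tr.nd (nat_lit 206) (nat_lit 61) (nat_lit 3) (nat_lit 3690) c7_9365_0
 (Tr.nd (nat_lit 205) (nat_lit 23) (nat_lit 5) (nat_lit 3575) c7_9365_0
 Tr.lf Tr.lf) (Tr.nd (nat_lit 207) (nat_lit 116) (nat_lit 1) (nat_lit 3873) c7_9365_0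
 Tr.lf Tr.lf)) (Tr.nd (nat_lit 213) (nat_lit 276) (nat_lit 1) (nat_lit 100) c7_9365_1
 (Tr.nd (nat_lit 212) (nat_lit 100) (nat_lit 1) (nat_lit 0) c7_9365_1
 Tr.lf Tr.lf) (Tr.nd (nat_lit 214) (nat_lit 100) (nat_lit 1) (nat_lit 376) c7_9365_1
 Tr.lf Tr.lf))) (Tr.nd (nat_lit 255) (nat_lit 75) (nat_lit 1) (nat_lit 517) c7_9365_1
 (Tr.nd (nat_lit 253) (nat_lit 4) (nat_lit 1) (nat_lit 489) c7_9365_1
 (Tr.nd (nat_lit 248) (nat_lit 7) (nat_lit 1) (nat_lit 482) c7_9365_1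
 Tr.lf Tr.lf) (Tr.nd (nat_lit 254) (nat_lit 24) (nat_lit 1) (nat_lit 493) c7_9365_1
 Tr.lf Tr.lf)) (Tr.nd (nat_lit 262) (nat_lit 61) (nat_lit 1) (nat_lit 616) c7_9365_1
 (Tr.nd (nat_lit 256) (nat_lit 24) (nat_lit 1) (nat_lit 592) c7_9365_1
 Tr.lf Tr.lf) (Tr.nd (nat_lit 263) (nat_lit 23) (nat_lit 1) (nat_lit 677) c7_9365_1
 Tr.lf Tr.lf))))))

noncomputable def c7_9509_0 : List Nat := [(nat_lit 0x40d18b6e6865d66d559b1b6d8ac4aa51310cb9a754c5260e6f0a54649335c2411b5a9a76a6145499d4e020b91d6012220dd9284454b3b9e3b64f395ca3021d3338c09a3180a4516441e92ad05af12e94e30d80a8136a2e5696860c150a48ba2661e4d8acab8e0dc258d4a246815a72c9098239dd98db035ea108ce4d9cada0a4031ac31bd916481a83147648a1d820728038ee0f16b071c6064f396b2a21562a8cab50680003621250b44a468ca820ab32a2e75050c65d9a68b6af4282ba202055d1aed514d8d8311abab0a02ce2a10ddd8ccd56d872a620144d6c48b66d51ad12149c2231c549281648d1a3a2b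6e2e669c0b1773c04a1507348d19c72c06198b53431303456299c2e9054aa291ba85170b5090196608c261421c0dd0ab5d90b533d4e81c15ed5514e76d6608da15395ab9322c60d7000f3a14a81351005819d5d8c500c6b15abb644906cbd6c52401e0762d40494f661332c5ac44adb594960e4354c3a88952b95ad8386544b69296d1c3806624f58acd458a48751136aa843a4e5abd50a9a8d14f6ca876aaf244595d2f3a255526acae005394e8ac451cc287004b831495912b64cdc9007128804133548404e898832800dc768961989610c30d682eda5aa4ae2ca251104202c743612b58680aa580a02e60291092399905834b71cd49423cd172ac400e228c664d14974189b669747b271ecdd2560924db6595b6a00000000000000d647a69460002c8258b222b334e10248a798a1d3a3016da4781432adb928d904ac821980cae45c4f5acc18b125cd017028425e73531071d44aa75c8e448623a20b7602948d036b4415c0c12b15ae3512ab8c286e8f3260446a027ac000000000000000000000000000000000000000000000000000000000000000000028450c6d99aaf2546624d1400000000000000000000000000000000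00000000000009131b40e56dc4462b09b1c000000001834c549925134500000003539262400000001970e2c4003926dacd45db22cb6da490c89ba66e12e434b323ab26021a6ca3a73431c1c7228e16468db96684d7898b08a5a24b5890094a116a814821118230e0509acbd4850b5121104a41911907157910f315a16011a0b6354992215a049aea028e853070e2568da104458dac140560b6338e6d6babb8474cb4b535b554a049bb22501ba58cda26b584edb180543186531adcd24ae811ad6d25c72a327ad10a310542cb27544d6a09a1575a08232e3167a074e39a36179a248899d88cc092296e65b09292d772393840a1caee2c012822b25394169d0d4340b10af60ac66941c108b2ad6ea28d6b904d6a625663b2c4a6a022462a15027a585ca1d2055726c46a2331c533266ad3302f49146743089638f0a52788a858067ab3908d3d19d6d5314e604b21126a8e15062684a64e2b4b65296e8281035630dba9e876ad8311c591107754e0600000000db0ae916e0da4a64b682c693c45d1ad1590e86bd455a540003246e46830820ac1348d92855850d176a5b864704002421233696dab4c2099068cb3c547166f6b0b6924c4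42ba318c01b56b62648424c4106732ae5434d131acb64cc80550e979ac595b5b9eb9c39eb1a1492460d28abbb0b442a8c190db5aea5badc575af6081b90c80600d8829a076046a2372460ec7174042e0f5141af2cde4f33ad41414b2c5444831aa6604625d6151d38ab64653c5021a10eca8624d7154530e1292aed2eb0cd1b670a4228268053451b01866e4e259a7011288298855689b18a5476c5ca6e18985e08cc8cb5cd0460408c402c45724cf6202c1ad9d98cd5ec8e84cd0d45656b733786a9a5510411145202f6d764c6ccc18dca2345d8d033232273652ca97452dca70a0dc964d072c12e76bd7635e92e58032c09ca9363145d6998634e0a4689c9536c17088ad30cd565a808d02127410691e52664b72245530e0ad803685b565605238dc9a145806ab1e2840b5c5b76181a3962a1b9302691194c6a66a470c6c5555bb6999d1195a56954000063176c6468111b2ca800803371e3063a94922e00e3000018b82455a32000c00080c00200682003002168c0121915e0280004d6081200044522599da9c00)]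
noncomputable def c7_9509_1 : List Nat := [(nat_lit 0x63762f2522808001210c9a000140ce82c1206168400600413001006010006000585a8a4350c000006c8133a0cdbb81a02c2d34dd850e060e1a570304a553946180c886062f4db5aaaa1b863913d1386c2809346b5311cb14c432b6ceb90811ce55480ca3348dc72212acada13604b50c61a8a52364bd22ce48b262e8a0212d2e3854cb00b4f1bb415080671b984c440e94142f1355d5e69db60c56d0e886d1b8843358f48a2533b15263773913c40820566105d91ca23406209811980f159dd9174a384c9146ba1cc6202c023b5ed9d0ab0b5968720b683018ab8f296c208b848038268ed856850ccc270d4d8ced8ab143b416aa143441602234f251ad4b0c06e29a2013411)]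
noncomputable def T7_9509 : Op := Op.mk (nat_lit 79)
 (Tr.nd (nat_lit 148) (nat_lit 1) (nat_lit 63) (nat_lit 2439) c7_9509_0
 (Tr.nd (nat_lit 63) (nat_lit 1) (nat_lit 11) (nat_lit 1167) c7_9509_0
 (Tr.nd (nat_lit 49) (nat_lit 1) (nat_lit 100) (nat_lit 224) c7_9509_0
 (Tr.nd (nat_lit 9) (nat_lit 1) (nat_lit 24) (nat_lit 183) c7_9509_0
 (Tr.nd (nat_lit 7) (nat_lit 1) (nat_lit 24) (nat_lit 84) c7_9509_0
 (Tr.nd (nat_lit 1) (nat_lit 1) (nat_lit 61) (nat_lit 23) c7_9509_0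
 (Tr.nd (nat_lit 0) (nat_lit 1) (nat_lit 23) (nat_lit 0) c7_9509_0
 Tr.lf Tr.lf) Tr.lf) (Tr.nd (nat_lit 8) (nat_lit 1) (nat_lit 75) (nat_lit 108) c7_9509_0
 Tr.lf Tr.lf)) (Tr.nd (nat_lit 15) (nat_lit 1) (nat_lit 7) (nat_lit 211) c7_9509_0
 (Tr.nd (nat_lit 10) (nat_lit 1) (nat_lit 4) (nat_lit 207) c7_9509_0
 Tr.lf Tr.lf) (Tr.nd (nat_lit 16) (nat_lit 2) (nat_lit 3) (nat_lit 218) c7_9509_0
 Tr.lf Tr.lf))) (Tr.nd (nat_lit 56) (nat_lit 1) (nat_lit 116) (nat_lit 723) c7_9509_0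
 (Tr.nd (nat_lit 51) (nat_lit 1) (nat_lit 100) (nat_lit 600) c7_9509_0
 (Tr.nd (nat_lit 50) (nat_lit 1) (nat_lit 276) (nat_lit 324) c7_9509_0
 Tr.lf Tr.lf) (Tr.nd (nat_lit 52) (nat_lit 1) (nat_lit 23) (nat_lit 700) c7_9509_0
 Tr.lf Tr.lf)) (Tr.nd (nat_lit 58) (nat_lit 5) (nat_lit 23) (nat_lit 1022) c7_9509_0
 (Tr.nd (nat_lit 57) (nat_lit 3) (nat_lit 61) (nat_lit 839) c7_9509_0
 Tr.lf Tr.lf) (Tr.nd (nat_lit 59) (nat_lit 5) (nat_lit 6) (nat_lit 1137) c7_9509_0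
 Tr.lf Tr.lf)))) (Tr.nd (nat_lit 106) (nat_lit 5) (nat_lit 37) (nat_lit 1619) c7_9509_0
 (Tr.nd (nat_lit 100) (nat_lit 2) (nat_lit 63) (nat_lit 1392) c7_9509_0
 (Tr.nd (nat_lit 65) (nat_lit 10) (nat_lit 3) (nat_lit 1208) c7_9509_0
 (Tr.nd (nat_lit 64) (nat_lit 5) (nat_lit 6) (nat_lit 1178) c7_9509_0
 Tr.lf Tr.lf) (Tr.nd (nat_lit 99) (nat_lit 1) (nat_lit 154) (nat_lit 1238) c7_9509_0
 Tr.lf Tr.lf)) (Tr.nd (nat_lit 102) (nat_lit 2) (nat_lit 3) (nat_lit 1552) c7_9509_0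
 (Tr.nd (nat_lit 101) (nat_lit 2) (nat_lit 17) (nat_lit 1518) c7_9509_0
 Tr.lf Tr.lf) (Tr.nd (nat_lit 105) (nat_lit 1) (nat_lit 61) (nat_lit 1558) c7_9509_0
 Tr.lf Tr.lf))) (Tr.nd (nat_lit 112) (nat_lit 2) (nat_lit 7) (nat_lit 2082) c7_9509_0
 (Tr.nd (nat_lit 108) (nat_lit 17) (nat_lit 5) (nat_lit 1974) c7_9509_0
 (Tr.nd (nat_lit 107) (nat_lit 10) (nat_lit 17) (nat_lit 1804) c7_9509_0
 Tr.lf Tr.lf) (Tr.nd (nat_lit 109) (nat_lit 23) (nat_lit 1) (nat_lit 2059) c7_9509_0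
 Tr.lf Tr.lf)) (Tr.nd (nat_lit 114) (nat_lit 30) (nat_lit 7) (nat_lit 2166) c7_9509_0
 (Tr.nd (nat_lit 113) (nat_lit 10) (nat_lit 7) (nat_lit 2096) c7_9509_0
 Tr.lf Tr.lf) (Tr.nd (nat_lit 115) (nat_lit 63) (nat_lit 1) (nat_lit 2376) c7_9509_0
 Tr.lf Tr.lf))))) (Tr.nd (nat_lit 204) (nat_lit 5) (nat_lit 6) (nat_lit 3545) c7_9509_0
 (Tr.nd (nat_lit 158) (nat_lit 61) (nat_lit 1) (nat_lit 3101) c7_9509_0
 (Tr.nd (nat_lit 154) (nat_lit 1) (nat_lit 23) (nat_lit 2638) c7_9509_0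
 (Tr.nd (nat_lit 150) (nat_lit 4) (nat_lit 11) (nat_lit 2564) c7_9509_0
 (Tr.nd (nat_lit 149) (nat_lit 2) (nat_lit 31) (nat_lit 2502) c7_9509_0
 Tr.lf Tr.lf) (Tr.nd (nat_lit 151) (nat_lit 6) (nat_lit 5) (nat_lit 2608) c7_9509_0
 Tr.lf Tr.lf)) (Tr.nd (nat_lit 156) (nat_lit 17) (nat_lit 10) (nat_lit 2746) c7_9509_0
 (Tr.nd (nat_lit 155) (nat_lit 5) (nat_lit 17) (nat_lit 2661) c7_9509_0
 Tr.lf Tr.lf) (Tr.nd (nat_lit 157) (nat_lit 37) (nat_lit 5) (nat_lit 2916) c7_9509_0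
 Tr.lf Tr.lf))) (Tr.nd (nat_lit 164) (nat_lit 154) (nat_lit 1) (nat_lit 3328) c7_9509_0
 (Tr.nd (nat_lit 162) (nat_lit 17) (nat_lit 2) (nat_lit 3168) c7_9509_0
 (Tr.nd (nat_lit 161) (nat_lit 2) (nat_lit 3) (nat_lit 3162) c7_9509_0
 Tr.lf Tr.lf) (Tr.nd (nat_lit 163) (nat_lit 63) (nat_lit 2) (nat_lit 3202) c7_9509_0
 Tr.lf Tr.lf)) (Tr.nd (nat_lit 199) (nat_lit 6) (nat_lit 5) (nat_lit 3504) c7_9509_0
 (Tr.nd (nat_lit 198) (nat_lit 2) (nat_lit 11) (nat_lit 3482) c7_9509_0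
 Tr.lf Tr.lf) (Tr.nd (nat_lit 200) (nat_lit 11) (nat_lit 1) (nat_lit 3534) c7_9509_0
 Tr.lf Tr.lf)))) (Tr.nd (nat_lit 247) (nat_lit 2) (nat_lit 3) (nat_lit 476) c7_9509_1
 (Tr.nd (nat_lit 211) (nat_lit 23) (nat_lit 1) (nat_lit 3989) c7_9509_0
 (Tr.nd (nat_lit 206) (nat_lit 61) (nat_lit 3) (nat_lit 3690) c7_9509_0
 (Tr.nd (nat_lit 205) (nat_lit 23) (nat_lit 5) (nat_lit 3575) c7_9509_0
 Tr.lf Tr.lf) (Tr.nd (nat_lit 207) (nat_lit 116) (nat_lit 1) (nat_lit 3873) c7_9509_0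
 Tr.lf Tr.lf)) (Tr.nd (nat_lit 213) (nat_lit 276) (nat_lit 1) (nat_lit 100) c7_9509_1
 (Tr.nd (nat_lit 212) (nat_lit 100) (nat_lit 1) (nat_lit 0) c7_9509_1
 Tr.lf Tr.lf) (Tr.nd (nat_lit 214) (nat_lit 100) (nat_lit 1) (nat_lit 376) c7_9509_1
 Tr.lf Tr.lf))) (Tr.nd (nat_lit 255) (nat_lit 75) (nat_lit 1) (nat_lit 517) c7_9509_1
 (Tr.nd (nat_lit 253) (nat_lit 4) (nat_lit 1) (nat_lit 489) c7_9509_1
 (Tr.nd (nat_lit 248) (nat_lit 7) (nat_lit 1) (nat_lit 482) c7_9509_1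
 Tr.lf Tr.lf) (Tr.nd (nat_lit 254) (nat_lit 24) (nat_lit 1) (nat_lit 493) c7_9509_1
 Tr.lf Tr.lf)) (Tr.nd (nat_lit 262) (nat_lit 61) (nat_lit 1) (nat_lit 616) c7_9509_1
 (Tr.nd (nat_lit 256) (nat_lit 24) (nat_lit 1) (nat_lit 592) c7_9509_1
 Tr.lf Tr.lf) (Tr.nd (nat_lit 263) (nat_lit 23) (nat_lit 1) (nat_lit 677) c7_9509_1
 Tr.lf Tr.lf))))))

noncomputable def c7_9317_0 : List Nat := [(nat_lit 0x8b64b437670dac04ce8b0baa80e35e416ca2486249102a8692c592b50a49c6d68389891a30942972d59d425916451493771a553a46d9ca12e0b560432ad91572e0e309cc30751095b5cc858b20ebbab0a80cd7abd65859050613d9d359c65855102c6250e876051a2266bca12a978b21c0d35408c001069dad3d92056768bae6167556f36609a2933d15223d9482282599522d3924345304c54cd9b08a204ac9a330b84400033201092372b86536d70a2816496431a35d6d154dbb28330960024cd97290561eba37716a10422a1d889310652b19128136ccd26b2547461a78944b40cd569aa058d8d82a70192e5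a6a546c62066162ebc35808462804d581536a99ae72a42934618931b36e32aad1484af52248b4724c9c5558b014bc0a4ca00419d31d6364b43154e2203811d01d469736ec29c22e933cb4565929bac0089a331b8511882ce3495999a0d90ad49a8aa000b6548581adaa0b6150088ed0da323b4953174344065d237941acd8134246c20d0c0b5d1108663ab91338868668c0b62c6c9ab6409a8b4b65aa468865e46acec4ced45da9cdc8eaba9cf672239531e3424c20992eb4d132e5a9cded45c81c564b1855a4a2cb94466d0064702e9483d7625d624691c0b2508706813b1849ac2452514ba1410a630494454c433538e40635ed0d133a6a3454a50b1a63759cda06ad10061982a01409ad11a41a37a1485c231822400000000000001aa34e8b2000410518490936592208730583764b66004724b1155356eac2cb36c26092f14e8d1c940908a49d09ace6b4ba60a1dab50b813c026c129d64496b9637282f49266458dcb1db202eb4486d019a11989dd8c434d664f1749000000000000000000000000000000000000000000000000000000000000000000006675c44a2c4d6552ba164300000000000000000000000000000000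0000000000000519650518d6c7282e18e180000000068618401255c4ca00000003696414200000000273650a031948552d89430706a1233373082250989cd3259ec05009b9014ea4a6931a9350585cf1b49d088dca5814936890a88869240a39b4a05b50edcc23a84b569e38b05d3432c42930b520cda920449d331d54d505a30f65742da4ca24e24a44a759a64588768269250083309b062645838ec483172da5d43d0ba2b9a857538009290b373d649b492666d8e0d4edaba65a61da91110e58f1d5e3aa24b752cd8a2ecb1ce016a8082a32e8a64d0c52c475412512a801700cc88b64011517489d0b61342f2269c5907028c6e17003069b4361ae99537acba8922533ceacab3a42c670445eb60892d45a65a738414184456ad0d5b2513213452210895350ac53c9c78d6c4046395270284da63536a80ee80450a044b86759c83c01c1b88dd32d64223544a760c8574cae84264a2734c398ab25d2685b6844a4391b083a40763114083133ab7000000005aea1d5358cb404c2b5aa31e360c994ad8a16ec9281450000313b31462b6c12542b36aab586c3397330eb26b01424ba0d1acb2b714dd4d44042624d3d141acd2e8950c2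0500ced43465510c9cc9eae60a8a9e22b6c06c36482e1a96b7144d0881b1d524cc94275894101d573d180d366a9658ea740192bab8e406275042234450aa42da2444c352cc99d2dc60da1c349796744d91b30c1c0b56e98f661d99381a946472154d9e5817a61a954c8a850da554de59c230a2eb0d55440e48e05a01da63da9992d9467420e4c94358e80dc82dd656dc54e162aa174c98aa96208020ca2d320b461bae02b09490860d12f1819c92cc08edaa6081c1e2c4403d0180e5120b5a1ba1492d0cb020886d2950397154276b24d9b458b62c02e1a4d5da05315221d622cdaf30d04dcc3128019575d182aeea44adeac4289a16a4b0f63a279a222744b16083b5dba45b3c7586b0256010148b23959b4d05c303496f4329caca2836a8d67658d98f44b4009b887605a0494a20a994acb0e0a602e96685249d781d99b2c4aa745aa25a60032d404010000ec1b500a0e18ec6801800c25531aa1366972acda00000e141380c6e000180040bb1210240585801c53446c08a90dae34958e04000015080e86e1b4880)]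
noncomputable def c7_9317_1 : List Nat := [(nat_lit 0x149b0d4cc440a8000008c72269d76095046c0a68e204a320090813b5008030000d4e031228c4000051b50e8436ed27513000d2a9671121c2c9419242714f1d9e99a0e8652515a2b5529652f6233ad248cd00b35d10c659522d510589213212b07524099299c2dcb2bc9c56914595636199b269186a269b4ab14528c0b21c75188202bb1c8e64db2b594ae8a49a0eaaa1658999ac25bcd2188626c13422534d1446680dd9a375a1c9328c5c652684a9c561534aeb285888260f3d2616e2232c151b049d0bc0bce1a0aaae9560716cab0b032b8d40e47506230e721846508844d2cc1026c19111d6c39905a6516100041c9547486b315528c6a8dbb2eb448d815cb8225ac4198b)]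
noncomputable def T7_9317 : Op := Op.mk (nat_lit 79)
 (Tr.nd (nat_lit 148) (nat_lit 1) (nat_lit 63) (nat_lit 2439) c7_9317_0
 (Tr.nd (nat_lit 63) (nat_lit 1) (nat_lit 11) (nat_lit 1167) c7_9317_0
 (Tr.nd (nat_lit 49) (nat_lit 1) (nat_lit 100) (nat_lit 224) c7_9317_0
 (Tr.nd (nat_lit 9) (nat_lit 1) (nat_lit 24) (nat_lit 183) c7_9317_0
 (Tr.nd (nat_lit 7) (nat_lit 1) (nat_lit 24) (nat_lit 84) c7_9317_0
 (Tr.nd (nat_lit 1) (nat_lit 1) (nat_lit 61) (nat_lit 23) c7_9317_0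
 (Tr.nd (nat_lit 0) (nat_lit 1) (nat_lit 23) (nat_lit 0) c7_9317_0
 Tr.lf Tr.lf) Tr.lf) (Tr.nd (nat_lit 8) (nat_lit 1) (nat_lit 75) (nat_lit 108) c7_9317_0
 Tr.lf Tr.lf)) (Tr.nd (nat_lit 15) (nat_lit 1) (nat_lit 7) (nat_lit 211) c7_9317_0
 (Tr.nd (nat_lit 10) (nat_lit 1) (nat_lit 4) (nat_lit 207) c7_9317_0
 Tr.lf Tr.lf) (Tr.nd (nat_lit 16) (nat_lit 2) (nat_lit 3) (nat_lit 218) c7_9317_0
 Tr.lf Tr.lf))) (Tr.nd (nat_lit 56) (nat_lit 1) (nat_lit 116) (nat_lit 723) c7_9317_0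
 (Tr.nd (nat_lit 51) (nat_lit 1) (nat_lit 100) (nat_lit 600) c7_9317_0
 (Tr.nd (nat_lit 50) (nat_lit 1) (nat_lit 276) (nat_lit 324) c7_9317_0
 Tr.lf Tr.lf) (Tr.nd (nat_lit 52) (nat_lit 1) (nat_lit 23) (nat_lit 700) c7_9317_0
 Tr.lf Tr.lf)) (Tr.nd (nat_lit 58) (nat_lit 5) (nat_lit 23) (nat_lit 1022) c7_9317_0
 (Tr.nd (nat_lit 57) (nat_lit 3) (nat_lit 61) (nat_lit 839) c7_9317_0
 Tr.lf Tr.lf) (Tr.nd (nat_lit 59) (nat_lit 5) (nat_lit 6) (nat_lit 1137) c7_9317_0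
 Tr.lf Tr.lf)))) (Tr.nd (nat_lit 106) (nat_lit 5) (nat_lit 37) (nat_lit 1619) c7_9317_0
 (Tr.nd (nat_lit 100) (nat_lit 2) (nat_lit 63) (nat_lit 1392) c7_9317_0
 (Tr.nd (nat_lit 65) (nat_lit 10) (nat_lit 3) (nat_lit 1208) c7_9317_0
 (Tr.nd (nat_lit 64) (nat_lit 5) (nat_lit 6) (nat_lit 1178) c7_9317_0
 Tr.lf Tr.lf) (Tr.nd (nat_lit 99) (nat_lit 1) (nat_lit 154) (nat_lit 1238) c7_9317_0
 Tr.lf Tr.lf)) (Tr.nd (nat_lit 102) (nat_lit 2) (nat_lit 3) (nat_lit 1552) c7_9317_0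
 (Tr.nd (nat_lit 101) (nat_lit 2) (nat_lit 17) (nat_lit 1518) c7_9317_0
 Tr.lf Tr.lf) (Tr.nd (nat_lit 105) (nat_lit 1) (nat_lit 61) (nat_lit 1558) c7_9317_0
 Tr.lf Tr.lf))) (Tr.nd (nat_lit 112) (nat_lit 2) (nat_lit 7) (nat_lit 2082) c7_9317_0
 (Tr.nd (nat_lit 108) (nat_lit 17) (nat_lit 5) (nat_lit 1974) c7_9317_0
 (Tr.nd (nat_lit 107) (nat_lit 10) (nat_lit 17) (nat_lit 1804) c7_9317_0
 Tr.lf Tr.lf) (Tr.nd (nat_lit 109) (nat_lit 23) (nat_lit 1) (nat_lit 2059) c7_9317_0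
 Tr.lf Tr.lf)) (Tr.nd (nat_lit 114) (nat_lit 30) (nat_lit 7) (nat_lit 2166) c7_9317_0
 (Tr.nd (nat_lit 113) (nat_lit 10) (nat_lit 7) (nat_lit 2096) c7_9317_0
 Tr.lf Tr.lf) (Tr.nd (nat_lit 115) (nat_lit 63) (nat_lit 1) (nat_lit 2376) c7_9317_0
 Tr.lf Tr.lf))))) (Tr.nd (nat_lit 204) (nat_lit 5) (nat_lit 6) (nat_lit 3545) c7_9317_0
 (Tr.nd (nat_lit 158) (nat_lit 61) (nat_lit 1) (nat_lit 3101) c7_9317_0
 (Tr.nd (nat_lit 154) (nat_lit 1) (nat_lit 23) (nat_lit 2638) c7_9317_0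
 (Tr.nd (nat_lit 150) (nat_lit 4) (nat_lit 11) (nat_lit 2564) c7_9317_0
 (Tr.nd (nat_lit 149) (nat_lit 2) (nat_lit 31) (nat_lit 2502) c7_9317_0
 Tr.lf Tr.lf) (Tr.nd (nat_lit 151) (nat_lit 6) (nat_lit 5) (nat_lit 2608) c7_9317_0
 Tr.lf Tr.lf)) (Tr.nd (nat_lit 156) (nat_lit 17) (nat_lit 10) (nat_lit 2746) c7_9317_0
 (Tr.nd (nat_lit 155) (nat_lit 5) (nat_lit 17) (nat_lit 2661) c7_9317_0
 Tr.lf Tr.lf) (Tr.nd (nat_lit 157) (nat_lit 37) (nat_lit 5) (nat_lit 2916) c7_9317_0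
 Tr.lf Tr.lf))) (Tr.nd (nat_lit 164) (nat_lit 154) (nat_lit 1) (nat_lit 3328) c7_9317_0
 (Tr.nd (nat_lit 162) (nat_lit 17) (nat_lit 2) (nat_lit 3168) c7_9317_0
 (Tr.nd (nat_lit 161) (nat_lit 2) (nat_lit 3) (nat_lit 3162) c7_9317_0
 Tr.lf Tr.lf) (Tr.nd (nat_lit 163) (nat_lit 63) (nat_lit 2) (nat_lit 3202) c7_9317_0
 Tr.lf Tr.lf)) (Tr.nd (nat_lit 199) (nat_lit 6) (nat_lit 5) (nat_lit 3504) c7_9317_0
 (Tr.nd (nat_lit 198) (nat_lit 2) (nat_lit 11) (nat_lit 3482) c7_9317_0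
 Tr.lf Tr.lf) (Tr.nd (nat_lit 200) (nat_lit 11) (nat_lit 1) (nat_lit 3534) c7_9317_0
 Tr.lf Tr.lf)))) (Tr.nd (nat_lit 247) (nat_lit 2) (nat_lit 3) (nat_lit 476) c7_9317_1
 (Tr.nd (nat_lit 211) (nat_lit 23) (nat_lit 1) (nat_lit 3989) c7_9317_0
 (Tr.nd (nat_lit 206) (nat_lit 61) (nat_lit 3) (nat_lit 3690) c7_9317_0
 (Tr.nd (nat_lit 205) (nat_lit 23) (nat_lit 5) (nat_lit 3575) c7_9317_0
 Tr.lf Tr.lf) (Tr.nd (nat_lit 207) (nat_lit 116) (nat_lit 1) (nat_lit 3873) c7_9317_0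
 Tr.lf Tr.lf)) (Tr.nd (nat_lit 213) (nat_lit 276) (nat_lit 1) (nat_lit 100) c7_9317_1
 (Tr.nd (nat_lit 212) (nat_lit 100) (nat_lit 1) (nat_lit 0) c7_9317_1
 Tr.lf Tr.lf) (Tr.nd (nat_lit 214) (nat_lit 100) (nat_lit 1) (nat_lit 376) c7_9317_1
 Tr.lf Tr.lf))) (Tr.nd (nat_lit 255) (nat_lit 75) (nat_lit 1) (nat_lit 517) c7_9317_1
 (Tr.nd (nat_lit 253) (nat_lit 4) (nat_lit 1) (nat_lit 489) c7_9317_1
 (Tr.nd (nat_lit 248) (nat_lit 7) (nat_lit 1) (nat_lit 482) c7_9317_1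
 Tr.lf Tr.lf) (Tr.nd (nat_lit 254) (nat_lit 24) (nat_lit 1) (nat_lit 493) c7_9317_1
 Tr.lf Tr.lf)) (Tr.nd (nat_lit 262) (nat_lit 61) (nat_lit 1) (nat_lit 616) c7_9317_1
 (Tr.nd (nat_lit 256) (nat_lit 24) (nat_lit 1) (nat_lit 592) c7_9317_1
 Tr.lf Tr.lf) (Tr.nd (nat_lit 263) (nat_lit 23) (nat_lit 1) (nat_lit 677) c7_9317_1
 Tr.lf Tr.lf))))))

noncomputable def c7_9545_0 : List Nat := [(nat_lit 0xbaad363a58e3ad86e069ab620da30e3943331a0cab1729a0a8273161ada858553357645a0246e9d60aec45560b1122cad112041ab09e8e6081128cdcc0c8ab429da9176110c94300149db2203ce5431c5034228e423b5c6a4906370a56950b5c7960d0090a44cf12927713220ae35ec2a958673d9d3ab8b3d2110b95609b23694ec02b4962d136b2965010db18a230aa09d1a4cb2c9a11151e01e5ab19363558d96844e60001c6ea05b961d745b5631b23dad32d956d2b393625c890d471902b4cc415c1e91a8e67424b2342a6049e7b2933313ad052924111a28da6a1431229ac12c8d512340e1a82c3a092691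914a61568b25ae2f5d0141e8f240ad1074e39d4702a34ae4cc560672726990330973d92c9a05a648158532213c733007350f218847236e32680d45d8ce881a9a736452cc0b6e53375428275468c2340190d03310b269d44811d92e993d9d96461522595aa5a42dc6027428238b4b4465b996c4581c2b48e693d19d238e9712b0b916d42c8186e39b9a1101c1523097442585843581e4ce0cd7489563822c992d15268b59c7508a45a12b169c50dd5605d35dae222e4647436c01886c1274312a0c8658e06028e8984b991064cd3238629a22331aac9a71b703d64d6b30950829d69634001e3008ecb64d46952873d53516413cda3b654bb4b241da8a8b15925ba4b950385811b8a61459b0eb2e0a45d066c2a45343480000000000000a65b4b023000b9e30452291a7b3d55859828d51173021d6269329bc0c8f03828b0912cb25614823ab59d95922945ac8375dda3d9091c0081814e6ba3aee35d8c385606225423231872ba7575cd74688c01023902d9cdabad859328d0000000000000000000000000000000000000000000000000000000000000000000318c42f2949c1a3127a6ca400000000000000000000000000000000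000000000000001157519b9826917524aa3000000000e32b1aa3224bb200000000694cd6c00000002e19b69402510d745652629a0d41bc26a0d132d1e4dbd8a48ac0952b10243564d283c5dcf66496d822a365a5d2c8b5b4b0ae9d313018e04636cb1324e3b168ea9a06d1cc390385d989621d2544075671d248ae839e324176aa0aa5228dab05d00096a3a5862842642a15a326e62940240dd37569e60225a5058219196725100818a9d4c10c5595598e659e6a2c342a5891d8ccc46684de79ad5aa554c098999e17298475698b25806946c10671206a3a1b0d81353129e90eb424cd4ecb01a8392caf66b4d64ae004aad35903a108060b88399296d4168b52cc79560328eca34112d3c1bb8ab86d26c6a50c0f64dcaa10a568c646494c1d6290a12a26962e580ca0ed94281c05d1b18acf2409af1c6b0a644259ccc2226b99d72594ca8d122b0349245619170c42720a9c96097452062854da514e020936209d6a17a45b3cd210d42959242bd00000000ac291e6144cc4ee2eecb2d6272b2ec843ac42a1b7672520001a9741756646d942bdb60e6142c610db02a408c482ed4255062e382880a716a9a1aad75896db4a3219a45b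98385b36cd29168caaa605b66e903498e1a4d842d6cc076299641915e2001186d96d690ea1d2d26153ac1a632aae084869a231132b62d901b64cda2a9b2343a10ba5acda94471a62b8a9882b270041132815970bd6931860e45dca2584ca9971886910d2b74e42e000b4bc350d875824bcaaac2c0d640044c5a31b0dd71cb31da6575790cb4843a9595c2a2b1cdaec64318d02d6923094dd25d5a6a950c27415a22cd40768911a4b0a58045a6db20c1506c466f1c9bc8d0c59529539589a92ec25cd28613199666c13b4e8a8a1a6c80f4426d9dd8519dca1366765191a4628075a1318d8056b9628b932a6a766a1e1153766b50cd321a9e4b323175b4aea12b40a98d4c2031334e096a046280d0a4ae53421c4938926628db9b0b402a102649d95c7b12c277520b40851cc3026026045121ba08053035555ace5622c9ae5431a98d2c319d5b1368b604436bd25464d461422686d6cd60a3d2e44532b574c41511036005aec05cce4340240845073476c801846332ac701000d48186430000c1c24810161028c0496b2)]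
noncomputable def c7_9545_1 : List Nat := [(nat_lit 0x5932488510832200498c6000182c3006e000223951783830016d8a788a0c00902991e8c895da00d80166c4b4dd44892a396a83d160f1c88b9476cda532aba845ba9e216d562e19660d5382b1d25952ac5da80cad6880456c128a1091091868e2042641bab4193b38ecad2d0031102d1b46dc50b4946928c19a2ae95a35135a3cda72648184865179542a15c4ac494ca2aacacc7020b07980767142584107848ad8ec7539b24d45add8335285e82386896b88651e3153004558c852d700cda58a48d5a112b046d59031c6b7a96db70221c28445220268a26588858075098b30e99964d2a416b02e9414e89898623534eeb26a6c18136e4260e190ed768e55118eca9560c9960b3)]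
noncomputable def T7_9545 : Op := Op.mk (nat_lit 79)
 (Tr.nd (nat_lit 148) (nat_lit 1) (nat_lit 63) (nat_lit 2439) c7_9545_0
 (Tr.nd (nat_lit 63) (nat_lit 1) (nat_lit 11) (nat_lit 1167) c7_9545_0
 (Tr.nd (nat_lit 49) (nat_lit 1) (nat_lit 100) (nat_lit 224) c7_9545_0
 (Tr.nd (nat_lit 9) (nat_lit 1) (nat_lit 24) (nat_lit 183) c7_9545_0
 (Tr.nd (nat_lit 7) (nat_lit 1) (nat_lit 24) (nat_lit 84) c7_9545_0
 (Tr.nd (nat_lit 1) (nat_lit 1) (nat_lit 61) (nat_lit 23) c7_9545_0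
 (Tr.nd (nat_lit 0) (nat_lit 1) (nat_lit 23) (nat_lit 0) c7_9545_0
 Tr.lf Tr.lf) Tr.lf) (Tr.nd (nat_lit 8) (nat_lit 1) (nat_lit 75) (nat_lit 108) c7_9545_0
 Tr.lf Tr.lf)) (Tr.nd (nat_lit 15) (nat_lit 1) (nat_lit 7) (nat_lit 211) c7_9545_0
 (Tr.nd (nat_lit 10) (nat_lit 1) (nat_lit 4) (nat_lit 207) c7_9545_0
 Tr.lf Tr.lf) (Tr.nd (nat_lit 16) (nat_lit 2) (nat_lit 3) (nat_lit 218) c7_9545_0
 Tr.lf Tr.lf))) (Tr.nd (nat_lit 56) (nat_lit 1) (nat_lit 116) (nat_lit 723) c7_9545_0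
 (Tr.nd (nat_lit 51) (nat_lit 1) (nat_lit 100) (nat_lit 600) c7_9545_0
 (Tr.nd (nat_lit 50) (nat_lit 1) (nat_lit 276) (nat_lit 324) c7_9545_0
 Tr.lf Tr.lf) (Tr.nd (nat_lit 52) (nat_lit 1) (nat_lit 23) (nat_lit 700) c7_9545_0
 Tr.lf Tr.lf)) (Tr.nd (nat_lit 58) (nat_lit 5) (nat_lit 23) (nat_lit 1022) c7_9545_0
 (Tr.nd (nat_lit 57) (nat_lit 3) (nat_lit 61) (nat_lit 839) c7_9545_0
 Tr.lf Tr.lf) (Tr.nd (nat_lit 59) (nat_lit 5) (nat_lit 6) (nat_lit 1137) c7_9545_0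
 Tr.lf Tr.lf)))) (Tr.nd (nat_lit 106) (nat_lit 5) (nat_lit 37) (nat_lit 1619) c7_9545_0
 (Tr.nd (nat_lit 100) (nat_lit 2) (nat_lit 63) (nat_lit 1392) c7_9545_0
 (Tr.nd (nat_lit 65) (nat_lit 10) (nat_lit 3) (nat_lit 1208) c7_9545_0
 (Tr.nd (nat_lit 64) (nat_lit 5) (nat_lit 6) (nat_lit 1178) c7_9545_0
 Tr.lf Tr.lf) (Tr.nd (nat_lit 99) (nat_lit 1) (nat_lit 154) (nat_lit 1238) c7_9545_0
 Tr.lf Tr.lf)) (Tr.nd (nat_lit 102) (nat_lit 2) (nat_lit 3) (nat_lit 1552) c7_9545_0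
 (Tr.nd (nat_lit 101) (nat_lit 2) (nat_lit 17) (nat_lit 1518) c7_9545_0
 Tr.lf Tr.lf) (Tr.nd (nat_lit 105) (nat_lit 1) (nat_lit 61) (nat_lit 1558) c7_9545_0
 Tr.lf Tr.lf))) (Tr.nd (nat_lit 112) (nat_lit 2) (nat_lit 7) (nat_lit 2082) c7_9545_0
 (Tr.nd (nat_lit 108) (nat_lit 17) (nat_lit 5) (nat_lit 1974) c7_9545_0
 (Tr.nd (nat_lit 107) (nat_lit 10) (nat_lit 17) (nat_lit 1804) c7_9545_0
 Tr.lf Tr.lf) (Tr.nd (nat_lit 109) (nat_lit 23) (nat_lit 1) (nat_lit 2059) c7_9545_0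
 Tr.lf Tr.lf)) (Tr.nd (nat_lit 114) (nat_lit 30) (nat_lit 7) (nat_lit 2166) c7_9545_0
 (Tr.nd (nat_lit 113) (nat_lit 10) (nat_lit 7) (nat_lit 2096) c7_9545_0
 Tr.lf Tr.lf) (Tr.nd (nat_lit 115) (nat_lit 63) (nat_lit 1) (nat_lit 2376) c7_9545_0
 Tr.lf Tr.lf))))) (Tr.nd (nat_lit 204) (nat_lit 5) (nat_lit 6) (nat_lit 3545) c7_9545_0
 (Tr.nd (nat_lit 158) (nat_lit 61) (nat_lit 1) (nat_lit 3101) c7_9545_0
 (Tr.nd (nat_lit 154) (nat_lit 1) (nat_lit 23) (nat_lit 2638) c7_9545_0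
 (Tr.nd (nat_lit 150) (nat_lit 4) (nat_lit 11) (nat_lit 2564) c7_9545_0
 (Tr.nd (nat_lit 149) (nat_lit 2) (nat_lit 31) (nat_lit 2502) c7_9545_0
 Tr.lf Tr.lf) (Tr.nd (nat_lit 151) (nat_lit 6) (nat_lit 5) (nat_lit 2608) c7_9545_0
 Tr.lf Tr.lf)) (Tr.nd (nat_lit 156) (nat_lit 17) (nat_lit 10) (nat_lit 2746) c7_9545_0
 (Tr.nd (nat_lit 155) (nat_lit 5) (nat_lit 17) (nat_lit 2661) c7_9545_0
 Tr.lf Tr.lf) (Tr.nd (nat_lit 157) (nat_lit 37) (nat_lit 5) (nat_lit 2916) c7_9545_0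
 Tr.lf Tr.lf))) (Tr.nd (nat_lit 164) (nat_lit 154) (nat_lit 1) (nat_lit 3328) c7_9545_0
 (Tr.nd (nat_lit 162) (nat_lit 17) (nat_lit 2) (nat_lit 3168) c7_9545_0
 (Tr.nd (nat_lit 161) (nat_lit 2) (nat_lit 3) (nat_lit 3162) c7_9545_0
 Tr.lf Tr.lf) (Tr.nd (nat_lit 163) (nat_lit 63) (nat_lit 2) (nat_lit 3202) c7_9545_0
 Tr.lf Tr.lf)) (Tr.nd (nat_lit 199) (nat_lit 6) (nat_lit 5) (nat_lit 3504) c7_9545_0
 (Tr.nd (nat_lit 198) (nat_lit 2) (nat_lit 11) (nat_lit 3482) c7_9545_0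
 Tr.lf Tr.lf) (Tr.nd (nat_lit 200) (nat_lit 11) (nat_lit 1) (nat_lit 3534) c7_9545_0
 Tr.lf Tr.lf)))) (Tr.nd (nat_lit 247) (nat_lit 2) (nat_lit 3) (nat_lit 476) c7_9545_1
 (Tr.nd (nat_lit 211) (nat_lit 23) (nat_lit 1) (nat_lit 3989) c7_9545_0
 (Tr.nd (nat_lit 206) (nat_lit 61) (nat_lit 3) (nat_lit 3690) c7_9545_0
 (Tr.nd (nat_lit 205) (nat_lit 23) (nat_lit 5) (nat_lit 3575) c7_9545_0
 Tr.lf Tr.lf) (Tr.nd (nat_lit 207) (nat_lit 116) (nat_lit 1) (nat_lit 3873) c7_9545_0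
 Tr.lf Tr.lf)) (Tr.nd (nat_lit 213) (nat_lit 276) (nat_lit 1) (nat_lit 100) c7_9545_1
 (Tr.nd (nat_lit 212) (nat_lit 100) (nat_lit 1) (nat_lit 0) c7_9545_1
 Tr.lf Tr.lf) (Tr.nd (nat_lit 214) (nat_lit 100) (nat_lit 1) (nat_lit 376) c7_9545_1
 Tr.lf Tr.lf))) (Tr.nd (nat_lit 255) (nat_lit 75) (nat_lit 1) (nat_lit 517) c7_9545_1
 (Tr.nd (nat_lit 253) (nat_lit 4) (nat_lit 1) (nat_lit 489) c7_9545_1
 (Tr.nd (nat_lit 248) (nat_lit 7) (nat_lit 1) (nat_lit 482) c7_9545_1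
 Tr.lf Tr.lf) (Tr.nd (nat_lit 254) (nat_lit 24) (nat_lit 1) (nat_lit 493) c7_9545_1
 Tr.lf Tr.lf)) (Tr.nd (nat_lit 262) (nat_lit 61) (nat_lit 1) (nat_lit 616) c7_9545_1
 (Tr.nd (nat_lit 256) (nat_lit 24) (nat_lit 1) (nat_lit 592) c7_9545_1
 Tr.lf Tr.lf) (Tr.nd (nat_lit 263) (nat_lit 23) (nat_lit 1) (nat_lit 677) c7_9545_1
 Tr.lf Tr.lf))))))

noncomputable def c7_9497_0 : List Nat := [(nat_lit 0x5b061b6c1958114669d0d96ad8208da4a24143102939a78ac75d4ea26144da6b996ea8f5470315c338c3d5a33206e619094046c003910f69a8ae10c2bb6183560130a8accc4b258d49dc61af1c5cae144e33554c729c1354072a9415056a654370972840d4026cbc1030c205d481003741338369996c48a1d4461da948ec62172d1142368ce0e4b4425213636b3114964002059535030a51580d3d85c5b0d68ee24d66460003645a4030140c12ab3a190682a7298949b38da6c0a9172ba7602d53500a31086c44661d59595582486362c93115b6192262eec6ed4566dd617a9030a338f55b547616495105aa11a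1280880610a96ac46315314c433733630994806aa875896a3430d2d86eb51a9158d8565603d2c436918b2e6da8db15eb1d64e62e1583a1192d65c2d7203756aca83b6e1600422b617182cd350dcbb1001cdd3b084a8aad5838c58362102650322ec68d1c648a36414aab4610e5b551b2441d58473d0e4610d3cf3c5256897688065642170ccf3648492b486dbd1e142adc99a40e912ca636a96929b5ad3452c6633a68c0004d3aaa2531816b2b5248833ba530bb09a8c753c8b95b08bd2d24279a79a65b9906eb3acda0b9155544244959d9a01182a3428011396a62d48c4a652d1e78b072644b45786251b8ecd6b2394bb346eeb0802d21875cc8664b6c4c0eb9685901a8a0d1041b4e62708c6725a48b4b6c392e340000000000000ae541a78a0002a10a3913ca4a1d200328934598190023b25d9b213d64cf411676215898479a6c21a5602764b8d8b254a98c4ccd84164c256e8c9466d796068a904eacaa915595682545232ced2e25856ec1a4a20da16a1d11a96529000000000000000000000000000000000000000000000000000000000000000000025713033d20c132dbc24ae000000000000000000000000000000000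00000000000005acd6281d9aa6c27b4ba07400000009581080e500e28c0000000205a25840000000338ac8c200a71d4354e9d6461b66d04db23d20c3380862a3168e0d067487ad61e95d659292d5466265901b9aea344638c0192b6369db213b239d26225c92e49a60a7a9234c662eb4486d421b2980f16564c9d1427286856e303019168d4d755906dabd8e2c36124f0c8134b429c7645d426d58d6ebb40abb4ab55a83519509655645d43a34c80d6640ea4647622cc595512ca79a9552aa0367abca64e36830c66c6249a821a575c9044a286006a9632e8b91469cd06c1682d8504b8e614ed41622d003036328710ee55444c1b1ac018b3b0999a20900375b9a0b1c2d9ad753916aad1a0ac4aab5323330adcc3c49a66d6a71e51dcec02cb98d0c8d8b7583354488c6c3a1b35c72878276169a0122d07297a960e8a1aa1c0e56c460c040444852854c82ac928d8abb2b9c78518037332eb4ba2ed4ed59d012c36e83a494370c904aacab2ac3c00000000444a60b0a1744a9d0396b95a58d4f425b5988a3544c242000320ee40341124439b0a64c002835d5446d59b3661ae9c168a2cedb000e30c4ca368a44e1941452a40cb985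b159112258530748c32eb326813c735a261846b0280ae203c6d19ed1a01cada2a50498db55a58284c8b4a040e5cc410e340249aa6530c6b38c4e8a8cd2e0a6ba54468810adc668928196cd171206d912b538e71e4a03332194a932eb1d70e044821163ce2302181710118999cb0b988664134849032c417168934b8a00ec21b6c31b2a008e56119959b26e1626b352cb52e8ab56263380dd8cc583b4176d858e622dd98d8b28608a094442446a648c6a59b9a2c528a60a906a54d65355a2849159e482b4905d12e40966ccee01630c45d4e0cf4af514b30a2a3155d89952018498ad22220e66864e5b1cb33919b2c25542ea9db817466408152634ccd6c81555bac8730198935cc9683573d4ba7282d9452c9cb6d0ec0602eaf0cd125eb268d86f34249685760f2c504f596bc25a33593d704e47b2031691566a159430912c814a923a286a845b0a028155caab8e35408d348022ea5d12dd8ccd2b2e033d9634401e140d42380020940c00285c4005868100621a014600000081030000348c16108568a46a261a901a)]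
noncomputable def c7_9497_1 : List Nat := [(nat_lit 0x4c0370d05c0d16a060c860690001802100000038804c1c002130c800ea1100602c10003142e028cc0a08259b9415dceeac08685993b4666c4919a11ab2090091bc2b41e29b14572446805929062ca85d2a280cca5b391a1ae6b2785b0676cb9a08e598daa16c90279b0dcd25cc929e19dd40c06c66d96259a2cc714f46cdd2624b35b91abb4c9116b51588535a36ecb314310891102968126ab85b994c4c8c811c95335726b1ec1eb4d47691e296590752881ab38f4568b4585d2ab0ec595d2d8c979db991161238e99adb9202a6b66e2893b2a174881b098a6842a698628538f6450c116760f6b41d1ca36da89b10ce876a4478352a754d62659ba5d0331b5b4ab4283b1c005)]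
noncomputable def T7_9497 : Op := Op.mk (nat_lit 79)
 (Tr.nd (nat_lit 148) (nat_lit 1) (nat_lit 63) (nat_lit 2439) c7_9497_0
 (Tr.nd (nat_lit 63) (nat_lit 1) (nat_lit 11) (nat_lit 1167) c7_9497_0
 (Tr.nd (nat_lit 49) (nat_lit 1) (nat_lit 100) (nat_lit 224) c7_9497_0
 (Tr.nd (nat_lit 9) (nat_lit 1) (nat_lit 24) (nat_lit 183) c7_9497_0
 (Tr.nd (nat_lit 7) (nat_lit 1) (nat_lit 24) (nat_lit 84) c7_9497_0
 (Tr.nd (nat_lit 1) (nat_lit 1) (nat_lit 61) (nat_lit 23) c7_9497_0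
 (Tr.nd (nat_lit 0) (nat_lit 1) (nat_lit 23) (nat_lit 0) c7_9497_0
 Tr.lf Tr.lf) Tr.lf) (Tr.nd (nat_lit 8) (nat_lit 1) (nat_lit 75) (nat_lit 108) c7_9497_0
 Tr.lf Tr.lf)) (Tr.nd (nat_lit 15) (nat_lit 1) (nat_lit 7) (nat_lit 211) c7_9497_0
 (Tr.nd (nat_lit 10) (nat_lit 1) (nat_lit 4) (nat_lit 207) c7_9497_0
 Tr.lf Tr.lf) (Tr.nd (nat_lit 16) (nat_lit 2) (nat_lit 3) (nat_lit 218) c7_9497_0
 Tr.lf Tr.lf))) (Tr.nd (nat_lit 56) (nat_lit 1) (nat_lit 116) (nat_lit 723) c7_9497_0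
 (Tr.nd (nat_lit 51) (nat_lit 1) (nat_lit 100) (nat_lit 600) c7_9497_0
 (Tr.nd (nat_lit 50) (nat_lit 1) (nat_lit 276) (nat_lit 324) c7_9497_0
 Tr.lf Tr.lf) (Tr.nd (nat_lit 52) (nat_lit 1) (nat_lit 23) (nat_lit 700) c7_9497_0
 Tr.lf Tr.lf)) (Tr.nd (nat_lit 58) (nat_lit 5) (nat_lit 23) (nat_lit 1022) c7_9497_0
 (Tr.nd (nat_lit 57) (nat_lit 3) (nat_lit 61) (nat_lit 839) c7_9497_0
 Tr.lf Tr.lf) (Tr.nd (nat_lit 59) (nat_lit 5) (nat_lit 6) (nat_lit 1137) c7_9497_0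
 Tr.lf Tr.lf)))) (Tr.nd (nat_lit 106) (nat_lit 5) (nat_lit 37) (nat_lit 1619) c7_9497_0
 (Tr.nd (nat_lit 100) (nat_lit 2) (nat_lit 63) (nat_lit 1392) c7_9497_0
 (Tr.nd (nat_lit 65) (nat_lit 10) (nat_lit 3) (nat_lit 1208) c7_9497_0
 (Tr.nd (nat_lit 64) (nat_lit 5) (nat_lit 6) (nat_lit 1178) c7_9497_0
 Tr.lf Tr.lf) (Tr.nd (nat_lit 99) (nat_lit 1) (nat_lit 154) (nat_lit 1238) c7_9497_0
 Tr.lf Tr.lf)) (Tr.nd (nat_lit 102) (nat_lit 2) (nat_lit 3) (nat_lit 1552) c7_9497_0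
 (Tr.nd (nat_lit 101) (nat_lit 2) (nat_lit 17) (nat_lit 1518) c7_9497_0
 Tr.lf Tr.lf) (Tr.nd (nat_lit 105) (nat_lit 1) (nat_lit 61) (nat_lit 1558) c7_9497_0
 Tr.lf Tr.lf))) (Tr.nd (nat_lit 112) (nat_lit 2) (nat_lit 7) (nat_lit 2082) c7_9497_0
 (Tr.nd (nat_lit 108) (nat_lit 17) (nat_lit 5) (nat_lit 1974) c7_9497_0
 (Tr.nd (nat_lit 107) (nat_lit 10) (nat_lit 17) (nat_lit 1804) c7_9497_0
 Tr.lf Tr.lf) (Tr.nd (nat_lit 109) (nat_lit 23) (nat_lit 1) (nat_lit 2059) c7_9497_0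
 Tr.lf Tr.lf)) (Tr.nd (nat_lit 114) (nat_lit 30) (nat_lit 7) (nat_lit 2166) c7_9497_0
 (Tr.nd (nat_lit 113) (nat_lit 10) (nat_lit 7) (nat_lit 2096) c7_9497_0
 Tr.lf Tr.lf) (Tr.nd (nat_lit 115) (nat_lit 63) (nat_lit 1) (nat_lit 2376) c7_9497_0
 Tr.lf Tr.lf))))) (Tr.nd (nat_lit 204) (nat_lit 5) (nat_lit 6) (nat_lit 3545) c7_9497_0
 (Tr.nd (nat_lit 158) (nat_lit 61) (nat_lit 1) (nat_lit 3101) c7_9497_0
 (Tr.nd (nat_lit 154) (nat_lit 1) (nat_lit 23) (nat_lit 2638) c7_9497_0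
 (Tr.nd (nat_lit 150) (nat_lit 4) (nat_lit 11) (nat_lit 2564) c7_9497_0
 (Tr.nd (nat_lit 149) (nat_lit 2) (nat_lit 31) (nat_lit 2502) c7_9497_0
 Tr.lf Tr.lf) (Tr.nd (nat_lit 151) (nat_lit 6) (nat_lit 5) (nat_lit 2608) c7_9497_0
 Tr.lf Tr.lf)) (Tr.nd (nat_lit 156) (nat_lit 17) (nat_lit 10) (nat_lit 2746) c7_9497_0
 (Tr.nd (nat_lit 155) (nat_lit 5) (nat_lit 17) (nat_lit 2661) c7_9497_0
 Tr.lf Tr.lf) (Tr.nd (nat_lit 157) (nat_lit 37) (nat_lit 5) (nat_lit 2916) c7_9497_0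
 Tr.lf Tr.lf))) (Tr.nd (nat_lit 164) (nat_lit 154) (nat_lit 1) (nat_lit 3328) c7_9497_0
 (Tr.nd (nat_lit 162) (nat_lit 17) (nat_lit 2) (nat_lit 3168) c7_9497_0
 (Tr.nd (nat_lit 161) (nat_lit 2) (nat_lit 3) (nat_lit 3162) c7_9497_0
 Tr.lf Tr.lf) (Tr.nd (nat_lit 163) (nat_lit 63) (nat_lit 2) (nat_lit 3202) c7_9497_0
 Tr.lf Tr.lf)) (Tr.nd (nat_lit 199) (nat_lit 6) (nat_lit 5) (nat_lit 3504) c7_9497_0
 (Tr.nd (nat_lit 198) (nat_lit 2) (nat_lit 11) (nat_lit 3482) c7_9497_0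
 Tr.lf Tr.lf) (Tr.nd (nat_lit 200) (nat_lit 11) (nat_lit 1) (nat_lit 3534) c7_9497_0
 Tr.lf Tr.lf)))) (Tr.nd (nat_lit 247) (nat_lit 2) (nat_lit 3) (nat_lit 476) c7_9497_1
 (Tr.nd (nat_lit 211) (nat_lit 23) (nat_lit 1) (nat_lit 3989) c7_9497_0
 (Tr.nd (nat_lit 206) (nat_lit 61) (nat_lit 3) (nat_lit 3690) c7_9497_0
 (Tr.nd (nat_lit 205) (nat_lit 23) (nat_lit 5) (nat_lit 3575) c7_9497_0
 Tr.lf Tr.lf) (Tr.nd (nat_lit 207) (nat_lit 116) (nat_lit 1) (nat_lit 3873) c7_9497_0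
 Tr.lf Tr.lf)) (Tr.nd (nat_lit 213) (nat_lit 276) (nat_lit 1) (nat_lit 100) c7_9497_1
 (Tr.nd (nat_lit 212) (nat_lit 100) (nat_lit 1) (nat_lit 0) c7_9497_1
 Tr.lf Tr.lf) (Tr.nd (nat_lit 214) (nat_lit 100) (nat_lit 1) (nat_lit 376) c7_9497_1
 Tr.lf Tr.lf))) (Tr.nd (nat_lit 255) (nat_lit 75) (nat_lit 1) (nat_lit 517) c7_9497_1
 (Tr.nd (nat_lit 253) (nat_lit 4) (nat_lit 1) (nat_lit 489) c7_9497_1
 (Tr.nd (nat_lit 248) (nat_lit 7) (nat_lit 1) (nat_lit 482) c7_9497_1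
 Tr.lf Tr.lf) (Tr.nd (nat_lit 254) (nat_lit 24) (nat_lit 1) (nat_lit 493) c7_9497_1
 Tr.lf Tr.lf)) (Tr.nd (nat_lit 262) (nat_lit 61) (nat_lit 1) (nat_lit 616) c7_9497_1
 (Tr.nd (nat_lit 256) (nat_lit 24) (nat_lit 1) (nat_lit 592) c7_9497_1
 Tr.lf Tr.lf) (Tr.nd (nat_lit 263) (nat_lit 23) (nat_lit 1) (nat_lit 677) c7_9497_1
 Tr.lf Tr.lf))))))

noncomputable def c7_9554_0 : List Nat := [(nat_lit 0x2cd4cd4c806c11254e2632c864a1924818353b485130591db88a23ccd6a513396ac967a330d1616da268003a4bbb56462ebb0c6c82992560a99a0865d10b566ca2c2ad5ae01218015ac4deae550c8ce55d6d0d7512c8e860841b20b0602c208db482880a38028a885a152330d8ba10b88411d2010985d10c9109a5508410a2a049342c418e129c4e89824202dd4ad24c3809287a50e25350ed7a36130f19566d83a8941600020156106b5aa6da5ed187146404013560add9376db4212e12301ba161a460e11e82e9a64e57a1a2bd34b9a56bccb56ed70d6582e525c2309d5ad664536bae8c0369100b7035e14ca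aa4f04a320aa8689a34d10ea02b45694d9040b57120570918e4ca713b9ed9e113c0352b0d386a109cdac4eaa533238c90d534ce479a68b1152c511eb106a111ab8aa40708d6150351dd0c1b6cd648101eb62702229a5570aa5331e982934073c08651c756d51696da79c8ec41318934130b45ec29ce520298bd34a1b242601ba132a956948636b15cabc90129b051aa85d24242c965c8654e12dd94c2cb245a94aa66470c38472d298d32ad3cc2c09ca36ccb66c70d1c4337355aa16c0f3404a894734e939ac5895db0ed2812a429210c6ba60ad0b6eba055406215a68b814b9e210b020093126e6ac6b6107686ba5d3527a32861b1ab1745a22224233ce97b0c8d3b6c253ad96d23386cd429288856058f155e4cc900000000000000a0da10a9200094c64004b56ad73285a6cac11aaccb01b05804484830e2d921a68d75e0e42f6963718b6530bb286aa81ca6c8642c8a5aac22d8b64410a2c8304153b6db502edb6c6a0861251420a4b436507533416643253631154c500000000000000000000000000000000000000000000000000000000000000000000d65931d2cb30c9811180db00000000000000000000000000000000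0000000000000b13505358d2314e8cc0ce7400000002c38a2aee7aa80800000001d2cdb9100000000606d341015a5541502485acea39ca03a14075341b6d4340ceb2686cd75d2e5682e13aec45a2a99e19ac9928409eaeb3888f2cd930646003572cd24d3577036dc4565a2b150915a38e4b3babd6a17031594575e419a05705c2a8107803ac2da4aa85e71c5064a0848295ac2235264c2b80b2a5b1296c98d22950938c4b13194137acd91bab388805a4612691d4191b44ed0368a574e0e9b3619e929211721188650d1338a943b1da105ab49db2682a62a81e6b272a0a58db368a9bb8e28b0467889a4434ce168d463a8d3414235007752d2c1ad36863a044d4c7500cc095b35a1215122c25a98ba26135b395a8e1aa18314e0a56ca92ab6448994eb6c40c84c439e79e8f4c933a624cd4886d6420b6893a2d405c60a694d4c1544171219a555868ce91ad02036901cd75da290bb72ad0706b22d44b2e1aed6a65e76a4f59a6745333b1ad34d40000000836d066240d0a5b72ed6a0356880e98adb05c8200b8a3000026a5816e11dd42b16a584e97465532a4b6642478435682175005d152584003042691998cc186ba6e2e8663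4c3024a0b84d53214e321c6aa7442130825a6b248175e8a00ae48cb12218648ad510b16904b824ce0348a0ba0e9b4ab402162d88a91244b3039634880048021437400d16c5a6abab703d351348444acb6c5a4175cad0da055b2eae10e579a102dada30d88a194d285e3656344e6674888aa8c993b369503355ca6a4a094805aa5aa590551258dc4565436b096bd205262d31834e22c3c91496b05258940904510cd1a18026449445005028402c6878045d740500d010e8b70d201881004f4a710207a06500b30a6c0eb16d98542302906d83ac12581a0146b84cc6d844ac61dc0b76232a8f66e430ed9b645a36d1d0ad75eaed464c4b75c46581139ab9b79221219e812ae36de773848a562e5806d30001040036d248000d00d2036c00d40d846b660602d35e0360301208ad02da0370020d55ea260286a221e0ed4ad70436e6f2c26c84baba5ba4c8806c01a94c9a4561006c4c917012804929d35c5108460cb1255a049a056b22643000485616914186d0682182d50682181b80c0a4cb4d32cc9204901221449020)]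
noncomputable def c7_9554_1 : List Nat := [(nat_lit 0x10024a30122480125e5a69969108446c4304c22b44304c26c308a4c83a1200060b525c884d2132b2045280d0b117442ccf583679c5694292d3242d0e2db628533b1c50379d816d0659bd69823b52b58cc1500ac2d05ceaa41023605b40b54120180d80ce9b40c03d9383602e006d80498098004926d80008200318a4c5ad1986649a34914580db65625bc244190538000c6b5593594d532c411264a029076c182062c4342088bad14c3af211dd15a0e64a294813948b50d9a1aa8a44d5acab54242a45b014db5720d28024a99894c90e40118aca7299e76daa98302216414a1b14a0a24ad000c529e0a282402c0c9a25c9229661951a630699d2212676c19362ac8a8dcb20a88)]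
noncomputable def T7_9554 : Op := Op.mk (nat_lit 79)
 (Tr.nd (nat_lit 148) (nat_lit 1) (nat_lit 63) (nat_lit 2439) c7_9554_0
 (Tr.nd (nat_lit 63) (nat_lit 1) (nat_lit 11) (nat_lit 1167) c7_9554_0
 (Tr.nd (nat_lit 49) (nat_lit 1) (nat_lit 100) (nat_lit 224) c7_9554_0
 (Tr.nd (nat_lit 9) (nat_lit 1) (nat_lit 24) (nat_lit 183) c7_9554_0
 (Tr.nd (nat_lit 7) (nat_lit 1) (nat_lit 24) (nat_lit 84) c7_9554_0
 (Tr.nd (nat_lit 1) (nat_lit 1) (nat_lit 61) (nat_lit 23) c7_9554_0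
 (Tr.nd (nat_lit 0) (nat_lit 1) (nat_lit 23) (nat_lit 0) c7_9554_0
 Tr.lf Tr.lf) Tr.lf) (Tr.nd (nat_lit 8) (nat_lit 1) (nat_lit 75) (nat_lit 108) c7_9554_0
 Tr.lf Tr.lf)) (Tr.nd (nat_lit 15) (nat_lit 1) (nat_lit 7) (nat_lit 211) c7_9554_0
 (Tr.nd (nat_lit 10) (nat_lit 1) (nat_lit 4) (nat_lit 207) c7_9554_0
 Tr.lf Tr.lf) (Tr.nd (nat_lit 16) (nat_lit 2) (nat_lit 3) (nat_lit 218) c7_9554_0
 Tr.lf Tr.lf))) (Tr.nd (nat_lit 56) (nat_lit 1) (nat_lit 116) (nat_lit 723) c7_9554_0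
 (Tr.nd (nat_lit 51) (nat_lit 1) (nat_lit 100) (nat_lit 600) c7_9554_0
 (Tr.nd (nat_lit 50) (nat_lit 1) (nat_lit 276) (nat_lit 324) c7_9554_0
 Tr.lf Tr.lf) (Tr.nd (nat_lit 52) (nat_lit 1) (nat_lit 23) (nat_lit 700) c7_9554_0
 Tr.lf Tr.lf)) (Tr.nd (nat_lit 58) (nat_lit 5) (nat_lit 23) (nat_lit 1022) c7_9554_0
 (Tr.nd (nat_lit 57) (nat_lit 3) (nat_lit 61) (nat_lit 839) c7_9554_0
 Tr.lf Tr.lf) (Tr.nd (nat_lit 59) (nat_lit 5) (nat_lit 6) (nat_lit 1137) c7_9554_0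
 Tr.lf Tr.lf)))) (Tr.nd (nat_lit 106) (nat_lit 5) (nat_lit 37) (nat_lit 1619) c7_9554_0
 (Tr.nd (nat_lit 100) (nat_lit 2) (nat_lit 63) (nat_lit 1392) c7_9554_0
 (Tr.nd (nat_lit 65) (nat_lit 10) (nat_lit 3) (nat_lit 1208) c7_9554_0
 (Tr.nd (nat_lit 64) (nat_lit 5) (nat_lit 6) (nat_lit 1178) c7_9554_0
 Tr.lf Tr.lf) (Tr.nd (nat_lit 99) (nat_lit 1) (nat_lit 154) (nat_lit 1238) c7_9554_0
 Tr.lf Tr.lf)) (Tr.nd (nat_lit 102) (nat_lit 2) (nat_lit 3) (nat_lit 1552) c7_9554_0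
 (Tr.nd (nat_lit 101) (nat_lit 2) (nat_lit 17) (nat_lit 1518) c7_9554_0
 Tr.lf Tr.lf) (Tr.nd (nat_lit 105) (nat_lit 1) (nat_lit 61) (nat_lit 1558) c7_9554_0
 Tr.lf Tr.lf))) (Tr.nd (nat_lit 112) (nat_lit 2) (nat_lit 7) (nat_lit 2082) c7_9554_0
 (Tr.nd (nat_lit 108) (nat_lit 17) (nat_lit 5) (nat_lit 1974) c7_9554_0
 (Tr.nd (nat_lit 107) (nat_lit 10) (nat_lit 17) (nat_lit 1804) c7_9554_0
 Tr.lf Tr.lf) (Tr.nd (nat_lit 109) (nat_lit 23) (nat_lit 1) (nat_lit 2059) c7_9554_0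
 Tr.lf Tr.lf)) (Tr.nd (nat_lit 114) (nat_lit 30) (nat_lit 7) (nat_lit 2166) c7_9554_0
 (Tr.nd (nat_lit 113) (nat_lit 10) (nat_lit 7) (nat_lit 2096) c7_9554_0
 Tr.lf Tr.lf) (Tr.nd (nat_lit 115) (nat_lit 63) (nat_lit 1) (nat_lit 2376) c7_9554_0
 Tr.lf Tr.lf))))) (Tr.nd (nat_lit 204) (nat_lit 5) (nat_lit 6) (nat_lit 3545) c7_9554_0
 (Tr.nd (nat_lit 158) (nat_lit 61) (nat_lit 1) (nat_lit 3101) c7_9554_0
 (Tr.nd (nat_lit 154) (nat_lit 1) (nat_lit 23) (nat_lit 2638) c7_9554_0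
 (Tr.nd (nat_lit 150) (nat_lit 4) (nat_lit 11) (nat_lit 2564) c7_9554_0
 (Tr.nd (nat_lit 149) (nat_lit 2) (nat_lit 31) (nat_lit 2502) c7_9554_0
 Tr.lf Tr.lf) (Tr.nd (nat_lit 151) (nat_lit 6) (nat_lit 5) (nat_lit 2608) c7_9554_0
 Tr.lf Tr.lf)) (Tr.nd (nat_lit 156) (nat_lit 17) (nat_lit 10) (nat_lit 2746) c7_9554_0
 (Tr.nd (nat_lit 155) (nat_lit 5) (nat_lit 17) (nat_lit 2661) c7_9554_0
 Tr.lf Tr.lf) (Tr.nd (nat_lit 157) (nat_lit 37) (nat_lit 5) (nat_lit 2916) c7_9554_0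
 Tr.lf Tr.lf))) (Tr.nd (nat_lit 164) (nat_lit 154) (nat_lit 1) (nat_lit 3328) c7_9554_0
 (Tr.nd (nat_lit 162) (nat_lit 17) (nat_lit 2) (nat_lit 3168) c7_9554_0
 (Tr.nd (nat_lit 161) (nat_lit 2) (nat_lit 3) (nat_lit 3162) c7_9554_0
 Tr.lf Tr.lf) (Tr.nd (nat_lit 163) (nat_lit 63) (nat_lit 2) (nat_lit 3202) c7_9554_0
 Tr.lf Tr.lf)) (Tr.nd (nat_lit 199) (nat_lit 6) (nat_lit 5) (nat_lit 3504) c7_9554_0
 (Tr.nd (nat_lit 198) (nat_lit 2) (nat_lit 11) (nat_lit 3482) c7_9554_0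
 Tr.lf Tr.lf) (Tr.nd (nat_lit 200) (nat_lit 11) (nat_lit 1) (nat_lit 3534) c7_9554_0
 Tr.lf Tr.lf)))) (Tr.nd (nat_lit 247) (nat_lit 2) (nat_lit 3) (nat_lit 476) c7_9554_1
 (Tr.nd (nat_lit 211) (nat_lit 23) (nat_lit 1) (nat_lit 3989) c7_9554_0
 (Tr.nd (nat_lit 206) (nat_lit 61) (nat_lit 3) (nat_lit 3690) c7_9554_0
 (Tr.nd (nat_lit 205) (nat_lit 23) (nat_lit 5) (nat_lit 3575) c7_9554_0
 Tr.lf Tr.lf) (Tr.nd (nat_lit 207) (nat_lit 116) (nat_lit 1) (nat_lit 3873) c7_9554_0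
 Tr.lf Tr.lf)) (Tr.nd (nat_lit 213) (nat_lit 276) (nat_lit 1) (nat_lit 100) c7_9554_1
 (Tr.nd (nat_lit 212) (nat_lit 100) (nat_lit 1) (nat_lit 0) c7_9554_1
 Tr.lf Tr.lf) (Tr.nd (nat_lit 214) (nat_lit 100) (nat_lit 1) (nat_lit 376) c7_9554_1
 Tr.lf Tr.lf))) (Tr.nd (nat_lit 255) (nat_lit 75) (nat_lit 1) (nat_lit 517) c7_9554_1
 (Tr.nd (nat_lit 253) (nat_lit 4) (nat_lit 1) (nat_lit 489) c7_9554_1
 (Tr.nd (nat_lit 248) (nat_lit 7) (nat_lit 1) (nat_lit 482) c7_9554_1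
 Tr.lf Tr.lf) (Tr.nd (nat_lit 254) (nat_lit 24) (nat_lit 1) (nat_lit 493) c7_9554_1
 Tr.lf Tr.lf)) (Tr.nd (nat_lit 262) (nat_lit 61) (nat_lit 1) (nat_lit 616) c7_9554_1
 (Tr.nd (nat_lit 256) (nat_lit 24) (nat_lit 1) (nat_lit 592) c7_9554_1
 Tr.lf Tr.lf) (Tr.nd (nat_lit 263) (nat_lit 23) (nat_lit 1) (nat_lit 677) c7_9554_1
 Tr.lf Tr.lf))))))

noncomputable def c7_9542_0 : List Nat := [(nat_lit 0x840802bb52f065b04a999c2bb62556842d30d0e741ac07b13009584c9324936083a12413a8b7884a8848b88342c5d795a9c35e5312aa0d50e2b0981ecb2b0c60a609a1a344b14d6a58192ab911759742505996d119ca6d02c8d884404c7902f3a833b508105b46281ead9c054b5c321b0c8b264ac92c2563daa2497a9ac3b5d8a9a324f6429410944a0312c9142b5ab0541d8dc9623474b8d055bc9c8a658b2133257b5000010d6c125d154d6044959160160b60a18595d2bcf318259435b00b06a21c2460b38b0729bae910b1891078eab6969cb0923262c0d2443165057403ad6b44d68a694c55bd93c2b4600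ca329a0541bb48742b1677005cc5913385d91c101319cea32b5129a3713c4a40ea3024ca24ae932197514a24524d276c92a1315a9b63523b6153631d5b4532d9d11746789236d996c4240b62a4325c0304f5cce6a9b8c0a8786c546dcdadb007598430060548dc9825b2b509b2d1a86662512259936b0dc0446285434b3736753d89361aa6391c55751d02b88658449c84b84b6051e60ac530b194e4d29181a0c31856010286c2e0438892b30c51ac3b593154532d36984b3ad475db5cd10f4498b6990db84060105db3cb1d5ecd5c5a2500db50d0933168d45a222979298264d20650680c4940b2a81d9c34ad9b61d153ada2a3894085a626a300ac76b268d026e50dd1a1282305a295b82cb99c10aa4b2c991565c00000000000000b04724b33000d09a247b146a05921c28b893af3772024862980d8c15adb1296a61720b301b041dc8e4eb320d736946862e306b901cd429ada5bab5410b0d44902b0d550b42aa9950920b86408a9dd6cd9346278891d21c6704e24de000000000000000000000000000000000000000000000000000000000000000000026b11372c5e0cad809a592300000000000000000000000000000000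0000000000000348d132f64ad8301b050890000000066268b860acad4b0000000111518c600000001398d39e033a25724906b2a2b49659150862900c1a847042eb12b60bb6889941dd5dbac483d33c94922c9606152355e0662ee223d01d8858999da9c305b4edaab3664093642179101398bd0d2ea69220ea8e48904c0cb04ca15d6e58c2b2b0e512da57ac743996c9eaa2028b90b622117acd6c7b18c24a110b9924d01890acce202824e498d6218146ac7360e97507528cce5c367b60cba2bca115001265945b80e8064e508aca4583ba38293922d9b6b50a1a2034c444348dc888c0060c2eb025b768db88ec33150875353c5eb80c8380b6ce5a904b81b246ba0a463a922631c64d76c34166ed714a9db24ec702495c4db8ba4841d57564c453730d19400d88489ce46c64ac4f4c8b24c04c8e4acc7a02ce8c81abca542b06d6c2a0536145810a7466b66ea86cd14c9a993b7102ba22ca1809a4650972419636cd95c730a40e50a4d7536318000000088348e65c3a800979c085526781195a9d0d6ced128128200014cc0114d1696516d45a60d42dac2a32d32529636aa41693a9da1a18b6312269c04d494385c4589942b192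7b489dc5307575a39c8715145b115b90d62e0f4383b428404decc40494e83983752c44c328ed0c3028b3aa8d4ab06a52a58461af31520b639db4868ab622212430210162eb98e6f3d128a4328a2a55c25381866a40ac309254d88e686805eb2dcd415320689598d8f4cea85e6cb4d9903d05bad150cd91926590486cb199bb540400c9002002c3908d02aa9d1e84039c874760a995439221695510c50c63b5ced02db40b06d2d5020a680c1a40739899188065a1d59b93c2599a8e309ece67b4074c601a317361b6d541a22804e94ea017a032d9b5165d254ccb4290ebaeb134148d118d0f10e22815b596c88cd6bd35c8b714a86c6c81230502b8a6b4600856c7a2943ad03b69542e4b74af100002d53405daddca4a628e30c54294a02635769a9b8ab24930292cee75252e84b85484e443d41d1901c97372e98d452d294e38621b5ab106904e44c08446e15e2ab44376b2216ddd7615859b002485021ad891674b148c762e564c016240601982aab00124120ab9634120ab9632dd29b29a6cb42c234a5b0956d68d)]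
noncomputable def c7_9542_1 : List Nat := [(nat_lit 0xa53b6a265b1270642d94d365366b61cb5441229cb5441209200755434203009c8084bb19d8e06866b328a22ab049c499a1195cb0d0d06d24e3b25954ba16454f4303116ce0395bb050c71a36648aa74d637807252e622e60ac4c88c64cd624abd5e4911a4925475374daa709112342a1871c50d916addac89a26a30cddae78496a7009260e96e33b0900533268b64198c8a4a3cb146c935529969431b0b0c0d556ee113972700b36a2da6280618bd96af378dc04da9cb6983c8b4f3d45d59164d2241cd2cac4c610cd89bae658912ca198a5b9a345c5b2c0b2ad70261d84cd5b71422b66c2502db40b5ebb1c18a182aa36852462a2d512b98c8f100cce6355426064619001024)]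
noncomputable def T7_9542 : Op := Op.mk (nat_lit 79)
 (Tr.nd (nat_lit 148) (nat_lit 1) (nat_lit 63) (nat_lit 2439) c7_9542_0
 (Tr.nd (nat_lit 63) (nat_lit 1) (nat_lit 11) (nat_lit 1167) c7_9542_0
 (Tr.nd (nat_lit 49) (nat_lit 1) (nat_lit 100) (nat_lit 224) c7_9542_0
 (Tr.nd (nat_lit 9) (nat_lit 1) (nat_lit 24) (nat_lit 183) c7_9542_0
 (Tr.nd (nat_lit 7) (nat_lit 1) (nat_lit 24) (nat_lit 84) c7_9542_0
 (Tr.nd (nat_lit 1) (nat_lit 1) (nat_lit 61) (nat_lit 23) c7_9542_0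
 (Tr.nd (nat_lit 0) (nat_lit 1) (nat_lit 23) (nat_lit 0) c7_9542_0
 Tr.lf Tr.lf) Tr.lf) (Tr.nd (nat_lit 8) (nat_lit 1) (nat_lit 75) (nat_lit 108) c7_9542_0
 Tr.lf Tr.lf)) (Tr.nd (nat_lit 15) (nat_lit 1) (nat_lit 7) (nat_lit 211) c7_9542_0
 (Tr.nd (nat_lit 10) (nat_lit 1) (nat_lit 4) (nat_lit 207) c7_9542_0
 Tr.lf Tr.lf) (Tr.nd (nat_lit 16) (nat_lit 2) (nat_lit 3) (nat_lit 218) c7_9542_0
 Tr.lf Tr.lf))) (Tr.nd (nat_lit 56) (nat_lit 1) (nat_lit 116) (nat_lit 723) c7_9542_0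
 (Tr.nd (nat_lit 51) (nat_lit 1) (nat_lit 100) (nat_lit 600) c7_9542_0
 (Tr.nd (nat_lit 50) (nat_lit 1) (nat_lit 276) (nat_lit 324) c7_9542_0
 Tr.lf Tr.lf) (Tr.nd (nat_lit 52) (nat_lit 1) (nat_lit 23) (nat_lit 700) c7_9542_0
 Tr.lf Tr.lf)) (Tr.nd (nat_lit 58) (nat_lit 5) (nat_lit 23) (nat_lit 1022) c7_9542_0
 (Tr.nd (nat_lit 57) (nat_lit 3) (nat_lit 61) (nat_lit 839) c7_9542_0
 Tr.lf Tr.lf) (Tr.nd (nat_lit 59) (nat_lit 5) (nat_lit 6) (nat_lit 1137) c7_9542_0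
 Tr.lf Tr.lf)))) (Tr.nd (nat_lit 106) (nat_lit 5) (nat_lit 37) (nat_lit 1619) c7_9542_0
 (Tr.nd (nat_lit 100) (nat_lit 2) (nat_lit 63) (nat_lit 1392) c7_9542_0
 (Tr.nd (nat_lit 65) (nat_lit 10) (nat_lit 3) (nat_lit 1208) c7_9542_0
 (Tr.nd (nat_lit 64) (nat_lit 5) (nat_lit 6) (nat_lit 1178) c7_9542_0
 Tr.lf Tr.lf) (Tr.nd (nat_lit 99) (nat_lit 1) (nat_lit 154) (nat_lit 1238) c7_9542_0
 Tr.lf Tr.lf)) (Tr.nd (nat_lit 102) (nat_lit 2) (nat_lit 3) (nat_lit 1552) c7_9542_0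
 (Tr.nd (nat_lit 101) (nat_lit 2) (nat_lit 17) (nat_lit 1518) c7_9542_0
 Tr.lf Tr.lf) (Tr.nd (nat_lit 105) (nat_lit 1) (nat_lit 61) (nat_lit 1558) c7_9542_0
 Tr.lf Tr.lf))) (Tr.nd (nat_lit 112) (nat_lit 2) (nat_lit 7) (nat_lit 2082) c7_9542_0
 (Tr.nd (nat_lit 108) (nat_lit 17) (nat_lit 5) (nat_lit 1974) c7_9542_0
 (Tr.nd (nat_lit 107) (nat_lit 10) (nat_lit 17) (nat_lit 1804) c7_9542_0
 Tr.lf Tr.lf) (Tr.nd (nat_lit 109) (nat_lit 23) (nat_lit 1) (nat_lit 2059) c7_9542_0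
 Tr.lf Tr.lf)) (Tr.nd (nat_lit 114) (nat_lit 30) (nat_lit 7) (nat_lit 2166) c7_9542_0
 (Tr.nd (nat_lit 113) (nat_lit 10) (nat_lit 7) (nat_lit 2096) c7_9542_0
 Tr.lf Tr.lf) (Tr.nd (nat_lit 115) (nat_lit 63) (nat_lit 1) (nat_lit 2376) c7_9542_0
 Tr.lf Tr.lf))))) (Tr.nd (nat_lit 204) (nat_lit 5) (nat_lit 6) (nat_lit 3545) c7_9542_0
 (Tr.nd (nat_lit 158) (nat_lit 61) (nat_lit 1) (nat_lit 3101) c7_9542_0
 (Tr.nd (nat_lit 154) (nat_lit 1) (nat_lit 23) (nat_lit 2638) c7_9542_0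
 (Tr.nd (nat_lit 150) (nat_lit 4) (nat_lit 11) (nat_lit 2564) c7_9542_0
 (Tr.nd (nat_lit 149) (nat_lit 2) (nat_lit 31) (nat_lit 2502) c7_9542_0
 Tr.lf Tr.lf) (Tr.nd (nat_lit 151) (nat_lit 6) (nat_lit 5) (nat_lit 2608) c7_9542_0
 Tr.lf Tr.lf)) (Tr.nd (nat_lit 156) (nat_lit 17) (nat_lit 10) (nat_lit 2746) c7_9542_0
 (Tr.nd (nat_lit 155) (nat_lit 5) (nat_lit 17) (nat_lit 2661) c7_9542_0
 Tr.lf Tr.lf) (Tr.nd (nat_lit 157) (nat_lit 37) (nat_lit 5) (nat_lit 2916) c7_9542_0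
 Tr.lf Tr.lf))) (Tr.nd (nat_lit 164) (nat_lit 154) (nat_lit 1) (nat_lit 3328) c7_9542_0
 (Tr.nd (nat_lit 162) (nat_lit 17) (nat_lit 2) (nat_lit 3168) c7_9542_0
 (Tr.nd (nat_lit 161) (nat_lit 2) (nat_lit 3) (nat_lit 3162) c7_9542_0
 Tr.lf Tr.lf) (Tr.nd (nat_lit 163) (nat_lit 63) (nat_lit 2) (nat_lit 3202) c7_9542_0
 Tr.lf Tr.lf)) (Tr.nd (nat_lit 199) (nat_lit 6) (nat_lit 5) (nat_lit 3504) c7_9542_0
 (Tr.nd (nat_lit 198) (nat_lit 2) (nat_lit 11) (nat_lit 3482) c7_9542_0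
 Tr.lf Tr.lf) (Tr.nd (nat_lit 200) (nat_lit 11) (nat_lit 1) (nat_lit 3534) c7_9542_0
 Tr.lf Tr.lf)))) (Tr.nd (nat_lit 247) (nat_lit 2) (nat_lit 3) (nat_lit 476) c7_9542_1
 (Tr.nd (nat_lit 211) (nat_lit 23) (nat_lit 1) (nat_lit 3989) c7_9542_0
 (Tr.nd (nat_lit 206) (nat_lit 61) (nat_lit 3) (nat_lit 3690) c7_9542_0
 (Tr.nd (nat_lit 205) (nat_lit 23) (nat_lit 5) (nat_lit 3575) c7_9542_0
 Tr.lf Tr.lf) (Tr.nd (nat_lit 207) (nat_lit 116) (nat_lit 1) (nat_lit 3873) c7_9542_0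
 Tr.lf Tr.lf)) (Tr.nd (nat_lit 213) (nat_lit 276) (nat_lit 1) (nat_lit 100) c7_9542_1
 (Tr.nd (nat_lit 212) (nat_lit 100) (nat_lit 1) (nat_lit 0) c7_9542_1
 Tr.lf Tr.lf) (Tr.nd (nat_lit 214) (nat_lit 100) (nat_lit 1) (nat_lit 376) c7_9542_1
 Tr.lf Tr.lf))) (Tr.nd (nat_lit 255) (nat_lit 75) (nat_lit 1) (nat_lit 517) c7_9542_1
 (Tr.nd (nat_lit 253) (nat_lit 4) (nat_lit 1) (nat_lit 489) c7_9542_1
 (Tr.nd (nat_lit 248) (nat_lit 7) (nat_lit 1) (nat_lit 482) c7_9542_1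
 Tr.lf Tr.lf) (Tr.nd (nat_lit 254) (nat_lit 24) (nat_lit 1) (nat_lit 493) c7_9542_1
 Tr.lf Tr.lf)) (Tr.nd (nat_lit 262) (nat_lit 61) (nat_lit 1) (nat_lit 616) c7_9542_1
 (Tr.nd (nat_lit 256) (nat_lit 24) (nat_lit 1) (nat_lit 592) c7_9542_1
 Tr.lf Tr.lf) (Tr.nd (nat_lit 263) (nat_lit 23) (nat_lit 1) (nat_lit 677) c7_9542_1
 Tr.lf Tr.lf))))))

noncomputable def c7_9494_0 : List Nat := [(nat_lit 0x2d9031461b54ba1b0bb89a54a4186261d020928b8b241230011cf41532ee6b22ed05b141945db15b24431adc9d34cd948cd20dc120e2a8c774d416f18dec1588181334112899348b8f5c9dcf64699251052a6aae483a4a4d45a056ab19a7401da9241260a48b18a6e601b585573d0c4426f3436b734f16343400694ee05a51b216c9c1729b14906d56ec6ad65225a2963108cd30436038e646113cd36d499087594016e00001d3accd6174a126b60cdb42ada8a9b25b68b22270c00c564410215698830d824da22b5c90b86aaed9492d84dd49c20accb49b269a33534b0614d7802ae8e5ca14f1db64d2c763032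dc8f582ada6b24110758369783b10b96676a342b262956190c444d58a0d184133a804221304d437202c69579cc4b61c80bb05d73c168c6070418da401a29b6d26364c1934b3160e22360b4ecc806a500352052b683758941d066008d2d19cac5494da61bada9ab4b001380036bd5326e865ca2213986a45a4dd9412c6cdd1c33525967118b995504cd35420652a055b8e04d2163048b0e06215d782529d1c5b46dba914e832bb406f46111b07ac808174818534754a6662d615a58a062e15063949b62f1b9ccf0da920b66c6c580662ca516e3c40d1ea223ab070609c484cb2630420e9486c6bc69c094dc68624c685498b56183a8dc982dd19d96ace3354290cc279971911a7326b44ceadcc6355698bd933a17584c0000000000000271d0e4c200021950b684b56bacc884936712cdcf202a04b4c90ed7acd194b08e2a19026a1546c4095953a872c01ea0408130eb6c5884ac6e6a92552d468512d839b2eb01d65bc4364a330b92a925746e5481ca5b7184842017302500000000000000000000000000000000000000000000000000000000000000000002397149ac6a76a08d5080ed00000000000000000000000000000000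00000000000005181953a1834a5d21e60940000000031a78d11d59527300000000e8d50d2000000035392648006589519c5a0eb3316b6674caa6d290075a11a6038f241e28ec9ec8395872e2e95752b476b6a64c3d0d24b4eab1c38a38327584d78b4660f426a634c1da0a8731a80c890b66b43422d6707892000f031e71e61e440a200c231c325af6274c23b8e35b198562160d4ec51a916a8706d31880c9472cadc7ac96a2016508cc949a8e9a2a41466d0e223b52a7079e11c588cf2b0a8d5aa9734a830db4ac95b64568b00b4a90d8006cb3049508a05b5ca28581cec7927744dd6c34da26a9562e649c003c2622c0eb61376210009cb1105399d784620780c6c50c65acc541e65248683408014ec18c0176bba068190468d8f6a52d1849d70b6048b0612cc4126570c3512932465d27069a985d8bcb50a56333690eb0a0925d36544b9c8d9621d8e49adb639a316b1cd51033a68c259a27853496d265e4418d2ada0d926cb5d54c6648ed5000000006152682c58694e0244ab4b7054a06d208836b144dd42da0001c035d562f21946eea8b80e0847962e4c9c8e86ec41dd318c1d09a9312845aa90c8d01d3ae7b3059451aa2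45b413a01112381d2a76ab962da86d7a476300a65c6526b2cd4d1ba30863553d065127730f159e4ab446310c85b42ceb1b324cce544849305316e11e54a146a14aa288e3280b314c4d0a2e5213567936ecce146c020b86092243af2451bb46ddaf3d90b0291c4707580c5d52b12236a40a759b6700b6988c54c2653358ad30a3802d98ae106da32c685525569d459baa9ac1a3d1a60ed5d9769950aa8189816e8c62d8e7b2d5361509c48224356c44ea5179acb5a090c574ec5cc950939b409ad9e68a941042103558509c5668118c7652e56650ad03322a89b8d3d0954849cc28a61164ae878658a399b764de52d9566a86a4776324aa3ca64662f2ab2250b424c273012650cd164e9814a6ca857339a40ac99178bba8cd5ac3786230af38f04c6a56b98bb450038ba72b5c6b3aa0056a742058ec01316c72b96204206ed5323450970c4d35184a6d4217236ba0eb41d968d3732653069646342a05b9a7284862e186015869d913910c00484030d5e040000024da6980024da6096cb4cb4d32c820145128a34d5225)]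
noncomputable def c7_9494_1 : List Nat := [(nat_lit 0xb01a9a7144a28804165a6996996c90d36900034d36900000008cee1808120060a46a4ad30e810c319c94210762c0bc8645d29bac65b4721760592d6c4898c5d735768b05528632629816aed4840852c76394041d95ca0198dc881157938ed58d6710229b50f5c8dc1a19c79d181c3361da9e1756732b49509347994dbb24ac8cd6d4c90640e45201c6a5760cb12c1b1b90e4ab45e4d4b0940ab0133565da8561491c08b76e24891d6d0d61a9915162c00dd3524cc4b2886f380bb5b4439a278b42b88c8ed71d71cd1b88c14010905161821d4e08739aa522db1c6bd0b823b4e5a8a836ae5b3c7650e15b2340c4550ab4dacaeec434e67309745752caad3a89a8cc19736c20d54)]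
noncomputable def T7_9494 : Op := Op.mk (nat_lit 79)
 (Tr.nd (nat_lit 148) (nat_lit 1) (nat_lit 63) (nat_lit 2439) c7_9494_0
 (Tr.nd (nat_lit 63) (nat_lit 1) (nat_lit 11) (nat_lit 1167) c7_9494_0
 (Tr.nd (nat_lit 49) (nat_lit 1) (nat_lit 100) (nat_lit 224) c7_9494_0
 (Tr.nd (nat_lit 9) (nat_lit 1) (nat_lit 24) (nat_lit 183) c7_9494_0
 (Tr.nd (nat_lit 7) (nat_lit 1) (nat_lit 24) (nat_lit 84) c7_9494_0
 (Tr.nd (nat_lit 1) (nat_lit 1) (nat_lit 61) (nat_lit 23) c7_9494_0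
 (Tr.nd (nat_lit 0) (nat_lit 1) (nat_lit 23) (nat_lit 0) c7_9494_0
 Tr.lf Tr.lf) Tr.lf) (Tr.nd (nat_lit 8) (nat_lit 1) (nat_lit 75) (nat_lit 108) c7_9494_0
 Tr.lf Tr.lf)) (Tr.nd (nat_lit 15) (nat_lit 1) (nat_lit 7) (nat_lit 211) c7_9494_0
 (Tr.nd (nat_lit 10) (nat_lit 1) (nat_lit 4) (nat_lit 207) c7_9494_0
 Tr.lf Tr.lf) (Tr.nd (nat_lit 16) (nat_lit 2) (nat_lit 3) (nat_lit 218) c7_9494_0
 Tr.lf Tr.lf))) (Tr.nd (nat_lit 56) (nat_lit 1) (nat_lit 116) (nat_lit 723) c7_9494_0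
 (Tr.nd (nat_lit 51) (nat_lit 1) (nat_lit 100) (nat_lit 600) c7_9494_0
 (Tr.nd (nat_lit 50) (nat_lit 1) (nat_lit 276) (nat_lit 324) c7_9494_0
 Tr.lf Tr.lf) (Tr.nd (nat_lit 52) (nat_lit 1) (nat_lit 23) (nat_lit 700) c7_9494_0
 Tr.lf Tr.lf)) (Tr.nd (nat_lit 58) (nat_lit 5) (nat_lit 23) (nat_lit 1022) c7_9494_0
 (Tr.nd (nat_lit 57) (nat_lit 3) (nat_lit 61) (nat_lit 839) c7_9494_0
 Tr.lf Tr.lf) (Tr.nd (nat_lit 59) (nat_lit 5) (nat_lit 6) (nat_lit 1137) c7_9494_0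
 Tr.lf Tr.lf)))) (Tr.nd (nat_lit 106) (nat_lit 5) (nat_lit 37) (nat_lit 1619) c7_9494_0
 (Tr.nd (nat_lit 100) (nat_lit 2) (nat_lit 63) (nat_lit 1392) c7_9494_0
 (Tr.nd (nat_lit 65) (nat_lit 10) (nat_lit 3) (nat_lit 1208) c7_9494_0
 (Tr.nd (nat_lit 64) (nat_lit 5) (nat_lit 6) (nat_lit 1178) c7_9494_0
 Tr.lf Tr.lf) (Tr.nd (nat_lit 99) (nat_lit 1) (nat_lit 154) (nat_lit 1238) c7_9494_0
 Tr.lf Tr.lf)) (Tr.nd (nat_lit 102) (nat_lit 2) (nat_lit 3) (nat_lit 1552) c7_9494_0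
 (Tr.nd (nat_lit 101) (nat_lit 2) (nat_lit 17) (nat_lit 1518) c7_9494_0
 Tr.lf Tr.lf) (Tr.nd (nat_lit 105) (nat_lit 1) (nat_lit 61) (nat_lit 1558) c7_9494_0
 Tr.lf Tr.lf))) (Tr.nd (nat_lit 112) (nat_lit 2) (nat_lit 7) (nat_lit 2082) c7_9494_0
 (Tr.nd (nat_lit 108) (nat_lit 17) (nat_lit 5) (nat_lit 1974) c7_9494_0
 (Tr.nd (nat_lit 107) (nat_lit 10) (nat_lit 17) (nat_lit 1804) c7_9494_0
 Tr.lf Tr.lf) (Tr.nd (nat_lit 109) (nat_lit 23) (nat_lit 1) (nat_lit 2059) c7_9494_0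
 Tr.lf Tr.lf)) (Tr.nd (nat_lit 114) (nat_lit 30) (nat_lit 7) (nat_lit 2166) c7_9494_0
 (Tr.nd (nat_lit 113) (nat_lit 10) (nat_lit 7) (nat_lit 2096) c7_9494_0
 Tr.lf Tr.lf) (Tr.nd (nat_lit 115) (nat_lit 63) (nat_lit 1) (nat_lit 2376) c7_9494_0
 Tr.lf Tr.lf))))) (Tr.nd (nat_lit 204) (nat_lit 5) (nat_lit 6) (nat_lit 3545) c7_9494_0
 (Tr.nd (nat_lit 158) (nat_lit 61) (nat_lit 1) (nat_lit 3101) c7_9494_0
 (Tr.nd (nat_lit 154) (nat_lit 1) (nat_lit 23) (nat_lit 2638) c7_9494_0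
 (Tr.nd (nat_lit 150) (nat_lit 4) (nat_lit 11) (nat_lit 2564) c7_9494_0
 (Tr.nd (nat_lit 149) (nat_lit 2) (nat_lit 31) (nat_lit 2502) c7_9494_0
 Tr.lf Tr.lf) (Tr.nd (nat_lit 151) (nat_lit 6) (nat_lit 5) (nat_lit 2608) c7_9494_0
 Tr.lf Tr.lf)) (Tr.nd (nat_lit 156) (nat_lit 17) (nat_lit 10) (nat_lit 2746) c7_9494_0
 (Tr.nd (nat_lit 155) (nat_lit 5) (nat_lit 17) (nat_lit 2661) c7_9494_0
 Tr.lf Tr.lf) (Tr.nd (nat_lit 157) (nat_lit 37) (nat_lit 5) (nat_lit 2916) c7_9494_0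
 Tr.lf Tr.lf))) (Tr.nd (nat_lit 164) (nat_lit 154) (nat_lit 1) (nat_lit 3328) c7_9494_0
 (Tr.nd (nat_lit 162) (nat_lit 17) (nat_lit 2) (nat_lit 3168) c7_9494_0
 (Tr.nd (nat_lit 161) (nat_lit 2) (nat_lit 3) (nat_lit 3162) c7_9494_0
 Tr.lf Tr.lf) (Tr.nd (nat_lit 163) (nat_lit 63) (nat_lit 2) (nat_lit 3202) c7_9494_0
 Tr.lf Tr.lf)) (Tr.nd (nat_lit 199) (nat_lit 6) (nat_lit 5) (nat_lit 3504) c7_9494_0
 (Tr.nd (nat_lit 198) (nat_lit 2) (nat_lit 11) (nat_lit 3482) c7_9494_0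
 Tr.lf Tr.lf) (Tr.nd (nat_lit 200) (nat_lit 11) (nat_lit 1) (nat_lit 3534) c7_9494_0
 Tr.lf Tr.lf)))) (Tr.nd (nat_lit 247) (nat_lit 2) (nat_lit 3) (nat_lit 476) c7_9494_1
 (Tr.nd (nat_lit 211) (nat_lit 23) (nat_lit 1) (nat_lit 3989) c7_9494_0
 (Tr.nd (nat_lit 206) (nat_lit 61) (nat_lit 3) (nat_lit 3690) c7_9494_0
 (Tr.nd (nat_lit 205) (nat_lit 23) (nat_lit 5) (nat_lit 3575) c7_9494_0
 Tr.lf Tr.lf) (Tr.nd (nat_lit 207) (nat_lit 116) (nat_lit 1) (nat_lit 3873) c7_9494_0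
 Tr.lf Tr.lf)) (Tr.nd (nat_lit 213) (nat_lit 276) (nat_lit 1) (nat_lit 100) c7_9494_1
 (Tr.nd (nat_lit 212) (nat_lit 100) (nat_lit 1) (nat_lit 0) c7_9494_1
 Tr.lf Tr.lf) (Tr.nd (nat_lit 214) (nat_lit 100) (nat_lit 1) (nat_lit 376) c7_9494_1
 Tr.lf Tr.lf))) (Tr.nd (nat_lit 255) (nat_lit 75) (nat_lit 1) (nat_lit 517) c7_9494_1
 (Tr.nd (nat_lit 253) (nat_lit 4) (nat_lit 1) (nat_lit 489) c7_9494_1
 (Tr.nd (nat_lit 248) (nat_lit 7) (nat_lit 1) (nat_lit 482) c7_9494_1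
 Tr.lf Tr.lf) (Tr.nd (nat_lit 254) (nat_lit 24) (nat_lit 1) (nat_lit 493) c7_9494_1
 Tr.lf Tr.lf)) (Tr.nd (nat_lit 262) (nat_lit 61) (nat_lit 1) (nat_lit 616) c7_9494_1
 (Tr.nd (nat_lit 256) (nat_lit 24) (nat_lit 1) (nat_lit 592) c7_9494_1
 Tr.lf Tr.lf) (Tr.nd (nat_lit 263) (nat_lit 23) (nat_lit 1) (nat_lit 677) c7_9494_1
 Tr.lf Tr.lf))))))

noncomputable def c7_9556_0 : List Nat := [(nat_lit 0x161568719ae82d036c00c21b406021504dd8d66c0a40000000000000002d6c69b472ad325080b07535974a3b48a676db21c9478ca9439a609646a856e908e506b81a4b57518062ccd65260a241d2eba901b20aad44069176b3544e2eb750d2a4ad1923064c17512e686362e236a0c4936ea08384b0925b4831040819796a02943d70d193868ea3a62763329442006b305c14b02509c0d634475330b9650a9a99996acb6cc775281da9d5ab3206b2a22c820db09d896186d18630cc28ccca2c12424d828576c84b59358c18e85814e9a9b408908e212d1b2a50ae4000ac9a4c2a36d59331689603654c69527b4cc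86d67b4a9175288438a18d4f32d5ad9471ae1d8c74e28b76a65e6a95a2db4682761d462ca0e159e4c0000000ae214e0ccb23a8100000002c36b6ea0000000262a222c86b08494648dc156a0b2d834c680cc87078e49a44c35b4198d64c130534ac096485244ab2f3256a6d859659d3132b0f1a5bc28c4627474860ba928d5350b2c6616ab829c988d0b006688c879300182c5a1db1599364d182f060d581d14c2e030ad14f3912450a437904016621a448478920a5192ab21ac214b0b525660ab759c4aba5da834882e5505b0095759ac2510d22c80000000200240240002002183981b996507232f0208346036ce00960440689638f648905bc1a1162dc97090000000000000000d01bc9cadd6c8bb3832186006d80b44d7438cca8c80)]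
noncomputable def T7_9556 : Op := Op.mk (nat_lit 85)
 (Tr.nd (nat_lit 148) (nat_lit 1) (nat_lit 23) (nat_lit 711) c7_9556_0
 (Tr.nd (nat_lit 58) (nat_lit 5) (nat_lit 6) (nat_lit 326) c7_9556_0
 (Tr.nd (nat_lit 49) (nat_lit 1) (nat_lit 24) (nat_lit 54) c7_9556_0
 (Tr.nd (nat_lit 8) (nat_lit 1) (nat_lit 15) (nat_lit 30) c7_9556_0
 (Tr.nd (nat_lit 1) (nat_lit 1) (nat_lit 24) (nat_lit 4) c7_9556_0
 (Tr.nd (nat_lit 0) (nat_lit 1) (nat_lit 4) (nat_lit 0) c7_9556_0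
 Tr.lf Tr.lf) (Tr.nd (nat_lit 7) (nat_lit 1) (nat_lit 2) (nat_lit 28) c7_9556_0
 Tr.lf Tr.lf)) (Tr.nd (nat_lit 10) (nat_lit 1) (nat_lit 2) (nat_lit 52) c7_9556_0
 (Tr.nd (nat_lit 9) (nat_lit 1) (nat_lit 7) (nat_lit 45) c7_9556_0
 Tr.lf Tr.lf) Tr.lf)) (Tr.nd (nat_lit 52) (nat_lit 1) (nat_lit 23) (nat_lit 255) c7_9556_0
 (Tr.nd (nat_lit 51) (nat_lit 1) (nat_lit 61) (nat_lit 194) c7_9556_0
 (Tr.nd (nat_lit 50) (nat_lit 1) (nat_lit 116) (nat_lit 78) c7_9556_0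
 Tr.lf Tr.lf) Tr.lf) (Tr.nd (nat_lit 57) (nat_lit 3) (nat_lit 11) (nat_lit 293) c7_9556_0
 (Tr.nd (nat_lit 56) (nat_lit 1) (nat_lit 15) (nat_lit 278) c7_9556_0
 Tr.lf Tr.lf) Tr.lf))) (Tr.nd (nat_lit 103) (nat_lit 2) (nat_lit 1) (nat_lit 545) c7_9556_0
 (Tr.nd (nat_lit 100) (nat_lit 2) (nat_lit 37) (nat_lit 427) c7_9556_0
 (Tr.nd (nat_lit 99) (nat_lit 1) (nat_lit 61) (nat_lit 366) c7_9556_0
 (Tr.nd (nat_lit 59) (nat_lit 5) (nat_lit 2) (nat_lit 356) c7_9556_0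
 Tr.lf Tr.lf) Tr.lf) (Tr.nd (nat_lit 102) (nat_lit 2) (nat_lit 5) (nat_lit 535) c7_9556_0
 (Tr.nd (nat_lit 101) (nat_lit 2) (nat_lit 17) (nat_lit 501) c7_9556_0
 Tr.lf Tr.lf) Tr.lf)) (Tr.nd (nat_lit 107) (nat_lit 10) (nat_lit 7) (nat_lit 584) c7_9556_0
 (Tr.nd (nat_lit 106) (nat_lit 5) (nat_lit 6) (nat_lit 554) c7_9556_0
 (Tr.nd (nat_lit 105) (nat_lit 1) (nat_lit 7) (nat_lit 547) c7_9556_0
 Tr.lf Tr.lf) Tr.lf) (Tr.nd (nat_lit 109) (nat_lit 23) (nat_lit 1) (nat_lit 688) c7_9556_0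
 (Tr.nd (nat_lit 108) (nat_lit 17) (nat_lit 2) (nat_lit 654) c7_9556_0
 Tr.lf Tr.lf) Tr.lf)))) (Tr.nd (nat_lit 200) (nat_lit 11) (nat_lit 3) (nat_lit 1070) c7_9556_0
 (Tr.nd (nat_lit 155) (nat_lit 5) (nat_lit 2) (nat_lit 851) c7_9556_0
 (Tr.nd (nat_lit 151) (nat_lit 6) (nat_lit 5) (nat_lit 812) c7_9556_0
 (Tr.nd (nat_lit 150) (nat_lit 4) (nat_lit 11) (nat_lit 768) c7_9556_0
 (Tr.nd (nat_lit 149) (nat_lit 2) (nat_lit 17) (nat_lit 734) c7_9556_0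
 Tr.lf Tr.lf) Tr.lf) (Tr.nd (nat_lit 154) (nat_lit 1) (nat_lit 2) (nat_lit 849) c7_9556_0
 (Tr.nd (nat_lit 152) (nat_lit 7) (nat_lit 1) (nat_lit 842) c7_9556_0
 Tr.lf Tr.lf) Tr.lf)) (Tr.nd (nat_lit 158) (nat_lit 61) (nat_lit 1) (nat_lit 969) c7_9556_0
 (Tr.nd (nat_lit 157) (nat_lit 37) (nat_lit 2) (nat_lit 895) c7_9556_0
 (Tr.nd (nat_lit 156) (nat_lit 17) (nat_lit 2) (nat_lit 861) c7_9556_0
 Tr.lf Tr.lf) Tr.lf) (Tr.nd (nat_lit 199) (nat_lit 6) (nat_lit 5) (nat_lit 1040) c7_9556_0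
 (Tr.nd (nat_lit 198) (nat_lit 2) (nat_lit 5) (nat_lit 1030) c7_9556_0
 Tr.lf Tr.lf) Tr.lf))) (Tr.nd (nat_lit 247) (nat_lit 2) (nat_lit 1) (nat_lit 1342) c7_9556_0
 (Tr.nd (nat_lit 206) (nat_lit 61) (nat_lit 1) (nat_lit 1141) c7_9556_0
 (Tr.nd (nat_lit 205) (nat_lit 23) (nat_lit 1) (nat_lit 1118) c7_9556_0
 (Tr.nd (nat_lit 201) (nat_lit 15) (nat_lit 1) (nat_lit 1103) c7_9556_0
 Tr.lf Tr.lf) Tr.lf) (Tr.nd (nat_lit 208) (nat_lit 24) (nat_lit 1) (nat_lit 1318) c7_9556_0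
 (Tr.nd (nat_lit 207) (nat_lit 116) (nat_lit 1) (nat_lit 1202) c7_9556_0
 Tr.lf Tr.lf) Tr.lf)) (Tr.nd (nat_lit 250) (nat_lit 2) (nat_lit 1) (nat_lit 1366) c7_9556_0
 (Tr.nd (nat_lit 249) (nat_lit 15) (nat_lit 1) (nat_lit 1351) c7_9556_0
 (Tr.nd (nat_lit 248) (nat_lit 7) (nat_lit 1) (nat_lit 1344) c7_9556_0
 Tr.lf Tr.lf) Tr.lf) (Tr.nd (nat_lit 257) (nat_lit 4) (nat_lit 1) (nat_lit 1392) c7_9556_0
 (Tr.nd (nat_lit 256) (nat_lit 24) (nat_lit 1) (nat_lit 1368) c7_9556_0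
 Tr.lf Tr.lf) Tr.lf)))))

noncomputable def c7_9553_0 : List Nat := [(nat_lit 0x9108308a4c8b2110006367a31490453590987a564c25e2c9981c6b7a8572d6c993c93b9b232032505362dae28972542a52401399589522c25e2717b12d2a55aada65dad40538a985226b26a6a12874e2669186944240946aa92ba615a997439c27106c191c000ebce8d95a80d2182c1940a293156215e121151b653808d946074aaada6404a96acca575972104d22ac378274b931d1d8a6d526e524c840295a0d289b4068b92d4ee59ad933a46aa2e52cc7044059688b058540085129da957095688a643601091029892d25c60e183bb671b1118649aa16b685088000070c081a8b258f0d3188985a59a254226571d204acbb6a42643a21a444c3c1c12072ba8090055d8c48231986a0c6140384aa7616d8ac19e0acc40000000404342224c650b000000000b0543a600000001e28ccf50916041ad930b134f185d8f5630c43ae11298d10ac2a0b92b1282c408790b994948326325b4d5ca22613069311a69620356c1a42d56890c703b4b245a9100c849b1b4aed14ae63a466b43361d5268205acb9d4ae54c45112c9220e8ad9369c6941d49047416d92c304c01542d21a8209ec5331e7580062b09483898f19ac37230d7645538909028930e4d09c6b16054dd25d0038a4eb4ac974594a1190d04b3648b1b0b3680e529d24c2f39981839aa4a354b12585296908b0692eb1b32aa17374e234259cc984bb330d442966b152433d830002816569141840a4)]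
noncomputable def T7_9553 : Op := Op.mk (nat_lit 85)
 (Tr.nd (nat_lit 148) (nat_lit 1) (nat_lit 23) (nat_lit 711) c7_9553_0
 (Tr.nd (nat_lit 58) (nat_lit 5) (nat_lit 6) (nat_lit 326) c7_9553_0
 (Tr.nd (nat_lit 49) (nat_lit 1) (nat_lit 24) (nat_lit 54) c7_9553_0
 (Tr.nd (nat_lit 8) (nat_lit 1) (nat_lit 15) (nat_lit 30) c7_9553_0
 (Tr.nd (nat_lit 1) (nat_lit 1) (nat_lit 24) (nat_lit 4) c7_9553_0
 (Tr.nd (nat_lit 0) (nat_lit 1) (nat_lit 4) (nat_lit 0) c7_9553_0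
 Tr.lf Tr.lf) (Tr.nd (nat_lit 7) (nat_lit 1) (nat_lit 2) (nat_lit 28) c7_9553_0
 Tr.lf Tr.lf)) (Tr.nd (nat_lit 10) (nat_lit 1) (nat_lit 2) (nat_lit 52) c7_9553_0
 (Tr.nd (nat_lit 9) (nat_lit 1) (nat_lit 7) (nat_lit 45) c7_9553_0
 Tr.lf Tr.lf) Tr.lf)) (Tr.nd (nat_lit 52) (nat_lit 1) (nat_lit 23) (nat_lit 255) c7_9553_0
 (Tr.nd (nat_lit 51) (nat_lit 1) (nat_lit 61) (nat_lit 194) c7_9553_0
 (Tr.nd (nat_lit 50) (nat_lit 1) (nat_lit 116) (nat_lit 78) c7_9553_0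
 Tr.lf Tr.lf) Tr.lf) (Tr.nd (nat_lit 57) (nat_lit 3) (nat_lit 11) (nat_lit 293) c7_9553_0
 (Tr.nd (nat_lit 56) (nat_lit 1) (nat_lit 15) (nat_lit 278) c7_9553_0
 Tr.lf Tr.lf) Tr.lf))) (Tr.nd (nat_lit 103) (nat_lit 2) (nat_lit 1) (nat_lit 545) c7_9553_0
 (Tr.nd (nat_lit 100) (nat_lit 2) (nat_lit 37) (nat_lit 427) c7_9553_0
 (Tr.nd (nat_lit 99) (nat_lit 1) (nat_lit 61) (nat_lit 366) c7_9553_0
 (Tr.nd (nat_lit 59) (nat_lit 5) (nat_lit 2) (nat_lit 356) c7_9553_0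
 Tr.lf Tr.lf) Tr.lf) (Tr.nd (nat_lit 102) (nat_lit 2) (nat_lit 5) (nat_lit 535) c7_9553_0
 (Tr.nd (nat_lit 101) (nat_lit 2) (nat_lit 17) (nat_lit 501) c7_9553_0
 Tr.lf Tr.lf) Tr.lf)) (Tr.nd (nat_lit 107) (nat_lit 10) (nat_lit 7) (nat_lit 584) c7_9553_0
 (Tr.nd (nat_lit 106) (nat_lit 5) (nat_lit 6) (nat_lit 554) c7_9553_0
 (Tr.nd (nat_lit 105) (nat_lit 1) (nat_lit 7) (nat_lit 547) c7_9553_0
 Tr.lf Tr.lf) Tr.lf) (Tr.nd (nat_lit 109) (nat_lit 23) (nat_lit 1) (nat_lit 688) c7_9553_0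
 (Tr.nd (nat_lit 108) (nat_lit 17) (nat_lit 2) (nat_lit 654) c7_9553_0
 Tr.lf Tr.lf) Tr.lf)))) (Tr.nd (nat_lit 200) (nat_lit 11) (nat_lit 3) (nat_lit 1070) c7_9553_0
 (Tr.nd (nat_lit 155) (nat_lit 5) (nat_lit 2) (nat_lit 851) c7_9553_0
 (Tr.nd (nat_lit 151) (nat_lit 6) (nat_lit 5) (nat_lit 812) c7_9553_0
 (Tr.nd (nat_lit 150) (nat_lit 4) (nat_lit 11) (nat_lit 768) c7_9553_0
 (Tr.nd (nat_lit 149) (nat_lit 2) (nat_lit 17) (nat_lit 734) c7_9553_0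
 Tr.lf Tr.lf) Tr.lf) (Tr.nd (nat_lit 154) (nat_lit 1) (nat_lit 2) (nat_lit 849) c7_9553_0
 (Tr.nd (nat_lit 152) (nat_lit 7) (nat_lit 1) (nat_lit 842) c7_9553_0
 Tr.lf Tr.lf) Tr.lf)) (Tr.nd (nat_lit 158) (nat_lit 61) (nat_lit 1) (nat_lit 969) c7_9553_0
 (Tr.nd (nat_lit 157) (nat_lit 37) (nat_lit 2) (nat_lit 895) c7_9553_0
 (Tr.nd (nat_lit 156) (nat_lit 17) (nat_lit 2) (nat_lit 861) c7_9553_0
 Tr.lf Tr.lf) Tr.lf) (Tr.nd (nat_lit 199) (nat_lit 6) (nat_lit 5) (nat_lit 1040) c7_9553_0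
 (Tr.nd (nat_lit 198) (nat_lit 2) (nat_lit 5) (nat_lit 1030) c7_9553_0
 Tr.lf Tr.lf) Tr.lf))) (Tr.nd (nat_lit 247) (nat_lit 2) (nat_lit 1) (nat_lit 1342) c7_9553_0
 (Tr.nd (nat_lit 206) (nat_lit 61) (nat_lit 1) (nat_lit 1141) c7_9553_0
 (Tr.nd (nat_lit 205) (nat_lit 23) (nat_lit 1) (nat_lit 1118) c7_9553_0
 (Tr.nd (nat_lit 201) (nat_lit 15) (nat_lit 1) (nat_lit 1103) c7_9553_0
 Tr.lf Tr.lf) Tr.lf) (Tr.nd (nat_lit 208) (nat_lit 24) (nat_lit 1) (nat_lit 1318) c7_9553_0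
 (Tr.nd (nat_lit 207) (nat_lit 116) (nat_lit 1) (nat_lit 1202) c7_9553_0
 Tr.lf Tr.lf) Tr.lf)) (Tr.nd (nat_lit 250) (nat_lit 2) (nat_lit 1) (nat_lit 1366) c7_9553_0
 (Tr.nd (nat_lit 249) (nat_lit 15) (nat_lit 1) (nat_lit 1351) c7_9553_0
 (Tr.nd (nat_lit 248) (nat_lit 7) (nat_lit 1) (nat_lit 1344) c7_9553_0
 Tr.lf Tr.lf) Tr.lf) (Tr.nd (nat_lit 257) (nat_lit 4) (nat_lit 1) (nat_lit 1392) c7_9553_0
 (Tr.nd (nat_lit 256) (nat_lit 24) (nat_lit 1) (nat_lit 1368) c7_9553_0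
 Tr.lf Tr.lf) Tr.lf)))))

noncomputable def c7_9541_0 : List Nat := [(nat_lit 0xc8e35698b043815004a01b30165374d18b203b23461232da382aec4614e0595b1a621d4d6c04a5965313acab6c996a29b09bb231c975d035111319b449d4e180eb2d89178ad113139b304e16c931819835b98412ac2a41b68c0d92552db4540555a2d2ad34b24ee7304aa594cf26437a6a7525e940a31aa870d96136011c52550865a62a39d04136b98ed051208c22c978d0298195148acb1108974998d2327a1091a328638ec86ca2c2626ec0628d5694a5db1c913a936c682c8c805e5ab8e8cdd4302eed818111329a2c0aa32023d35b2270254b099ad591d6e20007a97aa56b18aaa230124b6d56b612642495b8c095ca2b832ab61812a4cdc121da6615caa6d55aa0f4d8c8237a40a1b8669aa2314b100d2bd24a80000000a9668e2dd6086ca00000001ad0eca5000000014b09b8550d4e97ab72b4057529235267005854764a0980a9c01e771d8c458c6e9ab41844c95c40b88588c8dd6cd4832942231287a32eaaec92c961932b53133581a7426b2502a59548a22c4340a7325941c120a26c6e2c9828a0415c111b09699ca4ad9535a0d831a04c26d5926d35c69b0856e5b428e3d5a59269d4994eaa02a2db62b24a4616d20d41d4820f5b842c43a4968c48780aad360c49069343989d8c452a59b49b33a9371e9642b06c6861a73d180dc70bb32474432ca02556d6836d5a30a95d4314d9720c295b112380ab1262e525205800a84608674ca9c56)]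
noncomputable def T7_9541 : Op := Op.mk (nat_lit 85)
 (Tr.nd (nat_lit 148) (nat_lit 1) (nat_lit 23) (nat_lit 711) c7_9541_0
 (Tr.nd (nat_lit 58) (nat_lit 5) (nat_lit 6) (nat_lit 326) c7_9541_0
 (Tr.nd (nat_lit 49) (nat_lit 1) (nat_lit 24) (nat_lit 54) c7_9541_0
 (Tr.nd (nat_lit 8) (nat_lit 1) (nat_lit 15) (nat_lit 30) c7_9541_0
 (Tr.nd (nat_lit 1) (nat_lit 1) (nat_lit 24) (nat_lit 4) c7_9541_0
 (Tr.nd (nat_lit 0) (nat_lit 1) (nat_lit 4) (nat_lit 0) c7_9541_0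
 Tr.lf Tr.lf) (Tr.nd (nat_lit 7) (nat_lit 1) (nat_lit 2) (nat_lit 28) c7_9541_0
 Tr.lf Tr.lf)) (Tr.nd (nat_lit 10) (nat_lit 1) (nat_lit 2) (nat_lit 52) c7_9541_0
 (Tr.nd (nat_lit 9) (nat_lit 1) (nat_lit 7) (nat_lit 45) c7_9541_0
 Tr.lf Tr.lf) Tr.lf)) (Tr.nd (nat_lit 52) (nat_lit 1) (nat_lit 23) (nat_lit 255) c7_9541_0
 (Tr.nd (nat_lit 51) (nat_lit 1) (nat_lit 61) (nat_lit 194) c7_9541_0
 (Tr.nd (nat_lit 50) (nat_lit 1) (nat_lit 116) (nat_lit 78) c7_9541_0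
 Tr.lf Tr.lf) Tr.lf) (Tr.nd (nat_lit 57) (nat_lit 3) (nat_lit 11) (nat_lit 293) c7_9541_0
 (Tr.nd (nat_lit 56) (nat_lit 1) (nat_lit 15) (nat_lit 278) c7_9541_0
 Tr.lf Tr.lf) Tr.lf))) (Tr.nd (nat_lit 103) (nat_lit 2) (nat_lit 1) (nat_lit 545) c7_9541_0
 (Tr.nd (nat_lit 100) (nat_lit 2) (nat_lit 37) (nat_lit 427) c7_9541_0
 (Tr.nd (nat_lit 99) (nat_lit 1) (nat_lit 61) (nat_lit 366) c7_9541_0
 (Tr.nd (nat_lit 59) (nat_lit 5) (nat_lit 2) (nat_lit 356) c7_9541_0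
 Tr.lf Tr.lf) Tr.lf) (Tr.nd (nat_lit 102) (nat_lit 2) (nat_lit 5) (nat_lit 535) c7_9541_0
 (Tr.nd (nat_lit 101) (nat_lit 2) (nat_lit 17) (nat_lit 501) c7_9541_0
 Tr.lf Tr.lf) Tr.lf)) (Tr.nd (nat_lit 107) (nat_lit 10) (nat_lit 7) (nat_lit 584) c7_9541_0
 (Tr.nd (nat_lit 106) (nat_lit 5) (nat_lit 6) (nat_lit 554) c7_9541_0
 (Tr.nd (nat_lit 105) (nat_lit 1) (nat_lit 7) (nat_lit 547) c7_9541_0
 Tr.lf Tr.lf) Tr.lf) (Tr.nd (nat_lit 109) (nat_lit 23) (nat_lit 1) (nat_lit 688) c7_9541_0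
 (Tr.nd (nat_lit 108) (nat_lit 17) (nat_lit 2) (nat_lit 654) c7_9541_0
 Tr.lf Tr.lf) Tr.lf)))) (Tr.nd (nat_lit 200) (nat_lit 11) (nat_lit 3) (nat_lit 1070) c7_9541_0
 (Tr.nd (nat_lit 155) (nat_lit 5) (nat_lit 2) (nat_lit 851) c7_9541_0
 (Tr.nd (nat_lit 151) (nat_lit 6) (nat_lit 5) (nat_lit 812) c7_9541_0
 (Tr.nd (nat_lit 150) (nat_lit 4) (nat_lit 11) (nat_lit 768) c7_9541_0
 (Tr.nd (nat_lit 149) (nat_lit 2) (nat_lit 17) (nat_lit 734) c7_9541_0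
 Tr.lf Tr.lf) Tr.lf) (Tr.nd (nat_lit 154) (nat_lit 1) (nat_lit 2) (nat_lit 849) c7_9541_0
 (Tr.nd (nat_lit 152) (nat_lit 7) (nat_lit 1) (nat_lit 842) c7_9541_0
 Tr.lf Tr.lf) Tr.lf)) (Tr.nd (nat_lit 158) (nat_lit 61) (nat_lit 1) (nat_lit 969) c7_9541_0
 (Tr.nd (nat_lit 157) (nat_lit 37) (nat_lit 2) (nat_lit 895) c7_9541_0
 (Tr.nd (nat_lit 156) (nat_lit 17) (nat_lit 2) (nat_lit 861) c7_9541_0
 Tr.lf Tr.lf) Tr.lf) (Tr.nd (nat_lit 199) (nat_lit 6) (nat_lit 5) (nat_lit 1040) c7_9541_0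
 (Tr.nd (nat_lit 198) (nat_lit 2) (nat_lit 5) (nat_lit 1030) c7_9541_0
 Tr.lf Tr.lf) Tr.lf))) (Tr.nd (nat_lit 247) (nat_lit 2) (nat_lit 1) (nat_lit 1342) c7_9541_0
 (Tr.nd (nat_lit 206) (nat_lit 61) (nat_lit 1) (nat_lit 1141) c7_9541_0
 (Tr.nd (nat_lit 205) (nat_lit 23) (nat_lit 1) (nat_lit 1118) c7_9541_0
 (Tr.nd (nat_lit 201) (nat_lit 15) (nat_lit 1) (nat_lit 1103) c7_9541_0
 Tr.lf Tr.lf) Tr.lf) (Tr.nd (nat_lit 208) (nat_lit 24) (nat_lit 1) (nat_lit 1318) c7_9541_0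
 (Tr.nd (nat_lit 207) (nat_lit 116) (nat_lit 1) (nat_lit 1202) c7_9541_0
 Tr.lf Tr.lf) Tr.lf)) (Tr.nd (nat_lit 250) (nat_lit 2) (nat_lit 1) (nat_lit 1366) c7_9541_0
 (Tr.nd (nat_lit 249) (nat_lit 15) (nat_lit 1) (nat_lit 1351) c7_9541_0
 (Tr.nd (nat_lit 248) (nat_lit 7) (nat_lit 1) (nat_lit 1344) c7_9541_0
 Tr.lf Tr.lf) Tr.lf) (Tr.nd (nat_lit 257) (nat_lit 4) (nat_lit 1) (nat_lit 1392) c7_9541_0
 (Tr.nd (nat_lit 256) (nat_lit 24) (nat_lit 1) (nat_lit 1368) c7_9541_0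
 Tr.lf Tr.lf) Tr.lf)))))

noncomputable def c7_9493_0 : List Nat := [(nat_lit 0x48e16eb6834443302c0088612a2a546d2511a59a1d71d8da8c1b354a2783373d49a88d84c64d02510546baba7292235d0706211a83204664683198605a391621b6de07199e44461e8f1d2d3a300abb584a32108410d98885e1a2bb07130584a9aa8d6ad1466802cb0941bc6eb100d5a52366209a0aadab4d79a3ab08e4484c12488edac65b0c5b62028528c7a26094c5b1a49cc9c655104ba3a2108104e3008d2a1a39a9b02668c2a552dc09152d823c720e384c57146ba5b06105e2d1b4599a16b52e1558f52c259c50323588b9733354aa00cd80212d600ee785000c333a1605a0baf335866ed5d50a0689a04696c344d8d12138b2b6e798cc3a65522110524da48828148ac3587837ae35a68b201d19aa8ce548c500000000ac8cda17521dc8b00000002bc4812800000001e969c58ad65701b502b84ac04402d617ac6547a19404e26295b4aa835e4ab15b945b91ae03108ddb4a59ac4c1305b65045a94510d92d1a459212f38992d8a9c021c48210305735820a8b8d68d24e5a1a243533851a0260b2e60c3c2057325aa48d485a945ec99b48a998722694eaa1a36e13242c5241a594014b8a656e1553520c86a31b5530ccc074a6081032144cbb5440731b663808e60abb28964ae5c9685c4934c02527059accb38db6c28a1cca16255831dc02144aaba3696045e383aa1b73512ba521c4dcae3ac52cd2a2b1e6c17486cc04094078282916dd68c52)]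
noncomputable def T7_9493 : Op := Op.mk (nat_lit 85)
 (Tr.nd (nat_lit 148) (nat_lit 1) (nat_lit 23) (nat_lit 711) c7_9493_0
 (Tr.nd (nat_lit 58) (nat_lit 5) (nat_lit 6) (nat_lit 326) c7_9493_0
 (Tr.nd (nat_lit 49) (nat_lit 1) (nat_lit 24) (nat_lit 54) c7_9493_0
 (Tr.nd (nat_lit 8) (nat_lit 1) (nat_lit 15) (nat_lit 30) c7_9493_0
 (Tr.nd (nat_lit 1) (nat_lit 1) (nat_lit 24) (nat_lit 4) c7_9493_0
 (Tr.nd (nat_lit 0) (nat_lit 1) (nat_lit 4) (nat_lit 0) c7_9493_0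
 Tr.lf Tr.lf) (Tr.nd (nat_lit 7) (nat_lit 1) (nat_lit 2) (nat_lit 28) c7_9493_0
 Tr.lf Tr.lf)) (Tr.nd (nat_lit 10) (nat_lit 1) (nat_lit 2) (nat_lit 52) c7_9493_0
 (Tr.nd (nat_lit 9) (nat_lit 1) (nat_lit 7) (nat_lit 45) c7_9493_0
 Tr.lf Tr.lf) Tr.lf)) (Tr.nd (nat_lit 52) (nat_lit 1) (nat_lit 23) (nat_lit 255) c7_9493_0
 (Tr.nd (nat_lit 51) (nat_lit 1) (nat_lit 61) (nat_lit 194) c7_9493_0
 (Tr.nd (nat_lit 50) (nat_lit 1) (nat_lit 116) (nat_lit 78) c7_9493_0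
 Tr.lf Tr.lf) Tr.lf) (Tr.nd (nat_lit 57) (nat_lit 3) (nat_lit 11) (nat_lit 293) c7_9493_0
 (Tr.nd (nat_lit 56) (nat_lit 1) (nat_lit 15) (nat_lit 278) c7_9493_0
 Tr.lf Tr.lf) Tr.lf))) (Tr.nd (nat_lit 103) (nat_lit 2) (nat_lit 1) (nat_lit 545) c7_9493_0
 (Tr.nd (nat_lit 100) (nat_lit 2) (nat_lit 37) (nat_lit 427) c7_9493_0
 (Tr.nd (nat_lit 99) (nat_lit 1) (nat_lit 61) (nat_lit 366) c7_9493_0
 (Tr.nd (nat_lit 59) (nat_lit 5) (nat_lit 2) (nat_lit 356) c7_9493_0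
 Tr.lf Tr.lf) Tr.lf) (Tr.nd (nat_lit 102) (nat_lit 2) (nat_lit 5) (nat_lit 535) c7_9493_0
 (Tr.nd (nat_lit 101) (nat_lit 2) (nat_lit 17) (nat_lit 501) c7_9493_0
 Tr.lf Tr.lf) Tr.lf)) (Tr.nd (nat_lit 107) (nat_lit 10) (nat_lit 7) (nat_lit 584) c7_9493_0
 (Tr.nd (nat_lit 106) (nat_lit 5) (nat_lit 6) (nat_lit 554) c7_9493_0
 (Tr.nd (nat_lit 105) (nat_lit 1) (nat_lit 7) (nat_lit 547) c7_9493_0
 Tr.lf Tr.lf) Tr.lf) (Tr.nd (nat_lit 109) (nat_lit 23) (nat_lit 1) (nat_lit 688) c7_9493_0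
 (Tr.nd (nat_lit 108) (nat_lit 17) (nat_lit 2) (nat_lit 654) c7_9493_0
 Tr.lf Tr.lf) Tr.lf)))) (Tr.nd (nat_lit 200) (nat_lit 11) (nat_lit 3) (nat_lit 1070) c7_9493_0
 (Tr.nd (nat_lit 155) (nat_lit 5) (nat_lit 2) (nat_lit 851) c7_9493_0
 (Tr.nd (nat_lit 151) (nat_lit 6) (nat_lit 5) (nat_lit 812) c7_9493_0
 (Tr.nd (nat_lit 150) (nat_lit 4) (nat_lit 11) (nat_lit 768) c7_9493_0
 (Tr.nd (nat_lit 149) (nat_lit 2) (nat_lit 17) (nat_lit 734) c7_9493_0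
 Tr.lf Tr.lf) Tr.lf) (Tr.nd (nat_lit 154) (nat_lit 1) (nat_lit 2) (nat_lit 849) c7_9493_0
 (Tr.nd (nat_lit 152) (nat_lit 7) (nat_lit 1) (nat_lit 842) c7_9493_0
 Tr.lf Tr.lf) Tr.lf)) (Tr.nd (nat_lit 158) (nat_lit 61) (nat_lit 1) (nat_lit 969) c7_9493_0
 (Tr.nd (nat_lit 157) (nat_lit 37) (nat_lit 2) (nat_lit 895) c7_9493_0
 (Tr.nd (nat_lit 156) (nat_lit 17) (nat_lit 2) (nat_lit 861) c7_9493_0
 Tr.lf Tr.lf) Tr.lf) (Tr.nd (nat_lit 199) (nat_lit 6) (nat_lit 5) (nat_lit 1040) c7_9493_0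
 (Tr.nd (nat_lit 198) (nat_lit 2) (nat_lit 5) (nat_lit 1030) c7_9493_0
 Tr.lf Tr.lf) Tr.lf))) (Tr.nd (nat_lit 247) (nat_lit 2) (nat_lit 1) (nat_lit 1342) c7_9493_0
 (Tr.nd (nat_lit 206) (nat_lit 61) (nat_lit 1) (nat_lit 1141) c7_9493_0
 (Tr.nd (nat_lit 205) (nat_lit 23) (nat_lit 1) (nat_lit 1118) c7_9493_0
 (Tr.nd (nat_lit 201) (nat_lit 15) (nat_lit 1) (nat_lit 1103) c7_9493_0
 Tr.lf Tr.lf) Tr.lf) (Tr.nd (nat_lit 208) (nat_lit 24) (nat_lit 1) (nat_lit 1318) c7_9493_0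
 (Tr.nd (nat_lit 207) (nat_lit 116) (nat_lit 1) (nat_lit 1202) c7_9493_0
 Tr.lf Tr.lf) Tr.lf)) (Tr.nd (nat_lit 250) (nat_lit 2) (nat_lit 1) (nat_lit 1366) c7_9493_0
 (Tr.nd (nat_lit 249) (nat_lit 15) (nat_lit 1) (nat_lit 1351) c7_9493_0
 (Tr.nd (nat_lit 248) (nat_lit 7) (nat_lit 1) (nat_lit 1344) c7_9493_0
 Tr.lf Tr.lf) Tr.lf) (Tr.nd (nat_lit 257) (nat_lit 4) (nat_lit 1) (nat_lit 1392) c7_9493_0
 (Tr.nd (nat_lit 256) (nat_lit 24) (nat_lit 1) (nat_lit 1368) c7_9493_0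
 Tr.lf Tr.lf) Tr.lf)))))

noncomputable def c7_9301_0 : List Nat := [(nat_lit 0x1335b3828b346300180006ec4ebc75a039740edc2676624a99c51d98c00cb0b116385aa968e17091d0c0c88a0c7002e419c11436b5932ee94029889c882010c86a18b812f1882745083cecc69ab35118f149409c4c0b296b571d9981723108ea90a823568ca2104b6c492d5c9524339a9486c8db965258803ad46a4ccd99a1bc2371e0dba522f4d9184caa93124628f1a187016a4920b6b78bb331192691aac2052a893ae8449c4378e659791c0ead847038e8f37a98892533189a49b465470ea15821091729a86b328b28dc2908a1ca302d403d74a40c46559d760006347354c0dab8d275a7584db2ed5800c40938a51825a3d54b0502c00524a582ce8b2c11e033825945790c91268c14c2d51c563680a0412a4308000000006a80e541469e65a00000001b9ae0eb00000001ac1dd58d45af650981e140b8b190d563140914d4533985a05d63888934992a4c652674d042f1289c7474b38c0597924e510ec146d964a646ccb5aea1182b5065703492e07a567376d1249132230c539c50a4a135587185e9914d88dbd5c79579a381684a61daaa329a20b1a26a1558d29aa1a40a70c8ad82051616a70446455c0a15a80f4ae3b9336501a8d089239c2a279534e95e6008e190101aab6c0ad940e17135841a20839512d048ab050d45b438855c84246898e20464ab5290535db9a4c0874ae28f4449d2bd06b589a802467552cb9b0000c01839a51447b27a0)]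
noncomputable def T7_9301 : Op := Op.mk (nat_lit 85)
 (Tr.nd (nat_lit 148) (nat_lit 1) (nat_lit 23) (nat_lit 711) c7_9301_0
 (Tr.nd (nat_lit 58) (nat_lit 5) (nat_lit 6) (nat_lit 326) c7_9301_0
 (Tr.nd (nat_lit 49) (nat_lit 1) (nat_lit 24) (nat_lit 54) c7_9301_0
 (Tr.nd (nat_lit 8) (nat_lit 1) (nat_lit 15) (nat_lit 30) c7_9301_0
 (Tr.nd (nat_lit 1) (nat_lit 1) (nat_lit 24) (nat_lit 4) c7_9301_0
 (Tr.nd (nat_lit 0) (nat_lit 1) (nat_lit 4) (nat_lit 0) c7_9301_0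
 Tr.lf Tr.lf) (Tr.nd (nat_lit 7) (nat_lit 1) (nat_lit 2) (nat_lit 28) c7_9301_0
 Tr.lf Tr.lf)) (Tr.nd (nat_lit 10) (nat_lit 1) (nat_lit 2) (nat_lit 52) c7_9301_0
 (Tr.nd (nat_lit 9) (nat_lit 1) (nat_lit 7) (nat_lit 45) c7_9301_0
 Tr.lf Tr.lf) Tr.lf)) (Tr.nd (nat_lit 52) (nat_lit 1) (nat_lit 23) (nat_lit 255) c7_9301_0
 (Tr.nd (nat_lit 51) (nat_lit 1) (nat_lit 61) (nat_lit 194) c7_9301_0
 (Tr.nd (nat_lit 50) (nat_lit 1) (nat_lit 116) (nat_lit 78) c7_9301_0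
 Tr.lf Tr.lf) Tr.lf) (Tr.nd (nat_lit 57) (nat_lit 3) (nat_lit 11) (nat_lit 293) c7_9301_0
 (Tr.nd (nat_lit 56) (nat_lit 1) (nat_lit 15) (nat_lit 278) c7_9301_0
 Tr.lf Tr.lf) Tr.lf))) (Tr.nd (nat_lit 103) (nat_lit 2) (nat_lit 1) (nat_lit 545) c7_9301_0
 (Tr.nd (nat_lit 100) (nat_lit 2) (nat_lit 37) (nat_lit 427) c7_9301_0
 (Tr.nd (nat_lit 99) (nat_lit 1) (nat_lit 61) (nat_lit 366) c7_9301_0
 (Tr.nd (nat_lit 59) (nat_lit 5) (nat_lit 2) (nat_lit 356) c7_9301_0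
 Tr.lf Tr.lf) Tr.lf) (Tr.nd (nat_lit 102) (nat_lit 2) (nat_lit 5) (nat_lit 535) c7_9301_0
 (Tr.nd (nat_lit 101) (nat_lit 2) (nat_lit 17) (nat_lit 501) c7_9301_0
 Tr.lf Tr.lf) Tr.lf)) (Tr.nd (nat_lit 107) (nat_lit 10) (nat_lit 7) (nat_lit 584) c7_9301_0
 (Tr.nd (nat_lit 106) (nat_lit 5) (nat_lit 6) (nat_lit 554) c7_9301_0
 (Tr.nd (nat_lit 105) (nat_lit 1) (nat_lit 7) (nat_lit 547) c7_9301_0
 Tr.lf Tr.lf) Tr.lf) (Tr.nd (nat_lit 109) (nat_lit 23) (nat_lit 1) (nat_lit 688) c7_9301_0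
 (Tr.nd (nat_lit 108) (nat_lit 17) (nat_lit 2) (nat_lit 654) c7_9301_0
 Tr.lf Tr.lf) Tr.lf)))) (Tr.nd (nat_lit 200) (nat_lit 11) (nat_lit 3) (nat_lit 1070) c7_9301_0
 (Tr.nd (nat_lit 155) (nat_lit 5) (nat_lit 2) (nat_lit 851) c7_9301_0
 (Tr.nd (nat_lit 151) (nat_lit 6) (nat_lit 5) (nat_lit 812) c7_9301_0
 (Tr.nd (nat_lit 150) (nat_lit 4) (nat_lit 11) (nat_lit 768) c7_9301_0
 (Tr.nd (nat_lit 149) (nat_lit 2) (nat_lit 17) (nat_lit 734) c7_9301_0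
 Tr.lf Tr.lf) Tr.lf) (Tr.nd (nat_lit 154) (nat_lit 1) (nat_lit 2) (nat_lit 849) c7_9301_0
 (Tr.nd (nat_lit 152) (nat_lit 7) (nat_lit 1) (nat_lit 842) c7_9301_0
 Tr.lf Tr.lf) Tr.lf)) (Tr.nd (nat_lit 158) (nat_lit 61) (nat_lit 1) (nat_lit 969) c7_9301_0
 (Tr.nd (nat_lit 157) (nat_lit 37) (nat_lit 2) (nat_lit 895) c7_9301_0
 (Tr.nd (nat_lit 156) (nat_lit 17) (nat_lit 2) (nat_lit 861) c7_9301_0
 Tr.lf Tr.lf) Tr.lf) (Tr.nd (nat_lit 199) (nat_lit 6) (nat_lit 5) (nat_lit 1040) c7_9301_0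
 (Tr.nd (nat_lit 198) (nat_lit 2) (nat_lit 5) (nat_lit 1030) c7_9301_0
 Tr.lf Tr.lf) Tr.lf))) (Tr.nd (nat_lit 247) (nat_lit 2) (nat_lit 1) (nat_lit 1342) c7_9301_0
 (Tr.nd (nat_lit 206) (nat_lit 61) (nat_lit 1) (nat_lit 1141) c7_9301_0
 (Tr.nd (nat_lit 205) (nat_lit 23) (nat_lit 1) (nat_lit 1118) c7_9301_0
 (Tr.nd (nat_lit 201) (nat_lit 15) (nat_lit 1) (nat_lit 1103) c7_9301_0
 Tr.lf Tr.lf) Tr.lf) (Tr.nd (nat_lit 208) (nat_lit 24) (nat_lit 1) (nat_lit 1318) c7_9301_0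
 (Tr.nd (nat_lit 207) (nat_lit 116) (nat_lit 1) (nat_lit 1202) c7_9301_0
 Tr.lf Tr.lf) Tr.lf)) (Tr.nd (nat_lit 250) (nat_lit 2) (nat_lit 1) (nat_lit 1366) c7_9301_0
 (Tr.nd (nat_lit 249) (nat_lit 15) (nat_lit 1) (nat_lit 1351) c7_9301_0
 (Tr.nd (nat_lit 248) (nat_lit 7) (nat_lit 1) (nat_lit 1344) c7_9301_0
 Tr.lf Tr.lf) Tr.lf) (Tr.nd (nat_lit 257) (nat_lit 4) (nat_lit 1) (nat_lit 1392) c7_9301_0
 (Tr.nd (nat_lit 256) (nat_lit 24) (nat_lit 1) (nat_lit 1368) c7_9301_0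
 Tr.lf Tr.lf) Tr.lf)))))

noncomputable def c7_8533_0 : List Nat := [(nat_lit 0x490000006ad100000000002dc43d81d212dc28a77058113022669478001b2d261e8cb39d00a4e24f15aa78981664247449c0a8a6daac6204de29d31054171b7aaa3434346a2a51a5c1a5515aa703ce5610598595d96008d9a6d12dada824dd9800c7991985b25a3283aeec31d4b0c203565055d33141daac6204dbd6bc52b9bb861b34f5a56c5286a582918d62ba8c09b21d6298ed8336d2a9a2154c21c81cac540a3545a40009250ab97241278bce632c82d29c49162000366e41e031122c640361716b5adb71298bbad50088bcf5d89da2b14c7187486518c8b4000925722d4348bda4763c04b318f010a99b1663a06721104d10d1730bb386600c44d2497a948dcc92692a103431e990301cf1ad8c2ecdc4444135000000003128e86ee63291e0000000269028ed0000000348419a09a1466a6130c91654cd86d36b9e654a3262ca6cc838cd5a33860b40e3d620706f2543428713aa20c1974969506b887914f082806290216051438b41d8c48c186a305351b69636c7452e32524617552e0e440e48c4aecf6783cee65dd562f2a90b5b063305a02585b42ad031e69552e8c38366917325b20f02f38400f6a491764d929b4f6040cb6ab20f2083b1e6235722aa4c0000000000006d8000002d000004c68ba899b780490784cd9c982480040f099b3a50400000000d504869a680033893d011a02321ab4518d800159041048000000000029dc00000092)]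
noncomputable def T7_8533 : Op := Op.mk (nat_lit 85)
 (Tr.nd (nat_lit 148) (nat_lit 1) (nat_lit 23) (nat_lit 711) c7_8533_0
 (Tr.nd (nat_lit 58) (nat_lit 5) (nat_lit 6) (nat_lit 326) c7_8533_0
 (Tr.nd (nat_lit 49) (nat_lit 1) (nat_lit 24) (nat_lit 54) c7_8533_0
 (Tr.nd (nat_lit 8) (nat_lit 1) (nat_lit 15) (nat_lit 30) c7_8533_0
 (Tr.nd (nat_lit 1) (nat_lit 1) (nat_lit 24) (nat_lit 4) c7_8533_0
 (Tr.nd (nat_lit 0) (nat_lit 1) (nat_lit 4) (nat_lit 0) c7_8533_0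
 Tr.lf Tr.lf) (Tr.nd (nat_lit 7) (nat_lit 1) (nat_lit 2) (nat_lit 28) c7_8533_0
 Tr.lf Tr.lf)) (Tr.nd (nat_lit 10) (nat_lit 1) (nat_lit 2) (nat_lit 52) c7_8533_0
 (Tr.nd (nat_lit 9) (nat_lit 1) (nat_lit 7) (nat_lit 45) c7_8533_0
 Tr.lf Tr.lf) Tr.lf)) (Tr.nd (nat_lit 52) (nat_lit 1) (nat_lit 23) (nat_lit 255) c7_8533_0
 (Tr.nd (nat_lit 51) (nat_lit 1) (nat_lit 61) (nat_lit 194) c7_8533_0
 (Tr.nd (nat_lit 50) (nat_lit 1) (nat_lit 116) (nat_lit 78) c7_8533_0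
 Tr.lf Tr.lf) Tr.lf) (Tr.nd (nat_lit 57) (nat_lit 3) (nat_lit 11) (nat_lit 293) c7_8533_0
 (Tr.nd (nat_lit 56) (nat_lit 1) (nat_lit 15) (nat_lit 278) c7_8533_0
 Tr.lf Tr.lf) Tr.lf))) (Tr.nd (nat_lit 103) (nat_lit 2) (nat_lit 1) (nat_lit 545) c7_8533_0
 (Tr.nd (nat_lit 100) (nat_lit 2) (nat_lit 37) (nat_lit 427) c7_8533_0
 (Tr.nd (nat_lit 99) (nat_lit 1) (nat_lit 61) (nat_lit 366) c7_8533_0
 (Tr.nd (nat_lit 59) (nat_lit 5) (nat_lit 2) (nat_lit 356) c7_8533_0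
 Tr.lf Tr.lf) Tr.lf) (Tr.nd (nat_lit 102) (nat_lit 2) (nat_lit 5) (nat_lit 535) c7_8533_0
 (Tr.nd (nat_lit 101) (nat_lit 2) (nat_lit 17) (nat_lit 501) c7_8533_0
 Tr.lf Tr.lf) Tr.lf)) (Tr.nd (nat_lit 107) (nat_lit 10) (nat_lit 7) (nat_lit 584) c7_8533_0
 (Tr.nd (nat_lit 106) (nat_lit 5) (nat_lit 6) (nat_lit 554) c7_8533_0
 (Tr.nd (nat_lit 105) (nat_lit 1) (nat_lit 7) (nat_lit 547) c7_8533_0
 Tr.lf Tr.lf) Tr.lf) (Tr.nd (nat_lit 109) (nat_lit 23) (nat_lit 1) (nat_lit 688) c7_8533_0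
 (Tr.nd (nat_lit 108) (nat_lit 17) (nat_lit 2) (nat_lit 654) c7_8533_0
 Tr.lf Tr.lf) Tr.lf)))) (Tr.nd (nat_lit 200) (nat_lit 11) (nat_lit 3) (nat_lit 1070) c7_8533_0
 (Tr.nd (nat_lit 155) (nat_lit 5) (nat_lit 2) (nat_lit 851) c7_8533_0
 (Tr.nd (nat_lit 151) (nat_lit 6) (nat_lit 5) (nat_lit 812) c7_8533_0
 (Tr.nd (nat_lit 150) (nat_lit 4) (nat_lit 11) (nat_lit 768) c7_8533_0
 (Tr.nd (nat_lit 149) (nat_lit 2) (nat_lit 17) (nat_lit 734) c7_8533_0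
 Tr.lf Tr.lf) Tr.lf) (Tr.nd (nat_lit 154) (nat_lit 1) (nat_lit 2) (nat_lit 849) c7_8533_0
 (Tr.nd (nat_lit 152) (nat_lit 7) (nat_lit 1) (nat_lit 842) c7_8533_0
 Tr.lf Tr.lf) Tr.lf)) (Tr.nd (nat_lit 158) (nat_lit 61) (nat_lit 1) (nat_lit 969) c7_8533_0
 (Tr.nd (nat_lit 157) (nat_lit 37) (nat_lit 2) (nat_lit 895) c7_8533_0
 (Tr.nd (nat_lit 156) (nat_lit 17) (nat_lit 2) (nat_lit 861) c7_8533_0
 Tr.lf Tr.lf) Tr.lf) (Tr.nd (nat_lit 199) (nat_lit 6) (nat_lit 5) (nat_lit 1040) c7_8533_0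
 (Tr.nd (nat_lit 198) (nat_lit 2) (nat_lit 5) (nat_lit 1030) c7_8533_0
 Tr.lf Tr.lf) Tr.lf))) (Tr.nd (nat_lit 247) (nat_lit 2) (nat_lit 1) (nat_lit 1342) c7_8533_0
 (Tr.nd (nat_lit 206) (nat_lit 61) (nat_lit 1) (nat_lit 1141) c7_8533_0
 (Tr.nd (nat_lit 205) (nat_lit 23) (nat_lit 1) (nat_lit 1118) c7_8533_0
 (Tr.nd (nat_lit 201) (nat_lit 15) (nat_lit 1) (nat_lit 1103) c7_8533_0
 Tr.lf Tr.lf) Tr.lf) (Tr.nd (nat_lit 208) (nat_lit 24) (nat_lit 1) (nat_lit 1318) c7_8533_0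
 (Tr.nd (nat_lit 207) (nat_lit 116) (nat_lit 1) (nat_lit 1202) c7_8533_0
 Tr.lf Tr.lf) Tr.lf)) (Tr.nd (nat_lit 250) (nat_lit 2) (nat_lit 1) (nat_lit 1366) c7_8533_0
 (Tr.nd (nat_lit 249) (nat_lit 15) (nat_lit 1) (nat_lit 1351) c7_8533_0
 (Tr.nd (nat_lit 248) (nat_lit 7) (nat_lit 1) (nat_lit 1344) c7_8533_0
 Tr.lf Tr.lf) Tr.lf) (Tr.nd (nat_lit 257) (nat_lit 4) (nat_lit 1) (nat_lit 1392) c7_8533_0
 (Tr.nd (nat_lit 256) (nat_lit 24) (nat_lit 1) (nat_lit 1368) c7_8533_0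
 Tr.lf Tr.lf) Tr.lf)))))

noncomputable def c7_4437_0 : List Nat := [(nat_lit 0)]
noncomputable def T7_4437 : Op := Op.mk (nat_lit 91)
 (Tr.nd (nat_lit 148) (nat_lit 1) (nat_lit 2) (nat_lit 74) c7_4437_0
 (Tr.nd (nat_lit 99) (nat_lit 1) (nat_lit 7) (nat_lit 35) c7_4437_0
 (Tr.nd (nat_lit 50) (nat_lit 1) (nat_lit 15) (nat_lit 3) c7_4437_0
 (Tr.nd (nat_lit 49) (nat_lit 1) (nat_lit 1) (nat_lit 2) c7_4437_0
 (Tr.nd (nat_lit 1) (nat_lit 1) (nat_lit 2) (nat_lit 0) c7_4437_0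
 Tr.lf Tr.lf) Tr.lf) (Tr.nd (nat_lit 52) (nat_lit 1) (nat_lit 6) (nat_lit 29) c7_4437_0
 (Tr.nd (nat_lit 51) (nat_lit 1) (nat_lit 11) (nat_lit 18) c7_4437_0
 Tr.lf Tr.lf) Tr.lf)) (Tr.nd (nat_lit 102) (nat_lit 2) (nat_lit 3) (nat_lit 66) c7_4437_0
 (Tr.nd (nat_lit 101) (nat_lit 2) (nat_lit 5) (nat_lit 56) c7_4437_0
 (Tr.nd (nat_lit 100) (nat_lit 2) (nat_lit 7) (nat_lit 42) c7_4437_0
 Tr.lf Tr.lf) Tr.lf) (Tr.nd (nat_lit 103) (nat_lit 2) (nat_lit 1) (nat_lit 72) c7_4437_0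
 Tr.lf Tr.lf))) (Tr.nd (nat_lit 199) (nat_lit 6) (nat_lit 1) (nat_lit 131) c7_4437_0
 (Tr.nd (nat_lit 151) (nat_lit 6) (nat_lit 5) (nat_lit 94) c7_4437_0
 (Tr.nd (nat_lit 150) (nat_lit 4) (nat_lit 3) (nat_lit 82) c7_4437_0
 (Tr.nd (nat_lit 149) (nat_lit 2) (nat_lit 3) (nat_lit 76) c7_4437_0
 Tr.lf Tr.lf) Tr.lf) (Tr.nd (nat_lit 152) (nat_lit 7) (nat_lit 1) (nat_lit 124) c7_4437_0
 Tr.lf Tr.lf)) (Tr.nd (nat_lit 202) (nat_lit 1) (nat_lit 1) (nat_lit 163) c7_4437_0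
 (Tr.nd (nat_lit 201) (nat_lit 15) (nat_lit 1) (nat_lit 148) c7_4437_0
 (Tr.nd (nat_lit 200) (nat_lit 11) (nat_lit 1) (nat_lit 137) c7_4437_0
 Tr.lf Tr.lf) Tr.lf) (Tr.nd (nat_lit 250) (nat_lit 2) (nat_lit 1) (nat_lit 164) c7_4437_0
 Tr.lf Tr.lf))))

noncomputable def c7_8872_0 : List Nat := [(nat_lit 0xbb2b09a7448d11a2ec4920956de6d9610762bb4b4301a20002ad2ea26d288884838046dc3b1cc1b8daa24f394919817318dd9883622c35465ac4a16e4d5742c74691b8982dda0403b8d702021005cd80530ac2b3454421426068cd1b8c8f2c060f17b18664e136039d0536c9791b148e5b756a33b61a89a02952e06cc58077485c862a18b76a12c1a8ee219b89a5b874cc590829d260323ca6900b65ab1aee80814cc690c6c2e5130c40093aab2ca008a257620095eaecba838b04100000001c350a2ea70a64b60d96723149b53065b239318c984e6483a3480c9ddad0c550c8cc9ab03285b1193141721a6b2ad9d644b5e8a52b325b688af112931ad0c3b339ac063a211e022133248d6a88a7919506880dea00300423a75602136b4427529398e436a0a29d6ccb524f6354b24832050ab6c6d12cad476ec62535580993521b19d94cdeaa96507800014c062d9b552b094dae59ad6e4929594e0a5298d2655b5)]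
noncomputable def T7_8872 : Op := Op.mk (nat_lit 103)
 (Tr.nd (nat_lit 120) (nat_lit 17) (nat_lit 2) (nat_lit 474) c7_8872_0
 (Tr.nd (nat_lit 64) (nat_lit 5) (nat_lit 6) (nat_lit 228) c7_8872_0
 (Tr.nd (nat_lit 22) (nat_lit 1) (nat_lit 6) (nat_lit 53) c7_8872_0
 (Tr.nd (nat_lit 7) (nat_lit 1) (nat_lit 24) (nat_lit 3) c7_8872_0
 (Tr.nd (nat_lit 1) (nat_lit 1) (nat_lit 1) (nat_lit 2) c7_8872_0
 (Tr.nd (nat_lit 0) (nat_lit 1) (nat_lit 2) (nat_lit 0) c7_8872_0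
 Tr.lf Tr.lf) Tr.lf) (Tr.nd (nat_lit 15) (nat_lit 1) (nat_lit 11) (nat_lit 42) c7_8872_0
 (Tr.nd (nat_lit 8) (nat_lit 1) (nat_lit 15) (nat_lit 27) c7_8872_0
 Tr.lf Tr.lf) Tr.lf)) (Tr.nd (nat_lit 56) (nat_lit 1) (nat_lit 75) (nat_lit 71) c7_8872_0
 (Tr.nd (nat_lit 50) (nat_lit 1) (nat_lit 5) (nat_lit 66) c7_8872_0
 (Tr.nd (nat_lit 49) (nat_lit 1) (nat_lit 7) (nat_lit 59) c7_8872_0
 Tr.lf Tr.lf) Tr.lf) (Tr.nd (nat_lit 63) (nat_lit 1) (nat_lit 61) (nat_lit 167) c7_8872_0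
 (Tr.nd (nat_lit 57) (nat_lit 3) (nat_lit 7) (nat_lit 146) c7_8872_0
 Tr.lf Tr.lf) Tr.lf))) (Tr.nd (nat_lit 105) (nat_lit 1) (nat_lit 24) (nat_lit 330) c7_8872_0
 (Tr.nd (nat_lit 78) (nat_lit 5) (nat_lit 2) (nat_lit 315) c7_8872_0
 (Tr.nd (nat_lit 71) (nat_lit 5) (nat_lit 4) (nat_lit 295) c7_8872_0
 (Tr.nd (nat_lit 70) (nat_lit 1) (nat_lit 37) (nat_lit 258) c7_8872_0
 Tr.lf Tr.lf) Tr.lf) (Tr.nd (nat_lit 99) (nat_lit 1) (nat_lit 1) (nat_lit 329) c7_8872_0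
 (Tr.nd (nat_lit 85) (nat_lit 4) (nat_lit 1) (nat_lit 325) c7_8872_0
 Tr.lf Tr.lf) Tr.lf)) (Tr.nd (nat_lit 113) (nat_lit 10) (nat_lit 3) (nat_lit 410) c7_8872_0
 (Tr.nd (nat_lit 112) (nat_lit 2) (nat_lit 23) (nat_lit 364) c7_8872_0
 (Tr.nd (nat_lit 106) (nat_lit 5) (nat_lit 2) (nat_lit 354) c7_8872_0
 Tr.lf Tr.lf) Tr.lf) (Tr.nd (nat_lit 119) (nat_lit 2) (nat_lit 17) (nat_lit 440) c7_8872_0
 Tr.lf Tr.lf)))) (Tr.nd (nat_lit 176) (nat_lit 61) (nat_lit 1) (nat_lit 712) c7_8872_0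
 (Tr.nd (nat_lit 154) (nat_lit 1) (nat_lit 4) (nat_lit 611) c7_8872_0
 (Tr.nd (nat_lit 133) (nat_lit 2) (nat_lit 5) (nat_lit 576) c7_8872_0
 (Tr.nd (nat_lit 127) (nat_lit 23) (nat_lit 2) (nat_lit 530) c7_8872_0
 (Tr.nd (nat_lit 126) (nat_lit 2) (nat_lit 11) (nat_lit 508) c7_8872_0
 Tr.lf Tr.lf) Tr.lf) (Tr.nd (nat_lit 140) (nat_lit 1) (nat_lit 1) (nat_lit 610) c7_8872_0
 (Tr.nd (nat_lit 134) (nat_lit 24) (nat_lit 1) (nat_lit 586) c7_8872_0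
 Tr.lf Tr.lf) Tr.lf)) (Tr.nd (nat_lit 169) (nat_lit 37) (nat_lit 1) (nat_lit 645) c7_8872_0
 (Tr.nd (nat_lit 168) (nat_lit 4) (nat_lit 5) (nat_lit 625) c7_8872_0
 (Tr.nd (nat_lit 161) (nat_lit 2) (nat_lit 5) (nat_lit 615) c7_8872_0
 Tr.lf Tr.lf) Tr.lf) (Tr.nd (nat_lit 175) (nat_lit 6) (nat_lit 5) (nat_lit 682) c7_8872_0
 Tr.lf Tr.lf))) (Tr.nd (nat_lit 224) (nat_lit 11) (nat_lit 1) (nat_lit 887) c7_8872_0
 (Tr.nd (nat_lit 189) (nat_lit 5) (nat_lit 1) (nat_lit 869) c7_8872_0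
 (Tr.nd (nat_lit 183) (nat_lit 75) (nat_lit 1) (nat_lit 794) c7_8872_0
 (Tr.nd (nat_lit 182) (nat_lit 7) (nat_lit 3) (nat_lit 773) c7_8872_0
 Tr.lf Tr.lf) Tr.lf) (Tr.nd (nat_lit 217) (nat_lit 6) (nat_lit 1) (nat_lit 881) c7_8872_0
 (Tr.nd (nat_lit 190) (nat_lit 7) (nat_lit 1) (nat_lit 874) c7_8872_0
 Tr.lf Tr.lf) Tr.lf)) (Tr.nd (nat_lit 238) (nat_lit 1) (nat_lit 1) (nat_lit 937) c7_8872_0
 (Tr.nd (nat_lit 232) (nat_lit 24) (nat_lit 1) (nat_lit 913) c7_8872_0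
 (Tr.nd (nat_lit 231) (nat_lit 15) (nat_lit 1) (nat_lit 898) c7_8872_0
 Tr.lf Tr.lf) Tr.lf) (Tr.nd (nat_lit 239) (nat_lit 2) (nat_lit 1) (nat_lit 938) c7_8872_0
 Tr.lf Tr.lf)))))

noncomputable def c7_8866_0 : List Nat := [(nat_lit 0x4b006a71d31399119c7b61038da5423a902c0a3592c956750d958ab35d8398e584843cb46add0344869dd1cc0baf42cccc0ae5c0201e66470d11a29260688d428799131c31243d06a0860c9508b3102ce9aea2d2d99272008b4c0a150e72bce27a6235b84af2aa53b584dd26adbb7051695924da18316d36d463b28527b4194b5a90a7419047804117907b6c11aa5056a9570eda9a610de241b8039906b14c00925520a2c24cc6a3ac9572a20002c05503042429259cc2123ab348800000002d6492340a905827234ac1c34a3b6ce2aea189742868bb621e07081342422b4644ed8b09b348c5b6386da5ccb4a912434ac681ad6ddd26a4cbb1b1559d835b81d3390620979031cb94353a882f649955d35e4207940ac843045c266093863a02f3142a50c6392221c4a84f6454ccac10bb22121a865a06b8e434c88b6d98c46164c649292c0cad41518b8ba964b27109403515145b00f0bb38f02b46a1ae3548192)]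
noncomputable def T7_8866 : Op := Op.mk (nat_lit 103)
 (Tr.nd (nat_lit 120) (nat_lit 17) (nat_lit 2) (nat_lit 474) c7_8866_0
 (Tr.nd (nat_lit 64) (nat_lit 5) (nat_lit 6) (nat_lit 228) c7_8866_0
 (Tr.nd (nat_lit 22) (nat_lit 1) (nat_lit 6) (nat_lit 53) c7_8866_0
 (Tr.nd (nat_lit 7) (nat_lit 1) (nat_lit 24) (nat_lit 3) c7_8866_0
 (Tr.nd (nat_lit 1) (nat_lit 1) (nat_lit 1) (nat_lit 2) c7_8866_0
 (Tr.nd (nat_lit 0) (nat_lit 1) (nat_lit 2) (nat_lit 0) c7_8866_0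
 Tr.lf Tr.lf) Tr.lf) (Tr.nd (nat_lit 15) (nat_lit 1) (nat_lit 11) (nat_lit 42) c7_8866_0
 (Tr.nd (nat_lit 8) (nat_lit 1) (nat_lit 15) (nat_lit 27) c7_8866_0
 Tr.lf Tr.lf) Tr.lf)) (Tr.nd (nat_lit 56) (nat_lit 1) (nat_lit 75) (nat_lit 71) c7_8866_0
 (Tr.nd (nat_lit 50) (nat_lit 1) (nat_lit 5) (nat_lit 66) c7_8866_0
 (Tr.nd (nat_lit 49) (nat_lit 1) (nat_lit 7) (nat_lit 59) c7_8866_0
 Tr.lf Tr.lf) Tr.lf) (Tr.nd (nat_lit 63) (nat_lit 1) (nat_lit 61) (nat_lit 167) c7_8866_0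
 (Tr.nd (nat_lit 57) (nat_lit 3) (nat_lit 7) (nat_lit 146) c7_8866_0
 Tr.lf Tr.lf) Tr.lf))) (Tr.nd (nat_lit 105) (nat_lit 1) (nat_lit 24) (nat_lit 330) c7_8866_0
 (Tr.nd (nat_lit 78) (nat_lit 5) (nat_lit 2) (nat_lit 315) c7_8866_0
 (Tr.nd (nat_lit 71) (nat_lit 5) (nat_lit 4) (nat_lit 295) c7_8866_0
 (Tr.nd (nat_lit 70) (nat_lit 1) (nat_lit 37) (nat_lit 258) c7_8866_0
 Tr.lf Tr.lf) Tr.lf) (Tr.nd (nat_lit 99) (nat_lit 1) (nat_lit 1) (nat_lit 329) c7_8866_0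
 (Tr.nd (nat_lit 85) (nat_lit 4) (nat_lit 1) (nat_lit 325) c7_8866_0
 Tr.lf Tr.lf) Tr.lf)) (Tr.nd (nat_lit 113) (nat_lit 10) (nat_lit 3) (nat_lit 410) c7_8866_0
 (Tr.nd (nat_lit 112) (nat_lit 2) (nat_lit 23) (nat_lit 364) c7_8866_0
 (Tr.nd (nat_lit 106) (nat_lit 5) (nat_lit 2) (nat_lit 354) c7_8866_0
 Tr.lf Tr.lf) Tr.lf) (Tr.nd (nat_lit 119) (nat_lit 2) (nat_lit 17) (nat_lit 440) c7_8866_0
 Tr.lf Tr.lf)))) (Tr.nd (nat_lit 176) (nat_lit 61) (nat_lit 1) (nat_lit 712) c7_8866_0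
 (Tr.nd (nat_lit 154) (nat_lit 1) (nat_lit 4) (nat_lit 611) c7_8866_0
 (Tr.nd (nat_lit 133) (nat_lit 2) (nat_lit 5) (nat_lit 576) c7_8866_0
 (Tr.nd (nat_lit 127) (nat_lit 23) (nat_lit 2) (nat_lit 530) c7_8866_0
 (Tr.nd (nat_lit 126) (nat_lit 2) (nat_lit 11) (nat_lit 508) c7_8866_0
 Tr.lf Tr.lf) Tr.lf) (Tr.nd (nat_lit 140) (nat_lit 1) (nat_lit 1) (nat_lit 610) c7_8866_0
 (Tr.nd (nat_lit 134) (nat_lit 24) (nat_lit 1) (nat_lit 586) c7_8866_0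
 Tr.lf Tr.lf) Tr.lf)) (Tr.nd (nat_lit 169) (nat_lit 37) (nat_lit 1) (nat_lit 645) c7_8866_0
 (Tr.nd (nat_lit 168) (nat_lit 4) (nat_lit 5) (nat_lit 625) c7_8866_0
 (Tr.nd (nat_lit 161) (nat_lit 2) (nat_lit 5) (nat_lit 615) c7_8866_0
 Tr.lf Tr.lf) Tr.lf) (Tr.nd (nat_lit 175) (nat_lit 6) (nat_lit 5) (nat_lit 682) c7_8866_0
 Tr.lf Tr.lf))) (Tr.nd (nat_lit 224) (nat_lit 11) (nat_lit 1) (nat_lit 887) c7_8866_0
 (Tr.nd (nat_lit 189) (nat_lit 5) (nat_lit 1) (nat_lit 869) c7_8866_0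
 (Tr.nd (nat_lit 183) (nat_lit 75) (nat_lit 1) (nat_lit 794) c7_8866_0
 (Tr.nd (nat_lit 182) (nat_lit 7) (nat_lit 3) (nat_lit 773) c7_8866_0
 Tr.lf Tr.lf) Tr.lf) (Tr.nd (nat_lit 217) (nat_lit 6) (nat_lit 1) (nat_lit 881) c7_8866_0
 (Tr.nd (nat_lit 190) (nat_lit 7) (nat_lit 1) (nat_lit 874) c7_8866_0
 Tr.lf Tr.lf) Tr.lf)) (Tr.nd (nat_lit 238) (nat_lit 1) (nat_lit 1) (nat_lit 937) c7_8866_0
 (Tr.nd (nat_lit 232) (nat_lit 24) (nat_lit 1) (nat_lit 913) c7_8866_0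
 (Tr.nd (nat_lit 231) (nat_lit 15) (nat_lit 1) (nat_lit 898) c7_8866_0
 Tr.lf Tr.lf) Tr.lf) (Tr.nd (nat_lit 239) (nat_lit 2) (nat_lit 1) (nat_lit 938) c7_8866_0
 Tr.lf Tr.lf)))))

noncomputable def c7_8842_0 : List Nat := [(nat_lit 0xa81d6b2ab999ba488876d1896029ab313b9ec8caf49a2ce108c5921741b21441430c4510ca50c6b86222aebd86355673966959c1a80ecb008a6b076a74b75a522158c48c1ad92b420c609ea4cba16ee9912c10d4a5d8f322b355730a468e30aa4892c5651433b41010a264d1d5e0ea2cb82a32eaeb66cc7428b0b6659625ad07410a826b9193094248abd116d80de416930804372a03922d167804e2d26d9140369bd1360249167021dc4bae1cb160139329a60ba86631c62a88cdc000000033ca3419ce3c224b6d224a36034ea98511c5b09a302bc4c0e23202614e474915022b09db032cbd9118e8ca96da4465c3596b3558cee29ad0508022d78228ba192533400ec5a376639315a951acd8982192b4d5b33584dcd0c1842d4b64c604e0e85224d36d359d370b51000680729c1126e452646549c54661d6ec7175314b689b294812f1cd354b85031e53499d856cf568546901165b56b0549352f475176e215)]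
noncomputable def T7_8842 : Op := Op.mk (nat_lit 103)
 (Tr.nd (nat_lit 120) (nat_lit 17) (nat_lit 2) (nat_lit 474) c7_8842_0
 (Tr.nd (nat_lit 64) (nat_lit 5) (nat_lit 6) (nat_lit 228) c7_8842_0
 (Tr.nd (nat_lit 22) (nat_lit 1) (nat_lit 6) (nat_lit 53) c7_8842_0
 (Tr.nd (nat_lit 7) (nat_lit 1) (nat_lit 24) (nat_lit 3) c7_8842_0
 (Tr.nd (nat_lit 1) (nat_lit 1) (nat_lit 1) (nat_lit 2) c7_8842_0
 (Tr.nd (nat_lit 0) (nat_lit 1) (nat_lit 2) (nat_lit 0) c7_8842_0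
 Tr.lf Tr.lf) Tr.lf) (Tr.nd (nat_lit 15) (nat_lit 1) (nat_lit 11) (nat_lit 42) c7_8842_0
 (Tr.nd (nat_lit 8) (nat_lit 1) (nat_lit 15) (nat_lit 27) c7_8842_0
 Tr.lf Tr.lf) Tr.lf)) (Tr.nd (nat_lit 56) (nat_lit 1) (nat_lit 75) (nat_lit 71) c7_8842_0
 (Tr.nd (nat_lit 50) (nat_lit 1) (nat_lit 5) (nat_lit 66) c7_8842_0
 (Tr.nd (nat_lit 49) (nat_lit 1) (nat_lit 7) (nat_lit 59) c7_8842_0
 Tr.lf Tr.lf) Tr.lf) (Tr.nd (nat_lit 63) (nat_lit 1) (nat_lit 61) (nat_lit 167) c7_8842_0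
 (Tr.nd (nat_lit 57) (nat_lit 3) (nat_lit 7) (nat_lit 146) c7_8842_0
 Tr.lf Tr.lf) Tr.lf))) (Tr.nd (nat_lit 105) (nat_lit 1) (nat_lit 24) (nat_lit 330) c7_8842_0
 (Tr.nd (nat_lit 78) (nat_lit 5) (nat_lit 2) (nat_lit 315) c7_8842_0
 (Tr.nd (nat_lit 71) (nat_lit 5) (nat_lit 4) (nat_lit 295) c7_8842_0
 (Tr.nd (nat_lit 70) (nat_lit 1) (nat_lit 37) (nat_lit 258) c7_8842_0
 Tr.lf Tr.lf) Tr.lf) (Tr.nd (nat_lit 99) (nat_lit 1) (nat_lit 1) (nat_lit 329) c7_8842_0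
 (Tr.nd (nat_lit 85) (nat_lit 4) (nat_lit 1) (nat_lit 325) c7_8842_0
 Tr.lf Tr.lf) Tr.lf)) (Tr.nd (nat_lit 113) (nat_lit 10) (nat_lit 3) (nat_lit 410) c7_8842_0
 (Tr.nd (nat_lit 112) (nat_lit 2) (nat_lit 23) (nat_lit 364) c7_8842_0
 (Tr.nd (nat_lit 106) (nat_lit 5) (nat_lit 2) (nat_lit 354) c7_8842_0
 Tr.lf Tr.lf) Tr.lf) (Tr.nd (nat_lit 119) (nat_lit 2) (nat_lit 17) (nat_lit 440) c7_8842_0
 Tr.lf Tr.lf)))) (Tr.nd (nat_lit 176) (nat_lit 61) (nat_lit 1) (nat_lit 712) c7_8842_0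
 (Tr.nd (nat_lit 154) (nat_lit 1) (nat_lit 4) (nat_lit 611) c7_8842_0
 (Tr.nd (nat_lit 133) (nat_lit 2) (nat_lit 5) (nat_lit 576) c7_8842_0
 (Tr.nd (nat_lit 127) (nat_lit 23) (nat_lit 2) (nat_lit 530) c7_8842_0
 (Tr.nd (nat_lit 126) (nat_lit 2) (nat_lit 11) (nat_lit 508) c7_8842_0
 Tr.lf Tr.lf) Tr.lf) (Tr.nd (nat_lit 140) (nat_lit 1) (nat_lit 1) (nat_lit 610) c7_8842_0
 (Tr.nd (nat_lit 134) (nat_lit 24) (nat_lit 1) (nat_lit 586) c7_8842_0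
 Tr.lf Tr.lf) Tr.lf)) (Tr.nd (nat_lit 169) (nat_lit 37) (nat_lit 1) (nat_lit 645) c7_8842_0
 (Tr.nd (nat_lit 168) (nat_lit 4) (nat_lit 5) (nat_lit 625) c7_8842_0
 (Tr.nd (nat_lit 161) (nat_lit 2) (nat_lit 5) (nat_lit 615) c7_8842_0
 Tr.lf Tr.lf) Tr.lf) (Tr.nd (nat_lit 175) (nat_lit 6) (nat_lit 5) (nat_lit 682) c7_8842_0
 Tr.lf Tr.lf))) (Tr.nd (nat_lit 224) (nat_lit 11) (nat_lit 1) (nat_lit 887) c7_8842_0
 (Tr.nd (nat_lit 189) (nat_lit 5) (nat_lit 1) (nat_lit 869) c7_8842_0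
 (Tr.nd (nat_lit 183) (nat_lit 75) (nat_lit 1) (nat_lit 794) c7_8842_0
 (Tr.nd (nat_lit 182) (nat_lit 7) (nat_lit 3) (nat_lit 773) c7_8842_0
 Tr.lf Tr.lf) Tr.lf) (Tr.nd (nat_lit 217) (nat_lit 6) (nat_lit 1) (nat_lit 881) c7_8842_0
 (Tr.nd (nat_lit 190) (nat_lit 7) (nat_lit 1) (nat_lit 874) c7_8842_0
 Tr.lf Tr.lf) Tr.lf)) (Tr.nd (nat_lit 238) (nat_lit 1) (nat_lit 1) (nat_lit 937) c7_8842_0
 (Tr.nd (nat_lit 232) (nat_lit 24) (nat_lit 1) (nat_lit 913) c7_8842_0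
 (Tr.nd (nat_lit 231) (nat_lit 15) (nat_lit 1) (nat_lit 898) c7_8842_0
 Tr.lf Tr.lf) Tr.lf) (Tr.nd (nat_lit 239) (nat_lit 2) (nat_lit 1) (nat_lit 938) c7_8842_0
 Tr.lf Tr.lf)))))

noncomputable def c7_9888_0 : List Nat := [(nat_lit 0xd5a6484420a2d15356a359a7b2cabc343449b088035a6005ac5a3a1085ad58bac888214b9316aa02988da12d355b8a8c99d96d54a5b31908612d60d8f46d0da090ec5c798142c22d262e14664e17a8053936c9d3990826a9d0550e70ac73c404aaa75a6904c816409cdad6a1283a1964c4278aade68c12842385e61d2d83052c3540780831330392c0b08b019859c54a19c0673685e4455a877558928a84d134ba6585d1c3708d5d10532d7168c82b84276aa5c94e135009a701113743a1d2122229d6f2a85b2c775154ad835e80b2001121341a518dd95c810de8c16c0266da941544182e35881364306bbab0245033426cac46935035d596f235285d961adec76c8cd4ed80d592c695005e99b5209a5252742da4b19d722ae6f4871854551029c0ace0000b60d24cacb48c0c284ab34a996646c484225b1b9ad46364e0492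1c2c4003cf1159706b60a2924006519b9863a1c1b5725b54b48ea36420d6366486a94b5458434cd20010ce273cc309d09b89d8d188aa034d440da44963445c4bcd2ce9ae0b6db8a13375dd9021a8b030385c42080d201a81c656860ab083d293b60d840528122d6ea42c03390014a68358c6f0a7184954a3611892e0298a0640e01cd8d3a862b15659428b2ad1a1203d992b079bc48bac729266750accc240266f2336c63664662834daed346e4562c123701a4b1a010cea2129a331331b591865440822c73763c289102159680e2133ac85818dacd454c65210e30084a3364931b158da00000000000000000000000000000000000000000000000000000000000000000001b35333693c6640b0e4ca34000000000000000000000000000000000000000000000ab252c864d4c0a26518830472cd53ca519c19ec70149ce155068bcd105c30b3348f3da0316ca160410104c1510f4d60ace8e46eb8750a21b165e9547300a810294e893516aae98cb22c3160d24905a8b26154ed061783801498b43254a4101cc712a1762cead1e3950d8206166d00b90b98a0a00b056645c8da700000000c41a81454594b14219310db6f336574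c84135b4128e11482c370eb2c6a3a80c2c4c915da267916b22354ae54156240065d5966080127a60832ae48d4c12f60e9064a557264aec96a9b18cc70d1bc2c20024d144b708cba0e0066e06630492312dc2add1b96c0604a52b4b0d49e40002ca0d93292803533232a936336ac54562ca221631554ab5b1cd161b6c60ba185e2ce559a74a668857193461509566b225c7333b2a1bcee02e9303916d0a588a401dd5d2182da103a751082aa08dc00000003c34c080f42f46b00000000168ca02000000006cdaa06b352bb4d1eda5c466459493b58c2b120c9071825d9eb1a8695758eb2cb32b7636e18443ac9a2043af018e82c8510a68a50690354744b18c534c01518dba35423aa28220a7706464b11a138403302a619a210d9ac3ccc702160853cdd47340e92c33116056e4de242c8484834db8d55200e78e463c62a263534102f1ad6da4689383860d9ab54c033108a60c36c907407641d9aea939a141235118e289c8661297561e49b3a28369103288e8aa878e124b5d51bc0eb1e829813ae2b88984d00ad6619daac0351bcdb952b1204c3a44abbac2b00591552f5ae10c80923954945140804edbb089a5584562230c654c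0c3b3534b7a4d5b4244ed2a53a5d4224b4b65564a8816723c81aa1029cce6b0066599d3672c25ca53352535c4d871d2404015ac0466d9812351548d17812f305d9180201acdadb604f52726f34ca4606cb9b125ece1355c8ecc339dd2e406a71b5a300126d45ca660000000000000000000000000000000000000000015d1406914c069a1486e4892050108888aa0773ad468b871a22058c2e59d1b1c723a1a0681ebb662e68b74b20d92cab5088cc699a18d91dc0e29e0db85b3299505599a806d44bb0e85261eaac91d4e8585c1386b3918cb62107329446082052ac0d0a56e4750304134456d31c268146998dd534ba62c978d4c6d1c1307031904e32d40596a5cd3600000000000004304)]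
noncomputable def c7_9888_1 : List Nat := [(nat_lit 0x410c00000000000001b4f58996444cb8d0583118d047360d53992ce9acd156e169c426831d36454d0410855c8dd885232b1082085448bc7072eb866cb02e91691d4464c18e84c9a4ca99188a4409990d740bad0f3129704b7555cc1bc65b9922e8326a520b35b29ea1edae62602998ac71d85796a30642829c6329c4ebd400000000000002e43500a04424a48d83426980d00d234574000000000000000000000000000000000000000002e72bda320d40358291d15bd054084da210c4e2e4a4a0cc3268693a24dac4d25817670b166488180750d1832248260447199246224b0ee8cb2b6919704ba83459adb4a22e05ed0699d116b98828a619b5adb5b62760db0ee89a2732dc3a04214f1170273a2b81d32e381294c182d049469d554ae2b6e8715294828b3c49056b05b8dc6b8ab690)]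
noncomputable def T7_9888 : Op := Op.mk (nat_lit 109)
 (Tr.nd (nat_lit 119) (nat_lit 2) (nat_lit 31) (nat_lit 2439) c7_9888_0
 (Tr.nd (nat_lit 64) (nat_lit 5) (nat_lit 37) (nat_lit 1164) c7_9888_0
 (Tr.nd (nat_lit 23) (nat_lit 2) (nat_lit 3) (nat_lit 372) c7_9888_0
 (Tr.nd (nat_lit 9) (nat_lit 1) (nat_lit 11) (nat_lit 263) c7_9888_0
 (Tr.nd (nat_lit 7) (nat_lit 1) (nat_lit 100) (nat_lit 47) c7_9888_0
 (Tr.nd (nat_lit 1) (nat_lit 1) (nat_lit 24) (nat_lit 23) c7_9888_0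
 (Tr.nd (nat_lit 0) (nat_lit 1) (nat_lit 23) (nat_lit 0) c7_9888_0
 Tr.lf Tr.lf) Tr.lf) (Tr.nd (nat_lit 8) (nat_lit 1) (nat_lit 116) (nat_lit 147) c7_9888_0
 Tr.lf Tr.lf)) (Tr.nd (nat_lit 16) (nat_lit 2) (nat_lit 7) (nat_lit 335) c7_9888_0
 (Tr.nd (nat_lit 15) (nat_lit 1) (nat_lit 61) (nat_lit 274) c7_9888_0
 Tr.lf Tr.lf) (Tr.nd (nat_lit 22) (nat_lit 1) (nat_lit 23) (nat_lit 349) c7_9888_0
 Tr.lf Tr.lf))) (Tr.nd (nat_lit 56) (nat_lit 1) (nat_lit 276) (nat_lit 521) c7_9888_0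
 (Tr.nd (nat_lit 50) (nat_lit 1) (nat_lit 75) (nat_lit 439) c7_9888_0
 (Tr.nd (nat_lit 49) (nat_lit 1) (nat_lit 61) (nat_lit 378) c7_9888_0
 Tr.lf Tr.lf) (Tr.nd (nat_lit 51) (nat_lit 1) (nat_lit 7) (nat_lit 514) c7_9888_0
 Tr.lf Tr.lf)) (Tr.nd (nat_lit 58) (nat_lit 5) (nat_lit 6) (nat_lit 980) c7_9888_0
 (Tr.nd (nat_lit 57) (nat_lit 3) (nat_lit 61) (nat_lit 797) c7_9888_0
 Tr.lf Tr.lf) (Tr.nd (nat_lit 63) (nat_lit 1) (nat_lit 154) (nat_lit 1010) c7_9888_0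
 Tr.lf Tr.lf)))) (Tr.nd (nat_lit 99) (nat_lit 1) (nat_lit 24) (nat_lit 1658) c7_9888_0
 (Tr.nd (nat_lit 72) (nat_lit 17) (nat_lit 2) (nat_lit 1567) c7_9888_0
 (Tr.nd (nat_lit 70) (nat_lit 1) (nat_lit 63) (nat_lit 1419) c7_9888_0
 (Tr.nd (nat_lit 65) (nat_lit 10) (nat_lit 7) (nat_lit 1349) c7_9888_0
 Tr.lf Tr.lf) (Tr.nd (nat_lit 71) (nat_lit 5) (nat_lit 17) (nat_lit 1482) c7_9888_0
 Tr.lf Tr.lf)) (Tr.nd (nat_lit 79) (nat_lit 23) (nat_lit 1) (nat_lit 1631) c7_9888_0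
 (Tr.nd (nat_lit 78) (nat_lit 5) (nat_lit 6) (nat_lit 1601) c7_9888_0
 Tr.lf Tr.lf) (Tr.nd (nat_lit 85) (nat_lit 4) (nat_lit 1) (nat_lit 1654) c7_9888_0
 Tr.lf Tr.lf))) (Tr.nd (nat_lit 107) (nat_lit 10) (nat_lit 3) (nat_lit 1903) c7_9888_0
 (Tr.nd (nat_lit 105) (nat_lit 1) (nat_lit 100) (nat_lit 1688) c7_9888_0
 (Tr.nd (nat_lit 100) (nat_lit 2) (nat_lit 3) (nat_lit 1682) c7_9888_0
 Tr.lf Tr.lf) (Tr.nd (nat_lit 106) (nat_lit 5) (nat_lit 23) (nat_lit 1788) c7_9888_0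
 Tr.lf Tr.lf)) (Tr.nd (nat_lit 113) (nat_lit 10) (nat_lit 17) (nat_lit 2059) c7_9888_0
 (Tr.nd (nat_lit 112) (nat_lit 2) (nat_lit 63) (nat_lit 1933) c7_9888_0
 Tr.lf Tr.lf) (Tr.nd (nat_lit 114) (nat_lit 30) (nat_lit 7) (nat_lit 2229) c7_9888_0
 Tr.lf Tr.lf))))) (Tr.nd (nat_lit 170) (nat_lit 154) (nat_lit 1) (nat_lit 3532) c7_9888_0
 (Tr.nd (nat_lit 148) (nat_lit 1) (nat_lit 4) (nat_lit 3064) c7_9888_0
 (Tr.nd (nat_lit 127) (nat_lit 23) (nat_lit 5) (nat_lit 2819) c7_9888_0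
 (Tr.nd (nat_lit 121) (nat_lit 63) (nat_lit 2) (nat_lit 2671) c7_9888_0
 (Tr.nd (nat_lit 120) (nat_lit 17) (nat_lit 10) (nat_lit 2501) c7_9888_0
 Tr.lf Tr.lf) (Tr.nd (nat_lit 126) (nat_lit 2) (nat_lit 11) (nat_lit 2797) c7_9888_0
 Tr.lf Tr.lf)) (Tr.nd (nat_lit 133) (nat_lit 2) (nat_lit 3) (nat_lit 3034) c7_9888_0
 (Tr.nd (nat_lit 128) (nat_lit 100) (nat_lit 1) (nat_lit 2934) c7_9888_0
 Tr.lf Tr.lf) (Tr.nd (nat_lit 134) (nat_lit 24) (nat_lit 1) (nat_lit 3040) c7_9888_0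
 Tr.lf Tr.lf))) (Tr.nd (nat_lit 162) (nat_lit 17) (nat_lit 5) (nat_lit 3155) c7_9888_0
 (Tr.nd (nat_lit 155) (nat_lit 5) (nat_lit 6) (nat_lit 3091) c7_9888_0
 (Tr.nd (nat_lit 154) (nat_lit 1) (nat_lit 23) (nat_lit 3068) c7_9888_0
 Tr.lf Tr.lf) (Tr.nd (nat_lit 161) (nat_lit 2) (nat_lit 17) (nat_lit 3121) c7_9888_0
 Tr.lf Tr.lf)) (Tr.nd (nat_lit 168) (nat_lit 4) (nat_lit 11) (nat_lit 3303) c7_9888_0
 (Tr.nd (nat_lit 163) (nat_lit 63) (nat_lit 1) (nat_lit 3240) c7_9888_0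
 Tr.lf Tr.lf) (Tr.nd (nat_lit 169) (nat_lit 37) (nat_lit 5) (nat_lit 3347) c7_9888_0
 Tr.lf Tr.lf)))) (Tr.nd (nat_lit 211) (nat_lit 23) (nat_lit 1) (nat_lit 425) c7_9888_1
 (Tr.nd (nat_lit 182) (nat_lit 7) (nat_lit 1) (nat_lit 276) c7_9888_1
 (Tr.nd (nat_lit 176) (nat_lit 61) (nat_lit 3) (nat_lit 3716) c7_9888_0
 (Tr.nd (nat_lit 175) (nat_lit 6) (nat_lit 5) (nat_lit 3686) c7_9888_0
 Tr.lf Tr.lf) (Tr.nd (nat_lit 177) (nat_lit 276) (nat_lit 1) (nat_lit 0) c7_9888_1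
 Tr.lf Tr.lf)) (Tr.nd (nat_lit 184) (nat_lit 61) (nat_lit 1) (nat_lit 358) c7_9888_1
 (Tr.nd (nat_lit 183) (nat_lit 75) (nat_lit 1) (nat_lit 283) c7_9888_1
 Tr.lf Tr.lf) (Tr.nd (nat_lit 210) (nat_lit 2) (nat_lit 3) (nat_lit 419) c7_9888_1
 Tr.lf Tr.lf))) (Tr.nd (nat_lit 225) (nat_lit 116) (nat_lit 1) (nat_lit 550) c7_9888_1
 (Tr.nd (nat_lit 218) (nat_lit 61) (nat_lit 1) (nat_lit 478) c7_9888_1
 (Tr.nd (nat_lit 217) (nat_lit 6) (nat_lit 5) (nat_lit 448) c7_9888_1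
 Tr.lf Tr.lf) (Tr.nd (nat_lit 224) (nat_lit 11) (nat_lit 1) (nat_lit 539) c7_9888_1
 Tr.lf Tr.lf)) (Tr.nd (nat_lit 232) (nat_lit 24) (nat_lit 1) (nat_lit 766) c7_9888_1
 (Tr.nd (nat_lit 226) (nat_lit 100) (nat_lit 1) (nat_lit 666) c7_9888_1
 Tr.lf Tr.lf) (Tr.nd (nat_lit 233) (nat_lit 23) (nat_lit 1) (nat_lit 790) c7_9888_1
 Tr.lf Tr.lf))))))

noncomputable def c7_8868_0 : List Nat := [(nat_lit 0x291ada8950598654188e16b92205b85c5a66abb8da74ce22d8302536d5b7240f008338ece9a310e0a1502ab5e40c59e15dd841000621258c19984845141a20b42ada8e62e68ab2355a5a5a848e1d8dc6d185cca2169a5cc22cdc6021e4ad5552e5c934f5164cc6c982c3aa61485714ab66b0ab54384b8e921cd2d54c6cc2ab2184681965997496b239095522a7a1a4168d5522c854169614c5822984f0b92866a9aa04a634224e11b3a5c64cd88a840a661e26d5a08ea5a0a6c308a637adaa66830f2c91949a098b375cd8281029e000004d6135a4a455e011cdd6de2ac47195d8831240f182cd66523cd0301c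40b542894a635a720090a66c8c1434aa996954d6c86c903ac2caa77202e61e2a4c69611b20b6db9d74e361143a228882e66d5326146cd800005451ca6e6ec2928d5572780af55a5ca310d45dd15cd07ae8266013b2015303b24549adb80b68dc9bc4b8136d92068156237610767a0020d91b750c90d1aea1b064e6d84ca242725d1c068cb50de1a520acaec23d2321c92b09a74d32328bd0929004431c0a8a054de273295a588d600125c10491a10680d294a8470458e72386264135a3165abd1bc8cd121a3932a09d94af12ce72e36377691489518153620ead092b00a04e64e2c44b329922c0f105da90412825ab1a09a350abb213ac4b514bbb46c9244525b2cca664504369d028568016606428711a45241319583c6c506a68d418097a00c038a525b92b29171da41a901a972d5e09cc91c5c91ac0000000000000000000000000000000000000000000000000000000000000000000652684d254896d6c4ae4032000000000000000000000000000000000000000000001707267b0575685732c616018a0b3016039612102da427ab3216ca35b12d6ed310608652d6942280318ada5b6d64ac48b0830599a2dbd08055411d9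5231728105288242418345574346a56cc14216355229516666b0c2252a30e4cc665cf1866952991ba9ca08c44333b07b4a5654a70c19d8e599c39305b12e44800000010880305c13485181820410449b44b932644473c6928bc6689b04a72636d80610870d995819a3251535e742b9b5352016a9ce06836f12c6c1574a60962eb4ad84004cf620cadc0ea13004b6da11939b5a94d911b749aa4958011b16c480f4135cc27aa9ab2a981c5accae740cd6a00004b2178b51a52b551a9467110494841c6c655611daceb4c32d95eb117132ad6adb0311e1a24dc215450bb5cc94ae92cc203055aea2dd824048d3a74489462b4038884279c8b4ba510e62481852ba000000010635964ed2d04280000000dcce0a980000001b136485501802c202c459699a32542127532ae51a9054a58b650c1a9d126d294e43351099b659089b4d234284105b1939a568af151229d62e26a5a645b4b0168c99ce1ac821d6b4d810b159326b2f2cb014a0c175185b86ab668c135c64c62a75074b7523aa068d156190d6c1e928b9a696b19aaab52cc110ea5941eb34c8145ea30b494a60a3d3346446bb5695dc5bd95b4589013088494ad31610b9080b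c2c9a6469ad890050db6e36aba353145ac9e84580c06441e18645cb9e4ad1b335141e0d4c0b95860191d634714a189a88a8405c4d4887a8c1c83058aa448aac8d8f5531aeb09c8b3c76959d70b20446001065cda823956ba2b458401a5d9ca12b63c16d16b7479ba2c15ca18d643b17908932cac6d6a399d76ed2d7512e02f554b2332ad31360b833a0bc6d0e5a936d9815a70a6b571da16a57101160eb649a5630566edb1d45ca9d319343a8a300eb1058e6656c60605ca286dc00000000000000000000000000005604ac102a69b015540cedd8c6e02a66830808c01502d00aa02404c60528d51145984567692363608e69575286cb5bd622c0ca80e6d1524929956056e4f04f16e43ac2ae51326dc6142d753535c1c71592d6324a6525a030c246968b8687a9ba62ce91c28a25238b070024554d4cb89b2c19055240b3848ab624a8a4d2a7628bbb6ab064d36c2a31b35846449196a00d4180565905b28)]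
noncomputable def c7_8868_1 : List Nat := [(nat_lit 0xb2d1259501844c089972405c193d8388cb4d258caedab28ec6a4d22ac81baa418b212550584b293ac374554800c4338a44a28c7262ce99348badb74b5613693a535cd5c26ec0a261711880034d6289d74515980844051cc0a2c5cdc15244c831576c00ab00ca97376ca6255d49e286c1b926c5d06165151528d01c24480000000000000040d41a0a80e008309e8888dc3b01abb5540369aa010ec01d00000000000000000000000000001ec138880c955b760cb14126e53298e500db28471821508711cd6aa365bac66f00dc39ad4b4095820d96012de2448d30c54da59ab4b0d6c7636b34c90e8d148c8d6b866c6023716cad56b0e2465ac2a4b220d1dd6511dc4368b4054286288de99c321a49c226c48c57967b3115d60522410c136d08992d2a4e09194ac857ac42630c754daa6ad)]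
noncomputable def T7_8868 : Op := Op.mk (nat_lit 109)
 (Tr.nd (nat_lit 119) (nat_lit 2) (nat_lit 31) (nat_lit 2439) c7_8868_0
 (Tr.nd (nat_lit 64) (nat_lit 5) (nat_lit 37) (nat_lit 1164) c7_8868_0
 (Tr.nd (nat_lit 23) (nat_lit 2) (nat_lit 3) (nat_lit 372) c7_8868_0
 (Tr.nd (nat_lit 9) (nat_lit 1) (nat_lit 11) (nat_lit 263) c7_8868_0
 (Tr.nd (nat_lit 7) (nat_lit 1) (nat_lit 100) (nat_lit 47) c7_8868_0
 (Tr.nd (nat_lit 1) (nat_lit 1) (nat_lit 24) (nat_lit 23) c7_8868_0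
 (Tr.nd (nat_lit 0) (nat_lit 1) (nat_lit 23) (nat_lit 0) c7_8868_0
 Tr.lf Tr.lf) Tr.lf) (Tr.nd (nat_lit 8) (nat_lit 1) (nat_lit 116) (nat_lit 147) c7_8868_0
 Tr.lf Tr.lf)) (Tr.nd (nat_lit 16) (nat_lit 2) (nat_lit 7) (nat_lit 335) c7_8868_0
 (Tr.nd (nat_lit 15) (nat_lit 1) (nat_lit 61) (nat_lit 274) c7_8868_0
 Tr.lf Tr.lf) (Tr.nd (nat_lit 22) (nat_lit 1) (nat_lit 23) (nat_lit 349) c7_8868_0
 Tr.lf Tr.lf))) (Tr.nd (nat_lit 56) (nat_lit 1) (nat_lit 276) (nat_lit 521) c7_8868_0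
 (Tr.nd (nat_lit 50) (nat_lit 1) (nat_lit 75) (nat_lit 439) c7_8868_0
 (Tr.nd (nat_lit 49) (nat_lit 1) (nat_lit 61) (nat_lit 378) c7_8868_0
 Tr.lf Tr.lf) (Tr.nd (nat_lit 51) (nat_lit 1) (nat_lit 7) (nat_lit 514) c7_8868_0
 Tr.lf Tr.lf)) (Tr.nd (nat_lit 58) (nat_lit 5) (nat_lit 6) (nat_lit 980) c7_8868_0
 (Tr.nd (nat_lit 57) (nat_lit 3) (nat_lit 61) (nat_lit 797) c7_8868_0
 Tr.lf Tr.lf) (Tr.nd (nat_lit 63) (nat_lit 1) (nat_lit 154) (nat_lit 1010) c7_8868_0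
 Tr.lf Tr.lf)))) (Tr.nd (nat_lit 99) (nat_lit 1) (nat_lit 24) (nat_lit 1658) c7_8868_0
 (Tr.nd (nat_lit 72) (nat_lit 17) (nat_lit 2) (nat_lit 1567) c7_8868_0
 (Tr.nd (nat_lit 70) (nat_lit 1) (nat_lit 63) (nat_lit 1419) c7_8868_0
 (Tr.nd (nat_lit 65) (nat_lit 10) (nat_lit 7) (nat_lit 1349) c7_8868_0
 Tr.lf Tr.lf) (Tr.nd (nat_lit 71) (nat_lit 5) (nat_lit 17) (nat_lit 1482) c7_8868_0
 Tr.lf Tr.lf)) (Tr.nd (nat_lit 79) (nat_lit 23) (nat_lit 1) (nat_lit 1631) c7_8868_0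
 (Tr.nd (nat_lit 78) (nat_lit 5) (nat_lit 6) (nat_lit 1601) c7_8868_0
 Tr.lf Tr.lf) (Tr.nd (nat_lit 85) (nat_lit 4) (nat_lit 1) (nat_lit 1654) c7_8868_0
 Tr.lf Tr.lf))) (Tr.nd (nat_lit 107) (nat_lit 10) (nat_lit 3) (nat_lit 1903) c7_8868_0
 (Tr.nd (nat_lit 105) (nat_lit 1) (nat_lit 100) (nat_lit 1688) c7_8868_0
 (Tr.nd (nat_lit 100) (nat_lit 2) (nat_lit 3) (nat_lit 1682) c7_8868_0
 Tr.lf Tr.lf) (Tr.nd (nat_lit 106) (nat_lit 5) (nat_lit 23) (nat_lit 1788) c7_8868_0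
 Tr.lf Tr.lf)) (Tr.nd (nat_lit 113) (nat_lit 10) (nat_lit 17) (nat_lit 2059) c7_8868_0
 (Tr.nd (nat_lit 112) (nat_lit 2) (nat_lit 63) (nat_lit 1933) c7_8868_0
 Tr.lf Tr.lf) (Tr.nd (nat_lit 114) (nat_lit 30) (nat_lit 7) (nat_lit 2229) c7_8868_0
 Tr.lf Tr.lf))))) (Tr.nd (nat_lit 170) (nat_lit 154) (nat_lit 1) (nat_lit 3532) c7_8868_0
 (Tr.nd (nat_lit 148) (nat_lit 1) (nat_lit 4) (nat_lit 3064) c7_8868_0
 (Tr.nd (nat_lit 127) (nat_lit 23) (nat_lit 5) (nat_lit 2819) c7_8868_0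
 (Tr.nd (nat_lit 121) (nat_lit 63) (nat_lit 2) (nat_lit 2671) c7_8868_0
 (Tr.nd (nat_lit 120) (nat_lit 17) (nat_lit 10) (nat_lit 2501) c7_8868_0
 Tr.lf Tr.lf) (Tr.nd (nat_lit 126) (nat_lit 2) (nat_lit 11) (nat_lit 2797) c7_8868_0
 Tr.lf Tr.lf)) (Tr.nd (nat_lit 133) (nat_lit 2) (nat_lit 3) (nat_lit 3034) c7_8868_0
 (Tr.nd (nat_lit 128) (nat_lit 100) (nat_lit 1) (nat_lit 2934) c7_8868_0
 Tr.lf Tr.lf) (Tr.nd (nat_lit 134) (nat_lit 24) (nat_lit 1) (nat_lit 3040) c7_8868_0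
 Tr.lf Tr.lf))) (Tr.nd (nat_lit 162) (nat_lit 17) (nat_lit 5) (nat_lit 3155) c7_8868_0
 (Tr.nd (nat_lit 155) (nat_lit 5) (nat_lit 6) (nat_lit 3091) c7_8868_0
 (Tr.nd (nat_lit 154) (nat_lit 1) (nat_lit 23) (nat_lit 3068) c7_8868_0
 Tr.lf Tr.lf) (Tr.nd (nat_lit 161) (nat_lit 2) (nat_lit 17) (nat_lit 3121) c7_8868_0
 Tr.lf Tr.lf)) (Tr.nd (nat_lit 168) (nat_lit 4) (nat_lit 11) (nat_lit 3303) c7_8868_0
 (Tr.nd (nat_lit 163) (nat_lit 63) (nat_lit 1) (nat_lit 3240) c7_8868_0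
 Tr.lf Tr.lf) (Tr.nd (nat_lit 169) (nat_lit 37) (nat_lit 5) (nat_lit 3347) c7_8868_0
 Tr.lf Tr.lf)))) (Tr.nd (nat_lit 211) (nat_lit 23) (nat_lit 1) (nat_lit 425) c7_8868_1
 (Tr.nd (nat_lit 182) (nat_lit 7) (nat_lit 1) (nat_lit 276) c7_8868_1
 (Tr.nd (nat_lit 176) (nat_lit 61) (nat_lit 3) (nat_lit 3716) c7_8868_0
 (Tr.nd (nat_lit 175) (nat_lit 6) (nat_lit 5) (nat_lit 3686) c7_8868_0
 Tr.lf Tr.lf) (Tr.nd (nat_lit 177) (nat_lit 276) (nat_lit 1) (nat_lit 0) c7_8868_1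
 Tr.lf Tr.lf)) (Tr.nd (nat_lit 184) (nat_lit 61) (nat_lit 1) (nat_lit 358) c7_8868_1
 (Tr.nd (nat_lit 183) (nat_lit 75) (nat_lit 1) (nat_lit 283) c7_8868_1
 Tr.lf Tr.lf) (Tr.nd (nat_lit 210) (nat_lit 2) (nat_lit 3) (nat_lit 419) c7_8868_1
 Tr.lf Tr.lf))) (Tr.nd (nat_lit 225) (nat_lit 116) (nat_lit 1) (nat_lit 550) c7_8868_1
 (Tr.nd (nat_lit 218) (nat_lit 61) (nat_lit 1) (nat_lit 478) c7_8868_1
 (Tr.nd (nat_lit 217) (nat_lit 6) (nat_lit 5) (nat_lit 448) c7_8868_1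
 Tr.lf Tr.lf) (Tr.nd (nat_lit 224) (nat_lit 11) (nat_lit 1) (nat_lit 539) c7_8868_1
 Tr.lf Tr.lf)) (Tr.nd (nat_lit 232) (nat_lit 24) (nat_lit 1) (nat_lit 766) c7_8868_1
 (Tr.nd (nat_lit 226) (nat_lit 100) (nat_lit 1) (nat_lit 666) c7_8868_1
 Tr.lf Tr.lf) (Tr.nd (nat_lit 233) (nat_lit 23) (nat_lit 1) (nat_lit 790) c7_8868_1
 Tr.lf Tr.lf))))))

noncomputable def c7_9864_0 : List Nat := [(nat_lit 0x1726037a988d802271cdbd060edceca8436c181cb2bb15b59450804abd66219054d0995594aad0041316b0b25ea9dc9dd192e45465aaa5659318d303859305480056af176c2b17a4816b6a32a116d234e58369b547641588c753a6e76284cb6cd08a029742aa2660ce44d90ba44572262032951622241aea22c582064b518f29a982ec93a96466a447b2276a8b35e160a938d900569946d4913916863290ac6a4a5abb1c8ac1b9a30a262da03b22c31636ab054e443a4c6ddd0542490d79b8a973248b14435e7861b166bd8a5243152000198cccdc85514c51478251eab34de69945434b2c256408e92d78c15d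4c630952a2ce4f558375a0b2b73834b4204b75168eacd0cb76406ad90ad0ac586204ec9a06187668d98dc8cc16a0899614e6e5c60d0265800026a0754a9786a60ac4a1e80476bcb47015414143368d2124b24972a0601d2d46600aa5166ea99b16e163d64d124ec8c8c8934008dd32b702e50d5cca922403743d496e949951466d36bae20083a680ed153636c18d584262ea6a02e8154d43b1131a752dd042a1e7a46424c932051cc03a91ac979225065cc6ec317917b50088b1c59946b8dd23b8411c916d811b28c15a048e6210f572e3007596c595b4cbc04249a70c8c4560c698d6755844826c5d2201a0ed9166cb291b06cd0b0c44d2ae759504c65119071126c22a800232539364f36c5c0a6a506e110730d543212d66eb2d8c4541bd2806d24a7484892ab32c808ce59a2b632d6d9ccd11608c9c0000000000000000000000000000000000000000000000000000000000000000000321812c2da872c1d6a9571a0000000000000000000000000000000000000000000013626494157167244b86996335cd6b52699e86c690ada093d13425a0d499ba89ad79dd08274688c2676382ccddd80290d506b18cb00c918c880d81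064855989088d82d9c4b0212b18a2351c1a4b13b6d618609b16a3b30ceb2c82550c6a342f1284c889a1d020314617000eb8f536b065634da4343c5859ac36a700000000d97523512c1293c2e440015a45d8e3b309368b73335520c126719290308660b74ca5518ae498b5667599891250d9b6a46911a48d6c9b98ad80949117aa62c646b569a9400a495817256929a4b9ca35a1bd156f28954042e2019af0156b24964812736862088a888e659dae0133000009ba9c6bb5909690202961a131972999a72d000750e64b3435a60c4e64d431d6b4a52c274358e3a152904051ea738dc6f5350488125b53ad8cae6b16558898706aba21ced931424a90659a6228b40000000559a11392b7885180000000c9613c980000001a4ca97212125352cac119180ad18bc0125a488859cb361d26e815d758543991addad85339b11a90600379b7554d2c7145055dd646f54ab9428cb849c92974d16c6885c7419150ec19d5b380dd0ac95696d4437459c2ad90843294155d2095032ac5805095aa80d664a4ac58d095519ac40506696d84c52bd4d6ab854a82d8abb4d84b1e9b6b618ac50599c40a4538f3d994a60b23608dd659b74ca6c9d3b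142c9511606ebbada71b8a1823012528ac94d0cc5190683a04cb45a740d7548bd5e348828a40360baa608d9a3932b0bac508da8513b8d4f0aec22c3a4a995552987aec33b06d5208b891805cee330d82b55180698d0d2c00f4d0b94cc34c91d0d704ab56e572255b46d3132eaa64d0111cd33741a22c72a31536c54056c21ae1649ae02a3811cc215136d4e02164923963043142eb4182e4cc966631db0a3850d362b46610c72a243945c31184360d1578dc0c4f433118a293451000000000000000000000000000006cf0db69268a1261a40b4d94b8c6c02bb00019001836160e8331d637704a974566d61a345ccd786d7665e06a21b4e9a7003525916eb36435b993b1849263052886922390ad03732f06d61b64cc8aac63c4a406109a4bd502218b635c0c2221d8649114b090665256083b8339833162b0f284546841327165c68342e4c8b720f298903322d38514965400605c34464c20925b65d7b32e8)]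
noncomputable def c7_9864_1 : List Nat := [(nat_lit 0xacbd9d65b64920c25c14c64600445934518da0bc013a2cc2d682d6a1309c659c4b410a55062cc3a19d0878b1ab08644d858483341496193985065d72cf0d23d5e5888e300620240c4122eb611ae62c32422617a2b8ca2a9a49a2cda756c89d154706c164dc00c69ad360aa4665ed7619d2f514a61da5d159a90d5b971d0000000000000045d0006f6121000daa0360e336014da698498a6926db0cf600000000000000000000000000001b16eab52948de2e34033300c861458429cb84b9816bc098d234ed0038a32d9abc1d4ed072846268a290dc046d84db2484b76c762d411e08879c7886e9cd53ac191cac40c11b55d2f1965ae8199d5969b47088c09396a86d6c8581cea95b853b4dc116f5b896cca4028e520a866143801a0829a5e40435c990908a24d2d26254c64c94e122a6e)]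
noncomputable def T7_9864 : Op := Op.mk (nat_lit 109)
 (Tr.nd (nat_lit 119) (nat_lit 2) (nat_lit 31) (nat_lit 2439) c7_9864_0
 (Tr.nd (nat_lit 64) (nat_lit 5) (nat_lit 37) (nat_lit 1164) c7_9864_0
 (Tr.nd (nat_lit 23) (nat_lit 2) (nat_lit 3) (nat_lit 372) c7_9864_0
 (Tr.nd (nat_lit 9) (nat_lit 1) (nat_lit 11) (nat_lit 263) c7_9864_0
 (Tr.nd (nat_lit 7) (nat_lit 1) (nat_lit 100) (nat_lit 47) c7_9864_0
 (Tr.nd (nat_lit 1) (nat_lit 1) (nat_lit 24) (nat_lit 23) c7_9864_0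
 (Tr.nd (nat_lit 0) (nat_lit 1) (nat_lit 23) (nat_lit 0) c7_9864_0
 Tr.lf Tr.lf) Tr.lf) (Tr.nd (nat_lit 8) (nat_lit 1) (nat_lit 116) (nat_lit 147) c7_9864_0
 Tr.lf Tr.lf)) (Tr.nd (nat_lit 16) (nat_lit 2) (nat_lit 7) (nat_lit 335) c7_9864_0
 (Tr.nd (nat_lit 15) (nat_lit 1) (nat_lit 61) (nat_lit 274) c7_9864_0
 Tr.lf Tr.lf) (Tr.nd (nat_lit 22) (nat_lit 1) (nat_lit 23) (nat_lit 349) c7_9864_0
 Tr.lf Tr.lf))) (Tr.nd (nat_lit 56) (nat_lit 1) (nat_lit 276) (nat_lit 521) c7_9864_0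
 (Tr.nd (nat_lit 50) (nat_lit 1) (nat_lit 75) (nat_lit 439) c7_9864_0
 (Tr.nd (nat_lit 49) (nat_lit 1) (nat_lit 61) (nat_lit 378) c7_9864_0
 Tr.lf Tr.lf) (Tr.nd (nat_lit 51) (nat_lit 1) (nat_lit 7) (nat_lit 514) c7_9864_0
 Tr.lf Tr.lf)) (Tr.nd (nat_lit 58) (nat_lit 5) (nat_lit 6) (nat_lit 980) c7_9864_0
 (Tr.nd (nat_lit 57) (nat_lit 3) (nat_lit 61) (nat_lit 797) c7_9864_0
 Tr.lf Tr.lf) (Tr.nd (nat_lit 63) (nat_lit 1) (nat_lit 154) (nat_lit 1010) c7_9864_0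
 Tr.lf Tr.lf)))) (Tr.nd (nat_lit 99) (nat_lit 1) (nat_lit 24) (nat_lit 1658) c7_9864_0
 (Tr.nd (nat_lit 72) (nat_lit 17) (nat_lit 2) (nat_lit 1567) c7_9864_0
 (Tr.nd (nat_lit 70) (nat_lit 1) (nat_lit 63) (nat_lit 1419) c7_9864_0
 (Tr.nd (nat_lit 65) (nat_lit 10) (nat_lit 7) (nat_lit 1349) c7_9864_0
 Tr.lf Tr.lf) (Tr.nd (nat_lit 71) (nat_lit 5) (nat_lit 17) (nat_lit 1482) c7_9864_0
 Tr.lf Tr.lf)) (Tr.nd (nat_lit 79) (nat_lit 23) (nat_lit 1) (nat_lit 1631) c7_9864_0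
 (Tr.nd (nat_lit 78) (nat_lit 5) (nat_lit 6) (nat_lit 1601) c7_9864_0
 Tr.lf Tr.lf) (Tr.nd (nat_lit 85) (nat_lit 4) (nat_lit 1) (nat_lit 1654) c7_9864_0
 Tr.lf Tr.lf))) (Tr.nd (nat_lit 107) (nat_lit 10) (nat_lit 3) (nat_lit 1903) c7_9864_0
 (Tr.nd (nat_lit 105) (nat_lit 1) (nat_lit 100) (nat_lit 1688) c7_9864_0
 (Tr.nd (nat_lit 100) (nat_lit 2) (nat_lit 3) (nat_lit 1682) c7_9864_0
 Tr.lf Tr.lf) (Tr.nd (nat_lit 106) (nat_lit 5) (nat_lit 23) (nat_lit 1788) c7_9864_0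
 Tr.lf Tr.lf)) (Tr.nd (nat_lit 113) (nat_lit 10) (nat_lit 17) (nat_lit 2059) c7_9864_0
 (Tr.nd (nat_lit 112) (nat_lit 2) (nat_lit 63) (nat_lit 1933) c7_9864_0
 Tr.lf Tr.lf) (Tr.nd (nat_lit 114) (nat_lit 30) (nat_lit 7) (nat_lit 2229) c7_9864_0
 Tr.lf Tr.lf))))) (Tr.nd (nat_lit 170) (nat_lit 154) (nat_lit 1) (nat_lit 3532) c7_9864_0
 (Tr.nd (nat_lit 148) (nat_lit 1) (nat_lit 4) (nat_lit 3064) c7_9864_0
 (Tr.nd (nat_lit 127) (nat_lit 23) (nat_lit 5) (nat_lit 2819) c7_9864_0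
 (Tr.nd (nat_lit 121) (nat_lit 63) (nat_lit 2) (nat_lit 2671) c7_9864_0
 (Tr.nd (nat_lit 120) (nat_lit 17) (nat_lit 10) (nat_lit 2501) c7_9864_0
 Tr.lf Tr.lf) (Tr.nd (nat_lit 126) (nat_lit 2) (nat_lit 11) (nat_lit 2797) c7_9864_0
 Tr.lf Tr.lf)) (Tr.nd (nat_lit 133) (nat_lit 2) (nat_lit 3) (nat_lit 3034) c7_9864_0
 (Tr.nd (nat_lit 128) (nat_lit 100) (nat_lit 1) (nat_lit 2934) c7_9864_0
 Tr.lf Tr.lf) (Tr.nd (nat_lit 134) (nat_lit 24) (nat_lit 1) (nat_lit 3040) c7_9864_0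
 Tr.lf Tr.lf))) (Tr.nd (nat_lit 162) (nat_lit 17) (nat_lit 5) (nat_lit 3155) c7_9864_0
 (Tr.nd (nat_lit 155) (nat_lit 5) (nat_lit 6) (nat_lit 3091) c7_9864_0
 (Tr.nd (nat_lit 154) (nat_lit 1) (nat_lit 23) (nat_lit 3068) c7_9864_0
 Tr.lf Tr.lf) (Tr.nd (nat_lit 161) (nat_lit 2) (nat_lit 17) (nat_lit 3121) c7_9864_0
 Tr.lf Tr.lf)) (Tr.nd (nat_lit 168) (nat_lit 4) (nat_lit 11) (nat_lit 3303) c7_9864_0
 (Tr.nd (nat_lit 163) (nat_lit 63) (nat_lit 1) (nat_lit 3240) c7_9864_0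
 Tr.lf Tr.lf) (Tr.nd (nat_lit 169) (nat_lit 37) (nat_lit 5) (nat_lit 3347) c7_9864_0
 Tr.lf Tr.lf)))) (Tr.nd (nat_lit 211) (nat_lit 23) (nat_lit 1) (nat_lit 425) c7_9864_1
 (Tr.nd (nat_lit 182) (nat_lit 7) (nat_lit 1) (nat_lit 276) c7_9864_1
 (Tr.nd (nat_lit 176) (nat_lit 61) (nat_lit 3) (nat_lit 3716) c7_9864_0
 (Tr.nd (nat_lit 175) (nat_lit 6) (nat_lit 5) (nat_lit 3686) c7_9864_0
 Tr.lf Tr.lf) (Tr.nd (nat_lit 177) (nat_lit 276) (nat_lit 1) (nat_lit 0) c7_9864_1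
 Tr.lf Tr.lf)) (Tr.nd (nat_lit 184) (nat_lit 61) (nat_lit 1) (nat_lit 358) c7_9864_1
 (Tr.nd (nat_lit 183) (nat_lit 75) (nat_lit 1) (nat_lit 283) c7_9864_1
 Tr.lf Tr.lf) (Tr.nd (nat_lit 210) (nat_lit 2) (nat_lit 3) (nat_lit 419) c7_9864_1
 Tr.lf Tr.lf))) (Tr.nd (nat_lit 225) (nat_lit 116) (nat_lit 1) (nat_lit 550) c7_9864_1
 (Tr.nd (nat_lit 218) (nat_lit 61) (nat_lit 1) (nat_lit 478) c7_9864_1
 (Tr.nd (nat_lit 217) (nat_lit 6) (nat_lit 5) (nat_lit 448) c7_9864_1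
 Tr.lf Tr.lf) (Tr.nd (nat_lit 224) (nat_lit 11) (nat_lit 1) (nat_lit 539) c7_9864_1
 Tr.lf Tr.lf)) (Tr.nd (nat_lit 232) (nat_lit 24) (nat_lit 1) (nat_lit 766) c7_9864_1
 (Tr.nd (nat_lit 226) (nat_lit 100) (nat_lit 1) (nat_lit 666) c7_9864_1
 Tr.lf Tr.lf) (Tr.nd (nat_lit 233) (nat_lit 23) (nat_lit 1) (nat_lit 790) c7_9864_1
 Tr.lf Tr.lf))))))

noncomputable def c7_8856_0 : List Nat := [(nat_lit 0x909b2b2306838492a11a76ad7615d195111785922844781a4896e476cde8c22f4a35a60235c18ad499d44c4643761aacf0556b5d91a0d660b118592316d0b0ed4a5cc1a92514309571905db4cb381061999931c285d1e0351145595433a9b104109a0d668ca2b48d2d9db43875a637a61491764da21dd94d0a5b2a5c0ea38d95b34bace11168bb48693118365bb2ce0811d4192a692a4b1b2689d93985354c43ab504e7a1564b6c2941288cdb19330d16d2cc8db204b6504d947a888038e06e87089c336d9679d368780aec0e605ec0005d0dc4b3731d4555e796a0dc26166baa12c766d02b359b4cc2d1b1934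e3745c6ac895518dea2a22989b761864a64453a44b042c3333512530cc967010a79dd449213044130062b16c3121d8bc5e2dedb03064c000001271d454cb16dd2aa130511d82a30716609c72a16ba266379024a76a0120e010ca60cc4c4010e78829d82a866505ab2989a41112803a025a20eaa9343642116934c1a085bc02a2b7686e92ec7802a431e6708dd20ca9c2037632eea46c114a9313b36b314f3b09c4c5a869e713b15000a183482ae3ac98ba728656f22dd2d4616c76296a5629008934d24e416d69d2988baa18d8451adb2f3bb32d879b4eab9dba5610049b52d32c6b242a8eb9c4cccec42ac2471a349bae48099a2942b04c8db0b53b36b3605b6ddc457039b00aba0b08102ba9445404aac46c10c5c89493c01aa82f5ab2d3000db1a19937209dac324142566ab4915c510c65da6202000000000000000000000000000000000000000000000000000000000000000000000441cf3b4a0a586e2ac548a000000000000000000000000000000000000000000001020098358f05916c02eda5b30619ec9eba909bc9348332b0daab1c8bd565736e0124af12cc236716072a5b5592a852a02ad03646c2540e64c03612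8a54148aad950d8a4822e54d1d0db421a2369c02cccb6b355093ccbc56d4ec4395aa9b51cb4950d6b5a7141034e34e2834ce42b4cecf34db44960bc5a8e2c6800000004986b368d60c305204d364e2cd4730867985ae93399c66408e35bb41bb30e57693053442d5b9a76442a053c66703aeb159448304c21a4da0c0b609a555614c90158112808349d165688b431512b441cf18003a07843618040104d5ad1242cdc2d4d721563890f28c6150d8a88680000444871a573a92699d4319118cc306ce2ded0899e6ce44b963aca0e3723000c5229c2b1788894d1c410849c259252cc86e12c403b8911517370aa895953a8adc69ac1b9907a6d2e9509b4ae5815c000000064adc0362bba11500000000438b38f000000016cd8dd99d4099d5add4e1293649a0471522d6432140e70506d990c335b6b6381659e98a0f18d919d2804e690ab26a28dac80a21a16a62bd32db5ad4799273216a8483531dd264b528169306d6532a0c5d6696eca715588cd5b24668b6ac14dada8268d3370db8c62daf649c99145cd2e1340820a537162a2ea8a0b80ce6a118e12f42c3c64d0a1218b0482b63db15b581a50caf08a5a805aa1a5443da0564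8d9d8ad1c54cc1230194c54384b19e35e399cf571b29b95ebad4f5a8e052acc3a44adcda9829aa004a2d152610930b82205986d400d8433ba1acd80875a9490f54c58d3832a5e064c815412a404e2b1619c43d5dc119216446421846f02b498990a45625911dd4a9154e5b2191368e0910dc542205b34cee0c4aab98aaa93966b317579ca4101a715a9972b732c608532d1b90c71299c10d8c0dad336a652b0a6515b1ec22962d93b5c2a972c83156479d85d7aa20155905c071200000000000000000000000000005a01342c98004ba38c0d13325b2d905625421c801ad74492391865dc552b50859b520632dd7415c00c4eb31511b346434a04b52008daaa9624c91312d69386b4692d524a35a550593091d5c40dd1ca31aec210a66805cabcf028bd01acc32465014e91a8f62304c6056634513d210b086624a01600cb068a6cc4ad98a559bb5a96899825932d2a02d8a5bd19512a901b214d8000d4743)]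
noncomputable def c7_8856_1 : List Nat := [(nat_lit 0x315c4c0025342d804aa5117336686c888db096487a0b6276b7958a16ec0f68a612c20640224e860c81933514c1e4460d0c0ece2726340476901ba9d29d73d5a82cae4745a09c8686844144156c468a7672684980e601db39a83055b69b4130d2434350256c02cc1614b70550bad4204744d75b0e00dda5085c8d47565870000000000000011cb2bb340b181581d125b2d9081946e39ac0006b214902d0000000000000000000000000000283851a932301c60d98c58030c5539237986938e3525c2652cda5b6531689ba5b6e1035c92232b863a121121c9435a459bc9b85b880406c5555e4e6b828019534ec025a9586da9c27138904d599b5630246c9030b3525c8804121d2194de6110c071c2150a931a1195ae9338832d0234126592464559b76676d639899936d3699c3568a909aa0)]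
noncomputable def T7_8856 : Op := Op.mk (nat_lit 109)
 (Tr.nd (nat_lit 119) (nat_lit 2) (nat_lit 31) (nat_lit 2439) c7_8856_0
 (Tr.nd (nat_lit 64) (nat_lit 5) (nat_lit 37) (nat_lit 1164) c7_8856_0
 (Tr.nd (nat_lit 23) (nat_lit 2) (nat_lit 3) (nat_lit 372) c7_8856_0
 (Tr.nd (nat_lit 9) (nat_lit 1) (nat_lit 11) (nat_lit 263) c7_8856_0
 (Tr.nd (nat_lit 7) (nat_lit 1) (nat_lit 100) (nat_lit 47) c7_8856_0
 (Tr.nd (nat_lit 1) (nat_lit 1) (nat_lit 24) (nat_lit 23) c7_8856_0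
 (Tr.nd (nat_lit 0) (nat_lit 1) (nat_lit 23) (nat_lit 0) c7_8856_0
 Tr.lf Tr.lf) Tr.lf) (Tr.nd (nat_lit 8) (nat_lit 1) (nat_lit 116) (nat_lit 147) c7_8856_0
 Tr.lf Tr.lf)) (Tr.nd (nat_lit 16) (nat_lit 2) (nat_lit 7) (nat_lit 335) c7_8856_0
 (Tr.nd (nat_lit 15) (nat_lit 1) (nat_lit 61) (nat_lit 274) c7_8856_0
 Tr.lf Tr.lf) (Tr.nd (nat_lit 22) (nat_lit 1) (nat_lit 23) (nat_lit 349) c7_8856_0
 Tr.lf Tr.lf))) (Tr.nd (nat_lit 56) (nat_lit 1) (nat_lit 276) (nat_lit 521) c7_8856_0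
 (Tr.nd (nat_lit 50) (nat_lit 1) (nat_lit 75) (nat_lit 439) c7_8856_0
 (Tr.nd (nat_lit 49) (nat_lit 1) (nat_lit 61) (nat_lit 378) c7_8856_0
 Tr.lf Tr.lf) (Tr.nd (nat_lit 51) (nat_lit 1) (nat_lit 7) (nat_lit 514) c7_8856_0
 Tr.lf Tr.lf)) (Tr.nd (nat_lit 58) (nat_lit 5) (nat_lit 6) (nat_lit 980) c7_8856_0
 (Tr.nd (nat_lit 57) (nat_lit 3) (nat_lit 61) (nat_lit 797) c7_8856_0
 Tr.lf Tr.lf) (Tr.nd (nat_lit 63) (nat_lit 1) (nat_lit 154) (nat_lit 1010) c7_8856_0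
 Tr.lf Tr.lf)))) (Tr.nd (nat_lit 99) (nat_lit 1) (nat_lit 24) (nat_lit 1658) c7_8856_0
 (Tr.nd (nat_lit 72) (nat_lit 17) (nat_lit 2) (nat_lit 1567) c7_8856_0
 (Tr.nd (nat_lit 70) (nat_lit 1) (nat_lit 63) (nat_lit 1419) c7_8856_0
 (Tr.nd (nat_lit 65) (nat_lit 10) (nat_lit 7) (nat_lit 1349) c7_8856_0
 Tr.lf Tr.lf) (Tr.nd (nat_lit 71) (nat_lit 5) (nat_lit 17) (nat_lit 1482) c7_8856_0
 Tr.lf Tr.lf)) (Tr.nd (nat_lit 79) (nat_lit 23) (nat_lit 1) (nat_lit 1631) c7_8856_0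
 (Tr.nd (nat_lit 78) (nat_lit 5) (nat_lit 6) (nat_lit 1601) c7_8856_0
 Tr.lf Tr.lf) (Tr.nd (nat_lit 85) (nat_lit 4) (nat_lit 1) (nat_lit 1654) c7_8856_0
 Tr.lf Tr.lf))) (Tr.nd (nat_lit 107) (nat_lit 10) (nat_lit 3) (nat_lit 1903) c7_8856_0
 (Tr.nd (nat_lit 105) (nat_lit 1) (nat_lit 100) (nat_lit 1688) c7_8856_0
 (Tr.nd (nat_lit 100) (nat_lit 2) (nat_lit 3) (nat_lit 1682) c7_8856_0
 Tr.lf Tr.lf) (Tr.nd (nat_lit 106) (nat_lit 5) (nat_lit 23) (nat_lit 1788) c7_8856_0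
 Tr.lf Tr.lf)) (Tr.nd (nat_lit 113) (nat_lit 10) (nat_lit 17) (nat_lit 2059) c7_8856_0
 (Tr.nd (nat_lit 112) (nat_lit 2) (nat_lit 63) (nat_lit 1933) c7_8856_0
 Tr.lf Tr.lf) (Tr.nd (nat_lit 114) (nat_lit 30) (nat_lit 7) (nat_lit 2229) c7_8856_0
 Tr.lf Tr.lf))))) (Tr.nd (nat_lit 170) (nat_lit 154) (nat_lit 1) (nat_lit 3532) c7_8856_0
 (Tr.nd (nat_lit 148) (nat_lit 1) (nat_lit 4) (nat_lit 3064) c7_8856_0
 (Tr.nd (nat_lit 127) (nat_lit 23) (nat_lit 5) (nat_lit 2819) c7_8856_0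
 (Tr.nd (nat_lit 121) (nat_lit 63) (nat_lit 2) (nat_lit 2671) c7_8856_0
 (Tr.nd (nat_lit 120) (nat_lit 17) (nat_lit 10) (nat_lit 2501) c7_8856_0
 Tr.lf Tr.lf) (Tr.nd (nat_lit 126) (nat_lit 2) (nat_lit 11) (nat_lit 2797) c7_8856_0
 Tr.lf Tr.lf)) (Tr.nd (nat_lit 133) (nat_lit 2) (nat_lit 3) (nat_lit 3034) c7_8856_0
 (Tr.nd (nat_lit 128) (nat_lit 100) (nat_lit 1) (nat_lit 2934) c7_8856_0
 Tr.lf Tr.lf) (Tr.nd (nat_lit 134) (nat_lit 24) (nat_lit 1) (nat_lit 3040) c7_8856_0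
 Tr.lf Tr.lf))) (Tr.nd (nat_lit 162) (nat_lit 17) (nat_lit 5) (nat_lit 3155) c7_8856_0
 (Tr.nd (nat_lit 155) (nat_lit 5) (nat_lit 6) (nat_lit 3091) c7_8856_0
 (Tr.nd (nat_lit 154) (nat_lit 1) (nat_lit 23) (nat_lit 3068) c7_8856_0
 Tr.lf Tr.lf) (Tr.nd (nat_lit 161) (nat_lit 2) (nat_lit 17) (nat_lit 3121) c7_8856_0
 Tr.lf Tr.lf)) (Tr.nd (nat_lit 168) (nat_lit 4) (nat_lit 11) (nat_lit 3303) c7_8856_0
 (Tr.nd (nat_lit 163) (nat_lit 63) (nat_lit 1) (nat_lit 3240) c7_8856_0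
 Tr.lf Tr.lf) (Tr.nd (nat_lit 169) (nat_lit 37) (nat_lit 5) (nat_lit 3347) c7_8856_0
 Tr.lf Tr.lf)))) (Tr.nd (nat_lit 211) (nat_lit 23) (nat_lit 1) (nat_lit 425) c7_8856_1
 (Tr.nd (nat_lit 182) (nat_lit 7) (nat_lit 1) (nat_lit 276) c7_8856_1
 (Tr.nd (nat_lit 176) (nat_lit 61) (nat_lit 3) (nat_lit 3716) c7_8856_0
 (Tr.nd (nat_lit 175) (nat_lit 6) (nat_lit 5) (nat_lit 3686) c7_8856_0
 Tr.lf Tr.lf) (Tr.nd (nat_lit 177) (nat_lit 276) (nat_lit 1) (nat_lit 0) c7_8856_1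
 Tr.lf Tr.lf)) (Tr.nd (nat_lit 184) (nat_lit 61) (nat_lit 1) (nat_lit 358) c7_8856_1
 (Tr.nd (nat_lit 183) (nat_lit 75) (nat_lit 1) (nat_lit 283) c7_8856_1
 Tr.lf Tr.lf) (Tr.nd (nat_lit 210) (nat_lit 2) (nat_lit 3) (nat_lit 419) c7_8856_1
 Tr.lf Tr.lf))) (Tr.nd (nat_lit 225) (nat_lit 116) (nat_lit 1) (nat_lit 550) c7_8856_1
 (Tr.nd (nat_lit 218) (nat_lit 61) (nat_lit 1) (nat_lit 478) c7_8856_1
 (Tr.nd (nat_lit 217) (nat_lit 6) (nat_lit 5) (nat_lit 448) c7_8856_1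
 Tr.lf Tr.lf) (Tr.nd (nat_lit 224) (nat_lit 11) (nat_lit 1) (nat_lit 539) c7_8856_1
 Tr.lf Tr.lf)) (Tr.nd (nat_lit 232) (nat_lit 24) (nat_lit 1) (nat_lit 766) c7_8856_1
 (Tr.nd (nat_lit 226) (nat_lit 100) (nat_lit 1) (nat_lit 666) c7_8856_1
 Tr.lf Tr.lf) (Tr.nd (nat_lit 233) (nat_lit 23) (nat_lit 1) (nat_lit 790) c7_8856_1
 Tr.lf Tr.lf))))))

noncomputable def c7_9768_0 : List Nat := [(nat_lit 0xd980644d2dc01bc4e25bd0acdb32148b8847a9a1c54a71e334d136314c5cae7663b616821d16104288b65488056a0ab79cd61c30056ba0822b5c065509a9e51893466dcad970b1685e74175b601d4c6f0b5581e7acb99b34726403a02a2c31e07090dd92626c588c3910301008890b228a2c4e20032bb8c24838e3ab06596cdb359d9b5a63a0a842b52b1e79ccd62e2c82cc34926ab433406621d362cd0dc6f568941a09082c4ed6dcbb3b720db74225210481291542674078846dc4eb990ea65caf1c429702d0cf3a564ee2b2743a00070c51caea0e68245975898e409c2e004aae5b118c91986632a44b6726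db59b6b1852b4e0210098edb9449606c201c6e7369b0659491a8695b95d4a52f279dc0c74ec242cb2490d942ca61283d506111ab47211000056159bc602a12d6260caa1440f5425b4e89ccac95983324ec9e0acd18004156525843c06040264431b1395eb0c02195a8e212eae9b6dc8acda695126a1d032d5e360cb2d230998a46637063ad45b89e80118c861294b492f2cb49662c490238630c51d6dbb728069a5034dae359251c0535d024469cd1884ae9793054b993326a9415940695ca82126ecb1c74949bb70898c9b0863a0a89373990c1a7a22cd6a3446af0d2ed835739665a3d2e7b691a6060301622051b289e44d8b29954a1599a9324e519528b19d16ab2621d44491b8e691d003350ee82a6801082dd01800882d721c9c27651005238002dcc3093ccca6d710a424462eac2973006a874a0000000000000000000000000000000000000000000000000000000000000000000494950b0e22c3558c0e4890000000000000000000000000000000000000000000000abd65a46c98a36b480110a8900a85d73b76cb2a095b6b4c3044a52034546568d592e402c8d40018a8f02dab0ca90019474589352d20193cb0b6530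16ca781ba3984d8a99c18359879a91a8a87953ae96089c4c1054ad31aab0625156427080b7b331e8ee79421b7a9ada54bab64980264d5a5ac0e7aa4c241aa28000000084813c6c40d74d2260ac2f5d6430259c21252b97487665d651165241675706d04c544656590c68661a17abc4cce18d08a650b996584a73b9602b17482a4d37915adb4d775814713b0c021973b1a94e0a424023019832c8b20009439a54335b125e10bb255a3531b6c0ae620a1540001684d6098cb8724119b2580c54b4549bb1a44b3a10086c186b8f599a3426cec41892da5a5990ec88a7362c6750a3d112ac205cf34b1b4900c031b5230e4dbc9b6d62d929587430b921c0ecb55600000000025847b3b91141050000000042ace2e8000000191c30272a22885669c99d9ecc6c08cc10e3124a984417732c684365b726ccb5838d8c9d4cd4ebba8055daaa62d68543491c9a6a909b4b160b5a45b47003926104b26dd555d25cddc2b4ad40c44570dbb4af27b696cb08771c71049875761001c4e5145250940402210a461c0ced034b6a64188ce1945405602d239a52f5973cc4aad199ba66d4aeea589a02430ddb6604c98d07241066aae00e853610dc4e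79839e676d644da4aa5108ec9198625612ddcb499e792c00c5d75c4f019dae8ae38cb4f054980c06577105ca7522b0a40622e044acab3ab26161c62b15466e64e3b5c15ab56ed17495bc8c2516c814edab4b5daa6306c57262538b42c16094890098f41a9a46ad606131ac65a32594444733b63d32b62971c4114055534db82ae54eecd825618d1b301545226c75bac116d29c372044519ac812e70db9c1281a94a64213512ea2329a645074c960599a5018c4e289e749376819400000000000000000000000000005a61775156416008a003a63b50e442668e2a605805002040a726988766b1ad4389d5a2a965650b63b1409cf275cc1988b86599c41630878bb0ed83d8e44501b509aa30e148c88e76cae38134833828b0aea3ab8f3285936c285a1c6b000d6310d6558a3940b628da0994aac203238e0acb54aab40164145a8532cdc066912874ad53823b39abaed5533b3c267990967a2282a68a46481)]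
noncomputable def c7_9768_1 : List Nat := [(nat_lit 0x1096068a6a08a99e48179e833d8b555aebba3d8a18d4ecc625268446f2d10b94416404caa3532e88e3908832a916826e29681638a545d31a7026728e361d63422c124b2260318e9b2b2693328a02603586cd0bb03d5e731b589aa8da28bb4aae09544547a58632a163475acf1211d8ec859564aa9956a317272e9583a69000000000000008c148200864688e29e8148c5d88066c28206416545d5986d000000000000000000000000000004c5561500d8a53b0cab302d9686504c4325740cc02ac640ce0f4218b047ad8ec13112674e4f2cddc0cd88941163489d4cc3030a3020f678a08534a38c57329342670c8359627ae46da74c75502c8b6f252aa8428c6357058aa7adac1c18524c92056a5e0d0b1ad0ba5672d08609bc444dd016702094b32b80574041a09389056cde3914d5a53)]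
noncomputable def T7_9768 : Op := Op.mk (nat_lit 109)
 (Tr.nd (nat_lit 119) (nat_lit 2) (nat_lit 31) (nat_lit 2439) c7_9768_0
 (Tr.nd (nat_lit 64) (nat_lit 5) (nat_lit 37) (nat_lit 1164) c7_9768_0
 (Tr.nd (nat_lit 23) (nat_lit 2) (nat_lit 3) (nat_lit 372) c7_9768_0
 (Tr.nd (nat_lit 9) (nat_lit 1) (nat_lit 11) (nat_lit 263) c7_9768_0
 (Tr.nd (nat_lit 7) (nat_lit 1) (nat_lit 100) (nat_lit 47) c7_9768_0
 (Tr.nd (nat_lit 1) (nat_lit 1) (nat_lit 24) (nat_lit 23) c7_9768_0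
 (Tr.nd (nat_lit 0) (nat_lit 1) (nat_lit 23) (nat_lit 0) c7_9768_0
 Tr.lf Tr.lf) Tr.lf) (Tr.nd (nat_lit 8) (nat_lit 1) (nat_lit 116) (nat_lit 147) c7_9768_0
 Tr.lf Tr.lf)) (Tr.nd (nat_lit 16) (nat_lit 2) (nat_lit 7) (nat_lit 335) c7_9768_0
 (Tr.nd (nat_lit 15) (nat_lit 1) (nat_lit 61) (nat_lit 274) c7_9768_0
 Tr.lf Tr.lf) (Tr.nd (nat_lit 22) (nat_lit 1) (nat_lit 23) (nat_lit 349) c7_9768_0
 Tr.lf Tr.lf))) (Tr.nd (nat_lit 56) (nat_lit 1) (nat_lit 276) (nat_lit 521) c7_9768_0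
 (Tr.nd (nat_lit 50) (nat_lit 1) (nat_lit 75) (nat_lit 439) c7_9768_0
 (Tr.nd (nat_lit 49) (nat_lit 1) (nat_lit 61) (nat_lit 378) c7_9768_0
 Tr.lf Tr.lf) (Tr.nd (nat_lit 51) (nat_lit 1) (nat_lit 7) (nat_lit 514) c7_9768_0
 Tr.lf Tr.lf)) (Tr.nd (nat_lit 58) (nat_lit 5) (nat_lit 6) (nat_lit 980) c7_9768_0
 (Tr.nd (nat_lit 57) (nat_lit 3) (nat_lit 61) (nat_lit 797) c7_9768_0
 Tr.lf Tr.lf) (Tr.nd (nat_lit 63) (nat_lit 1) (nat_lit 154) (nat_lit 1010) c7_9768_0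
 Tr.lf Tr.lf)))) (Tr.nd (nat_lit 99) (nat_lit 1) (nat_lit 24) (nat_lit 1658) c7_9768_0
 (Tr.nd (nat_lit 72) (nat_lit 17) (nat_lit 2) (nat_lit 1567) c7_9768_0
 (Tr.nd (nat_lit 70) (nat_lit 1) (nat_lit 63) (nat_lit 1419) c7_9768_0
 (Tr.nd (nat_lit 65) (nat_lit 10) (nat_lit 7) (nat_lit 1349) c7_9768_0
 Tr.lf Tr.lf) (Tr.nd (nat_lit 71) (nat_lit 5) (nat_lit 17) (nat_lit 1482) c7_9768_0
 Tr.lf Tr.lf)) (Tr.nd (nat_lit 79) (nat_lit 23) (nat_lit 1) (nat_lit 1631) c7_9768_0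
 (Tr.nd (nat_lit 78) (nat_lit 5) (nat_lit 6) (nat_lit 1601) c7_9768_0
 Tr.lf Tr.lf) (Tr.nd (nat_lit 85) (nat_lit 4) (nat_lit 1) (nat_lit 1654) c7_9768_0
 Tr.lf Tr.lf))) (Tr.nd (nat_lit 107) (nat_lit 10) (nat_lit 3) (nat_lit 1903) c7_9768_0
 (Tr.nd (nat_lit 105) (nat_lit 1) (nat_lit 100) (nat_lit 1688) c7_9768_0
 (Tr.nd (nat_lit 100) (nat_lit 2) (nat_lit 3) (nat_lit 1682) c7_9768_0
 Tr.lf Tr.lf) (Tr.nd (nat_lit 106) (nat_lit 5) (nat_lit 23) (nat_lit 1788) c7_9768_0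
 Tr.lf Tr.lf)) (Tr.nd (nat_lit 113) (nat_lit 10) (nat_lit 17) (nat_lit 2059) c7_9768_0
 (Tr.nd (nat_lit 112) (nat_lit 2) (nat_lit 63) (nat_lit 1933) c7_9768_0
 Tr.lf Tr.lf) (Tr.nd (nat_lit 114) (nat_lit 30) (nat_lit 7) (nat_lit 2229) c7_9768_0
 Tr.lf Tr.lf))))) (Tr.nd (nat_lit 170) (nat_lit 154) (nat_lit 1) (nat_lit 3532) c7_9768_0
 (Tr.nd (nat_lit 148) (nat_lit 1) (nat_lit 4) (nat_lit 3064) c7_9768_0
 (Tr.nd (nat_lit 127) (nat_lit 23) (nat_lit 5) (nat_lit 2819) c7_9768_0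
 (Tr.nd (nat_lit 121) (nat_lit 63) (nat_lit 2) (nat_lit 2671) c7_9768_0
 (Tr.nd (nat_lit 120) (nat_lit 17) (nat_lit 10) (nat_lit 2501) c7_9768_0
 Tr.lf Tr.lf) (Tr.nd (nat_lit 126) (nat_lit 2) (nat_lit 11) (nat_lit 2797) c7_9768_0
 Tr.lf Tr.lf)) (Tr.nd (nat_lit 133) (nat_lit 2) (nat_lit 3) (nat_lit 3034) c7_9768_0
 (Tr.nd (nat_lit 128) (nat_lit 100) (nat_lit 1) (nat_lit 2934) c7_9768_0
 Tr.lf Tr.lf) (Tr.nd (nat_lit 134) (nat_lit 24) (nat_lit 1) (nat_lit 3040) c7_9768_0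
 Tr.lf Tr.lf))) (Tr.nd (nat_lit 162) (nat_lit 17) (nat_lit 5) (nat_lit 3155) c7_9768_0
 (Tr.nd (nat_lit 155) (nat_lit 5) (nat_lit 6) (nat_lit 3091) c7_9768_0
 (Tr.nd (nat_lit 154) (nat_lit 1) (nat_lit 23) (nat_lit 3068) c7_9768_0
 Tr.lf Tr.lf) (Tr.nd (nat_lit 161) (nat_lit 2) (nat_lit 17) (nat_lit 3121) c7_9768_0
 Tr.lf Tr.lf)) (Tr.nd (nat_lit 168) (nat_lit 4) (nat_lit 11) (nat_lit 3303) c7_9768_0
 (Tr.nd (nat_lit 163) (nat_lit 63) (nat_lit 1) (nat_lit 3240) c7_9768_0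
 Tr.lf Tr.lf) (Tr.nd (nat_lit 169) (nat_lit 37) (nat_lit 5) (nat_lit 3347) c7_9768_0
 Tr.lf Tr.lf)))) (Tr.nd (nat_lit 211) (nat_lit 23) (nat_lit 1) (nat_lit 425) c7_9768_1
 (Tr.nd (nat_lit 182) (nat_lit 7) (nat_lit 1) (nat_lit 276) c7_9768_1
 (Tr.nd (nat_lit 176) (nat_lit 61) (nat_lit 3) (nat_lit 3716) c7_9768_0
 (Tr.nd (nat_lit 175) (nat_lit 6) (nat_lit 5) (nat_lit 3686) c7_9768_0
 Tr.lf Tr.lf) (Tr.nd (nat_lit 177) (nat_lit 276) (nat_lit 1) (nat_lit 0) c7_9768_1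
 Tr.lf Tr.lf)) (Tr.nd (nat_lit 184) (nat_lit 61) (nat_lit 1) (nat_lit 358) c7_9768_1
 (Tr.nd (nat_lit 183) (nat_lit 75) (nat_lit 1) (nat_lit 283) c7_9768_1
 Tr.lf Tr.lf) (Tr.nd (nat_lit 210) (nat_lit 2) (nat_lit 3) (nat_lit 419) c7_9768_1
 Tr.lf Tr.lf))) (Tr.nd (nat_lit 225) (nat_lit 116) (nat_lit 1) (nat_lit 550) c7_9768_1
 (Tr.nd (nat_lit 218) (nat_lit 61) (nat_lit 1) (nat_lit 478) c7_9768_1
 (Tr.nd (nat_lit 217) (nat_lit 6) (nat_lit 5) (nat_lit 448) c7_9768_1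
 Tr.lf Tr.lf) (Tr.nd (nat_lit 224) (nat_lit 11) (nat_lit 1) (nat_lit 539) c7_9768_1
 Tr.lf Tr.lf)) (Tr.nd (nat_lit 232) (nat_lit 24) (nat_lit 1) (nat_lit 766) c7_9768_1
 (Tr.nd (nat_lit 226) (nat_lit 100) (nat_lit 1) (nat_lit 666) c7_9768_1
 Tr.lf Tr.lf) (Tr.nd (nat_lit 233) (nat_lit 23) (nat_lit 1) (nat_lit 790) c7_9768_1
 Tr.lf Tr.lf))))))

noncomputable def c7_8865_0 : List Nat := [(nat_lit 0x1626b29021896d5a5dd2bb6413683304b6ce58d6599b6cf126010a16062d849c923349301668949416659b4b0579a6500a9b8c982b660152ce50359e8d0a95cd94980640d262b4e212d85362484d996a5d68cc50cc6cf280cb92236332ce905558c1a40444849184d3933711023c22acd95442aa594dca0cb9106caf62a44592b2895b8543166e918ae834c1aa96baeaa483957256ae6c46e410a994aca2eb532191a4e6497b2c16a9161b1958c331bbab2f23647992e826a603c6ba88619518303a1a0732cc42280366826d14608cc000f216b6a33150008de8150280c000eb9c0edd92840313da80a1a8328a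58071a3323b472e2102cec22465d262316c08843768858b000e21c604aaec09618d5171ec58433795065b46d21525b644db6d8a1856095000027505c98c32db85960b99130c93845a5979890410541971d4ed2f36a5024ab2a1c42398d40a4c5924d554c3da32c30a992259d282c8699621277682d8467082c0ae9c8bce86442a449d5568e3adc74058ecc1d0d60eceec756c8d981052728a806201d0c00e64e4129802aeb940461a0461253600c36ea535850b06d19ab92990628cb109182830d06147509b6815881c854562cd6e158679a0db4ee78b4f619a11631b9943b202a74b961cc96c8340322c2599d230aa49a52a136680a0f68f30429448ac51695e72021d96c97215819954a719c1b7acb2a342d9b91200d41042570106a7304401442630c089ca9b562c726dd4d55465a14cc35948d6cd800000000000000000000000000000000000000000000000000000000000000000003a99a952ea91a233ce9b1da000000000000000000000000000000000000000000000e339e3126cd2d4810111416ac6208761450c5d55421b2e593479d9accee389cec44490085a83411298ba24004a905643b001e345b540e522a9958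5b780429009905b946d16c3b14a8d893816a42d3306a80301e6910e50a3813ce02a46f125a090bb06a6526ce459c49e5830ce7a34eb28e1a6a63b63599d42050000000016aaa2ce332a240f5d411357738854a0af0860d451a94013139aba8401eab072b98a24b1004f308898c7188cd6cc6814e0b7079958d7406418f032d136ad2072d3059046bc9490d41865cd986aaba49286910a9d1c0a31560258ac4de66d6ab8cb0a8820903ccb36831a58680bc0000936172dd0e964006b6b4a49546ac798760b688088f3b6acc58b1d0404610861ba3010a5632d6b300cecf60112197430259669b68522b16420758e6c568538c0c9145854c405d9a840312dad623c000000008e80042050236d00000001452960e0000000003d6a19cd9b79bd69119d728dd12d7727508ea44ba0970036064b05b47081072c6211a565381c67221330dc49dab87021eb5d352545c5a6aa72ace624981d2933836d502214b46a10815d0e4d4b382a35a945912ca911d9d9482b58458da2cd5428aca5d5067002a37a469a0e4812808930872a8835e5a1d814b584459ec1e08e853acd15c923d0a0a217171d2ea4d8b8d2f3336254690d021a4865aa02e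ca0393541048b5ab7a483154b7956119b61841b52a8d61aab80e0ac822662da0c2352b2a876171bb1e8a465a5b136acc9a09806252801d3132486a5658eb51232496d9b493278bb8a510111620b6d5648c106c5a0451d0b9a1835cc3b2469b0080c2d13d1d71bb6b4619b6933321d2161a96b7118d5a4b0dc8e8582a911160f427094161d459ab36d24dbaa2b1d8b2a813a96d68db8ae9a44d060a6a6311c457858e36f54767112f20d1519d193b14e270b38ec25999b8e10424e48c9482ae4cb116aceac92ab89971cda82e826a4c96142c0a5e4f2850a48b9260e63004174131c81658c0634c6a210cd9891284d68480aeb183338f636ab8a835d46042530aed9589b624d2e2a0dc8c6e262032ac66863110a248a4b0a74e22c540662af4835610aa501dc10da82000000000000000000000000000000000000000028035060159600a8b0000000000000000002820204102820ab6d35812b040a9a705413)]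
noncomputable def c7_8865_1 : List Nat := [(nat_lit 0x341511a6a8043b0074db6a208a01042008a00000000000000000128a809654061130220000000000000000000000000000000000000000338ab14c14137445572e8254544daaecceb0ae2f6984ad10a56b2c49ca52642c54dca214d4c898214560934c6175c223aab4ece3d0872ea802664d0b013a52c182e0d384439640000000000000011b06c309c1e21a5a8268462cd0159ccc4192d2a48ac8bb47196a3a892ee2ee5032d6a8836429d010c6d90b8091719b30865652280ac46986d1851240c831b684c7667150e65019236967419c996570b7202432c56aa684d3a99c4521d2a4ce5ab4b2195e029181898471c5d0aa8c92ded7019b4cd24d98ed5886501b852613c70510962baacc1c60945c5ba5050c91062c6e855340bd9a4ccd12141cdb200893392c5656e95659ed13ce088b)]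
noncomputable def T7_8865 : Op := Op.mk (nat_lit 109)
 (Tr.nd (nat_lit 119) (nat_lit 2) (nat_lit 31) (nat_lit 2439) c7_8865_0
 (Tr.nd (nat_lit 64) (nat_lit 5) (nat_lit 37) (nat_lit 1164) c7_8865_0
 (Tr.nd (nat_lit 23) (nat_lit 2) (nat_lit 3) (nat_lit 372) c7_8865_0
 (Tr.nd (nat_lit 9) (nat_lit 1) (nat_lit 11) (nat_lit 263) c7_8865_0
 (Tr.nd (nat_lit 7) (nat_lit 1) (nat_lit 100) (nat_lit 47) c7_8865_0
 (Tr.nd (nat_lit 1) (nat_lit 1) (nat_lit 24) (nat_lit 23) c7_8865_0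
 (Tr.nd (nat_lit 0) (nat_lit 1) (nat_lit 23) (nat_lit 0) c7_8865_0
 Tr.lf Tr.lf) Tr.lf) (Tr.nd (nat_lit 8) (nat_lit 1) (nat_lit 116) (nat_lit 147) c7_8865_0
 Tr.lf Tr.lf)) (Tr.nd (nat_lit 16) (nat_lit 2) (nat_lit 7) (nat_lit 335) c7_8865_0
 (Tr.nd (nat_lit 15) (nat_lit 1) (nat_lit 61) (nat_lit 274) c7_8865_0
 Tr.lf Tr.lf) (Tr.nd (nat_lit 22) (nat_lit 1) (nat_lit 23) (nat_lit 349) c7_8865_0
 Tr.lf Tr.lf))) (Tr.nd (nat_lit 56) (nat_lit 1) (nat_lit 276) (nat_lit 521) c7_8865_0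
 (Tr.nd (nat_lit 50) (nat_lit 1) (nat_lit 75) (nat_lit 439) c7_8865_0
 (Tr.nd (nat_lit 49) (nat_lit 1) (nat_lit 61) (nat_lit 378) c7_8865_0
 Tr.lf Tr.lf) (Tr.nd (nat_lit 51) (nat_lit 1) (nat_lit 7) (nat_lit 514) c7_8865_0
 Tr.lf Tr.lf)) (Tr.nd (nat_lit 58) (nat_lit 5) (nat_lit 6) (nat_lit 980) c7_8865_0
 (Tr.nd (nat_lit 57) (nat_lit 3) (nat_lit 61) (nat_lit 797) c7_8865_0
 Tr.lf Tr.lf) (Tr.nd (nat_lit 63) (nat_lit 1) (nat_lit 154) (nat_lit 1010) c7_8865_0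
 Tr.lf Tr.lf)))) (Tr.nd (nat_lit 99) (nat_lit 1) (nat_lit 24) (nat_lit 1658) c7_8865_0
 (Tr.nd (nat_lit 72) (nat_lit 17) (nat_lit 2) (nat_lit 1567) c7_8865_0
 (Tr.nd (nat_lit 70) (nat_lit 1) (nat_lit 63) (nat_lit 1419) c7_8865_0
 (Tr.nd (nat_lit 65) (nat_lit 10) (nat_lit 7) (nat_lit 1349) c7_8865_0
 Tr.lf Tr.lf) (Tr.nd (nat_lit 71) (nat_lit 5) (nat_lit 17) (nat_lit 1482) c7_8865_0
 Tr.lf Tr.lf)) (Tr.nd (nat_lit 79) (nat_lit 23) (nat_lit 1) (nat_lit 1631) c7_8865_0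
 (Tr.nd (nat_lit 78) (nat_lit 5) (nat_lit 6) (nat_lit 1601) c7_8865_0
 Tr.lf Tr.lf) (Tr.nd (nat_lit 85) (nat_lit 4) (nat_lit 1) (nat_lit 1654) c7_8865_0
 Tr.lf Tr.lf))) (Tr.nd (nat_lit 107) (nat_lit 10) (nat_lit 3) (nat_lit 1903) c7_8865_0
 (Tr.nd (nat_lit 105) (nat_lit 1) (nat_lit 100) (nat_lit 1688) c7_8865_0
 (Tr.nd (nat_lit 100) (nat_lit 2) (nat_lit 3) (nat_lit 1682) c7_8865_0
 Tr.lf Tr.lf) (Tr.nd (nat_lit 106) (nat_lit 5) (nat_lit 23) (nat_lit 1788) c7_8865_0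
 Tr.lf Tr.lf)) (Tr.nd (nat_lit 113) (nat_lit 10) (nat_lit 17) (nat_lit 2059) c7_8865_0
 (Tr.nd (nat_lit 112) (nat_lit 2) (nat_lit 63) (nat_lit 1933) c7_8865_0
 Tr.lf Tr.lf) (Tr.nd (nat_lit 114) (nat_lit 30) (nat_lit 7) (nat_lit 2229) c7_8865_0
 Tr.lf Tr.lf))))) (Tr.nd (nat_lit 170) (nat_lit 154) (nat_lit 1) (nat_lit 3532) c7_8865_0
 (Tr.nd (nat_lit 148) (nat_lit 1) (nat_lit 4) (nat_lit 3064) c7_8865_0
 (Tr.nd (nat_lit 127) (nat_lit 23) (nat_lit 5) (nat_lit 2819) c7_8865_0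
 (Tr.nd (nat_lit 121) (nat_lit 63) (nat_lit 2) (nat_lit 2671) c7_8865_0
 (Tr.nd (nat_lit 120) (nat_lit 17) (nat_lit 10) (nat_lit 2501) c7_8865_0
 Tr.lf Tr.lf) (Tr.nd (nat_lit 126) (nat_lit 2) (nat_lit 11) (nat_lit 2797) c7_8865_0
 Tr.lf Tr.lf)) (Tr.nd (nat_lit 133) (nat_lit 2) (nat_lit 3) (nat_lit 3034) c7_8865_0
 (Tr.nd (nat_lit 128) (nat_lit 100) (nat_lit 1) (nat_lit 2934) c7_8865_0
 Tr.lf Tr.lf) (Tr.nd (nat_lit 134) (nat_lit 24) (nat_lit 1) (nat_lit 3040) c7_8865_0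
 Tr.lf Tr.lf))) (Tr.nd (nat_lit 162) (nat_lit 17) (nat_lit 5) (nat_lit 3155) c7_8865_0
 (Tr.nd (nat_lit 155) (nat_lit 5) (nat_lit 6) (nat_lit 3091) c7_8865_0
 (Tr.nd (nat_lit 154) (nat_lit 1) (nat_lit 23) (nat_lit 3068) c7_8865_0
 Tr.lf Tr.lf) (Tr.nd (nat_lit 161) (nat_lit 2) (nat_lit 17) (nat_lit 3121) c7_8865_0
 Tr.lf Tr.lf)) (Tr.nd (nat_lit 168) (nat_lit 4) (nat_lit 11) (nat_lit 3303) c7_8865_0
 (Tr.nd (nat_lit 163) (nat_lit 63) (nat_lit 1) (nat_lit 3240) c7_8865_0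
 Tr.lf Tr.lf) (Tr.nd (nat_lit 169) (nat_lit 37) (nat_lit 5) (nat_lit 3347) c7_8865_0
 Tr.lf Tr.lf)))) (Tr.nd (nat_lit 211) (nat_lit 23) (nat_lit 1) (nat_lit 425) c7_8865_1
 (Tr.nd (nat_lit 182) (nat_lit 7) (nat_lit 1) (nat_lit 276) c7_8865_1
 (Tr.nd (nat_lit 176) (nat_lit 61) (nat_lit 3) (nat_lit 3716) c7_8865_0
 (Tr.nd (nat_lit 175) (nat_lit 6) (nat_lit 5) (nat_lit 3686) c7_8865_0
 Tr.lf Tr.lf) (Tr.nd (nat_lit 177) (nat_lit 276) (nat_lit 1) (nat_lit 0) c7_8865_1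
 Tr.lf Tr.lf)) (Tr.nd (nat_lit 184) (nat_lit 61) (nat_lit 1) (nat_lit 358) c7_8865_1
 (Tr.nd (nat_lit 183) (nat_lit 75) (nat_lit 1) (nat_lit 283) c7_8865_1
 Tr.lf Tr.lf) (Tr.nd (nat_lit 210) (nat_lit 2) (nat_lit 3) (nat_lit 419) c7_8865_1
 Tr.lf Tr.lf))) (Tr.nd (nat_lit 225) (nat_lit 116) (nat_lit 1) (nat_lit 550) c7_8865_1
 (Tr.nd (nat_lit 218) (nat_lit 61) (nat_lit 1) (nat_lit 478) c7_8865_1
 (Tr.nd (nat_lit 217) (nat_lit 6) (nat_lit 5) (nat_lit 448) c7_8865_1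
 Tr.lf Tr.lf) (Tr.nd (nat_lit 224) (nat_lit 11) (nat_lit 1) (nat_lit 539) c7_8865_1
 Tr.lf Tr.lf)) (Tr.nd (nat_lit 232) (nat_lit 24) (nat_lit 1) (nat_lit 766) c7_8865_1
 (Tr.nd (nat_lit 226) (nat_lit 100) (nat_lit 1) (nat_lit 666) c7_8865_1
 Tr.lf Tr.lf) (Tr.nd (nat_lit 233) (nat_lit 23) (nat_lit 1) (nat_lit 790) c7_8865_1
 Tr.lf Tr.lf))))))

end Pool.Agent.Work.MP_bde882_al.Tab
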