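import Pool.Agent.Work.MP_bde882_al_tab.Tab1a
import Pool.Agent.Work.MP_bde882_al_tab.Tab1b
import Pool.Agent.Work.MP_bde882_al_tab.Tab1c
import Pool.Agent.Work.MP_bde882_al_tab.Tab2a
import Pool.Agent.Work.MP_bde882_al_tab.Tab2b
import Pool.Agent.Work.MP_bde882_al_tab.Tab3a
import Pool.Agent.Work.MP_bde882_al_tab.Tab3b
import Pool.Agent.Work.MP_bde882_al_tab.Tab3c
import Pool.Agent.Work.MP_bde882_al_tab.Tab4a
import Pool.Agent.Work.MP_bde882_al_tab.Tab4b
import Pool.Agent.Work.MP_bde882_al_tab.Tab5a
import Pool.Agent.Work.MP_bde882_al_tab.Tab5b
import Pool.Agent.Work.MP_bde882_al_tab.Tab5c
import Pool.Agent.Work.MP_bde882_al_tab.Tab6a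
import Pool.Agent.Work.MP_bde882_al_tab.Tab6b
import Pool.Agent.Work.MP_bde882_al_tab.Tab6c
import Pool.Agent.Work.MP_bde882_al_tab.Tab7a
import Pool.Agent.Work.MP_bde882_al_tab.Tab7b
import Pool.Agent.Work.MP_bde882_al_tab.Tab7c
import Pool.Agent.Work.MP_bde882_al_tab.Tab7d
import Pool.Agent.Work.MP_bde882_al_tab.Tab7e
import Pool.Agent.Work.MP_bde882_al_tab.TabG

/-!
The operators of the Lie basis in the order of `LB` (helper69).
-/

set_option autoImplicit false

namespace Pool.Agent.Work.MP_bde882_al.Tab

open Pool.Agent.Work.MP_bde882_al.Pg62

noncomputable def o0 : Op := T1_0
noncomputable def o1 : Op := T2_9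
noncomputable def o2 : Op := T3_38
noncomputable def o3 : Op := T3_37
noncomputable def o4 : Op := T3_34
noncomputable def o5 : Op := T3_36
noncomputable def o6 : Op := T3_33
noncomputable def o7 : Op := T3_17
noncomputable def o8 : Op := T3_32
noncomputable def o9 : Op := T3_16
noncomputable def o10 : Op := T4_154
noncomputable def o11 : Op := T4_153
noncomputable def o12 : Op := T4_149
noncomputable def o13 : Op := T4_138
noncomputable def o14 : Op := T4_152
noncomputable def o15 : Op := T4_137
noncomputable def o16 : Op := T4_146
noncomputable def o17 : Op := T4_148
noncomputable def o18 : Op := T4_145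
noncomputable def o19 : Op := T4_133
noncomputable def o20 : Op := T4_69
noncomputable def o21 : Op := T4_136
noncomputable def o22 : Op := T4_144
noncomputable def o23 : Op := T4_132
noncomputable def o24 : Op := T4_129
noncomputable def o25 : Op := T4_68
noncomputable def o26 : Op := T4_128
noncomputable def o27 : Op := T4_64
noncomputable def o28 : Op := T5_618
noncomputable def o29 : Op := T5_617
noncomputable def o30 : Op := T5_614
noncomputable def o31 : Op := T5_613
noncomputable def o32 : Op := T5_598
noncomputable def o33 : Op := T5_597
noncomputable def o34 : Op := T5_554
noncomputable def o35 : Op := T5_616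
noncomputable def o36 : Op := T5_553
noncomputable def o37 : Op := T5_610
noncomputable def o38 : Op := T5_550
noncomputable def o39 : Op := T5_612
noncomputable def o40 : Op := T5_609
noncomputable def o41 : Op := T5_549
noncomputable def o42 : Op := T5_585
noncomputable def o43 : Op := T5_594
noncomputable def o44 : Op := T5_582
noncomputable def o45 : Op := T5_596
noncomputable def o46 : Op := T5_593
noncomputable def o47 : Op := T5_581
noncomputable def o48 : Op := T5_533
noncomputable def o49 : Op := T5_277
noncomputable def o50 : Op := T5_552
noncomputable def o51 : Op := T5_546
noncomputable def o52 : Op := T5_608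
noncomputable def o53 : Op := T5_548
noncomputable def o54 : Op := T5_584
noncomputable def o55 : Op := T5_545
noncomputable def o56 : Op := T5_578
noncomputable def o57 : Op := T5_530
noncomputable def o58 : Op := T5_592
noncomputable def o59 : Op := T5_580
noncomputable def o60 : Op := T5_532
noncomputable def o61 : Op := T5_577
noncomputable def o62 : Op := T5_529
noncomputable def o63 : Op := T5_517
noncomputable def o64 : Op := T5_276
noncomputable def o65 : Op := T5_273
noncomputable def o66 : Op := T5_544
noncomputable def o67 : Op := T5_514
noncomputable def o68 : Op := T5_576
noncomputable def o69 : Op := T5_528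
noncomputable def o70 : Op := T5_516
noncomputable def o71 : Op := T5_513
noncomputable def o72 : Op := T5_272
noncomputable def o73 : Op := T5_257
noncomputable def o74 : Op := T5_512
noncomputable def o75 : Op := T5_256
noncomputable def o76 : Op := T6_2474
noncomputable def o77 : Op := T6_2473
noncomputable def o78 : Op := T6_2470
noncomputable def o79 : Op := T6_2469
noncomputable def o80 : Op := T6_2457
noncomputable def o81 : Op := T6_2454
noncomputable def o82 : Op := T6_2453
noncomputable def o83 : Op := T6_2393
noncomputable def o84 : Op := T6_2389
noncomputable def o85 : Op := T6_2218
noncomputable def o86 : Op := T6_2472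
noncomputable def o87 : Op := T6_2217
noncomputable def o88 : Op := T6_2466
noncomputable def o89 : Op := T6_2214
noncomputable def o90 : Op := T6_2442
noncomputable def o91 : Op := T6_2468
noncomputable def o92 : Op := T6_2456
noncomputable def o93 : Op := T6_2465
noncomputable def o94 : Op := T6_2213
noncomputable def o95 : Op := T6_2441
noncomputable def o96 : Op := T6_2201
noncomputable def o97 : Op := T6_2450
noncomputable def o98 : Op := T6_2438
noncomputable def o99 : Op := T6_2198
noncomputable def o100 : Op := T6_2342
noncomputable def o101 : Op := T6_2452
noncomputable def o102 : Op := T6_2392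
noncomputable def o103 : Op := T6_2449
noncomputable def o104 : Op := T6_2437
noncomputable def o105 : Op := T6_2197
noncomputable def o106 : Op := T6_2341
noncomputable def o107 : Op := T6_2377
noncomputable def o108 : Op := T6_2329
noncomputable def o109 : Op := T6_2386
noncomputable def o110 : Op := T6_2374
noncomputable def o111 : Op := T6_2388
noncomputable def o112 : Op := T6_2385
noncomputable def o113 : Op := T6_2373
noncomputable def o114 : Op := T6_2325
noncomputable def o115 : Op := T6_2133
noncomputable def o116 : Op := T6_1109
noncomputable def o117 : Op := T6_2216
noncomputable def o118 : Op := T6_2210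
noncomputable def o119 : Op := T6_2464
noncomputable def o120 : Op := T6_2212
noncomputable def o121 : Op := T6_2440
noncomputable def o122 : Op := T6_2200
noncomputable def o123 : Op := T6_2209
noncomputable def o124 : Op := T6_2185
noncomputable def o125 : Op := T6_2434
noncomputable def o126 : Op := T6_2194
noncomputable def o127 : Op := T6_2338
noncomputable def o128 : Op := T6_2182
noncomputable def o129 : Op := T6_2448
noncomputable def o130 : Op := T6_2436
noncomputable def o131 : Op := T6_2196
noncomputable def o132 : Op := T6_2340
noncomputable def o133 : Op := T6_2376
noncomputable def o134 : Op := T6_2328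
noncomputable def o135 : Op := T6_2433
noncomputable def o136 : Op := T6_2193
noncomputable def o137 : Op := T6_2337
noncomputable def o138 : Op := T6_2181
noncomputable def o139 : Op := T6_2313
noncomputable def o140 : Op := T6_2121
noncomputable def o141 : Op := T6_2370
noncomputable def o142 : Op := T6_2322
noncomputable def o143 : Op := T6_2384
noncomputable def o144 : Op := T6_2372
noncomputable def o145 : Op := T6_2324
noncomputable def o146 : Op := T6_2132
noncomputable def o147 : Op := T6_2369
noncomputable def o148 : Op := T6_2321
noncomputable def o149 : Op := T6_2129
noncomputable def o150 : Op := T6_2309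
noncomputable def o151 : Op := T6_2117
noncomputable def o152 : Op := T6_2069
noncomputable def o153 : Op := T6_1108
noncomputable def o154 : Op := T6_1105
noncomputable def o155 : Op := T6_2208
noncomputable def o156 : Op := T6_2184
noncomputable def o157 : Op := T6_2178
noncomputable def o158 : Op := T6_2432
noncomputable def o159 : Op := T6_2192
noncomputable def o160 : Op := T6_2336
noncomputable def o161 : Op := T6_2180
noncomputable def o162 : Op := T6_2312
noncomputable def o163 : Op := T6_2120
noncomputable def o164 : Op := T6_2177
noncomputable def o165 : Op := T6_2057
noncomputable def o166 : Op := T6_2306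
noncomputable def o167 : Op := T6_2114
noncomputable def o168 : Op := T6_2368
noncomputable def o169 : Op := T6_2320
noncomputable def o170 : Op := T6_2128
noncomputable def o171 : Op := T6_2308
noncomputable def o172 : Op := T6_2116
noncomputable def o173 : Op := T6_2068
noncomputable def o174 : Op := T6_2305
noncomputable def o175 : Op := T6_2113
noncomputable def o176 : Op := T6_2065
noncomputable def o177 : Op := T6_2053
noncomputable def o178 : Op := T6_1104
noncomputable def o179 : Op := T6_1092
noncomputable def o180 : Op := T6_1089
noncomputable def o181 : Op := T6_2176
noncomputable def o182 : Op := T6_2056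
noncomputable def o183 : Op := T6_2304
noncomputable def o184 : Op := T6_2112
noncomputable def o185 : Op := T6_2064
noncomputable def o186 : Op := T6_2052
noncomputable def o187 : Op := T6_2049
noncomputable def o188 : Op := T6_1088
noncomputable def o189 : Op := T6_1028
noncomputable def o190 : Op := T6_2048
noncomputable def o191 : Op := T6_1024
noncomputable def o192 : Op := T7_9898
noncomputable def o193 : Op := T7_9897
noncomputable def o194 : Op := T7_9894
noncomputable def o195 : Op := T7_9882
noncomputable def o196 : Op := T7_9893
noncomputable def o197 : Op := T7_9881
noncomputable def o198 : Op := T7_9878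
noncomputable def o199 : Op := T7_9830
noncomputable def o200 : Op := T7_9818
noncomputable def o201 : Op := T7_9877
noncomputable def o202 : Op := T7_9829
noncomputable def o203 : Op := T7_9817
noncomputable def o204 : Op := T7_9814
noncomputable def o205 : Op := T7_9574
noncomputable def o206 : Op := T7_9813
noncomputable def o207 : Op := T7_9573
noncomputable def o208 : Op := T7_9558
noncomputable def o209 : Op := T7_9557
noncomputable def o210 : Op := T7_8874
noncomputable def o211 : Op := T7_9896
noncomputable def o212 : Op := T7_8873
noncomputable def o213 : Op := T7_9890
noncomputable def o214 : Op := T7_8870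
noncomputable def o215 : Op := T7_9866
noncomputable def o216 : Op := T7_8858
noncomputable def o217 : Op := T7_9892
noncomputable def o218 : Op := T7_9880
noncomputable def o219 : Op := T7_9889
noncomputable def o220 : Op := T7_8869
noncomputable def o221 : Op := T7_9865
noncomputable def o222 : Op := T7_8857
noncomputable def o223 : Op := T7_9769
noncomputable def o224 : Op := T7_9874
noncomputable def o225 : Op := T7_9826
noncomputable def o226 : Op := T7_9862
noncomputable def o227 : Op := T7_8854
noncomputable def o228 : Op := T7_9766
noncomputable def o229 : Op := T7_8806
noncomputable def o230 : Op := T7_9802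
noncomputable def o231 : Op := T7_9754
noncomputable def o232 : Op := T7_9876
noncomputable def o233 : Op := T7_9828
noncomputable def o234 : Op := T7_9816
noncomputable def o235 : Op := T7_9873
noncomputable def o236 : Op := T7_9825
noncomputable def o237 : Op := T7_9861
noncomputable def o238 : Op := T7_8853
noncomputable def o239 : Op := T7_9765
noncomputable def o240 : Op := T7_8805
noncomputable def o241 : Op := T7_9801
noncomputable def o242 : Op := T7_9753
noncomputable def o243 : Op := T7_8793
noncomputable def o244 : Op := T7_9369
noncomputable def o245 : Op := T7_9810
noncomputable def o246 : Op := T7_9570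
noncomputable def o247 : Op := T7_9798
noncomputable def o248 : Op := T7_9750
noncomputable def o249 : Op := T7_8790
noncomputable def o250 : Op := T7_9366
noncomputable def o251 : Op := T7_9318
noncomputable def o252 : Op := T7_9812
noncomputable def o253 : Op := T7_9572
noncomputable def o254 : Op := T7_9809
noncomputable def o255 : Op := T7_9569
noncomputable def o256 : Op := T7_9797
noncomputable def o257 : Op := T7_9749
noncomputable def o258 : Op := T7_8789
noncomputable def o259 : Op := T7_9365
noncomputable def o260 : Op := T7_9509
noncomputable def o261 : Op := T7_9317
noncomputable def o262 : Op := T7_9545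
noncomputable def o263 : Op := T7_9497
noncomputable def o264 : Op := T7_9554
noncomputable def o265 : Op := T7_9542
noncomputable def o266 : Op := T7_9494
noncomputable def o267 : Op := T7_9556
noncomputable def o268 : Op := T7_9553
noncomputable def o269 : Op := T7_9541
noncomputable def o270 : Op := T7_9493
noncomputable def o271 : Op := T7_9301
noncomputable def o272 : Op := T7_8533
noncomputable def o273 : Op := T7_4437
noncomputable def o274 : Op := T7_8872
noncomputable def o275 : Op := T7_8866
noncomputable def o276 : Op := T7_8842
noncomputable def o277 : Op := T7_9888
noncomputable def o278 : Op := T7_8868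
noncomputable def o279 : Op := T7_9864
noncomputable def o280 : Op := T7_8856
noncomputable def o281 : Op := T7_9768
noncomputable def o282 : Op := T7_8865
noncomputable def o283 : Op := T7_8841
noncomputable def o284 : Op := T7_9858
noncomputable def o285 : Op := T7_8850
noncomputable def o286 : Op := T7_9762
noncomputable def o287 : Op := T7_8802
noncomputable def o288 : Op := T7_8838
noncomputable def o289 : Op := T7_8742
noncomputable def o290 : Op := T7_9738
noncomputable def o291 : Op := T7_8778
noncomputable def o292 : Op := T7_9872
noncomputable def o293 : Op := T7_9824
noncomputable def o294 : Op := T7_9860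
noncomputable def o295 : Op := T7_8852
noncomputable def o296 : Op := T7_9764
noncomputable def o297 : Op := T7_8804
noncomputable def o298 : Op := T7_9800
noncomputable def o299 : Op := T7_9752
noncomputable def o300 : Op := T7_8792
noncomputable def o301 : Op := T7_9368
noncomputable def o302 : Op := T7_9857
noncomputable def o303 : Op := T7_8849
noncomputable def o304 : Op := T7_9761
noncomputable def o305 : Op := T7_8801
noncomputable def o306 : Op := T7_8837
noncomputable def o307 : Op := T7_8741
noncomputable def o308 : Op := T7_9737
noncomputable def o309 : Op := T7_8777
noncomputable def o310 : Op := T7_9353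
noncomputable def o311 : Op := T7_8729
noncomputable def o312 : Op := T7_9794
noncomputable def o313 : Op := T7_9746
noncomputable def o314 : Op := T7_8786
noncomputable def o315 : Op := T7_9362
noncomputable def o316 : Op := T7_9506
noncomputable def o317 : Op := T7_9314
noncomputable def o318 : Op := T7_9734
noncomputable def o319 : Op := T7_8774
noncomputable def o320 : Op := T7_9350
noncomputable def o321 : Op := T7_8726
noncomputable def o322 : Op := T7_9808
noncomputable def o323 : Op := T7_9568
noncomputable def o324 : Op := T7_9796
noncomputable def o325 : Op := T7_9748
noncomputable def o326 : Op := T7_8788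
noncomputable def o327 : Op := T7_9364
noncomputable def o328 : Op := T7_9508
noncomputable def o329 : Op := T7_9316
noncomputable def o330 : Op := T7_9544
noncomputable def o331 : Op := T7_9496
noncomputable def o332 : Op := T7_9793
noncomputable def o333 : Op := T7_9745
noncomputable def o334 : Op := T7_8785
noncomputable def o335 : Op := T7_9361
noncomputable def o336 : Op := T7_9505
noncomputable def o337 : Op := T7_9313
noncomputable def o338 : Op := T7_9733
noncomputable def o339 : Op := T7_8773
noncomputable def o340 : Op := T7_9349
noncomputable def o341 : Op := T7_8725
noncomputable def o342 : Op := T7_9253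
noncomputable def o343 : Op := T7_8485
noncomputable def o344 : Op := T7_9481
noncomputable def o345 : Op := T7_9289
noncomputable def o346 : Op := T7_9538
noncomputable def o347 : Op := T7_9490
noncomputable def o348 : Op := T7_9298
noncomputable def o349 : Op := T7_8530
noncomputable def o350 : Op := T7_9478
noncomputable def o351 : Op := T7_9286
noncomputable def o352 : Op := T7_9552
noncomputable def o353 : Op := T7_9540
noncomputable def o354 : Op := T7_9492
noncomputable def o355 : Op := T7_9300
noncomputable def o356 : Op := T7_8532
noncomputable def o357 : Op := T7_9537
noncomputable def o358 : Op := T7_9489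
noncomputable def o359 : Op := T7_9297
noncomputable def o360 : Op := T7_8529
noncomputable def o361 : Op := T7_9477
noncomputable def o362 : Op := T7_9285
noncomputable def o363 : Op := T7_8517
noncomputable def o364 : Op := T7_9237
noncomputable def o365 : Op := T7_8469
noncomputable def o366 : Op := T7_8277
noncomputable def o367 : Op := T7_4436
noncomputable def o368 : Op := T7_4433
noncomputable def o369 : Op := T7_4421
noncomputable def o370 : Op := T7_8864
noncomputable def o371 : Op := T7_8840
noncomputable def o372 : Op := T7_8834
noncomputable def o373 : Op := T7_8738
noncomputable def o374 : Op := T7_8714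
noncomputable def o375 : Op := T7_9856
noncomputable def o376 : Op := T7_8848
noncomputable def o377 : Op := T7_9760
noncomputable def o378 : Op := T7_8800
noncomputable def o379 : Op := T7_8836
noncomputable def o380 : Op := T7_8740
noncomputable def o381 : Op := T7_9736
noncomputable def o382 : Op := T7_8776
noncomputable def o383 : Op := T7_9352
noncomputable def o384 : Op := T7_8728
noncomputable def o385 : Op := T7_8833
noncomputable def o386 : Op := T7_8737
noncomputable def o387 : Op := T7_8713
noncomputable def o388 : Op := T7_9730
noncomputable def o389 : Op := T7_8770
noncomputable def o390 : Op := T7_9346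
noncomputable def o391 : Op := T7_8722
noncomputable def o392 : Op := T7_9250
noncomputable def o393 : Op := T7_8482
noncomputable def o394 : Op := T7_8710
noncomputable def o395 : Op := T7_9792
noncomputable def o396 : Op := T7_9744
noncomputable def o397 : Op := T7_8784
noncomputable def o398 : Op := T7_9360
noncomputable def o399 : Op := T7_9504
noncomputable def o400 : Op := T7_9312
noncomputable def o401 : Op := T7_9732
noncomputable def o402 : Op := T7_8772
noncomputable def o403 : Op := T7_9348
noncomputable def o404 : Op := T7_8724
noncomputable def o405 : Op := T7_9252
noncomputable def o406 : Op := T7_8484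
noncomputable def o407 : Op := T7_9480
noncomputable def o408 : Op := T7_9288
noncomputable def o409 : Op := T7_9729
noncomputable def o410 : Op := T7_8769
noncomputable def o411 : Op := T7_9345
noncomputable def o412 : Op := T7_8721
noncomputable def o413 : Op := T7_9249
noncomputable def o414 : Op := T7_8481
noncomputable def o415 : Op := T7_8709
noncomputable def o416 : Op := T7_8229
noncomputable def o417 : Op := T7_9225
noncomputable def o418 : Op := T7_8457
noncomputable def o419 : Op := T7_9474
noncomputable def o420 : Op := T7_9282
noncomputable def o421 : Op := T7_8514
noncomputable def o422 : Op := T7_9234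
noncomputable def o423 : Op := T7_8466
noncomputable def o424 : Op := T7_9222
noncomputable def o425 : Op := T7_9536
noncomputable def o426 : Op := T7_9488
noncomputable def o427 : Op := T7_9296
noncomputable def o428 : Op := T7_8528
noncomputable def o429 : Op := T7_9476
noncomputable def o430 : Op := T7_9284
noncomputable def o431 : Op := T7_8516
noncomputable def o432 : Op := T7_9236
noncomputable def o433 : Op := T7_8468
noncomputable def o434 : Op := T7_8276
noncomputable def o435 : Op := T7_9473
noncomputable def o436 : Op := T7_9281
noncomputable def o437 : Op := T7_8513
noncomputable def o438 : Op := T7_9233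
noncomputable def o439 : Op := T7_8465
noncomputable def o440 : Op := T7_8273
noncomputable def o441 : Op := T7_9221
noncomputable def o442 : Op := T7_8453
noncomputable def o443 : Op := T7_8261
noncomputable def o444 : Op := T7_8213
noncomputable def o445 : Op := T7_4432
noncomputable def o446 : Op := T7_4420
noncomputable def o447 : Op := T7_4417
noncomputable def o448 : Op := T7_4369
noncomputable def o449 : Op := T7_4357
noncomputable def o450 : Op := T7_8832
noncomputable def o451 : Op := T7_8736
noncomputable def o452 : Op := T7_8712
noncomputable def o453 : Op := T7_8706
noncomputable def o454 : Op := T7_8226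
noncomputable def o455 : Op := T7_9728
noncomputable def o456 : Op := T7_8768
noncomputable def o457 : Op := T7_9344
noncomputable def o458 : Op := T7_8720
noncomputable def o459 : Op := T7_9248
noncomputable def o460 : Op := T7_8480
noncomputable def o461 : Op := T7_8708
noncomputable def o462 : Op := T7_8228
noncomputable def o463 : Op := T7_9224
noncomputable def o464 : Op := T7_8456
noncomputable def o465 : Op := T7_8705
noncomputable def o466 : Op := T7_8225
noncomputable def o467 : Op := T7_9218
noncomputable def o468 : Op := T7_8450
noncomputable def o469 : Op := T7_8258
noncomputable def o470 : Op := T7_9472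
noncomputable def o471 : Op := T7_9280
noncomputable def o472 : Op := T7_8512
noncomputable def o473 : Op := T7_9232
noncomputable def o474 : Op := T7_8464
noncomputable def o475 : Op := T7_8272
noncomputable def o476 : Op := T7_9220
noncomputable def o477 : Op := T7_8452
noncomputable def o478 : Op := T7_8260
noncomputable def o479 : Op := T7_8212
noncomputable def o480 : Op := T7_9217
noncomputable def o481 : Op := T7_8449
noncomputable def o482 : Op := T7_8257
noncomputable def o483 : Op := T7_8209
noncomputable def o484 : Op := T7_8197
noncomputable def o485 : Op := T7_4416
noncomputable def o486 : Op := T7_4368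
noncomputable def o487 : Op := T7_4356
noncomputable def o488 : Op := T7_4353
noncomputable def o489 : Op := T7_4113
noncomputable def o490 : Op := T7_8704
noncomputable def o491 : Op := T7_8224
noncomputable def o492 : Op := T7_8194
noncomputable def o493 : Op := T7_9216
noncomputable def o494 : Op := T7_8448
noncomputable def o495 : Op := T7_8256
noncomputable def o496 : Op := T7_8208
noncomputable def o497 : Op := T7_8196
noncomputable def o498 : Op := T7_8193
noncomputable def o499 : Op := T7_4352
noncomputable def o500 : Op := T7_4112
noncomputable def o501 : Op := T7_4097
noncomputable def o502 : Op := T7_8192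
noncomputable def o503 : Op := T7_4096

end Pool.Agent.Work.MP_bde882_al.Tab
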